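import Mathlib

/-!
# Toads and Frogs: definitions, and soundness of a certificate checker

Short partizan games in the sense of Conway, the game Toads and Frogs on words over
`{T, F, E}` (`E` is the empty square), and a checker for strategies of Left in the sum of a
Toads and Frogs position and `-1` (or `0`).
-/

namespace Q165.TF

/-! ### Games -/

/-- Combinatorial games: `mk α β L R` has the left options `L a` and the right options `R b`. -/
inductive Game : Type 1
  | mk (α β : Type) (L : α → Game) (R : β → Game) : Game

/-- The negative of a game. -/
def Game.neg : Game → Game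
  | .mk α β L R => .mk β α (fun b => (R b).neg) (fun a => (L a).neg)

/-- The (disjunctive) sum of two games. -/
noncomputable def Game.add (x y : Game) : Game := by
  induction x generalizing y with
  | mk xl xr _ _ ihl ihr =>
    induction y with
    | mk yl yr yL yR ihl' ihr' =>
      exact .mk (xl ⊕ yl) (xr ⊕ yr)
        (Sum.elim (fun i => ihl i (.mk yl yr yL yR)) ihl')
        (Sum.elim (fun i => ihr i (.mk yl yr yL yR)) ihr')

/-- `(Left wins moving first, Right wins moving first)` under normal play: a player wins moving
first if and only if some option of his is a game in which the opponent, moving first, loses. -/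
def Game.outcome : Game → Prop × Prop
  | .mk _ _ L R => (∃ a, ¬ (L a).outcome.2, ∃ b, ¬ (R b).outcome.1)

/-- Left wins moving first. -/
def Game.LeftFirst (x : Game) : Prop := x.outcome.1

/-- Right wins moving first. -/
def Game.RightFirst (x : Game) : Prop := x.outcome.2

/-- `x` is a second-player win. -/
def Game.SecondPlayerWin (x : Game) : Prop := ¬ x.LeftFirst ∧ ¬ x.RightFirst

/-- Equality of values: `x = y` when `x - y` is a second-player win. -/
def Game.Eqv (x y : Game) : Prop := (x.add y.neg).SecondPlayerWin

/-- `0 = { | }` -/
def zero : Game := .mk Empty Empty Empty.elim Empty.elim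

/-- `1 = { 0 | }` -/
def one : Game := .mk Unit Empty (fun _ => zero) Empty.elim

/-- `* = { 0 | 0 }` -/
def star : Game := .mk Unit Unit (fun _ => zero) (fun _ => zero)

/-- `1* = 1 + *` -/
noncomputable def oneStar : Game := one.add star

/-! ### Toads and Frogs -/

/-- A square: empty, toad, frog. -/
inductive Sq
  | E | T | F
  deriving DecidableEq

/-- A position: the strip, read from left to right. -/
abbrev Pos := List Sq

/-- Left's moves: a toad slides right into the adjacent empty square, or jumps over exactly one
frog into the empty square immediately beyond. -/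
def LeftMove (w w' : Pos) : Prop :=
  ∃ u v : List Sq, (w = u ++ Sq.T :: Sq.E :: v ∧ w' = u ++ Sq.E :: Sq.T :: v) ∨
    (w = u ++ Sq.T :: Sq.F :: Sq.E :: v ∧ w' = u ++ Sq.E :: Sq.F :: Sq.T :: v)

/-- Right's moves: a frog slides left into the adjacent empty square, or jumps leftward over
exactly one toad into the empty square immediately beyond. -/
def RightMove (w w' : Pos) : Prop :=
  ∃ u v : List Sq, (w = u ++ Sq.E :: Sq.F :: v ∧ w' = u ++ Sq.F :: Sq.E :: v) ∨
    (w = u ++ Sq.E :: Sq.T :: Sq.F :: v ∧ w' = u ++ Sq.F :: Sq.T :: Sq.E :: v)

/-- A measure that decreases with every move: for every toad the number of squares to its right,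
for every frog the number of squares to its left. -/
def meas : Pos → ℕ
  | [] => 0
  | s :: w => (if s = Sq.T then w.length else 0) + w.count Sq.F + meas w

lemma meas_append (u x y : List Sq) (hl : x.length = y.length) (hc : x.count Sq.F = y.count Sq.F)
    (h : meas x < meas y) : meas (u ++ x) < meas (u ++ y) := by
  induction u with
  | nil => simpa using h
  | cons s u ih =>
    simp only [List.cons_append, meas, List.length_append, List.count_append, hl, hc]
    omega

lemma meas_left {w w' : Pos} (h : LeftMove w w') : meas w' < meas w := by
  obtain ⟨u, v, (⟨rfl, rfl⟩ | ⟨rfl, rfl⟩)⟩ := h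
  · apply meas_append
    · simp
    · simp
    · simp [meas]; omega
  · apply meas_append
    · simp
    · simp
    · simp [meas]; omega

lemma meas_right {w w' : Pos} (h : RightMove w w') : meas w' < meas w := by
  obtain ⟨u, v, (⟨rfl, rfl⟩ | ⟨rfl, rfl⟩)⟩ := h
  · apply meas_append
    · simp
    · simp
    · simp [meas]
  · apply meas_append
    · simp
    · simp
    · simp [meas]; omega

/-- The game of a position. -/
def toGame (w : Pos) : Game :=
  .mk {w' : Pos // LeftMove w w'} {w' : Pos // RightMove w w'}
    (fun x => toGame x.1) (fun x => toGame x.1)
termination_by meas w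
decreasing_by
  · exact meas_left x.2
  · exact meas_right x.2

/-- The position `T^a E^a F^(a-1)`. -/
def start (a : ℕ) : Pos :=
  List.replicate a Sq.T ++ List.replicate a Sq.E ++ List.replicate (a - 1) Sq.F

end Q165.TF
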