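import Pool.Agent.Q165.TF.Data

/-!
# The certificate is correct
-/

namespace Q165.TF

theorem cert1 : allT (fun c _ => scan (mem L0) c pw) R0 = true := by decide +kernel

theorem cert2 : allT (fun c _ => cond (mem L0 c) (scan (mem L1) c pw) false) R1 = true := by
  decide +kernel

theorem cert3 : allT (reply (mem R0)) L0 = true := by decide +kernel

theorem cert4 : allT (reply (mem R1)) L1 = true := by decide +kernel

theorem cert5 : mem R1 (code (start 7)) = true := by decide +kernel

theorem cert6 : mem L1 (code (start 7)) = true := by decide +kernel

end Q165.TF
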