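import Pool.Agent.Q165.TF.Basic

/-!
# Soundness of the certificate checker
-/

namespace Q165.TF

/-! ### outcomes of sums -/

/-- `K` has no options at all. -/
def IsZero : Game → Prop
  | .mk α β _ _ => IsEmpty α ∧ IsEmpty β

/-- `K` has no left option, and all its right options have no options. -/
def IsNegOne : Game → Prop
  | .mk α _ _ R => IsEmpty α ∧ ∀ b, IsZero (R b)

/-- `K` has the shape of `0` (for `k = 0`) or of `-1` (for `k ≥ 1`). -/
def Shape : ℕ → Game → Prop
  | 0, K => IsZero K
  | _ + 1, K => IsNegOne K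

lemma leftFirst_of_move {w w' : Pos} (h : LeftMove w w') (K : Game)
    (h' : ¬ ((toGame w').add K).RightFirst) : ((toGame w).add K).LeftFirst := by
  obtain ⟨α, β, L, R⟩ := K
  rw [toGame]
  exact ⟨Sum.inl ⟨w', h⟩, h'⟩

lemma not_rightFirst {w : Pos} {K : Game} (k : ℕ) (hK : Shape k K)
    (h1 : ∀ w', RightMove w w' → ((toGame w').add K).LeftFirst)
    (h2 : 1 ≤ k → ∀ K', Shape 0 K' → ((toGame w).add K').LeftFirst) :
    ¬ ((toGame w).add K).RightFirst := by
  obtain ⟨α, β, L, R⟩ := K
  rw [toGame]
  rintro ⟨b, hb⟩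
  apply hb
  rcases b with ⟨w', hw'⟩ | b
  · exact h1 w' hw'
  · have hR : 1 ≤ k ∧ Shape 0 (R b) := by
      rcases k with _ | k
      · exact (hK.2.false b).elim
      · exact ⟨by omega, hK.2 b⟩
    have := h2 hR.1 (R b) hR.2
    rw [toGame] at this
    exact this

/-! ### codes of positions -/

/-- digit of a square -/
def dig : Sq → ℕ
  | Sq.E => 0
  | Sq.T => 1
  | Sq.F => 2

/-- base-4 code of a position, with the digit `3` after the last square -/
def code : Pos → ℕ
  | [] => 3
  | s :: w => dig s + 4 * code w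

/-- value of a prefix -/
def pre : List Sq → ℕ
  | [] => 0
  | s :: w => dig s + 4 * pre w

lemma dig_lt (s : Sq) : dig s < 3 := by cases s <;> decide

lemma code_append (u x : List Sq) : code (u ++ x) = pre u + 4 ^ u.length * code x := by
  induction u with
  | nil => simp [pre]
  | cons s u ih =>
    simp only [List.cons_append, code, pre, ih, List.length_cons, pow_succ]
    ring

lemma pre_lt (u : List Sq) : pre u < 4 ^ u.length := by
  induction u with
  | nil => simp [pre]
  | cons s u ih =>
    have := dig_lt s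
    simp only [pre, List.length_cons, pow_succ]
    omega

lemma right_code {w w' : Pos} (h : RightMove w w') : ∃ i, i + 2 ≤ w.length ∧
    ((code w / 4 ^ i % 16 = 8 ∧ code w' = code w - 6 * 4 ^ i) ∨
      (code w / 4 ^ i % 64 = 36 ∧ code w' = code w - 30 * 4 ^ i)) := by
  obtain ⟨u, v, (⟨rfl, rfl⟩ | ⟨rfl, rfl⟩)⟩ := h
  · refine ⟨u.length, by simp, Or.inl ⟨?_, ?_⟩⟩
    · rw [code_append, Nat.add_mul_div_left _ _ (by positivity), Nat.div_eq_of_lt (pre_lt u)]
      simp only [code, dig]
      omega
    · rw [code_append, code_append]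
      simp only [code, dig]
      generalize code v = y
      generalize 4 ^ u.length = p
      have h1 : p * (0 + 4 * (2 + 4 * y)) = p * (2 + 4 * (0 + 4 * y)) + 6 * p := by ring
      omega
  · refine ⟨u.length, by simp, Or.inr ⟨?_, ?_⟩⟩
    · rw [code_append, Nat.add_mul_div_left _ _ (by positivity), Nat.div_eq_of_lt (pre_lt u)]
      simp only [code, dig]
      omega
    · rw [code_append, code_append]
      simp only [code, dig]
      generalize code v = y
      generalize 4 ^ u.length = p
      have h1 : p * (0 + 4 * (1 + 4 * (2 + 4 * y))) =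
        p * (2 + 4 * (1 + 4 * (0 + 4 * y))) + 30 * p := by ring
      omega

lemma left_cons {w w' : Pos} (s : Sq) (h : LeftMove w w') : LeftMove (s :: w) (s :: w') := by
  obtain ⟨u, v, h⟩ := h
  refine ⟨s :: u, v, ?_⟩
  rcases h with ⟨rfl, rfl⟩ | ⟨rfl, rfl⟩
  · exact Or.inl ⟨rfl, rfl⟩
  · exact Or.inr ⟨rfl, rfl⟩

lemma code_mod_16 {w : Pos} (h : code w % 16 = 1) : ∃ v, w = Sq.T :: Sq.E :: v := by
  rcases w with _ | ⟨s, _ | ⟨t, v⟩⟩
  · simp [code] at h
  · cases s <;> simp [code, dig] at h
  · refine ⟨v, ?_⟩
    cases s <;> cases t <;> simp only [code, dig] at h <;> first | rfl | omega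

lemma code_mod_64 {w : Pos} (h : code w % 64 = 9) : ∃ v, w = Sq.T :: Sq.F :: Sq.E :: v := by
  rcases w with _ | ⟨s, _ | ⟨t, _ | ⟨r, v⟩⟩⟩
  · simp [code] at h
  · cases s <;> simp [code, dig] at h
  · cases s <;> cases t <;> simp [code, dig] at h
  · refine ⟨v, ?_⟩
    cases s <;> cases t <;> cases r <;> simp only [code, dig] at h <;> first | rfl | omega

lemma code_div (s : Sq) (w : Pos) (i : ℕ) : code (s :: w) / 4 ^ (i + 1) = code w / 4 ^ i := by
  have := dig_lt s
  rw [pow_succ', ← Nat.div_div_eq_div_mul]
  congr 1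
  simp only [code]
  omega

lemma left_slide : ∀ (i : ℕ) (w : Pos), code w / 4 ^ i % 16 = 1 →
    ∃ w', LeftMove w w' ∧ code w' = code w + 3 * 4 ^ i := by
  intro i
  induction i with
  | zero =>
    intro w h
    rw [pow_zero, Nat.div_one] at h
    obtain ⟨v, rfl⟩ := code_mod_16 h
    refine ⟨_, ⟨[], v, Or.inl ⟨rfl, rfl⟩⟩, ?_⟩
    simp only [List.nil_append, code, dig]
    ring
  | succ i ih =>
    intro w h
    rcases w with _ | ⟨s, w⟩
    · have h1 : code [] / 4 ^ (i + 1) = 0 := by
        apply Nat.div_eq_of_lt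
        have : 1 ≤ 4 ^ i := Nat.one_le_pow _ _ (by norm_num)
        rw [pow_succ]
        simp only [code]
        omega
      rw [h1] at h
      simp at h
    · rw [code_div] at h
      obtain ⟨w', h1, h2⟩ := ih w h
      refine ⟨s :: w', left_cons s h1, ?_⟩
      simp only [code, h2, pow_succ]
      ring

lemma left_jump : ∀ (i : ℕ) (w : Pos), code w / 4 ^ i % 64 = 9 →
    ∃ w', LeftMove w w' ∧ code w' = code w + 15 * 4 ^ i := by
  intro i
  induction i with
  | zero =>
    intro w h
    rw [pow_zero, Nat.div_one] at h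
    obtain ⟨v, rfl⟩ := code_mod_64 h
    refine ⟨_, ⟨[], v, Or.inr ⟨rfl, rfl⟩⟩, ?_⟩
    simp only [List.nil_append, code, dig]
    ring
  | succ i ih =>
    intro w h
    rcases w with _ | ⟨s, w⟩
    · have h1 : code [] / 4 ^ (i + 1) = 0 := by
        apply Nat.div_eq_of_lt
        have : 1 ≤ 4 ^ i := Nat.one_le_pow _ _ (by norm_num)
        rw [pow_succ]
        simp only [code]
        omega
      rw [h1] at h
      simp at h
    · rw [code_div] at h
      obtain ⟨w', h1, h2⟩ := ih w h
      refine ⟨s :: w', left_cons s h1, ?_⟩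
      simp only [code, h2, pow_succ]
      ring

lemma left_length {w w' : Pos} (h : LeftMove w w') : w'.length = w.length := by
  obtain ⟨u, v, (⟨rfl, rfl⟩ | ⟨rfl, rfl⟩)⟩ := h <;> simp

lemma right_length {w w' : Pos} (h : RightMove w w') : w'.length = w.length := by
  obtain ⟨u, v, (⟨rfl, rfl⟩ | ⟨rfl, rfl⟩)⟩ := h <;> simp

/-! ### search trees -/

/-- search trees with keys and values -/
inductive Tr
  | leaf : Tr
  | node (l : Tr) (k v : ℕ) (r : Tr) : Tr

/-- membership of a key (written with the recursor, for the kernel) -/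
noncomputable def mem (t : Tr) : ℕ → Bool :=
  Tr.rec (motive := fun _ => ℕ → Bool) (fun _ => false)
    (fun _ k _ _ ihl ihr x =>
      cond (Nat.beq x k) true (cond (Nat.ble x k) (ihl x) (ihr x))) t

/-- all entries satisfy `p` -/
noncomputable def allT (p : ℕ → ℕ → Bool) (t : Tr) : Bool :=
  Tr.rec (motive := fun _ => Bool) true
    (fun _ k v _ ihl ihr => cond (p k v) (cond ihl ihr false) false) t

/-- the entry `(k, v)` occurs -/
def InT (k v : ℕ) : Tr → Prop
  | .leaf => False
  | .node l k' v' r => InT k v l ∨ (k = k' ∧ v = v') ∨ InT k v r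

lemma mem_sound {t : Tr} {x : ℕ} (h : mem t x = true) : ∃ v, InT x v t := by
  induction t with
  | leaf => exact (Bool.false_ne_true h).elim
  | node l k v r ihl ihr =>
    have h' : cond (Nat.beq x k) true (cond (Nat.ble x k) (mem l x) (mem r x)) = true := h
    cases h1 : Nat.beq x k with
    | true =>
      exact ⟨v, Or.inr (Or.inl ⟨Nat.eq_of_beq_eq_true h1, rfl⟩)⟩
    | false =>
      rw [h1] at h'
      cases h2 : Nat.ble x k with
      | true =>
        rw [h2] at h'
        obtain ⟨v', hv'⟩ := ihl h'
        exact ⟨v', Or.inl hv'⟩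
      | false =>
        rw [h2] at h'
        obtain ⟨v', hv'⟩ := ihr h'
        exact ⟨v', Or.inr (Or.inr hv')⟩

lemma allT_sound {p : ℕ → ℕ → Bool} {t : Tr} (h : allT p t = true) {k v : ℕ}
    (hin : InT k v t) : p k v = true := by
  induction t with
  | leaf => exact absurd hin id
  | node l k' v' r ihl ihr =>
    have h' : cond (p k' v') (cond (allT p l) (allT p r) false) false = true := h
    cases h1 : p k' v' with
    | false => rw [h1] at h'; exact (Bool.false_ne_true h').elim
    | true =>
      rw [h1] at h'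
      cases h2 : allT p l with
      | false => rw [h2] at h'; exact (Bool.false_ne_true h').elim
      | true =>
        rw [h2] at h'
        rcases hin with hin | ⟨rfl, rfl⟩ | hin
        · exact ihl h2 hin
        · exact h1
        · exact ihr h' hin

/-! ### the checks -/

/-- powers of 4 -/
def pw : List ℕ := [nat_lit 1, nat_lit 4, nat_lit 16, nat_lit 64, nat_lit 256, nat_lit 1024,
  nat_lit 4096, nat_lit 16384, nat_lit 65536, nat_lit 262144, nat_lit 1048576, nat_lit 4194304,
  nat_lit 16777216, nat_lit 67108864, nat_lit 268435456, nat_lit 1073741824, nat_lit 4294967296,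
  nat_lit 17179869184, nat_lit 68719476736]

lemma mem_pw {i : ℕ} (h : i < 19) : 4 ^ i ∈ pw := by
  interval_cases i <;> simp [pw]

/-- all Right moves from the code `c` lead to `M` -/
noncomputable def scan (M : ℕ → Bool) (c : ℕ) (ps : List ℕ) : Bool :=
  List.rec (motive := fun _ => Bool) true (fun p _ ih =>
    cond (cond (Nat.beq (Nat.mod (Nat.div c p) (nat_lit 16)) (nat_lit 8))
      (M (Nat.sub c (Nat.mul (nat_lit 6) p))) true)
      (cond (cond (Nat.beq (Nat.mod (Nat.div c p) (nat_lit 64)) (nat_lit 36))
        (M (Nat.sub c (Nat.mul (nat_lit 30) p))) true) ih false) false) ps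

lemma scan_sound {M : ℕ → Bool} {c : ℕ} {ps : List ℕ} (h : scan M c ps = true) :
    ∀ p ∈ ps, (c / p % 16 = 8 → M (c - 6 * p) = true) ∧
      (c / p % 64 = 36 → M (c - 30 * p) = true) := by
  induction ps with
  | nil => simp
  | cons p ps ih =>
    have h' : cond (cond (Nat.beq (c / p % 16) 8) (M (c - 6 * p)) true)
      (cond (cond (Nat.beq (c / p % 64) 36) (M (c - 30 * p)) true) (scan M c ps) false)
        false = true := h
    have key : ∀ b : Bool, ∀ y : Bool, cond b y false = true → b = true ∧ y = true := by decide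
    have h1 := key _ _ h'
    have h2 := key _ _ h1.2
    have key2 : ∀ (x y : ℕ) (b : Bool), cond (Nat.beq x y) b true = true → x = y → b = true := by
      intro x y b h e
      subst e
      have : Nat.beq x x = true := Nat.beq_refl x
      rw [this] at h
      exact h
    intro q hq
    rw [List.mem_cons] at hq
    rcases hq with rfl | hq
    · exact ⟨key2 _ _ _ h1.1, key2 _ _ _ h2.1⟩
    · exact ih h2.2 q hq

/-- the reply `v` (twice the place, plus one for a jump) of Left in the position with code `c`
is a legal move and leads to `M` -/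
noncomputable def reply (M : ℕ → Bool) (c v : ℕ) : Bool :=
  cond (Nat.beq (Nat.mod v (nat_lit 2)) (nat_lit 0))
    (cond (Nat.beq (Nat.mod (Nat.div c (Nat.pow (nat_lit 4) (Nat.div v (nat_lit 2))))
      (nat_lit 16)) (nat_lit 1))
      (M (Nat.add c (Nat.mul (nat_lit 3) (Nat.pow (nat_lit 4) (Nat.div v (nat_lit 2)))))) false)
    (cond (Nat.beq (Nat.mod (Nat.div c (Nat.pow (nat_lit 4) (Nat.div v (nat_lit 2))))
      (nat_lit 64)) (nat_lit 9))
      (M (Nat.add c (Nat.mul (nat_lit 15) (Nat.pow (nat_lit 4) (Nat.div v (nat_lit 2)))))) false)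

lemma reply_sound {M : ℕ → Bool} {w : Pos} {v : ℕ} (h : reply M (code w) v = true) :
    ∃ w', LeftMove w w' ∧ M (code w') = true := by
  have h' : cond (Nat.beq (v % 2) 0)
    (cond (Nat.beq (code w / 4 ^ (v / 2) % 16) 1) (M (code w + 3 * 4 ^ (v / 2))) false)
    (cond (Nat.beq (code w / 4 ^ (v / 2) % 64) 9) (M (code w + 15 * 4 ^ (v / 2))) false)
      = true := h
  cases h1 : Nat.beq (v % 2) 0 with
  | true =>
    rw [h1] at h'
    simp only [cond_true] at h'
    cases h2 : Nat.beq (code w / 4 ^ (v / 2) % 16) 1 with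
    | false => rw [h2] at h'; exact (Bool.false_ne_true h').elim
    | true =>
      rw [h2] at h'
      obtain ⟨w', h3, h4⟩ := left_slide _ w (Nat.eq_of_beq_eq_true h2)
      refine ⟨w', h3, ?_⟩
      rw [h4]
      exact h'
  | false =>
    rw [h1] at h'
    simp only [cond_false] at h'
    cases h2 : Nat.beq (code w / 4 ^ (v / 2) % 64) 9 with
    | false => rw [h2] at h'; exact (Bool.false_ne_true h').elim
    | true =>
      rw [h2] at h'
      obtain ⟨w', h3, h4⟩ := left_jump _ w (Nat.eq_of_beq_eq_true h2)
      refine ⟨w', h3, ?_⟩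
      rw [h4]
      exact h'

/-- **Soundness.** `R k c`: positions in which Right is to move (`k = 1`: the component `-1` is
still there, `k = 0`: it is used up), `L k c`: positions in which Left is to move. -/
theorem sound (R L : ℕ → ℕ → Bool)
    (hR : ∀ k c, R k c = true → scan (L k) c pw = true ∧ (1 ≤ k → L 0 c = true))
    (hL : ∀ k c, L k c = true → ∃ v, reply (R k) c v = true) :
    ∀ (n : ℕ) (w : Pos) (k : ℕ) (K : Game), w.length ≤ 20 → meas w + k ≤ n → Shape k K →
      (R k (code w) = true → ¬ ((toGame w).add K).RightFirst) ∧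
      (L k (code w) = true → ((toGame w).add K).LeftFirst) := by
  intro n
  induction n with
  | zero =>
    intro w k K hw hn hK
    refine ⟨fun h => ?_, fun h => ?_⟩
    · apply not_rightFirst k hK
      · intro w' hw'
        have := meas_right hw'
        omega
      · intro hk
        omega
    · obtain ⟨v, hv⟩ := hL _ _ h
      obtain ⟨w', h1, _⟩ := reply_sound hv
      have := meas_left h1
      omega
  | succ n ih =>
    intro w k K hw hn hK
    refine ⟨fun h => ?_, fun h => ?_⟩
    · obtain ⟨h1, h2⟩ := hR _ _ h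
      apply not_rightFirst k hK
      · intro w' hw'
        have hm := meas_right hw'
        have hl := right_length hw'
        refine (ih w' k K (by omega) (by omega) hK).2 ?_
        obtain ⟨i, hi, hi'⟩ := right_code hw'
        have h3 := scan_sound h1 _ (mem_pw (show i < 19 by omega))
        rcases hi' with ⟨h4, h5⟩ | ⟨h4, h5⟩
        · rw [h5]; exact h3.1 h4
        · rw [h5]; exact h3.2 h4
      · intro hk K' hK'
        exact (ih w 0 K' hw (by omega) hK').2 (h2 hk)
    · obtain ⟨v, hv⟩ := hL _ _ h
      obtain ⟨w', h1, h2⟩ := reply_sound hv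
      have hm := meas_left h1
      have hl := left_length h1
      exact leftFirst_of_move h1 K ((ih w' k K (by omega) (by omega) hK).1 h2)

/-- The certificate given by four trees. -/
theorem sound_trees (R0 R1 L0 L1 : Tr)
    (h1 : allT (fun c _ => scan (mem L0) c pw) R0 = true)
    (h2 : allT (fun c _ => cond (mem L0 c) (scan (mem L1) c pw) false) R1 = true)
    (h3 : allT (reply (mem R0)) L0 = true)
    (h4 : allT (reply (mem R1)) L1 = true) (w : Pos) (hw : w.length ≤ 20) (K : Game)
    (hK : Shape 1 K) :
    (mem R1 (code w) = true → ¬ ((toGame w).add K).RightFirst) ∧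
      (mem L1 (code w) = true → ((toGame w).add K).LeftFirst) := by
  have key := sound (fun k => if k = 0 then mem R0 else if k = 1 then mem R1 else fun _ => false)
    (fun k => if k = 0 then mem L0 else if k = 1 then mem L1 else fun _ => false) ?_ ?_
    (meas w + 1) w 1 K hw le_rfl hK
  · simpa using key
  · intro k c h
    by_cases hk : k = 0
    · subst hk
      simp only [if_true] at h ⊢
      obtain ⟨v, hv⟩ := mem_sound h
      exact ⟨allT_sound h1 hv, by omega⟩
    · by_cases hk1 : k = 1
      · subst hk1
        simp only [one_ne_zero, if_false, if_true] at h ⊢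
        obtain ⟨v, hv⟩ := mem_sound h
        have h5 := allT_sound h2 hv
        cases h6 : mem L0 c with
        | false => simp only [h6] at h5; exact (Bool.false_ne_true h5).elim
        | true => simp only [h6] at h5; exact ⟨h5, fun _ => rfl⟩
      · simp [hk, hk1] at h
  · intro k c h
    by_cases hk : k = 0
    · subst hk
      simp only [if_true] at h ⊢
      obtain ⟨v, hv⟩ := mem_sound h
      exact ⟨v, allT_sound h3 hv⟩
    · by_cases hk1 : k = 1
      · subst hk1
        simp only [one_ne_zero, if_false, if_true] at h ⊢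
        obtain ⟨v, hv⟩ := mem_sound h
        exact ⟨v, allT_sound h4 hv⟩
      · simp [hk, hk1] at h

end Q165.TF
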