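import Pool.Agent.Q165.TF.Check

/-!
# The certificate: Left's strategies in `T^7 E^7 F^6 - 1`

`R1`, `R0`: positions with Right to move (`-1` still there, used up); `L1`, `L0`: positions with
Left to move, with his reply.
-/

namespace Q165.TF

open Tr

set_option maxRecDepth 100000

noncomputable def R0_0 : Tr := (node (node (node (node (node (node leaf (nat_lit 3305691695188) (nat_lit 0) leaf) (nat_lit 3305691744340) (nat_lit 0) leaf) (nat_lit 3305691746569) (nat_lit 0) (node leaf (nat_lit 3308912984212) (nat_lit 0) leaf)) (nat_lit 3309969933844) (nat_lit 0) (node (node leaf (nat_lit 3309969934672) (nat_lit 0) leaf) (nat_lit 3309969936532) (nat_lit 0) (node leaf (nat_lit 3309969938512) (nat_lit 0) leaf))) (nat_lit 3309969948709) (nat_lit 0) (node (node (node leaf (nat_lit 3309969948745) (nat_lit 0) leaf) (nat_lit 3309969948769) (nat_lit 0) (node leaf (nat_lit 3309969948805) (nat_lit 0) leaf)) (nat_lit 3309969948817) (nat_lit 0) (node (node leaf (nat_lit 3309969948820) (nat_lit 0) leaf) (nat_lit 3309969948937) (nat_lit 0) (node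 leaf (nat_lit 3309969948961) (nat_lit 0) leaf)))) (nat_lit 3309969948964) (nat_lit 0) (node (node (node (node (node leaf (nat_lit 3309969949060) (nat_lit 0) leaf) (nat_lit 3309969949252) (nat_lit 0) leaf) (nat_lit 3309969949264) (nat_lit 0) (node leaf (nat_lit 3309969949702) (nat_lit 0) leaf)) (nat_lit 3309969949705) (nat_lit 0) (node (node leaf (nat_lit 3309969949714) (nat_lit 0) leaf) (nat_lit 3309969949732) (nat_lit 0) (node leaf (nat_lit 3309969949828) (nat_lit 0) leaf))) (nat_lit 3309969952786) (nat_lit 0) (node (node (node leaf (nat_lit 3309969952804) (nat_lit 0) leaf) (nat_lit 3309969952834) (nat_lit 0) (node leaf (nat_lit 3309969952864) (nat_lit 0) leaf)) (nat_lit 3309969952900) (nat_lit 0) (node (node leaf (nat_lit 3309969953032) (nat_lit 0) leaf) (nat_lit 3309969953794) (nat_lit 0) (node leaf (nat_lit 3309982277968) (nat_lit 0) leaf)))))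

noncomputable def R0_1 : Tr := (node (node (node (node (node (node leaf (nat_lit 3309982340164) (nat_lit 0) leaf) (nat_lit 3309982340356) (nat_lit 0) leaf) (nat_lit 3309982340368) (nat_lit 0) (node leaf (nat_lit 3309982340416) (nat_lit 0) leaf)) (nat_lit 3309982468432) (nat_lit 0) (node (node leaf (nat_lit 3309982474576) (nat_lit 0) leaf) (nat_lit 3309982483792) (nat_lit 0) (node leaf (nat_lit 3309982486864) (nat_lit 0) leaf))) (nat_lit 3309982487632) (nat_lit 0) (node (node (node leaf (nat_lit 3309982516756) (nat_lit 0) leaf) (nat_lit 3309982517332) (nat_lit 0) (node leaf (nat_lit 3309982517584) (nat_lit 0) leaf)) (nat_lit 3309982519393) (nat_lit 0) (node (node leaf (nat_lit 3309982519429) (nat_lit 0) leaf) (nat_lit 3309982519444) (nat_lit 0) (node leaf (nat_lit 3309982519828) (nat_lit 0) leaf)))) (nat_lit 3309982519888) (nat_lit 0) (node (node (node (node leaf (nat_lit 3309982521424) (nat_lit 0) leaf) (nat_lit 3309982523728) (nat_lit 0) (node leaf (nat_lit 3309982524496) (nat_lit 0) leaf)) (nat_lit 3309982531657) (nat_lit 0)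 (node (node leaf (nat_lit 3309982531681) (nat_lit 0) leaf) (nat_lit 3309982531729) (nat_lit 0) (node leaf (nat_lit 3309982531732) (nat_lit 0) leaf))) (nat_lit 3309982531849) (nat_lit 0) (node (node (node leaf (nat_lit 3309982531864) (nat_lit 0) leaf) (nat_lit 3309982531873) (nat_lit 0) (node leaf (nat_lit 3309982531876) (nat_lit 0) leaf)) (nat_lit 3309982531972) (nat_lit 0) (node (node leaf (nat_lit 3309982531984) (nat_lit 0) leaf) (nat_lit 3309982532116) (nat_lit 0) (node leaf (nat_lit 3309982532164) (nat_lit 0) leaf)))))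

noncomputable def R0_2 : Tr := node R0_0 (nat_lit 3309982287184) (nat_lit 0) R0_1

noncomputable def R0_3 : Tr := (node (node (node (node (node (node leaf (nat_lit 3309982532614) (nat_lit 0) leaf) (nat_lit 3309982532626) (nat_lit 0) leaf) (nat_lit 3309982532632) (nat_lit 0) (node leaf (nat_lit 3309982532644) (nat_lit 0) leaf)) (nat_lit 3309982532680) (nat_lit 0) (node (node leaf (nat_lit 3309982532704) (nat_lit 0) leaf) (nat_lit 3309982533136) (nat_lit 0) (node leaf (nat_lit 3309982533712) (nat_lit 0) leaf))) (nat_lit 3309982535698) (nat_lit 0) (node (node (node leaf (nat_lit 3309982535746) (nat_lit 0) leaf) (nat_lit 3309982535752) (nat_lit 0) (node leaf (nat_lit 3309982535776) (nat_lit 0) leaf)) (nat_lit 3309982535812) (nat_lit 0) (node (node leaf (nat_lit 3309982535824) (nat_lit 0) leaf) (nat_lit 3309982535938) (nat_lit 0) (node leaf (nat_lit 3309982535944) (nat_lit 0) leaf)))) (nat_lit 3309982536706) (nat_lit 0) (node (node (node (node leaf (nat_lit 3309982733377) (nat_lit 0) leaf) (nat_lit 3309982733380) (nat_lit 0) (node leaf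 (nat_lit 3309982733392) (nat_lit 0) leaf)) (nat_lit 3309982733584) (nat_lit 0) (node (node leaf (nat_lit 3309983323216) (nat_lit 0) leaf) (nat_lit 3309983323408) (nat_lit 0) (node leaf (nat_lit 3309983569153) (nat_lit 0) leaf))) (nat_lit 3309985682512) (nat_lit 0) (node (node (node leaf (nat_lit 3309985682704) (nat_lit 0) leaf) (nat_lit 3309986661712) (nat_lit 0) (node leaf (nat_lit 3309986710864) (nat_lit 0) leaf)) (nat_lit 3318576580948) (nat_lit 0) (node (node leaf (nat_lit 3318576595540) (nat_lit 0) leaf) (nat_lit 3318576644245) (nat_lit 0) (node leaf (nat_lit 3318576644692) (nat_lit 0) leaf)))))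

noncomputable def R0_4 : Tr := (node (node (node (node (node (node leaf (nat_lit 3318576660745) (nat_lit 0) leaf) (nat_lit 3334682775700) (nat_lit 0) leaf) (nat_lit 3335739689296) (nat_lit 0) (node leaf (nat_lit 3335739736660) (nat_lit 0) leaf)) (nat_lit 3335739738448) (nat_lit 0) (node (node leaf (nat_lit 3335739740197) (nat_lit 0) leaf) (nat_lit 3335739740293) (nat_lit 0) (node leaf (nat_lit 3335739740308) (nat_lit 0) leaf))) (nat_lit 3335739740752) (nat_lit 0) (node (node (node leaf (nat_lit 3335739741202) (nat_lit 0) leaf) (nat_lit 3335739741220) (nat_lit 0) (node leaf (nat_lit 3335739752485) (nat_lit 0) leaf)) (nat_lit 3335739752545) (nat_lit 0) (node (node leaf (nat_lit 3335739752581) (nat_lit 0) leaf) (nat_lit 3335739752596) (nat_lit 0) (node leaf (nat_lit 3335739752713) (nat_lit 0) leaf)))) (nat_lit 3335739752836) (nat_lit 0) (node (node (node (node leaf (nat_lit 3335739752980) (nat_lit 0) leaf) (nat_lit 3335739753508) (nat_lit 0) (node leaf (nat_lit 3335739753604) (nat_lit 0) leaf)) (nat_lit 3335739756550) (nat_lit 0)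 (node (node leaf (nat_lit 3335739756562) (nat_lit 0) leaf) (nat_lit 3335739756580) (nat_lit 0) (node leaf (nat_lit 3335752066384) (nat_lit 0) leaf))) (nat_lit 3335752090948) (nat_lit 0) (node (node (node leaf (nat_lit 3335752090960) (nat_lit 0) leaf) (nat_lit 3335752143172) (nat_lit 0) (node leaf (nat_lit 3335752143940) (nat_lit 0) leaf)) (nat_lit 3335752143952) (nat_lit 0) (node (node leaf (nat_lit 3335752144144) (nat_lit 0) leaf) (nat_lit 3335752262992) (nat_lit 0) (node leaf (nat_lit 3335752271956) (nat_lit 0) leaf)))))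

noncomputable def R0_5 : Tr := node R0_3 (nat_lit 3318576660577) (nat_lit 0) R0_4

noncomputable def R0_6 : Tr := node R0_2 (nat_lit 3309982532176) (nat_lit 0) R0_5

noncomputable def R0_7 : Tr := (node (node (node (node (node (node leaf (nat_lit 3335752272208) (nat_lit 0) leaf) (nat_lit 3335752278352) (nat_lit 0) leaf) (nat_lit 3335752287568) (nat_lit 0) (node leaf (nat_lit 3335752290640) (nat_lit 0) leaf)) (nat_lit 3335752319572) (nat_lit 0) (node (node leaf (nat_lit 3335752320133) (nat_lit 0) leaf) (nat_lit 3335752320148) (nat_lit 0) (node leaf (nat_lit 3335752320532) (nat_lit 0) leaf))) (nat_lit 3335752321360) (nat_lit 0) (node (node (node leaf (nat_lit 3335752323109) (nat_lit 0) leaf) (nat_lit 3335752323169) (nat_lit 0) (node leaf (nat_lit 3335752323220) (nat_lit 0) leaf)) (nat_lit 3335752323604) (nat_lit 0) (node (node leaf (nat_lit 3335752325200) (nat_lit 0) leaf) (nat_lit 3335752327504) (nat_lit 0) (node leaf (nat_lit 3335752335433) (nat_lit 0) leaf)))) (nat_lit 3335752335457) (nat_lit 0) (node (node (node (node (node leaf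 (nat_lit 3335752335493) (nat_lit 0) leaf) (nat_lit 3335752335505) (nat_lit 0) leaf) (nat_lit 3335752335508) (nat_lit 0) (node leaf (nat_lit 3335752335625) (nat_lit 0) leaf)) (nat_lit 3335752335640) (nat_lit 0) (node (node leaf (nat_lit 3335752335649) (nat_lit 0) leaf) (nat_lit 3335752335652) (nat_lit 0) (node leaf (nat_lit 3335752335748) (nat_lit 0) leaf))) (nat_lit 3335752335892) (nat_lit 0) (node (node (node leaf (nat_lit 3335752335940) (nat_lit 0) leaf) (nat_lit 3335752335952) (nat_lit 0) (node leaf (nat_lit 3335752336390) (nat_lit 0) leaf)) (nat_lit 3335752336402) (nat_lit 0) (node (node leaf (nat_lit 3335752336408) (nat_lit 0) leaf) (nat_lit 3335752336420) (nat_lit 0) (node leaf (nat_lit 3335752336516) (nat_lit 0) leaf)))))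

noncomputable def R0_8 : Tr := (node (node (node (node (node (node leaf (nat_lit 3335752339492) (nat_lit 0) leaf) (nat_lit 3335752536385) (nat_lit 0) leaf) (nat_lit 3335752536400) (nat_lit 0) (node leaf (nat_lit 3335752537153) (nat_lit 0) leaf)) (nat_lit 3335752537168) (nat_lit 0) (node (node leaf (nat_lit 3335753126224) (nat_lit 0) leaf) (nat_lit 3335753126992) (nat_lit 0) (node leaf (nat_lit 3335753372737) (nat_lit 0) leaf))) (nat_lit 3335755485520) (nat_lit 0) (node (node (node leaf (nat_lit 3335755486288) (nat_lit 0) leaf) (nat_lit 3335756453200) (nat_lit 0) (node leaf (nat_lit 3335756465488) (nat_lit 0) leaf)) (nat_lit 3337903933780) (nat_lit 0) (node (node leaf (nat_lit 3337903937620) (nat_lit 0) leaf) (nat_lit 3337903948372) (nat_lit 0) (node leaf (nat_lit 3337903949908) (nat_lit 0) leaf)))) (nat_lit 3337903997077) (nat_lit 0) (node (node (node (node leaf (nat_lit 3337903997524) (nat_lit 0) leaf) (nat_lit 3337903998217) (nat_lit 0) (node leaf (nat_lit 3337904013409) (nat_lit 0) leaf)) (nat_lit 3337904013577) (nat_lit 0)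 (node (node leaf (nat_lit 3342182140228) (nat_lit 0) leaf) (nat_lit 3342182140240) (nat_lit 0) (node leaf (nat_lit 3342182142100) (nat_lit 0) leaf))) (nat_lit 3342182187601) (nat_lit 0) (node (node (node leaf (nat_lit 3342182188069) (nat_lit 0) leaf) (nat_lit 3342182188165) (nat_lit 0) (node leaf (nat_lit 3342182191141) (nat_lit 0) leaf)) (nat_lit 3342182191237) (nat_lit 0) (node (node leaf (nat_lit 3342182191252) (nat_lit 0) leaf) (nat_lit 3342182191378) (nat_lit 0) (node leaf (nat_lit 3342182191396) (nat_lit 0) leaf)))))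

noncomputable def R0_9 : Tr := node R0_7 (nat_lit 3335752339474) (nat_lit 0) R0_8

noncomputable def R0_10 : Tr := (node (node (node (node (node (node leaf (nat_lit 3342182191684) (nat_lit 0) leaf) (nat_lit 3342182203429) (nat_lit 0) leaf) (nat_lit 3342182203540) (nat_lit 0) (node leaf (nat_lit 3342182203780) (nat_lit 0) leaf)) (nat_lit 3342182204434) (nat_lit 0) (node (node leaf (nat_lit 3342182204452) (nat_lit 0) leaf) (nat_lit 3342194480452) (nat_lit 0) (node leaf (nat_lit 3342194517316) (nat_lit 0) leaf))) (nat_lit 3342194517328) (nat_lit 0) (node (node (node leaf (nat_lit 3342194541892) (nat_lit 0) leaf) (nat_lit 3342194594113) (nat_lit 0) (node leaf (nat_lit 3342194594836) (nat_lit 0) leaf)) (nat_lit 3342194594884) (nat_lit 0) (node (node leaf (nat_lit 3342194595076) (nat_lit 0) leaf) (nat_lit 3342194710612) (nat_lit 0) (node leaf (nat_lit 3342194713936) (nat_lit 0) leaf)))) (nat_lit 3342194721364) (nat_lit 0) (node (node (node (node leaf (nat_lit 3342194721940) (nat_lit 0) leaf) (nat_lit 3342194723092) (nat_lit 0) (node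 leaf (nat_lit 3342194723140) (nat_lit 0) leaf)) (nat_lit 3342194729296) (nat_lit 0) (node (node leaf (nat_lit 3342194738500) (nat_lit 0) leaf) (nat_lit 3342194738512) (nat_lit 0) (node leaf (nat_lit 3342194770309) (nat_lit 0) leaf))) (nat_lit 3342194770516) (nat_lit 0) (node (node (node leaf (nat_lit 3342194770981) (nat_lit 0) leaf) (nat_lit 3342194771092) (nat_lit 0) (node leaf (nat_lit 3342194771476) (nat_lit 0) leaf)) (nat_lit 3342194772292) (nat_lit 0) (node (node leaf (nat_lit 3342194772304) (nat_lit 0) leaf) (nat_lit 3342194774053) (nat_lit 0) (node leaf (nat_lit 3342194774149) (nat_lit 0) leaf)))))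

noncomputable def R0_11 : Tr := (node (node (node (node (node (node leaf (nat_lit 3342194774548) (nat_lit 0) leaf) (nat_lit 3342194786341) (nat_lit 0) leaf) (nat_lit 3342194786377) (nat_lit 0) (node leaf (nat_lit 3342194786401) (nat_lit 0) leaf)) (nat_lit 3342194786437) (nat_lit 0) (node (node leaf (nat_lit 3342194786449) (nat_lit 0) leaf) (nat_lit 3342194786452) (nat_lit 0) (node leaf (nat_lit 3342194786569) (nat_lit 0) leaf))) (nat_lit 3342194786584) (nat_lit 0) (node (node (node leaf (nat_lit 3342194786593) (nat_lit 0) leaf) (nat_lit 3342194786692) (nat_lit 0) (node leaf (nat_lit 3342194786836) (nat_lit 0) leaf)) (nat_lit 3342194787346) (nat_lit 0) (node (node leaf (nat_lit 3342194787364) (nat_lit 0) leaf) (nat_lit 3342194987281) (nat_lit 0) (node leaf (nat_lit 3342194987332) (nat_lit 0) leaf)))) (nat_lit 3342194988049) (nat_lit 0) (node (node (node (node leaf (nat_lit 3342194988100) (nat_lit 0) leaf) (nat_lit 3342195577156) (nat_lit 0) (node leaf (nat_lit 3342195577924) (nat_lit 0) leaf)) (nat_lit 3342195823633) (nat_lit 0)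 (node (node leaf (nat_lit 3342197936452) (nat_lit 0) leaf) (nat_lit 3342197937220) (nat_lit 0) (node leaf (nat_lit 3342198904132) (nat_lit 0) leaf))) (nat_lit 3342198916420) (nat_lit 0) (node (node (node leaf (nat_lit 3342735771988) (nat_lit 0) leaf) (nat_lit 3342735775828) (nat_lit 0) (node leaf (nat_lit 3342735786580) (nat_lit 0) leaf)) (nat_lit 3342735788116) (nat_lit 0) (node (node leaf (nat_lit 3342735835285) (nat_lit 0) leaf) (nat_lit 3342735835732) (nat_lit 0) (node leaf (nat_lit 3342735836308) (nat_lit 0) leaf)))))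

noncomputable def R0_12 : Tr := node R0_10 (nat_lit 3342194774164) (nat_lit 0) R0_11

noncomputable def R0_13 : Tr := node R0_9 (nat_lit 3342182191636) (nat_lit 0) R0_12

noncomputable def R0_14 : Tr := node R0_6 (nat_lit 3335752272196) (nat_lit 0) R0_13

noncomputable def R0_15 : Tr := (node (node (node (node (node (node leaf (nat_lit 3342735851617) (nat_lit 0) leaf) (nat_lit 3342735851785) (nat_lit 0) leaf) (nat_lit 3343792740676) (nat_lit 0) (node leaf (nat_lit 3343792751764) (nat_lit 0) leaf)) (nat_lit 3343792752964) (nat_lit 0) (node (node leaf (nat_lit 3343792800037) (nat_lit 0) leaf) (nat_lit 3343792800133) (nat_lit 0) (node leaf (nat_lit 3343792800325) (nat_lit 0) leaf))) (nat_lit 3343792800805) (nat_lit 0) (node (node (node leaf (nat_lit 3343792800901) (nat_lit 0) leaf) (nat_lit 3343792801300) (nat_lit 0) (node leaf (nat_lit 3343792803877) (nat_lit 0) leaf)) (nat_lit 3343792803988) (nat_lit 0) (node (node leaf (nat_lit 3343792804372) (nat_lit 0) leaf) (nat_lit 3343792816276) (nat_lit 0) (node leaf (nat_lit 3343805093140)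 (nat_lit 0) leaf)))) (nat_lit 3343805093188) (nat_lit 0) (node (node (node (node (node leaf (nat_lit 3343805130004) (nat_lit 0) leaf) (nat_lit 3343805130052) (nat_lit 0) leaf) (nat_lit 3343805154628) (nat_lit 0) (node leaf (nat_lit 3343805154640) (nat_lit 0) leaf)) (nat_lit 3343805206801) (nat_lit 0) (node (node leaf (nat_lit 3343805206804) (nat_lit 0) leaf) (nat_lit 3343805207617) (nat_lit 0) (node leaf (nat_lit 3343805207620) (nat_lit 0) leaf))) (nat_lit 3343805321812) (nat_lit 0) (node (node (node leaf (nat_lit 3343805323345) (nat_lit 0) leaf) (nat_lit 3343805326660) (nat_lit 0) (node leaf (nat_lit 3343805326672) (nat_lit 0) leaf)) (nat_lit 3343805334100) (nat_lit 0) (node (node leaf (nat_lit 3343805335636) (nat_lit 0) leaf) (nat_lit 3343805335828) (nat_lit 0) (node leaf (nat_lit 3343805337637) (nat_lit 0) leaf)))))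

noncomputable def R0_16 : Tr := (node (node (node (node (node (node leaf (nat_lit 3343805383060) (nat_lit 0) leaf) (nat_lit 3343805383252) (nat_lit 0) leaf) (nat_lit 3343805383813) (nat_lit 0) (node leaf (nat_lit 3343805383828) (nat_lit 0) leaf)) (nat_lit 3343805384212) (nat_lit 0) (node (node leaf (nat_lit 3343805384980) (nat_lit 0) leaf) (nat_lit 3343805386789) (nat_lit 0) (node leaf (nat_lit 3343805386885) (nat_lit 0) leaf))) (nat_lit 3343805386900) (nat_lit 0) (node (node (node leaf (nat_lit 3343805387284) (nat_lit 0) leaf) (nat_lit 3343805399077) (nat_lit 0) (node leaf (nat_lit 3343805399137) (nat_lit 0) leaf)) (nat_lit 3343805399173) (nat_lit 0) (node (node leaf (nat_lit 3343805399188) (nat_lit 0) leaf) (nat_lit 3343805399305) (nat_lit 0) (node leaf (nat_lit 3343805600005) (nat_lit 0) leaf)))) (nat_lit 3343805600017) (nat_lit 0) (node (node (node (node leaf (nat_lit 3343805600065) (nat_lit 0) leaf) (nat_lit 3343805600068) (nat_lit 0) (node leaf (nat_lit 3343805600788) (nat_lit 0) leaf)) (nat_lit 3343806189889) (nat_lit 0)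 (node (node leaf (nat_lit 3343806189892) (nat_lit 0) leaf) (nat_lit 3343806190612) (nat_lit 0) (node leaf (nat_lit 3343806435601) (nat_lit 0) leaf))) (nat_lit 3343808549185) (nat_lit 0) (node (node (node leaf (nat_lit 3343808549188) (nat_lit 0) leaf) (nat_lit 3343808549908) (nat_lit 0) (node leaf (nat_lit 3343809516820) (nat_lit 0) leaf)) (nat_lit 3343809516868) (nat_lit 0) (node (node leaf (nat_lit 3343943731540) (nat_lit 0) leaf) (nat_lit 3343943735380) (nat_lit 0) (node leaf (nat_lit 3343943746132) (nat_lit 0) leaf)))))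

noncomputable def R0_17 : Tr := node R0_15 (nat_lit 3343805382805) (nat_lit 0) R0_16

noncomputable def R0_18 : Tr := (node (node (node (node (node (node leaf (nat_lit 3343943794837) (nat_lit 0) leaf) (nat_lit 3343943795284) (nat_lit 0) leaf) (nat_lit 3343943795860) (nat_lit 0) (node leaf (nat_lit 3343943795977) (nat_lit 0) leaf)) (nat_lit 3343943811169) (nat_lit 0) (node (node leaf (nat_lit 3343943811337) (nat_lit 0) leaf) (nat_lit 3344044398676) (nat_lit 0) (node leaf (nat_lit 3344044409428) (nat_lit 0) leaf))) (nat_lit 3344044458388) (nat_lit 0) (node (node (node leaf (nat_lit 3344195404372) (nat_lit 0) leaf) (nat_lit 3344195453077) (nat_lit 0) (node leaf (nat_lit 3344195453461) (nat_lit 0) leaf)) (nat_lit 3344207746132) (nat_lit 0) (node (node leaf (nat_lit 3344207746324) (nat_lit 0) leaf) (nat_lit 3344207746372) (nat_lit 0) (node leaf (nat_lit 3344207746384) (nat_lit 0) leaf)))) (nat_lit 3344207778388) (nat_lit 0) (node (node (node (node leaf (nat_lit 3344207783185) (nat_lit 0) leaf) (nat_lit 3344207783233) (nat_lit 0) (node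 leaf (nat_lit 3344207859796) (nat_lit 0) leaf)) (nat_lit 3344207859973) (nat_lit 0) (node (node leaf (nat_lit 3344207860033) (nat_lit 0) leaf) (nat_lit 3344207860801) (nat_lit 0) (node leaf (nat_lit 3344207972689) (nat_lit 0) leaf))) (nat_lit 3344207979796) (nat_lit 0) (node (node (node leaf (nat_lit 3344207979844) (nat_lit 0) leaf) (nat_lit 3344207986837) (nat_lit 0) (node leaf (nat_lit 3344208036433) (nat_lit 0) leaf)) (nat_lit 3344208252997) (nat_lit 0) (node (node leaf (nat_lit 3344208253009) (nat_lit 0) leaf) (nat_lit 3344208253201) (nat_lit 0) (node leaf (nat_lit 3344208253969) (nat_lit 0) leaf)))))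

noncomputable def R0_19 : Tr := (node (node (node (node (node (node leaf (nat_lit 3344208843793) (nat_lit 0) leaf) (nat_lit 3344209088593) (nat_lit 0) leaf) (nat_lit 3344211202321) (nat_lit 0) (node leaf (nat_lit 3344211203089) (nat_lit 0) leaf)) (nat_lit 3344212170001) (nat_lit 0) (node (node leaf (nat_lit 3344212170004) (nat_lit 0) leaf) (nat_lit 3344245721428) (nat_lit 0) (node leaf (nat_lit 3344245784725) (nat_lit 0) leaf))) (nat_lit 3344252950036) (nat_lit 0) (node (node (node leaf (nat_lit 3344253084244) (nat_lit 0) leaf) (nat_lit 3344253093460) (nat_lit 0) (node leaf (nat_lit 3344253096997) (nat_lit 0) leaf)) (nat_lit 3344253129364) (nat_lit 0) (node (node leaf (nat_lit 3344253133972) (nat_lit 0) leaf) (nat_lit 3344253158548) (nat_lit 0) (node leaf (nat_lit 3344253195412) (nat_lit 0) leaf)))) (nat_lit 3344253195538) (nat_lit 0) (node (node (node (node leaf (nat_lit 3344253195556) (nat_lit 0) leaf) (nat_lit 3344253195796) (nat_lit 0) (node leaf (nat_lit 3344253196612) (nat_lit 0) leaf)) (nat_lit 3344253207700) (nat_lit 0)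 (node (node leaf (nat_lit 3344253208900) (nat_lit 0) leaf) (nat_lit 3344253208912) (nat_lit 0) (node leaf (nat_lit 3344253210661) (nat_lit 0) leaf))) (nat_lit 3344253210697) (nat_lit 0) (node (node (node leaf (nat_lit 3344253210889) (nat_lit 0) leaf) (nat_lit 3344253388372) (nat_lit 0) (node leaf (nat_lit 3344253391909) (nat_lit 0) leaf)) (nat_lit 3344253404293) (nat_lit 0) (node (node leaf (nat_lit 3344253404308) (nat_lit 0) leaf) (nat_lit 3344253405460) (nat_lit 0) (node leaf (nat_lit 3344253405520) (nat_lit 0) leaf)))))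

noncomputable def R0_20 : Tr := node R0_18 (nat_lit 3344208843025) (nat_lit 0) R0_19

noncomputable def R0_21 : Tr := node R0_17 (nat_lit 3343943747668) (nat_lit 0) R0_20

noncomputable def R0_22 : Tr := (node (node (node (node (node (node leaf (nat_lit 3344253407365) (nat_lit 0) leaf) (nat_lit 3344253407380) (nat_lit 0) leaf) (nat_lit 3344253407497) (nat_lit 0) (node leaf (nat_lit 3344253407512) (nat_lit 0) leaf)) (nat_lit 3344253407521) (nat_lit 0) (node (node leaf (nat_lit 3344253407764) (nat_lit 0) leaf) (nat_lit 3344253407824) (nat_lit 0) (node leaf (nat_lit 3344253408274) (nat_lit 0) leaf))) (nat_lit 3344253408280) (nat_lit 0) (node (node (node leaf (nat_lit 3344253408289) (nat_lit 0) leaf) (nat_lit 3344253408292) (nat_lit 0) (node leaf (nat_lit 3344253408322) (nat_lit 0) leaf)) (nat_lit 3344253408328) (nat_lit 0) (node (node leaf (nat_lit 3344253408352) (nat_lit 0) leaf) (nat_lit 3344253408514) (nat_lit 0) (node leaf (nat_lit 3344253409300) (nat_lit 0) leaf)))) (nat_lit 3344253409360) (nat_lit 0) (node (node (node (node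 leaf (nat_lit 3344253411664) (nat_lit 0) leaf) (nat_lit 3344253412432) (nat_lit 0) (node leaf (nat_lit 3344253412624) (nat_lit 0) leaf)) (nat_lit 3344253420880) (nat_lit 0) (node (node leaf (nat_lit 3344253423952) (nat_lit 0) leaf) (nat_lit 3344253424720) (nat_lit 0) (node leaf (nat_lit 3344253852001) (nat_lit 0) leaf))) (nat_lit 3344253864265) (nat_lit 0) (node (node (node leaf (nat_lit 3344253864337) (nat_lit 0) leaf) (nat_lit 3344253864532) (nat_lit 0) (node leaf (nat_lit 3344253871369) (nat_lit 0) leaf)) (nat_lit 3344253872452) (nat_lit 0) (node (node leaf (nat_lit 3344253872464) (nat_lit 0) leaf) (nat_lit 3344253879892) (nat_lit 0) (node leaf (nat_lit 3344253882964) (nat_lit 0) leaf)))))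

noncomputable def R0_23 : Tr := (node (node (node (node (node (node leaf (nat_lit 3344253883489) (nat_lit 0) leaf) (nat_lit 3344253883525) (nat_lit 0) leaf) (nat_lit 3344253883666) (nat_lit 0) (node leaf (nat_lit 3344253883684) (nat_lit 0) leaf)) (nat_lit 3344253883924) (nat_lit 0) (node (node leaf (nat_lit 3344253884740) (nat_lit 0) leaf) (nat_lit 3344253912229) (nat_lit 0) (node leaf (nat_lit 3344253913381) (nat_lit 0) leaf))) (nat_lit 3344253913441) (nat_lit 0) (node (node (node leaf (nat_lit 3344253913492) (nat_lit 0) leaf) (nat_lit 3344253915301) (nat_lit 0) (node leaf (nat_lit 3344253915796) (nat_lit 0) leaf)) (nat_lit 3344253919828) (nat_lit 0) (node (node leaf (nat_lit 3344253920404) (nat_lit 0) leaf) (nat_lit 3344253920521) (nat_lit 0) (node leaf (nat_lit 3344253944905) (nat_lit 0) leaf)))) (nat_lit 3344253944980) (nat_lit 0) (node (node (node (node leaf (nat_lit 3344253981268) (nat_lit 0) leaf) (nat_lit 3344253981733) (nat_lit 0) (node leaf (nat_lit 3344253981769) (nat_lit 0) leaf)) (nat_lit 3344253981970) (nat_lit 0)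 (node (node leaf (nat_lit 3344253981988) (nat_lit 0) leaf) (nat_lit 3344253982804) (nat_lit 0) (node leaf (nat_lit 3344253986128) (nat_lit 0) leaf))) (nat_lit 3344253993556) (nat_lit 0) (node (node (node leaf (nat_lit 3344253994132) (nat_lit 0) leaf) (nat_lit 3344253997093) (nat_lit 0) (node leaf (nat_lit 3344253997204) (nat_lit 0) leaf)) (nat_lit 3344253999184) (nat_lit 0) (node (node leaf (nat_lit 3344254001488) (nat_lit 0) leaf) (nat_lit 3344254110025) (nat_lit 0) (node leaf (nat_lit 3344254112404) (nat_lit 0) leaf)))))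

noncomputable def R0_24 : Tr := node R0_22 (nat_lit 3344253883429) (nat_lit 0) R0_23

noncomputable def R0_25 : Tr := (node (node (node (node (node (node leaf (nat_lit 3344254371412) (nat_lit 0) leaf) (nat_lit 3344254374484) (nat_lit 0) leaf) (nat_lit 3344254374949) (nat_lit 0) (node leaf (nat_lit 3344254386772) (nat_lit 0) leaf)) (nat_lit 3344254387237) (nat_lit 0) (node (node leaf (nat_lit 3344254390309) (nat_lit 0) leaf) (nat_lit 3344254390420) (nat_lit 0) (node leaf (nat_lit 3344254390804) (nat_lit 0) leaf))) (nat_lit 3344254390864) (nat_lit 0) (node (node (node leaf (nat_lit 3344254391368) (nat_lit 0) leaf) (nat_lit 3344254439572) (nat_lit 0) (node leaf (nat_lit 3344254932304) (nat_lit 0) leaf)) (nat_lit 3344254964308) (nat_lit 0) (node (node leaf (nat_lit 3344254976389) (nat_lit 0) leaf) (nat_lit 3344254976404) (nat_lit 0) (node leaf (nat_lit 3344254976596) (nat_lit 0) leaf)))) (nat_lit 3344254977061) (nat_lit 0) (node (node (node (node leaf (nat_lit 3344254977097) (nat_lit 0) leaf) (nat_lit 3344254978372) (nat_lit 0) (node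 leaf (nat_lit 3344254980244) (nat_lit 0) leaf)) (nat_lit 3344254993744) (nat_lit 0) (node (node leaf (nat_lit 3344254997572) (nat_lit 0) leaf) (nat_lit 3344255161492) (nat_lit 0) (node leaf (nat_lit 3344255162452) (nat_lit 0) leaf))) (nat_lit 3344255162644) (nat_lit 0) (node (node (node leaf (nat_lit 3344255165776) (nat_lit 0) leaf) (nat_lit 3344255173204) (nat_lit 0) (node leaf (nat_lit 3344255173669) (nat_lit 0) leaf)) (nat_lit 3344255174980) (nat_lit 0) (node (node leaf (nat_lit 3344255181136) (nat_lit 0) leaf) (nat_lit 3344255221909) (nat_lit 0) (node leaf (nat_lit 3344255222053) (nat_lit 0) leaf)))))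

noncomputable def R0_26 : Tr := (node (node (node (node (node (node leaf (nat_lit 3344255222356) (nat_lit 0) leaf) (nat_lit 3344255222821) (nat_lit 0) leaf) (nat_lit 3344255222857) (nat_lit 0) (node leaf (nat_lit 3344255222881) (nat_lit 0) leaf)) (nat_lit 3344255222917) (nat_lit 0) (node (node leaf (nat_lit 3344255222929) (nat_lit 0) leaf) (nat_lit 3344255222932) (nat_lit 0) (node leaf (nat_lit 3344255223049) (nat_lit 0) leaf))) (nat_lit 3344255223316) (nat_lit 0) (node (node (node leaf (nat_lit 3344255223889) (nat_lit 0) leaf) (nat_lit 3344255223892) (nat_lit 0) (node leaf (nat_lit 3344255224144) (nat_lit 0) leaf)) (nat_lit 3344255226004) (nat_lit 0) (node (node leaf (nat_lit 3344255226388) (nat_lit 0) leaf) (nat_lit 3344255238181) (nat_lit 0) (node leaf (nat_lit 3344255238241) (nat_lit 0) leaf)))) (nat_lit 3344255238409) (nat_lit 0) (node (node (node (node leaf (nat_lit 3344257000786) (nat_lit 0) leaf) (nat_lit 3344257000792) (nat_lit 0) (node leaf (nat_lit 3344257000801) (nat_lit 0) leaf)) (nat_lit 3344257000804) (nat_lit 0)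 (node (node leaf (nat_lit 3344257000852) (nat_lit 0) leaf) (nat_lit 3344257001044) (nat_lit 0) (node leaf (nat_lit 3344257010260) (nat_lit 0) leaf))) (nat_lit 3344257016146) (nat_lit 0) (node (node (node leaf (nat_lit 3344257016164) (nat_lit 0) leaf) (nat_lit 3344257029217) (nat_lit 0) (node leaf (nat_lit 3344257029253) (nat_lit 0) leaf)) (nat_lit 3344257029385) (nat_lit 0) (node (node leaf (nat_lit 3344257029394) (nat_lit 0) leaf) (nat_lit 3344257029412) (nat_lit 0) (node leaf (nat_lit 3344257029700) (nat_lit 0) leaf)))))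

noncomputable def R0_27 : Tr := node R0_25 (nat_lit 3344255222149) (nat_lit 0) R0_26

noncomputable def R0_28 : Tr := node R0_24 (nat_lit 3344254117012) (nat_lit 0) R0_27

noncomputable def R0_29 : Tr := node R0_21 (nat_lit 3344253407305) (nat_lit 0) R0_28

noncomputable def R0_30 : Tr := node R0_14 (nat_lit 3342735836425) (nat_lit 0) R0_29

noncomputable def R0_31 : Tr := (node (node (node (node (node (node leaf (nat_lit 3344257030228) (nat_lit 0) leaf) (nat_lit 3344257030468) (nat_lit 0) leaf) (nat_lit 3344257030480) (nat_lit 0) (node leaf (nat_lit 3344257033552) (nat_lit 0) leaf)) (nat_lit 3344257059154) (nat_lit 0) (node (node leaf (nat_lit 3344257059172) (nat_lit 0) leaf) (nat_lit 3344257059205) (nat_lit 0) (node leaf (nat_lit 3344257059220) (nat_lit 0) leaf))) (nat_lit 3344257059412) (nat_lit 0) (node (node (node leaf (nat_lit 3344257065109) (nat_lit 0) leaf) (nat_lit 3344257065289) (nat_lit 0) (node leaf (nat_lit 3344257065556) (nat_lit 0) leaf)) (nat_lit 3344257066249) (nat_lit 0) (node (node leaf (nat_lit 3344257066516)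 (nat_lit 0) leaf) (nat_lit 3344257075348) (nat_lit 0) (node leaf (nat_lit 3344257081492) (nat_lit 0) leaf)))) (nat_lit 3344257090132) (nat_lit 0) (node (node (node (node (node leaf (nat_lit 3344257090708) (nat_lit 0) leaf) (nat_lit 3344257090825) (nat_lit 0) leaf) (nat_lit 3344257090834) (nat_lit 0) (node leaf (nat_lit 3344257090852) (nat_lit 0) leaf)) (nat_lit 3344257093780) (nat_lit 0) (node (node leaf (nat_lit 3344257127461) (nat_lit 0) leaf) (nat_lit 3344257127698) (nat_lit 0) (node leaf (nat_lit 3344257127716) (nat_lit 0) leaf))) (nat_lit 3344257138837) (nat_lit 0) (node (node (node leaf (nat_lit 3344257139284) (nat_lit 0) leaf) (nat_lit 3344257139977) (nat_lit 0) (node leaf (nat_lit 3344257140244) (nat_lit 0) leaf)) (nat_lit 3344257142821) (nat_lit 0) (node (node leaf (nat_lit 3344257142881) (nat_lit 0) leaf) (nat_lit 3344257142932) (nat_lit 0) (node leaf (nat_lit 3344257143049) (nat_lit 0) leaf)))))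

noncomputable def R0_32 : Tr := (node (node (node (node (node (node leaf (nat_lit 3344257143376) (nat_lit 0) leaf) (nat_lit 3344257143880) (nat_lit 0) leaf) (nat_lit 3344257143952) (nat_lit 0) (node leaf (nat_lit 3344257144912) (nat_lit 0) leaf)) (nat_lit 3344257145104) (nat_lit 0) (node (node leaf (nat_lit 3344257254037) (nat_lit 0) leaf) (nat_lit 3344257254565) (nat_lit 0) (node leaf (nat_lit 3344257255717) (nat_lit 0) leaf))) (nat_lit 3344257255753) (nat_lit 0) (node (node (node leaf (nat_lit 3344257255777) (nat_lit 0) leaf) (nat_lit 3344257255813) (nat_lit 0) (node leaf (nat_lit 3344257255828) (nat_lit 0) leaf)) (nat_lit 3344257256020) (nat_lit 0) (node (node leaf (nat_lit 3344257258021) (nat_lit 0) leaf) (nat_lit 3344257261717) (nat_lit 0) (node leaf (nat_lit 3344257261897) (nat_lit 0) leaf)))) (nat_lit 3344257262629) (nat_lit 0) (node (node (node (node leaf (nat_lit 3344257262857) (nat_lit 0) leaf) (nat_lit 3344257262866) (nat_lit 0) (node leaf (nat_lit 3344257262884) (nat_lit 0) leaf)) (nat_lit 3344257263124) (nat_lit 0)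 (node (node leaf (nat_lit 3344257270420) (nat_lit 0) leaf) (nat_lit 3344257271956) (nat_lit 0) (node leaf (nat_lit 3344257278100) (nat_lit 0) leaf))) (nat_lit 3344257287433) (nat_lit 0) (node (node (node leaf (nat_lit 3344257288528) (nat_lit 0) leaf) (nat_lit 3344257290388) (nat_lit 0) (node leaf (nat_lit 3344257384597) (nat_lit 0) leaf)) (nat_lit 3344257388692) (nat_lit 0) (node (node leaf (nat_lit 3344257389136) (nat_lit 0) leaf) (nat_lit 3344257389634) (nat_lit 0) (node leaf (nat_lit 3344257400980) (nat_lit 0) leaf)))))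

noncomputable def R0_33 : Tr := node R0_31 (nat_lit 3344257143316) (nat_lit 0) R0_32

noncomputable def R0_34 : Tr := (node (node (node (node (node (node leaf (nat_lit 3344257537048) (nat_lit 0) leaf) (nat_lit 3344257537090) (nat_lit 0) leaf) (nat_lit 3344257583440) (nat_lit 0) (node leaf (nat_lit 3344257585300) (nat_lit 0) leaf)) (nat_lit 3344257597588) (nat_lit 0) (node (node leaf (nat_lit 3344258040469) (nat_lit 0) leaf) (nat_lit 3344258040997) (nat_lit 0) (node leaf (nat_lit 3344258042185) (nat_lit 0) leaf))) (nat_lit 3344258042257) (nat_lit 0) (node (node (node leaf (nat_lit 3344258042452) (nat_lit 0) leaf) (nat_lit 3344258044069) (nat_lit 0) (node leaf (nat_lit 3344258044453) (nat_lit 0) leaf)) (nat_lit 3344258045989) (nat_lit 0) (node (node leaf (nat_lit 3344258048389) (nat_lit 0) leaf) (nat_lit 3344258049061) (nat_lit 0) (node leaf (nat_lit 3344258049289) (nat_lit 0) leaf)))) (nat_lit 3344258049304) (nat_lit 0) (node (node (node (node leaf (nat_lit 3344258049346) (nat_lit 0) leaf) (nat_lit 3344258050384) (nat_lit 0) (node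 leaf (nat_lit 3344258056357) (nat_lit 0) leaf)) (nat_lit 3344258056741) (nat_lit 0) (node (node leaf (nat_lit 3344258056852) (nat_lit 0) leaf) (nat_lit 3344258058277) (nat_lit 0) (node leaf (nat_lit 3344258058388) (nat_lit 0) leaf))) (nat_lit 3344258058592) (nat_lit 0) (node (node (node leaf (nat_lit 3344258058628) (nat_lit 0) leaf) (nat_lit 3344258058832) (nat_lit 0) (node leaf (nat_lit 3344258064532) (nat_lit 0) leaf)) (nat_lit 3344258072725) (nat_lit 0) (node (node leaf (nat_lit 3344258073865) (nat_lit 0) leaf) (nat_lit 3344258076820) (nat_lit 0) (node leaf (nat_lit 3344258077060) (nat_lit 0) leaf)))))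

noncomputable def R0_35 : Tr := (node (node (node (node (node (node leaf (nat_lit 3344258077714) (nat_lit 0) leaf) (nat_lit 3344258077732) (nat_lit 0) leaf) (nat_lit 3344258077762) (nat_lit 0) (node leaf (nat_lit 3344258077792) (nat_lit 0) leaf)) (nat_lit 3344258105509) (nat_lit 0) (node (node leaf (nat_lit 3344258105893) (nat_lit 0) leaf) (nat_lit 3344258106004) (nat_lit 0) (node leaf (nat_lit 3344258107720) (nat_lit 0) leaf))) (nat_lit 3344258107984) (nat_lit 0) (node (node (node leaf (nat_lit 3344258115088) (nat_lit 0) leaf) (nat_lit 3344258138704) (nat_lit 0) (node leaf (nat_lit 3344258139208) (nat_lit 0) leaf)) (nat_lit 3344258175568) (nat_lit 0) (node (node leaf (nat_lit 3344258176018) (nat_lit 0) leaf) (nat_lit 3344258176036) (nat_lit 0) (node leaf (nat_lit 3344258302117) (nat_lit 0) leaf)))) (nat_lit 3344258302612) (nat_lit 0) (node (node (node (node leaf (nat_lit 3344258304322) (nat_lit 0) leaf) (nat_lit 3344258306344) (nat_lit 0) (node leaf (nat_lit 3344258306632) (nat_lit 0) leaf)) (nat_lit 3344258306704) (nat_lit 0)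 (node (node leaf (nat_lit 3344258311240) (nat_lit 0) leaf) (nat_lit 3344258311312) (nat_lit 0) (node leaf (nat_lit 3344258311426) (nat_lit 0) leaf))) (nat_lit 3344258318626) (nat_lit 0) (node (node (node leaf (nat_lit 3344258318914) (nat_lit 0) leaf) (nat_lit 3344258319370) (nat_lit 0) (node leaf (nat_lit 3344258335810) (nat_lit 0) leaf)) (nat_lit 3344259158164) (nat_lit 0) (node (node leaf (nat_lit 3344261223760) (nat_lit 0) leaf) (nat_lit 3344261255761) (nat_lit 0) (node leaf (nat_lit 3344261255764) (nat_lit 0) leaf)))))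

noncomputable def R0_36 : Tr := node R0_34 (nat_lit 3344258077264) (nat_lit 0) R0_35

noncomputable def R0_37 : Tr := node R0_33 (nat_lit 3344257534288) (nat_lit 0) R0_36

noncomputable def R0_38 : Tr := (node (node (node (node (node (node leaf (nat_lit 3344261288260) (nat_lit 0) leaf) (nat_lit 3344261450068) (nat_lit 0) leaf) (nat_lit 3344261454148) (nat_lit 0) (node leaf (nat_lit 3344261457232) (nat_lit 0) leaf)) (nat_lit 3344261464357) (nat_lit 0) (node (node leaf (nat_lit 3344261464453) (nat_lit 0) leaf) (nat_lit 3344261464660) (nat_lit 0) (node leaf (nat_lit 3344261466193) (nat_lit 0) leaf))) (nat_lit 3344261466196) (nat_lit 0) (node (node (node leaf (nat_lit 3344261466433) (nat_lit 0) leaf) (nat_lit 3344261513509) (nat_lit 0) (node leaf (nat_lit 3344261513605) (nat_lit 0) leaf)) (nat_lit 3344261513620) (nat_lit 0) (node (node leaf (nat_lit 3344261513812) (nat_lit 0) leaf) (nat_lit 3344261514277) (nat_lit 0) (node leaf (nat_lit 3344261514313) (nat_lit 0) leaf)))) (nat_lit 3344261514373) (nat_lit 0) (node (node (node (node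 (node leaf (nat_lit 3344261514385) (nat_lit 0) leaf) (nat_lit 3344261514772) (nat_lit 0) leaf) (nat_lit 3344261517349) (nat_lit 0) (node leaf (nat_lit 3344261529637) (nat_lit 0) leaf)) (nat_lit 3344262300820) (nat_lit 0) (node (node leaf (nat_lit 3344270660944) (nat_lit 0) leaf) (nat_lit 3344270692948) (nat_lit 0) (node leaf (nat_lit 3344270887252) (nat_lit 0) leaf))) (nat_lit 3344270901541) (nat_lit 0) (node (node (node leaf (nat_lit 3344270901844) (nat_lit 0) leaf) (nat_lit 3344270903377) (nat_lit 0) (node leaf (nat_lit 3344273806672) (nat_lit 0) leaf)) (nat_lit 3344273850757) (nat_lit 0) (node (node leaf (nat_lit 3344273850772) (nat_lit 0) leaf) (nat_lit 3344273851429) (nat_lit 0) (node leaf (nat_lit 3344273851465) (nat_lit 0) leaf)))))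

noncomputable def R0_39 : Tr := (node (node (node (node (node (node leaf (nat_lit 3344274096277) (nat_lit 0) leaf) (nat_lit 3344274097189) (nat_lit 0) leaf) (nat_lit 3344274097285) (nat_lit 0) (node leaf (nat_lit 3344274819412) (nat_lit 0) leaf)) (nat_lit 3344274823252) (nat_lit 0) (node (node leaf (nat_lit 3344274834004) (nat_lit 0) leaf) (nat_lit 3344274882709) (nat_lit 0) (node leaf (nat_lit 3344274882949) (nat_lit 0) leaf))) (nat_lit 3344274883621) (nat_lit 0) (node (node (node leaf (nat_lit 3344307623188) (nat_lit 0) leaf) (nat_lit 3344307933253) (nat_lit 0) (node leaf (nat_lit 3344307933457) (nat_lit 0) leaf)) (nat_lit 3344307934225) (nat_lit 0) (node (node leaf (nat_lit 3344308397377) (nat_lit 0) leaf) (nat_lit 3344308409425) (nat_lit 0) (node leaf (nat_lit 3344308409620) (nat_lit 0) leaf)))) (nat_lit 3344308409668) (nat_lit 0) (node (node (node (node leaf (nat_lit 3344308409680) (nat_lit 0) leaf) (nat_lit 3344308441684) (nat_lit 0) (node leaf (nat_lit 3344308446484) (nat_lit 0) leaf)) (nat_lit 3344308523089) (nat_lit 0)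 (node (node leaf (nat_lit 3344308523281) (nat_lit 0) leaf) (nat_lit 3344308635973) (nat_lit 0) (node leaf (nat_lit 3344308635988) (nat_lit 0) leaf))) (nat_lit 3344308637845) (nat_lit 0) (node (node (node leaf (nat_lit 3344308643092) (nat_lit 0) leaf) (nat_lit 3344308650577) (nat_lit 0) (node leaf (nat_lit 3344308916293) (nat_lit 0) leaf)) (nat_lit 3344309506129) (nat_lit 0) (node (node leaf (nat_lit 3344309702737) (nat_lit 0) leaf) (nat_lit 3344312833105) (nat_lit 0) (node leaf (nat_lit 3344312833297) (nat_lit 0) leaf)))))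

noncomputable def R0_40 : Tr := node R0_38 (nat_lit 3344274048037) (nat_lit 0) R0_39

noncomputable def R0_41 : Tr := (node (node (node (node (node (node leaf (nat_lit 3344324174932) (nat_lit 0) leaf) (nat_lit 3344324182165) (nat_lit 0) leaf) (nat_lit 3344324364625) (nat_lit 0) (node leaf (nat_lit 3344324366869) (nat_lit 0) leaf)) (nat_lit 3344324379157) (nat_lit 0) (node (node leaf (nat_lit 3344325151057) (nat_lit 0) leaf) (nat_lit 3344325151060) (nat_lit 0) (node leaf (nat_lit 3344325152917) (nat_lit 0) leaf))) (nat_lit 3344325165205) (nat_lit 0) (node (node (node leaf (nat_lit 3344325165589) (nat_lit 0) leaf) (nat_lit 3344325214357) (nat_lit 0) (node leaf (nat_lit 3344337998917) (nat_lit 0) leaf)) (nat_lit 3344337999109) (nat_lit 0) (node (node leaf (nat_lit 3437761939540) (nat_lit 0) leaf) (nat_lit 3437761987156) (nat_lit 0) (node leaf (nat_lit 3437761987732) (nat_lit 0) leaf)))) (nat_lit 3438818904388) (nat_lit 0) (node (node (node (node leaf (nat_lit 3438818904400) (nat_lit 0) leaf) (nat_lit 3438818951761) (nat_lit 0) (node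 leaf (nat_lit 3438818952229) (nat_lit 0) leaf)) (nat_lit 3438818952325) (nat_lit 0) (node (node leaf (nat_lit 3438818952340) (nat_lit 0) leaf) (nat_lit 3438818955301) (nat_lit 0) (node leaf (nat_lit 3438818955397) (nat_lit 0) leaf))) (nat_lit 3438818955412) (nat_lit 0) (node (node (node leaf (nat_lit 3438818955556) (nat_lit 0) leaf) (nat_lit 3438818955796) (nat_lit 0) (node leaf (nat_lit 3438818955844) (nat_lit 0) leaf)) (nat_lit 3438818956294) (nat_lit 0) (node (node leaf (nat_lit 3438818967589) (nat_lit 0) leaf) (nat_lit 3438818967700) (nat_lit 0) (node leaf (nat_lit 3438818967940) (nat_lit 0) leaf)))))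

noncomputable def R0_42 : Tr := (node (node (node (node (node (node leaf (nat_lit 3438818968612) (nat_lit 0) leaf) (nat_lit 3438831232336) (nat_lit 0) leaf) (nat_lit 3438831244612) (nat_lit 0) (node leaf (nat_lit 3438831244624) (nat_lit 0) leaf)) (nat_lit 3438831281488) (nat_lit 0) (node (node leaf (nat_lit 3438831358228) (nat_lit 0) leaf) (nat_lit 3438831358288) (nat_lit 0) (node leaf (nat_lit 3438831358996) (nat_lit 0) leaf))) (nat_lit 3438831359056) (nat_lit 0) (node (node (node leaf (nat_lit 3438831474772) (nat_lit 0) leaf) (nat_lit 3438831478096) (nat_lit 0) (node leaf (nat_lit 3438831485524) (nat_lit 0) leaf)) (nat_lit 3438831486484) (nat_lit 0) (node (node leaf (nat_lit 3438831487252) (nat_lit 0) leaf) (nat_lit 3438831487300) (nat_lit 0) (node leaf (nat_lit 3438831493456) (nat_lit 0) leaf)))) (nat_lit 3438831502660) (nat_lit 0) (node (node (node (node leaf (nat_lit 3438831502672) (nat_lit 0) leaf) (nat_lit 3438831534469) (nat_lit 0) (node leaf (nat_lit 3438831534484) (nat_lit 0) leaf)) (nat_lit 3438831535141) (nat_lit 0)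 (node (node leaf (nat_lit 3438831535252) (nat_lit 0) leaf) (nat_lit 3438831535636) (nat_lit 0) (node leaf (nat_lit 3438831536452) (nat_lit 0) leaf))) (nat_lit 3438831536464) (nat_lit 0) (node (node (node leaf (nat_lit 3438831538213) (nat_lit 0) leaf) (nat_lit 3438831538309) (nat_lit 0) (node leaf (nat_lit 3438831538324) (nat_lit 0) leaf)) (nat_lit 3438831538708) (nat_lit 0) (node (node leaf (nat_lit 3438831550501) (nat_lit 0) leaf) (nat_lit 3438831550537) (nat_lit 0) (node leaf (nat_lit 3438831550561) (nat_lit 0) leaf)))))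

noncomputable def R0_43 : Tr := node R0_41 (nat_lit 3438818968594) (nat_lit 0) R0_42

noncomputable def R0_44 : Tr := node R0_40 (nat_lit 3344324170324) (nat_lit 0) R0_43

noncomputable def R0_45 : Tr := node R0_37 (nat_lit 3344261256229) (nat_lit 0) R0_44

noncomputable def R0_46 : Tr := (node (node (node (node (node (node leaf (nat_lit 3438831550609) (nat_lit 0) leaf) (nat_lit 3438831550612) (nat_lit 0) leaf) (nat_lit 3438831550729) (nat_lit 0) (node leaf (nat_lit 3438831550744) (nat_lit 0) leaf)) (nat_lit 3438831550753) (nat_lit 0) (node (node leaf (nat_lit 3438831550852) (nat_lit 0) leaf) (nat_lit 3438831550996) (nat_lit 0) (node leaf (nat_lit 3438831551506) (nat_lit 0) leaf))) (nat_lit 3438831551524) (nat_lit 0) (node (node (node leaf (nat_lit 3438831751441) (nat_lit 0) leaf) (nat_lit 3438831751492) (nat_lit 0) (node leaf (nat_lit 3438831751504) (nat_lit 0) leaf)) (nat_lit 3438831752209) (nat_lit 0) (node (node leaf (nat_lit 3438832341316) (nat_lit 0) leaf) (nat_lit 3438832341328) (nat_lit 0) (node leaf (nat_lit 3438834700612)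 (nat_lit 0) leaf)))) (nat_lit 3438834700624) (nat_lit 0) (node (node (node (node (node leaf (nat_lit 3438835668292) (nat_lit 0) leaf) (nat_lit 3438835680580) (nat_lit 0) leaf) (nat_lit 3440983148884) (nat_lit 0) (node leaf (nat_lit 3440983213129) (nat_lit 0) leaf)) (nat_lit 3440983228453) (nat_lit 0) (node (node leaf (nat_lit 3445261343044) (nat_lit 0) leaf) (nat_lit 3445261354132) (nat_lit 0) (node leaf (nat_lit 3445261355332) (nat_lit 0) leaf))) (nat_lit 3445261402405) (nat_lit 0) (node (node (node leaf (nat_lit 3445261402501) (nat_lit 0) leaf) (nat_lit 3445261402693) (nat_lit 0) (node leaf (nat_lit 3445261403173) (nat_lit 0) leaf)) (nat_lit 3445261403269) (nat_lit 0) (node (node leaf (nat_lit 3445261403284) (nat_lit 0) leaf) (nat_lit 3445261403668) (nat_lit 0) (node leaf (nat_lit 3445261406245) (nat_lit 0) leaf)))))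

noncomputable def R0_47 : Tr := (node (node (node (node (node (node leaf (nat_lit 3445261406740) (nat_lit 0) leaf) (nat_lit 3445261418644) (nat_lit 0) leaf) (nat_lit 3445273683268) (nat_lit 0) (node leaf (nat_lit 3445273695508) (nat_lit 0) leaf)) (nat_lit 3445273695556) (nat_lit 0) (node (node leaf (nat_lit 3445273732420) (nat_lit 0) leaf) (nat_lit 3445273732432) (nat_lit 0) (node leaf (nat_lit 3445273756996) (nat_lit 0) leaf))) (nat_lit 3445273757008) (nat_lit 0) (node (node (node leaf (nat_lit 3445273809169) (nat_lit 0) leaf) (nat_lit 3445273809220) (nat_lit 0) (node leaf (nat_lit 3445273809937) (nat_lit 0) leaf)) (nat_lit 3445273809988) (nat_lit 0) (node (node leaf (nat_lit 3445273921876) (nat_lit 0) leaf) (nat_lit 3445273924180) (nat_lit 0) (node leaf (nat_lit 3445273929040) (nat_lit 0) leaf)))) (nat_lit 3445273936468) (nat_lit 0) (node (node (node (node leaf (nat_lit 3445273938004) (nat_lit 0) leaf) (nat_lit 3445273938196) (nat_lit 0) (node leaf (nat_lit 3445273940005) (nat_lit 0) leaf)) (nat_lit 3445273985173) (nat_lit 0)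 (node (node leaf (nat_lit 3445273985428) (nat_lit 0) leaf) (nat_lit 3445273985620) (nat_lit 0) (node leaf (nat_lit 3445273986181) (nat_lit 0) leaf))) (nat_lit 3445273986196) (nat_lit 0) (node (node (node leaf (nat_lit 3445273986580) (nat_lit 0) leaf) (nat_lit 3445273987348) (nat_lit 0) (node leaf (nat_lit 3445273989157) (nat_lit 0) leaf)) (nat_lit 3445273989253) (nat_lit 0) (node (node leaf (nat_lit 3445273989268) (nat_lit 0) leaf) (nat_lit 3445273989652) (nat_lit 0) (node leaf (nat_lit 3445274001445) (nat_lit 0) leaf)))))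

noncomputable def R0_48 : Tr := node R0_46 (nat_lit 3445261406356) (nat_lit 0) R0_47

noncomputable def R0_49 : Tr := (node (node (node (node (node (node leaf (nat_lit 3445274001541) (nat_lit 0) leaf) (nat_lit 3445274001556) (nat_lit 0) leaf) (nat_lit 3445274001673) (nat_lit 0) (node leaf (nat_lit 3445274202373) (nat_lit 0) leaf)) (nat_lit 3445274202385) (nat_lit 0) (node (node leaf (nat_lit 3445274202388) (nat_lit 0) leaf) (nat_lit 3445274202436) (nat_lit 0) (node leaf (nat_lit 3445274792212) (nat_lit 0) leaf))) (nat_lit 3445274792260) (nat_lit 0) (node (node (node leaf (nat_lit 3445277151508) (nat_lit 0) leaf) (nat_lit 3445277151556) (nat_lit 0) (node leaf (nat_lit 3445278119188) (nat_lit 0) leaf)) (nat_lit 3445278131476) (nat_lit 0) (node (node leaf (nat_lit 3445814987092) (nat_lit 0) leaf) (nat_lit 3445814990932) (nat_lit 0) (node leaf (nat_lit 3445815001684) (nat_lit 0) leaf)))) (nat_lit 3445815050644) (nat_lit 0) (node (node (node (node leaf (nat_lit 3445815051337) (nat_lit 0) leaf) (nat_lit 3445815066661) (nat_lit 0) (node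 leaf (nat_lit 3446871955732) (nat_lit 0) leaf)) (nat_lit 3446871955780) (nat_lit 0) (node (node leaf (nat_lit 3446871966100) (nat_lit 0) leaf) (nat_lit 3446872014997) (nat_lit 0) (node leaf (nat_lit 3446872015237) (nat_lit 0) leaf))) (nat_lit 3446872015381) (nat_lit 0) (node (node (node leaf (nat_lit 3446872015444) (nat_lit 0) leaf) (nat_lit 3446872015909) (nat_lit 0) (node leaf (nat_lit 3446872016404) (nat_lit 0) leaf)) (nat_lit 3446872019092) (nat_lit 0) (node (node leaf (nat_lit 3446884295956) (nat_lit 0) leaf) (nat_lit 3446884296004) (nat_lit 0) (node leaf (nat_lit 3446884308052) (nat_lit 0) leaf)))))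

noncomputable def R0_50 : Tr := (node (node (node (node (node (node leaf (nat_lit 3446884308292) (nat_lit 0) leaf) (nat_lit 3446884308304) (nat_lit 0) leaf) (nat_lit 3446884340308) (nat_lit 0) (node leaf (nat_lit 3446884345156) (nat_lit 0) leaf)) (nat_lit 3446884421893) (nat_lit 0) (node (node leaf (nat_lit 3446884421905) (nat_lit 0) leaf) (nat_lit 3446884421953) (nat_lit 0) (node leaf (nat_lit 3446884422721) (nat_lit 0) leaf))) (nat_lit 3446884534609) (nat_lit 0) (node (node (node leaf (nat_lit 3446884536916) (nat_lit 0) leaf) (nat_lit 3446884538452) (nat_lit 0) (node leaf (nat_lit 3446884541764) (nat_lit 0) leaf)) (nat_lit 3446884548757) (nat_lit 0) (node (node leaf (nat_lit 3446884549204) (nat_lit 0) leaf) (nat_lit 3446884549669) (nat_lit 0) (node leaf (nat_lit 3446884550740) (nat_lit 0) leaf)))) (nat_lit 3446884598149) (nat_lit 0) (node (node (node (node leaf (nat_lit 3446884598356) (nat_lit 0) leaf) (nat_lit 3446884598821) (nat_lit 0) (node leaf (nat_lit 3446884598917) (nat_lit 0) leaf)) (nat_lit 3446884599316) (nat_lit 0)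 (node (node leaf (nat_lit 3446884599892) (nat_lit 0) leaf) (nat_lit 3446884601893) (nat_lit 0) (node leaf (nat_lit 3446884601989) (nat_lit 0) leaf))) (nat_lit 3446884602004) (nat_lit 0) (node (node (node leaf (nat_lit 3446884614181) (nat_lit 0) leaf) (nat_lit 3446884814917) (nat_lit 0) (node leaf (nat_lit 3446884815109) (nat_lit 0) leaf)) (nat_lit 3446884815121) (nat_lit 0) (node (node leaf (nat_lit 3446884815169) (nat_lit 0) leaf) (nat_lit 3446885404945) (nat_lit 0) (node leaf (nat_lit 3446885404993) (nat_lit 0) leaf)))))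

noncomputable def R0_51 : Tr := node R0_49 (nat_lit 3446884308244) (nat_lit 0) R0_50

noncomputable def R0_52 : Tr := node R0_48 (nat_lit 3445274001505) (nat_lit 0) R0_51

noncomputable def R0_53 : Tr := (node (node (node (node (node (node leaf (nat_lit 3446887764289) (nat_lit 0) leaf) (nat_lit 3446888731921) (nat_lit 0) leaf) (nat_lit 3446888731924) (nat_lit 0) (node leaf (nat_lit 3447022946644) (nat_lit 0) leaf)) (nat_lit 3447022950484) (nat_lit 0) (node (node leaf (nat_lit 3447022961236) (nat_lit 0) leaf) (nat_lit 3447023010196) (nat_lit 0) (node leaf (nat_lit 3447023010889) (nat_lit 0) leaf))) (nat_lit 3447023026213) (nat_lit 0) (node (node (node leaf (nat_lit 3447123609940) (nat_lit 0) leaf) (nat_lit 3447123612244) (nat_lit 0) (node leaf (nat_lit 3447123624340) (nat_lit 0) leaf)) (nat_lit 3447274604884) (nat_lit 0) (node (node leaf (nat_lit 3447274607188) (nat_lit 0) leaf) (nat_lit 3447274619029) (nat_lit 0) (node leaf (nat_lit 3447274619413) (nat_lit 0) leaf)))) (nat_lit 3447274668181) (nat_lit 0) (node (node (node (node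 leaf (nat_lit 3447286944340) (nat_lit 0) leaf) (nat_lit 3447286949137) (nat_lit 0) (node leaf (nat_lit 3447286949185) (nat_lit 0) leaf)) (nat_lit 3447286961233) (nat_lit 0) (node (node leaf (nat_lit 3447286961236) (nat_lit 0) leaf) (nat_lit 3447286961428) (nat_lit 0) (node leaf (nat_lit 3447286961476) (nat_lit 0) leaf))) (nat_lit 3447286998292) (nat_lit 0) (node (node (node leaf (nat_lit 3447287074885) (nat_lit 0) leaf) (nat_lit 3447287074897) (nat_lit 0) (node leaf (nat_lit 3447287075089) (nat_lit 0) leaf)) (nat_lit 3447287075857) (nat_lit 0) (node (node leaf (nat_lit 3447287187781) (nat_lit 0) leaf) (nat_lit 3447287189653) (nat_lit 0) (node leaf (nat_lit 3447287194900) (nat_lit 0) leaf)))))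

noncomputable def R0_54 : Tr := (node (node (node (node (node (node leaf (nat_lit 3447287465029) (nat_lit 0) leaf) (nat_lit 3447287468101) (nat_lit 0) leaf) (nat_lit 3447287468293) (nat_lit 0) (node leaf (nat_lit 3447287468305) (nat_lit 0) leaf)) (nat_lit 3447288058117) (nat_lit 0) (node (node leaf (nat_lit 3447288058129) (nat_lit 0) leaf) (nat_lit 3447290417413) (nat_lit 0) (node leaf (nat_lit 3447290417425) (nat_lit 0) leaf))) (nat_lit 3447291385093) (nat_lit 0) (node (node (node leaf (nat_lit 3447291385105) (nat_lit 0) leaf) (nat_lit 3447332111956) (nat_lit 0) (node leaf (nat_lit 3447332164756) (nat_lit 0) leaf)) (nat_lit 3447332164882) (nat_lit 0) (node (node leaf (nat_lit 3447332164900) (nat_lit 0) leaf) (nat_lit 3447332165137) (nat_lit 0) (node leaf (nat_lit 3447332165140) (nat_lit 0) leaf)))) (nat_lit 3447332280673) (nat_lit 0) (node (node (node (node leaf (nat_lit 3447332283988) (nat_lit 0) leaf) (nat_lit 3447332292937) (nat_lit 0) (node leaf (nat_lit 3447332299924) (nat_lit 0) leaf)) (nat_lit 3447332300041) (nat_lit 0)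 (node (node leaf (nat_lit 3447332308564) (nat_lit 0) leaf) (nat_lit 3447332311333) (nat_lit 0) (node leaf (nat_lit 3447332312101) (nat_lit 0) leaf))) (nat_lit 3447332312197) (nat_lit 0) (node (node (node leaf (nat_lit 3447332312212) (nat_lit 0) leaf) (nat_lit 3447332340901) (nat_lit 0) (node leaf (nat_lit 3447332341396) (nat_lit 0) leaf)) (nat_lit 3447332342053) (nat_lit 0) (node (node leaf (nat_lit 3447332349193) (nat_lit 0) leaf) (nat_lit 3447332410405) (nat_lit 0) (node leaf (nat_lit 3447332410441) (nat_lit 0) leaf)))))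

noncomputable def R0_55 : Tr := node R0_53 (nat_lit 3447287202385) (nat_lit 0) R0_54

noncomputable def R0_56 : Tr := (node (node (node (node (node (node leaf (nat_lit 3447332410642) (nat_lit 0) leaf) (nat_lit 3447332410660) (nat_lit 0) leaf) (nat_lit 3447332411668) (nat_lit 0) (node leaf (nat_lit 3447332422729) (nat_lit 0) leaf)) (nat_lit 3447332422801) (nat_lit 0) (node (node leaf (nat_lit 3447332422921) (nat_lit 0) leaf) (nat_lit 3447332423956) (nat_lit 0) (node leaf (nat_lit 3447332424004) (nat_lit 0) leaf))) (nat_lit 3447332425765) (nat_lit 0) (node (node (node leaf (nat_lit 3447332427856) (nat_lit 0) leaf) (nat_lit 3447332430160) (nat_lit 0) (node leaf (nat_lit 3447332603473) (nat_lit 0) leaf)) (nat_lit 3447332603476) (nat_lit 0) (node (node leaf (nat_lit 3447332606245) (nat_lit 0) leaf) (nat_lit 3447332618629) (nat_lit 0) (node leaf (nat_lit 3447332619301) (nat_lit 0) leaf)))) (nat_lit 3447332619337) (nat_lit 0) (node (node (node (node leaf (nat_lit 3447332619397) (nat_lit 0) leaf) (nat_lit 3447332619409) (nat_lit 0) (node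 leaf (nat_lit 3447332619412) (nat_lit 0) leaf)) (nat_lit 3447332619796) (nat_lit 0) (node (node leaf (nat_lit 3447332620372) (nat_lit 0) leaf) (nat_lit 3447332620564) (nat_lit 0) (node leaf (nat_lit 3447332620612) (nat_lit 0) leaf))) (nat_lit 3447332622409) (nat_lit 0) (node (node (node leaf (nat_lit 3447332622433) (nat_lit 0) leaf) (nat_lit 3447332622481) (nat_lit 0) (node leaf (nat_lit 3447332622484) (nat_lit 0) leaf)) (nat_lit 3447332622601) (nat_lit 0) (node (node leaf (nat_lit 3447332622610) (nat_lit 0) leaf) (nat_lit 3447332622625) (nat_lit 0) (node leaf (nat_lit 3447332622628) (nat_lit 0) leaf)))))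

noncomputable def R0_57 : Tr := (node (node (node (node (node (node leaf (nat_lit 3447332622916) (nat_lit 0) leaf) (nat_lit 3447332622928) (nat_lit 0) leaf) (nat_lit 3447332623369) (nat_lit 0) (node leaf (nat_lit 3447332623378) (nat_lit 0) leaf)) (nat_lit 3447332623384) (nat_lit 0) (node (node leaf (nat_lit 3447332623396) (nat_lit 0) leaf) (nat_lit 3447332623426) (nat_lit 0) (node leaf (nat_lit 3447332624452) (nat_lit 0) leaf))) (nat_lit 3447332626756) (nat_lit 0) (node (node (node leaf (nat_lit 3447332626768) (nat_lit 0) leaf) (nat_lit 3447332627536) (nat_lit 0) (node leaf (nat_lit 3447332635972) (nat_lit 0) leaf)) (nat_lit 3447332635984) (nat_lit 0) (node (node leaf (nat_lit 3447332639812) (nat_lit 0) leaf) (nat_lit 3447333070177) (nat_lit 0) (node leaf (nat_lit 3447333070420) (nat_lit 0) leaf)))) (nat_lit 3447333079429) (nat_lit 0) (node (node (node (node leaf (nat_lit 3447333079444) (nat_lit 0) leaf) (nat_lit 3447333079636) (nat_lit 0) (node leaf (nat_lit 3447333085780) (nat_lit 0) leaf)) (nat_lit 3447333087508) (nat_lit 0)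 (node (node leaf (nat_lit 3447333087556) (nat_lit 0) leaf) (nat_lit 3447333094996) (nat_lit 0) (node leaf (nat_lit 3447333098068) (nat_lit 0) leaf))) (nat_lit 3447333098533) (nat_lit 0) (node (node (node leaf (nat_lit 3447333098569) (nat_lit 0) leaf) (nat_lit 3447333098593) (nat_lit 0) (node leaf (nat_lit 3447333098629) (nat_lit 0) leaf)) (nat_lit 3447333098644) (nat_lit 0) (node (node leaf (nat_lit 3447333098770) (nat_lit 0) leaf) (nat_lit 3447333098785) (nat_lit 0) (node leaf (nat_lit 3447333098788) (nat_lit 0) leaf)))))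

noncomputable def R0_58 : Tr := node R0_56 (nat_lit 3447332622868) (nat_lit 0) R0_57

noncomputable def R0_59 : Tr := node R0_55 (nat_lit 3447332410516) (nat_lit 0) R0_58

noncomputable def R0_60 : Tr := node R0_52 (nat_lit 3446887764241) (nat_lit 0) R0_59

noncomputable def R0_61 : Tr := node R0_45 (nat_lit 3438831550597) (nat_lit 0) R0_60

noncomputable def R0_62 : Tr := node R0_30 (nat_lit 3344257029712) (nat_lit 0) R0_61

noncomputable def R0_63 : Tr := (node (node (node (node (node (node leaf (nat_lit 3447333099796) (nat_lit 0) leaf) (nat_lit 3447333099844) (nat_lit 0) leaf) (nat_lit 3447333102928) (nat_lit 0) (node leaf (nat_lit 3447333127333) (nat_lit 0) leaf)) (nat_lit 3447333128485) (nat_lit 0) (node (node leaf (nat_lit 3447333128521) (nat_lit 0) leaf) (nat_lit 3447333128581) (nat_lit 0) (node leaf (nat_lit 3447333128788) (nat_lit 0) leaf))) (nat_lit 3447333130900) (nat_lit 0) (node (node (node leaf (nat_lit 3447333134485) (nat_lit 0) leaf) (nat_lit 3447333134740) (nat_lit 0) (node leaf (nat_lit 3447333134932) (nat_lit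 0) leaf)) (nat_lit 3447333135508) (nat_lit 0) (node (node leaf (nat_lit 3447333159508) (nat_lit 0) leaf) (nat_lit 3447333194068) (nat_lit 0) (node leaf (nat_lit 3447333196372) (nat_lit 0) leaf)))) (nat_lit 3447333196837) (nat_lit 0) (node (node (node (node (node leaf (nat_lit 3447333197074) (nat_lit 0) leaf) (nat_lit 3447333197092) (nat_lit 0) leaf) (nat_lit 3447333208213) (nat_lit 0) (node leaf (nat_lit 3447333208468) (nat_lit 0) leaf)) (nat_lit 3447333208660) (nat_lit 0) (node (node leaf (nat_lit 3447333209236) (nat_lit 0) leaf) (nat_lit 3447333212197) (nat_lit 0) (node leaf (nat_lit 3447333212425) (nat_lit 0) leaf))) (nat_lit 3447333212692) (nat_lit 0) (node (node (node leaf (nat_lit 3447333212752) (nat_lit 0) leaf) (nat_lit 3447333214288) (nat_lit 0) (node leaf (nat_lit 3447333323413) (nat_lit 0) leaf)) (nat_lit 3447333323941) (nat_lit 0) (node (node leaf (nat_lit 3447333325093) (nat_lit 0) leaf) (nat_lit 3447333332233) (nat_lit 0) (node leaf (nat_lit 3447333586516) (nat_lit 0) leaf)))))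

noncomputable def R0_64 : Tr := (node (node (node (node (node (node leaf (nat_lit 3447333589588) (nat_lit 0) leaf) (nat_lit 3447333602341) (nat_lit 0) leaf) (nat_lit 3447333603664) (nat_lit 0) (node leaf (nat_lit 3447333605524) (nat_lit 0) leaf)) (nat_lit 3447334147396) (nat_lit 0) (node (node leaf (nat_lit 3447334147408) (nat_lit 0) leaf) (nat_lit 3447334176340) (nat_lit 0) (node leaf (nat_lit 3447334179412) (nat_lit 0) leaf))) (nat_lit 3447334191397) (nat_lit 0) (node (node (node leaf (nat_lit 3447334191433) (nat_lit 0) leaf) (nat_lit 3447334191505) (nat_lit 0) (node leaf (nat_lit 3447334192165) (nat_lit 0) leaf)) (nat_lit 3447334192276) (nat_lit 0) (node (node leaf (nat_lit 3447334193428) (nat_lit 0) leaf) (nat_lit 3447334212673) (nat_lit 0) (node leaf (nat_lit 3447334373716) (nat_lit 0) leaf)))) (nat_lit 3447334376485) (nat_lit 0) (node (node (node (node leaf (nat_lit 3447334377556) (nat_lit 0) leaf) (nat_lit 3447334377796) (nat_lit 0) (node leaf (nat_lit 3447334380880) (nat_lit 0) leaf)) (nat_lit 3447334387861) (nat_lit 0)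 (node (node leaf (nat_lit 3447334388308) (nat_lit 0) leaf) (nat_lit 3447334388773) (nat_lit 0) (node leaf (nat_lit 3447334388809) (nat_lit 0) leaf))) (nat_lit 3447334388869) (nat_lit 0) (node (node (node leaf (nat_lit 3447334389844) (nat_lit 0) leaf) (nat_lit 3447334390081) (nat_lit 0) (node leaf (nat_lit 3447334436965) (nat_lit 0) leaf)) (nat_lit 3447334437013) (nat_lit 0) (node (node leaf (nat_lit 3447334437253) (nat_lit 0) leaf) (nat_lit 3447334437268) (nat_lit 0) (node leaf (nat_lit 3447334437460) (nat_lit 0) leaf)))))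

noncomputable def R0_65 : Tr := node R0_63 (nat_lit 3447333589285) (nat_lit 0) R0_64

noncomputable def R0_66 : Tr := (node (node (node (node (node (node leaf (nat_lit 3447334437961) (nat_lit 0) leaf) (nat_lit 3447334438021) (nat_lit 0) leaf) (nat_lit 3447334438033) (nat_lit 0) (node leaf (nat_lit 3447334438420) (nat_lit 0) leaf)) (nat_lit 3447334440997) (nat_lit 0) (node (node leaf (nat_lit 3447334453285) (nat_lit 0) leaf) (nat_lit 3447336215881) (nat_lit 0) (node leaf (nat_lit 3447336215890) (nat_lit 0) leaf))) (nat_lit 3447336215905) (nat_lit 0) (node (node (node leaf (nat_lit 3447336215908) (nat_lit 0) leaf) (nat_lit 3447336215953) (nat_lit 0) (node leaf (nat_lit 3447336225172) (nat_lit 0) leaf)) (nat_lit 3447336231241) (nat_lit 0) (node (node leaf (nat_lit 3447336244297) (nat_lit 0) leaf) (nat_lit 3447336244372) (nat_lit 0) (node leaf (nat_lit 3447336244489) (nat_lit 0) leaf)))) (nat_lit 3447336244498) (nat_lit 0) (node (node (node (node leaf (nat_lit 3447336244516) (nat_lit 0) leaf) (nat_lit 3447336244756) (nat_lit 0) (node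 leaf (nat_lit 3447336244804) (nat_lit 0) leaf)) (nat_lit 3447336245572) (nat_lit 0) (node (node leaf (nat_lit 3447336274249) (nat_lit 0) leaf) (nat_lit 3447336274309) (nat_lit 0) (node leaf (nat_lit 3447336274324) (nat_lit 0) leaf))) (nat_lit 3447336274516) (nat_lit 0) (node (node (node leaf (nat_lit 3447336278164) (nat_lit 0) leaf) (nat_lit 3447336280213) (nat_lit 0) (node leaf (nat_lit 3447336280393) (nat_lit 0) leaf)) (nat_lit 3447336280660) (nat_lit 0) (node (node leaf (nat_lit 3447336281125) (nat_lit 0) leaf) (nat_lit 3447336281620) (nat_lit 0) (node leaf (nat_lit 3447336305812) (nat_lit 0) leaf)))))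

noncomputable def R0_67 : Tr := (node (node (node (node (node (node leaf (nat_lit 3447336342793) (nat_lit 0) leaf) (nat_lit 3447336353941) (nat_lit 0) leaf) (nat_lit 3447336354388) (nat_lit 0) (node leaf (nat_lit 3447336357925) (nat_lit 0) leaf)) (nat_lit 3447336358036) (nat_lit 0) (node (node leaf (nat_lit 3447336358480) (nat_lit 0) leaf) (nat_lit 3447336358936) (nat_lit 0) (node leaf (nat_lit 3447336359044) (nat_lit 0) leaf))) (nat_lit 3447336360016) (nat_lit 0) (node (node (node leaf (nat_lit 3447336469141) (nat_lit 0) leaf) (nat_lit 3447336469669) (nat_lit 0) (node leaf (nat_lit 3447336470053) (nat_lit 0) leaf)) (nat_lit 3447336470821) (nat_lit 0) (node (node leaf (nat_lit 3447336470857) (nat_lit 0) leaf) (nat_lit 3447336471124) (nat_lit 0) (node leaf (nat_lit 3447336473236) (nat_lit 0) leaf)))) (nat_lit 3447336477844) (nat_lit 0) (node (node (node (node leaf (nat_lit 3447336477961) (nat_lit 0) leaf) (nat_lit 3447336487060) (nat_lit 0) (node leaf (nat_lit 3447336493204) (nat_lit 0) leaf)) (nat_lit 3447336502420) (nat_lit 0)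 (node (node leaf (nat_lit 3447336502537) (nat_lit 0) leaf) (nat_lit 3447336505492) (nat_lit 0) (node leaf (nat_lit 3447336603796) (nat_lit 0) leaf))) (nat_lit 3447336604240) (nat_lit 0) (node (node (node leaf (nat_lit 3447336604690) (nat_lit 0) leaf) (nat_lit 3447336604708) (nat_lit 0) (node leaf (nat_lit 3447336749392) (nat_lit 0) leaf)) (nat_lit 3447336751252) (nat_lit 0) (node (node leaf (nat_lit 3447336752137) (nat_lit 0) leaf) (nat_lit 3447336800404) (nat_lit 0) (node leaf (nat_lit 3447337256101) (nat_lit 0) leaf)))))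

noncomputable def R0_68 : Tr := node R0_66 (nat_lit 3447336305929) (nat_lit 0) R0_67

noncomputable def R0_69 : Tr := node R0_65 (nat_lit 3447334437925) (nat_lit 0) R0_68

noncomputable def R0_70 : Tr := (node (node (node (node (node (node leaf (nat_lit 3447337259173) (nat_lit 0) leaf) (nat_lit 3447337259668) (nat_lit 0) leaf) (nat_lit 3447337261093) (nat_lit 0) (node leaf (nat_lit 3447337263397) (nat_lit 0) leaf)) (nat_lit 3447337264393) (nat_lit 0) (node (node leaf (nat_lit 3447337271845) (nat_lit 0) leaf) (nat_lit 3447337271956) (nat_lit 0) (node leaf (nat_lit 3447337273492) (nat_lit 0) leaf))) (nat_lit 3447337273936) (nat_lit 0) (node (node (node leaf (nat_lit 3447337291924) (nat_lit 0) leaf) (nat_lit 3447337292368) (nat_lit 0) (node leaf (nat_lit 3447337292818) (nat_lit 0) leaf)) (nat_lit 3447337292836) (nat_lit 0) (node (node leaf (nat_lit 3447337320613) (nat_lit 0) leaf) (nat_lit 3447337321108) (nat_lit 0) (node leaf (nat_lit 3447338370196) (nat_lit 0) leaf)))) (nat_lit 3447340438852) (nat_lit 0) (node (node (node (node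 (node leaf (nat_lit 3447340467793) (nat_lit 0) leaf) (nat_lit 3447340470565) (nat_lit 0) leaf) (nat_lit 3447340470865) (nat_lit 0) (node leaf (nat_lit 3447340475728) (nat_lit 0) leaf)) (nat_lit 3447340482949) (nat_lit 0) (node (node leaf (nat_lit 3447340503361) (nat_lit 0) leaf) (nat_lit 3447340665169) (nat_lit 0) (node leaf (nat_lit 3447340669009) (nat_lit 0) leaf))) (nat_lit 3447340669204) (nat_lit 0) (node (node (node leaf (nat_lit 3447340669249) (nat_lit 0) leaf) (nat_lit 3447340679269) (nat_lit 0) (node leaf (nat_lit 3447340679461) (nat_lit 0) leaf)) (nat_lit 3447340679557) (nat_lit 0) (node (node leaf (nat_lit 3447340679572) (nat_lit 0) leaf) (nat_lit 3447340679761) (nat_lit 0) (node leaf (nat_lit 3447340680229) (nat_lit 0) leaf)))))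

noncomputable def R0_71 : Tr := (node (node (node (node (node (node leaf (nat_lit 3447340681489) (nat_lit 0) leaf) (nat_lit 3447340728709) (nat_lit 0) leaf) (nat_lit 3447340728913) (nat_lit 0) (node leaf (nat_lit 3447340728916) (nat_lit 0) leaf)) (nat_lit 3447340729381) (nat_lit 0) (node (node leaf (nat_lit 3447340729477) (nat_lit 0) leaf) (nat_lit 3447340732453) (nat_lit 0) (node leaf (nat_lit 3447349876036) (nat_lit 0) leaf))) (nat_lit 3447349908049) (nat_lit 0) (node (node (node leaf (nat_lit 3447349920133) (nat_lit 0) leaf) (nat_lit 3447350102353) (nat_lit 0) (node leaf (nat_lit 3447350106193) (nat_lit 0) leaf)) (nat_lit 3447350116453) (nat_lit 0) (node (node leaf (nat_lit 3447350116945) (nat_lit 0) leaf) (nat_lit 3447353021764) (nat_lit 0) (node leaf (nat_lit 3447353065765) (nat_lit 0) leaf)))) (nat_lit 3447353065801) (nat_lit 0) (node (node (node (node leaf (nat_lit 3447353065873) (nat_lit 0) leaf) (nat_lit 3447353066533) (nat_lit 0) (node leaf (nat_lit 3447353262229) (nat_lit 0) leaf)) (nat_lit 3447353263141) (nat_lit 0)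 (node (node leaf (nat_lit 3447353263237) (nat_lit 0) leaf) (nat_lit 3447353311381) (nat_lit 0) (node leaf (nat_lit 3447353312293) (nat_lit 0) leaf))) (nat_lit 3447354034513) (nat_lit 0) (node (node (node leaf (nat_lit 3447354034516) (nat_lit 0) leaf) (nat_lit 3447354097813) (nat_lit 0) (node leaf (nat_lit 3447386838100) (nat_lit 0) leaf)) (nat_lit 3447387145285) (nat_lit 0) (node (node leaf (nat_lit 3447387148549) (nat_lit 0) leaf) (nat_lit 3447387148561) (nat_lit 0) (node leaf (nat_lit 3447387612433) (nat_lit 0) leaf)))))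

noncomputable def R0_72 : Tr := node R0_70 (nat_lit 3447340681297) (nat_lit 0) R0_71

noncomputable def R0_73 : Tr := (node (node (node (node (node (node leaf (nat_lit 3447387624517) (nat_lit 0) leaf) (nat_lit 3447387624721) (nat_lit 0) leaf) (nat_lit 3447387624724) (nat_lit 0) (node leaf (nat_lit 3447387624772) (nat_lit 0) leaf)) (nat_lit 3447387654469) (nat_lit 0) (node (node leaf (nat_lit 3447387656785) (nat_lit 0) leaf) (nat_lit 3447387669073) (nat_lit 0) (node leaf (nat_lit 3447387735121) (nat_lit 0) leaf))) (nat_lit 3447387738373) (nat_lit 0) (node (node (node leaf (nat_lit 3447387849877) (nat_lit 0) leaf) (nat_lit 3447387851089) (nat_lit 0) (node leaf (nat_lit 3447387858193) (nat_lit 0) leaf)) (nat_lit 3447388128325) (nat_lit 0) (node (node leaf (nat_lit 3447388721221) (nat_lit 0) leaf) (nat_lit 3447388721233) (nat_lit 0) (node leaf (nat_lit 3447392048197) (nat_lit 0) leaf)))) (nat_lit 3447392048389) (nat_lit 0) (node (node (node (node leaf (nat_lit 3447400434001) (nat_lit 0) leaf) (nat_lit 3447403382356) (nat_lit 0) (node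 leaf (nat_lit 3447403384981) (nat_lit 0) leaf)) (nat_lit 3447403389268) (nat_lit 0) (node (node leaf (nat_lit 3447403578901) (nat_lit 0) leaf) (nat_lit 3447403579729) (nat_lit 0) (node leaf (nat_lit 3447403579732) (nat_lit 0) leaf))) (nat_lit 3447403581589) (nat_lit 0) (node (node (node leaf (nat_lit 3447403581973) (nat_lit 0) leaf) (nat_lit 3447404368021) (nat_lit 0) (node leaf (nat_lit 3447404368405) (nat_lit 0) leaf)) (nat_lit 3447404380309) (nat_lit 0) (node (node leaf (nat_lit 3447417213973) (nat_lit 0) leaf) (nat_lit 3447417214021) (nat_lit 0) (node leaf (nat_lit 3471031145620) (nat_lit 0) leaf)))))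

noncomputable def R0_74 : Tr := (node (node (node (node (node (node leaf (nat_lit 3471031146820) (nat_lit 0) leaf) (nat_lit 3471031157908) (nat_lit 0) leaf) (nat_lit 3471031206037) (nat_lit 0) (node leaf (nat_lit 3471031206277) (nat_lit 0) leaf)) (nat_lit 3471031206421) (nat_lit 0) (node (node leaf (nat_lit 3471031206484) (nat_lit 0) leaf) (nat_lit 3471031206949) (nat_lit 0) (node leaf (nat_lit 3471031207444) (nat_lit 0) leaf))) (nat_lit 3471031210132) (nat_lit 0) (node (node (node leaf (nat_lit 3471043486996) (nat_lit 0) leaf) (nat_lit 3471043487056) (nat_lit 0) (node leaf (nat_lit 3471043499281) (nat_lit 0) leaf)) (nat_lit 3471043499284) (nat_lit 0) (node (node leaf (nat_lit 3471043499332) (nat_lit 0) leaf) (nat_lit 3471043499344) (nat_lit 0) (node leaf (nat_lit 3471043529044) (nat_lit 0) leaf)))) (nat_lit 3471043531348) (nat_lit 0) (node (node (node (node leaf (nat_lit 3471043536193) (nat_lit 0) leaf) (nat_lit 3471043612933) (nat_lit 0) (node leaf (nat_lit 3471043612993) (nat_lit 0) leaf)) (nat_lit 3471043613701) (nat_lit 0)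 (node (node leaf (nat_lit 3471043613716) (nat_lit 0) leaf) (nat_lit 3471043729492) (nat_lit 0) (node leaf (nat_lit 3471043732804) (nat_lit 0) leaf))) (nat_lit 3471043739797) (nat_lit 0) (node (node (node leaf (nat_lit 3471043740241) (nat_lit 0) leaf) (nat_lit 3471043740244) (nat_lit 0) (node leaf (nat_lit 3471043740709) (nat_lit 0) leaf)) (nat_lit 3471043741780) (nat_lit 0) (node (node leaf (nat_lit 3471043789189) (nat_lit 0) leaf) (nat_lit 3471043789396) (nat_lit 0) (node leaf (nat_lit 3471043789861) (nat_lit 0) leaf)))))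

noncomputable def R0_75 : Tr := node R0_73 (nat_lit 3471031146772) (nat_lit 0) R0_74

noncomputable def R0_76 : Tr := node R0_72 (nat_lit 3447387612436) (nat_lit 0) R0_75

noncomputable def R0_77 : Tr := node R0_69 (nat_lit 3447337257253) (nat_lit 0) R0_76

noncomputable def R0_78 : Tr := (node (node (node (node (node (node leaf (nat_lit 3471043790356) (nat_lit 0) leaf) (nat_lit 3471043790932) (nat_lit 0) leaf) (nat_lit 3471043792933) (nat_lit 0) (node leaf (nat_lit 3471043793029) (nat_lit 0) leaf)) (nat_lit 3471043793044) (nat_lit 0) (node (node leaf (nat_lit 3471043805221) (nat_lit 0) leaf) (nat_lit 3471044003077) (nat_lit 0) (node leaf (nat_lit 3471044006149) (nat_lit 0) leaf))) (nat_lit 3471044006161) (nat_lit 0) (node (node (node leaf (nat_lit 3471044006164) (nat_lit 0) leaf) (nat_lit 3471044595985) (nat_lit 0) (node leaf (nat_lit 3471044595988) (nat_lit 0) leaf)) (nat_lit 3471046955281) (nat_lit 0) (node (node leaf (nat_lit 3471046955284) (nat_lit 0) leaf) (nat_lit 3471047922961) (nat_lit 0) (node leaf (nat_lit 3471047935249)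 (nat_lit 0) leaf)))) (nat_lit 3471584790865) (nat_lit 0) (node (node (node (node (node leaf (nat_lit 3471584790868) (nat_lit 0) leaf) (nat_lit 3471584793172) (nat_lit 0) leaf) (nat_lit 3471584854345) (nat_lit 0) (node leaf (nat_lit 3471584854417) (nat_lit 0) leaf)) (nat_lit 3471584858149) (nat_lit 0) (node (node leaf (nat_lit 3472641757588) (nat_lit 0) leaf) (nat_lit 3472641759505) (nat_lit 0) (node leaf (nat_lit 3472641759508) (nat_lit 0) leaf))) (nat_lit 3472641769621) (nat_lit 0) (node (node (node leaf (nat_lit 3472641769876) (nat_lit 0) leaf) (nat_lit 3472641770005) (nat_lit 0) (node leaf (nat_lit 3472641770068) (nat_lit 0) leaf)) (nat_lit 3472641818773) (nat_lit 0) (node (node leaf (nat_lit 3472641819220) (nat_lit 0) leaf) (nat_lit 3472654094932) (nat_lit 0) (node leaf (nat_lit 3472654099729) (nat_lit 0) leaf)))))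

noncomputable def R0_79 : Tr := (node (node (node (node (node (node leaf (nat_lit 3472654099780) (nat_lit 0) leaf) (nat_lit 3472654111825) (nat_lit 0) leaf) (nat_lit 3472654111828) (nat_lit 0) (node leaf (nat_lit 3472654112020) (nat_lit 0) leaf)) (nat_lit 3472654112068) (nat_lit 0) (node (node leaf (nat_lit 3472654141777) (nat_lit 0) leaf) (nat_lit 3472654222597) (nat_lit 0) (node leaf (nat_lit 3472654225669) (nat_lit 0) leaf))) (nat_lit 3472654225681) (nat_lit 0) (node (node (node leaf (nat_lit 3472654226449) (nat_lit 0) leaf) (nat_lit 3472654338388) (nat_lit 0) (node leaf (nat_lit 3472654340245) (nat_lit 0) leaf)) (nat_lit 3472654340689) (nat_lit 0) (node (node leaf (nat_lit 3472654340692) (nat_lit 0) leaf) (nat_lit 3472654341157) (nat_lit 0) (node leaf (nat_lit 3472654342228) (nat_lit 0) leaf)))) (nat_lit 3472654345492) (nat_lit 0) (node (node (node (node leaf (nat_lit 3472654352980) (nat_lit 0) leaf) (nat_lit 3472654353445) (nat_lit 0) (node leaf (nat_lit 3472654354516) (nat_lit 0) leaf)) (nat_lit 3472654401685) (nat_lit 0)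 (node (node leaf (nat_lit 3472654401925) (nat_lit 0) leaf) (nat_lit 3472654402132) (nat_lit 0) (node leaf (nat_lit 3472654402597) (nat_lit 0) leaf))) (nat_lit 3472654402693) (nat_lit 0) (node (node (node leaf (nat_lit 3472654405669) (nat_lit 0) leaf) (nat_lit 3472654615621) (nat_lit 0) (node leaf (nat_lit 3472654618693) (nat_lit 0) leaf)) (nat_lit 3472654618705) (nat_lit 0) (node (node leaf (nat_lit 3472654618897) (nat_lit 0) leaf) (nat_lit 3472655208529) (nat_lit 0) (node leaf (nat_lit 3472655208721) (nat_lit 0) leaf)))))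

noncomputable def R0_80 : Tr := node R0_78 (nat_lit 3472654099777) (nat_lit 0) R0_79

noncomputable def R0_81 : Tr := (node (node (node (node (node (node leaf (nat_lit 3472657568017) (nat_lit 0) leaf) (nat_lit 3472658535505) (nat_lit 0) leaf) (nat_lit 3472658535697) (nat_lit 0) (node leaf (nat_lit 3472792750417) (nat_lit 0) leaf)) (nat_lit 3472792750420) (nat_lit 0) (node (node leaf (nat_lit 3472792752724) (nat_lit 0) leaf) (nat_lit 3472792813897) (nat_lit 0) (node leaf (nat_lit 3472792813969) (nat_lit 0) leaf))) (nat_lit 3472792817701) (nat_lit 0) (node (node (node leaf (nat_lit 3472893412948) (nat_lit 0) leaf) (nat_lit 3473044407892) (nat_lit 0) (node leaf (nat_lit 3473044410517) (nat_lit 0) leaf)) (nat_lit 3473044410901) (nat_lit 0) (node (node leaf (nat_lit 3473044422805) (nat_lit 0) leaf) (nat_lit 3473056745044) (nat_lit 0) (node leaf (nat_lit 3473056752721) (nat_lit 0) leaf)))) (nat_lit 3473056752913) (nat_lit 0) (node (node (node (node leaf (nat_lit 3473056752916) (nat_lit 0) leaf) (nat_lit 3473056764997) (nat_lit 0) (node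 leaf (nat_lit 3473056765009) (nat_lit 0) leaf)) (nat_lit 3473056765201) (nat_lit 0) (node (node leaf (nat_lit 3473056765204) (nat_lit 0) leaf) (nat_lit 3473056794949) (nat_lit 0) (node leaf (nat_lit 3473056875589) (nat_lit 0) leaf))) (nat_lit 3473056878661) (nat_lit 0) (node (node (node leaf (nat_lit 3473056878673) (nat_lit 0) leaf) (nat_lit 3473056879621) (nat_lit 0) (node leaf (nat_lit 3473056990357) (nat_lit 0) leaf)) (nat_lit 3473056991569) (nat_lit 0) (node (node leaf (nat_lit 3473056993873) (nat_lit 0) leaf) (nat_lit 3473056998673) (nat_lit 0) (node leaf (nat_lit 3473057006161) (nat_lit 0) leaf)))))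

noncomputable def R0_82 : Tr := (node (node (node (node (node (node leaf (nat_lit 3473057268805) (nat_lit 0) leaf) (nat_lit 3473057271877) (nat_lit 0) leaf) (nat_lit 3473057272069) (nat_lit 0) (node leaf (nat_lit 3473057861701) (nat_lit 0) leaf)) (nat_lit 3473057861893) (nat_lit 0) (node (node leaf (nat_lit 3473060220997) (nat_lit 0) leaf) (nat_lit 3473060221189) (nat_lit 0) (node leaf (nat_lit 3473061188677) (nat_lit 0) leaf))) (nat_lit 3473061188869) (nat_lit 0) (node (node (node leaf (nat_lit 3473094740305) (nat_lit 0) leaf) (nat_lit 3473101915729) (nat_lit 0) (node leaf (nat_lit 3473101919365) (nat_lit 0) leaf)) (nat_lit 3473101919380) (nat_lit 0) (node (node leaf (nat_lit 3473101968529) (nat_lit 0) leaf) (nat_lit 3473101968658) (nat_lit 0) (node leaf (nat_lit 3473101968673) (nat_lit 0) leaf)))) (nat_lit 3473101968676) (nat_lit 0) (node (node (node (node leaf (nat_lit 3473101968901) (nat_lit 0) leaf) (nat_lit 3473101968913) (nat_lit 0) (node leaf (nat_lit 3473102087761) (nat_lit 0) leaf)) (nat_lit 3473102095525) (nat_lit 0)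 (node (node leaf (nat_lit 3473102096677) (nat_lit 0) leaf) (nat_lit 3473102096773) (nat_lit 0) (node leaf (nat_lit 3473102096788) (nat_lit 0) leaf))) (nat_lit 3473102102932) (nat_lit 0) (node (node (node leaf (nat_lit 3473102103124) (nat_lit 0) leaf) (nat_lit 3473102104900) (nat_lit 0) (node leaf (nat_lit 3473102112037) (nat_lit 0) leaf)) (nat_lit 3473102112337) (nat_lit 0) (node (node leaf (nat_lit 3473102112340) (nat_lit 0) leaf) (nat_lit 3473102115109) (nat_lit 0) (node leaf (nat_lit 3473102115412) (nat_lit 0) leaf)))))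

noncomputable def R0_83 : Tr := node R0_81 (nat_lit 3473057268757) (nat_lit 0) R0_82

noncomputable def R0_84 : Tr := node R0_80 (nat_lit 3472657567825) (nat_lit 0) R0_83

noncomputable def R0_85 : Tr := (node (node (node (node (node (node leaf (nat_lit 3473102115913) (nat_lit 0) leaf) (nat_lit 3473102115973) (nat_lit 0) leaf) (nat_lit 3473102116948) (nat_lit 0) (node leaf (nat_lit 3473102120272) (nat_lit 0) leaf)) (nat_lit 3473102144677) (nat_lit 0) (node (node leaf (nat_lit 3473102145829) (nat_lit 0) leaf) (nat_lit 3473102148244) (nat_lit 0) (node leaf (nat_lit 3473102152852) (nat_lit 0) leaf))) (nat_lit 3473102211412) (nat_lit 0) (node (node (node leaf (nat_lit 3473102213413) (nat_lit 0) leaf) (nat_lit 3473102213716) (nat_lit 0) (node leaf (nat_lit 3473102214169) (nat_lit 0) leaf)) (nat_lit 3473102214181) (nat_lit 0) (node (node leaf (nat_lit 3473102214217) (nat_lit 0) leaf) (nat_lit 3473102214289) (nat_lit 0) (node leaf (nat_lit 3473102214409) (nat_lit 0) leaf)))) (nat_lit 3473102214418) (nat_lit 0) (node (node (node (node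 leaf (nat_lit 3473102214436) (nat_lit 0) leaf) (nat_lit 3473102215252) (nat_lit 0) (node leaf (nat_lit 3473102215444) (nat_lit 0) leaf)) (nat_lit 3473102225737) (nat_lit 0) (node (node leaf (nat_lit 3473102225809) (nat_lit 0) leaf) (nat_lit 3473102225812) (nat_lit 0) (node leaf (nat_lit 3473102226580) (nat_lit 0) leaf))) (nat_lit 3473102227732) (nat_lit 0) (node (node (node leaf (nat_lit 3473102230036) (nat_lit 0) leaf) (nat_lit 3473102406949) (nat_lit 0) (node leaf (nat_lit 3473102407237) (nat_lit 0) leaf)) (nat_lit 3473102407249) (nat_lit 0) (node (node leaf (nat_lit 3473102407252) (nat_lit 0) leaf) (nat_lit 3473102410021) (nat_lit 0) (node leaf (nat_lit 3473102410117) (nat_lit 0) leaf)))))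

noncomputable def R0_86 : Tr := (node (node (node (node (node (node leaf (nat_lit 3473102415184) (nat_lit 0) leaf) (nat_lit 3473102422309) (nat_lit 0) leaf) (nat_lit 3473102422405) (nat_lit 0) (node leaf (nat_lit 3473102422612) (nat_lit 0) leaf)) (nat_lit 3473102423077) (nat_lit 0) (node (node leaf (nat_lit 3473102423137) (nat_lit 0) leaf) (nat_lit 3473102423173) (nat_lit 0) (node leaf (nat_lit 3473102423572) (nat_lit 0) leaf))) (nat_lit 3473102424145) (nat_lit 0) (node (node (node leaf (nat_lit 3473102424148) (nat_lit 0) leaf) (nat_lit 3473102424385) (nat_lit 0) (node leaf (nat_lit 3473102424388) (nat_lit 0) leaf)) (nat_lit 3473102426185) (nat_lit 0) (node (node leaf (nat_lit 3473102426209) (nat_lit 0) leaf) (nat_lit 3473102426245) (nat_lit 0) (node leaf (nat_lit 3473102426257) (nat_lit 0) leaf)))) (nat_lit 3473102426377) (nat_lit 0) (node (node (node (node leaf (nat_lit 3473102426386) (nat_lit 0) leaf) (nat_lit 3473102426401) (nat_lit 0) (node leaf (nat_lit 3473102426404) (nat_lit 0) leaf)) (nat_lit 3473102426644) (nat_lit 0)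 (node (node leaf (nat_lit 3473102426692) (nat_lit 0) leaf) (nat_lit 3473102427145) (nat_lit 0) (node leaf (nat_lit 3473102430529) (nat_lit 0) leaf))) (nat_lit 3473102430544) (nat_lit 0) (node (node (node leaf (nat_lit 3473102439745) (nat_lit 0) leaf) (nat_lit 3473102439748) (nat_lit 0) (node leaf (nat_lit 3473102442820) (nat_lit 0) leaf)) (nat_lit 3473102871124) (nat_lit 0) (node (node leaf (nat_lit 3473102873893) (nat_lit 0) leaf) (nat_lit 3473102874193) (nat_lit 0) (node leaf (nat_lit 3473102883145) (nat_lit 0) leaf)))))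

noncomputable def R0_87 : Tr := node R0_85 (nat_lit 3473102410324) (nat_lit 0) R0_86

noncomputable def R0_88 : Tr := (node (node (node (node (node (node leaf (nat_lit 3473102883220) (nat_lit 0) leaf) (nat_lit 3473102883412) (nat_lit 0) leaf) (nat_lit 3473102889289) (nat_lit 0) (node leaf (nat_lit 3473102889364) (nat_lit 0) leaf)) (nat_lit 3473102889556) (nat_lit 0) (node (node leaf (nat_lit 3473102901844) (nat_lit 0) leaf) (nat_lit 3473102902309) (nat_lit 0) (node leaf (nat_lit 3473102902345) (nat_lit 0) leaf))) (nat_lit 3473102902369) (nat_lit 0) (node (node (node leaf (nat_lit 3473102902417) (nat_lit 0) leaf) (nat_lit 3473102902420) (nat_lit 0) (node leaf (nat_lit 3473102902537) (nat_lit 0) leaf)) (nat_lit 3473102902546) (nat_lit 0) (node (node leaf (nat_lit 3473102902561) (nat_lit 0) leaf) (nat_lit 3473102902564) (nat_lit 0) (node leaf (nat_lit 3473102902804) (nat_lit 0) leaf)))) (nat_lit 3473102903380) (nat_lit 0) (node (node (node (node leaf (nat_lit 3473102903572) (nat_lit 0) leaf) (nat_lit 3473102903620) (nat_lit 0) (node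 leaf (nat_lit 3473102930581) (nat_lit 0) leaf)) (nat_lit 3473102931109) (nat_lit 0) (node (node leaf (nat_lit 3473102932261) (nat_lit 0) leaf) (nat_lit 3473102932297) (nat_lit 0) (node leaf (nat_lit 3473102932357) (nat_lit 0) leaf))) (nat_lit 3473102938261) (nat_lit 0) (node (node (node leaf (nat_lit 3473102938708) (nat_lit 0) leaf) (nat_lit 3473102939401) (nat_lit 0) (node leaf (nat_lit 3473102939668) (nat_lit 0) leaf)) (nat_lit 3473103000148) (nat_lit 0) (node (node leaf (nat_lit 3473103000841) (nat_lit 0) leaf) (nat_lit 3473103011989) (nat_lit 0) (node leaf (nat_lit 3473103012436) (nat_lit 0) leaf)))))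

noncomputable def R0_89 : Tr := (node (node (node (node (node (node leaf (nat_lit 3473103013129) (nat_lit 0) leaf) (nat_lit 3473103015973) (nat_lit 0) leaf) (nat_lit 3473103016084) (nat_lit 0) (node leaf (nat_lit 3473103016984) (nat_lit 0) leaf)) (nat_lit 3473103018064) (nat_lit 0) (node (node leaf (nat_lit 3473103127717) (nat_lit 0) leaf) (nat_lit 3473103128869) (nat_lit 0) (node leaf (nat_lit 3473103131284) (nat_lit 0) leaf))) (nat_lit 3473103135892) (nat_lit 0) (node (node (node leaf (nat_lit 3473103406228) (nat_lit 0) leaf) (nat_lit 3473103407440) (nat_lit 0) (node leaf (nat_lit 3473103409300) (nat_lit 0) leaf)) (nat_lit 3473103410185) (nat_lit 0) (node (node leaf (nat_lit 3473103951169) (nat_lit 0) leaf) (nat_lit 3473103951172) (nat_lit 0) (node leaf (nat_lit 3473103980113) (nat_lit 0) leaf)))) (nat_lit 3473103980116) (nat_lit 0) (node (node (node (node leaf (nat_lit 3473103982885) (nat_lit 0) leaf) (nat_lit 3473103988048) (nat_lit 0) (node leaf (nat_lit 3473103995029) (nat_lit 0) leaf)) (nat_lit 3473103995173) (nat_lit 0)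 (node (node leaf (nat_lit 3473103995941) (nat_lit 0) leaf) (nat_lit 3473103995977) (nat_lit 0) (node leaf (nat_lit 3473103996049) (nat_lit 0) leaf))) (nat_lit 3473103997201) (nat_lit 0) (node (node (node leaf (nat_lit 3473103997249) (nat_lit 0) leaf) (nat_lit 3473104015681) (nat_lit 0) (node leaf (nat_lit 3473104177489) (nat_lit 0) leaf)) (nat_lit 3473104177492) (nat_lit 0) (node (node leaf (nat_lit 3473104181332) (nat_lit 0) leaf) (nat_lit 3473104181524) (nat_lit 0) (node leaf (nat_lit 3473104191637) (nat_lit 0) leaf)))))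

noncomputable def R0_90 : Tr := node R0_88 (nat_lit 3473103012901) (nat_lit 0) R0_89

noncomputable def R0_91 : Tr := node R0_87 (nat_lit 3473102883205) (nat_lit 0) R0_90

noncomputable def R0_92 : Tr := node R0_84 (nat_lit 3473102115877) (nat_lit 0) R0_91

noncomputable def R0_93 : Tr := node R0_77 (nat_lit 3471043789957) (nat_lit 0) R0_92

noncomputable def R0_94 : Tr := (node (node (node (node (node (node leaf (nat_lit 3473104191892) (nat_lit 0) leaf) (nat_lit 3473104192084) (nat_lit 0) leaf) (nat_lit 3473104192549) (nat_lit 0) (node leaf (nat_lit 3473104193809) (nat_lit 0) leaf)) (nat_lit 3473104195621) (nat_lit 0) (node (node leaf (nat_lit 3473104240789) (nat_lit 0) leaf) (nat_lit 3473104240933) (nat_lit 0) (node leaf (nat_lit 3473104241029) (nat_lit 0) leaf))) (nat_lit 3473104241236) (nat_lit 0) (node (node (node leaf (nat_lit 3473104241701) (nat_lit 0) leaf) (nat_lit 3473104241797) (nat_lit 0) (node leaf (nat_lit 3473104244773) (nat_lit 0) leaf)) (nat_lit 3473106019621) (nat_lit 0) (node (node leaf (nat_lit 3473106019681)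 (nat_lit 0) leaf) (nat_lit 3473106019717) (nat_lit 0) (node leaf (nat_lit 3473106028948) (nat_lit 0) leaf)))) (nat_lit 3473106029140) (nat_lit 0) (node (node (node (node (node leaf (nat_lit 3473106035017) (nat_lit 0) leaf) (nat_lit 3473106035749) (nat_lit 0) leaf) (nat_lit 3473106048148) (nat_lit 0) (node leaf (nat_lit 3473106048265) (nat_lit 0) leaf)) (nat_lit 3473106048532) (nat_lit 0) (node (node leaf (nat_lit 3473106076309) (nat_lit 0) leaf) (nat_lit 3473106077221) (nat_lit 0) (node leaf (nat_lit 3473106078025) (nat_lit 0) leaf))) (nat_lit 3473106078100) (nat_lit 0) (node (node (node leaf (nat_lit 3473106078292) (nat_lit 0) leaf) (nat_lit 3473106109588) (nat_lit 0) (node leaf (nat_lit 3473106109705) (nat_lit 0) leaf)) (nat_lit 3473106161812) (nat_lit 0) (node (node leaf (nat_lit 3473106162052) (nat_lit 0) leaf) (nat_lit 3473106162256) (nat_lit 0) (node leaf (nat_lit 3473106162706) (nat_lit 0) leaf)))))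

noncomputable def R0_95 : Tr := (node (node (node (node (node (node leaf (nat_lit 3473106273445) (nat_lit 0) leaf) (nat_lit 3473106274597) (nat_lit 0) leaf) (nat_lit 3473106277012) (nat_lit 0) (node leaf (nat_lit 3473106280741) (nat_lit 0) leaf)) (nat_lit 3473106281620) (nat_lit 0) (node (node leaf (nat_lit 3473106281737) (nat_lit 0) leaf) (nat_lit 3473106555028) (nat_lit 0) (node leaf (nat_lit 3473107059877) (nat_lit 0) leaf))) (nat_lit 3473107061029) (nat_lit 0) (node (node (node leaf (nat_lit 3473110242625) (nat_lit 0) leaf) (nat_lit 3473110271557) (nat_lit 0) (node leaf (nat_lit 3473110271569) (nat_lit 0) leaf)) (nat_lit 3473110274149) (nat_lit 0) (node (node leaf (nat_lit 3473110279492) (nat_lit 0) leaf) (nat_lit 3473110286437) (nat_lit 0) (node leaf (nat_lit 3473110286485) (nat_lit 0) leaf)))) (nat_lit 3473110286629) (nat_lit 0) (node (node (node (node leaf (nat_lit 3473110304065) (nat_lit 0) leaf) (nat_lit 3473110468945) (nat_lit 0) (node leaf (nat_lit 3473110472785) (nat_lit 0) leaf)) (nat_lit 3473110472788) (nat_lit 0)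 (node (node leaf (nat_lit 3473110483093) (nat_lit 0) leaf) (nat_lit 3473110483237) (nat_lit 0) (node leaf (nat_lit 3473110483537) (nat_lit 0) leaf))) (nat_lit 3473110483540) (nat_lit 0) (node (node (node leaf (nat_lit 3473110532245) (nat_lit 0) leaf) (nat_lit 3473110532485) (nat_lit 0) (node leaf (nat_lit 3473110533157) (nat_lit 0) leaf)) (nat_lit 3473119679809) (nat_lit 0) (node (node leaf (nat_lit 3473119708753) (nat_lit 0) leaf) (nat_lit 3473119723621) (nat_lit 0) (node leaf (nat_lit 3473119723669) (nat_lit 0) leaf)))))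

noncomputable def R0_96 : Tr := node R0_94 (nat_lit 3473106162724) (nat_lit 0) R0_95

noncomputable def R0_97 : Tr := (node (node (node (node (node (node leaf (nat_lit 3473119906129) (nat_lit 0) leaf) (nat_lit 3473122825537) (nat_lit 0) leaf) (nat_lit 3473122869397) (nat_lit 0) (node leaf (nat_lit 3473122869541) (nat_lit 0) leaf)) (nat_lit 3473123051857) (nat_lit 0) (node (node leaf (nat_lit 3473123051860) (nat_lit 0) leaf) (nat_lit 3473123066005) (nat_lit 0) (node leaf (nat_lit 3473123115157) (nat_lit 0) leaf))) (nat_lit 3473156641873) (nat_lit 0) (node (node (node leaf (nat_lit 3473156949013) (nat_lit 0) leaf) (nat_lit 3473156952133) (nat_lit 0) (node leaf (nat_lit 3473156952325) (nat_lit 0) leaf)) (nat_lit 3473157409093) (nat_lit 0) (node (node leaf (nat_lit 3473157416197) (nat_lit 0) leaf) (nat_lit 3473157416209) (nat_lit 0) (node leaf (nat_lit 3473157428245) (nat_lit 0) leaf)))) (nat_lit 3473157428305) (nat_lit 0) (node (node (node (node leaf (nat_lit 3473157428497) (nat_lit 0) leaf) (nat_lit 3473157428545) (nat_lit 0) (node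 leaf (nat_lit 3473157457045) (nat_lit 0) leaf)) (nat_lit 3473157457489) (nat_lit 0) (node (node leaf (nat_lit 3473157460561) (nat_lit 0) leaf) (nat_lit 3473157538885) (nat_lit 0) (node leaf (nat_lit 3473157541957) (nat_lit 0) leaf))) (nat_lit 3473157654853) (nat_lit 0) (node (node (node leaf (nat_lit 3473157654865) (nat_lit 0) leaf) (nat_lit 3473157661957) (nat_lit 0) (node leaf (nat_lit 3473157932053) (nat_lit 0) leaf)) (nat_lit 3473158524949) (nat_lit 0) (node (node leaf (nat_lit 3473158524997) (nat_lit 0) leaf) (nat_lit 3473161851205) (nat_lit 0) (node leaf (nat_lit 3473161851973) (nat_lit 0) leaf)))))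

noncomputable def R0_98 : Tr := (node (node (node (node (node (node leaf (nat_lit 3473170043029) (nat_lit 0) leaf) (nat_lit 3473170237777) (nat_lit 0) leaf) (nat_lit 3473173188757) (nat_lit 0) (node leaf (nat_lit 3473173193041) (nat_lit 0) leaf)) (nat_lit 3473173381717) (nat_lit 0) (node (node leaf (nat_lit 3473173382677) (nat_lit 0) leaf) (nat_lit 3473173383505) (nat_lit 0) (node leaf (nat_lit 3473173385365) (nat_lit 0) leaf))) (nat_lit 3473174169109) (nat_lit 0) (node (node (node leaf (nat_lit 3473174171797) (nat_lit 0) leaf) (nat_lit 3473187016981) (nat_lit 0) (node leaf (nat_lit 3473187017749) (nat_lit 0) leaf)) (nat_lit 3479033874772) (nat_lit 0) (node (node leaf (nat_lit 3479084205652) (nat_lit 0) leaf) (nat_lit 3479084208277) (nat_lit 0) (node leaf (nat_lit 3479084208661) (nat_lit 0) leaf)))) (nat_lit 3479084220565) (nat_lit 0) (node (node (node (node leaf (nat_lit 3479096542804) (nat_lit 0) leaf) (nat_lit 3479096550661) (nat_lit 0) (node leaf (nat_lit 3479096550673) (nat_lit 0) leaf)) (nat_lit 3479096550676) (nat_lit 0)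 (node (node leaf (nat_lit 3479096562757) (nat_lit 0) leaf) (nat_lit 3479096562769) (nat_lit 0) (node leaf (nat_lit 3479096562961) (nat_lit 0) leaf))) (nat_lit 3479096563009) (nat_lit 0) (node (node (node leaf (nat_lit 3479096592709) (nat_lit 0) leaf) (nat_lit 3479096594581) (nat_lit 0) (node leaf (nat_lit 3479096595028) (nat_lit 0) leaf)) (nat_lit 3479096607781) (nat_lit 0) (node (node leaf (nat_lit 3479096673349) (nat_lit 0) leaf) (nat_lit 3479096676421) (nat_lit 0) (node leaf (nat_lit 3479096676433) (nat_lit 0) leaf)))))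

noncomputable def R0_99 : Tr := node R0_97 (nat_lit 3473170040404) (nat_lit 0) R0_98

noncomputable def R0_100 : Tr := node R0_96 (nat_lit 3473119723813) (nat_lit 0) R0_99

noncomputable def R0_101 : Tr := (node (node (node (node (node (node leaf (nat_lit 3479096788561) (nat_lit 0) leaf) (nat_lit 3479096789329) (nat_lit 0) leaf) (nat_lit 3479096789332) (nat_lit 0) (node leaf (nat_lit 3479096791333) (nat_lit 0) leaf)) (nat_lit 3479096791636) (nat_lit 0) (node (node leaf (nat_lit 3479096793172) (nat_lit 0) leaf) (nat_lit 3479096796433) (nat_lit 0) (node leaf (nat_lit 3479096803477) (nat_lit 0) leaf))) (nat_lit 3479096803717) (nat_lit 0) (node (node (node leaf (nat_lit 3479096803924) (nat_lit 0) leaf) (nat_lit 3479096852773) (nat_lit 0) (node leaf (nat_lit 3479096852869) (nat_lit 0) leaf)) (nat_lit 3479096853541) (nat_lit 0) (node (node leaf (nat_lit 3479097065797) (nat_lit 0) leaf) (nat_lit 3479097066565) (nat_lit 0) (node leaf (nat_lit 3479097069637) (nat_lit 0) leaf)))) (nat_lit 3479097069829) (nat_lit 0) (node (node (node (node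 (node leaf (nat_lit 3479097659461) (nat_lit 0) leaf) (nat_lit 3479097659653) (nat_lit 0) leaf) (nat_lit 3479100018757) (nat_lit 0) (node leaf (nat_lit 3479100018949) (nat_lit 0) leaf)) (nat_lit 3479100986437) (nat_lit 0) (node (node leaf (nat_lit 3479100986629) (nat_lit 0) leaf) (nat_lit 3479235264901) (nat_lit 0) (node leaf (nat_lit 3479235265573) (nat_lit 0) leaf))) (nat_lit 3479486858389) (nat_lit 0) (node (node (node leaf (nat_lit 3479486858773) (nat_lit 0) leaf) (nat_lit 3479486858833) (nat_lit 0) (node leaf (nat_lit 3479486861461) (nat_lit 0) leaf)) (nat_lit 3479499195985) (nat_lit 0) (node (node leaf (nat_lit 3479499196741) (nat_lit 0) leaf) (nat_lit 3479499203653) (nat_lit 0) (node leaf (nat_lit 3479499203845) (nat_lit 0) leaf)))))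

noncomputable def R0_102 : Tr := (node (node (node (node (node (node leaf (nat_lit 3479499215173) (nat_lit 0) leaf) (nat_lit 3479499215941) (nat_lit 0) leaf) (nat_lit 3479499215953) (nat_lit 0) (node leaf (nat_lit 3479499216145) (nat_lit 0) leaf)) (nat_lit 3479499244693) (nat_lit 0) (node (node leaf (nat_lit 3479499245137) (nat_lit 0) leaf) (nat_lit 3479499248209) (nat_lit 0) (node leaf (nat_lit 3479499260197) (nat_lit 0) leaf))) (nat_lit 3479499325765) (nat_lit 0) (node (node (node leaf (nat_lit 3479499326533) (nat_lit 0) leaf) (nat_lit 3479499329605) (nat_lit 0) (node leaf (nat_lit 3479499329797) (nat_lit 0) leaf)) (nat_lit 3479499442501) (nat_lit 0) (node (node leaf (nat_lit 3479499442513) (nat_lit 0) leaf) (nat_lit 3479499444817) (nat_lit 0) (node leaf (nat_lit 3479499449605) (nat_lit 0) leaf)))) (nat_lit 3479499718933) (nat_lit 0) (node (node (node (node leaf (nat_lit 3479499719701) (nat_lit 0) leaf) (nat_lit 3479499722773) (nat_lit 0) (node leaf (nat_lit 3479499722821) (nat_lit 0) leaf)) (nat_lit 3479500312597) (nat_lit 0)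 (node (node leaf (nat_lit 3479500312645) (nat_lit 0) leaf) (nat_lit 3479502671893) (nat_lit 0) (node leaf (nat_lit 3479502671941) (nat_lit 0) leaf))) (nat_lit 3479503638853) (nat_lit 0) (node (node (node leaf (nat_lit 3479503639621) (nat_lit 0) leaf) (nat_lit 3479537191249) (nat_lit 0) (node leaf (nat_lit 3479544366661) (nat_lit 0) leaf)) (nat_lit 3479544366676) (nat_lit 0) (node (node leaf (nat_lit 3479544369541) (nat_lit 0) leaf) (nat_lit 3479544370249) (nat_lit 0) (node leaf (nat_lit 3479544370309) (nat_lit 0) leaf)))))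

noncomputable def R0_103 : Tr := node R0_101 (nat_lit 3479499203857) (nat_lit 0) R0_102

noncomputable def R0_104 : Tr := (node (node (node (node (node (node leaf (nat_lit 3479544374608) (nat_lit 0) leaf) (nat_lit 3479544418885) (nat_lit 0) leaf) (nat_lit 3479544418900) (nat_lit 0) (node leaf (nat_lit 3479544419425) (nat_lit 0) leaf)) (nat_lit 3479544419461) (nat_lit 0) (node (node leaf (nat_lit 3479544419593) (nat_lit 0) leaf) (nat_lit 3479544419602) (nat_lit 0) (node leaf (nat_lit 3479544419617) (nat_lit 0) leaf))) (nat_lit 3479544419620) (nat_lit 0) (node (node (node leaf (nat_lit 3479544419845) (nat_lit 0) leaf) (nat_lit 3479544535429) (nat_lit 0) (node leaf (nat_lit 3479544538405) (nat_lit 0) leaf)) (nat_lit 3479544538516) (nat_lit 0) (node (node leaf (nat_lit 3479544538693) (nat_lit 0) leaf) (nat_lit 3479544538708) (nat_lit 0) (node leaf (nat_lit 3479544546469) (nat_lit 0) leaf)))) (nat_lit 3479544547621) (nat_lit 0) (node (node (node (node leaf (nat_lit 3479544547657) (nat_lit 0) leaf) (nat_lit 3479544547717) (nat_lit 0)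 (node leaf (nat_lit 3479544547729) (nat_lit 0) leaf)) (nat_lit 3479544553801) (nat_lit 0) (node (node leaf (nat_lit 3479544562789) (nat_lit 0) leaf) (nat_lit 3479544562981) (nat_lit 0) (node leaf (nat_lit 3479544563269) (nat_lit 0) leaf))) (nat_lit 3479544563284) (nat_lit 0) (node (node (node leaf (nat_lit 3479544566053) (nat_lit 0) leaf) (nat_lit 3479544566821) (nat_lit 0) (node leaf (nat_lit 3479544566932) (nat_lit 0) leaf)) (nat_lit 3479544568132) (nat_lit 0) (node (node leaf (nat_lit 3479544595093) (nat_lit 0) leaf) (nat_lit 3479544595621) (nat_lit 0) (node leaf (nat_lit 3479544596773) (nat_lit 0) leaf)))))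

noncomputable def R0_105 : Tr := (node (node (node (node (node (node leaf (nat_lit 3479544664165) (nat_lit 0) leaf) (nat_lit 3479544664357) (nat_lit 0) leaf) (nat_lit 3479544664468) (nat_lit 0) (node leaf (nat_lit 3479544665221) (nat_lit 0) leaf)) (nat_lit 3479544665236) (nat_lit 0) (node (node leaf (nat_lit 3479544665353) (nat_lit 0) leaf) (nat_lit 3479544666196) (nat_lit 0) (node leaf (nat_lit 3479544666388) (nat_lit 0) leaf))) (nat_lit 3479544677641) (nat_lit 0) (node (node (node leaf (nat_lit 3479544677908) (nat_lit 0) leaf) (nat_lit 3479544857893) (nat_lit 0) (node leaf (nat_lit 3479544858133) (nat_lit 0) leaf)) (nat_lit 3479544858181) (nat_lit 0) (node (node leaf (nat_lit 3479544858193) (nat_lit 0) leaf) (nat_lit 3479544858196) (nat_lit 0) (node leaf (nat_lit 3479544860821) (nat_lit 0) leaf)))) (nat_lit 3479544860965) (nat_lit 0) (node (node (node (node leaf (nat_lit 3479544861061) (nat_lit 0) leaf) (nat_lit 3479544866116) (nat_lit 0) (node leaf (nat_lit 3479544873253) (nat_lit 0) leaf)) (nat_lit 3479544873349) (nat_lit 0)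 (node (node leaf (nat_lit 3479544874021) (nat_lit 0) leaf) (nat_lit 3479544874057) (nat_lit 0) (node leaf (nat_lit 3479544874117) (nat_lit 0) leaf))) (nat_lit 3479544874129) (nat_lit 0) (node (node (node leaf (nat_lit 3479544874132) (nat_lit 0) leaf) (nat_lit 3479544874516) (nat_lit 0) (node leaf (nat_lit 3479544875281) (nat_lit 0) leaf)) (nat_lit 3479544875329) (nat_lit 0) (node (node leaf (nat_lit 3479544875344) (nat_lit 0) leaf) (nat_lit 3479544877093) (nat_lit 0) (node leaf (nat_lit 3479544877153) (nat_lit 0) leaf)))))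

noncomputable def R0_106 : Tr := node R0_104 (nat_lit 3479544604180) (nat_lit 0) R0_105

noncomputable def R0_107 : Tr := node R0_103 (nat_lit 3479544370321) (nat_lit 0) R0_106

noncomputable def R0_108 : Tr := node R0_100 (nat_lit 3479096677381) (nat_lit 0) R0_107

noncomputable def R0_109 : Tr := (node (node (node (node (node (node leaf (nat_lit 3479544877321) (nat_lit 0) leaf) (nat_lit 3479544877345) (nat_lit 0) leaf) (nat_lit 3479544877588) (nat_lit 0) (node leaf (nat_lit 3479544878089) (nat_lit 0) leaf)) (nat_lit 3479544881476) (nat_lit 0) (node (node leaf (nat_lit 3479544890689) (nat_lit 0) leaf) (nat_lit 3479544890692) (nat_lit 0) (node leaf (nat_lit 3479545324837) (nat_lit 0) leaf))) (nat_lit 3479545324933) (nat_lit 0) (node (node (node leaf (nat_lit 3479545324948) (nat_lit 0) leaf) (nat_lit 3479545325125) (nat_lit 0) (node leaf (nat_lit 3479545325140) (nat_lit 0) leaf)) (nat_lit 3479545334089) (nat_lit 0) (node (node leaf (nat_lit 3479545334161) (nat_lit 0) leaf) (nat_lit 3479545341193) (nat_lit 0) (node leaf (nat_lit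 3479545353253) (nat_lit 0) leaf)))) (nat_lit 3479545353313) (nat_lit 0) (node (node (node (node (node leaf (nat_lit 3479545353349) (nat_lit 0) leaf) (nat_lit 3479545353364) (nat_lit 0) leaf) (nat_lit 3479545353481) (nat_lit 0) (node leaf (nat_lit 3479545354324) (nat_lit 0) leaf)) (nat_lit 3479545382053) (nat_lit 0) (node (node leaf (nat_lit 3479545383205) (nat_lit 0) leaf) (nat_lit 3479545385620) (nat_lit 0) (node leaf (nat_lit 3479545390228) (nat_lit 0) leaf))) (nat_lit 3479545451092) (nat_lit 0) (node (node (node leaf (nat_lit 3479545451557) (nat_lit 0) leaf) (nat_lit 3479545463956) (nat_lit 0) (node leaf (nat_lit 3479545860244) (nat_lit 0) leaf)) (nat_lit 3479546402113) (nat_lit 0) (node (node leaf (nat_lit 3479546430757) (nat_lit 0) leaf) (nat_lit 3479546431045) (nat_lit 0) (node leaf (nat_lit 3479546431057) (nat_lit 0) leaf)))))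

noncomputable def R0_110 : Tr := (node (node (node (node (node (node leaf (nat_lit 3479546438980) (nat_lit 0) leaf) (nat_lit 3479546445925) (nat_lit 0) leaf) (nat_lit 3479546445973) (nat_lit 0) (node leaf (nat_lit 3479546446153) (nat_lit 0) leaf)) (nat_lit 3479546446213) (nat_lit 0) (node (node leaf (nat_lit 3479546446225) (nat_lit 0) leaf) (nat_lit 3479546446420) (nat_lit 0) (node leaf (nat_lit 3479546446885) (nat_lit 0) leaf))) (nat_lit 3479546449957) (nat_lit 0) (node (node (node leaf (nat_lit 3479546463553) (nat_lit 0) leaf) (nat_lit 3479546628436) (nat_lit 0) (node leaf (nat_lit 3479546632276) (nat_lit 0) leaf)) (nat_lit 3479546643028) (nat_lit 0) (node (node leaf (nat_lit 3479546691685) (nat_lit 0) leaf) (nat_lit 3479546691733) (nat_lit 0) (node leaf (nat_lit 3479546691973) (nat_lit 0) leaf)))) (nat_lit 3479546692645) (nat_lit 0) (node (node (node (node leaf (nat_lit 3479548470565) (nat_lit 0) leaf) (nat_lit 3479548470601) (nat_lit 0) (node leaf (nat_lit 3479548478101) (nat_lit 0) leaf)) (nat_lit 3479548479892) (nat_lit 0)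 (node (node leaf (nat_lit 3479548480084) (nat_lit 0) leaf) (nat_lit 3479548485925) (nat_lit 0) (node leaf (nat_lit 3479548498516) (nat_lit 0) leaf))) (nat_lit 3479548499209) (nat_lit 0) (node (node (node leaf (nat_lit 3479548527781) (nat_lit 0) leaf) (nat_lit 3479548528933) (nat_lit 0) (node leaf (nat_lit 3479548535077) (nat_lit 0) leaf)) (nat_lit 3479548612756) (nat_lit 0) (node (node leaf (nat_lit 3479548725541) (nat_lit 0) leaf) (nat_lit 3479549510053) (nat_lit 0) (node leaf (nat_lit 3479552693521) (nat_lit 0) leaf)))))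

noncomputable def R0_111 : Tr := node R0_109 (nat_lit 3479546435857) (nat_lit 0) R0_110

noncomputable def R0_112 : Tr := (node (node (node (node (node (node leaf (nat_lit 3479552722453) (nat_lit 0) leaf) (nat_lit 3479552722501) (nat_lit 0) leaf) (nat_lit 3479552725093) (nat_lit 0) (node leaf (nat_lit 3479552725141) (nat_lit 0) leaf)) (nat_lit 3479552737429) (nat_lit 0) (node (node leaf (nat_lit 3479552919889) (nat_lit 0) leaf) (nat_lit 3479552919892) (nat_lit 0) (node leaf (nat_lit 3479552933989) (nat_lit 0) leaf))) (nat_lit 3479552934037) (nat_lit 0) (node (node (node leaf (nat_lit 3479552983189) (nat_lit 0) leaf) (nat_lit 3479562130705) (nat_lit 0) (node leaf (nat_lit 3479562130753) (nat_lit 0) leaf)) (nat_lit 3479562162277) (nat_lit 0) (node (node leaf (nat_lit 3479562162325) (nat_lit 0) leaf) (nat_lit 3479562174613) (nat_lit 0) (node leaf (nat_lit 3479562357073) (nat_lit 0) leaf)))) (nat_lit 3479562357076) (nat_lit 0) (node (node (node (node leaf (nat_lit 3479562371221) (nat_lit 0) leaf) (nat_lit 3479562420373) (nat_lit 0)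 (node leaf (nat_lit 3479565320293) (nat_lit 0) leaf)) (nat_lit 3479597043781) (nat_lit 0) (node (node leaf (nat_lit 3479599092805) (nat_lit 0) leaf) (nat_lit 3479599399189) (nat_lit 0) (node leaf (nat_lit 3479599399957) (nat_lit 0) leaf))) (nat_lit 3479599403029) (nat_lit 0) (node (node (node leaf (nat_lit 3479599847749) (nat_lit 0) leaf) (nat_lit 3479599858837) (nat_lit 0) (node leaf (nat_lit 3479599859281) (nat_lit 0) leaf)) (nat_lit 3479599866949) (nat_lit 0) (node (node leaf (nat_lit 3479599867141) (nat_lit 0) leaf) (nat_lit 3479599878421) (nat_lit 0) (node leaf (nat_lit 3479599879237) (nat_lit 0) leaf)))))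

noncomputable def R0_113 : Tr := (node (node (node (node (node (node leaf (nat_lit 3479599879441) (nat_lit 0) leaf) (nat_lit 3479599908433) (nat_lit 0) leaf) (nat_lit 3479599909189) (nat_lit 0) (node leaf (nat_lit 3479599909201) (nat_lit 0) leaf)) (nat_lit 3479599916293) (nat_lit 0) (node (node leaf (nat_lit 3479599977541) (nat_lit 0) leaf) (nat_lit 3479599989829) (nat_lit 0) (node leaf (nat_lit 3479600105809) (nat_lit 0) leaf))) (nat_lit 3479600972821) (nat_lit 0) (node (node (node leaf (nat_lit 3479604302101) (nat_lit 0) leaf) (nat_lit 3479604302869) (nat_lit 0) (node leaf (nat_lit 3479612490901) (nat_lit 0) leaf)) (nat_lit 3479612491345) (nat_lit 0) (node (node leaf (nat_lit 3479612493973) (nat_lit 0) leaf) (nat_lit 3479612688721) (nat_lit 0) (node leaf (nat_lit 3479615594833) (nat_lit 0) leaf)))) (nat_lit 3479615636053) (nat_lit 0) (node (node (node (node leaf (nat_lit 3479615637841) (nat_lit 0) leaf) (nat_lit 3479615639701) (nat_lit 0) (node leaf (nat_lit 3479615832661) (nat_lit 0) leaf)) (nat_lit 3479616619093) (nat_lit 0)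 (node (node leaf (nat_lit 3479629271317) (nat_lit 0) leaf) (nat_lit 3479629467925) (nat_lit 0) (node leaf (nat_lit 3480270447952) (nat_lit 0) leaf))) (nat_lit 3480275166544) (nat_lit 0) (node (node (node leaf (nat_lit 3480282637648) (nat_lit 0) leaf) (nat_lit 3480300332356) (nat_lit 0) (node leaf (nat_lit 3480400209220) (nat_lit 0) leaf)) (nat_lit 3480551204164) (nat_lit 0) (node (node leaf (nat_lit 3481097470549) (nat_lit 0) leaf) (nat_lit 3481109797189) (nat_lit 0) (node leaf (nat_lit 3481109808277) (nat_lit 0) leaf)))))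

noncomputable def R0_114 : Tr := node R0_112 (nat_lit 3479599879249) (nat_lit 0) R0_113

noncomputable def R0_115 : Tr := node R0_111 (nat_lit 3479552693569) (nat_lit 0) R0_114

noncomputable def R0_116 : Tr := (node (node (node (node (node (node leaf (nat_lit 3481109816389) (nat_lit 0) leaf) (nat_lit 3481109816581) (nat_lit 0) leaf) (nat_lit 3481109827861) (nat_lit 0) (node leaf (nat_lit 3481109828629) (nat_lit 0) leaf)) (nat_lit 3481109828677) (nat_lit 0) (node (node leaf (nat_lit 3481109828689) (nat_lit 0) leaf) (nat_lit 3481109828881) (nat_lit 0) (node leaf (nat_lit 3481109828929) (nat_lit 0) leaf))) (nat_lit 3481109857861) (nat_lit 0) (node (node (node leaf (nat_lit 3481109857873) (nat_lit 0) leaf) (nat_lit 3481109858629) (nat_lit 0) (node leaf (nat_lit 3481109860453) (nat_lit 0) leaf)) (nat_lit 3481109860645) (nat_lit 0) (node (node leaf (nat_lit 3481109860945) (nat_lit 0) leaf) (nat_lit 3481109865733) (nat_lit 0) (node leaf (nat_lit 3481109872789) (nat_lit 0) leaf)))) (nat_lit 3481109938453) (nat_lit 0) (node (node (node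 (node leaf (nat_lit 3481109939221) (nat_lit 0) leaf) (nat_lit 3481109939269) (nat_lit 0) (node leaf (nat_lit 3481109942341) (nat_lit 0) leaf)) (nat_lit 3481110055237) (nat_lit 0) (node (node leaf (nat_lit 3481110055249) (nat_lit 0) leaf) (nat_lit 3481110055252) (nat_lit 0) (node leaf (nat_lit 3481110069397) (nat_lit 0) leaf))) (nat_lit 3481110118549) (nat_lit 0) (node (node (node leaf (nat_lit 3481110320149) (nat_lit 0) leaf) (nat_lit 3481110331477) (nat_lit 0) (node leaf (nat_lit 3481110332437) (nat_lit 0) leaf)) (nat_lit 3481110335509) (nat_lit 0) (node (node leaf (nat_lit 3481110922261) (nat_lit 0) leaf) (nat_lit 3481110925333) (nat_lit 0) (node leaf (nat_lit 3481113281557) (nat_lit 0) leaf)))))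

noncomputable def R0_117 : Tr := (node (node (node (node (node (node leaf (nat_lit 3481114251541) (nat_lit 0) leaf) (nat_lit 3481114252309) (nat_lit 0) leaf) (nat_lit 3481147818085) (nat_lit 0) (node leaf (nat_lit 3481154979109) (nat_lit 0) leaf)) (nat_lit 3481154979205) (nat_lit 0) (node (node leaf (nat_lit 3481154979349) (nat_lit 0) leaf) (nat_lit 3481154979397) (nat_lit 0) (node leaf (nat_lit 3481154979409) (nat_lit 0) leaf))) (nat_lit 3481154979412) (nat_lit 0) (node (node (node leaf (nat_lit 3481154982277) (nat_lit 0) leaf) (nat_lit 3481154983045) (nat_lit 0) (node leaf (nat_lit 3481155031429) (nat_lit 0) leaf)) (nat_lit 3481155031573) (nat_lit 0) (node (node leaf (nat_lit 3481155031621) (nat_lit 0) leaf) (nat_lit 3481155032101) (nat_lit 0) (node leaf (nat_lit 3481155032161) (nat_lit 0) leaf)))) (nat_lit 3481155032197) (nat_lit 0) (node (node (node (node leaf (nat_lit 3481155032329) (nat_lit 0) leaf) (nat_lit 3481155148165) (nat_lit 0) (node leaf (nat_lit 3481155151141) (nat_lit 0) leaf)) (nat_lit 3481155151177) (nat_lit 0)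 (node (node leaf (nat_lit 3481155151237) (nat_lit 0) leaf) (nat_lit 3481155151249) (nat_lit 0) (node leaf (nat_lit 3481155151381) (nat_lit 0) leaf))) (nat_lit 3481155151429) (nat_lit 0) (node (node (node leaf (nat_lit 3481155151441) (nat_lit 0) leaf) (nat_lit 3481155151444) (nat_lit 0) (node leaf (nat_lit 3481155158677) (nat_lit 0) leaf)) (nat_lit 3481155159205) (nat_lit 0) (node (node leaf (nat_lit 3481155160357) (nat_lit 0) leaf) (nat_lit 3481155160453) (nat_lit 0) (node leaf (nat_lit 3481155175717) (nat_lit 0) leaf)))))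

noncomputable def R0_118 : Tr := node R0_116 (nat_lit 3481113284629) (nat_lit 0) R0_117

noncomputable def R0_119 : Tr := (node (node (node (node (node (node leaf (nat_lit 3481155179557) (nat_lit 0) leaf) (nat_lit 3481155208357) (nat_lit 0) leaf) (nat_lit 3481155209509) (nat_lit 0) (node leaf (nat_lit 3481155276901) (nat_lit 0) leaf)) (nat_lit 3481155424405) (nat_lit 0) (node (node leaf (nat_lit 3481155469909) (nat_lit 0) leaf) (nat_lit 3481155470629) (nat_lit 0) (node leaf (nat_lit 3481155470725) (nat_lit 0) leaf))) (nat_lit 3481155470869) (nat_lit 0) (node (node (node leaf (nat_lit 3481155470917) (nat_lit 0) leaf) (nat_lit 3481155470929) (nat_lit 0) (node leaf (nat_lit 3481155473701) (nat_lit 0) leaf)) (nat_lit 3481155485845) (nat_lit 0) (node (node leaf (nat_lit 3481155486085) (nat_lit 0) leaf) (nat_lit 3481155486757) (nat_lit 0) (node leaf (nat_lit 3481155937573) (nat_lit 0) leaf)))) (nat_lit 3481155937609) (nat_lit 0) (node (node (node (node leaf (nat_lit 3481155937681) (nat_lit 0) leaf) (nat_lit 3481155945109) (nat_lit 0)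 (node leaf (nat_lit 3481157043733) (nat_lit 0) leaf)) (nat_lit 3481157043781) (nat_lit 0) (node (node leaf (nat_lit 3481157046373) (nat_lit 0) leaf) (nat_lit 3481157046421) (nat_lit 0) (node leaf (nat_lit 3481157058709) (nat_lit 0) leaf))) (nat_lit 3481159083301) (nat_lit 0) (node (node (node leaf (nat_lit 3481159098661) (nat_lit 0) leaf) (nat_lit 3481159141669) (nat_lit 0) (node leaf (nat_lit 3481159336357) (nat_lit 0) leaf)) (nat_lit 3481163288725) (nat_lit 0) (node (node leaf (nat_lit 3481163334229) (nat_lit 0) leaf) (nat_lit 3481163335189) (nat_lit 0) (node leaf (nat_lit 3481163337877) (nat_lit 0) leaf)))))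

noncomputable def R0_120 : Tr := (node (node (node (node (node (node leaf (nat_lit 3481207656469) (nat_lit 0) leaf) (nat_lit 3481209674053) (nat_lit 0) leaf) (nat_lit 3481209704725) (nat_lit 0) (node leaf (nat_lit 3481209705493) (nat_lit 0) leaf)) (nat_lit 3481210000405) (nat_lit 0) (node (node leaf (nat_lit 3481210011733) (nat_lit 0) leaf) (nat_lit 3481210012693) (nat_lit 0) (node leaf (nat_lit 3481210470805) (nat_lit 0) leaf))) (nat_lit 3481210472017) (nat_lit 0) (node (node (node leaf (nat_lit 3481210472773) (nat_lit 0) leaf) (nat_lit 3481210478917) (nat_lit 0) (node leaf (nat_lit 3481210479685) (nat_lit 0) leaf)) (nat_lit 3481210479877) (nat_lit 0) (node (node leaf (nat_lit 3481210491925) (nat_lit 0) leaf) (nat_lit 3481210491973) (nat_lit 0) (node leaf (nat_lit 3481210492165) (nat_lit 0) leaf)))) (nat_lit 3481210521169) (nat_lit 0) (node (node (node (node leaf (nat_lit 3481210521925) (nat_lit 0) leaf) (nat_lit 3481210521937) (nat_lit 0) (node leaf (nat_lit 3481210523797) (nat_lit 0) leaf)) (nat_lit 3481210590229) (nat_lit 0)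 (node (node leaf (nat_lit 3481210590277) (nat_lit 0) leaf) (nat_lit 3481210718545) (nat_lit 0) (node leaf (nat_lit 3481211584789) (nat_lit 0) leaf))) (nat_lit 3481214718997) (nat_lit 0) (node (node (node leaf (nat_lit 3481214914645) (nat_lit 0) leaf) (nat_lit 3481214914837) (nat_lit 0) (node leaf (nat_lit 3481223103061) (nat_lit 0) leaf)) (nat_lit 3481226192209) (nat_lit 0) (node (node leaf (nat_lit 3481226203285) (nat_lit 0) leaf) (nat_lit 3481226248789) (nat_lit 0) (node leaf (nat_lit 3481226445397) (nat_lit 0) leaf)))))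

noncomputable def R0_121 : Tr := node R0_119 (nat_lit 3481172787301) (nat_lit 0) R0_120

noncomputable def R0_122 : Tr := node R0_118 (nat_lit 3481155178789) (nat_lit 0) R0_121

noncomputable def R0_123 : Tr := node R0_115 (nat_lit 3481109815621) (nat_lit 0) R0_122

noncomputable def R0_124 : Tr := node R0_108 (nat_lit 3479544877204) (nat_lit 0) R0_123

noncomputable def R0_125 : Tr := node R0_93 (nat_lit 3473104191877) (nat_lit 0) R0_124

noncomputable def R0_126 : Tr := node R0_62 (nat_lit 3447333099604) (nat_lit 0) R0_125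

noncomputable def R0_127 : Tr := (node (node (node (node (node (node leaf (nat_lit 3481240077589) (nat_lit 0) leaf) (nat_lit 3481609519189) (nat_lit 0) leaf) (nat_lit 3481610306581) (nat_lit 0) (node leaf (nat_lit 3481612358677) (nat_lit 0) leaf)) (nat_lit 3481612456981) (nat_lit 0) (node (node leaf (nat_lit 3481612665109) (nat_lit 0) leaf) (nat_lit 3481613113669) (nat_lit 0) (node leaf (nat_lit 3481613125957) (nat_lit 0) leaf))) (nat_lit 3481613132053) (nat_lit 0) (node (node (node leaf (nat_lit 3481613132101) (nat_lit 0) leaf) (nat_lit 3481613145109) (nat_lit 0) (node leaf (nat_lit 3481613145157) (nat_lit 0) leaf)) (nat_lit 3481613173909) (nat_lit 0) (node (node leaf (nat_lit 3481613175109) (nat_lit 0) leaf) (nat_lit 3481613243413) (nat_lit 0) (node leaf (nat_lit 3481614225685) (nat_lit 0) leaf)))) (nat_lit 3481616585749) (nat_lit 0) (node (node (node (node (node leaf (nat_lit 3481617371221) (nat_lit 0) leaf) (nat_lit 3481617567829) (nat_lit 0) leaf) (nat_lit 3481625707093) (nat_lit 0) (node leaf (nat_lit 3481628845381) (nat_lit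 0) leaf)) (nat_lit 3481628852821) (nat_lit 0) (node (node leaf (nat_lit 3481628901973) (nat_lit 0) leaf) (nat_lit 3481642533973) (nat_lit 0) (node leaf (nat_lit 3481642730581) (nat_lit 0) leaf))) (nat_lit 3481742410837) (nat_lit 0) (node (node (node leaf (nat_lit 3481743393109) (nat_lit 0) leaf) (nat_lit 3850078783828) (nat_lit 0) (node leaf (nat_lit 3850078787668) (nat_lit 0) leaf)) (nat_lit 3850078798420) (nat_lit 0) (node (node leaf (nat_lit 3850078848073) (nat_lit 0) leaf) (nat_lit 3850078848145) (nat_lit 0) (node leaf (nat_lit 3851135752528) (nat_lit 0) leaf)))))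

noncomputable def R0_128 : Tr := (node (node (node (node (node (node leaf (nat_lit 3851135764756) (nat_lit 0) leaf) (nat_lit 3851135766676) (nat_lit 0) leaf) (nat_lit 3851135811877) (nat_lit 0) (node leaf (nat_lit 3851135811973) (nat_lit 0) leaf)) (nat_lit 3851135812165) (nat_lit 0) (node (node leaf (nat_lit 3851135812645) (nat_lit 0) leaf) (nat_lit 3851135812741) (nat_lit 0) (node leaf (nat_lit 3851135813140) (nat_lit 0) leaf))) (nat_lit 3851135815717) (nat_lit 0) (node (node (node leaf (nat_lit 3851135815828) (nat_lit 0) leaf) (nat_lit 3851135816212) (nat_lit 0) (node leaf (nat_lit 3851135828116) (nat_lit 0) leaf)) (nat_lit 3851148092740) (nat_lit 0) (node (node leaf (nat_lit 3851148104980) (nat_lit 0) leaf) (nat_lit 3851148105028) (nat_lit 0) (node leaf (nat_lit 3851148141892) (nat_lit 0) leaf)))) (nat_lit 3851148141904) (nat_lit 0) (node (node (node (node leaf (nat_lit 3851148149332) (nat_lit 0) leaf) (nat_lit 3851148166468) (nat_lit 0) (node leaf (nat_lit 3851148166480) (nat_lit 0) leaf)) (nat_lit 3851148218641) (nat_lit 0)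 (node (node leaf (nat_lit 3851148218692) (nat_lit 0) leaf) (nat_lit 3851148219409) (nat_lit 0) (node leaf (nat_lit 3851148219460) (nat_lit 0) leaf))) (nat_lit 3851148331348) (nat_lit 0) (node (node (node leaf (nat_lit 3851148338512) (nat_lit 0) leaf) (nat_lit 3851148345940) (nat_lit 0) (node leaf (nat_lit 3851148346516) (nat_lit 0) leaf)) (nat_lit 3851148347476) (nat_lit 0) (node (node leaf (nat_lit 3851148347668) (nat_lit 0) leaf) (nat_lit 3851148349477) (nat_lit 0) (node leaf (nat_lit 3851148394645) (nat_lit 0) leaf)))))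

noncomputable def R0_129 : Tr := node R0_127 (nat_lit 3851135763604) (nat_lit 0) R0_128

noncomputable def R0_130 : Tr := (node (node (node (node (node (node leaf (nat_lit 3851148395653) (nat_lit 0) leaf) (nat_lit 3851148395668) (nat_lit 0) leaf) (nat_lit 3851148396052) (nat_lit 0) (node leaf (nat_lit 3851148396820) (nat_lit 0) leaf)) (nat_lit 3851148398629) (nat_lit 0) (node (node leaf (nat_lit 3851148398725) (nat_lit 0) leaf) (nat_lit 3851148398740) (nat_lit 0) (node leaf (nat_lit 3851148399124) (nat_lit 0) leaf))) (nat_lit 3851148410917) (nat_lit 0) (node (node (node leaf (nat_lit 3851148410977) (nat_lit 0) leaf) (nat_lit 3851148411013) (nat_lit 0) (node leaf (nat_lit 3851148411028) (nat_lit 0) leaf)) (nat_lit 3851148411145) (nat_lit 0) (node (node leaf (nat_lit 3851148611845) (nat_lit 0) leaf) (nat_lit 3851148611857) (nat_lit 0) (node leaf (nat_lit 3851148611905) (nat_lit 0) leaf)))) (nat_lit 3851148611908) (nat_lit 0) (node (node (node (node leaf (nat_lit 3851149201729) (nat_lit 0) leaf) (nat_lit 3851149201732) (nat_lit 0)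 (node leaf (nat_lit 3851151561025) (nat_lit 0) leaf)) (nat_lit 3851151561028) (nat_lit 0) (node (node leaf (nat_lit 3851152528705) (nat_lit 0) leaf) (nat_lit 3851152540993) (nat_lit 0) (node leaf (nat_lit 3853300076581) (nat_lit 0) leaf))) (nat_lit 3857578203412) (nat_lit 0) (node (node (node leaf (nat_lit 3857578203460) (nat_lit 0) leaf) (nat_lit 3857578213780) (nat_lit 0) (node leaf (nat_lit 3857578214548) (nat_lit 0) leaf)) (nat_lit 3857578262677) (nat_lit 0) (node (node leaf (nat_lit 3857578262917) (nat_lit 0) leaf) (nat_lit 3857578263061) (nat_lit 0) (node leaf (nat_lit 3857578263124) (nat_lit 0) leaf)))))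

noncomputable def R0_131 : Tr := (node (node (node (node (node (node leaf (nat_lit 3857578264084) (nat_lit 0) leaf) (nat_lit 3857578266772) (nat_lit 0) leaf) (nat_lit 3857590543636) (nat_lit 0) (node leaf (nat_lit 3857590543684) (nat_lit 0) leaf)) (nat_lit 3857590555921) (nat_lit 0) (node (node leaf (nat_lit 3857590555924) (nat_lit 0) leaf) (nat_lit 3857590555972) (nat_lit 0) (node leaf (nat_lit 3857590587988) (nat_lit 0) leaf))) (nat_lit 3857590592836) (nat_lit 0) (node (node (node leaf (nat_lit 3857590617412) (nat_lit 0) leaf) (nat_lit 3857590669573) (nat_lit 0) (node leaf (nat_lit 3857590669585) (nat_lit 0) leaf)) (nat_lit 3857590669633) (nat_lit 0) (node (node leaf (nat_lit 3857590670356) (nat_lit 0) leaf) (nat_lit 3857590782289) (nat_lit 0) (node leaf (nat_lit 3857590784596) (nat_lit 0) leaf)))) (nat_lit 3857590786132) (nat_lit 0) (node (node (node (node leaf (nat_lit 3857590789444) (nat_lit 0) leaf) (nat_lit 3857590796437) (nat_lit 0) (node leaf (nat_lit 3857590796884) (nat_lit 0) leaf)) (nat_lit 3857590797349) (nat_lit 0)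 (node (node leaf (nat_lit 3857590798420) (nat_lit 0) leaf) (nat_lit 3857590845829) (nat_lit 0) (node leaf (nat_lit 3857590846036) (nat_lit 0) leaf))) (nat_lit 3857590846501) (nat_lit 0) (node (node (node leaf (nat_lit 3857590846597) (nat_lit 0) leaf) (nat_lit 3857590846996) (nat_lit 0) (node leaf (nat_lit 3857590847572) (nat_lit 0) leaf)) (nat_lit 3857590849573) (nat_lit 0) (node (node leaf (nat_lit 3857590849669) (nat_lit 0) leaf) (nat_lit 3857590849684) (nat_lit 0) (node leaf (nat_lit 3857590861861) (nat_lit 0) leaf)))))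

noncomputable def R0_132 : Tr := node R0_130 (nat_lit 3857578263589) (nat_lit 0) R0_131

noncomputable def R0_133 : Tr := node R0_129 (nat_lit 3851148395092) (nat_lit 0) R0_132

noncomputable def R0_134 : Tr := (node (node (node (node (node (node leaf (nat_lit 3857591062789) (nat_lit 0) leaf) (nat_lit 3857591062801) (nat_lit 0) leaf) (nat_lit 3857591062804) (nat_lit 0) (node leaf (nat_lit 3857591652625) (nat_lit 0) leaf)) (nat_lit 3857591652628) (nat_lit 0) (node (node leaf (nat_lit 3857594011921) (nat_lit 0) leaf) (nat_lit 3857594011924) (nat_lit 0) (node leaf (nat_lit 3857594979601) (nat_lit 0) leaf))) (nat_lit 3857594991889) (nat_lit 0) (node (node (node leaf (nat_lit 3858131847505) (nat_lit 0) leaf) (nat_lit 3858131847508) (nat_lit 0) (node leaf (nat_lit 3858131849812) (nat_lit 0) leaf)) (nat_lit 3858131910985) (nat_lit 0) (node (node leaf (nat_lit 3858131911057) (nat_lit 0) leaf) (nat_lit 3858131914789) (nat_lit 0) (node leaf (nat_lit 3859188814228) (nat_lit 0) leaf)))) (nat_lit 3859188816145) (nat_lit 0) (node (node (node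 (node (node leaf (nat_lit 3859188816148) (nat_lit 0) leaf) (nat_lit 3859188826261) (nat_lit 0) leaf) (nat_lit 3859188826516) (nat_lit 0) (node leaf (nat_lit 3859188826645) (nat_lit 0) leaf)) (nat_lit 3859188875413) (nat_lit 0) (node (node leaf (nat_lit 3859188875857) (nat_lit 0) leaf) (nat_lit 3859188875860) (nat_lit 0) (node leaf (nat_lit 3859201151572) (nat_lit 0) leaf))) (nat_lit 3859201156369) (nat_lit 0) (node (node (node leaf (nat_lit 3859201156417) (nat_lit 0) leaf) (nat_lit 3859201156420) (nat_lit 0) (node leaf (nat_lit 3859201168465) (nat_lit 0) leaf)) (nat_lit 3859201168657) (nat_lit 0) (node (node leaf (nat_lit 3859201168660) (nat_lit 0) leaf) (nat_lit 3859201168708) (nat_lit 0) (node leaf (nat_lit 3859201198417) (nat_lit 0) leaf)))))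

noncomputable def R0_135 : Tr := (node (node (node (node (node (node leaf (nat_lit 3859201282117) (nat_lit 0) leaf) (nat_lit 3859201282309) (nat_lit 0) leaf) (nat_lit 3859201282321) (nat_lit 0) (node leaf (nat_lit 3859201283089) (nat_lit 0) leaf)) (nat_lit 3859201395028) (nat_lit 0) (node (node leaf (nat_lit 3859201396885) (nat_lit 0) leaf) (nat_lit 3859201397329) (nat_lit 0) (node leaf (nat_lit 3859201397797) (nat_lit 0) leaf))) (nat_lit 3859201398868) (nat_lit 0) (node (node (node leaf (nat_lit 3859201402177) (nat_lit 0) leaf) (nat_lit 3859201409620) (nat_lit 0) (node leaf (nat_lit 3859201410085) (nat_lit 0) leaf)) (nat_lit 3859201411156) (nat_lit 0) (node (node leaf (nat_lit 3859201458325) (nat_lit 0) leaf) (nat_lit 3859201458565) (nat_lit 0) (node leaf (nat_lit 3859201458772) (nat_lit 0) leaf)))) (nat_lit 3859201459237) (nat_lit 0) (node (node (node (node leaf (nat_lit 3859201459333) (nat_lit 0) leaf) (nat_lit 3859201462309) (nat_lit 0) (node leaf (nat_lit 3859201672261) (nat_lit 0) leaf)) (nat_lit 3859201672453) (nat_lit 0)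 (node (node leaf (nat_lit 3859201675525) (nat_lit 0) leaf) (nat_lit 3859201675537) (nat_lit 0) (node leaf (nat_lit 3859202265349) (nat_lit 0) leaf))) (nat_lit 3859202265361) (nat_lit 0) (node (node (node leaf (nat_lit 3859204624645) (nat_lit 0) leaf) (nat_lit 3859204624657) (nat_lit 0) (node leaf (nat_lit 3859205592145) (nat_lit 0) leaf)) (nat_lit 3859205592337) (nat_lit 0) (node (node leaf (nat_lit 3859339807057) (nat_lit 0) leaf) (nat_lit 3859339807060) (nat_lit 0) (node leaf (nat_lit 3859339809364) (nat_lit 0) leaf)))))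

noncomputable def R0_136 : Tr := node R0_134 (nat_lit 3859201213012) (nat_lit 0) R0_135

noncomputable def R0_137 : Tr := (node (node (node (node (node (node leaf (nat_lit 3859339870609) (nat_lit 0) leaf) (nat_lit 3859339874341) (nat_lit 0) leaf) (nat_lit 3859440469588) (nat_lit 0) (node leaf (nat_lit 3859591464532) (nat_lit 0) leaf)) (nat_lit 3859591467157) (nat_lit 0) (node (node leaf (nat_lit 3859591467541) (nat_lit 0) leaf) (nat_lit 3859591479445) (nat_lit 0) (node leaf (nat_lit 3859603801684) (nat_lit 0) leaf))) (nat_lit 3859603809541) (nat_lit 0) (node (node (node leaf (nat_lit 3859603809553) (nat_lit 0) leaf) (nat_lit 3859603809556) (nat_lit 0) (node leaf (nat_lit 3859603821637) (nat_lit 0) leaf)) (nat_lit 3859603821649) (nat_lit 0) (node (node leaf (nat_lit 3859603821841) (nat_lit 0) leaf) (nat_lit 3859603821844) (nat_lit 0) (node leaf (nat_lit 3859603851589) (nat_lit 0) leaf)))) (nat_lit 3859603853461) (nat_lit 0) (node (node (node (node leaf (nat_lit 3859603853905) (nat_lit 0) leaf) (nat_lit 3859603866193) (nat_lit 0)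 (node leaf (nat_lit 3859603932229) (nat_lit 0) leaf)) (nat_lit 3859603935301) (nat_lit 0) (node (node leaf (nat_lit 3859603935493) (nat_lit 0) leaf) (nat_lit 3859603935505) (nat_lit 0) (node leaf (nat_lit 3859604055313) (nat_lit 0) leaf))) (nat_lit 3859604062801) (nat_lit 0) (node (node (node leaf (nat_lit 3859604325397) (nat_lit 0) leaf) (nat_lit 3859604325445) (nat_lit 0) (node leaf (nat_lit 3859604328517) (nat_lit 0) leaf)) (nat_lit 3859604328709) (nat_lit 0) (node (node leaf (nat_lit 3859604918341) (nat_lit 0) leaf) (nat_lit 3859604918533) (nat_lit 0) (node leaf (nat_lit 3859607277637) (nat_lit 0) leaf)))))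

noncomputable def R0_138 : Tr := (node (node (node (node (node (node leaf (nat_lit 3859608245317) (nat_lit 0) leaf) (nat_lit 3859608245509) (nat_lit 0) leaf) (nat_lit 3859641796945) (nat_lit 0) (node leaf (nat_lit 3859648972369) (nat_lit 0) leaf)) (nat_lit 3859648972372) (nat_lit 0) (node (node leaf (nat_lit 3859648976005) (nat_lit 0) leaf) (nat_lit 3859648976020) (nat_lit 0) (node leaf (nat_lit 3859649025169) (nat_lit 0) leaf))) (nat_lit 3859649025298) (nat_lit 0) (node (node (node leaf (nat_lit 3859649025313) (nat_lit 0) leaf) (nat_lit 3859649025316) (nat_lit 0) (node leaf (nat_lit 3859649025541) (nat_lit 0) leaf)) (nat_lit 3859649025553) (nat_lit 0) (node (node leaf (nat_lit 3859649144401) (nat_lit 0) leaf) (nat_lit 3859649144404) (nat_lit 0) (node leaf (nat_lit 3859649153317) (nat_lit 0) leaf)))) (nat_lit 3859649153413) (nat_lit 0) (node (node (node (node leaf (nat_lit 3859649153428) (nat_lit 0) leaf) (nat_lit 3859649159572) (nat_lit 0) (node leaf (nat_lit 3859649159764) (nat_lit 0) leaf)) (nat_lit 3859649161492) (nat_lit 0)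 (node (node leaf (nat_lit 3859649161540) (nat_lit 0) leaf) (nat_lit 3859649168677) (nat_lit 0) (node leaf (nat_lit 3859649168980) (nat_lit 0) leaf))) (nat_lit 3859649171749) (nat_lit 0) (node (node (node leaf (nat_lit 3859649172052) (nat_lit 0) leaf) (nat_lit 3859649172517) (nat_lit 0) (node leaf (nat_lit 3859649172553) (nat_lit 0) leaf)) (nat_lit 3859649172613) (nat_lit 0) (node (node leaf (nat_lit 3859649173588) (nat_lit 0) leaf) (nat_lit 3859649176912) (nat_lit 0) (node leaf (nat_lit 3859649200549) (nat_lit 0) leaf)))))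

noncomputable def R0_139 : Tr := node R0_137 (nat_lit 3859607277829) (nat_lit 0) R0_138

noncomputable def R0_140 : Tr := node R0_136 (nat_lit 3859339870537) (nat_lit 0) R0_139

noncomputable def R0_141 : Tr := node R0_133 (nat_lit 3857591062597) (nat_lit 0) R0_140

noncomputable def R0_142 : Tr := (node (node (node (node (node (node leaf (nat_lit 3859649202469) (nat_lit 0) leaf) (nat_lit 3859649204884) (nat_lit 0) leaf) (nat_lit 3859649209492) (nat_lit 0) (node leaf (nat_lit 3859649268052) (nat_lit 0) leaf)) (nat_lit 3859649270053) (nat_lit 0) (node (node leaf (nat_lit 3859649270356) (nat_lit 0) leaf) (nat_lit 3859649270809) (nat_lit 0) (node leaf (nat_lit 3859649270857) (nat_lit 0) leaf))) (nat_lit 3859649270929) (nat_lit 0) (node (node (node leaf (nat_lit 3859649271049) (nat_lit 0) leaf) (nat_lit 3859649271058) (nat_lit 0) (node leaf (nat_lit 3859649271076) (nat_lit 0) leaf)) (nat_lit 3859649271892) (nat_lit 0) (node (node leaf (nat_lit 3859649282377) (nat_lit 0) leaf) (nat_lit 3859649282449) (nat_lit 0) (node leaf (nat_lit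 3859649282452) (nat_lit 0) leaf)))) (nat_lit 3859649282644) (nat_lit 0) (node (node (node (node (node leaf (nat_lit 3859649283220) (nat_lit 0) leaf) (nat_lit 3859649284369) (nat_lit 0) leaf) (nat_lit 3859649284372) (nat_lit 0) (node leaf (nat_lit 3859649286181) (nat_lit 0) leaf)) (nat_lit 3859649286676) (nat_lit 0) (node (node leaf (nat_lit 3859649463589) (nat_lit 0) leaf) (nat_lit 3859649463877) (nat_lit 0) (node leaf (nat_lit 3859649463889) (nat_lit 0) leaf))) (nat_lit 3859649463892) (nat_lit 0) (node (node (node leaf (nat_lit 3859649466661) (nat_lit 0) leaf) (nat_lit 3859649466757) (nat_lit 0) (node leaf (nat_lit 3859649466964) (nat_lit 0) leaf)) (nat_lit 3859649467429) (nat_lit 0) (node (node leaf (nat_lit 3859649471824) (nat_lit 0) leaf) (nat_lit 3859649479045) (nat_lit 0) (node leaf (nat_lit 3859649479252) (nat_lit 0) leaf)))))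

noncomputable def R0_143 : Tr := (node (node (node (node (node (node leaf (nat_lit 3859649479777) (nat_lit 0) leaf) (nat_lit 3859649479813) (nat_lit 0) leaf) (nat_lit 3859649479828) (nat_lit 0) (node leaf (nat_lit 3859649480212) (nat_lit 0) leaf)) (nat_lit 3859649480785) (nat_lit 0) (node (node leaf (nat_lit 3859649480788) (nat_lit 0) leaf) (nat_lit 3859649480980) (nat_lit 0) (node leaf (nat_lit 3859649481028) (nat_lit 0) leaf))) (nat_lit 3859649482825) (nat_lit 0) (node (node (node leaf (nat_lit 3859649482849) (nat_lit 0) leaf) (nat_lit 3859649482885) (nat_lit 0) (node leaf (nat_lit 3859649483017) (nat_lit 0) leaf)) (nat_lit 3859649483041) (nat_lit 0) (node (node leaf (nat_lit 3859649483044) (nat_lit 0) leaf) (nat_lit 3859649483284) (nat_lit 0) (node leaf (nat_lit 3859649483332) (nat_lit 0) leaf)))) (nat_lit 3859649483782) (nat_lit 0) (node (node (node (node leaf (nat_lit 3859649483785) (nat_lit 0) leaf) (nat_lit 3859649487169) (nat_lit 0) (node leaf (nat_lit 3859649487184) (nat_lit 0) leaf)) (nat_lit 3859649496385) (nat_lit 0)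 (node (node leaf (nat_lit 3859649496388) (nat_lit 0) leaf) (nat_lit 3859649499460) (nat_lit 0) (node leaf (nat_lit 3859649927764) (nat_lit 0) leaf))) (nat_lit 3859649930533) (nat_lit 0) (node (node (node leaf (nat_lit 3859649930593) (nat_lit 0) leaf) (nat_lit 3859649939785) (nat_lit 0) (node leaf (nat_lit 3859649939845) (nat_lit 0) leaf)) (nat_lit 3859649939860) (nat_lit 0) (node (node leaf (nat_lit 3859649940052) (nat_lit 0) leaf) (nat_lit 3859649945929) (nat_lit 0) (node leaf (nat_lit 3859649946004) (nat_lit 0) leaf)))))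

noncomputable def R0_144 : Tr := node R0_142 (nat_lit 3859649479717) (nat_lit 0) R0_143

noncomputable def R0_145 : Tr := (node (node (node (node (node (node leaf (nat_lit 3859649958484) (nat_lit 0) leaf) (nat_lit 3859649958949) (nat_lit 0) leaf) (nat_lit 3859649958985) (nat_lit 0) (node leaf (nat_lit 3859649959009) (nat_lit 0) leaf)) (nat_lit 3859649959057) (nat_lit 0) (node (node leaf (nat_lit 3859649959060) (nat_lit 0) leaf) (nat_lit 3859649959177) (nat_lit 0) (node leaf (nat_lit 3859649959186) (nat_lit 0) leaf))) (nat_lit 3859649959201) (nat_lit 0) (node (node (node leaf (nat_lit 3859649959204) (nat_lit 0) leaf) (nat_lit 3859649960020) (nat_lit 0) (node leaf (nat_lit 3859649960212) (nat_lit 0) leaf)) (nat_lit 3859649960260) (nat_lit 0) (node (node leaf (nat_lit 3859649987221) (nat_lit 0) leaf) (nat_lit 3859649987749) (nat_lit 0) (node leaf (nat_lit 3859649988901) (nat_lit 0) leaf)))) (nat_lit 3859649989012) (nat_lit 0) (node (node (node (node leaf (nat_lit 3859649996041) (nat_lit 0) leaf) (nat_lit 3859649996308) (nat_lit 0)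 (node leaf (nat_lit 3859650056485) (nat_lit 0) leaf)) (nat_lit 3859650057481) (nat_lit 0) (node (node leaf (nat_lit 3859650069076) (nat_lit 0) leaf) (nat_lit 3859650069769) (nat_lit 0) (node leaf (nat_lit 3859650072613) (nat_lit 0) leaf))) (nat_lit 3859650072724) (nat_lit 0) (node (node (node leaf (nat_lit 3859650073624) (nat_lit 0) leaf) (nat_lit 3859650074704) (nat_lit 0) (node leaf (nat_lit 3859650184357) (nat_lit 0) leaf)) (nat_lit 3859650185509) (nat_lit 0) (node (node leaf (nat_lit 3859650187924) (nat_lit 0) leaf) (nat_lit 3859650192532) (nat_lit 0) (node leaf (nat_lit 3859650462868) (nat_lit 0) leaf)))))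

noncomputable def R0_146 : Tr := (node (node (node (node (node (node leaf (nat_lit 3859650465940) (nat_lit 0) leaf) (nat_lit 3859650466825) (nat_lit 0) leaf) (nat_lit 3859651007809) (nat_lit 0) (node leaf (nat_lit 3859651007812) (nat_lit 0) leaf)) (nat_lit 3859651036753) (nat_lit 0) (node (node leaf (nat_lit 3859651039525) (nat_lit 0) leaf) (nat_lit 3859651039825) (nat_lit 0) (node leaf (nat_lit 3859651044688) (nat_lit 0) leaf))) (nat_lit 3859651051669) (nat_lit 0) (node (node (node leaf (nat_lit 3859651051813) (nat_lit 0) leaf) (nat_lit 3859651051909) (nat_lit 0) (node leaf (nat_lit 3859651052581) (nat_lit 0) leaf)) (nat_lit 3859651052617) (nat_lit 0) (node (node leaf (nat_lit 3859651052677) (nat_lit 0) leaf) (nat_lit 3859651052689) (nat_lit 0) (node leaf (nat_lit 3859651053889) (nat_lit 0) leaf)))) (nat_lit 3859651072321) (nat_lit 0) (node (node (node (node leaf (nat_lit 3859651234129) (nat_lit 0) leaf) (nat_lit 3859651234132) (nat_lit 0) (node leaf (nat_lit 3859651236133) (nat_lit 0) leaf)) (nat_lit 3859651238164) (nat_lit 0)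 (node (node leaf (nat_lit 3859651248532) (nat_lit 0) leaf) (nat_lit 3859651248724) (nat_lit 0) (node leaf (nat_lit 3859651249189) (nat_lit 0) leaf))) (nat_lit 3859651250257) (nat_lit 0) (node (node (node leaf (nat_lit 3859651250449) (nat_lit 0) leaf) (nat_lit 3859651252261) (nat_lit 0) (node leaf (nat_lit 3859651297429) (nat_lit 0) leaf)) (nat_lit 3859651297669) (nat_lit 0) (node (node leaf (nat_lit 3859651297876) (nat_lit 0) leaf) (nat_lit 3859651298341) (nat_lit 0) (node leaf (nat_lit 3859651298437) (nat_lit 0) leaf)))))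

noncomputable def R0_147 : Tr := node R0_145 (nat_lit 3859650464080) (nat_lit 0) R0_146

noncomputable def R0_148 : Tr := node R0_144 (nat_lit 3859649946196) (nat_lit 0) R0_147

noncomputable def R0_149 : Tr := (node (node (node (node (node (node leaf (nat_lit 3859653076321) (nat_lit 0) leaf) (nat_lit 3859653076357) (nat_lit 0) leaf) (nat_lit 3859653085513) (nat_lit 0) (node leaf (nat_lit 3859653085780) (nat_lit 0) leaf)) (nat_lit 3859653091657) (nat_lit 0) (node (node leaf (nat_lit 3859653091924) (nat_lit 0) leaf) (nat_lit 3859653092389) (nat_lit 0) (node leaf (nat_lit 3859653104212) (nat_lit 0) leaf))) (nat_lit 3859653104788) (nat_lit 0) (node (node (node leaf (nat_lit 3859653104905) (nat_lit 0) leaf) (nat_lit 3859653105172) (nat_lit 0) (node leaf (nat_lit 3859653132949) (nat_lit 0) leaf)) (nat_lit 3859653133861) (nat_lit 0) (node (node leaf (nat_lit 3859653134665) (nat_lit 0) leaf) (nat_lit 3859653134740) (nat_lit 0) (node leaf (nat_lit 3859653134932) (nat_lit 0) leaf)))) (nat_lit 3859653166228) (nat_lit 0) (node (node (node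 (node leaf (nat_lit 3859653166345) (nat_lit 0) leaf) (nat_lit 3859653218452) (nat_lit 0) (node leaf (nat_lit 3859653218692) (nat_lit 0) leaf)) (nat_lit 3859653218896) (nat_lit 0) (node (node leaf (nat_lit 3859653219346) (nat_lit 0) leaf) (nat_lit 3859653219364) (nat_lit 0) (node leaf (nat_lit 3859653330085) (nat_lit 0) leaf))) (nat_lit 3859653331237) (nat_lit 0) (node (node (node leaf (nat_lit 3859653337381) (nat_lit 0) leaf) (nat_lit 3859653338260) (nat_lit 0) (node leaf (nat_lit 3859653338377) (nat_lit 0) leaf)) (nat_lit 3859653611668) (nat_lit 0) (node (node leaf (nat_lit 3859654116517) (nat_lit 0) leaf) (nat_lit 3859654117012) (nat_lit 0) (node leaf (nat_lit 3859654117669) (nat_lit 0) leaf)))))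

noncomputable def R0_150 : Tr := (node (node (node (node (node (node leaf (nat_lit 3859657327909) (nat_lit 0) leaf) (nat_lit 3859657328197) (nat_lit 0) leaf) (nat_lit 3859657331269) (nat_lit 0) (node leaf (nat_lit 3859657336132) (nat_lit 0) leaf)) (nat_lit 3859657343125) (nat_lit 0) (node (node leaf (nat_lit 3859657343269) (nat_lit 0) leaf) (nat_lit 3859657344037) (nat_lit 0) (node leaf (nat_lit 3859657360705) (nat_lit 0) leaf))) (nat_lit 3859657525585) (nat_lit 0) (node (node (node leaf (nat_lit 3859657527397) (nat_lit 0) leaf) (nat_lit 3859657529425) (nat_lit 0) (node leaf (nat_lit 3859657529428) (nat_lit 0) leaf)) (nat_lit 3859657539733) (nat_lit 0) (node (node leaf (nat_lit 3859657540177) (nat_lit 0) leaf) (nat_lit 3859657540180) (nat_lit 0) (node leaf (nat_lit 3859657588885) (nat_lit 0) leaf)))) (nat_lit 3859657589125) (nat_lit 0) (node (node (node (node leaf (nat_lit 3859657589797) (nat_lit 0) leaf) (nat_lit 3859666736449) (nat_lit 0) (node leaf (nat_lit 3859666780309) (nat_lit 0) leaf)) (nat_lit 3859666780453) (nat_lit 0)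 (node (node leaf (nat_lit 3859666962757) (nat_lit 0) leaf) (nat_lit 3859666962769) (nat_lit 0) (node leaf (nat_lit 3859666964581) (nat_lit 0) leaf))) (nat_lit 3859669882177) (nat_lit 0) (node (node (node leaf (nat_lit 3859669926037) (nat_lit 0) leaf) (nat_lit 3859669926181) (nat_lit 0) (node leaf (nat_lit 3859669926277) (nat_lit 0) leaf)) (nat_lit 3859669926949) (nat_lit 0) (node (node leaf (nat_lit 3859669927045) (nat_lit 0) leaf) (nat_lit 3859670108497) (nat_lit 0) (node leaf (nat_lit 3859670123557) (nat_lit 0) leaf)))))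

noncomputable def R0_151 : Tr := node R0_149 (nat_lit 3859657299265) (nat_lit 0) R0_150

noncomputable def R0_152 : Tr := (node (node (node (node (node (node leaf (nat_lit 3859670894929) (nat_lit 0) leaf) (nat_lit 3859703698513) (nat_lit 0) leaf) (nat_lit 3859704005653) (nat_lit 0) (node leaf (nat_lit 3859704008773) (nat_lit 0) leaf)) (nat_lit 3859704008965) (nat_lit 0) (node (node leaf (nat_lit 3859704468049) (nat_lit 0) leaf) (nat_lit 3859704472657) (nat_lit 0) (node leaf (nat_lit 3859704472849) (nat_lit 0) leaf))) (nat_lit 3859704484885) (nat_lit 0) (node (node (node leaf (nat_lit 3859704484945) (nat_lit 0) leaf) (nat_lit 3859704485137) (nat_lit 0) (node leaf (nat_lit 3859704485185) (nat_lit 0) leaf)) (nat_lit 3859704513685) (nat_lit 0) (node (node leaf (nat_lit 3859704514837) (nat_lit 0) leaf) (nat_lit 3859704517201) (nat_lit 0) (node leaf (nat_lit 3859704595525) (nat_lit 0) leaf)))) (nat_lit 3859704598597) (nat_lit 0) (node (node (node (node leaf (nat_lit 3859704711493) (nat_lit 0) leaf) (nat_lit 3859704711505) (nat_lit 0)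 (node leaf (nat_lit 3859704718597) (nat_lit 0) leaf)) (nat_lit 3859704988693) (nat_lit 0) (node (node leaf (nat_lit 3859705581589) (nat_lit 0) leaf) (nat_lit 3859705581637) (nat_lit 0) (node leaf (nat_lit 3859708908565) (nat_lit 0) leaf))) (nat_lit 3859708908613) (nat_lit 0) (node (node (node leaf (nat_lit 3859717097044) (nat_lit 0) leaf) (nat_lit 3859717099669) (nat_lit 0) (node leaf (nat_lit 3859720243537) (nat_lit 0) leaf)) (nat_lit 3859720245397) (nat_lit 0) (node (node leaf (nat_lit 3859720249681) (nat_lit 0) leaf) (nat_lit 3859720438357) (nat_lit 0) (node leaf (nat_lit 3859720439317) (nat_lit 0) leaf)))))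

noncomputable def R0_153 : Tr := (node (node (node (node (node (node leaf (nat_lit 3859720442005) (nat_lit 0) leaf) (nat_lit 3859721225749) (nat_lit 0) leaf) (nat_lit 3859721228437) (nat_lit 0) (node leaf (nat_lit 3859733877781) (nat_lit 0) leaf)) (nat_lit 3859734074389) (nat_lit 0) (node (node leaf (nat_lit 3883096344916) (nat_lit 0) leaf) (nat_lit 3883096347220) (nat_lit 0) (node leaf (nat_lit 3883348006996) (nat_lit 0) leaf))) (nat_lit 3883348007188) (nat_lit 0) (node (node (node leaf (nat_lit 3883348017301) (nat_lit 0) leaf) (nat_lit 3883348017556) (nat_lit 0) (node leaf (nat_lit 3883348017685) (nat_lit 0) leaf)) (nat_lit 3883348017748) (nat_lit 0) (node (node leaf (nat_lit 3883348066453) (nat_lit 0) leaf) (nat_lit 3883348066900) (nat_lit 0) (node leaf (nat_lit 3883360347409) (nat_lit 0) leaf)))) (nat_lit 3883360347457) (nat_lit 0) (node (node (node (node leaf (nat_lit 3883360347460) (nat_lit 0) leaf) (nat_lit 3883360359505) (nat_lit 0) (node leaf (nat_lit 3883360359697) (nat_lit 0) leaf)) (nat_lit 3883360359700) (nat_lit 0)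 (node (node leaf (nat_lit 3883360359748) (nat_lit 0) leaf) (nat_lit 3883360388692) (nat_lit 0) (node leaf (nat_lit 3883360389457) (nat_lit 0) leaf))) (nat_lit 3883360404052) (nat_lit 0) (node (node (node leaf (nat_lit 3883360473157) (nat_lit 0) leaf) (nat_lit 3883360473349) (nat_lit 0) (node leaf (nat_lit 3883360473361) (nat_lit 0) leaf)) (nat_lit 3883360474129) (nat_lit 0) (node (node leaf (nat_lit 3883360586068) (nat_lit 0) leaf) (nat_lit 3883360587925) (nat_lit 0) (node leaf (nat_lit 3883360588369) (nat_lit 0) leaf)))))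

noncomputable def R0_154 : Tr := node R0_152 (nat_lit 3859720440145) (nat_lit 0) R0_153

noncomputable def R0_155 : Tr := node R0_151 (nat_lit 3859670171797) (nat_lit 0) R0_154

noncomputable def R0_156 : Tr := node R0_148 (nat_lit 3859651301413) (nat_lit 0) R0_155

noncomputable def R0_157 : Tr := node R0_141 (nat_lit 3859649201317) (nat_lit 0) R0_156

noncomputable def R0_158 : Tr := (node (node (node (node (node (node leaf (nat_lit 3883360589908) (nat_lit 0) leaf) (nat_lit 3883360593217) (nat_lit 0) leaf) (nat_lit 3883360600453) (nat_lit 0) (node leaf (nat_lit 3883360600660) (nat_lit 0) leaf)) (nat_lit 3883360601125) (nat_lit 0) (node (node leaf (nat_lit 3883360601221) (nat_lit 0) leaf) (nat_lit 3883360602196) (nat_lit 0) (node leaf (nat_lit 3883360604197) (nat_lit 0) leaf))) (nat_lit 3883360649812) (nat_lit 0) (node (node (node leaf (nat_lit 3883360650373) (nat_lit 0) leaf) (nat_lit 3883360653349) (nat_lit 0) (node leaf (nat_lit 3883360863301) (nat_lit 0) leaf)) (nat_lit 3883360863493) (nat_lit 0) (node (node leaf (nat_lit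 3883360866565) (nat_lit 0) leaf) (nat_lit 3883360866577) (nat_lit 0) (node leaf (nat_lit 3883361456389) (nat_lit 0) leaf)))) (nat_lit 3883361456401) (nat_lit 0) (node (node (node (node (node leaf (nat_lit 3883363815685) (nat_lit 0) leaf) (nat_lit 3883363815697) (nat_lit 0) leaf) (nat_lit 3883364783185) (nat_lit 0) (node leaf (nat_lit 3883364783377) (nat_lit 0) leaf)) (nat_lit 3883901714821) (nat_lit 0) (node (node leaf (nat_lit 3883901715493) (nat_lit 0) leaf) (nat_lit 3884958617749) (nat_lit 0) (node leaf (nat_lit 3884958618004) (nat_lit 0) leaf))) (nat_lit 3884958618133) (nat_lit 0) (node (node (node leaf (nat_lit 3884958619729) (nat_lit 0) leaf) (nat_lit 3884958619921) (nat_lit 0) (node leaf (nat_lit 3884958630037) (nat_lit 0) leaf)) (nat_lit 3884958630481) (nat_lit 0) (node (node leaf (nat_lit 3884958679633) (nat_lit 0) leaf) (nat_lit 3884970952276) (nat_lit 0) (node leaf (nat_lit 3884970953041) (nat_lit 0) leaf)))))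

noncomputable def R0_159 : Tr := (node (node (node (node (node (node leaf (nat_lit 3884970960145) (nat_lit 0) leaf) (nat_lit 3884970960193) (nat_lit 0) leaf) (nat_lit 3884970972229) (nat_lit 0) (node leaf (nat_lit 3884970972241) (nat_lit 0) leaf)) (nat_lit 3884970972433) (nat_lit 0) (node (node leaf (nat_lit 3884970972436) (nat_lit 0) leaf) (nat_lit 3884971004053) (nat_lit 0) (node leaf (nat_lit 3884971004500) (nat_lit 0) leaf))) (nat_lit 3884971082821) (nat_lit 0) (node (node (node leaf (nat_lit 3884971085893) (nat_lit 0) leaf) (nat_lit 3884971086085) (nat_lit 0) (node leaf (nat_lit 3884971086097) (nat_lit 0) leaf)) (nat_lit 3884971198033) (nat_lit 0) (node (node leaf (nat_lit 3884971198801) (nat_lit 0) leaf) (nat_lit 3884971198804) (nat_lit 0) (node leaf (nat_lit 3884971200805) (nat_lit 0) leaf)))) (nat_lit 3884971201108) (nat_lit 0) (node (node (node (node leaf (nat_lit 3884971202644) (nat_lit 0) leaf) (nat_lit 3884971205905) (nat_lit 0) (node leaf (nat_lit 3884971212949) (nat_lit 0) leaf)) (nat_lit 3884971213093) (nat_lit 0)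 (node (node leaf (nat_lit 3884971213189) (nat_lit 0) leaf) (nat_lit 3884971213396) (nat_lit 0) (node leaf (nat_lit 3884971213861) (nat_lit 0) leaf))) (nat_lit 3884971262341) (nat_lit 0) (node (node (node leaf (nat_lit 3884971263013) (nat_lit 0) leaf) (nat_lit 3884971475989) (nat_lit 0) (node leaf (nat_lit 3884971476037) (nat_lit 0) leaf)) (nat_lit 3884971479109) (nat_lit 0) (node (node leaf (nat_lit 3884971479301) (nat_lit 0) leaf) (nat_lit 3884972068933) (nat_lit 0) (node leaf (nat_lit 3884972069125) (nat_lit 0) leaf)))))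

noncomputable def R0_160 : Tr := node R0_158 (nat_lit 3884970959953) (nat_lit 0) R0_159

noncomputable def R0_161 : Tr := (node (node (node (node (node (node leaf (nat_lit 3884974428421) (nat_lit 0) leaf) (nat_lit 3884975395909) (nat_lit 0) leaf) (nat_lit 3884975395921) (nat_lit 0) (node leaf (nat_lit 3885109610068) (nat_lit 0) leaf)) (nat_lit 3885109610833) (nat_lit 0) (node (node leaf (nat_lit 3885109674373) (nat_lit 0) leaf) (nat_lit 3885109675045) (nat_lit 0) (node leaf (nat_lit 3885210273361) (nat_lit 0) leaf))) (nat_lit 3885361267861) (nat_lit 0) (node (node (node leaf (nat_lit 3885361268245) (nat_lit 0) leaf) (nat_lit 3885361268305) (nat_lit 0) (node leaf (nat_lit 3885361269073) (nat_lit 0) leaf)) (nat_lit 3885361270933) (nat_lit 0) (node (node leaf (nat_lit 3885373605457) (nat_lit 0) leaf) (nat_lit 3885373606213) (nat_lit 0) (node leaf (nat_lit 3885373613125) (nat_lit 0) leaf)))) (nat_lit 3885373613317) (nat_lit 0) (node (node (node (node leaf (nat_lit 3885373613329) (nat_lit 0) leaf) (nat_lit 3885373625365) (nat_lit 0)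 (node leaf (nat_lit 3885373625413) (nat_lit 0) leaf)) (nat_lit 3885373625425) (nat_lit 0) (node (node leaf (nat_lit 3885373625617) (nat_lit 0) leaf) (nat_lit 3885373654165) (nat_lit 0) (node leaf (nat_lit 3885373654609) (nat_lit 0) leaf))) (nat_lit 3885373657681) (nat_lit 0) (node (node (node leaf (nat_lit 3885373669525) (nat_lit 0) leaf) (nat_lit 3885373669669) (nat_lit 0) (node leaf (nat_lit 3885373735957) (nat_lit 0) leaf)) (nat_lit 3885373736005) (nat_lit 0) (node (node leaf (nat_lit 3885373739077) (nat_lit 0) leaf) (nat_lit 3885373739269) (nat_lit 0) (node leaf (nat_lit 3885373851973) (nat_lit 0) leaf)))))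

noncomputable def R0_162 : Tr := (node (node (node (node (node (node leaf (nat_lit 3885373854289) (nat_lit 0) leaf) (nat_lit 3885373859077) (nat_lit 0) leaf) (nat_lit 3885374128405) (nat_lit 0) (node leaf (nat_lit 3885374129173) (nat_lit 0) leaf)) (nat_lit 3885374132245) (nat_lit 0) (node (node leaf (nat_lit 3885374132293) (nat_lit 0) leaf) (nat_lit 3885374722069) (nat_lit 0) (node leaf (nat_lit 3885374722117) (nat_lit 0) leaf))) (nat_lit 3885377081365) (nat_lit 0) (node (node (node leaf (nat_lit 3885377081413) (nat_lit 0) leaf) (nat_lit 3885378049045) (nat_lit 0) (node leaf (nat_lit 3885378049093) (nat_lit 0) leaf)) (nat_lit 3885411600721) (nat_lit 0) (node (node leaf (nat_lit 3885411664261) (nat_lit 0) leaf) (nat_lit 3885411664933) (nat_lit 0) (node leaf (nat_lit 3885418776133) (nat_lit 0) leaf)))) (nat_lit 3885418776145) (nat_lit 0) (node (node (node (node leaf (nat_lit 3885418776148) (nat_lit 0) leaf) (nat_lit 3885418779013) (nat_lit 0) (node leaf (nat_lit 3885418779721) (nat_lit 0) leaf)) (nat_lit 3885418779781) (nat_lit 0)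 (node (node leaf (nat_lit 3885418779793) (nat_lit 0) leaf) (nat_lit 3885418784080) (nat_lit 0) (node leaf (nat_lit 3885418828357) (nat_lit 0) leaf))) (nat_lit 3885418828369) (nat_lit 0) (node (node (node leaf (nat_lit 3885418828372) (nat_lit 0) leaf) (nat_lit 3885418828897) (nat_lit 0) (node leaf (nat_lit 3885418828933) (nat_lit 0) leaf)) (nat_lit 3885418829065) (nat_lit 0) (node (node leaf (nat_lit 3885418829074) (nat_lit 0) leaf) (nat_lit 3885418829089) (nat_lit 0) (node leaf (nat_lit 3885418829092) (nat_lit 0) leaf)))))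

noncomputable def R0_163 : Tr := node R0_161 (nat_lit 3885373851985) (nat_lit 0) R0_162

noncomputable def R0_164 : Tr := node R0_160 (nat_lit 3884974428229) (nat_lit 0) R0_163

noncomputable def R0_165 : Tr := (node (node (node (node (node (node leaf (nat_lit 3885418947877) (nat_lit 0) leaf) (nat_lit 3885418948165) (nat_lit 0) leaf) (nat_lit 3885418948177) (nat_lit 0) (node leaf (nat_lit 3885418948180) (nat_lit 0) leaf)) (nat_lit 3885418955941) (nat_lit 0) (node (node leaf (nat_lit 3885418957093) (nat_lit 0) leaf) (nat_lit 3885418957129) (nat_lit 0) (node leaf (nat_lit 3885418957189) (nat_lit 0) leaf))) (nat_lit 3885418957201) (nat_lit 0) (node (node (node leaf (nat_lit 3885418963273) (nat_lit 0) leaf) (nat_lit 3885418963345) (nat_lit 0) (node leaf (nat_lit 3885418963540) (nat_lit 0) leaf)) (nat_lit 3885418972261) (nat_lit 0) (node (node leaf (nat_lit 3885418972453) (nat_lit 0) leaf) (nat_lit 3885418972756) (nat_lit 0) (node leaf (nat_lit 3885418975525) (nat_lit 0) leaf)))) (nat_lit 3885418975828) (nat_lit 0) (node (node (node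 (node (node leaf (nat_lit 3885418976293) (nat_lit 0) leaf) (nat_lit 3885418976404) (nat_lit 0) leaf) (nat_lit 3885418977361) (nat_lit 0) (node leaf (nat_lit 3885418977364) (nat_lit 0) leaf)) (nat_lit 3885418977556) (nat_lit 0) (node (node leaf (nat_lit 3885418977604) (nat_lit 0) leaf) (nat_lit 3885419005093) (nat_lit 0) (node leaf (nat_lit 3885419006245) (nat_lit 0) leaf))) (nat_lit 3885419013385) (nat_lit 0) (node (node (node leaf (nat_lit 3885419013652) (nat_lit 0) leaf) (nat_lit 3885419071828) (nat_lit 0) (node leaf (nat_lit 3885419073637) (nat_lit 0) leaf)) (nat_lit 3885419073829) (nat_lit 0) (node (node leaf (nat_lit 3885419073940) (nat_lit 0) leaf) (nat_lit 3885419074693) (nat_lit 0) (node leaf (nat_lit 3885419074708) (nat_lit 0) leaf)))))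

noncomputable def R0_166 : Tr := (node (node (node (node (node (node leaf (nat_lit 3885419075857) (nat_lit 0) leaf) (nat_lit 3885419075860) (nat_lit 0) leaf) (nat_lit 3885419086213) (nat_lit 0) (node leaf (nat_lit 3885419086420) (nat_lit 0) leaf)) (nat_lit 3885419086885) (nat_lit 0) (node (node leaf (nat_lit 3885419087113) (nat_lit 0) leaf) (nat_lit 3885419087380) (nat_lit 0) (node leaf (nat_lit 3885419267365) (nat_lit 0) leaf))) (nat_lit 3885419267605) (nat_lit 0) (node (node (node leaf (nat_lit 3885419267653) (nat_lit 0) leaf) (nat_lit 3885419267665) (nat_lit 0) (node leaf (nat_lit 3885419267668) (nat_lit 0) leaf)) (nat_lit 3885419270293) (nat_lit 0) (node (node leaf (nat_lit 3885419270437) (nat_lit 0) leaf) (nat_lit 3885419270533) (nat_lit 0) (node leaf (nat_lit 3885419270740) (nat_lit 0) leaf)))) (nat_lit 3885419272273) (nat_lit 0) (node (node (node (node leaf (nat_lit 3885419275588) (nat_lit 0) leaf) (nat_lit 3885419282725) (nat_lit 0) (node leaf (nat_lit 3885419282821) (nat_lit 0) leaf)) (nat_lit 3885419283028) (nat_lit 0)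 (node (node leaf (nat_lit 3885419283493) (nat_lit 0) leaf) (nat_lit 3885419283589) (nat_lit 0) (node leaf (nat_lit 3885419283601) (nat_lit 0) leaf))) (nat_lit 3885419283988) (nat_lit 0) (node (node (node leaf (nat_lit 3885419284561) (nat_lit 0) leaf) (nat_lit 3885419284753) (nat_lit 0) (node leaf (nat_lit 3885419284756) (nat_lit 0) leaf)) (nat_lit 3885419284816) (nat_lit 0) (node (node leaf (nat_lit 3885419286553) (nat_lit 0) leaf) (nat_lit 3885419286565) (nat_lit 0) (node leaf (nat_lit 3885419286625) (nat_lit 0) leaf)))))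

noncomputable def R0_167 : Tr := node R0_165 (nat_lit 3885419074825) (nat_lit 0) R0_166

noncomputable def R0_168 : Tr := (node (node (node (node (node (node leaf (nat_lit 3885419286793) (nat_lit 0) leaf) (nat_lit 3885419286817) (nat_lit 0) leaf) (nat_lit 3885419287060) (nat_lit 0) (node leaf (nat_lit 3885419287561) (nat_lit 0) leaf)) (nat_lit 3885419290948) (nat_lit 0) (node (node leaf (nat_lit 3885419300161) (nat_lit 0) leaf) (nat_lit 3885419300164) (nat_lit 0) (node leaf (nat_lit 3885419731540) (nat_lit 0) leaf))) (nat_lit 3885419734309) (nat_lit 0) (node (node (node leaf (nat_lit 3885419734405) (nat_lit 0) leaf) (nat_lit 3885419734420) (nat_lit 0) (node leaf (nat_lit 3885419741845) (nat_lit 0) leaf)) (nat_lit 3885419743561) (nat_lit 0) (node (node leaf (nat_lit 3885419743633) (nat_lit 0) leaf) (nat_lit 3885419743828) (nat_lit 0) (node leaf (nat_lit 3885419749972) (nat_lit 0) leaf)))) (nat_lit 3885419750437) (nat_lit 0) (node (node (node (node leaf (nat_lit 3885419762260) (nat_lit 0) leaf) (nat_lit 3885419762725) (nat_lit 0)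 (node leaf (nat_lit 3885419762785) (nat_lit 0) leaf)) (nat_lit 3885419762821) (nat_lit 0) (node (node leaf (nat_lit 3885419762836) (nat_lit 0) leaf) (nat_lit 3885419762953) (nat_lit 0) (node leaf (nat_lit 3885419791525) (nat_lit 0) leaf))) (nat_lit 3885419792677) (nat_lit 0) (node (node (node leaf (nat_lit 3885419795092) (nat_lit 0) leaf) (nat_lit 3885419799700) (nat_lit 0) (node leaf (nat_lit 3885419873428) (nat_lit 0) leaf)) (nat_lit 3885420265876) (nat_lit 0) (node (node leaf (nat_lit 3885420269716) (nat_lit 0) leaf) (nat_lit 3885420811585) (nat_lit 0) (node leaf (nat_lit 3885420840229) (nat_lit 0) leaf)))))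

noncomputable def R0_169 : Tr := (node (node (node (node (node (node leaf (nat_lit 3885420840529) (nat_lit 0) leaf) (nat_lit 3885420841297) (nat_lit 0) leaf) (nat_lit 3885420843157) (nat_lit 0) (node leaf (nat_lit 3885420848452) (nat_lit 0) leaf)) (nat_lit 3885420855397) (nat_lit 0) (node (node leaf (nat_lit 3885420855445) (nat_lit 0) leaf) (nat_lit 3885420856357) (nat_lit 0) (node leaf (nat_lit 3885420856453) (nat_lit 0) leaf))) (nat_lit 3885420859429) (nat_lit 0) (node (node (node leaf (nat_lit 3885420873025) (nat_lit 0) leaf) (nat_lit 3885421037905) (nat_lit 0) (node leaf (nat_lit 3885421041745) (nat_lit 0) leaf)) (nat_lit 3885421041748) (nat_lit 0) (node (node leaf (nat_lit 3885421052053) (nat_lit 0) leaf) (nat_lit 3885421052497) (nat_lit 0) (node leaf (nat_lit 3885421052500) (nat_lit 0) leaf)))) (nat_lit 3885421101205) (nat_lit 0) (node (node (node (node leaf (nat_lit 3885422880037) (nat_lit 0) leaf) (nat_lit 3885422880073) (nat_lit 0) (node leaf (nat_lit 3885422887573) (nat_lit 0) leaf)) (nat_lit 3885422888485) (nat_lit 0)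 (node (node leaf (nat_lit 3885422889364) (nat_lit 0) leaf) (nat_lit 3885422889556) (nat_lit 0) (node leaf (nat_lit 3885422895397) (nat_lit 0) leaf))) (nat_lit 3885422907988) (nat_lit 0) (node (node (node leaf (nat_lit 3885422908681) (nat_lit 0) leaf) (nat_lit 3885422937253) (nat_lit 0) (node leaf (nat_lit 3885422938405) (nat_lit 0) leaf)) (nat_lit 3885422944549) (nat_lit 0) (node (node leaf (nat_lit 3885423022228) (nat_lit 0) leaf) (nat_lit 3885423133861) (nat_lit 0) (node leaf (nat_lit 3885423135013) (nat_lit 0) leaf)))))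

noncomputable def R0_170 : Tr := node R0_168 (nat_lit 3885420840517) (nat_lit 0) R0_169

noncomputable def R0_171 : Tr := node R0_167 (nat_lit 3885419286676) (nat_lit 0) R0_170

noncomputable def R0_172 : Tr := node R0_164 (nat_lit 3885418944901) (nat_lit 0) R0_171

noncomputable def R0_173 : Tr := (node (node (node (node (node (node leaf (nat_lit 3885427103041) (nat_lit 0) leaf) (nat_lit 3885427131925) (nat_lit 0) leaf) (nat_lit 3885427131973) (nat_lit 0) (node leaf (nat_lit 3885427134565) (nat_lit 0) leaf)) (nat_lit 3885427134613) (nat_lit 0) (node (node leaf (nat_lit 3885427147045) (nat_lit 0) leaf) (nat_lit 3885427329361) (nat_lit 0) (node leaf (nat_lit 3885427329364) (nat_lit 0) leaf))) (nat_lit 3885427331221) (nat_lit 0) (node (node (node leaf (nat_lit 3885427343509) (nat_lit 0) leaf) (nat_lit 3885436540177) (nat_lit 0) (node leaf (nat_lit 3885436540225) (nat_lit 0) leaf)) (nat_lit 3885436571749) (nat_lit 0) (node (node leaf (nat_lit 3885439715665) (nat_lit 0) leaf) (nat_lit 3885439717525) (nat_lit 0) (node leaf (nat_lit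 3885439729765) (nat_lit 0) leaf)))) (nat_lit 3885439729813) (nat_lit 0) (node (node (node (node (node leaf (nat_lit 3885439912273) (nat_lit 0) leaf) (nat_lit 3885439926421) (nat_lit 0) leaf) (nat_lit 3885471453253) (nat_lit 0) (node leaf (nat_lit 3885473502277) (nat_lit 0) leaf)) (nat_lit 3885473808661) (nat_lit 0) (node (node leaf (nat_lit 3885473809429) (nat_lit 0) leaf) (nat_lit 3885473812501) (nat_lit 0) (node leaf (nat_lit 3885474268309) (nat_lit 0) leaf))) (nat_lit 3885474268753) (nat_lit 0) (node (node (node leaf (nat_lit 3885474269461) (nat_lit 0) leaf) (nat_lit 3885474276421) (nat_lit 0) (node leaf (nat_lit 3885474276433) (nat_lit 0) leaf)) (nat_lit 3885474287893) (nat_lit 0) (node (node leaf (nat_lit 3885474288709) (nat_lit 0) leaf) (nat_lit 3885474288721) (nat_lit 0) (node leaf (nat_lit 3885474288913) (nat_lit 0) leaf)))))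

noncomputable def R0_174 : Tr := (node (node (node (node (node (node leaf (nat_lit 3885474318661) (nat_lit 0) leaf) (nat_lit 3885474318673) (nat_lit 0) leaf) (nat_lit 3885474325765) (nat_lit 0) (node leaf (nat_lit 3885474399253) (nat_lit 0) leaf)) (nat_lit 3885474399301) (nat_lit 0) (node (node leaf (nat_lit 3885475382293) (nat_lit 0) leaf) (nat_lit 3885478711573) (nat_lit 0) (node leaf (nat_lit 3885478712341) (nat_lit 0) leaf))) (nat_lit 3885486900373) (nat_lit 0) (node (node (node leaf (nat_lit 3885486900817) (nat_lit 0) leaf) (nat_lit 3885486901585) (nat_lit 0) (node leaf (nat_lit 3885486903445) (nat_lit 0) leaf)) (nat_lit 3885487098193) (nat_lit 0) (node (node leaf (nat_lit 3885490004305) (nat_lit 0) leaf) (nat_lit 3885490045525) (nat_lit 0) (node leaf (nat_lit 3885490047313) (nat_lit 0) leaf)))) (nat_lit 3885490049173) (nat_lit 0) (node (node (node (node leaf (nat_lit 3885490242133) (nat_lit 0) leaf) (nat_lit 3885491028565) (nat_lit 0) (node leaf (nat_lit 3885503680789) (nat_lit 0) leaf)) (nat_lit 3885503877397) (nat_lit 0)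 (node (node leaf (nat_lit 3891401066005) (nat_lit 0) leaf) (nat_lit 3891401068693) (nat_lit 0) (node leaf (nat_lit 3891413403217) (nat_lit 0) leaf))) (nat_lit 3891413403973) (nat_lit 0) (node (node (node leaf (nat_lit 3891413405845) (nat_lit 0) leaf) (nat_lit 3891413410885) (nat_lit 0) (node leaf (nat_lit 3891413411077) (nat_lit 0) leaf)) (nat_lit 3891413411089) (nat_lit 0) (node (node leaf (nat_lit 3891413423125) (nat_lit 0) leaf) (nat_lit 3891413423173) (nat_lit 0) (node leaf (nat_lit 3891413423185) (nat_lit 0) leaf)))))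

noncomputable def R0_175 : Tr := node R0_173 (nat_lit 3885474317905) (nat_lit 0) R0_174

noncomputable def R0_176 : Tr := (node (node (node (node (node (node leaf (nat_lit 3891413452369) (nat_lit 0) leaf) (nat_lit 3891413452372) (nat_lit 0) leaf) (nat_lit 3891413453137) (nat_lit 0) (node leaf (nat_lit 3891413453140) (nat_lit 0) leaf)) (nat_lit 3891413460241) (nat_lit 0) (node (node leaf (nat_lit 3891413467429) (nat_lit 0) leaf) (nat_lit 3891413533717) (nat_lit 0) (node leaf (nat_lit 3891413533765) (nat_lit 0) leaf))) (nat_lit 3891413536837) (nat_lit 0) (node (node (node leaf (nat_lit 3891413537029) (nat_lit 0) leaf) (nat_lit 3891413648965) (nat_lit 0) (node leaf (nat_lit 3891413649748) (nat_lit 0) leaf)) (nat_lit 3891413651557) (nat_lit 0) (node (node leaf (nat_lit 3891413651605) (nat_lit 0) leaf) (nat_lit 3891413652049) (nat_lit 0) (node leaf (nat_lit 3891413663893) (nat_lit 0) leaf)))) (nat_lit 3891413664037) (nat_lit 0) (node (node (node (node leaf (nat_lit 3891413713045) (nat_lit 0) leaf) (nat_lit 3891413926165) (nat_lit 0)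 (node leaf (nat_lit 3891413926933) (nat_lit 0) leaf)) (nat_lit 3891413930005) (nat_lit 0) (node (node leaf (nat_lit 3891413930053) (nat_lit 0) leaf) (nat_lit 3891414519829) (nat_lit 0) (node leaf (nat_lit 3891414519877) (nat_lit 0) leaf))) (nat_lit 3891416879125) (nat_lit 0) (node (node (node leaf (nat_lit 3891416879173) (nat_lit 0) leaf) (nat_lit 3891417846085) (nat_lit 0) (node leaf (nat_lit 3891417846853) (nat_lit 0) leaf)) (nat_lit 3891552125077) (nat_lit 0) (node (node leaf (nat_lit 3891803718229) (nat_lit 0) leaf) (nat_lit 3891803718805) (nat_lit 0) (node leaf (nat_lit 3891816044869) (nat_lit 0) leaf)))))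

noncomputable def R0_177 : Tr := (node (node (node (node (node (node leaf (nat_lit 3891816063301) (nat_lit 0) leaf) (nat_lit 3891816064069) (nat_lit 0) leaf) (nat_lit 3891816064261) (nat_lit 0) (node leaf (nat_lit 3891816075541) (nat_lit 0) leaf)) (nat_lit 3891816076309) (nat_lit 0) (node (node leaf (nat_lit 3891816076357) (nat_lit 0) leaf) (nat_lit 3891816076369) (nat_lit 0) (node leaf (nat_lit 3891816105541) (nat_lit 0) leaf))) (nat_lit 3891816105553) (nat_lit 0) (node (node (node leaf (nat_lit 3891816106309) (nat_lit 0) leaf) (nat_lit 3891816106321) (nat_lit 0) (node leaf (nat_lit 3891816108133) (nat_lit 0) leaf)) (nat_lit 3891816108181) (nat_lit 0) (node (node leaf (nat_lit 3891816108325) (nat_lit 0) leaf) (nat_lit 3891816108625) (nat_lit 0) (node leaf (nat_lit 3891816113413) (nat_lit 0) leaf)))) (nat_lit 3891816174661) (nat_lit 0) (node (node (node (node leaf (nat_lit 3891816186133) (nat_lit 0) leaf) (nat_lit 3891816186949) (nat_lit 0) (node leaf (nat_lit 3891816190021) (nat_lit 0) leaf)) (nat_lit 3891816567829) (nat_lit 0)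 (node (node leaf (nat_lit 3891816579157) (nat_lit 0) leaf) (nat_lit 3891816580117) (nat_lit 0) (node leaf (nat_lit 3891816583189) (nat_lit 0) leaf))) (nat_lit 3891817169941) (nat_lit 0) (node (node (node leaf (nat_lit 3891817173013) (nat_lit 0) leaf) (nat_lit 3891819529237) (nat_lit 0) (node leaf (nat_lit 3891819532309) (nat_lit 0) leaf)) (nat_lit 3891820499221) (nat_lit 0) (node (node leaf (nat_lit 3891820499989) (nat_lit 0) leaf) (nat_lit 3891854114965) (nat_lit 0) (node leaf (nat_lit 3891861226789) (nat_lit 0) leaf)))))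

noncomputable def R0_178 : Tr := node R0_176 (nat_lit 3891816055957) (nat_lit 0) R0_177

noncomputable def R0_179 : Tr := node R0_175 (nat_lit 3891413423377) (nat_lit 0) R0_178

noncomputable def R0_180 : Tr := (node (node (node (node (node (node leaf (nat_lit 3891861227029) (nat_lit 0) leaf) (nat_lit 3891861227077) (nat_lit 0) leaf) (nat_lit 3891861227089) (nat_lit 0) (node leaf (nat_lit 3891861227092) (nat_lit 0) leaf)) (nat_lit 3891861229957) (nat_lit 0) (node (node leaf (nat_lit 3891861230725) (nat_lit 0) leaf) (nat_lit 3891861235012) (nat_lit 0) (node leaf (nat_lit 3891861279109) (nat_lit 0) leaf))) (nat_lit 3891861279124) (nat_lit 0) (node (node (node leaf (nat_lit 3891861279253) (nat_lit 0) leaf) (nat_lit 3891861279301) (nat_lit 0) (node leaf (nat_lit 3891861279313) (nat_lit 0) leaf)) (nat_lit 3891861279781) (nat_lit 0) (node (node leaf (nat_lit 3891861279817) (nat_lit 0) leaf) (nat_lit 3891861279844) (nat_lit 0) (node leaf (nat_lit 3891861279877) (nat_lit 0) leaf)))) (nat_lit 3891861280006) (nat_lit 0) (node (node (node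 (node leaf (nat_lit 3891861395845) (nat_lit 0) leaf) (nat_lit 3891861398821) (nat_lit 0) (node leaf (nat_lit 3891861398857) (nat_lit 0) leaf)) (nat_lit 3891861398917) (nat_lit 0) (node (node leaf (nat_lit 3891861398929) (nat_lit 0) leaf) (nat_lit 3891861399061) (nat_lit 0) (node leaf (nat_lit 3891861399109) (nat_lit 0) leaf))) (nat_lit 3891861399121) (nat_lit 0) (node (node (node leaf (nat_lit 3891861399124) (nat_lit 0) leaf) (nat_lit 3891861406357) (nat_lit 0) (node leaf (nat_lit 3891861408037) (nat_lit 0) leaf)) (nat_lit 3891861408133) (nat_lit 0) (node (node leaf (nat_lit 3891861415177) (nat_lit 0) leaf) (nat_lit 3891861415444) (nat_lit 0) (node leaf (nat_lit 3891861423397) (nat_lit 0) leaf)))))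

noncomputable def R0_181 : Tr := (node (node (node (node (node (node leaf (nat_lit 3891861427237) (nat_lit 0) leaf) (nat_lit 3891861427333) (nat_lit 0) leaf) (nat_lit 3891861427348) (nat_lit 0) (node leaf (nat_lit 3891861427465) (nat_lit 0) leaf)) (nat_lit 3891861428308) (nat_lit 0) (node (node leaf (nat_lit 3891861428500) (nat_lit 0) leaf) (nat_lit 3891861428545) (nat_lit 0) (node leaf (nat_lit 3891861455269) (nat_lit 0) leaf))) (nat_lit 3891861457189) (nat_lit 0) (node (node (node leaf (nat_lit 3891861464212) (nat_lit 0) leaf) (nat_lit 3891861524581) (nat_lit 0) (node leaf (nat_lit 3891861525541) (nat_lit 0) leaf)) (nat_lit 3891861526612) (nat_lit 0) (node (node leaf (nat_lit 3891861537364) (nat_lit 0) leaf) (nat_lit 3891861537865) (nat_lit 0) (node leaf (nat_lit 3891861672085) (nat_lit 0) leaf)))) (nat_lit 3891861717589) (nat_lit 0) (node (node (node (node leaf (nat_lit 3891861718309) (nat_lit 0) leaf) (nat_lit 3891861718549) (nat_lit 0) (node leaf (nat_lit 3891861718597) (nat_lit 0) leaf)) (nat_lit 3891861718609) (nat_lit 0)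 (node (node leaf (nat_lit 3891861721237) (nat_lit 0) leaf) (nat_lit 3891861721381) (nat_lit 0) (node leaf (nat_lit 3891861726484) (nat_lit 0) leaf))) (nat_lit 3891861733525) (nat_lit 0) (node (node (node leaf (nat_lit 3891861733765) (nat_lit 0) leaf) (nat_lit 3891861733780) (nat_lit 0) (node leaf (nat_lit 3891861733972) (nat_lit 0) leaf)) (nat_lit 3891861734437) (nat_lit 0) (node (node leaf (nat_lit 3891861734533) (nat_lit 0) leaf) (nat_lit 3891861734932) (nat_lit 0) (node leaf (nat_lit 3891861735505) (nat_lit 0) leaf)))))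

noncomputable def R0_182 : Tr := node R0_180 (nat_lit 3891861426469) (nat_lit 0) R0_181

noncomputable def R0_183 : Tr := (node (node (node (node (node (node leaf (nat_lit 3891861735748) (nat_lit 0) leaf) (nat_lit 3891861737509) (nat_lit 0) leaf) (nat_lit 3891861737569) (nat_lit 0) (node leaf (nat_lit 3891861737620) (nat_lit 0) leaf)) (nat_lit 3891861737737) (nat_lit 0) (node (node leaf (nat_lit 3891861741889) (nat_lit 0) leaf) (nat_lit 3891861751057) (nat_lit 0) (node leaf (nat_lit 3891861751105) (nat_lit 0) leaf))) (nat_lit 3891862185253) (nat_lit 0) (node (node (node leaf (nat_lit 3891862185289) (nat_lit 0) leaf) (nat_lit 3891862185361) (nat_lit 0) (node leaf (nat_lit 3891862194565) (nat_lit 0) leaf)) (nat_lit 3891862194580) (nat_lit 0) (node (node leaf (nat_lit 3891862213204) (nat_lit 0) leaf) (nat_lit 3891862213669) (nat_lit 0) (node leaf (nat_lit 3891862241701) (nat_lit 0) leaf)))) (nat_lit 3891862242964) (nat_lit 0) (node (node (node (node leaf (nat_lit 3891862243621) (nat_lit 0) leaf) (nat_lit 3891863262481) (nat_lit 0)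 (node leaf (nat_lit 3891863262529) (nat_lit 0) leaf)) (nat_lit 3891863291413) (nat_lit 0) (node (node leaf (nat_lit 3891863291461) (nat_lit 0) leaf) (nat_lit 3891863294053) (nat_lit 0) (node leaf (nat_lit 3891863294101) (nat_lit 0) leaf))) (nat_lit 3891863296081) (nat_lit 0) (node (node (node leaf (nat_lit 3891863306389) (nat_lit 0) leaf) (nat_lit 3891863306533) (nat_lit 0) (node leaf (nat_lit 3891863306629) (nat_lit 0) leaf)) (nat_lit 3891863306833) (nat_lit 0) (node (node leaf (nat_lit 3891863307301) (nat_lit 0) leaf) (nat_lit 3891863492689) (nat_lit 0) (node leaf (nat_lit 3891863503441) (nat_lit 0) leaf)))))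

noncomputable def R0_184 : Tr := (node (node (node (node (node (node leaf (nat_lit 3891865328212) (nat_lit 0) leaf) (nat_lit 3891865330981) (nat_lit 0) leaf) (nat_lit 3891865346341) (nat_lit 0) (node leaf (nat_lit 3891865359433) (nat_lit 0) leaf)) (nat_lit 3891865387429) (nat_lit 0) (node (node leaf (nat_lit 3891865389349) (nat_lit 0) leaf) (nat_lit 3891865584037) (nat_lit 0) (node leaf (nat_lit 3891869536405) (nat_lit 0) leaf))) (nat_lit 3891869553925) (nat_lit 0) (node (node (node leaf (nat_lit 3891869553937) (nat_lit 0) leaf) (nat_lit 3891869581909) (nat_lit 0) (node leaf (nat_lit 3891869582869) (nat_lit 0) leaf)) (nat_lit 3891869583697) (nat_lit 0) (node (node leaf (nat_lit 3891869585557) (nat_lit 0) leaf) (nat_lit 3891869597797) (nat_lit 0) (node leaf (nat_lit 3891869597845) (nat_lit 0) leaf)))) (nat_lit 3891869780305) (nat_lit 0) (node (node (node (node leaf (nat_lit 3891878991109) (nat_lit 0) leaf) (nat_lit 3891878991121) (nat_lit 0) (node leaf (nat_lit 3891879020881) (nat_lit 0) leaf)) (nat_lit 3891879022741) (nat_lit 0)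 (node (node leaf (nat_lit 3891879034981) (nat_lit 0) leaf) (nat_lit 3891879035029) (nat_lit 0) (node leaf (nat_lit 3891879217489) (nat_lit 0) leaf))) (nat_lit 3891879231637) (nat_lit 0) (node (node (node leaf (nat_lit 3891913904149) (nat_lit 0) leaf) (nat_lit 3891915953173) (nat_lit 0) (node leaf (nat_lit 3891916248085) (nat_lit 0) leaf)) (nat_lit 3891916259413) (nat_lit 0) (node (node leaf (nat_lit 3891916260373) (nat_lit 0) leaf) (nat_lit 3891916706965) (nat_lit 0) (node leaf (nat_lit 3891916708117) (nat_lit 0) leaf)))))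

noncomputable def R0_185 : Tr := node R0_183 (nat_lit 3891865326229) (nat_lit 0) R0_184

noncomputable def R0_186 : Tr := node R0_182 (nat_lit 3891861735697) (nat_lit 0) R0_185

noncomputable def R0_187 : Tr := node R0_179 (nat_lit 3891861226885) (nat_lit 0) R0_186

noncomputable def R0_188 : Tr := node R0_172 (nat_lit 3885427102993) (nat_lit 0) R0_187

noncomputable def R0_189 : Tr := node R0_157 (nat_lit 3883360588837) (nat_lit 0) R0_188

noncomputable def R0_190 : Tr := (node (node (node (node (node (node leaf (nat_lit 3891916720453) (nat_lit 0) leaf) (nat_lit 3891916726597) (nat_lit 0) leaf) (nat_lit 3891916727365) (nat_lit 0) (node leaf (nat_lit 3891916738645) (nat_lit 0) leaf)) (nat_lit 3891916739605) (nat_lit 0) (node (node leaf (nat_lit 3891916739653) (nat_lit 0) leaf) (nat_lit 3891916739845) (nat_lit 0) (node leaf (nat_lit 3891916768405) (nat_lit 0) leaf))) (nat_lit 3891916768849) (nat_lit 0) (node (node (node leaf (nat_lit 3891916769605) (nat_lit 0) leaf) (nat_lit 3891916769617) (nat_lit 0) (node leaf (nat_lit 3891916776517)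 (nat_lit 0) leaf)) (nat_lit 3891916837909) (nat_lit 0) (node (node leaf (nat_lit 3891916837957) (nat_lit 0) leaf) (nat_lit 3891916966225) (nat_lit 0) (node leaf (nat_lit 3891917832469) (nat_lit 0) leaf)))) (nat_lit 3891920966677) (nat_lit 0) (node (node (node (node (node leaf (nat_lit 3891921162325) (nat_lit 0) leaf) (nat_lit 3891921162517) (nat_lit 0) leaf) (nat_lit 3891929350741) (nat_lit 0) (node leaf (nat_lit 3891929351317) (nat_lit 0) leaf)) (nat_lit 3891932439889) (nat_lit 0) (node (node leaf (nat_lit 3891932496469) (nat_lit 0) leaf) (nat_lit 3891932497045) (nat_lit 0) (node leaf (nat_lit 3891932693077) (nat_lit 0) leaf))) (nat_lit 3891946131541) (nat_lit 0) (node (node (node leaf (nat_lit 3891946328149) (nat_lit 0) leaf) (nat_lit 3892587308356) (nat_lit 0) (node leaf (nat_lit 3892592026948) (nat_lit 0) leaf)) (nat_lit 3892599498052) (nat_lit 0) (node (node leaf (nat_lit 3892616406340) (nat_lit 0) leaf) (nat_lit 3892717069633) (nat_lit 0) (node leaf (nat_lit 3892868064577) (nat_lit 0) leaf)))))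

noncomputable def R0_191 : Tr := (node (node (node (node (node (node leaf (nat_lit 3893426657557) (nat_lit 0) leaf) (nat_lit 3893426669893) (nat_lit 0) leaf) (nat_lit 3893426672209) (nat_lit 0) (node leaf (nat_lit 3893426676037) (nat_lit 0) leaf)) (nat_lit 3893426676805) (nat_lit 0) (node (node leaf (nat_lit 3893426676997) (nat_lit 0) leaf) (nat_lit 3893426688085) (nat_lit 0) (node leaf (nat_lit 3893426689045) (nat_lit 0) leaf))) (nat_lit 3893426689093) (nat_lit 0) (node (node (node leaf (nat_lit 3893426689285) (nat_lit 0) leaf) (nat_lit 3893426689297) (nat_lit 0) (node leaf (nat_lit 3893426718229) (nat_lit 0) leaf)) (nat_lit 3893426718277) (nat_lit 0) (node (node leaf (nat_lit 3893426719045) (nat_lit 0) leaf) (nat_lit 3893426719057) (nat_lit 0) (node leaf (nat_lit 3893426720869) (nat_lit 0) leaf)))) (nat_lit 3893426720917) (nat_lit 0) (node (node (node (node leaf (nat_lit 3893426733157) (nat_lit 0) leaf) (nat_lit 3893426733205) (nat_lit 0) (node leaf (nat_lit 3893426786581) (nat_lit 0) leaf)) (nat_lit 3893426787349) (nat_lit 0)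 (node (node leaf (nat_lit 3893426799637) (nat_lit 0) leaf) (nat_lit 3893426802709) (nat_lit 0) (node leaf (nat_lit 3893426915665) (nat_lit 0) leaf))) (nat_lit 3893426929813) (nat_lit 0) (node (node (node leaf (nat_lit 3893427179605) (nat_lit 0) leaf) (nat_lit 3893427192085) (nat_lit 0) (node leaf (nat_lit 3893427192853) (nat_lit 0) leaf)) (nat_lit 3893427781909) (nat_lit 0) (node (node leaf (nat_lit 3893427782677) (nat_lit 0) leaf) (nat_lit 3893430141205) (nat_lit 0) (node leaf (nat_lit 3893430141973) (nat_lit 0) leaf)))))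

noncomputable def R0_192 : Tr := node R0_190 (nat_lit 3893426656405) (nat_lit 0) R0_191

noncomputable def R0_193 : Tr := (node (node (node (node (node (node leaf (nat_lit 3893431111957) (nat_lit 0) leaf) (nat_lit 3893459701909) (nat_lit 0) leaf) (nat_lit 3893459747413) (nat_lit 0) (node leaf (nat_lit 3893464420501) (nat_lit 0) leaf)) (nat_lit 3893464466005) (nat_lit 0) (node (node leaf (nat_lit 3893471815045) (nat_lit 0) leaf) (nat_lit 3893471815189) (nat_lit 0) (node leaf (nat_lit 3893471822485) (nat_lit 0) leaf))) (nat_lit 3893471824261) (nat_lit 0) (node (node (node leaf (nat_lit 3893471838805) (nat_lit 0) leaf) (nat_lit 3893471839621) (nat_lit 0) (node leaf (nat_lit 3893471839765) (nat_lit 0) leaf)) (nat_lit 3893471839813) (nat_lit 0) (node (node leaf (nat_lit 3893471839825) (nat_lit 0) leaf) (nat_lit 3893471842693) (nat_lit 0) (node leaf (nat_lit 3893471888917) (nat_lit 0) leaf)))) (nat_lit 3893471891605) (nat_lit 0) (node (node (node (node leaf (nat_lit 3893471891845) (nat_lit 0) leaf) (nat_lit 3893471891989) (nat_lit 0)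 (node leaf (nat_lit 3893471892517) (nat_lit 0) leaf)) (nat_lit 3893472011557) (nat_lit 0) (node (node leaf (nat_lit 3893472011653) (nat_lit 0) leaf) (nat_lit 3893472011797) (nat_lit 0) (node leaf (nat_lit 3893472011845) (nat_lit 0) leaf))) (nat_lit 3893472011857) (nat_lit 0) (node (node (node leaf (nat_lit 3893472020773) (nat_lit 0) leaf) (nat_lit 3893472035941) (nat_lit 0) (node leaf (nat_lit 3893472036133) (nat_lit 0) leaf)) (nat_lit 3893472039205) (nat_lit 0) (node (node leaf (nat_lit 3893472068005) (nat_lit 0) leaf) (nat_lit 3893472330325) (nat_lit 0) (node leaf (nat_lit 3893472331045) (nat_lit 0) leaf)))))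

noncomputable def R0_194 : Tr := (node (node (node (node (node (node leaf (nat_lit 3893472346261) (nat_lit 0) leaf) (nat_lit 3893472793237) (nat_lit 0) leaf) (nat_lit 3893472797989) (nat_lit 0) (node leaf (nat_lit 3893472798085) (nat_lit 0) leaf)) (nat_lit 3893473904149) (nat_lit 0) (node (node leaf (nat_lit 3893473906837) (nat_lit 0) leaf) (nat_lit 3893475943717) (nat_lit 0) (node leaf (nat_lit 3893480194645) (nat_lit 0) leaf))) (nat_lit 3893524513813) (nat_lit 0) (node (node (node leaf (nat_lit 3893526534421) (nat_lit 0) leaf) (nat_lit 3893526564949) (nat_lit 0) (node leaf (nat_lit 3893526664213) (nat_lit 0) leaf)) (nat_lit 3893526859861) (nat_lit 0) (node (node leaf (nat_lit 3893526872341) (nat_lit 0) leaf) (nat_lit 3893527318933) (nat_lit 0) (node leaf (nat_lit 3893527320901) (nat_lit 0) leaf)))) (nat_lit 3893527323973) (nat_lit 0) (node (node (node (node leaf (nat_lit 3893527332433) (nat_lit 0) leaf) (nat_lit 3893527333189) (nat_lit 0) (node leaf (nat_lit 3893527339333) (nat_lit 0) leaf)) (nat_lit 3893527340101) (nat_lit 0)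 (node (node leaf (nat_lit 3893527351573) (nat_lit 0) leaf) (nat_lit 3893527352341) (nat_lit 0) (node leaf (nat_lit 3893527352389) (nat_lit 0) leaf))) (nat_lit 3893527380565) (nat_lit 0) (node (node (node leaf (nat_lit 3893527381141) (nat_lit 0) leaf) (nat_lit 3893527382341) (nat_lit 0) (node leaf (nat_lit 3893527382353) (nat_lit 0) leaf)) (nat_lit 3893527450645) (nat_lit 0) (node (node leaf (nat_lit 3893528445013) (nat_lit 0) leaf) (nat_lit 3893530792981) (nat_lit 0) (node leaf (nat_lit 3893531578453) (nat_lit 0) leaf)))))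

noncomputable def R0_195 : Tr := node R0_193 (nat_lit 3893472331333) (nat_lit 0) R0_194

noncomputable def R0_196 : Tr := node R0_192 (nat_lit 3893431111765) (nat_lit 0) R0_195

noncomputable def R0_197 : Tr := (node (node (node (node (node (node leaf (nat_lit 3893543052613) (nat_lit 0) leaf) (nat_lit 3893543060053) (nat_lit 0) leaf) (nat_lit 3893543060629) (nat_lit 0) (node leaf (nat_lit 3893543109205) (nat_lit 0) leaf)) (nat_lit 3893555957845) (nat_lit 0) (node (node leaf (nat_lit 3893556937813) (nat_lit 0) leaf) (nat_lit 3893927154709) (nat_lit 0) (node leaf (nat_lit 3893929187653) (nat_lit 0) leaf))) (nat_lit 3893929218325) (nat_lit 0) (node (node (node leaf (nat_lit 3893929219141) (nat_lit 0) leaf) (nat_lit 3893929316629) (nat_lit 0) (node leaf (nat_lit 3893929317397) (nat_lit 0) leaf)) (nat_lit 3893929513237) (nat_lit 0) (node (node leaf (nat_lit 3893929974085) (nat_lit 0) leaf) (nat_lit 3893929977109) (nat_lit 0) (node leaf (nat_lit 3893929977157) (nat_lit 0) leaf)))) (nat_lit 3893929984597) (nat_lit 0) (node (node (node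 (node (node leaf (nat_lit 3893929985173) (nat_lit 0) leaf) (nat_lit 3893930004757) (nat_lit 0) leaf) (nat_lit 3893931085909) (nat_lit 0) (node leaf (nat_lit 3893933445205) (nat_lit 0) leaf)) (nat_lit 3893933445397) (nat_lit 0) (node (node leaf (nat_lit 3893934425173) (nat_lit 0) leaf) (nat_lit 3893945700949) (nat_lit 0) (node leaf (nat_lit 3893945705749) (nat_lit 0) leaf))) (nat_lit 3893945713237) (nat_lit 0) (node (node (node leaf (nat_lit 3893958607957) (nat_lit 0) leaf) (nat_lit 3893959590229) (nat_lit 0) (node leaf (nat_lit 3894059270485) (nat_lit 0) leaf)) (nat_lit 3894060056917) (nat_lit 0) (node (node leaf (nat_lit 3986427218260) (nat_lit 0) leaf) (nat_lit 3986427220501) (nat_lit 0) (node leaf (nat_lit 3986427222100) (nat_lit 0) leaf)))))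

noncomputable def R0_198 : Tr := (node (node (node (node (node (node leaf (nat_lit 3986427232852) (nat_lit 0) leaf) (nat_lit 3986439555409) (nat_lit 0) leaf) (nat_lit 3986439562501) (nat_lit 0) (node leaf (nat_lit 3986439562513) (nat_lit 0) leaf)) (nat_lit 3986439562516) (nat_lit 0) (node (node leaf (nat_lit 3986439574597) (nat_lit 0) leaf) (nat_lit 3986439574609) (nat_lit 0) (node leaf (nat_lit 3986439574801) (nat_lit 0) leaf))) (nat_lit 3986439574804) (nat_lit 0) (node (node (node leaf (nat_lit 3986439606421) (nat_lit 0) leaf) (nat_lit 3986439606868) (nat_lit 0) (node leaf (nat_lit 3986439619621) (nat_lit 0) leaf)) (nat_lit 3986439685189) (nat_lit 0) (node (node leaf (nat_lit 3986439685381) (nat_lit 0) leaf) (nat_lit 3986439688453) (nat_lit 0) (node leaf (nat_lit 3986439688465) (nat_lit 0) leaf)))) (nat_lit 3986439800401) (nat_lit 0) (node (node (node (node leaf (nat_lit 3986439801169) (nat_lit 0) leaf) (nat_lit 3986439801172) (nat_lit 0) (node leaf (nat_lit 3986439803173) (nat_lit 0) leaf)) (nat_lit 3986439803476) (nat_lit 0)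 (node (node leaf (nat_lit 3986439805012) (nat_lit 0) leaf) (nat_lit 3986439808273) (nat_lit 0) (node leaf (nat_lit 3986439815317) (nat_lit 0) leaf))) (nat_lit 3986439815557) (nat_lit 0) (node (node (node leaf (nat_lit 3986439815764) (nat_lit 0) leaf) (nat_lit 3986439816229) (nat_lit 0) (node leaf (nat_lit 3986439864709) (nat_lit 0) leaf)) (nat_lit 3986439865381) (nat_lit 0) (node (node leaf (nat_lit 3986440066117) (nat_lit 0) leaf) (nat_lit 3986440066309) (nat_lit 0) (node leaf (nat_lit 3986440081477) (nat_lit 0) leaf)))))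

noncomputable def R0_199 : Tr := node R0_197 (nat_lit 3986427232405) (nat_lit 0) R0_198

noncomputable def R0_200 : Tr := (node (node (node (node (node (node leaf (nat_lit 3986440671301) (nat_lit 0) leaf) (nat_lit 3986440671493) (nat_lit 0) leaf) (nat_lit 3986443030597) (nat_lit 0) (node leaf (nat_lit 3986443030789) (nat_lit 0) leaf)) (nat_lit 3986443998277) (nat_lit 0) (node (node leaf (nat_lit 3986443998289) (nat_lit 0) leaf) (nat_lit 3986980929685) (nat_lit 0) (node leaf (nat_lit 3988037830165) (nat_lit 0) leaf))) (nat_lit 3988037830993) (nat_lit 0) (node (node (node leaf (nat_lit 3988037832853) (nat_lit 0) leaf) (nat_lit 3988037834833) (nat_lit 0) (node leaf (nat_lit 3988037845585) (nat_lit 0) leaf)) (nat_lit 3988050155857) (nat_lit 0) (node (node leaf (nat_lit 3988050170452) (nat_lit 0) leaf) (nat_lit 3988050175237) (nat_lit 0) (node leaf (nat_lit 3988050175249) (nat_lit 0) leaf)))) (nat_lit 3988050186565) (nat_lit 0) (node (node (node (node leaf (nat_lit 3988050187333) (nat_lit 0) leaf) (nat_lit 3988050187345) (nat_lit 0)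 (node leaf (nat_lit 3988050187537) (nat_lit 0) leaf)) (nat_lit 3988050216085) (nat_lit 0) (node (node leaf (nat_lit 3988050216529) (nat_lit 0) leaf) (nat_lit 3988050231445) (nat_lit 0) (node leaf (nat_lit 3988050231589) (nat_lit 0) leaf))) (nat_lit 3988050232357) (nat_lit 0) (node (node (node leaf (nat_lit 3988050285637) (nat_lit 0) leaf) (nat_lit 3988050297925) (nat_lit 0) (node leaf (nat_lit 3988050300997) (nat_lit 0) leaf)) (nat_lit 3988050301189) (nat_lit 0) (node (node leaf (nat_lit 3988050413125) (nat_lit 0) leaf) (nat_lit 3988050413893) (nat_lit 0) (node leaf (nat_lit 3988050413905) (nat_lit 0) leaf)))))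

noncomputable def R0_201 : Tr := (node (node (node (node (node (node leaf (nat_lit 3988050415717) (nat_lit 0) leaf) (nat_lit 3988050416209) (nat_lit 0) leaf) (nat_lit 3988050420997) (nat_lit 0) (node leaf (nat_lit 3988050428053) (nat_lit 0) leaf)) (nat_lit 3988050477205) (nat_lit 0) (node (node leaf (nat_lit 3988050678805) (nat_lit 0) leaf) (nat_lit 3988050678853) (nat_lit 0) (node leaf (nat_lit 3988050694165) (nat_lit 0) leaf))) (nat_lit 3988050694213) (nat_lit 0) (node (node (node leaf (nat_lit 3988051283989) (nat_lit 0) leaf) (nat_lit 3988051284037) (nat_lit 0) (node leaf (nat_lit 3988053643285) (nat_lit 0) leaf)) (nat_lit 3988053643333) (nat_lit 0) (node (node leaf (nat_lit 3988054610965) (nat_lit 0) leaf) (nat_lit 3988054611013) (nat_lit 0) (node leaf (nat_lit 3988188889237) (nat_lit 0) leaf)))) (nat_lit 3988440482389) (nat_lit 0) (node (node (node (node leaf (nat_lit 3988440482965) (nat_lit 0) leaf) (nat_lit 3988440484165) (nat_lit 0) (node leaf (nat_lit 3988440484177) (nat_lit 0) leaf)) (nat_lit 3988452809029) (nat_lit 0)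 (node (node leaf (nat_lit 3988452820117) (nat_lit 0) leaf) (nat_lit 3988452823633) (nat_lit 0) (node leaf (nat_lit 3988452828229) (nat_lit 0) leaf))) (nat_lit 3988452828241) (nat_lit 0) (node (node (node leaf (nat_lit 3988452839701) (nat_lit 0) leaf) (nat_lit 3988452840469) (nat_lit 0) (node leaf (nat_lit 3988452840517) (nat_lit 0) leaf)) (nat_lit 3988452840529) (nat_lit 0) (node (node leaf (nat_lit 3988452869701) (nat_lit 0) leaf) (nat_lit 3988452870469) (nat_lit 0) (node leaf (nat_lit 3988452870481) (nat_lit 0) leaf)))))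

noncomputable def R0_202 : Tr := node R0_200 (nat_lit 3988050413908) (nat_lit 0) R0_201

noncomputable def R0_203 : Tr := node R0_199 (nat_lit 3986440081669) (nat_lit 0) R0_202

noncomputable def R0_204 : Tr := node R0_196 (nat_lit 3893531775061) (nat_lit 0) R0_203

noncomputable def R0_205 : Tr := (node (node (node (node (node (node leaf (nat_lit 3988452872341) (nat_lit 0) leaf) (nat_lit 3988452872485) (nat_lit 0) leaf) (nat_lit 3988452872785) (nat_lit 0) (node leaf (nat_lit 3988452877573) (nat_lit 0) leaf)) (nat_lit 3988452938773) (nat_lit 0) (node (node leaf (nat_lit 3988452938821) (nat_lit 0) leaf) (nat_lit 3988452951109) (nat_lit 0) (node leaf (nat_lit 3988452954181) (nat_lit 0) leaf))) (nat_lit 3988453331221) (nat_lit 0) (node (node (node leaf (nat_lit 3988453331989) (nat_lit 0) leaf) (nat_lit 3988453344277) (nat_lit 0) (node leaf (nat_lit 3988453347349) (nat_lit 0) leaf)) (nat_lit 3988453934101) (nat_lit 0) (node (node leaf (nat_lit 3988453937173) (nat_lit 0) leaf) (nat_lit 3988456293397) (nat_lit 0) (node leaf (nat_lit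 3988456296469) (nat_lit 0) leaf)))) (nat_lit 3988457263381) (nat_lit 0) (node (node (node (node (node leaf (nat_lit 3988457264149) (nat_lit 0) leaf) (nat_lit 3988490879125) (nat_lit 0) leaf) (nat_lit 3988497990949) (nat_lit 0) (node leaf (nat_lit 3988497991237) (nat_lit 0) leaf)) (nat_lit 3988497991249) (nat_lit 0) (node (node leaf (nat_lit 3988497991252) (nat_lit 0) leaf) (nat_lit 3988497994117) (nat_lit 0) (node leaf (nat_lit 3988497994324) (nat_lit 0) leaf))) (nat_lit 3988497994885) (nat_lit 0) (node (node (node leaf (nat_lit 3988497995857) (nat_lit 0) leaf) (nat_lit 3988497999172) (nat_lit 0) (node leaf (nat_lit 3988498043233) (nat_lit 0) leaf)) (nat_lit 3988498043269) (nat_lit 0) (node (node leaf (nat_lit 3988498043284) (nat_lit 0) leaf) (nat_lit 3988498043413) (nat_lit 0) (node leaf (nat_lit 3988498043461) (nat_lit 0) leaf)))))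

noncomputable def R0_206 : Tr := (node (node (node (node (node (node leaf (nat_lit 3988498043977) (nat_lit 0) leaf) (nat_lit 3988498044037) (nat_lit 0) leaf) (nat_lit 3988498044193) (nat_lit 0) (node leaf (nat_lit 3988498160005) (nat_lit 0) leaf)) (nat_lit 3988498160212) (nat_lit 0) (node (node leaf (nat_lit 3988498162981) (nat_lit 0) leaf) (nat_lit 3988498163017) (nat_lit 0) (node leaf (nat_lit 3988498163077) (nat_lit 0) leaf))) (nat_lit 3988498163089) (nat_lit 0) (node (node (node leaf (nat_lit 3988498163221) (nat_lit 0) leaf) (nat_lit 3988498163269) (nat_lit 0) (node leaf (nat_lit 3988498163281) (nat_lit 0) leaf)) (nat_lit 3988498163284) (nat_lit 0) (node (node leaf (nat_lit 3988498170517) (nat_lit 0) leaf) (nat_lit 3988498172197) (nat_lit 0) (node leaf (nat_lit 3988498172293) (nat_lit 0) leaf)))) (nat_lit 3988498172500) (nat_lit 0) (node (node (node (node leaf (nat_lit 3988498179604) (nat_lit 0) leaf) (nat_lit 3988498187557) (nat_lit 0) (node leaf (nat_lit 3988498190629) (nat_lit 0) leaf)) (nat_lit 3988498190932) (nat_lit 0)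 (node (node leaf (nat_lit 3988498191397) (nat_lit 0) leaf) (nat_lit 3988498191493) (nat_lit 0) (node leaf (nat_lit 3988498192465) (nat_lit 0) leaf))) (nat_lit 3988498192468) (nat_lit 0) (node (node (node leaf (nat_lit 3988498192660) (nat_lit 0) leaf) (nat_lit 3988498219429) (nat_lit 0) (node leaf (nat_lit 3988498220197) (nat_lit 0) leaf)) (nat_lit 3988498221349) (nat_lit 0) (node (node leaf (nat_lit 3988498286929) (nat_lit 0) leaf) (nat_lit 3988498288741) (nat_lit 0) (node leaf (nat_lit 3988498289701) (nat_lit 0) leaf)))))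

noncomputable def R0_207 : Tr := node R0_205 (nat_lit 3988498043473) (nat_lit 0) R0_206

noncomputable def R0_208 : Tr := (node (node (node (node (node (node leaf (nat_lit 3988498290772) (nat_lit 0) leaf) (nat_lit 3988498301524) (nat_lit 0) leaf) (nat_lit 3988498433557) (nat_lit 0) (node leaf (nat_lit 3988498436245) (nat_lit 0) leaf)) (nat_lit 3988498482469) (nat_lit 0) (node (node leaf (nat_lit 3988498482709) (nat_lit 0) leaf) (nat_lit 3988498482757) (nat_lit 0) (node leaf (nat_lit 3988498482769) (nat_lit 0) leaf))) (nat_lit 3988498483537) (nat_lit 0) (node (node (node leaf (nat_lit 3988498485397) (nat_lit 0) leaf) (nat_lit 3988498485541) (nat_lit 0) (node leaf (nat_lit 3988498487377) (nat_lit 0) leaf)) (nat_lit 3988498490689) (nat_lit 0) (node (node leaf (nat_lit 3988498497685) (nat_lit 0) leaf) (nat_lit 3988498497925) (nat_lit 0) (node leaf (nat_lit 3988498498129) (nat_lit 0) leaf)))) (nat_lit 3988498498132) (nat_lit 0) (node (node (node (node leaf (nat_lit 3988498498597) (nat_lit 0) leaf) (nat_lit 3988498498693) (nat_lit 0)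 (node leaf (nat_lit 3988498499092) (nat_lit 0) leaf)) (nat_lit 3988498499665) (nat_lit 0) (node (node leaf (nat_lit 3988498499668) (nat_lit 0) leaf) (nat_lit 3988498499908) (nat_lit 0) (node leaf (nat_lit 3988498501669) (nat_lit 0) leaf))) (nat_lit 3988498501729) (nat_lit 0) (node (node (node leaf (nat_lit 3988498501780) (nat_lit 0) leaf) (nat_lit 3988498501897) (nat_lit 0) (node leaf (nat_lit 3988498506049) (nat_lit 0) leaf)) (nat_lit 3988498515217) (nat_lit 0) (node (node leaf (nat_lit 3988498515265) (nat_lit 0) leaf) (nat_lit 3988498949413) (nat_lit 0) (node leaf (nat_lit 3988498949449) (nat_lit 0) leaf)))))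

noncomputable def R0_209 : Tr := (node (node (node (node (node (node leaf (nat_lit 3988498956949) (nat_lit 0) leaf) (nat_lit 3988498958725) (nat_lit 0) leaf) (nat_lit 3988498958740) (nat_lit 0) (node leaf (nat_lit 3988498958932) (nat_lit 0) leaf)) (nat_lit 3988498964773) (nat_lit 0) (node (node leaf (nat_lit 3988498965652) (nat_lit 0) leaf) (nat_lit 3988498977172) (nat_lit 0) (node leaf (nat_lit 3988498977364) (nat_lit 0) leaf))) (nat_lit 3988498977829) (nat_lit 0) (node (node (node leaf (nat_lit 3988498977865) (nat_lit 0) leaf) (nat_lit 3988498978057) (nat_lit 0) (node leaf (nat_lit 3988499006629) (nat_lit 0) leaf)) (nat_lit 3988499007124) (nat_lit 0) (node (node leaf (nat_lit 3988499007781) (nat_lit 0) leaf) (nat_lit 3988500026641) (nat_lit 0) (node leaf (nat_lit 3988500026689) (nat_lit 0) leaf)))) (nat_lit 3988500055573) (nat_lit 0) (node (node (node (node leaf (nat_lit 3988500055621) (nat_lit 0) leaf) (nat_lit 3988500056389) (nat_lit 0) (node leaf (nat_lit 3988500058213) (nat_lit 0) leaf)) (nat_lit 3988500058261) (nat_lit 0)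 (node (node leaf (nat_lit 3988500060241) (nat_lit 0) leaf) (nat_lit 3988500070549) (nat_lit 0) (node leaf (nat_lit 3988500070693) (nat_lit 0) leaf))) (nat_lit 3988500070789) (nat_lit 0) (node (node (node leaf (nat_lit 3988500070993) (nat_lit 0) leaf) (nat_lit 3988500071461) (nat_lit 0) (node leaf (nat_lit 3988500252997) (nat_lit 0) leaf)) (nat_lit 3988500256849) (nat_lit 0) (node (node leaf (nat_lit 3988500267601) (nat_lit 0) leaf) (nat_lit 3988502110501) (nat_lit 0) (node leaf (nat_lit 3988502153509) (nat_lit 0) leaf)))))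

noncomputable def R0_210 : Tr := node R0_208 (nat_lit 3988498949521) (nat_lit 0) R0_209

noncomputable def R0_211 : Tr := node R0_207 (nat_lit 3988498289929) (nat_lit 0) R0_210

noncomputable def R0_212 : Tr := (node (node (node (node (node (node leaf (nat_lit 3988506318085) (nat_lit 0) leaf) (nat_lit 3988506318097) (nat_lit 0) leaf) (nat_lit 3988506346069) (nat_lit 0) (node leaf (nat_lit 3988506346645) (nat_lit 0) leaf)) (nat_lit 3988506347029) (nat_lit 0) (node (node leaf (nat_lit 3988506347857) (nat_lit 0) leaf) (nat_lit 3988506349717) (nat_lit 0) (node leaf (nat_lit 3988506361957) (nat_lit 0) leaf))) (nat_lit 3988506362005) (nat_lit 0) (node (node (node leaf (nat_lit 3988506544465) (nat_lit 0) leaf) (nat_lit 3988515755269) (nat_lit 0) (node leaf (nat_lit 3988515755281) (nat_lit 0) leaf)) (nat_lit 3988515786901) (nat_lit 0) (node (node leaf (nat_lit 3988515799141) (nat_lit 0) leaf) (nat_lit 3988515799189) (nat_lit 0) (node leaf (nat_lit 3988515981649) (nat_lit 0) leaf)))) (nat_lit 3988515995797) (nat_lit 0) (node (node (node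 (node leaf (nat_lit 3988518930757) (nat_lit 0) leaf) (nat_lit 3988519127365) (nat_lit 0) (node leaf (nat_lit 3988550668309) (nat_lit 0) leaf)) (nat_lit 3988552716565) (nat_lit 0) (node (node leaf (nat_lit 3988552717333) (nat_lit 0) leaf) (nat_lit 3988553011477) (nat_lit 0) (node leaf (nat_lit 3988553012245) (nat_lit 0) leaf))) (nat_lit 3988553024533) (nat_lit 0) (node (node (node leaf (nat_lit 3988553472277) (nat_lit 0) leaf) (nat_lit 3988553482645) (nat_lit 0) (node leaf (nat_lit 3988553483857) (nat_lit 0) leaf)) (nat_lit 3988553484613) (nat_lit 0) (node (node leaf (nat_lit 3988553490757) (nat_lit 0) leaf) (nat_lit 3988553491525) (nat_lit 0) (node leaf (nat_lit 3988553491717) (nat_lit 0) leaf)))))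

noncomputable def R0_213 : Tr := (node (node (node (node (node (node leaf (nat_lit 3988553503813) (nat_lit 0) leaf) (nat_lit 3988553504005) (nat_lit 0) leaf) (nat_lit 3988553532565) (nat_lit 0) (node leaf (nat_lit 3988553533009) (nat_lit 0) leaf)) (nat_lit 3988553533765) (nat_lit 0) (node (node leaf (nat_lit 3988553602069) (nat_lit 0) leaf) (nat_lit 3988553602117) (nat_lit 0) (node leaf (nat_lit 3988554596629) (nat_lit 0) leaf))) (nat_lit 3988557730069) (nat_lit 0) (node (node (node leaf (nat_lit 3988557730837) (nat_lit 0) leaf) (nat_lit 3988557926677) (nat_lit 0) (node leaf (nat_lit 3988566114901) (nat_lit 0) leaf)) (nat_lit 3988566115477) (nat_lit 0) (node (node leaf (nat_lit 3988566116677) (nat_lit 0) leaf) (nat_lit 3988566116689) (nat_lit 0) (node leaf (nat_lit 3988569204049) (nat_lit 0) leaf)))) (nat_lit 3988569260629) (nat_lit 0) (node (node (node (node leaf (nat_lit 3988569261205) (nat_lit 0) leaf) (nat_lit 3988569457237) (nat_lit 0) (node leaf (nat_lit 3988582895701) (nat_lit 0) leaf)) (nat_lit 3988582895893) (nat_lit 0)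 (node (node leaf (nat_lit 3994430013589) (nat_lit 0) leaf) (nat_lit 3994492606789) (nat_lit 0) (node leaf (nat_lit 3994492617877) (nat_lit 0) leaf))) (nat_lit 3994492618321) (nat_lit 0) (node (node (node leaf (nat_lit 3994492618324) (nat_lit 0) leaf) (nat_lit 3994492625989) (nat_lit 0) (node leaf (nat_lit 3994492626181) (nat_lit 0) leaf)) (nat_lit 3994492637461) (nat_lit 0) (node (node leaf (nat_lit 3994492638277) (nat_lit 0) leaf) (nat_lit 3994492638289) (nat_lit 0) (node leaf (nat_lit 3994492668229) (nat_lit 0) leaf)))))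

noncomputable def R0_214 : Tr := node R0_212 (nat_lit 3988553503765) (nat_lit 0) R0_213

noncomputable def R0_215 : Tr := (node (node (node (node (node (node leaf (nat_lit 3994492668244) (nat_lit 0) leaf) (nat_lit 3994492670101) (nat_lit 0) leaf) (nat_lit 3994492670245) (nat_lit 0) (node leaf (nat_lit 3994492670545) (nat_lit 0) leaf)) (nat_lit 3994492675333) (nat_lit 0) (node (node leaf (nat_lit 3994492682533) (nat_lit 0) leaf) (nat_lit 3994492736533) (nat_lit 0) (node leaf (nat_lit 3994492748821) (nat_lit 0) leaf))) (nat_lit 3994492751893) (nat_lit 0) (node (node (node leaf (nat_lit 3994492751941) (nat_lit 0) leaf) (nat_lit 3994492864021) (nat_lit 0) (node leaf (nat_lit 3994492866709) (nat_lit 0) leaf)) (nat_lit 3994492878997) (nat_lit 0) (node (node leaf (nat_lit 3994493128981) (nat_lit 0) leaf) (nat_lit 3994493142037) (nat_lit 0) (node leaf (nat_lit 3994493142085) (nat_lit 0) leaf)))) (nat_lit 3994493731861) (nat_lit 0) (node (node (node (node leaf (nat_lit 3994493731909) (nat_lit 0) leaf) (nat_lit 3994496091157) (nat_lit 0)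 (node leaf (nat_lit 3994496091205) (nat_lit 0) leaf)) (nat_lit 3994497061141) (nat_lit 0) (node (node leaf (nat_lit 3994497061189) (nat_lit 0) leaf) (nat_lit 3994895258773) (nat_lit 0) (node leaf (nat_lit 3994895259925) (nat_lit 0) leaf))) (nat_lit 3994895271505) (nat_lit 0) (node (node (node leaf (nat_lit 3994895272261) (nat_lit 0) leaf) (nat_lit 3994895274577) (nat_lit 0) (node leaf (nat_lit 3994895278405) (nat_lit 0) leaf)) (nat_lit 3994895279173) (nat_lit 0) (node (node leaf (nat_lit 3994895279365) (nat_lit 0) leaf) (nat_lit 3994895290453) (nat_lit 0) (node leaf (nat_lit 3994895291413) (nat_lit 0) leaf)))))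

noncomputable def R0_216 : Tr := (node (node (node (node (node (node leaf (nat_lit 3994895320213) (nat_lit 0) leaf) (nat_lit 3994895320597) (nat_lit 0) leaf) (nat_lit 3994895321413) (nat_lit 0) (node leaf (nat_lit 3994895323237) (nat_lit 0) leaf)) (nat_lit 3994895323285) (nat_lit 0) (node (node leaf (nat_lit 3994895335525) (nat_lit 0) leaf) (nat_lit 3994895335573) (nat_lit 0) (node leaf (nat_lit 3994895388949) (nat_lit 0) leaf))) (nat_lit 3994895389717) (nat_lit 0) (node (node (node leaf (nat_lit 3994895402005) (nat_lit 0) leaf) (nat_lit 3994895402053) (nat_lit 0) (node leaf (nat_lit 3994895781973) (nat_lit 0) leaf)) (nat_lit 3994895794453) (nat_lit 0) (node (node leaf (nat_lit 3994895795221) (nat_lit 0) leaf) (nat_lit 3994896384277) (nat_lit 0) (node leaf (nat_lit 3994896385045) (nat_lit 0) leaf)))) (nat_lit 3994898743573) (nat_lit 0) (node (node (node (node leaf (nat_lit 3994898744341) (nat_lit 0) leaf) (nat_lit 3994899714133) (nat_lit 0) (node leaf (nat_lit 3994899714325) (nat_lit 0) leaf)) (nat_lit 3994933280917) (nat_lit 0)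 (node (node leaf (nat_lit 3994940417413) (nat_lit 0) leaf) (nat_lit 3994940417557) (nat_lit 0) (node leaf (nat_lit 3994940424853) (nat_lit 0) leaf))) (nat_lit 3994940426629) (nat_lit 0) (node (node (node leaf (nat_lit 3994940441893) (nat_lit 0) leaf) (nat_lit 3994940441989) (nat_lit 0) (node leaf (nat_lit 3994940442133) (nat_lit 0) leaf)) (nat_lit 3994940442181) (nat_lit 0) (node (node leaf (nat_lit 3994940442193) (nat_lit 0) leaf) (nat_lit 3994940445061) (nat_lit 0) (node leaf (nat_lit 3994940445829) (nat_lit 0) leaf)))))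

noncomputable def R0_217 : Tr := node R0_215 (nat_lit 3994895291461) (nat_lit 0) R0_216

noncomputable def R0_218 : Tr := node R0_214 (nat_lit 3994492668241) (nat_lit 0) R0_217

noncomputable def R0_219 : Tr := node R0_211 (nat_lit 3988502348197) (nat_lit 0) R0_218

noncomputable def R0_220 : Tr := node R0_204 (nat_lit 3988452872293) (nat_lit 0) R0_219

noncomputable def R0_221 : Tr := (node (node (node (node (node (node leaf (nat_lit 3994940450113) (nat_lit 0) leaf) (nat_lit 3994940491285) (nat_lit 0) leaf) (nat_lit 3994940493973) (nat_lit 0) (node leaf (nat_lit 3994940494117) (nat_lit 0) leaf)) (nat_lit 3994940494153) (nat_lit 0) (node (node leaf (nat_lit 3994940494213) (nat_lit 0) leaf) (nat_lit 3994940494225) (nat_lit 0) (node leaf (nat_lit 3994940494357) (nat_lit 0) leaf))) (nat_lit 3994940494405) (nat_lit 0) (node (node (node leaf (nat_lit 3994940494945) (nat_lit 0) leaf) (nat_lit 3994940613925) (nat_lit 0) (node leaf (nat_lit 3994940614021) (nat_lit 0) leaf)) (nat_lit 3994940614165) (nat_lit 0) (node (node leaf (nat_lit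 3994940614213) (nat_lit 0) leaf) (nat_lit 3994940614225) (nat_lit 0) (node leaf (nat_lit 3994940623141) (nat_lit 0) leaf)))) (nat_lit 3994940623237) (nat_lit 0) (node (node (node (node (node leaf (nat_lit 3994940638501) (nat_lit 0) leaf) (nat_lit 3994940641573) (nat_lit 0) leaf) (nat_lit 3994940641684) (nat_lit 0) (node leaf (nat_lit 3994940641876) (nat_lit 0) leaf)) (nat_lit 3994940642341) (nat_lit 0) (node (node leaf (nat_lit 3994940642377) (nat_lit 0) leaf) (nat_lit 3994940643409) (nat_lit 0) (node leaf (nat_lit 3994940670373) (nat_lit 0) leaf))) (nat_lit 3994940672293) (nat_lit 0) (node (node (node leaf (nat_lit 3994940739877) (nat_lit 0) leaf) (nat_lit 3994940740681) (nat_lit 0) (node leaf (nat_lit 3994940883541) (nat_lit 0) leaf)) (nat_lit 3994940884117) (nat_lit 0) (node (node leaf (nat_lit 3994940932693) (nat_lit 0) leaf) (nat_lit 3994940933413) (nat_lit 0) (node leaf (nat_lit 3994940933653) (nat_lit 0) leaf)))))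

noncomputable def R0_222 : Tr := (node (node (node (node (node (node leaf (nat_lit 3994940936341) (nat_lit 0) leaf) (nat_lit 3994940938321) (nat_lit 0) leaf) (nat_lit 3994940941585) (nat_lit 0) (node leaf (nat_lit 3994940941633) (nat_lit 0) leaf)) (nat_lit 3994940948629) (nat_lit 0) (node (node leaf (nat_lit 3994940949073) (nat_lit 0) leaf) (nat_lit 3994940949652) (nat_lit 0) (node leaf (nat_lit 3994940950033) (nat_lit 0) leaf))) (nat_lit 3994940950609) (nat_lit 0) (node (node (node leaf (nat_lit 3994940952613) (nat_lit 0) leaf) (nat_lit 3994940966149) (nat_lit 0) (node leaf (nat_lit 3994940966161) (nat_lit 0) leaf)) (nat_lit 3994941395605) (nat_lit 0) (node (node leaf (nat_lit 3994941397396) (nat_lit 0) leaf) (nat_lit 3994941397588) (nat_lit 0) (node leaf (nat_lit 3994941400357) (nat_lit 0) leaf)))) (nat_lit 3994941400453) (nat_lit 0) (node (node (node (node leaf (nat_lit 3994941428809) (nat_lit 0) leaf) (nat_lit 3994941456805) (nat_lit 0) (node leaf (nat_lit 3994942477573) (nat_lit 0) leaf)) (nat_lit 3994942477585) (nat_lit 0)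 (node (node leaf (nat_lit 3994942505557) (nat_lit 0) leaf) (nat_lit 3994942506133) (nat_lit 0) (node leaf (nat_lit 3994942506517) (nat_lit 0) leaf))) (nat_lit 3994942507345) (nat_lit 0) (node (node (node leaf (nat_lit 3994942509205) (nat_lit 0) leaf) (nat_lit 3994942511185) (nat_lit 0) (node leaf (nat_lit 3994942521937) (nat_lit 0) leaf)) (nat_lit 3994944546085) (nat_lit 0) (node (node leaf (nat_lit 3994948747861) (nat_lit 0) leaf) (nat_lit 3994948748437) (nat_lit 0) (node leaf (nat_lit 3994948768837) (nat_lit 0) leaf)))))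

noncomputable def R0_223 : Tr := node R0_221 (nat_lit 3994940933701) (nat_lit 0) R0_222

noncomputable def R0_224 : Tr := (node (node (node (node (node (node leaf (nat_lit 3994948797013) (nat_lit 0) leaf) (nat_lit 3994948798789) (nat_lit 0) leaf) (nat_lit 3994948798801) (nat_lit 0) (node leaf (nat_lit 3994958206021) (nat_lit 0) leaf)) (nat_lit 3994958206213) (nat_lit 0) (node (node leaf (nat_lit 3994958235973) (nat_lit 0) leaf) (nat_lit 3994958235985) (nat_lit 0) (node leaf (nat_lit 3994958250133) (nat_lit 0) leaf))) (nat_lit 3994993116181) (nat_lit 0) (node (node (node leaf (nat_lit 3994995136789) (nat_lit 0) leaf) (nat_lit 3994995167317) (nat_lit 0) (node leaf (nat_lit 3994995168277) (nat_lit 0) leaf)) (nat_lit 3994995462229) (nat_lit 0) (node (node leaf (nat_lit 3994995474709) (nat_lit 0) leaf) (nat_lit 3994995921301) (nat_lit 0) (node leaf (nat_lit 3994995923269) (nat_lit 0) leaf)))) (nat_lit 3994995926341) (nat_lit 0) (node (node (node (node leaf (nat_lit 3994995934357) (nat_lit 0) leaf) (nat_lit 3994995934801) (nat_lit 0)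 (node leaf (nat_lit 3994995935557) (nat_lit 0) leaf)) (nat_lit 3994995941701) (nat_lit 0) (node (node leaf (nat_lit 3994995942469) (nat_lit 0) leaf) (nat_lit 3994995953989) (nat_lit 0) (node leaf (nat_lit 3994995954757) (nat_lit 0) leaf))) (nat_lit 3994995982933) (nat_lit 0) (node (node (node leaf (nat_lit 3994995983509) (nat_lit 0) leaf) (nat_lit 3994995984709) (nat_lit 0) (node leaf (nat_lit 3994995984721) (nat_lit 0) leaf)) (nat_lit 3994996052245) (nat_lit 0) (node (node leaf (nat_lit 3994996053013) (nat_lit 0) leaf) (nat_lit 3994997047381) (nat_lit 0) (node leaf (nat_lit 3994999395349) (nat_lit 0) leaf)))))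

noncomputable def R0_225 : Tr := (node (node (node (node (node (node leaf (nat_lit 3995000377429) (nat_lit 0) leaf) (nat_lit 3995011654981) (nat_lit 0) leaf) (nat_lit 3995011662421) (nat_lit 0) (node leaf (nat_lit 3995011662997) (nat_lit 0) leaf)) (nat_lit 3995011711573) (nat_lit 0) (node (node leaf (nat_lit 3995024560213) (nat_lit 0) leaf) (nat_lit 3995025346645) (nat_lit 0) (node leaf (nat_lit 3995666130244) (nat_lit 0) leaf))) (nat_lit 3995666523457) (nat_lit 0) (node (node (node leaf (nat_lit 3995671242049) (nat_lit 0) leaf) (nat_lit 3995695621441) (nat_lit 0) (node leaf (nat_lit 3995796088129) (nat_lit 0) leaf)) (nat_lit 3995947083073) (nat_lit 0) (node (node leaf (nat_lit 3996505872709) (nat_lit 0) leaf) (nat_lit 3996505884229) (nat_lit 0) (node leaf (nat_lit 3996505884997) (nat_lit 0) leaf)))) (nat_lit 3996505886821) (nat_lit 0) (node (node (node (node leaf (nat_lit 3996505886869) (nat_lit 0) leaf) (nat_lit 3996505887301) (nat_lit 0) (node leaf (nat_lit 3996505891093) (nat_lit 0) leaf)) (nat_lit 3996505891141) (nat_lit 0)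 (node (node leaf (nat_lit 3996505891909) (nat_lit 0) leaf) (nat_lit 3996505903381) (nat_lit 0) (node leaf (nat_lit 3996505904149) (nat_lit 0) leaf))) (nat_lit 3996505904197) (nat_lit 0) (node (node (node leaf (nat_lit 3996505904389) (nat_lit 0) leaf) (nat_lit 3996505932373) (nat_lit 0) (node leaf (nat_lit 3996505934149) (nat_lit 0) leaf)) (nat_lit 3996505934161) (nat_lit 0) (node (node leaf (nat_lit 3996505935973) (nat_lit 0) leaf) (nat_lit 3996505936021) (nat_lit 0) (node leaf (nat_lit 3996505948309) (nat_lit 0) leaf)))))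

noncomputable def R0_226 : Tr := node R0_224 (nat_lit 3995000180821) (nat_lit 0) R0_225

noncomputable def R0_227 : Tr := node R0_223 (nat_lit 3994948769029) (nat_lit 0) R0_226

noncomputable def R0_228 : Tr := (node (node (node (node (node (node leaf (nat_lit 3996506002453) (nat_lit 0) leaf) (nat_lit 3996506014741) (nat_lit 0) leaf) (nat_lit 3996506394901) (nat_lit 0) (node leaf (nat_lit 3996506407189) (nat_lit 0) leaf)) (nat_lit 3996506984725) (nat_lit 0) (node (node leaf (nat_lit 3996506997013) (nat_lit 0) leaf) (nat_lit 3996509344021) (nat_lit 0) (node leaf (nat_lit 3996509356309) (nat_lit 0) leaf))) (nat_lit 3996510326869) (nat_lit 0) (node (node (node leaf (nat_lit 3996538523797) (nat_lit 0) leaf) (nat_lit 3996538913365) (nat_lit 0) (node leaf (nat_lit 3996538913941) (nat_lit 0) leaf)) (nat_lit 3996538962517) (nat_lit 0) (node (node leaf (nat_lit 3996543631957) (nat_lit 0) leaf) (nat_lit 3996543632533) (nat_lit 0) (node leaf (nat_lit 3996543681109) (nat_lit 0) leaf)))) (nat_lit 3996550980997) (nat_lit 0) (node (node (node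 (node (node leaf (nat_lit 3996550981141) (nat_lit 0) leaf) (nat_lit 3996551025301) (nat_lit 0) leaf) (nat_lit 3996551030053) (nat_lit 0) (node leaf (nat_lit 3996551030293) (nat_lit 0) leaf)) (nat_lit 3996551053909) (nat_lit 0) (node (node leaf (nat_lit 3996551054725) (nat_lit 0) leaf) (nat_lit 3996551054869) (nat_lit 0) (node leaf (nat_lit 3996551103061) (nat_lit 0) leaf))) (nat_lit 3996551104021) (nat_lit 0) (node (node (node leaf (nat_lit 3996551106709) (nat_lit 0) leaf) (nat_lit 3996551221909) (nat_lit 0) (node leaf (nat_lit 3996551226517) (nat_lit 0) leaf)) (nat_lit 3996551226757) (nat_lit 0) (node (node leaf (nat_lit 3996551226901) (nat_lit 0) leaf) (nat_lit 3996551251237) (nat_lit 0) (node leaf (nat_lit 3996552013093) (nat_lit 0) leaf)))))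

noncomputable def R0_229 : Tr := (node (node (node (node (node (node leaf (nat_lit 3996605749573) (nat_lit 0) leaf) (nat_lit 3996605780245) (nat_lit 0) leaf) (nat_lit 3996605781061) (nat_lit 0) (node leaf (nat_lit 3996605878549) (nat_lit 0) leaf)) (nat_lit 3996605879317) (nat_lit 0) (node (node leaf (nat_lit 3996606075157) (nat_lit 0) leaf) (nat_lit 3996606536005) (nat_lit 0) (node leaf (nat_lit 3996606539029) (nat_lit 0) leaf))) (nat_lit 3996606539077) (nat_lit 0) (node (node (node leaf (nat_lit 3996606546517) (nat_lit 0) leaf) (nat_lit 3996606547093) (nat_lit 0) (node leaf (nat_lit 3996606548293) (nat_lit 0) leaf)) (nat_lit 3996606554437) (nat_lit 0) (node (node leaf (nat_lit 3996606566677) (nat_lit 0) leaf) (nat_lit 3996606597445) (nat_lit 0) (node leaf (nat_lit 3996607647829) (nat_lit 0) leaf)))) (nat_lit 3996610007125) (nat_lit 0) (node (node (node (node leaf (nat_lit 3996610007317) (nat_lit 0) leaf) (nat_lit 3996610987093) (nat_lit 0) (node leaf (nat_lit 3996619178581) (nat_lit 0) leaf)) (nat_lit 3996622262869) (nat_lit 0)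 (node (node leaf (nat_lit 3996622263445) (nat_lit 0) leaf) (nat_lit 3996622267669) (nat_lit 0) (node leaf (nat_lit 3996635169877) (nat_lit 0) leaf))) (nat_lit 3996635956309) (nat_lit 0) (node (node (node leaf (nat_lit 3997006369045) (nat_lit 0) leaf) (nat_lit 3997008206149) (nat_lit 0) (node leaf (nat_lit 3997008236821) (nat_lit 0) leaf)) (nat_lit 3997008286741) (nat_lit 0) (node (node leaf (nat_lit 3997008405781) (nat_lit 0) leaf) (nat_lit 3997008405829) (nat_lit 0) (node leaf (nat_lit 3997008413269) (nat_lit 0) leaf)))))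

noncomputable def R0_230 : Tr := node R0_228 (nat_lit 3996603728149) (nat_lit 0) R0_229

noncomputable def R0_231 : Tr := (node (node (node (node (node (node leaf (nat_lit 3997008531541) (nat_lit 0) leaf) (nat_lit 3997008728149) (nat_lit 0) leaf) (nat_lit 3997009187989) (nat_lit 0) (node leaf (nat_lit 3997009189141) (nat_lit 0) leaf)) (nat_lit 3997010297941) (nat_lit 0) (node (node leaf (nat_lit 3997012657237) (nat_lit 0) leaf) (nat_lit 3997012660309) (nat_lit 0) (node leaf (nat_lit 3997013639509) (nat_lit 0) leaf))) (nat_lit 3997021770325) (nat_lit 0) (node (node (node leaf (nat_lit 3997021775125) (nat_lit 0) leaf) (nat_lit 3997021782613) (nat_lit 0) (node leaf (nat_lit 3997037822293) (nat_lit 0) leaf)) (nat_lit 3997038608725) (nat_lit 0) (node (node leaf (nat_lit 3997138436437) (nat_lit 0) leaf) (nat_lit 3997139222869) (nat_lit 0) (node leaf (nat_lit 4020199768213) (nat_lit 0) leaf)))) (nat_lit 4020262422097) (nat_lit 0) (node (node (node (node leaf (nat_lit 4020262422853) (nat_lit 0) leaf) (nat_lit 4020262422868) (nat_lit 0)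 (node leaf (nat_lit 4020262424869) (nat_lit 0) leaf)) (nat_lit 4020262425169) (nat_lit 0) (node (node leaf (nat_lit 4020262428997) (nat_lit 0) leaf) (nat_lit 4020262429765) (nat_lit 0) (node leaf (nat_lit 4020262429957) (nat_lit 0) leaf))) (nat_lit 4020262442005) (nat_lit 0) (node (node (node leaf (nat_lit 4020262442053) (nat_lit 0) leaf) (nat_lit 4020262470805) (nat_lit 0) (node leaf (nat_lit 4020262472005) (nat_lit 0) leaf)) (nat_lit 4020262473877) (nat_lit 0) (node (node leaf (nat_lit 4020262474021) (nat_lit 0) leaf) (nat_lit 4020262551829) (nat_lit 0) (node leaf (nat_lit 4020262552597) (nat_lit 0) leaf)))))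

noncomputable def R0_232 : Tr := (node (node (node (node (node (node leaf (nat_lit 4020262666837) (nat_lit 0) leaf) (nat_lit 4020262670485) (nat_lit 0) leaf) (nat_lit 4020262933525) (nat_lit 0) (node leaf (nat_lit 4020262945813) (nat_lit 0) leaf)) (nat_lit 4020263523349) (nat_lit 0) (node (node leaf (nat_lit 4020263535637) (nat_lit 0) leaf) (nat_lit 4020265882645) (nat_lit 0) (node leaf (nat_lit 4020265894933) (nat_lit 0) leaf))) (nat_lit 4020665074837) (nat_lit 0) (node (node (node leaf (nat_lit 4020665075269) (nat_lit 0) leaf) (nat_lit 4020665075989) (nat_lit 0) (node leaf (nat_lit 4020665076037) (nat_lit 0) leaf)) (nat_lit 4020665077861) (nat_lit 0) (node (node leaf (nat_lit 4020665078341) (nat_lit 0) leaf) (nat_lit 4020665082133) (nat_lit 0) (node leaf (nat_lit 4020665082181) (nat_lit 0) leaf)))) (nat_lit 4020665082949) (nat_lit 0) (node (node (node (node leaf (nat_lit 4020665094421) (nat_lit 0) leaf) (nat_lit 4020665095189) (nat_lit 0) (node leaf (nat_lit 4020665123413) (nat_lit 0) leaf)) (nat_lit 4020665123989) (nat_lit 0)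 (node (node leaf (nat_lit 4020665127013) (nat_lit 0) leaf) (nat_lit 4020665127061) (nat_lit 0) (node leaf (nat_lit 4020665192725) (nat_lit 0) leaf))) (nat_lit 4020665205013) (nat_lit 0) (node (node (node leaf (nat_lit 4020665205781) (nat_lit 0) leaf) (nat_lit 4020665585941) (nat_lit 0) (node leaf (nat_lit 4020665598229) (nat_lit 0) leaf)) (nat_lit 4020666175765) (nat_lit 0) (node (node leaf (nat_lit 4020666188053) (nat_lit 0) leaf) (nat_lit 4020668535061) (nat_lit 0) (node leaf (nat_lit 4020668547349) (nat_lit 0) leaf)))))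

noncomputable def R0_233 : Tr := node R0_231 (nat_lit 4020262552645) (nat_lit 0) R0_232

noncomputable def R0_234 : Tr := node R0_230 (nat_lit 3997008433429) (nat_lit 0) R0_233

noncomputable def R0_235 : Tr := node R0_227 (nat_lit 3996506001685) (nat_lit 0) R0_234

noncomputable def R0_236 : Tr := (node (node (node (node (node (node leaf (nat_lit 4020710172181) (nat_lit 0) leaf) (nat_lit 4020710216341) (nat_lit 0) leaf) (nat_lit 4020710220949) (nat_lit 0) (node leaf (nat_lit 4020710221093) (nat_lit 0) leaf)) (nat_lit 4020710221189) (nat_lit 0) (node (node leaf (nat_lit 4020710221333) (nat_lit 0) leaf) (nat_lit 4020710221381) (nat_lit 0) (node leaf (nat_lit 4020710230405) (nat_lit 0) leaf))) (nat_lit 4020710245669) (nat_lit 0) (node (node (node leaf (nat_lit 4020710245765) (nat_lit 0) leaf) (nat_lit 4020710245909) (nat_lit 0) (node leaf (nat_lit 4020710245957) (nat_lit 0) leaf)) (nat_lit 4020710248837) (nat_lit 0) (node (node leaf (nat_lit 4020710248852) (nat_lit 0) leaf) (nat_lit 4020710249509) (nat_lit 0) (node leaf (nat_lit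 4020710249545) (nat_lit 0) leaf)))) (nat_lit 4020710250577) (nat_lit 0) (node (node (node (node (node leaf (nat_lit 4020710250769) (nat_lit 0) leaf) (nat_lit 4020710253841) (nat_lit 0) leaf) (nat_lit 4020710253889) (nat_lit 0) (node leaf (nat_lit 4020710294101) (nat_lit 0) leaf)) (nat_lit 4020710294677) (nat_lit 0) (node (node leaf (nat_lit 4020710295061) (nat_lit 0) leaf) (nat_lit 4020710297749) (nat_lit 0) (node leaf (nat_lit 4020710297989) (nat_lit 0) leaf))) (nat_lit 4020710298133) (nat_lit 0) (node (node (node leaf (nat_lit 4020710298661) (nat_lit 0) leaf) (nat_lit 4020710414740) (nat_lit 0) (node leaf (nat_lit 4020710414932) (nat_lit 0) leaf)) (nat_lit 4020710417701) (nat_lit 0) (node (node leaf (nat_lit 4020710417797) (nat_lit 0) leaf) (nat_lit 4020710417989) (nat_lit 0) (node leaf (nat_lit 4020710426917) (nat_lit 0) leaf)))))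

noncomputable def R0_237 : Tr := (node (node (node (node (node (node leaf (nat_lit 4020710445649) (nat_lit 0) leaf) (nat_lit 4020710474149) (nat_lit 0) leaf) (nat_lit 4020710675029) (nat_lit 0) (node leaf (nat_lit 4020710675605) (nat_lit 0) leaf)) (nat_lit 4020710687317) (nat_lit 0) (node (node leaf (nat_lit 4020710690965) (nat_lit 0) leaf) (nat_lit 4020710736469) (nat_lit 0) (node leaf (nat_lit 4020710737429) (nat_lit 0) leaf))) (nat_lit 4020710738257) (nat_lit 0) (node (node (node leaf (nat_lit 4020710740117) (nat_lit 0) leaf) (nat_lit 4020710740561) (nat_lit 0) (node leaf (nat_lit 4020710742097) (nat_lit 0) leaf)) (nat_lit 4020710745169) (nat_lit 0) (node (node leaf (nat_lit 4020710745361) (nat_lit 0) leaf) (nat_lit 4020710752849) (nat_lit 0) (node leaf (nat_lit 4020710753317) (nat_lit 0) leaf)))) (nat_lit 4020710769733) (nat_lit 0) (node (node (node (node leaf (nat_lit 4020710769925) (nat_lit 0) leaf) (nat_lit 4020711196309) (nat_lit 0) (node leaf (nat_lit 4020711204133) (nat_lit 0) leaf)) (nat_lit 4020712260181) (nat_lit 0)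 (node (node leaf (nat_lit 4020712260757) (nat_lit 0) leaf) (nat_lit 4020712261969) (nat_lit 0) (node leaf (nat_lit 4020712281157) (nat_lit 0) leaf))) (nat_lit 4020712281349) (nat_lit 0) (node (node (node leaf (nat_lit 4020712309333) (nat_lit 0) leaf) (nat_lit 4020712311121) (nat_lit 0) (node leaf (nat_lit 4020718539349) (nat_lit 0) leaf)) (nat_lit 4020718539925) (nat_lit 0) (node (node leaf (nat_lit 4020718551637) (nat_lit 0) leaf) (nat_lit 4020718553413) (nat_lit 0) (node leaf (nat_lit 4020718572565) (nat_lit 0) leaf)))))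

noncomputable def R0_238 : Tr := node R0_236 (nat_lit 4020710442277) (nat_lit 0) R0_237

noncomputable def R0_239 : Tr := (node (node (node (node (node (node leaf (nat_lit 4020718602565) (nat_lit 0) leaf) (nat_lit 4020727990597) (nat_lit 0) leaf) (nat_lit 4020728009749) (nat_lit 0) (node leaf (nat_lit 4020728009797) (nat_lit 0) leaf)) (nat_lit 4020728039749) (nat_lit 0) (node (node leaf (nat_lit 4020728041621) (nat_lit 0) leaf) (nat_lit 4020762919189) (nat_lit 0) (node leaf (nat_lit 4020764971285) (nat_lit 0) leaf))) (nat_lit 4020765069589) (nat_lit 0) (node (node (node leaf (nat_lit 4020765266197) (nat_lit 0) leaf) (nat_lit 4020765725845) (nat_lit 0) (node leaf (nat_lit 4020765726997) (nat_lit 0) leaf)) (nat_lit 4020765727045) (nat_lit 0) (node (node leaf (nat_lit 4020765730069) (nat_lit 0) leaf) (nat_lit 4020765730117) (nat_lit 0) (node leaf (nat_lit 4020765737557) (nat_lit 0) leaf)))) (nat_lit 4020765738133) (nat_lit 0) (node (node (node (node leaf (nat_lit 4020765739333) (nat_lit 0) leaf) (nat_lit 4020765745477) (nat_lit 0)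 (node leaf (nat_lit 4020765757717) (nat_lit 0) leaf)) (nat_lit 4020765758485) (nat_lit 0) (node (node leaf (nat_lit 4020765788485) (nat_lit 0) leaf) (nat_lit 4020765856021) (nat_lit 0) (node leaf (nat_lit 4020766838869) (nat_lit 0) leaf))) (nat_lit 4020769198165) (nat_lit 0) (node (node (node leaf (nat_lit 4020769198357) (nat_lit 0) leaf) (nat_lit 4020781453909) (nat_lit 0) (node leaf (nat_lit 4020781454485) (nat_lit 0) leaf)) (nat_lit 4020781466197) (nat_lit 0) (node (node leaf (nat_lit 4020794360917) (nat_lit 0) leaf) (nat_lit 4020794363989) (nat_lit 0) (node leaf (nat_lit 4022275679509) (nat_lit 0) leaf)))))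

noncomputable def R0_240 : Tr := (node (node (node (node (node (node leaf (nat_lit 4022275686997) (nat_lit 0) leaf) (nat_lit 4022275687573) (nat_lit 0) leaf) (nat_lit 4022275687957) (nat_lit 0) (node leaf (nat_lit 4022275688725) (nat_lit 0) leaf)) (nat_lit 4022275688773) (nat_lit 0) (node (node leaf (nat_lit 4022275691029) (nat_lit 0) leaf) (nat_lit 4022275695637) (nat_lit 0) (node leaf (nat_lit 4022275704085) (nat_lit 0) leaf))) (nat_lit 4022275707157) (nat_lit 0) (node (node (node leaf (nat_lit 4022275707925) (nat_lit 0) leaf) (nat_lit 4022275707973) (nat_lit 0) (node leaf (nat_lit 4022275736725) (nat_lit 0) leaf)) (nat_lit 4022275737925) (nat_lit 0) (node (node leaf (nat_lit 4022275739797) (nat_lit 0) leaf) (nat_lit 4022275805269) (nat_lit 0) (node leaf (nat_lit 4022275805461) (nat_lit 0) leaf)))) (nat_lit 4022275817749) (nat_lit 0) (node (node (node (node leaf (nat_lit 4022276195605) (nat_lit 0) leaf) (nat_lit 4022276198485) (nat_lit 0) (node leaf (nat_lit 4022276198677) (nat_lit 0) leaf)) (nat_lit 4022276788309) (nat_lit 0)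 (node (node leaf (nat_lit 4022276788501) (nat_lit 0) leaf) (nat_lit 4022279147605) (nat_lit 0) (node leaf (nat_lit 4022279147797) (nat_lit 0) leaf))) (nat_lit 4022308202005) (nat_lit 0) (node (node (node leaf (nat_lit 4022308323925) (nat_lit 0) leaf) (nat_lit 4022308324501) (nat_lit 0) (node leaf (nat_lit 4022308704853) (nat_lit 0) leaf)) (nat_lit 4022308705429) (nat_lit 0) (node (node leaf (nat_lit 4022308717141) (nat_lit 0) leaf) (nat_lit 4022313423445) (nat_lit 0) (node leaf (nat_lit 4022313424021) (nat_lit 0) leaf)))))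

noncomputable def R0_241 : Tr := node R0_239 (nat_lit 4022275679557) (nat_lit 0) R0_240

noncomputable def R0_242 : Tr := node R0_238 (nat_lit 4020718572613) (nat_lit 0) R0_241

noncomputable def R0_243 : Tr := (node (node (node (node (node (node leaf (nat_lit 4022320779925) (nat_lit 0) leaf) (nat_lit 4022320784533) (nat_lit 0) leaf) (nat_lit 4022320784917) (nat_lit 0) (node leaf (nat_lit 4022320833685) (nat_lit 0) leaf)) (nat_lit 4022320833925) (nat_lit 0) (node (node leaf (nat_lit 4022320834069) (nat_lit 0) leaf) (nat_lit 4022320857685) (nat_lit 0) (node leaf (nat_lit 4022320906837) (nat_lit 0) leaf))) (nat_lit 4022321022613) (nat_lit 0) (node (node (node leaf (nat_lit 4022321030437) (nat_lit 0) leaf) (nat_lit 4022373519637) (nat_lit 0) (node leaf (nat_lit 4022375556421) (nat_lit 0) leaf)) (nat_lit 4022375580949) (nat_lit 0) (node (node leaf (nat_lit 4022375584789) (nat_lit 0) leaf) (nat_lit 4022375682133) (nat_lit 0) (node leaf (nat_lit 4022375682325) (nat_lit 0) leaf)))) (nat_lit 4022375875861) (nat_lit 0) (node (node (node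 (node leaf (nat_lit 4022376338005) (nat_lit 0) leaf) (nat_lit 4022376338581) (nat_lit 0) (node leaf (nat_lit 4022376339733) (nat_lit 0) leaf)) (nat_lit 4022376339781) (nat_lit 0) (node (node leaf (nat_lit 4022376342613) (nat_lit 0) leaf) (nat_lit 4022376352069) (nat_lit 0) (node leaf (nat_lit 4022376358165) (nat_lit 0) leaf))) (nat_lit 4022376370261) (nat_lit 0) (node (node (node leaf (nat_lit 4022377448533) (nat_lit 0) leaf) (nat_lit 4022379807829) (nat_lit 0) (node leaf (nat_lit 4022379810901) (nat_lit 0) leaf)) (nat_lit 4022388920917) (nat_lit 0) (node (node leaf (nat_lit 4022388921493) (nat_lit 0) leaf) (nat_lit 4022388933205) (nat_lit 0) (node leaf (nat_lit 4022404972885) (nat_lit 0) leaf)))))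

noncomputable def R0_244 : Tr := (node (node (node (node (node (node leaf (nat_lit 4022776172629) (nat_lit 0) leaf) (nat_lit 4022778037525) (nat_lit 0) leaf) (nat_lit 4022778089749) (nat_lit 0) (node leaf (nat_lit 4022778204757) (nat_lit 0) leaf)) (nat_lit 4022778209365) (nat_lit 0) (node (node leaf (nat_lit 4022778209557) (nat_lit 0) leaf) (nat_lit 4022778237013) (nat_lit 0) (node leaf (nat_lit 4022778332245) (nat_lit 0) leaf))) (nat_lit 4022778528853) (nat_lit 0) (node (node (node leaf (nat_lit 4022778991189) (nat_lit 0) leaf) (nat_lit 4022778992725) (nat_lit 0) (node leaf (nat_lit 4022778995989) (nat_lit 0) leaf)) (nat_lit 4022780100949) (nat_lit 0) (node (node leaf (nat_lit 4022782460245) (nat_lit 0) leaf) (nat_lit 4022782461013) (nat_lit 0) (node leaf (nat_lit 4022791574101) (nat_lit 0) leaf)))) (nat_lit 4022807576917) (nat_lit 0) (node (node (node (node leaf (nat_lit 4022807626069) (nat_lit 0) leaf) (nat_lit 4022908227925) (nat_lit 0) (node leaf (nat_lit 4022908240213) (nat_lit 0) leaf)) (nat_lit 4028718125653) (nat_lit 0)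 (node (node leaf (nat_lit 4028718127429) (nat_lit 0) leaf) (nat_lit 4028718130261) (nat_lit 0) (node leaf (nat_lit 4028718130453) (nat_lit 0) leaf))) (nat_lit 4028718137941) (nat_lit 0) (node (node (node leaf (nat_lit 4028718138517) (nat_lit 0) leaf) (nat_lit 4028718138901) (nat_lit 0) (node leaf (nat_lit 4028718139477) (nat_lit 0) leaf)) (nat_lit 4028718139717) (nat_lit 0) (node (node leaf (nat_lit 4028718145813) (nat_lit 0) leaf) (nat_lit 4028718154837) (nat_lit 0) (node leaf (nat_lit 4028718155029) (nat_lit 0) leaf)))))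

noncomputable def R0_245 : Tr := node R0_243 (nat_lit 4022404973653) (nat_lit 0) R0_244

noncomputable def R0_246 : Tr := (node (node (node (node (node (node leaf (nat_lit 4028718158149) (nat_lit 0) leaf) (nat_lit 4028718187669) (nat_lit 0) leaf) (nat_lit 4028718253141) (nat_lit 0) (node leaf (nat_lit 4028718256213) (nat_lit 0) leaf)) (nat_lit 4028718256405) (nat_lit 0) (node (node leaf (nat_lit 4028718646357) (nat_lit 0) leaf) (nat_lit 4028718649429) (nat_lit 0) (node leaf (nat_lit 4028719236181) (nat_lit 0) leaf))) (nat_lit 4028719239253) (nat_lit 0) (node (node (node leaf (nat_lit 4028721595477) (nat_lit 0) leaf) (nat_lit 4028721598549) (nat_lit 0) (node leaf (nat_lit 4028815970389) (nat_lit 0) leaf)) (nat_lit 4028818007317) (nat_lit 0) (node (node leaf (nat_lit 4028818031701) (nat_lit 0) leaf) (nat_lit 4028818034965) (nat_lit 0) (node leaf (nat_lit 4028818130005) (nat_lit 0) leaf)))) (nat_lit 4028818133077) (nat_lit 0) (node (node (node (node leaf (nat_lit 4028818326613) (nat_lit 0) leaf) (nat_lit 4028818788949) (nat_lit 0)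 (node leaf (nat_lit 4028818789525) (nat_lit 0) leaf)) (nat_lit 4028818790485) (nat_lit 0) (node (node leaf (nat_lit 4028818790677) (nat_lit 0) leaf) (nat_lit 4028818792789) (nat_lit 0) (node leaf (nat_lit 4028818793749) (nat_lit 0) leaf))) (nat_lit 4028818801237) (nat_lit 0) (node (node (node leaf (nat_lit 4028818818133) (nat_lit 0) leaf) (nat_lit 4028819850325) (nat_lit 0) (node leaf (nat_lit 4028822209621) (nat_lit 0) leaf)) (nat_lit 4028822212693) (nat_lit 0) (node (node leaf (nat_lit 4028847374677) (nat_lit 0) leaf) (nat_lit 4028847375445) (nat_lit 0) (node leaf (nat_lit 4029218620501) (nat_lit 0) leaf)))))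

noncomputable def R0_247 : Tr := (node (node (node (node (node (node leaf (nat_lit 4029220540501) (nat_lit 0) leaf) (nat_lit 4029220659541) (nat_lit 0) leaf) (nat_lit 4029220660501) (nat_lit 0) (node leaf (nat_lit 4029220684885) (nat_lit 0) leaf)) (nat_lit 4029220782421) (nat_lit 0) (node (node leaf (nat_lit 4029220930645) (nat_lit 0) leaf) (nat_lit 4029221439061) (nat_lit 0) (node leaf (nat_lit 4029221439829) (nat_lit 0) leaf))) (nat_lit 4029222502741) (nat_lit 0) (node (node (node leaf (nat_lit 4029224862037) (nat_lit 0) leaf) (nat_lit 4029224862805) (nat_lit 0) (node leaf (nat_lit 4029249831253) (nat_lit 0) leaf)) (nat_lit 4029250027861) (nat_lit 0) (node (node leaf (nat_lit 4029350482261) (nat_lit 0) leaf) (nat_lit 4029350678869) (nat_lit 0) (node leaf (nat_lit 4030829232469) (nat_lit 0) leaf)))) (nat_lit 4030831027477) (nat_lit 0) (node (node (node (node leaf (nat_lit 4030831075669) (nat_lit 0) leaf) (nat_lit 4030831149397) (nat_lit 0) (node leaf (nat_lit 4030831150165) (nat_lit 0) leaf)) (nat_lit 4030831265365) (nat_lit 0)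 (node (node leaf (nat_lit 4030831266133) (nat_lit 0) leaf) (nat_lit 4030831542613) (nat_lit 0) (node leaf (nat_lit 4030833103189) (nat_lit 0) leaf))) (nat_lit 4030835462485) (nat_lit 0) (node (node (node leaf (nat_lit 4030835474773) (nat_lit 0) leaf) (nat_lit 4030860431701) (nat_lit 0) (node leaf (nat_lit 4030860628309) (nat_lit 0) leaf)) (nat_lit 4030961091925) (nat_lit 0) (node (node leaf (nat_lit 4030961094997) (nat_lit 0) leaf) (nat_lit 4031363695957) (nat_lit 0) (node leaf (nat_lit 4031363699029) (nat_lit 0) leaf)))))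

noncomputable def R0_248 : Tr := node R0_246 (nat_lit 4029220463893) (nat_lit 0) R0_247

noncomputable def R0_249 : Tr := node R0_245 (nat_lit 4028718158101) (nat_lit 0) R0_248

noncomputable def R0_250 : Tr := node R0_242 (nat_lit 4022313435733) (nat_lit 0) R0_249

noncomputable def R0_251 : Tr := node R0_235 (nat_lit 4020703072405) (nat_lit 0) R0_250

noncomputable def R0_252 : Tr := node R0_220 (nat_lit 3994940446996) (nat_lit 0) R0_251

noncomputable def R0_253 : Tr := node R0_189 (nat_lit 3891916719697) (nat_lit 0) R0_252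

noncomputable def R0_254 : Tr := node R0_126 (nat_lit 3481239883861) (nat_lit 0) R0_253

/-- data -/
noncomputable def R0 : Tr := R0_254

noncomputable def R1_0 : Tr := (node (node (node (node (node (node leaf (nat_lit 3305691682900) (nat_lit 0) leaf) (nat_lit 3305691693652) (nat_lit 0) (node leaf (nat_lit 3305691695188) (nat_lit 0) leaf)) (nat_lit 3305691742804) (nat_lit 0) (node (node leaf (nat_lit 3305691743497) (nat_lit 0) leaf) (nat_lit 3308912971924) (nat_lit 0) leaf)) (nat_lit 3309969885520) (nat_lit 0) (node (node (node leaf (nat_lit 3309969932884) (nat_lit 0) leaf) (nat_lit 3309969934672) (nat_lit 0) (node leaf (nat_lit 3309969936421) (nat_lit 0) leaf)) (nat_lit 3309969936517) (nat_lit 0) (node (node leaf (nat_lit 3309969936532) (nat_lit 0) leaf) (nat_lit 3309969936976) (nat_lit 0) leaf))) (nat_lit 3309969937426) (nat_lit 0) (node (node (node (node leaf (nat_lit 3309969937444) (nat_lit 0) leaf) (nat_lit 3309969948709) (nat_lit 0) (node leaf (nat_lit 3309969948769) (nat_lit 0) leaf)) (nat_lit 3309969948805) (nat_lit 0)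 (node (node leaf (nat_lit 3309969948820) (nat_lit 0) leaf) (nat_lit 3309969948937) (nat_lit 0) leaf)) (nat_lit 3309969949060) (nat_lit 0) (node (node (node leaf (nat_lit 3309969949204) (nat_lit 0) leaf) (nat_lit 3309969949732) (nat_lit 0) (node leaf (nat_lit 3309969949828) (nat_lit 0) leaf)) (nat_lit 3309969952774) (nat_lit 0) (node (node leaf (nat_lit 3309969952786) (nat_lit 0) leaf) (nat_lit 3309969952804) (nat_lit 0) leaf)))) (nat_lit 3309982225744) (nat_lit 0) (node (node (node (node (node leaf (nat_lit 3309982262608) (nat_lit 0) leaf) (nat_lit 3309982287184) (nat_lit 0) (node leaf (nat_lit 3309982339396) (nat_lit 0) leaf)) (nat_lit 3309982340164) (nat_lit 0) (node (node leaf (nat_lit 3309982340176) (nat_lit 0) leaf) (nat_lit 3309982340368) (nat_lit 0) leaf)) (nat_lit 3309982459216) (nat_lit 0) (node (node (node leaf (nat_lit 3309982467604) (nat_lit 0) leaf) (nat_lit 3309982468180) (nat_lit 0) (node leaf (nat_lit 3309982468420) (nat_lit 0) leaf)) (nat_lit 3309982468432) (nat_lit 0) (node (node leaf (nat_lit 3309982474576) (nat_lit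 0) leaf) (nat_lit 3309982483792) (nat_lit 0) leaf))) (nat_lit 3309982486864) (nat_lit 0) (node (node (node (node leaf (nat_lit 3309982516357) (nat_lit 0) leaf) (nat_lit 3309982516372) (nat_lit 0) (node leaf (nat_lit 3309982516756) (nat_lit 0) leaf)) (nat_lit 3309982517584) (nat_lit 0) (node (node leaf (nat_lit 3309982519333) (nat_lit 0) leaf) (nat_lit 3309982519444) (nat_lit 0) leaf)) (nat_lit 3309982519828) (nat_lit 0) (node (node (node leaf (nat_lit 3309982521424) (nat_lit 0) leaf) (nat_lit 3309982523728) (nat_lit 0) (node leaf (nat_lit 3309982531621) (nat_lit 0) leaf)) (nat_lit 3309982531657) (nat_lit 0) (node (node leaf (nat_lit 3309982531672) (nat_lit 0) leaf) (nat_lit 3309982531681) (nat_lit 0) leaf)))))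

noncomputable def R1_1 : Tr := (node (node (node (node (node (node leaf (nat_lit 3309982531729) (nat_lit 0) leaf) (nat_lit 3309982531732) (nat_lit 0) (node leaf (nat_lit 3309982531858) (nat_lit 0) leaf)) (nat_lit 3309982531864) (nat_lit 0) (node (node leaf (nat_lit 3309982531873) (nat_lit 0) leaf) (nat_lit 3309982531876) (nat_lit 0) leaf)) (nat_lit 3309982531972) (nat_lit 0) (node (node (node leaf (nat_lit 3309982532116) (nat_lit 0) leaf) (nat_lit 3309982532164) (nat_lit 0) (node leaf (nat_lit 3309982532176) (nat_lit 0) leaf)) (nat_lit 3309982532626) (nat_lit 0) (node (node leaf (nat_lit 3309982532632) (nat_lit 0) leaf) (nat_lit 3309982532644) (nat_lit 0) leaf))) (nat_lit 3309982532740) (nat_lit 0) (node (node (node (node leaf (nat_lit 3309982535698) (nat_lit 0) leaf) (nat_lit 3309982535716) (nat_lit 0) (node leaf (nat_lit 3309982732609) (nat_lit 0) leaf)) (nat_lit 3309982732624) (nat_lit 0) (node (node leaf (nat_lit 3309982733332) (nat_lit 0) leaf) (nat_lit 3309982733392) (nat_lit 0) leaf)) (nat_lit 3309983322448) (nat_lit 0)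 (node (node (node leaf (nat_lit 3309983323216) (nat_lit 0) leaf) (nat_lit 3309983568961) (nat_lit 0) (node leaf (nat_lit 3309985681744) (nat_lit 0) leaf)) (nat_lit 3309985682512) (nat_lit 0) (node (node leaf (nat_lit 3309986649424) (nat_lit 0) leaf) (nat_lit 3309986710852) (nat_lit 0) leaf)))) (nat_lit 3318576580945) (nat_lit 0) (node (node (node (node (node leaf (nat_lit 3318576660517) (nat_lit 0) leaf) (nat_lit 3334682772628) (nat_lit 0) (node leaf (nat_lit 3335739689284) (nat_lit 0) leaf)) (nat_lit 3335739689296) (nat_lit 0) (node (node leaf (nat_lit 3335739691156) (nat_lit 0) leaf) (nat_lit 3335739736657) (nat_lit 0) leaf)) (nat_lit 3335739737125) (nat_lit 0) (node (node (node leaf (nat_lit 3335739737221) (nat_lit 0) leaf) (nat_lit 3335739740197) (nat_lit 0) (node leaf (nat_lit 3335739740293) (nat_lit 0) leaf)) (nat_lit 3335739740308) (nat_lit 0) (node (node leaf (nat_lit 3335739740452) (nat_lit 0) leaf) (nat_lit 3335739740692) (nat_lit 0) leaf))) (nat_lit 3335739740740) (nat_lit 0) (node (node (node (node leaf (nat_lit 3335739741190)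 (nat_lit 0) leaf) (nat_lit 3335739752485) (nat_lit 0) (node leaf (nat_lit 3335739752596) (nat_lit 0) leaf)) (nat_lit 3335739752836) (nat_lit 0) (node (node leaf (nat_lit 3335739753490) (nat_lit 0) leaf) (nat_lit 3335739753508) (nat_lit 0) leaf)) (nat_lit 3335752029508) (nat_lit 0) (node (node (node leaf (nat_lit 3335752029520) (nat_lit 0) leaf) (nat_lit 3335752066372) (nat_lit 0) leaf) (nat_lit 3335752066384) (nat_lit 0) (node (node leaf (nat_lit 3335752090960) (nat_lit 0) leaf) (nat_lit 3335752143169) (nat_lit 0) leaf)))))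

noncomputable def R1_2 : Tr := node R1_0 (nat_lit 3309982531717) (nat_lit 0) R1_1

noncomputable def R1_3 : Tr := (node (node (node (node (node (node leaf (nat_lit 3335752143892) (nat_lit 0) leaf) (nat_lit 3335752144132) (nat_lit 0) (node leaf (nat_lit 3335752259668) (nat_lit 0) leaf)) (nat_lit 3335752262992) (nat_lit 0) (node (node leaf (nat_lit 3335752270420) (nat_lit 0) leaf) (nat_lit 3335752271380) (nat_lit 0) leaf)) (nat_lit 3335752272148) (nat_lit 0) (node (node (node leaf (nat_lit 3335752272196) (nat_lit 0) leaf) (nat_lit 3335752278352) (nat_lit 0) (node leaf (nat_lit 3335752287568) (nat_lit 0) leaf)) (nat_lit 3335752319365) (nat_lit 0) (node (node leaf (nat_lit 3335752319380) (nat_lit 0) leaf) (nat_lit 3335752320037) (nat_lit 0) leaf))) (nat_lit 3335752320148) (nat_lit 0) (node (node (node (node leaf (nat_lit 3335752320532) (nat_lit 0) leaf) (nat_lit 3335752321348) (nat_lit 0) (node leaf (nat_lit 3335752321360) (nat_lit 0) leaf)) (nat_lit 3335752323109) (nat_lit 0) (node (node leaf (nat_lit 3335752323205) (nat_lit 0) leaf)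 (nat_lit 3335752323220) (nat_lit 0) leaf)) (nat_lit 3335752323604) (nat_lit 0) (node (node (node leaf (nat_lit 3335752335397) (nat_lit 0) leaf) (nat_lit 3335752335433) (nat_lit 0) (node leaf (nat_lit 3335752335457) (nat_lit 0) leaf)) (nat_lit 3335752335493) (nat_lit 0) (node (node leaf (nat_lit 3335752335505) (nat_lit 0) leaf) (nat_lit 3335752335508) (nat_lit 0) leaf)))) (nat_lit 3335752335625) (nat_lit 0) (node (node (node (node (node leaf (nat_lit 3335752335640) (nat_lit 0) leaf) (nat_lit 3335752335649) (nat_lit 0) (node leaf (nat_lit 3335752335748) (nat_lit 0) leaf)) (nat_lit 3335752335892) (nat_lit 0) (node (node leaf (nat_lit 3335752336402) (nat_lit 0) leaf) (nat_lit 3335752336420) (nat_lit 0) leaf)) (nat_lit 3335752536337) (nat_lit 0) (node (node (node leaf (nat_lit 3335752536388) (nat_lit 0) leaf) (nat_lit 3335752537105) (nat_lit 0) (node leaf (nat_lit 3335752537156) (nat_lit 0) leaf)) (nat_lit 3335753126212) (nat_lit 0) (node (node leaf (nat_lit 3335753126980) (nat_lit 0) leaf) (nat_lit 3335753372689) (nat_lit 0) leaf)))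 (nat_lit 3335755485508) (nat_lit 0) (node (node (node (node leaf (nat_lit 3335755486276) (nat_lit 0) leaf) (nat_lit 3335756453188) (nat_lit 0) (node leaf (nat_lit 3335756465476) (nat_lit 0) leaf)) (nat_lit 3337903933777) (nat_lit 0) (node (node leaf (nat_lit 3337903933780) (nat_lit 0) leaf) (nat_lit 3337903937620) (nat_lit 0) leaf)) (nat_lit 3337903948372) (nat_lit 0) (node (node (node leaf (nat_lit 3337903998025) (nat_lit 0) leaf) (nat_lit 3337904013349) (nat_lit 0) (node leaf (nat_lit 3342182127940) (nat_lit 0) leaf)) (nat_lit 3342182127952) (nat_lit 0) (node (node leaf (nat_lit 3342182139028) (nat_lit 0) leaf) (nat_lit 3342182187301) (nat_lit 0) leaf)))))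

noncomputable def R1_4 : Tr := (node (node (node (node (node (node leaf (nat_lit 3342182187589) (nat_lit 0) leaf) (nat_lit 3342182188069) (nat_lit 0) (node leaf (nat_lit 3342182188165) (nat_lit 0) leaf)) (nat_lit 3342182188180) (nat_lit 0) (node (node leaf (nat_lit 3342182188564) (nat_lit 0) leaf) (nat_lit 3342182191141) (nat_lit 0) leaf)) (nat_lit 3342182191252) (nat_lit 0) (node (node (node leaf (nat_lit 3342182191636) (nat_lit 0) leaf) (nat_lit 3342182203540) (nat_lit 0) (node leaf (nat_lit 3342194468164) (nat_lit 0) leaf)) (nat_lit 3342194468176) (nat_lit 0) (node (node leaf (nat_lit 3342194480404) (nat_lit 0) leaf) (nat_lit 3342194480452) (nat_lit 0) leaf))) (nat_lit 3342194517328) (nat_lit 0) (node (node (node (node leaf (nat_lit 3342194541892) (nat_lit 0) leaf) (nat_lit 3342194541904) (nat_lit 0) (node leaf (nat_lit 3342194594065) (nat_lit 0) leaf)) (nat_lit 3342194594116) (nat_lit 0) (node (node leaf (nat_lit 3342194594833) (nat_lit 0) leaf) (nat_lit 3342194595073) (nat_lit 0) leaf)) (nat_lit 3342194709076) (nat_lit 0)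 (node (node (node leaf (nat_lit 3342194710609) (nat_lit 0) leaf) (nat_lit 3342194713936) (nat_lit 0) (node leaf (nat_lit 3342194721364) (nat_lit 0) leaf)) (nat_lit 3342194721940) (nat_lit 0) (node (node leaf (nat_lit 3342194722900) (nat_lit 0) leaf) (nat_lit 3342194723092) (nat_lit 0) leaf)))) (nat_lit 3342194770069) (nat_lit 0) (node (node (node (node (node leaf (nat_lit 3342194770516) (nat_lit 0) leaf) (nat_lit 3342194770981) (nat_lit 0) (node leaf (nat_lit 3342194771077) (nat_lit 0) leaf)) (nat_lit 3342194771092) (nat_lit 0) (node (node leaf (nat_lit 3342194771476) (nat_lit 0) leaf) (nat_lit 3342194772244) (nat_lit 0) leaf)) (nat_lit 3342194774053) (nat_lit 0) (node (node (node leaf (nat_lit 3342194774149) (nat_lit 0) leaf) (nat_lit 3342194774164) (nat_lit 0) (node leaf (nat_lit 3342194774548) (nat_lit 0) leaf)) (nat_lit 3342194786341) (nat_lit 0) (node (node leaf (nat_lit 3342194786401) (nat_lit 0) leaf) (nat_lit 3342194786437) (nat_lit 0) leaf))) (nat_lit 3342194786452) (nat_lit 0) (node (node (node (node leaf (nat_lit 3342194786569)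 (nat_lit 0) leaf) (nat_lit 3342194987269) (nat_lit 0) (node leaf (nat_lit 3342194987281) (nat_lit 0) leaf)) (nat_lit 3342194987329) (nat_lit 0) (node (node leaf (nat_lit 3342194988097) (nat_lit 0) leaf) (nat_lit 3342195577153) (nat_lit 0) leaf)) (nat_lit 3342195577921) (nat_lit 0) (node (node (node leaf (nat_lit 3342195774481) (nat_lit 0) leaf) (nat_lit 3342197936449) (nat_lit 0) leaf) (nat_lit 3342197937217) (nat_lit 0) (node (node leaf (nat_lit 3342198904129) (nat_lit 0) leaf) (nat_lit 3342198916372) (nat_lit 0) leaf)))))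

noncomputable def R1_5 : Tr := node R1_3 (nat_lit 3342182187397) (nat_lit 0) R1_4

noncomputable def R1_6 : Tr := node R1_2 (nat_lit 3335752143184) (nat_lit 0) R1_5

noncomputable def R1_7 : Tr := (node (node (node (node (node (node leaf (nat_lit 3342735771988) (nat_lit 0) leaf) (nat_lit 3342735775828) (nat_lit 0) (node leaf (nat_lit 3342735786580) (nat_lit 0) leaf)) (nat_lit 3342735835540) (nat_lit 0) (node (node leaf (nat_lit 3342735836233) (nat_lit 0) leaf) (nat_lit 3342735851557) (nat_lit 0) leaf)) (nat_lit 3343792739476) (nat_lit 0) (node (node (node leaf (nat_lit 3343792740673) (nat_lit 0) leaf) (nat_lit 3343792740676) (nat_lit 0) (node leaf (nat_lit 3343792799893) (nat_lit 0) leaf)) (nat_lit 3343792800133) (nat_lit 0) (node (node leaf (nat_lit 3343792800148) (nat_lit 0) leaf) (nat_lit 3343792800277) (nat_lit 0) leaf))) (nat_lit 3343792800340) (nat_lit 0) (node (node (node (node leaf (nat_lit 3343792800805) (nat_lit 0) leaf) (nat_lit 3343792801300) (nat_lit 0) (node leaf (nat_lit 3343792803988) (nat_lit 0) leaf)) (nat_lit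 3343805080852) (nat_lit 0) (node (node leaf (nat_lit 3343805080900) (nat_lit 0) leaf) (nat_lit 3343805093137) (nat_lit 0) leaf)) (nat_lit 3343805093140) (nat_lit 0) (node (node (node leaf (nat_lit 3343805093188) (nat_lit 0) leaf) (nat_lit 3343805093200) (nat_lit 0) (node leaf (nat_lit 3343805125204) (nat_lit 0) leaf)) (nat_lit 3343805130052) (nat_lit 0) (node (node leaf (nat_lit 3343805206789) (nat_lit 0) leaf) (nat_lit 3343805206801) (nat_lit 0) leaf)))) (nat_lit 3343805206849) (nat_lit 0) (node (node (node (node (node leaf (nat_lit 3343805207617) (nat_lit 0) leaf) (nat_lit 3343805319505) (nat_lit 0) (node leaf (nat_lit 3343805321812) (nat_lit 0) leaf)) (nat_lit 3343805323348) (nat_lit 0) (node (node leaf (nat_lit 3343805326660) (nat_lit 0) leaf) (nat_lit 3343805333653) (nat_lit 0) leaf)) (nat_lit 3343805334100) (nat_lit 0) (node (node (node leaf (nat_lit 3343805334565) (nat_lit 0) leaf) (nat_lit 3343805335636) (nat_lit 0) (node leaf (nat_lit 3343805383045) (nat_lit 0) leaf)) (nat_lit 3343805383252) (nat_lit 0) (node (node leaf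 (nat_lit 3343805383717) (nat_lit 0) leaf) (nat_lit 3343805383813) (nat_lit 0) leaf))) (nat_lit 3343805384212) (nat_lit 0) (node (node (node (node leaf (nat_lit 3343805384788) (nat_lit 0) leaf) (nat_lit 3343805386789) (nat_lit 0) (node leaf (nat_lit 3343805386885) (nat_lit 0) leaf)) (nat_lit 3343805386900) (nat_lit 0) (node (node leaf (nat_lit 3343805399077) (nat_lit 0) leaf) (nat_lit 3343805596933) (nat_lit 0) leaf)) (nat_lit 3343805600005) (nat_lit 0) (node (node (node leaf (nat_lit 3343805600017) (nat_lit 0) leaf) (nat_lit 3343805600785) (nat_lit 0) (node leaf (nat_lit 3343806189841) (nat_lit 0) leaf)) (nat_lit 3343806190609) (nat_lit 0) (node (node leaf (nat_lit 3343806386449) (nat_lit 0) leaf) (nat_lit 3343808549137) (nat_lit 0) leaf)))))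

noncomputable def R1_8 : Tr := (node (node (node (node (node (node leaf (nat_lit 3343809516817) (nat_lit 0) leaf) (nat_lit 3343809516820) (nat_lit 0) (node leaf (nat_lit 3343943731537) (nat_lit 0) leaf)) (nat_lit 3343943731540) (nat_lit 0) (node (node leaf (nat_lit 3343943735380) (nat_lit 0) leaf) (nat_lit 3343943746132) (nat_lit 0) leaf)) (nat_lit 3343943795092) (nat_lit 0) (node (node (node leaf (nat_lit 3343943795785) (nat_lit 0) leaf) (nat_lit 3343943811109) (nat_lit 0) (node leaf (nat_lit 3344044397140) (nat_lit 0) leaf)) (nat_lit 3344195392084) (nat_lit 0) (node (node leaf (nat_lit 3344195403925) (nat_lit 0) leaf) (nat_lit 3344195404309) (nat_lit 0) leaf))) (nat_lit 3344195453077) (nat_lit 0) (node (node (node (node leaf (nat_lit 3344207729236) (nat_lit 0) leaf) (nat_lit 3344207734033) (nat_lit 0) (node leaf (nat_lit 3344207734081) (nat_lit 0) leaf)) (nat_lit 3344207746129) (nat_lit 0) (node (node leaf (nat_lit 3344207746132) (nat_lit 0) leaf) (nat_lit 3344207746324) (nat_lit 0) leaf)) (nat_lit 3344207746372) (nat_lit 0)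 (node (node (node leaf (nat_lit 3344207776081) (nat_lit 0) leaf) (nat_lit 3344207783188) (nat_lit 0) (node leaf (nat_lit 3344207859781) (nat_lit 0) leaf)) (nat_lit 3344207859793) (nat_lit 0) (node (node leaf (nat_lit 3344207859985) (nat_lit 0) leaf) (nat_lit 3344207860753) (nat_lit 0) leaf)))) (nat_lit 3344207974549) (nat_lit 0) (node (node (node (node (node leaf (nat_lit 3344207979796) (nat_lit 0) leaf) (nat_lit 3344207987281) (nat_lit 0) (node leaf (nat_lit 3344208249925) (nat_lit 0) leaf)) (nat_lit 3344208252997) (nat_lit 0) (node (node leaf (nat_lit 3344208253189) (nat_lit 0) leaf) (nat_lit 3344208253957) (nat_lit 0) leaf)) (nat_lit 3344208843013) (nat_lit 0) (node (node (node leaf (nat_lit 3344208843781) (nat_lit 0) leaf) (nat_lit 3344209039441) (nat_lit 0) (node leaf (nat_lit 3344211202309) (nat_lit 0) leaf)) (nat_lit 3344211203077) (nat_lit 0) (node (node leaf (nat_lit 3344212169809) (nat_lit 0) leaf) (nat_lit 3344212170001) (nat_lit 0) leaf))) (nat_lit 3344245721425) (nat_lit 0) (node (node (node (node leaf (nat_lit 3344252949778)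 (nat_lit 0) leaf) (nat_lit 3344252949796) (nat_lit 0) (node leaf (nat_lit 3344252950033) (nat_lit 0) leaf)) (nat_lit 3344253065569) (nat_lit 0) (node (node leaf (nat_lit 3344253068884) (nat_lit 0) leaf) (nat_lit 3344253077833) (nat_lit 0) leaf)) (nat_lit 3344253077905) (nat_lit 0) (node (node (node leaf (nat_lit 3344253080212) (nat_lit 0) leaf) (nat_lit 3344253084820) (nat_lit 0) leaf) (nat_lit 3344253084937) (nat_lit 0) (node (node leaf (nat_lit 3344253086032) (nat_lit 0) leaf) (nat_lit 3344253093457) (nat_lit 0) leaf)))))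

noncomputable def R1_9 : Tr := node R1_7 (nat_lit 3343808549905) (nat_lit 0) R1_8

noncomputable def R1_10 : Tr := (node (node (node (node (node (node leaf (nat_lit 3344253096229) (nat_lit 0) leaf) (nat_lit 3344253096532) (nat_lit 0) (node leaf (nat_lit 3344253096997) (nat_lit 0) leaf)) (nat_lit 3344253097093) (nat_lit 0) (node (node leaf (nat_lit 3344253097108) (nat_lit 0) leaf) (nat_lit 3344253097492) (nat_lit 0) leaf)) (nat_lit 3344253098308) (nat_lit 0) (node (node (node leaf (nat_lit 3344253126949) (nat_lit 0) leaf) (nat_lit 3344253127060) (nat_lit 0) (node leaf (nat_lit 3344253195301) (nat_lit 0) leaf)) (nat_lit 3344253195409) (nat_lit 0) (node (node leaf (nat_lit 3344253195538) (nat_lit 0) leaf) (nat_lit 3344253195556) (nat_lit 0) leaf))) (nat_lit 3344253195793) (nat_lit 0) (node (node (node (node leaf (nat_lit 3344253196372) (nat_lit 0) leaf) (nat_lit 3344253196564) (nat_lit 0) (node leaf (nat_lit 3344253206932) (nat_lit 0) leaf)) (nat_lit 3344253207124) (nat_lit 0) (node (node leaf (nat_lit 3344253207625) (nat_lit 0) leaf)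 (nat_lit 3344253207697) (nat_lit 0) leaf)) (nat_lit 3344253207817) (nat_lit 0) (node (node (node leaf (nat_lit 3344253208900) (nat_lit 0) leaf) (nat_lit 3344253210661) (nat_lit 0) (node leaf (nat_lit 3344253210772) (nat_lit 0) leaf)) (nat_lit 3344253212752) (nat_lit 0) (node (node leaf (nat_lit 3344253388369) (nat_lit 0) leaf) (nat_lit 3344253388372) (nat_lit 0) leaf)))) (nat_lit 3344253391141) (nat_lit 0) (node (node (node (node (node leaf (nat_lit 3344253391444) (nat_lit 0) leaf) (nat_lit 3344253391909) (nat_lit 0) (node leaf (nat_lit 3344253403525) (nat_lit 0) leaf)) (nat_lit 3344253403732) (nat_lit 0) (node (node leaf (nat_lit 3344253404197) (nat_lit 0) leaf) (nat_lit 3344253404233) (nat_lit 0) leaf)) (nat_lit 3344253404293) (nat_lit 0) (node (node (node leaf (nat_lit 3344253404305) (nat_lit 0) leaf) (nat_lit 3344253404308) (nat_lit 0) (node leaf (nat_lit 3344253404692) (nat_lit 0) leaf)) (nat_lit 3344253405457) (nat_lit 0) (node (node leaf (nat_lit 3344253405460) (nat_lit 0) leaf) (nat_lit 3344253405508) (nat_lit 0) leaf)))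 (nat_lit 3344253407305) (nat_lit 0) (node (node (node (node leaf (nat_lit 3344253407329) (nat_lit 0) leaf) (nat_lit 3344253407380) (nat_lit 0) (node leaf (nat_lit 3344253407497) (nat_lit 0) leaf)) (nat_lit 3344253407506) (nat_lit 0) (node (node leaf (nat_lit 3344253407512) (nat_lit 0) leaf) (nat_lit 3344253407521) (nat_lit 0) leaf)) (nat_lit 3344253407524) (nat_lit 0) (node (node (node leaf (nat_lit 3344253407764) (nat_lit 0) leaf) (nat_lit 3344253407812) (nat_lit 0) leaf) (nat_lit 3344253407824) (nat_lit 0) (node (node leaf (nat_lit 3344253408274) (nat_lit 0) leaf) (nat_lit 3344253408280) (nat_lit 0) leaf)))))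

noncomputable def R1_11 : Tr := (node (node (node (node (node (node leaf (nat_lit 3344253408322) (nat_lit 0) leaf) (nat_lit 3344253409348) (nat_lit 0) (node leaf (nat_lit 3344253411652) (nat_lit 0) leaf)) (nat_lit 3344253411664) (nat_lit 0) (node (node leaf (nat_lit 3344253412432) (nat_lit 0) leaf) (nat_lit 3344253420868) (nat_lit 0) leaf)) (nat_lit 3344253420880) (nat_lit 0) (node (node (node leaf (nat_lit 3344253424708) (nat_lit 0) leaf) (nat_lit 3344253852244) (nat_lit 0) (node leaf (nat_lit 3344253855316) (nat_lit 0) leaf)) (nat_lit 3344253864532) (nat_lit 0) (node (node leaf (nat_lit 3344253870676) (nat_lit 0) leaf) (nat_lit 3344253871369) (nat_lit 0) leaf))) (nat_lit 3344253883429) (nat_lit 0) (node (node (node (node leaf (nat_lit 3344253883465) (nat_lit 0) leaf) (nat_lit 3344253883489) (nat_lit 0) (node leaf (nat_lit 3344253883525) (nat_lit 0) leaf)) (nat_lit 3344253883540) (nat_lit 0) (node (node leaf (nat_lit 3344253883666) (nat_lit 0) leaf) (nat_lit 3344253883681) (nat_lit 0) leaf)) (nat_lit 3344253883684) (nat_lit 0)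 (node (node (node leaf (nat_lit 3344253884500) (nat_lit 0) leaf) (nat_lit 3344253884740) (nat_lit 0) (node leaf (nat_lit 3344253887824) (nat_lit 0) leaf)) (nat_lit 3344253911461) (nat_lit 0) (node (node leaf (nat_lit 3344253912229) (nat_lit 0) leaf) (nat_lit 3344253913381) (nat_lit 0) leaf)))) (nat_lit 3344253913417) (nat_lit 0) (node (node (node (node (node leaf (nat_lit 3344253913477) (nat_lit 0) leaf) (nat_lit 3344253913492) (nat_lit 0) (node leaf (nat_lit 3344253913684) (nat_lit 0) leaf)) (nat_lit 3344253915796) (nat_lit 0) (node (node leaf (nat_lit 3344253919636) (nat_lit 0) leaf) (nat_lit 3344253919828) (nat_lit 0) leaf)) (nat_lit 3344253920404) (nat_lit 0) (node (node (node leaf (nat_lit 3344253944404) (nat_lit 0) leaf) (nat_lit 3344253945097) (nat_lit 0) (node leaf (nat_lit 3344253981721) (nat_lit 0) leaf)) (nat_lit 3344253981733) (nat_lit 0) (node (node leaf (nat_lit 3344253981844) (nat_lit 0) leaf) (nat_lit 3344253981970) (nat_lit 0) leaf))) (nat_lit 3344253981988) (nat_lit 0) (node (node (node (node leaf (nat_lit 3344253993556)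 (nat_lit 0) leaf) (nat_lit 3344253997093) (nat_lit 0) (node leaf (nat_lit 3344253997588) (nat_lit 0) leaf)) (nat_lit 3344253997648) (nat_lit 0) (node (node leaf (nat_lit 3344253999184) (nat_lit 0) leaf) (nat_lit 3344254108837) (nat_lit 0) leaf)) (nat_lit 3344254109989) (nat_lit 0) (node (node (node leaf (nat_lit 3344254110100) (nat_lit 0) leaf) (nat_lit 3344254387237) (nat_lit 0) leaf) (nat_lit 3344254388560) (nat_lit 0) (node (node leaf (nat_lit 3344254390420) (nat_lit 0) leaf) (nat_lit 3344254439572) (nat_lit 0) leaf)))))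

noncomputable def R1_12 : Tr := node R1_10 (nat_lit 3344253408292) (nat_lit 0) R1_11

noncomputable def R1_13 : Tr := node R1_9 (nat_lit 3344253093460) (nat_lit 0) R1_12

noncomputable def R1_14 : Tr := node R1_6 (nat_lit 3342735771985) (nat_lit 0) R1_13

noncomputable def R1_15 : Tr := (node (node (node (node (node (node leaf (nat_lit 3344254932304) (nat_lit 0) leaf) (nat_lit 3344254964305) (nat_lit 0) (node leaf (nat_lit 3344254964773) (nat_lit 0) leaf)) (nat_lit 3344254976149) (nat_lit 0) (node (node leaf (nat_lit 3344254976329) (nat_lit 0) leaf) (nat_lit 3344254976401) (nat_lit 0) leaf)) (nat_lit 3344254976593) (nat_lit 0) (node (node (node leaf (nat_lit 3344254977061) (nat_lit 0) leaf) (nat_lit 3344254977172) (nat_lit 0) (node leaf (nat_lit 3344254978324) (nat_lit 0) leaf)) (nat_lit 3344254984528) (nat_lit 0) (node (node leaf (nat_lit 3344254997569) (nat_lit 0) leaf) (nat_lit 3344255158612) (nat_lit 0) leaf))) (nat_lit 3344255162452) (nat_lit 0) (node (node (node (node leaf (nat_lit 3344255173204) (nat_lit 0) leaf) (nat_lit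 3344255173669) (nat_lit 0) (node leaf (nat_lit 3344255173705) (nat_lit 0) leaf)) (nat_lit 3344255173765) (nat_lit 0) (node (node leaf (nat_lit 3344255174977) (nat_lit 0) leaf) (nat_lit 3344255174992) (nat_lit 0) leaf)) (nat_lit 3344255221861) (nat_lit 0) (node (node (node leaf (nat_lit 3344255222149) (nat_lit 0) leaf) (nat_lit 3344255222164) (nat_lit 0) (node leaf (nat_lit 3344255222356) (nat_lit 0) leaf)) (nat_lit 3344255222821) (nat_lit 0) (node (node leaf (nat_lit 3344255222857) (nat_lit 0) leaf) (nat_lit 3344255222917) (nat_lit 0) leaf)))) (nat_lit 3344255223316) (nat_lit 0) (node (node (node (node (node leaf (nat_lit 3344255223889) (nat_lit 0) leaf) (nat_lit 3344255225893) (nat_lit 0) (node leaf (nat_lit 3344255226004) (nat_lit 0) leaf)) (nat_lit 3344255238181) (nat_lit 0) (node (node leaf (nat_lit 3344257000741) (nat_lit 0) leaf) (nat_lit 3344257000777) (nat_lit 0) leaf)) (nat_lit 3344257000786) (nat_lit 0) (node (node (node leaf (nat_lit 3344257000801) (nat_lit 0) leaf) (nat_lit 3344257000804) (nat_lit 0) (node leaf (nat_lit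 3344257000849) (nat_lit 0) leaf)) (nat_lit 3344257016137) (nat_lit 0) (node (node leaf (nat_lit 3344257029193) (nat_lit 0) leaf) (nat_lit 3344257029268) (nat_lit 0) leaf))) (nat_lit 3344257029394) (nat_lit 0) (node (node (node (node leaf (nat_lit 3344257029412) (nat_lit 0) leaf) (nat_lit 3344257029652) (nat_lit 0) (node leaf (nat_lit 3344257029700) (nat_lit 0) leaf)) (nat_lit 3344257030468) (nat_lit 0) (node (node leaf (nat_lit 3344257057429) (nat_lit 0) leaf) (nat_lit 3344257059145) (nat_lit 0) leaf)) (nat_lit 3344257059412) (nat_lit 0) (node (node (node leaf (nat_lit 3344257063060) (nat_lit 0) leaf) (nat_lit 3344257065289) (nat_lit 0) (node leaf (nat_lit 3344257065556) (nat_lit 0) leaf)) (nat_lit 3344257066021) (nat_lit 0) (node (node leaf (nat_lit 3344257066249) (nat_lit 0) leaf) (nat_lit 3344257066516) (nat_lit 0) leaf)))))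

noncomputable def R1_16 : Tr := (node (node (node (node (node (node leaf (nat_lit 3344257090708) (nat_lit 0) leaf) (nat_lit 3344257090825) (nat_lit 0) (node leaf (nat_lit 3344257093780) (nat_lit 0) leaf)) (nat_lit 3344257127689) (nat_lit 0) (node (node leaf (nat_lit 3344257139284) (nat_lit 0) leaf) (nat_lit 3344257139977) (nat_lit 0) leaf)) (nat_lit 3344257142821) (nat_lit 0) (node (node (node leaf (nat_lit 3344257142932) (nat_lit 0) leaf) (nat_lit 3344257143376) (nat_lit 0) (node leaf (nat_lit 3344257143832) (nat_lit 0) leaf)) (nat_lit 3344257143940) (nat_lit 0) (node (node leaf (nat_lit 3344257144912) (nat_lit 0) leaf) (nat_lit 3344257254037) (nat_lit 0) leaf))) (nat_lit 3344257254565) (nat_lit 0) (node (node (node (node leaf (nat_lit 3344257254949) (nat_lit 0) leaf) (nat_lit 3344257255717) (nat_lit 0) (node leaf (nat_lit 3344257255753) (nat_lit 0) leaf)) (nat_lit 3344257256020) (nat_lit 0) (node (node leaf (nat_lit 3344257258132) (nat_lit 0) leaf) (nat_lit 3344257262740) (nat_lit 0) leaf)) (nat_lit 3344257262857) (nat_lit 0)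 (node (node (node leaf (nat_lit 3344257270420) (nat_lit 0) leaf) (nat_lit 3344257278100) (nat_lit 0) (node leaf (nat_lit 3344257287433) (nat_lit 0) leaf)) (nat_lit 3344257290388) (nat_lit 0) (node (node leaf (nat_lit 3344257388692) (nat_lit 0) leaf) (nat_lit 3344257389136) (nat_lit 0) leaf)))) (nat_lit 3344257389586) (nat_lit 0) (node (node (node (node (node leaf (nat_lit 3344257389604) (nat_lit 0) leaf) (nat_lit 3344257534288) (nat_lit 0) (node leaf (nat_lit 3344257537033) (nat_lit 0) leaf)) (nat_lit 3344257585300) (nat_lit 0) (node (node leaf (nat_lit 3344258040997) (nat_lit 0) leaf) (nat_lit 3344258042149) (nat_lit 0) leaf)) (nat_lit 3344258044069) (nat_lit 0) (node (node (node leaf (nat_lit 3344258045989) (nat_lit 0) leaf) (nat_lit 3344258046100) (nat_lit 0) (node leaf (nat_lit 3344258048293) (nat_lit 0) leaf)) (nat_lit 3344258049289) (nat_lit 0) (node (node leaf (nat_lit 3344258056741) (nat_lit 0) leaf) (nat_lit 3344258056852) (nat_lit 0) leaf))) (nat_lit 3344258058388) (nat_lit 0) (node (node (node (node leaf (nat_lit 3344258058832)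 (nat_lit 0) leaf) (nat_lit 3344258076820) (nat_lit 0) (node leaf (nat_lit 3344258077264) (nat_lit 0) leaf)) (nat_lit 3344258077714) (nat_lit 0) (node (node leaf (nat_lit 3344258077732) (nat_lit 0) leaf) (nat_lit 3344258105509) (nat_lit 0) leaf)) (nat_lit 3344258106004) (nat_lit 0) (node (node (node leaf (nat_lit 3344261223748) (nat_lit 0) leaf) (nat_lit 3344261252689) (nat_lit 0) leaf) (nat_lit 3344261255461) (nat_lit 0) (node (node leaf (nat_lit 3344261255761) (nat_lit 0) leaf) (nat_lit 3344261260624) (nat_lit 0) leaf)))))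

noncomputable def R1_17 : Tr := node R1_15 (nat_lit 3344257075348) (nat_lit 0) R1_16

noncomputable def R1_18 : Tr := (node (node (node (node (node (node leaf (nat_lit 3344261288257) (nat_lit 0) leaf) (nat_lit 3344261450065) (nat_lit 0) (node leaf (nat_lit 3344261453905) (nat_lit 0) leaf)) (nat_lit 3344261454145) (nat_lit 0) (node (node leaf (nat_lit 3344261464165) (nat_lit 0) leaf) (nat_lit 3344261464357) (nat_lit 0) leaf)) (nat_lit 3344261464657) (nat_lit 0) (node (node (node leaf (nat_lit 3344261466193) (nat_lit 0) leaf) (nat_lit 3344261466385) (nat_lit 0) (node leaf (nat_lit 3344261513365) (nat_lit 0) leaf)) (nat_lit 3344261513509) (nat_lit 0) (node (node leaf (nat_lit 3344261513605) (nat_lit 0) leaf) (nat_lit 3344261513617) (nat_lit 0) leaf))) (nat_lit 3344261513809) (nat_lit 0) (node (node (node (node leaf (nat_lit 3344261513812) (nat_lit 0) leaf) (nat_lit 3344261514265) (nat_lit 0) (node leaf (nat_lit 3344261514277) (nat_lit 0) leaf)) (nat_lit 3344261517349) (nat_lit 0) (node (node leaf (nat_lit 3344270660932) (nat_lit 0)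 leaf) (nat_lit 3344270692945) (nat_lit 0) leaf)) (nat_lit 3344270887249) (nat_lit 0) (node (node (node leaf (nat_lit 3344270891089) (nat_lit 0) leaf) (nat_lit 3344270901349) (nat_lit 0) (node leaf (nat_lit 3344270901841) (nat_lit 0) leaf)) (nat_lit 3344270950549) (nat_lit 0) (node (node leaf (nat_lit 3344273806660) (nat_lit 0) leaf) (nat_lit 3344273839141) (nat_lit 0) leaf)))) (nat_lit 3344273850517) (nat_lit 0) (node (node (node (node (node leaf (nat_lit 3344273850697) (nat_lit 0) leaf) (nat_lit 3344273850769) (nat_lit 0) (node leaf (nat_lit 3344273851429) (nat_lit 0) leaf)) (nat_lit 3344274032980) (nat_lit 0) (node (node leaf (nat_lit 3344274048037) (nat_lit 0) leaf) (nat_lit 3344274048133) (nat_lit 0) leaf)) (nat_lit 3344274097189) (nat_lit 0) (node (node (node leaf (nat_lit 3344274819412) (nat_lit 0) leaf) (nat_lit 3344274882709) (nat_lit 0) (node leaf (nat_lit 3344307622996) (nat_lit 0) leaf)) (nat_lit 3344307930181) (nat_lit 0) (node (node leaf (nat_lit 3344307933445) (nat_lit 0) leaf) (nat_lit 3344307934213) (nat_lit 0) leaf)))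 (nat_lit 3344308397329) (nat_lit 0) (node (node (node (node leaf (nat_lit 3344308397332) (nat_lit 0) leaf) (nat_lit 3344308409413) (nat_lit 0) (node leaf (nat_lit 3344308409617) (nat_lit 0) leaf)) (nat_lit 3344308409620) (nat_lit 0) (node (node leaf (nat_lit 3344308409668) (nat_lit 0) leaf) (nat_lit 3344308439365) (nat_lit 0) leaf)) (nat_lit 3344308441681) (nat_lit 0) (node (node (node leaf (nat_lit 3344308523077) (nat_lit 0) leaf) (nat_lit 3344308523269) (nat_lit 0) leaf) (nat_lit 3344308634773) (nat_lit 0) (node (node leaf (nat_lit 3344308635985) (nat_lit 0) leaf) (nat_lit 3344308638289) (nat_lit 0) leaf)))))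

noncomputable def R1_19 : Tr := (node (node (node (node (node (node leaf (nat_lit 3344308916245) (nat_lit 0) leaf) (nat_lit 3344309506117) (nat_lit 0) (node leaf (nat_lit 3344309702725) (nat_lit 0) leaf)) (nat_lit 3344312833093) (nat_lit 0) (node (node leaf (nat_lit 3344312833285) (nat_lit 0) leaf) (nat_lit 3344321024596) (nat_lit 0) leaf)) (nat_lit 3344321218897) (nat_lit 0) (node (node (node leaf (nat_lit 3344324169877) (nat_lit 0) leaf) (nat_lit 3344324363797) (nat_lit 0) (node leaf (nat_lit 3344324364625) (nat_lit 0) leaf)) (nat_lit 3344324364628) (nat_lit 0) (node (node leaf (nat_lit 3344324366485) (nat_lit 0) leaf) (nat_lit 3344324366869) (nat_lit 0) leaf))) (nat_lit 3344324378773) (nat_lit 0) (node (node (node (node leaf (nat_lit 3344325153301) (nat_lit 0) leaf) (nat_lit 3344325165205) (nat_lit 0) (node leaf (nat_lit 3344337998149) (nat_lit 0) leaf)) (nat_lit 3344337998917) (nat_lit 0) (node (node leaf (nat_lit 3437761927252) (nat_lit 0) leaf) (nat_lit 3437761938004) (nat_lit 0) leaf)) (nat_lit 3437761987657) (nat_lit 0)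 (node (node (node leaf (nat_lit 3437761987729) (nat_lit 0) leaf) (nat_lit 3437762002981) (nat_lit 0) (node leaf (nat_lit 3438818892112) (nat_lit 0) leaf)) (nat_lit 3438818903188) (nat_lit 0) (node (node leaf (nat_lit 3438818904340) (nat_lit 0) leaf) (nat_lit 3438818951461) (nat_lit 0) leaf)))) (nat_lit 3438818951557) (nat_lit 0) (node (node (node (node (node leaf (nat_lit 3438818951749) (nat_lit 0) leaf) (nat_lit 3438818952229) (nat_lit 0) (node leaf (nat_lit 3438818952325) (nat_lit 0) leaf)) (nat_lit 3438818952340) (nat_lit 0) (node (node leaf (nat_lit 3438818952724) (nat_lit 0) leaf) (nat_lit 3438818955301) (nat_lit 0) leaf)) (nat_lit 3438818955412) (nat_lit 0) (node (node (node leaf (nat_lit 3438818955796) (nat_lit 0) leaf) (nat_lit 3438818967700) (nat_lit 0) (node leaf (nat_lit 3438831232324) (nat_lit 0) leaf)) (nat_lit 3438831232336) (nat_lit 0) (node (node leaf (nat_lit 3438831244564) (nat_lit 0) leaf) (nat_lit 3438831244612) (nat_lit 0) leaf))) (nat_lit 3438831281488) (nat_lit 0) (node (node (node (node leaf (nat_lit 3438831306052)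 (nat_lit 0) leaf) (nat_lit 3438831306064) (nat_lit 0) (node leaf (nat_lit 3438831358225) (nat_lit 0) leaf)) (nat_lit 3438831358276) (nat_lit 0) (node (node leaf (nat_lit 3438831358993) (nat_lit 0) leaf) (nat_lit 3438831359044) (nat_lit 0) leaf)) (nat_lit 3438831473236) (nat_lit 0) (node (node (node leaf (nat_lit 3438831474196) (nat_lit 0) leaf) (nat_lit 3438831474769) (nat_lit 0) leaf) (nat_lit 3438831478096) (nat_lit 0) (node (node leaf (nat_lit 3438831486100) (nat_lit 0) leaf) (nat_lit 3438831487060) (nat_lit 0) leaf)))))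

noncomputable def R1_20 : Tr := node R1_18 (nat_lit 3344308643089) (nat_lit 0) R1_19

noncomputable def R1_21 : Tr := node R1_17 (nat_lit 3344261267845) (nat_lit 0) R1_20

noncomputable def R1_22 : Tr := (node (node (node (node (node (node leaf (nat_lit 3438831534229) (nat_lit 0) leaf) (nat_lit 3438831534676) (nat_lit 0) (node leaf (nat_lit 3438831535141) (nat_lit 0) leaf)) (nat_lit 3438831535237) (nat_lit 0) (node (node leaf (nat_lit 3438831535252) (nat_lit 0) leaf) (nat_lit 3438831535636) (nat_lit 0) leaf)) (nat_lit 3438831536404) (nat_lit 0) (node (node (node leaf (nat_lit 3438831538213) (nat_lit 0) leaf) (nat_lit 3438831538309) (nat_lit 0) (node leaf (nat_lit 3438831538324) (nat_lit 0) leaf)) (nat_lit 3438831538708) (nat_lit 0) (node (node leaf (nat_lit 3438831550501) (nat_lit 0) leaf) (nat_lit 3438831550561) (nat_lit 0) leaf))) (nat_lit 3438831550597) (nat_lit 0) (node (node (node (node leaf (nat_lit 3438831550612) (nat_lit 0) leaf) (nat_lit 3438831550729) (nat_lit 0) (node leaf (nat_lit 3438831751429) (nat_lit 0) leaf)) (nat_lit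 3438831751441) (nat_lit 0) (node (node leaf (nat_lit 3438831751444) (nat_lit 0) leaf) (nat_lit 3438831751492) (nat_lit 0) leaf)) (nat_lit 3438832341268) (nat_lit 0) (node (node (node leaf (nat_lit 3438832341316) (nat_lit 0) leaf) (nat_lit 3438834700564) (nat_lit 0) (node leaf (nat_lit 3438834700612) (nat_lit 0) leaf)) (nat_lit 3438835668244) (nat_lit 0) (node (node leaf (nat_lit 3438835680532) (nat_lit 0) leaf) (nat_lit 3440983148881) (nat_lit 0) leaf)))) (nat_lit 3445261342996) (nat_lit 0) (node (node (node (node (node leaf (nat_lit 3445261343044) (nat_lit 0) leaf) (nat_lit 3445261353364) (nat_lit 0) (node leaf (nat_lit 3445261354132) (nat_lit 0) leaf)) (nat_lit 3445261402261) (nat_lit 0) (node (node leaf (nat_lit 3445261402501) (nat_lit 0) leaf) (nat_lit 3445261402645) (nat_lit 0) leaf)) (nat_lit 3445261402708) (nat_lit 0) (node (node (node leaf (nat_lit 3445261403173) (nat_lit 0) leaf) (nat_lit 3445261403668) (nat_lit 0) (node leaf (nat_lit 3445261406356) (nat_lit 0) leaf)) (nat_lit 3445273683265) (nat_lit 0) (node (node leaf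 (nat_lit 3445273683268) (nat_lit 0) leaf) (nat_lit 3445273695505) (nat_lit 0) leaf))) (nat_lit 3445273695508) (nat_lit 0) (node (node (node (node leaf (nat_lit 3445273695556) (nat_lit 0) leaf) (nat_lit 3445273695568) (nat_lit 0) (node leaf (nat_lit 3445273727572) (nat_lit 0) leaf)) (nat_lit 3445273732420) (nat_lit 0) (node (node leaf (nat_lit 3445273809157) (nat_lit 0) leaf) (nat_lit 3445273809172) (nat_lit 0) leaf)) (nat_lit 3445273809925) (nat_lit 0) (node (node (node leaf (nat_lit 3445273809985) (nat_lit 0) leaf) (nat_lit 3445273921873) (nat_lit 0) (node leaf (nat_lit 3445273924180) (nat_lit 0) leaf)) (nat_lit 3445273925716) (nat_lit 0) (node (node leaf (nat_lit 3445273929028) (nat_lit 0) leaf) (nat_lit 3445273936021) (nat_lit 0) leaf)))))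

noncomputable def R1_23 : Tr := (node (node (node (node (node (node leaf (nat_lit 3445273936933) (nat_lit 0) leaf) (nat_lit 3445273938004) (nat_lit 0) (node leaf (nat_lit 3445273985413) (nat_lit 0) leaf)) (nat_lit 3445273985620) (nat_lit 0) (node (node leaf (nat_lit 3445273986085) (nat_lit 0) leaf) (nat_lit 3445273986181) (nat_lit 0) leaf)) (nat_lit 3445273986580) (nat_lit 0) (node (node (node leaf (nat_lit 3445273987156) (nat_lit 0) leaf) (nat_lit 3445273989157) (nat_lit 0) (node leaf (nat_lit 3445273989253) (nat_lit 0) leaf)) (nat_lit 3445273989268) (nat_lit 0) (node (node leaf (nat_lit 3445274001445) (nat_lit 0) leaf) (nat_lit 3445274202181) (nat_lit 0) leaf))) (nat_lit 3445274202373) (nat_lit 0) (node (node (node (node leaf (nat_lit 3445274202385) (nat_lit 0) leaf) (nat_lit 3445274202433) (nat_lit 0) (node leaf (nat_lit 3445274792209) (nat_lit 0) leaf)) (nat_lit 3445274792257) (nat_lit 0) (node (node leaf (nat_lit 3445277151505) (nat_lit 0) leaf) (nat_lit 3445277151553) (nat_lit 0) leaf)) (nat_lit 3445278119185) (nat_lit 0)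 (node (node (node leaf (nat_lit 3445278131473) (nat_lit 0) leaf) (nat_lit 3445814987089) (nat_lit 0) (node leaf (nat_lit 3445814987092) (nat_lit 0) leaf)) (nat_lit 3445814989396) (nat_lit 0) (node (node leaf (nat_lit 3445815050569) (nat_lit 0) leaf) (nat_lit 3445815050641) (nat_lit 0) leaf)))) (nat_lit 3445815054373) (nat_lit 0) (node (node (node (node (node leaf (nat_lit 3446871953812) (nat_lit 0) leaf) (nat_lit 3446871955729) (nat_lit 0) (node leaf (nat_lit 3446871955777) (nat_lit 0) leaf)) (nat_lit 3446871965845) (nat_lit 0) (node (node leaf (nat_lit 3446871966100) (nat_lit 0) leaf) (nat_lit 3446871966229) (nat_lit 0) leaf)) (nat_lit 3446872014997) (nat_lit 0) (node (node (node leaf (nat_lit 3446872015441) (nat_lit 0) leaf) (nat_lit 3446872015444) (nat_lit 0) (node leaf (nat_lit 3446884291156) (nat_lit 0) leaf)) (nat_lit 3446884295953) (nat_lit 0) (node (node leaf (nat_lit 3446884296001) (nat_lit 0) leaf) (nat_lit 3446884296004) (nat_lit 0) leaf))) (nat_lit 3446884308049) (nat_lit 0) (node (node (node (node leaf (nat_lit 3446884308052)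 (nat_lit 0) leaf) (nat_lit 3446884308244) (nat_lit 0) (node leaf (nat_lit 3446884308292) (nat_lit 0) leaf)) (nat_lit 3446884338001) (nat_lit 0) (node (node leaf (nat_lit 3446884340308) (nat_lit 0) leaf) (nat_lit 3446884421701) (nat_lit 0) leaf)) (nat_lit 3446884421893) (nat_lit 0) (node (node (node leaf (nat_lit 3446884421905) (nat_lit 0) leaf) (nat_lit 3446884422673) (nat_lit 0) leaf) (nat_lit 3446884533844) (nat_lit 0) (node (node leaf (nat_lit 3446884534612) (nat_lit 0) leaf) (nat_lit 3446884536469) (nat_lit 0) leaf)))))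

noncomputable def R1_24 : Tr := node R1_22 (nat_lit 3445273936468) (nat_lit 0) R1_23

noncomputable def R1_25 : Tr := (node (node (node (node (node (node leaf (nat_lit 3446884537381) (nat_lit 0) leaf) (nat_lit 3446884538452) (nat_lit 0) (node leaf (nat_lit 3446884541761) (nat_lit 0) leaf)) (nat_lit 3446884549204) (nat_lit 0) (node (node leaf (nat_lit 3446884549669) (nat_lit 0) leaf) (nat_lit 3446884549765) (nat_lit 0) leaf)) (nat_lit 3446884550740) (nat_lit 0) (node (node (node leaf (nat_lit 3446884552741) (nat_lit 0) leaf) (nat_lit 3446884597909) (nat_lit 0) (node leaf (nat_lit 3446884598356) (nat_lit 0) leaf)) (nat_lit 3446884598917) (nat_lit 0) (node (node leaf (nat_lit 3446884601893) (nat_lit 0) leaf) (nat_lit 3446884811845) (nat_lit 0) leaf))) (nat_lit 3446884814917) (nat_lit 0) (node (node (node (node leaf (nat_lit 3446884815109) (nat_lit 0) leaf) (nat_lit 3446884815121) (nat_lit 0) (node leaf (nat_lit 3446885404933) (nat_lit 0) leaf)) (nat_lit 3446885404945) (nat_lit 0) (node (node leaf (nat_lit 3446887764229) (nat_lit 0)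 leaf) (nat_lit 3446887764241) (nat_lit 0) leaf)) (nat_lit 3446888731909) (nat_lit 0) (node (node (node leaf (nat_lit 3446888731921) (nat_lit 0) leaf) (nat_lit 3447022946641) (nat_lit 0) (node leaf (nat_lit 3447022946644) (nat_lit 0) leaf)) (nat_lit 3447022948948) (nat_lit 0) (node (node leaf (nat_lit 3447023010121) (nat_lit 0) leaf) (nat_lit 3447023010193) (nat_lit 0) leaf)))) (nat_lit 3447023013925) (nat_lit 0) (node (node (node (node (node leaf (nat_lit 3447123609172) (nat_lit 0) leaf) (nat_lit 3447274604116) (nat_lit 0) (node leaf (nat_lit 3447274606741) (nat_lit 0) leaf)) (nat_lit 3447274607125) (nat_lit 0) (node (node leaf (nat_lit 3447274619029) (nat_lit 0) leaf) (nat_lit 3447286944337) (nat_lit 0) leaf)) (nat_lit 3447286948945) (nat_lit 0) (node (node (node leaf (nat_lit 3447286949137) (nat_lit 0) leaf) (nat_lit 3447286949140) (nat_lit 0) (node leaf (nat_lit 3447286961221) (nat_lit 0) leaf)) (nat_lit 3447286961233) (nat_lit 0) (node (node leaf (nat_lit 3447286961425) (nat_lit 0) leaf) (nat_lit 3447286961428) (nat_lit 0) leaf)))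 (nat_lit 3447286991173) (nat_lit 0) (node (node (node (node leaf (nat_lit 3447286993489) (nat_lit 0) leaf) (nat_lit 3447287071813) (nat_lit 0) (node leaf (nat_lit 3447287074885) (nat_lit 0) leaf)) (nat_lit 3447287075077) (nat_lit 0) (node (node leaf (nat_lit 3447287075845) (nat_lit 0) leaf) (nat_lit 3447287186581) (nat_lit 0) leaf)) (nat_lit 3447287190097) (nat_lit 0) (node (node (node leaf (nat_lit 3447287194897) (nat_lit 0) leaf) (nat_lit 3447287202385) (nat_lit 0) leaf) (nat_lit 3447287464981) (nat_lit 0) (node (node leaf (nat_lit 3447287468053) (nat_lit 0) leaf) (nat_lit 3447287468101) (nat_lit 0) leaf)))))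

noncomputable def R1_26 : Tr := (node (node (node (node (node (node leaf (nat_lit 3447288057925) (nat_lit 0) leaf) (nat_lit 3447288058117) (nat_lit 0) (node leaf (nat_lit 3447290417221) (nat_lit 0) leaf)) (nat_lit 3447290417413) (nat_lit 0) (node (node leaf (nat_lit 3447291384901) (nat_lit 0) leaf) (nat_lit 3447291385093) (nat_lit 0) leaf)) (nat_lit 3447324936529) (nat_lit 0) (node (node (node leaf (nat_lit 3447332111953) (nat_lit 0) leaf) (nat_lit 3447332164177) (nat_lit 0) (node leaf (nat_lit 3447332164753) (nat_lit 0) leaf)) (nat_lit 3447332164882) (nat_lit 0) (node (node leaf (nat_lit 3447332164897) (nat_lit 0) leaf) (nat_lit 3447332164900) (nat_lit 0) leaf))) (nat_lit 3447332165137) (nat_lit 0) (node (node (node (node leaf (nat_lit 3447332283985) (nat_lit 0) leaf) (nat_lit 3447332283988) (nat_lit 0) (node leaf (nat_lit 3447332292901) (nat_lit 0) leaf)) (nat_lit 3447332292997) (nat_lit 0) (node (node leaf (nat_lit 3447332293012) (nat_lit 0) leaf) (nat_lit 3447332293204) (nat_lit 0) leaf)) (nat_lit 3447332299156) (nat_lit 0)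 (node (node (node leaf (nat_lit 3447332299348) (nat_lit 0) leaf) (nat_lit 3447332301124) (nat_lit 0) (node leaf (nat_lit 3447332308261) (nat_lit 0) leaf)) (nat_lit 3447332308561) (nat_lit 0) (node (node leaf (nat_lit 3447332308564) (nat_lit 0) leaf) (nat_lit 3447332311333) (nat_lit 0) leaf)))) (nat_lit 3447332311429) (nat_lit 0) (node (node (node (node (node leaf (nat_lit 3447332311444) (nat_lit 0) leaf) (nat_lit 3447332311636) (nat_lit 0) (node leaf (nat_lit 3447332312101) (nat_lit 0) leaf)) (nat_lit 3447332312137) (nat_lit 0) (node (node leaf (nat_lit 3447332312197) (nat_lit 0) leaf) (nat_lit 3447332312212) (nat_lit 0) leaf)) (nat_lit 3447332313172) (nat_lit 0) (node (node (node leaf (nat_lit 3447332313364) (nat_lit 0) leaf) (nat_lit 3447332316496) (nat_lit 0) (node leaf (nat_lit 3447332340133) (nat_lit 0) leaf)) (nat_lit 3447332340901) (nat_lit 0) (node (node leaf (nat_lit 3447332342053) (nat_lit 0) leaf) (nat_lit 3447332342149) (nat_lit 0) leaf))) (nat_lit 3447332344468) (nat_lit 0) (node (node (node (node leaf (nat_lit 3447332349076)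 (nat_lit 0) leaf) (nat_lit 3447332373076) (nat_lit 0) (node leaf (nat_lit 3447332407636) (nat_lit 0) leaf)) (nat_lit 3447332409637) (nat_lit 0) (node (node leaf (nat_lit 3447332409940) (nat_lit 0) leaf) (nat_lit 3447332410393) (nat_lit 0) leaf)) (nat_lit 3447332410405) (nat_lit 0) (node (node (node leaf (nat_lit 3447332410441) (nat_lit 0) leaf) (nat_lit 3447332410513) (nat_lit 0) leaf) (nat_lit 3447332410633) (nat_lit 0) (node (node leaf (nat_lit 3447332410642) (nat_lit 0) leaf) (nat_lit 3447332410660) (nat_lit 0) leaf)))))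

noncomputable def R1_27 : Tr := node R1_25 (nat_lit 3447287468293) (nat_lit 0) R1_26

noncomputable def R1_28 : Tr := node R1_24 (nat_lit 3446884536916) (nat_lit 0) R1_27

noncomputable def R1_29 : Tr := node R1_21 (nat_lit 3438831487252) (nat_lit 0) R1_28

noncomputable def R1_30 : Tr := node R1_14 (nat_lit 3344254932292) (nat_lit 0) R1_29

noncomputable def R1_31 : Tr := (node (node (node (node (node (node leaf (nat_lit 3447332421961) (nat_lit 0) leaf) (nat_lit 3447332422033) (nat_lit 0) (node leaf (nat_lit 3447332422228) (nat_lit 0) leaf)) (nat_lit 3447332422804) (nat_lit 0) (node (node leaf (nat_lit 3447332424001) (nat_lit 0) leaf) (nat_lit 3447332426260) (nat_lit 0) leaf)) (nat_lit 3447332603173) (nat_lit 0) (node (node (node leaf (nat_lit 3447332603461) (nat_lit 0) leaf) (nat_lit 3447332603473) (nat_lit 0) (node leaf (nat_lit 3447332603476) (nat_lit 0) leaf)) (nat_lit 3447332606245) (nat_lit 0) (node (node leaf (nat_lit 3447332606548) (nat_lit 0) leaf) (nat_lit 3447332611408) (nat_lit 0) leaf))) (nat_lit 3447332618389) (nat_lit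 0) (node (node (node (node leaf (nat_lit 3447332618533) (nat_lit 0) leaf) (nat_lit 3447332618629) (nat_lit 0) (node leaf (nat_lit 3447332618836) (nat_lit 0) leaf)) (nat_lit 3447332619301) (nat_lit 0) (node (node leaf (nat_lit 3447332619397) (nat_lit 0) leaf) (nat_lit 3447332619409) (nat_lit 0) leaf)) (nat_lit 3447332619412) (nat_lit 0) (node (node (node leaf (nat_lit 3447332619796) (nat_lit 0) leaf) (nat_lit 3447332620369) (nat_lit 0) (node leaf (nat_lit 3447332620372) (nat_lit 0) leaf)) (nat_lit 3447332620609) (nat_lit 0) (node (node leaf (nat_lit 3447332620612) (nat_lit 0) leaf) (nat_lit 3447332622361) (nat_lit 0) leaf)))) (nat_lit 3447332622373) (nat_lit 0) (node (node (node (node (node leaf (nat_lit 3447332622409) (nat_lit 0) leaf) (nat_lit 3447332622433) (nat_lit 0) (node leaf (nat_lit 3447332622484) (nat_lit 0) leaf)) (nat_lit 3447332622601) (nat_lit 0) (node (node leaf (nat_lit 3447332622625) (nat_lit 0) leaf) (nat_lit 3447332622628) (nat_lit 0) leaf)) (nat_lit 3447332622868) (nat_lit 0) (node (node (node leaf (nat_lit 3447332622916)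 (nat_lit 0) leaf) (nat_lit 3447332623366) (nat_lit 0) (node leaf (nat_lit 3447332623369) (nat_lit 0) leaf)) (nat_lit 3447332626753) (nat_lit 0) (node (node leaf (nat_lit 3447332626768) (nat_lit 0) leaf) (nat_lit 3447332635969) (nat_lit 0) leaf))) (nat_lit 3447332635972) (nat_lit 0) (node (node (node (node leaf (nat_lit 3447332639044) (nat_lit 0) leaf) (nat_lit 3447333070117) (nat_lit 0) (node leaf (nat_lit 3447333070177) (nat_lit 0) leaf)) (nat_lit 3447333079369) (nat_lit 0) (node (node leaf (nat_lit 3447333079444) (nat_lit 0) leaf) (nat_lit 3447333079636) (nat_lit 0) leaf)) (nat_lit 3447333085513) (nat_lit 0) (node (node (node leaf (nat_lit 3447333085588) (nat_lit 0) leaf) (nat_lit 3447333085780) (nat_lit 0) (node leaf (nat_lit 3447333098533) (nat_lit 0) leaf)) (nat_lit 3447333098569) (nat_lit 0) (node (node leaf (nat_lit 3447333098593) (nat_lit 0) leaf) (nat_lit 3447333098641) (nat_lit 0) leaf)))))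

noncomputable def R1_32 : Tr := (node (node (node (node (node (node leaf (nat_lit 3447333098761) (nat_lit 0) leaf) (nat_lit 3447333098770) (nat_lit 0) (node leaf (nat_lit 3447333098785) (nat_lit 0) leaf)) (nat_lit 3447333098788) (nat_lit 0) (node (node leaf (nat_lit 3447333099028) (nat_lit 0) leaf) (nat_lit 3447333099796) (nat_lit 0) leaf)) (nat_lit 3447333099844) (nat_lit 0) (node (node (node leaf (nat_lit 3447333126805) (nat_lit 0) leaf) (nat_lit 3447333127333) (nat_lit 0) (node leaf (nat_lit 3447333128485) (nat_lit 0) leaf)) (nat_lit 3447333128596) (nat_lit 0) (node (node leaf (nat_lit 3447333134932) (nat_lit 0) leaf) (nat_lit 3447333135625) (nat_lit 0) leaf))) (nat_lit 3447333135892) (nat_lit 0) (node (node (node (node leaf (nat_lit 3447333196180) (nat_lit 0) leaf) (nat_lit 3447333197065) (nat_lit 0) (node leaf (nat_lit 3447333208660) (nat_lit 0) leaf)) (nat_lit 3447333209125) (nat_lit 0) (node (node leaf (nat_lit 3447333209353) (nat_lit 0) leaf) (nat_lit 3447333212197) (nat_lit 0) leaf)) (nat_lit 3447333212308) (nat_lit 0)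 (node (node (node leaf (nat_lit 3447333213208) (nat_lit 0) leaf) (nat_lit 3447333214288) (nat_lit 0) (node leaf (nat_lit 3447333323941) (nat_lit 0) leaf)) (nat_lit 3447333325093) (nat_lit 0) (node (node leaf (nat_lit 3447333327508) (nat_lit 0) leaf) (nat_lit 3447333332116) (nat_lit 0) leaf)))) (nat_lit 3447333458068) (nat_lit 0) (node (node (node (node (node leaf (nat_lit 3447333603664) (nat_lit 0) leaf) (nat_lit 3447333605524) (nat_lit 0) (node leaf (nat_lit 3447333606409) (nat_lit 0) leaf)) (nat_lit 3447334147393) (nat_lit 0) (node (node leaf (nat_lit 3447334147396) (nat_lit 0) leaf) (nat_lit 3447334176337) (nat_lit 0) leaf)) (nat_lit 3447334179109) (nat_lit 0) (node (node (node leaf (nat_lit 3447334179409) (nat_lit 0) leaf) (nat_lit 3447334184272) (nat_lit 0) (node leaf (nat_lit 3447334191397) (nat_lit 0) leaf)) (nat_lit 3447334191493) (nat_lit 0) (node (node leaf (nat_lit 3447334192165) (nat_lit 0) leaf) (nat_lit 3447334192201) (nat_lit 0) leaf))) (nat_lit 3447334192261) (nat_lit 0) (node (node (node (node leaf (nat_lit 3447334192273)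 (nat_lit 0) leaf) (nat_lit 3447334193425) (nat_lit 0) (node leaf (nat_lit 3447334193473) (nat_lit 0) leaf)) (nat_lit 3447334211905) (nat_lit 0) (node (node leaf (nat_lit 3447334373713) (nat_lit 0) leaf) (nat_lit 3447334373716) (nat_lit 0) leaf)) (nat_lit 3447334388101) (nat_lit 0) (node (node (node leaf (nat_lit 3447334388308) (nat_lit 0) leaf) (nat_lit 3447334388773) (nat_lit 0) leaf) (nat_lit 3447334390033) (nat_lit 0) (node (node leaf (nat_lit 3447334391845) (nat_lit 0) leaf) (nat_lit 3447334437193) (nat_lit 0) leaf)))))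

noncomputable def R1_33 : Tr := node R1_31 (nat_lit 3447333098644) (nat_lit 0) R1_32

noncomputable def R1_34 : Tr := (node (node (node (node (node (node leaf (nat_lit 3447334437265) (nat_lit 0) leaf) (nat_lit 3447334437460) (nat_lit 0) (node leaf (nat_lit 3447334437925) (nat_lit 0) leaf)) (nat_lit 3447334440997) (nat_lit 0) (node (node leaf (nat_lit 3447336215905) (nat_lit 0) leaf) (nat_lit 3447336215941) (nat_lit 0) leaf)) (nat_lit 3447336225097) (nat_lit 0) (node (node (node leaf (nat_lit 3447336225364) (nat_lit 0) leaf) (nat_lit 3447336231241) (nat_lit 0) (node leaf (nat_lit 3447336231973) (nat_lit 0) leaf)) (nat_lit 3447336244372) (nat_lit 0) (node (node leaf (nat_lit 3447336244489) (nat_lit 0) leaf) (nat_lit 3447336244756) (nat_lit 0) leaf))) (nat_lit 3447336272533) (nat_lit 0) (node (node (node (node leaf (nat_lit 3447336273445) (nat_lit 0) leaf) (nat_lit 3447336274249) (nat_lit 0) (node leaf (nat_lit 3447336274324) (nat_lit 0) leaf)) (nat_lit 3447336274516) (nat_lit 0) (node (node leaf (nat_lit 3447336296596) (nat_lit 0)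 leaf) (nat_lit 3447336305812) (nat_lit 0) leaf)) (nat_lit 3447336305929) (nat_lit 0) (node (node (node leaf (nat_lit 3447336358276) (nat_lit 0) leaf) (nat_lit 3447336358480) (nat_lit 0) (node leaf (nat_lit 3447336358930) (nat_lit 0) leaf)) (nat_lit 3447336358948) (nat_lit 0) (node (node leaf (nat_lit 3447336469669) (nat_lit 0) leaf) (nat_lit 3447336470821) (nat_lit 0) leaf)))) (nat_lit 3447336476965) (nat_lit 0) (node (node (node (node (node leaf (nat_lit 3447336477961) (nat_lit 0) leaf) (nat_lit 3447336487060) (nat_lit 0) (node leaf (nat_lit 3447336505492) (nat_lit 0) leaf)) (nat_lit 3447336751252) (nat_lit 0) (node (node leaf (nat_lit 3447337256101) (nat_lit 0) leaf) (nat_lit 3447337257253) (nat_lit 0) leaf)) (nat_lit 3447337271956) (nat_lit 0) (node (node (node leaf (nat_lit 3447340438849) (nat_lit 0) leaf) (nat_lit 3447340467493) (nat_lit 0) (node leaf (nat_lit 3447340467781) (nat_lit 0) leaf)) (nat_lit 3447340467793) (nat_lit 0) (node (node leaf (nat_lit 3447340475716) (nat_lit 0) leaf) (nat_lit 3447340482661) (nat_lit 0) leaf)))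 (nat_lit 3447340482709) (nat_lit 0) (node (node (node (node leaf (nat_lit 3447340482853) (nat_lit 0) leaf) (nat_lit 3447340484689) (nat_lit 0) (node leaf (nat_lit 3447340500289) (nat_lit 0) leaf)) (nat_lit 3447340665169) (nat_lit 0) (node (node leaf (nat_lit 3447340679317) (nat_lit 0) leaf) (nat_lit 3447340679461) (nat_lit 0) leaf)) (nat_lit 3447340679761) (nat_lit 0) (node (node (node leaf (nat_lit 3447340679764) (nat_lit 0) leaf) (nat_lit 3447340681297) (nat_lit 0) leaf) (nat_lit 3447340728469) (nat_lit 0) (node (node leaf (nat_lit 3447340728709) (nat_lit 0) leaf) (nat_lit 3447340729381) (nat_lit 0) leaf)))))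

noncomputable def R1_35 : Tr := (node (node (node (node (node (node leaf (nat_lit 3447349919845) (nat_lit 0) leaf) (nat_lit 3447349919893) (nat_lit 0) (node leaf (nat_lit 3447350102341) (nat_lit 0) leaf)) (nat_lit 3447350102353) (nat_lit 0) (node (node leaf (nat_lit 3447350116501) (nat_lit 0) leaf) (nat_lit 3447353021761) (nat_lit 0) leaf)) (nat_lit 3447353053477) (nat_lit 0) (node (node (node leaf (nat_lit 3447353065765) (nat_lit 0) leaf) (nat_lit 3447353065861) (nat_lit 0) (node leaf (nat_lit 3447353066533) (nat_lit 0) leaf)) (nat_lit 3447353066629) (nat_lit 0) (node (node leaf (nat_lit 3447353248081) (nat_lit 0) leaf) (nat_lit 3447353263141) (nat_lit 0) leaf))) (nat_lit 3447354034513) (nat_lit 0) (node (node (node (node leaf (nat_lit 3447354048661) (nat_lit 0) leaf) (nat_lit 3447386838097) (nat_lit 0) (node leaf (nat_lit 3447387145237) (nat_lit 0) leaf)) (nat_lit 3447387148357) (nat_lit 0) (node (node leaf (nat_lit 3447387148549) (nat_lit 0) leaf) (nat_lit 3447387605317) (nat_lit 0) leaf)) (nat_lit 3447387607633) (nat_lit 0)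 (node (node (node leaf (nat_lit 3447387612241) (nat_lit 0) leaf) (nat_lit 3447387612433) (nat_lit 0) (node leaf (nat_lit 3447387623749) (nat_lit 0) leaf)) (nat_lit 3447387624529) (nat_lit 0) (node (node leaf (nat_lit 3447387624721) (nat_lit 0) leaf) (nat_lit 3447387624769) (nat_lit 0) leaf)))) (nat_lit 3447387653269) (nat_lit 0) (node (node (node (node (node leaf (nat_lit 3447387656785) (nat_lit 0) leaf) (nat_lit 3447387735109) (nat_lit 0) (node leaf (nat_lit 3447387738181) (nat_lit 0) leaf)) (nat_lit 3447387851077) (nat_lit 0) (node (node leaf (nat_lit 3447387851089) (nat_lit 0) leaf) (nat_lit 3447387858181) (nat_lit 0) leaf)) (nat_lit 3447388128277) (nat_lit 0) (node (node (node leaf (nat_lit 3447388721173) (nat_lit 0) leaf) (nat_lit 3447388721221) (nat_lit 0) (node leaf (nat_lit 3447392047429) (nat_lit 0) leaf)) (nat_lit 3447392048197) (nat_lit 0) (node (node leaf (nat_lit 3447400236628) (nat_lit 0) leaf) (nat_lit 3447400239253) (nat_lit 0) leaf))) (nat_lit 3447400434001) (nat_lit 0) (node (node (node (node leaf (nat_lit 3447403384981)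 (nat_lit 0) leaf) (nat_lit 3447403577941) (nat_lit 0) (node leaf (nat_lit 3447403578901) (nat_lit 0) leaf)) (nat_lit 3447403579729) (nat_lit 0) (node (node leaf (nat_lit 3447403581589) (nat_lit 0) leaf) (nat_lit 3447404365333) (nat_lit 0) leaf)) (nat_lit 3447404368021) (nat_lit 0) (node (node (node leaf (nat_lit 3447417213205) (nat_lit 0) leaf) (nat_lit 3447417213973) (nat_lit 0) leaf) (nat_lit 3471031146580) (nat_lit 0) (node (node leaf (nat_lit 3471031146772) (nat_lit 0) leaf) (nat_lit 3471031156885) (nat_lit 0) leaf)))))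

noncomputable def R1_36 : Tr := node R1_34 (nat_lit 3447349876033) (nat_lit 0) R1_35

noncomputable def R1_37 : Tr := node R1_33 (nat_lit 3447334437253) (nat_lit 0) R1_36

noncomputable def R1_38 : Tr := (node (node (node (node (node (node leaf (nat_lit 3471031157269) (nat_lit 0) leaf) (nat_lit 3471031157332) (nat_lit 0) (node leaf (nat_lit 3471031206037) (nat_lit 0) leaf)) (nat_lit 3471031206484) (nat_lit 0) (node (node leaf (nat_lit 3471043486993) (nat_lit 0) leaf) (nat_lit 3471043487041) (nat_lit 0) leaf)) (nat_lit 3471043487044) (nat_lit 0) (node (node (node leaf (nat_lit 3471043499089) (nat_lit 0) leaf) (nat_lit 3471043499281) (nat_lit 0) (node leaf (nat_lit 3471043499329) (nat_lit 0) leaf)) (nat_lit 3471043499332) (nat_lit 0) (node (node leaf (nat_lit 3471043528276) (nat_lit 0) leaf) (nat_lit 3471043529041) (nat_lit 0) leaf))) (nat_lit 3471043609861) (nat_lit 0) (node (node (node (node leaf (nat_lit 3471043612933) (nat_lit 0) leaf) (nat_lit 3471043612945) (nat_lit 0) (node leaf (nat_lit 3471043613713) (nat_lit 0) leaf)) (nat_lit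 3471043727509) (nat_lit 0) (node (node leaf (nat_lit 3471043727953) (nat_lit 0) leaf) (nat_lit 3471043727956) (nat_lit 0) leaf)) (nat_lit 3471043728421) (nat_lit 0) (node (node (node leaf (nat_lit 3471043729489) (nat_lit 0) leaf) (nat_lit 3471043729492) (nat_lit 0) (node leaf (nat_lit 3471043732756) (nat_lit 0) leaf)) (nat_lit 3471043740244) (nat_lit 0) (node (node leaf (nat_lit 3471043740709) (nat_lit 0) leaf) (nat_lit 3471043741780) (nat_lit 0) leaf)))) (nat_lit 3471043788949) (nat_lit 0) (node (node (node (node (node leaf (nat_lit 3471043789189) (nat_lit 0) leaf) (nat_lit 3471043789396) (nat_lit 0) (node leaf (nat_lit 3471043789861) (nat_lit 0) leaf)) (nat_lit 3471043789957) (nat_lit 0) (node (node leaf (nat_lit 3471043792933) (nat_lit 0) leaf) (nat_lit 3471044002885) (nat_lit 0) leaf)) (nat_lit 3471044003077) (nat_lit 0) (node (node (node leaf (nat_lit 3471044006149) (nat_lit 0) leaf) (nat_lit 3471044006161) (nat_lit 0) (node leaf (nat_lit 3471044595973) (nat_lit 0) leaf)) (nat_lit 3471044595985) (nat_lit 0) (node (node leaf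 (nat_lit 3471046955269) (nat_lit 0) leaf) (nat_lit 3471046955281) (nat_lit 0) leaf))) (nat_lit 3471047922949) (nat_lit 0) (node (node (node (node leaf (nat_lit 3471047922961) (nat_lit 0) leaf) (nat_lit 3471584790100) (nat_lit 0) (node leaf (nat_lit 3471584790865) (nat_lit 0) leaf)) (nat_lit 3471584854405) (nat_lit 0) (node (node leaf (nat_lit 3471584855077) (nat_lit 0) leaf) (nat_lit 3472641757333) (nat_lit 0) leaf)) (nat_lit 3472641757588) (nat_lit 0) (node (node (node leaf (nat_lit 3472641757717) (nat_lit 0) leaf) (nat_lit 3472641759313) (nat_lit 0) (node leaf (nat_lit 3472641759505) (nat_lit 0) leaf)) (nat_lit 3472641769621) (nat_lit 0) (node (node leaf (nat_lit 3472641770065) (nat_lit 0) leaf) (nat_lit 3472641819217) (nat_lit 0) leaf)))))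

noncomputable def R1_39 : Tr := (node (node (node (node (node (node leaf (nat_lit 3472654092625) (nat_lit 0) leaf) (nat_lit 3472654099537) (nat_lit 0) (node leaf (nat_lit 3472654099729) (nat_lit 0) leaf)) (nat_lit 3472654099732) (nat_lit 0) (node (node leaf (nat_lit 3472654111813) (nat_lit 0) leaf) (nat_lit 3472654111825) (nat_lit 0) leaf)) (nat_lit 3472654112017) (nat_lit 0) (node (node (node leaf (nat_lit 3472654112020) (nat_lit 0) leaf) (nat_lit 3472654143637) (nat_lit 0) (node leaf (nat_lit 3472654144084) (nat_lit 0) leaf)) (nat_lit 3472654156837) (nat_lit 0) (node (node leaf (nat_lit 3472654222405) (nat_lit 0) leaf) (nat_lit 3472654222597) (nat_lit 0) leaf))) (nat_lit 3472654225669) (nat_lit 0) (node (node (node (node leaf (nat_lit 3472654226437) (nat_lit 0) leaf) (nat_lit 3472654337617) (nat_lit 0) (node leaf (nat_lit 3472654338385) (nat_lit 0) leaf)) (nat_lit 3472654338388) (nat_lit 0) (node (node leaf (nat_lit 3472654340389) (nat_lit 0) leaf) (nat_lit 3472654340692) (nat_lit 0) leaf)) (nat_lit 3472654342228) (nat_lit 0)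 (node (node (node leaf (nat_lit 3472654345489) (nat_lit 0) leaf) (nat_lit 3472654352533) (nat_lit 0) (node leaf (nat_lit 3472654352773) (nat_lit 0) leaf)) (nat_lit 3472654352980) (nat_lit 0) (node (node leaf (nat_lit 3472654353445) (nat_lit 0) leaf) (nat_lit 3472654401925) (nat_lit 0) leaf)))) (nat_lit 3472654402597) (nat_lit 0) (node (node (node (node (node leaf (nat_lit 3472654614853) (nat_lit 0) leaf) (nat_lit 3472654615621) (nat_lit 0) (node leaf (nat_lit 3472654618693) (nat_lit 0) leaf)) (nat_lit 3472654618885) (nat_lit 0) (node (node leaf (nat_lit 3472655208517) (nat_lit 0) leaf) (nat_lit 3472655208709) (nat_lit 0) leaf)) (nat_lit 3472657567813) (nat_lit 0) (node (node (node leaf (nat_lit 3472657568005) (nat_lit 0) leaf) (nat_lit 3472658535493) (nat_lit 0) (node leaf (nat_lit 3472658535505) (nat_lit 0) leaf)) (nat_lit 3472792749652) (nat_lit 0) (node (node leaf (nat_lit 3472792750417) (nat_lit 0) leaf) (nat_lit 3472792813957) (nat_lit 0) leaf))) (nat_lit 3472792814629) (nat_lit 0) (node (node (node (node leaf (nat_lit 3472893412945)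 (nat_lit 0) leaf) (nat_lit 3473044407445) (nat_lit 0) (node leaf (nat_lit 3473044407829) (nat_lit 0) leaf)) (nat_lit 3473044407889) (nat_lit 0) (node (node leaf (nat_lit 3473044408657) (nat_lit 0) leaf) (nat_lit 3473044410517) (nat_lit 0) leaf)) (nat_lit 3473056745041) (nat_lit 0) (node (node (node leaf (nat_lit 3473056745797) (nat_lit 0) leaf) (nat_lit 3473056752709) (nat_lit 0) leaf) (nat_lit 3473056752901) (nat_lit 0) (node (node leaf (nat_lit 3473056752913) (nat_lit 0) leaf) (nat_lit 3473056764229) (nat_lit 0) leaf)))))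

noncomputable def R1_40 : Tr := node R1_38 (nat_lit 3472654091860) (nat_lit 0) R1_39

noncomputable def R1_41 : Tr := (node (node (node (node (node (node leaf (nat_lit 3473056765009) (nat_lit 0) leaf) (nat_lit 3473056765201) (nat_lit 0) (node leaf (nat_lit 3473056793749) (nat_lit 0) leaf)) (nat_lit 3473056794193) (nat_lit 0) (node (node leaf (nat_lit 3473056797265) (nat_lit 0) leaf) (nat_lit 3473056809109) (nat_lit 0) leaf)) (nat_lit 3473056875541) (nat_lit 0) (node (node (node leaf (nat_lit 3473056875589) (nat_lit 0) leaf) (nat_lit 3473056878661) (nat_lit 0) (node leaf (nat_lit 3473056878853) (nat_lit 0) leaf)) (nat_lit 3473056991557) (nat_lit 0) (node (node leaf (nat_lit 3473056993873) (nat_lit 0) leaf) (nat_lit 3473056998661) (nat_lit 0) leaf))) (nat_lit 3473057267989) (nat_lit 0) (node (node (node (node leaf (nat_lit 3473057268757) (nat_lit 0) leaf) (nat_lit 3473057271829) (nat_lit 0) (node leaf (nat_lit 3473057271877) (nat_lit 0) leaf)) (nat_lit 3473057861653) (nat_lit 0) (node (node leaf (nat_lit 3473057861701) (nat_lit 0)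 leaf) (nat_lit 3473060220949) (nat_lit 0) leaf)) (nat_lit 3473060220997) (nat_lit 0) (node (node (node leaf (nat_lit 3473061188629) (nat_lit 0) leaf) (nat_lit 3473061188677) (nat_lit 0) (node leaf (nat_lit 3473094740305) (nat_lit 0) leaf)) (nat_lit 3473094803845) (nat_lit 0) (node (node leaf (nat_lit 3473094804517) (nat_lit 0) leaf) (nat_lit 3473101900180) (nat_lit 0) leaf)))) (nat_lit 3473101915429) (nat_lit 0) (node (node (node (node (node leaf (nat_lit 3473101915717) (nat_lit 0) leaf) (nat_lit 3473101915729) (nat_lit 0) (node leaf (nat_lit 3473101915732) (nat_lit 0) leaf)) (nat_lit 3473101918597) (nat_lit 0) (node (node leaf (nat_lit 3473101918612) (nat_lit 0) leaf) (nat_lit 3473101919305) (nat_lit 0) leaf)) (nat_lit 3473101919365) (nat_lit 0) (node (node (node leaf (nat_lit 3473101920340) (nat_lit 0) leaf) (nat_lit 3473101923664) (nat_lit 0) (node leaf (nat_lit 3473101967653) (nat_lit 0) leaf)) (nat_lit 3473101967941) (nat_lit 0) (node (node leaf (nat_lit 3473101967956) (nat_lit 0) leaf) (nat_lit 3473101968457) (nat_lit 0) leaf)))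 (nat_lit 3473101968481) (nat_lit 0) (node (node (node (node leaf (nat_lit 3473101968517) (nat_lit 0) leaf) (nat_lit 3473101968529) (nat_lit 0) (node leaf (nat_lit 3473101968649) (nat_lit 0) leaf)) (nat_lit 3473101968658) (nat_lit 0) (node (node leaf (nat_lit 3473101968673) (nat_lit 0) leaf) (nat_lit 3473101968676) (nat_lit 0) leaf)) (nat_lit 3473101968901) (nat_lit 0) (node (node (node leaf (nat_lit 3473102084485) (nat_lit 0) leaf) (nat_lit 3473102087461) (nat_lit 0) leaf) (nat_lit 3473102087749) (nat_lit 0) (node (node leaf (nat_lit 3473102087761) (nat_lit 0) leaf) (nat_lit 3473102087764) (nat_lit 0) leaf)))))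

noncomputable def R1_42 : Tr := (node (node (node (node (node (node leaf (nat_lit 3473102096677) (nat_lit 0) leaf) (nat_lit 3473102096713) (nat_lit 0) (node leaf (nat_lit 3473102096773) (nat_lit 0) leaf)) (nat_lit 3473102102857) (nat_lit 0) (node (node leaf (nat_lit 3473102102929) (nat_lit 0) leaf) (nat_lit 3473102103124) (nat_lit 0) leaf)) (nat_lit 3473102104852) (nat_lit 0) (node (node (node leaf (nat_lit 3473102112037) (nat_lit 0) leaf) (nat_lit 3473102112340) (nat_lit 0) (node leaf (nat_lit 3473102115109) (nat_lit 0) leaf)) (nat_lit 3473102115412) (nat_lit 0) (node (node leaf (nat_lit 3473102115877) (nat_lit 0) leaf) (nat_lit 3473102115988) (nat_lit 0) leaf))) (nat_lit 3473102116948) (nat_lit 0) (node (node (node (node leaf (nat_lit 3473102117140) (nat_lit 0) leaf) (nat_lit 3473102117188) (nat_lit 0) (node leaf (nat_lit 3473102144149) (nat_lit 0) leaf)) (nat_lit 3473102144677) (nat_lit 0) (node (node leaf (nat_lit 3473102145829) (nat_lit 0) leaf) (nat_lit 3473102152084) (nat_lit 0) leaf)) (nat_lit 3473102153236) (nat_lit 0)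 (node (node (node leaf (nat_lit 3473102211412) (nat_lit 0) leaf) (nat_lit 3473102213413) (nat_lit 0) (node leaf (nat_lit 3473102213524) (nat_lit 0) leaf)) (nat_lit 3473102214409) (nat_lit 0) (node (node leaf (nat_lit 3473102225797) (nat_lit 0) leaf) (nat_lit 3473102225812) (nat_lit 0) leaf)))) (nat_lit 3473102226697) (nat_lit 0) (node (node (node (node (node leaf (nat_lit 3473102226964) (nat_lit 0) leaf) (nat_lit 3473102227729) (nat_lit 0) (node leaf (nat_lit 3473102406949) (nat_lit 0) leaf)) (nat_lit 3473102407189) (nat_lit 0) (node (node leaf (nat_lit 3473102407237) (nat_lit 0) leaf) (nat_lit 3473102407249) (nat_lit 0) leaf)) (nat_lit 3473102407252) (nat_lit 0) (node (node (node leaf (nat_lit 3473102409877) (nat_lit 0) leaf) (nat_lit 3473102410021) (nat_lit 0) (node leaf (nat_lit 3473102410117) (nat_lit 0) leaf)) (nat_lit 3473102410324) (nat_lit 0) (node (node leaf (nat_lit 3473102411857) (nat_lit 0) leaf) (nat_lit 3473102415172) (nat_lit 0) leaf))) (nat_lit 3473102422309) (nat_lit 0) (node (node (node (node leaf (nat_lit 3473102422405)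 (nat_lit 0) leaf) (nat_lit 3473102422612) (nat_lit 0) (node leaf (nat_lit 3473102423077) (nat_lit 0) leaf)) (nat_lit 3473102423113) (nat_lit 0) (node (node leaf (nat_lit 3473102423173) (nat_lit 0) leaf) (nat_lit 3473102423185) (nat_lit 0) leaf)) (nat_lit 3473102423188) (nat_lit 0) (node (node (node leaf (nat_lit 3473102423572) (nat_lit 0) leaf) (nat_lit 3473102424145) (nat_lit 0) leaf) (nat_lit 3473102424337) (nat_lit 0) (node (node leaf (nat_lit 3473102424340) (nat_lit 0) leaf) (nat_lit 3473102424400) (nat_lit 0) leaf)))))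

noncomputable def R1_43 : Tr := node R1_41 (nat_lit 3473102095525) (nat_lit 0) R1_42

noncomputable def R1_44 : Tr := node R1_40 (nat_lit 3473056764997) (nat_lit 0) R1_43

noncomputable def R1_45 : Tr := node R1_37 (nat_lit 3471031157140) (nat_lit 0) R1_44

noncomputable def R1_46 : Tr := (node (node (node (node (node (node leaf (nat_lit 3473102426209) (nat_lit 0) leaf) (nat_lit 3473102426260) (nat_lit 0) (node leaf (nat_lit 3473102426377) (nat_lit 0) leaf)) (nat_lit 3473102426401) (nat_lit 0) (node (node leaf (nat_lit 3473102426644) (nat_lit 0) leaf) (nat_lit 3473102427145) (nat_lit 0) leaf)) (nat_lit 3473102430532) (nat_lit 0) (node (node (node leaf (nat_lit 3473102439745) (nat_lit 0) leaf) (nat_lit 3473102439748) (nat_lit 0) (node leaf (nat_lit 3473102871124) (nat_lit 0) leaf)) (nat_lit 3473102873893) (nat_lit 0) (node (node leaf (nat_lit 3473102873953) (nat_lit 0) leaf) (nat_lit 3473102873989) (nat_lit 0) leaf))) (nat_lit 3473102874004) (nat_lit 0) (node (node (node (node leaf (nat_lit 3473102883145) (nat_lit 0) leaf) (nat_lit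 3473102883217) (nat_lit 0) (node leaf (nat_lit 3473102883412) (nat_lit 0) leaf)) (nat_lit 3473102890249) (nat_lit 0) (node (node leaf (nat_lit 3473102901844) (nat_lit 0) leaf) (nat_lit 3473102902309) (nat_lit 0) leaf)) (nat_lit 3473102902369) (nat_lit 0) (node (node (node leaf (nat_lit 3473102902405) (nat_lit 0) leaf) (nat_lit 3473102902420) (nat_lit 0) (node leaf (nat_lit 3473102902537) (nat_lit 0) leaf)) (nat_lit 3473102931109) (nat_lit 0) (node (node leaf (nat_lit 3473102932261) (nat_lit 0) leaf) (nat_lit 3473102932372) (nat_lit 0) leaf)))) (nat_lit 3473102934676) (nat_lit 0) (node (node (node (node (node leaf (nat_lit 3473102939284) (nat_lit 0) leaf) (nat_lit 3473103012133) (nat_lit 0) (node leaf (nat_lit 3473103013012) (nat_lit 0) leaf)) (nat_lit 3473103409300) (nat_lit 0) (node (node leaf (nat_lit 3473103951169) (nat_lit 0) leaf) (nat_lit 3473103980101) (nat_lit 0) leaf)) (nat_lit 3473103980113) (nat_lit 0) (node (node (node leaf (nat_lit 3473103980881) (nat_lit 0) leaf) (nat_lit 3473103982693) (nat_lit 0) (node leaf (nat_lit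 3473103984913) (nat_lit 0) leaf)) (nat_lit 3473103988036) (nat_lit 0) (node (node leaf (nat_lit 3473103994981) (nat_lit 0) leaf) (nat_lit 3473103995029) (nat_lit 0) leaf))) (nat_lit 3473103995173) (nat_lit 0) (node (node (node (node leaf (nat_lit 3473103995281) (nat_lit 0) leaf) (nat_lit 3473103995476) (nat_lit 0) (node leaf (nat_lit 3473103995929) (nat_lit 0) leaf)) (nat_lit 3473103999013) (nat_lit 0) (node (node leaf (nat_lit 3473104012609) (nat_lit 0) leaf) (nat_lit 3473104177489) (nat_lit 0) leaf)) (nat_lit 3473104191637) (nat_lit 0) (node (node (node leaf (nat_lit 3473104191781) (nat_lit 0) leaf) (nat_lit 3473104192084) (nat_lit 0) (node leaf (nat_lit 3473104193617) (nat_lit 0) leaf)) (nat_lit 3473104240789) (nat_lit 0) (node (node leaf (nat_lit 3473106019657) (nat_lit 0) leaf) (nat_lit 3473106027157) (nat_lit 0) leaf)))))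

noncomputable def R1_47 : Tr := (node (node (node (node (node (node leaf (nat_lit 3473106034981) (nat_lit 0) leaf) (nat_lit 3473106047572) (nat_lit 0) (node leaf (nat_lit 3473106048265) (nat_lit 0) leaf)) (nat_lit 3473106076837) (nat_lit 0) (node (node leaf (nat_lit 3473106077989) (nat_lit 0) leaf) (nat_lit 3473106084133) (nat_lit 0) leaf)) (nat_lit 3473106161812) (nat_lit 0) (node (node (node leaf (nat_lit 3473106273445) (nat_lit 0) leaf) (nat_lit 3473106274597) (nat_lit 0) (node leaf (nat_lit 3473110242577) (nat_lit 0) leaf)) (nat_lit 3473110242625) (nat_lit 0) (node (node leaf (nat_lit 3473110271509) (nat_lit 0) leaf) (nat_lit 3473110271557) (nat_lit 0) leaf))) (nat_lit 3473110274149) (nat_lit 0) (node (node (node (node leaf (nat_lit 3473110274197) (nat_lit 0) leaf) (nat_lit 3473110274341) (nat_lit 0) (node leaf (nat_lit 3473110276177) (nat_lit 0) leaf)) (nat_lit 3473110286485) (nat_lit 0) (node (node leaf (nat_lit 3473110286629) (nat_lit 0) leaf) (nat_lit 3473110286929) (nat_lit 0) leaf)) (nat_lit 3473110471252) (nat_lit 0)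 (node (node (node leaf (nat_lit 3473110472785) (nat_lit 0) leaf) (nat_lit 3473110483093) (nat_lit 0) (node leaf (nat_lit 3473119679761) (nat_lit 0) leaf)) (nat_lit 3473119679809) (nat_lit 0) (node (node leaf (nat_lit 3473119709521) (nat_lit 0) leaf) (nat_lit 3473119711333) (nat_lit 0) leaf)))) (nat_lit 3473119711525) (nat_lit 0) (node (node (node (node (node leaf (nat_lit 3473119723669) (nat_lit 0) leaf) (nat_lit 3473122855249) (nat_lit 0) (node leaf (nat_lit 3473122869349) (nat_lit 0) leaf)) (nat_lit 3473122869397) (nat_lit 0) (node (node leaf (nat_lit 3473123051857) (nat_lit 0) leaf) (nat_lit 3473123066005) (nat_lit 0) leaf)) (nat_lit 3473154592837) (nat_lit 0) (node (node (node leaf (nat_lit 3473156641861) (nat_lit 0) leaf) (nat_lit 3473156948245) (nat_lit 0) (node leaf (nat_lit 3473156952085) (nat_lit 0) leaf)) (nat_lit 3473157408337) (nat_lit 0) (node (node leaf (nat_lit 3473157409045) (nat_lit 0) leaf) (nat_lit 3473157416005) (nat_lit 0) leaf))) (nat_lit 3473157416017) (nat_lit 0) (node (node (node (node leaf (nat_lit 3473157427477)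 (nat_lit 0) leaf) (nat_lit 3473157428293) (nat_lit 0) (node leaf (nat_lit 3473157428305) (nat_lit 0) leaf)) (nat_lit 3473157428497) (nat_lit 0) (node (node leaf (nat_lit 3473157456277) (nat_lit 0) leaf) (nat_lit 3473157457489) (nat_lit 0) leaf)) (nat_lit 3473157458245) (nat_lit 0) (node (node (node leaf (nat_lit 3473157458257) (nat_lit 0) leaf) (nat_lit 3473157465349) (nat_lit 0) leaf) (nat_lit 3473157538837) (nat_lit 0) (node (node leaf (nat_lit 3473157538885) (nat_lit 0) leaf) (nat_lit 3473157919765) (nat_lit 0) leaf)))))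

noncomputable def R1_48 : Tr := node R1_46 (nat_lit 3473106029140) (nat_lit 0) R1_47

noncomputable def R1_49 : Tr := (node (node (node (node (node (node leaf (nat_lit 3473161851157) (nat_lit 0) leaf) (nat_lit 3473161851925) (nat_lit 0) (node leaf (nat_lit 3473170039957) (nat_lit 0) leaf)) (nat_lit 3473170040401) (nat_lit 0) (node (node leaf (nat_lit 3473170041169) (nat_lit 0) leaf) (nat_lit 3473170043029) (nat_lit 0) leaf)) (nat_lit 3473170237777) (nat_lit 0) (node (node (node leaf (nat_lit 3473173185109) (nat_lit 0) leaf) (nat_lit 3473173188757) (nat_lit 0) (node leaf (nat_lit 3473173381717) (nat_lit 0) leaf)) (nat_lit 3473174168149) (nat_lit 0) (node (node leaf (nat_lit 3473187016789) (nat_lit 0) leaf) (nat_lit 3473187016981) (nat_lit 0) leaf))) (nat_lit 3479084205589) (nat_lit 0) (node (node (node (node leaf (nat_lit 3479084208277) (nat_lit 0) leaf) (nat_lit 3479096542801) (nat_lit 0) (node leaf (nat_lit 3479096543557) (nat_lit 0) leaf)) (nat_lit 3479096545429) (nat_lit 0) (node (node leaf (nat_lit 3479096550469) (nat_lit 0)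 leaf) (nat_lit 3479096550661) (nat_lit 0) leaf)) (nat_lit 3479096550673) (nat_lit 0) (node (node (node leaf (nat_lit 3479096561989) (nat_lit 0) leaf) (nat_lit 3479096562757) (nat_lit 0) (node leaf (nat_lit 3479096562949) (nat_lit 0) leaf)) (nat_lit 3479096562961) (nat_lit 0) (node (node leaf (nat_lit 3479096591953) (nat_lit 0) leaf) (nat_lit 3479096591956) (nat_lit 0) leaf)))) (nat_lit 3479096592724) (nat_lit 0) (node (node (node (node (node leaf (nat_lit 3479096595028) (nat_lit 0) leaf) (nat_lit 3479096606869) (nat_lit 0) (node leaf (nat_lit 3479096607013) (nat_lit 0) leaf)) (nat_lit 3479096672581) (nat_lit 0) (node (node leaf (nat_lit 3479096673349) (nat_lit 0) leaf) (nat_lit 3479096676421) (nat_lit 0) leaf)) (nat_lit 3479096676613) (nat_lit 0) (node (node (node leaf (nat_lit 3479096788549) (nat_lit 0) leaf) (nat_lit 3479096789317) (nat_lit 0) (node leaf (nat_lit 3479096789332) (nat_lit 0) leaf)) (nat_lit 3479096791141) (nat_lit 0) (node (node leaf (nat_lit 3479096796421) (nat_lit 0) leaf) (nat_lit 3479096803477) (nat_lit 0) leaf)))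 (nat_lit 3479096803621) (nat_lit 0) (node (node (node (node leaf (nat_lit 3479096852629) (nat_lit 0) leaf) (nat_lit 3479097065749) (nat_lit 0) (node leaf (nat_lit 3479097066517) (nat_lit 0) leaf)) (nat_lit 3479097066565) (nat_lit 0) (node (node leaf (nat_lit 3479097069637) (nat_lit 0) leaf) (nat_lit 3479097656389) (nat_lit 0) leaf)) (nat_lit 3479097659461) (nat_lit 0) (node (node (node leaf (nat_lit 3479100015685) (nat_lit 0) leaf) (nat_lit 3479100018757) (nat_lit 0) leaf) (nat_lit 3479100985669) (nat_lit 0) (node (node leaf (nat_lit 3479100986437) (nat_lit 0) leaf) (nat_lit 3479235264661) (nat_lit 0) leaf)))))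

noncomputable def R1_50 : Tr := (node (node (node (node (node (node leaf (nat_lit 3479486858389) (nat_lit 0) leaf) (nat_lit 3479499184453) (nat_lit 0) (node leaf (nat_lit 3479499195541) (nat_lit 0) leaf)) (nat_lit 3479499202885) (nat_lit 0) (node (node leaf (nat_lit 3479499203653) (nat_lit 0) leaf) (nat_lit 3479499203845) (nat_lit 0) leaf)) (nat_lit 3479499215125) (nat_lit 0) (node (node (node leaf (nat_lit 3479499215893) (nat_lit 0) leaf) (nat_lit 3479499215941) (nat_lit 0) (node leaf (nat_lit 3479499215953) (nat_lit 0) leaf)) (nat_lit 3479499245125) (nat_lit 0) (node (node leaf (nat_lit 3479499245137) (nat_lit 0) leaf) (nat_lit 3479499245893) (nat_lit 0) leaf))) (nat_lit 3479499245905) (nat_lit 0) (node (node (node (node leaf (nat_lit 3479499247717) (nat_lit 0) leaf) (nat_lit 3479499247765) (nat_lit 0) (node leaf (nat_lit 3479499247909) (nat_lit 0) leaf)) (nat_lit 3479499248209) (nat_lit 0) (node (node leaf (nat_lit 3479499252997) (nat_lit 0) leaf) (nat_lit 3479499260053) (nat_lit 0) leaf)) (nat_lit 3479499314245) (nat_lit 0)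 (node (node (node leaf (nat_lit 3479499325717) (nat_lit 0) leaf) (nat_lit 3479499329557) (nat_lit 0) (node leaf (nat_lit 3479499329605) (nat_lit 0) leaf)) (nat_lit 3479499707413) (nat_lit 0) (node (node leaf (nat_lit 3479499718741) (nat_lit 0) leaf) (nat_lit 3479499719701) (nat_lit 0) leaf)))) (nat_lit 3479499722773) (nat_lit 0) (node (node (node (node (node leaf (nat_lit 3479500309525) (nat_lit 0) leaf) (nat_lit 3479500312597) (nat_lit 0) (node leaf (nat_lit 3479502668821) (nat_lit 0) leaf)) (nat_lit 3479502671893) (nat_lit 0) (node (node leaf (nat_lit 3479503638805) (nat_lit 0) leaf) (nat_lit 3479503639573) (nat_lit 0) leaf)) (nat_lit 3479537254549) (nat_lit 0) (node (node (node leaf (nat_lit 3479544351049) (nat_lit 0) leaf) (nat_lit 3479544351121) (nat_lit 0) (node leaf (nat_lit 3479544366469) (nat_lit 0) leaf)) (nat_lit 3479544366613) (nat_lit 0) (node (node leaf (nat_lit 3479544366661) (nat_lit 0) leaf) (nat_lit 3479544366673) (nat_lit 0) leaf))) (nat_lit 3479544366676) (nat_lit 0) (node (node (node (node leaf (nat_lit 3479544369541)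 (nat_lit 0) leaf) (nat_lit 3479544369553) (nat_lit 0) (node leaf (nat_lit 3479544370201) (nat_lit 0) leaf)) (nat_lit 3479544374596) (nat_lit 0) (node (node leaf (nat_lit 3479544418597) (nat_lit 0) leaf) (nat_lit 3479544418657) (nat_lit 0) leaf)) (nat_lit 3479544418693) (nat_lit 0) (node (node (node leaf (nat_lit 3479544418708) (nat_lit 0) leaf) (nat_lit 3479544418837) (nat_lit 0) leaf) (nat_lit 3479544418885) (nat_lit 0) (node (node leaf (nat_lit 3479544418897) (nat_lit 0) leaf) (nat_lit 3479544419401) (nat_lit 0) leaf)))))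

noncomputable def R1_51 : Tr := node R1_49 (nat_lit 3479486857813) (nat_lit 0) R1_50

noncomputable def R1_52 : Tr := node R1_48 (nat_lit 3473158521877) (nat_lit 0) R1_51

noncomputable def R1_53 : Tr := (node (node (node (node (node (node leaf (nat_lit 3479544419425) (nat_lit 0) leaf) (nat_lit 3479544419428) (nat_lit 0) (node leaf (nat_lit 3479544419461) (nat_lit 0) leaf)) (nat_lit 3479544535429) (nat_lit 0) (node (node leaf (nat_lit 3479544538405) (nat_lit 0) leaf) (nat_lit 3479544538441) (nat_lit 0) leaf)) (nat_lit 3479544538501) (nat_lit 0) (node (node (node leaf (nat_lit 3479544538513) (nat_lit 0) leaf) (nat_lit 3479544538645) (nat_lit 0) (node leaf (nat_lit 3479544538693) (nat_lit 0) leaf)) (nat_lit 3479544538705) (nat_lit 0) (node (node leaf (nat_lit 3479544538708) (nat_lit 0) leaf) (nat_lit 3479544545941) (nat_lit 0) leaf))) (nat_lit 3479544547621) (nat_lit 0) (node (node (node (node leaf (nat_lit 3479544554761) (nat_lit 0) leaf) (nat_lit 3479544555028) (nat_lit 0) (node leaf (nat_lit 3479544562789) (nat_lit 0) leaf)) (nat_lit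 3479544562981) (nat_lit 0) (node (node leaf (nat_lit 3479544566053) (nat_lit 0) leaf) (nat_lit 3479544566821) (nat_lit 0) leaf)) (nat_lit 3479544566917) (nat_lit 0) (node (node (node leaf (nat_lit 3479544567049) (nat_lit 0) leaf) (nat_lit 3479544567892) (nat_lit 0) (node leaf (nat_lit 3479544568129) (nat_lit 0) leaf)) (nat_lit 3479544594853) (nat_lit 0) (node (node leaf (nat_lit 3479544596773) (nat_lit 0) leaf) (nat_lit 3479544664468) (nat_lit 0) leaf)))) (nat_lit 3479544665161) (nat_lit 0) (node (node (node (node (node leaf (nat_lit 3479544666385) (nat_lit 0) leaf) (nat_lit 3479544676948) (nat_lit 0) (node leaf (nat_lit 3479544677449) (nat_lit 0) leaf)) (nat_lit 3479544811669) (nat_lit 0) (node (node leaf (nat_lit 3479544857173) (nat_lit 0) leaf) (nat_lit 3479544857893) (nat_lit 0) leaf)) (nat_lit 3479544858133) (nat_lit 0) (node (node (node leaf (nat_lit 3479544858181) (nat_lit 0) leaf) (nat_lit 3479544858193) (nat_lit 0) (node leaf (nat_lit 3479544860821) (nat_lit 0) leaf)) (nat_lit 3479544860965) (nat_lit 0) (node (node leaf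 (nat_lit 3479544866068) (nat_lit 0) leaf) (nat_lit 3479544873109) (nat_lit 0) leaf))) (nat_lit 3479544873349) (nat_lit 0) (node (node (node (node leaf (nat_lit 3479544873364) (nat_lit 0) leaf) (nat_lit 3479544873556) (nat_lit 0) (node leaf (nat_lit 3479544874021) (nat_lit 0) leaf)) (nat_lit 3479544874117) (nat_lit 0) (node (node leaf (nat_lit 3479544874516) (nat_lit 0) leaf) (nat_lit 3479544875089) (nat_lit 0) leaf)) (nat_lit 3479544875281) (nat_lit 0) (node (node (node leaf (nat_lit 3479544875332) (nat_lit 0) leaf) (nat_lit 3479544877093) (nat_lit 0) (node leaf (nat_lit 3479544877153) (nat_lit 0) leaf)) (nat_lit 3479544877204) (nat_lit 0) (node (node leaf (nat_lit 3479544877321) (nat_lit 0) leaf) (nat_lit 3479544881473) (nat_lit 0) leaf)))))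

noncomputable def R1_54 : Tr := (node (node (node (node (node (node leaf (nat_lit 3479544890689) (nat_lit 0) leaf) (nat_lit 3479545324837) (nat_lit 0) (node leaf (nat_lit 3479545324873) (nat_lit 0) leaf)) (nat_lit 3479545324945) (nat_lit 0) (node (node leaf (nat_lit 3479545334149) (nat_lit 0) leaf) (nat_lit 3479545334164) (nat_lit 0) leaf)) (nat_lit 3479545336468) (nat_lit 0) (node (node (node leaf (nat_lit 3479545341076) (nat_lit 0) leaf) (nat_lit 3479545352596) (nat_lit 0) (node leaf (nat_lit 3479545352788) (nat_lit 0) leaf)) (nat_lit 3479545353253) (nat_lit 0) (node (node leaf (nat_lit 3479545381285) (nat_lit 0) leaf) (nat_lit 3479545383205) (nat_lit 0) leaf))) (nat_lit 3479546402065) (nat_lit 0) (node (node (node (node leaf (nat_lit 3479546402113) (nat_lit 0) leaf) (nat_lit 3479546430997) (nat_lit 0) (node leaf (nat_lit 3479546431045) (nat_lit 0) leaf)) (nat_lit 3479546433637) (nat_lit 0) (node (node leaf (nat_lit 3479546433685) (nat_lit 0) leaf) (nat_lit 3479546435665) (nat_lit 0) leaf)) (nat_lit 3479546445973) (nat_lit 0)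 (node (node (node leaf (nat_lit 3479546446117) (nat_lit 0) leaf) (nat_lit 3479546446213) (nat_lit 0) (node leaf (nat_lit 3479546446417) (nat_lit 0) leaf)) (nat_lit 3479546446885) (nat_lit 0) (node (node leaf (nat_lit 3479546632273) (nat_lit 0) leaf) (nat_lit 3479546643025) (nat_lit 0) leaf)))) (nat_lit 3479548465813) (nat_lit 0) (node (node (node (node (node leaf (nat_lit 3479548467796) (nat_lit 0) leaf) (nat_lit 3479548470565) (nat_lit 0) (node leaf (nat_lit 3479548485925) (nat_lit 0) leaf)) (nat_lit 3479548499017) (nat_lit 0) (node (node leaf (nat_lit 3479548527013) (nat_lit 0) leaf) (nat_lit 3479548528933) (nat_lit 0) leaf)) (nat_lit 3479548723621) (nat_lit 0) (node (node (node leaf (nat_lit 3479552675989) (nat_lit 0) leaf) (nat_lit 3479552693509) (nat_lit 0) (node leaf (nat_lit 3479552693521) (nat_lit 0) leaf)) (nat_lit 3479552721493) (nat_lit 0) (node (node leaf (nat_lit 3479552722453) (nat_lit 0) leaf) (nat_lit 3479552723281) (nat_lit 0) leaf))) (nat_lit 3479552725141) (nat_lit 0) (node (node (node (node leaf (nat_lit 3479552737381)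 (nat_lit 0) leaf) (nat_lit 3479552737429) (nat_lit 0) (node leaf (nat_lit 3479552919889) (nat_lit 0) leaf)) (nat_lit 3479562130693) (nat_lit 0) (node (node leaf (nat_lit 3479562130705) (nat_lit 0) leaf) (nat_lit 3479562160465) (nat_lit 0) leaf)) (nat_lit 3479562174565) (nat_lit 0) (node (node (node leaf (nat_lit 3479562174613) (nat_lit 0) leaf) (nat_lit 3479562357073) (nat_lit 0) leaf) (nat_lit 3479562371221) (nat_lit 0) (node (node leaf (nat_lit 3479597043733) (nat_lit 0) leaf) (nat_lit 3479599091989) (nat_lit 0) leaf)))))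

noncomputable def R1_55 : Tr := node R1_53 (nat_lit 3479544890641) (nat_lit 0) R1_54

noncomputable def R1_56 : Tr := (node (node (node (node (node (node leaf (nat_lit 3479599387669) (nat_lit 0) leaf) (nat_lit 3479599398997) (nat_lit 0) (node leaf (nat_lit 3479599399957) (nat_lit 0) leaf)) (nat_lit 3479599847701) (nat_lit 0) (node (node leaf (nat_lit 3479599858069) (nat_lit 0) leaf) (nat_lit 3479599859281) (nat_lit 0) leaf)) (nat_lit 3479599860037) (nat_lit 0) (node (node (node leaf (nat_lit 3479599866181) (nat_lit 0) leaf) (nat_lit 3479599866949) (nat_lit 0) (node leaf (nat_lit 3479599867141) (nat_lit 0) leaf)) (nat_lit 3479599879189) (nat_lit 0) (node (node leaf (nat_lit 3479599879237) (nat_lit 0) leaf) (nat_lit 3479599879429) (nat_lit 0) leaf))) (nat_lit 3479599907989) (nat_lit 0) (node (node (node (node leaf (nat_lit 3479599908433) (nat_lit 0) leaf) (nat_lit 3479599909189) (nat_lit 0) (node leaf (nat_lit 3479599909201) (nat_lit 0) leaf)) (nat_lit 3479599977493) (nat_lit 0) (node (node leaf (nat_lit 3479599989781) (nat_lit 0)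 leaf) (nat_lit 3479600105809) (nat_lit 0) leaf)) (nat_lit 3479600972053) (nat_lit 0) (node (node (node leaf (nat_lit 3479604106261) (nat_lit 0) leaf) (nat_lit 3479604301909) (nat_lit 0) (node leaf (nat_lit 3479604302101) (nat_lit 0) leaf)) (nat_lit 3479612490325) (nat_lit 0) (node (node leaf (nat_lit 3479612490901) (nat_lit 0) leaf) (nat_lit 3479615590549) (nat_lit 0) leaf)))) (nat_lit 3479615636053) (nat_lit 0) (node (node (node (node (node leaf (nat_lit 3479615832661) (nat_lit 0) leaf) (nat_lit 3479629271125) (nat_lit 0) (node leaf (nat_lit 3479629467733) (nat_lit 0) leaf)) (nat_lit 3480270447940) (nat_lit 0) (node (node leaf (nat_lit 3480275166532) (nat_lit 0) leaf) (nat_lit 3480282637636) (nat_lit 0) leaf)) (nat_lit 3480300332353) (nat_lit 0) (node (node (node leaf (nat_lit 3480400209217) (nat_lit 0) leaf) (nat_lit 3480551204161) (nat_lit 0) (node leaf (nat_lit 3481109795989) (nat_lit 0) leaf)) (nat_lit 3481109797141) (nat_lit 0) (node (node leaf (nat_lit 3481109808721) (nat_lit 0) leaf) (nat_lit 3481109809477) (nat_lit 0) leaf)))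 (nat_lit 3481109811793) (nat_lit 0) (node (node (node (node leaf (nat_lit 3481109816341) (nat_lit 0) leaf) (nat_lit 3481109816389) (nat_lit 0) (node leaf (nat_lit 3481109816581) (nat_lit 0) leaf)) (nat_lit 3481109827669) (nat_lit 0) (node (node leaf (nat_lit 3481109828629) (nat_lit 0) leaf) (nat_lit 3481109828677) (nat_lit 0) leaf)) (nat_lit 3481109828869) (nat_lit 0) (node (node (node leaf (nat_lit 3481109828881) (nat_lit 0) leaf) (nat_lit 3481109857813) (nat_lit 0) leaf) (nat_lit 3481109858629) (nat_lit 0) (node (node leaf (nat_lit 3481109858641) (nat_lit 0) leaf) (nat_lit 3481109860453) (nat_lit 0) leaf)))))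

noncomputable def R1_57 : Tr := (node (node (node (node (node (node leaf (nat_lit 3481109872741) (nat_lit 0) leaf) (nat_lit 3481109872789) (nat_lit 0) (node leaf (nat_lit 3481109926165) (nat_lit 0) leaf)) (nat_lit 3481109926933) (nat_lit 0) (node (node leaf (nat_lit 3481109939221) (nat_lit 0) leaf) (nat_lit 3481109939269) (nat_lit 0) leaf)) (nat_lit 3481110055249) (nat_lit 0) (node (node (node leaf (nat_lit 3481110069397) (nat_lit 0) leaf) (nat_lit 3481110319189) (nat_lit 0) (node leaf (nat_lit 3481110320149) (nat_lit 0) leaf)) (nat_lit 3481110332437) (nat_lit 0) (node (node leaf (nat_lit 3481110909973) (nat_lit 0) leaf) (nat_lit 3481110922261) (nat_lit 0) leaf))) (nat_lit 3481113269269) (nat_lit 0) (node (node (node (node leaf (nat_lit 3481113281557) (nat_lit 0) leaf) (nat_lit 3481114251349) (nat_lit 0) (node leaf (nat_lit 3481114251541) (nat_lit 0) leaf)) (nat_lit 3481142841493) (nat_lit 0) (node (node leaf (nat_lit 3481142886997) (nat_lit 0) leaf) (nat_lit 3481147560085) (nat_lit 0) leaf)) (nat_lit 3481147605589) (nat_lit 0)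 (node (node (node leaf (nat_lit 3481154954773) (nat_lit 0) leaf) (nat_lit 3481154954836) (nat_lit 0) (node leaf (nat_lit 3481154963845) (nat_lit 0) leaf)) (nat_lit 3481154978389) (nat_lit 0) (node (node leaf (nat_lit 3481154979109) (nat_lit 0) leaf) (nat_lit 3481154979205) (nat_lit 0) leaf)))) (nat_lit 3481154979349) (nat_lit 0) (node (node (node (node (node leaf (nat_lit 3481154979397) (nat_lit 0) leaf) (nat_lit 3481154979409) (nat_lit 0) (node leaf (nat_lit 3481154982277) (nat_lit 0) leaf)) (nat_lit 3481154982949) (nat_lit 0) (node (node leaf (nat_lit 3481155028501) (nat_lit 0) leaf) (nat_lit 3481155031189) (nat_lit 0) leaf)) (nat_lit 3481155031429) (nat_lit 0) (node (node (node leaf (nat_lit 3481155031573) (nat_lit 0) leaf) (nat_lit 3481155032101) (nat_lit 0) (node leaf (nat_lit 3481155146389) (nat_lit 0) leaf)) (nat_lit 3481155150997) (nat_lit 0) (node (node leaf (nat_lit 3481155151141) (nat_lit 0) leaf) (nat_lit 3481155151237) (nat_lit 0) leaf))) (nat_lit 3481155151381) (nat_lit 0) (node (node (node (node leaf (nat_lit 3481155151429)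 (nat_lit 0) leaf) (nat_lit 3481155160357) (nat_lit 0) (node leaf (nat_lit 3481155175717) (nat_lit 0) leaf)) (nat_lit 3481155207589) (nat_lit 0) (node (node leaf (nat_lit 3481155469909) (nat_lit 0) leaf) (nat_lit 3481155470629) (nat_lit 0) leaf)) (nat_lit 3481155470917) (nat_lit 0) (node (node (node leaf (nat_lit 3481155485845) (nat_lit 0) leaf) (nat_lit 3481155932821) (nat_lit 0) leaf) (nat_lit 3481155937573) (nat_lit 0) (node (node leaf (nat_lit 3481155937669) (nat_lit 0) leaf) (nat_lit 3481157043733) (nat_lit 0) leaf)))))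

noncomputable def R1_58 : Tr := node R1_56 (nat_lit 3481109860501) (nat_lit 0) R1_57

noncomputable def R1_59 : Tr := node R1_55 (nat_lit 3479599092757) (nat_lit 0) R1_58

noncomputable def R1_60 : Tr := node R1_52 (nat_lit 3479544419410) (nat_lit 0) R1_59

noncomputable def R1_61 : Tr := node R1_45 (nat_lit 3473102426149) (nat_lit 0) R1_60

noncomputable def R1_62 : Tr := node R1_30 (nat_lit 3447332411476) (nat_lit 0) R1_61

noncomputable def R1_63 : Tr := (node (node (node (node (node (node leaf (nat_lit 3481159083301) (nat_lit 0) leaf) (nat_lit 3481163334229) (nat_lit 0) (node leaf (nat_lit 3481207653397) (nat_lit 0) leaf)) (nat_lit 3481209674005) (nat_lit 0) (node (node leaf (nat_lit 3481209704533) (nat_lit 0) leaf) (nat_lit 3481209705493) (nat_lit 0) leaf)) (nat_lit 3481209803797) (nat_lit 0) (node (node (node leaf (nat_lit 3481209999445) (nat_lit 0) leaf) (nat_lit 3481210000405) (nat_lit 0) (node leaf (nat_lit 3481210458517) (nat_lit 0) leaf)) (nat_lit 3481210460485) (nat_lit 0) (node (node leaf (nat_lit 3481210472017) (nat_lit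 0) leaf) (nat_lit 3481210472773) (nat_lit 0) leaf))) (nat_lit 3481210478869) (nat_lit 0) (node (node (node (node leaf (nat_lit 3481210478917) (nat_lit 0) leaf) (nat_lit 3481210479685) (nat_lit 0) (node leaf (nat_lit 3481210491925) (nat_lit 0) leaf)) (nat_lit 3481210491973) (nat_lit 0) (node (node leaf (nat_lit 3481210520149) (nat_lit 0) leaf) (nat_lit 3481210520725) (nat_lit 0) leaf)) (nat_lit 3481210521925) (nat_lit 0) (node (node (node leaf (nat_lit 3481210521937) (nat_lit 0) leaf) (nat_lit 3481210590229) (nat_lit 0) (node leaf (nat_lit 3481211572501) (nat_lit 0) leaf)) (nat_lit 3481213932565) (nat_lit 0) (node (node leaf (nat_lit 3481214718037) (nat_lit 0) leaf) (nat_lit 3481214914645) (nat_lit 0) leaf)))) (nat_lit 3481226199637) (nat_lit 0) (node (node (node (node (node leaf (nat_lit 3481226200213) (nat_lit 0) leaf) (nat_lit 3481226248789) (nat_lit 0) (node leaf (nat_lit 3481239880789) (nat_lit 0) leaf)) (nat_lit 3481240077397) (nat_lit 0) (node (node leaf (nat_lit 3481610294293) (nat_lit 0) leaf) (nat_lit 3481612162069) (nat_lit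 0) leaf)) (nat_lit 3481612211221) (nat_lit 0) (node (node (node leaf (nat_lit 3481612327237) (nat_lit 0) leaf) (nat_lit 3481612456981) (nat_lit 0) (node leaf (nat_lit 3481612652821) (nat_lit 0) leaf)) (nat_lit 3481613113669) (nat_lit 0) (node (node leaf (nat_lit 3481613116693) (nat_lit 0) leaf) (nat_lit 3481613116741) (nat_lit 0) leaf))) (nat_lit 3481613124181) (nat_lit 0) (node (node (node (node leaf (nat_lit 3481613124757) (nat_lit 0) leaf) (nat_lit 3481613145109) (nat_lit 0) (node leaf (nat_lit 3481614225493) (nat_lit 0) leaf)) (nat_lit 3481616584789) (nat_lit 0) (node (node leaf (nat_lit 3481616584981) (nat_lit 0) leaf) (nat_lit 3481617564757) (nat_lit 0) leaf)) (nat_lit 3481628840533) (nat_lit 0) (node (node (node leaf (nat_lit 3481628852821) (nat_lit 0) leaf) (nat_lit 3481641747541) (nat_lit 0) (node leaf (nat_lit 3481642729813) (nat_lit 0) leaf)) (nat_lit 3481742361685) (nat_lit 0) (node (node leaf (nat_lit 3481743196501) (nat_lit 0) leaf) (nat_lit 3850078783828) (nat_lit 0) leaf)))))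

noncomputable def R1_64 : Tr := (node (node (node (node (node (node leaf (nat_lit 3850078848133) (nat_lit 0) leaf) (nat_lit 3850078851109) (nat_lit 0) (node leaf (nat_lit 3851135752516) (nat_lit 0) leaf)) (nat_lit 3851135763604) (nat_lit 0) (node (node leaf (nat_lit 3851135764564) (nat_lit 0) leaf) (nat_lit 3851135811733) (nat_lit 0) leaf)) (nat_lit 3851135811973) (nat_lit 0) (node (node (node leaf (nat_lit 3851135812117) (nat_lit 0) leaf) (nat_lit 3851135812180) (nat_lit 0) (node leaf (nat_lit 3851135812645) (nat_lit 0) leaf)) (nat_lit 3851135813140) (nat_lit 0) (node (node leaf (nat_lit 3851135815828) (nat_lit 0) leaf) (nat_lit 3851148092737) (nat_lit 0) leaf))) (nat_lit 3851148092740) (nat_lit 0) (node (node (node (node leaf (nat_lit 3851148104788) (nat_lit 0) leaf) (nat_lit 3851148105025) (nat_lit 0) (node leaf (nat_lit 3851148105028) (nat_lit 0) leaf)) (nat_lit 3851148137044) (nat_lit 0) (node (node leaf (nat_lit 3851148141892) (nat_lit 0) leaf) (nat_lit 3851148166468) (nat_lit 0) leaf)) (nat_lit 3851148218449) (nat_lit 0)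 (node (node (node leaf (nat_lit 3851148218689) (nat_lit 0) leaf) (nat_lit 3851148219397) (nat_lit 0) (node leaf (nat_lit 3851148219457) (nat_lit 0) leaf)) (nat_lit 3851148331345) (nat_lit 0) (node (node leaf (nat_lit 3851148333652) (nat_lit 0) leaf) (nat_lit 3851148335188) (nat_lit 0) leaf)))) (nat_lit 3851148338500) (nat_lit 0) (node (node (node (node (node leaf (nat_lit 3851148345493) (nat_lit 0) leaf) (nat_lit 3851148345940) (nat_lit 0) (node leaf (nat_lit 3851148346405) (nat_lit 0) leaf)) (nat_lit 3851148347476) (nat_lit 0) (node (node leaf (nat_lit 3851148349573) (nat_lit 0) leaf) (nat_lit 3851148394885) (nat_lit 0) leaf)) (nat_lit 3851148395092) (nat_lit 0) (node (node (node leaf (nat_lit 3851148395557) (nat_lit 0) leaf) (nat_lit 3851148396052) (nat_lit 0) (node leaf (nat_lit 3851148396628) (nat_lit 0) leaf)) (nat_lit 3851148398629) (nat_lit 0) (node (node leaf (nat_lit 3851148398725) (nat_lit 0) leaf) (nat_lit 3851148398740) (nat_lit 0) leaf))) (nat_lit 3851148410917) (nat_lit 0) (node (node (node (node leaf (nat_lit 3851148611653)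 (nat_lit 0) leaf) (nat_lit 3851148611845) (nat_lit 0) (node leaf (nat_lit 3851148611857) (nat_lit 0) leaf)) (nat_lit 3851148611905) (nat_lit 0) (node (node leaf (nat_lit 3851149201681) (nat_lit 0) leaf) (nat_lit 3851149201729) (nat_lit 0) leaf)) (nat_lit 3851151560977) (nat_lit 0) (node (node (node leaf (nat_lit 3851151561025) (nat_lit 0) leaf) (nat_lit 3851152528657) (nat_lit 0) leaf) (nat_lit 3851152540945) (nat_lit 0) (node (node leaf (nat_lit 3857578202260) (nat_lit 0) leaf) (nat_lit 3857578203220) (nat_lit 0) leaf)))))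

noncomputable def R1_65 : Tr := node R1_63 (nat_lit 3850078786132) (nat_lit 0) R1_64

noncomputable def R1_66 : Tr := (node (node (node (node (node (node leaf (nat_lit 3857578213525) (nat_lit 0) leaf) (nat_lit 3857578213909) (nat_lit 0) (node leaf (nat_lit 3857578213972) (nat_lit 0) leaf)) (nat_lit 3857578262677) (nat_lit 0) (node (node leaf (nat_lit 3857578263124) (nat_lit 0) leaf) (nat_lit 3857590543633) (nat_lit 0) leaf)) (nat_lit 3857590543636) (nat_lit 0) (node (node (node leaf (nat_lit 3857590543684) (nat_lit 0) leaf) (nat_lit 3857590555729) (nat_lit 0) (node leaf (nat_lit 3857590555921) (nat_lit 0) leaf)) (nat_lit 3857590555969) (nat_lit 0) (node (node leaf (nat_lit 3857590555972) (nat_lit 0) leaf) (nat_lit 3857590584916) (nat_lit 0) leaf))) (nat_lit 3857590600276) (nat_lit 0) (node (node (node (node leaf (nat_lit 3857590669381) (nat_lit 0) leaf) (nat_lit 3857590669573) (nat_lit 0) (node leaf (nat_lit 3857590669585) (nat_lit 0) leaf)) (nat_lit 3857590670353) (nat_lit 0) (node (node leaf (nat_lit 3857590781524) (nat_lit 0)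 leaf) (nat_lit 3857590782277) (nat_lit 0) leaf)) (nat_lit 3857590782292) (nat_lit 0) (node (node (node leaf (nat_lit 3857590784149) (nat_lit 0) leaf) (nat_lit 3857590786132) (nat_lit 0) (node leaf (nat_lit 3857590789441) (nat_lit 0) leaf)) (nat_lit 3857590796581) (nat_lit 0) (node (node leaf (nat_lit 3857590796677) (nat_lit 0) leaf) (nat_lit 3857590796884) (nat_lit 0) leaf)))) (nat_lit 3857590797349) (nat_lit 0) (node (node (node (node (node leaf (nat_lit 3857590797445) (nat_lit 0) leaf) (nat_lit 3857590798420) (nat_lit 0) (node leaf (nat_lit 3857590800421) (nat_lit 0) leaf)) (nat_lit 3857590846036) (nat_lit 0) (node (node leaf (nat_lit 3857590846597) (nat_lit 0) leaf) (nat_lit 3857590849573) (nat_lit 0) leaf)) (nat_lit 3857591059717) (nat_lit 0) (node (node (node leaf (nat_lit 3857591062549) (nat_lit 0) leaf) (nat_lit 3857591062789) (nat_lit 0) (node leaf (nat_lit 3857591062801) (nat_lit 0) leaf)) (nat_lit 3857591652613) (nat_lit 0) (node (node leaf (nat_lit 3857591652625) (nat_lit 0) leaf) (nat_lit 3857594011909) (nat_lit 0) leaf)))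 (nat_lit 3857594011921) (nat_lit 0) (node (node (node (node leaf (nat_lit 3857594979589) (nat_lit 0) leaf) (nat_lit 3857594979601) (nat_lit 0) (node leaf (nat_lit 3858131846740) (nat_lit 0) leaf)) (nat_lit 3858131847505) (nat_lit 0) (node (node leaf (nat_lit 3858131911045) (nat_lit 0) leaf) (nat_lit 3858131911717) (nat_lit 0) leaf)) (nat_lit 3859188813973) (nat_lit 0) (node (node (node leaf (nat_lit 3859188814228) (nat_lit 0) leaf) (nat_lit 3859188814357) (nat_lit 0) (node leaf (nat_lit 3859188815953) (nat_lit 0) leaf)) (nat_lit 3859188816145) (nat_lit 0) (node (node leaf (nat_lit 3859188826261) (nat_lit 0) leaf) (nat_lit 3859188826705) (nat_lit 0) leaf)))))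

noncomputable def R1_67 : Tr := (node (node (node (node (node (node leaf (nat_lit 3859201148500) (nat_lit 0) leaf) (nat_lit 3859201156357) (nat_lit 0) (node leaf (nat_lit 3859201156369) (nat_lit 0) leaf)) (nat_lit 3859201156372) (nat_lit 0) (node (node leaf (nat_lit 3859201168453) (nat_lit 0) leaf) (nat_lit 3859201168465) (nat_lit 0) leaf)) (nat_lit 3859201168657) (nat_lit 0) (node (node (node leaf (nat_lit 3859201168660) (nat_lit 0) leaf) (nat_lit 3859201198405) (nat_lit 0) (node leaf (nat_lit 3859201200277) (nat_lit 0) leaf)) (nat_lit 3859201200724) (nat_lit 0) (node (node leaf (nat_lit 3859201279045) (nat_lit 0) leaf) (nat_lit 3859201279237) (nat_lit 0) leaf))) (nat_lit 3859201282129) (nat_lit 0) (node (node (node (node leaf (nat_lit 3859201282321) (nat_lit 0) leaf) (nat_lit 3859201394257) (nat_lit 0) (node leaf (nat_lit 3859201395025) (nat_lit 0) leaf)) (nat_lit 3859201395028) (nat_lit 0) (node (node leaf (nat_lit 3859201397029) (nat_lit 0) leaf) (nat_lit 3859201397332) (nat_lit 0) leaf)) (nat_lit 3859201398868) (nat_lit 0)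 (node (node (node leaf (nat_lit 3859201402129) (nat_lit 0) leaf) (nat_lit 3859201409173) (nat_lit 0) (node leaf (nat_lit 3859201409317) (nat_lit 0) leaf)) (nat_lit 3859201409413) (nat_lit 0) (node (node leaf (nat_lit 3859201409620) (nat_lit 0) leaf) (nat_lit 3859201410085) (nat_lit 0) leaf)))) (nat_lit 3859201458565) (nat_lit 0) (node (node (node (node (node leaf (nat_lit 3859201459237) (nat_lit 0) leaf) (nat_lit 3859201672213) (nat_lit 0) (node leaf (nat_lit 3859201672261) (nat_lit 0) leaf)) (nat_lit 3859201675333) (nat_lit 0) (node (node leaf (nat_lit 3859201675525) (nat_lit 0) leaf) (nat_lit 3859202265157) (nat_lit 0) leaf)) (nat_lit 3859202265349) (nat_lit 0) (node (node (node leaf (nat_lit 3859204624453) (nat_lit 0) leaf) (nat_lit 3859204624645) (nat_lit 0) (node leaf (nat_lit 3859205592133) (nat_lit 0) leaf)) (nat_lit 3859205592325) (nat_lit 0) (node (node leaf (nat_lit 3859339806292) (nat_lit 0) leaf) (nat_lit 3859339807057) (nat_lit 0) leaf))) (nat_lit 3859339870597) (nat_lit 0) (node (node (node (node leaf (nat_lit 3859339871269)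 (nat_lit 0) leaf) (nat_lit 3859440469585) (nat_lit 0) (node leaf (nat_lit 3859591464085) (nat_lit 0) leaf)) (nat_lit 3859591464469) (nat_lit 0) (node (node leaf (nat_lit 3859591464529) (nat_lit 0) leaf) (nat_lit 3859591465297) (nat_lit 0) leaf)) (nat_lit 3859591467157) (nat_lit 0) (node (node (node leaf (nat_lit 3859603801681) (nat_lit 0) leaf) (nat_lit 3859603802437) (nat_lit 0) leaf) (nat_lit 3859603809349) (nat_lit 0) (node (node leaf (nat_lit 3859603809361) (nat_lit 0) leaf) (nat_lit 3859603809553) (nat_lit 0) leaf)))))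

noncomputable def R1_68 : Tr := node R1_66 (nat_lit 3859188875857) (nat_lit 0) R1_67

noncomputable def R1_69 : Tr := node R1_65 (nat_lit 3857578203412) (nat_lit 0) R1_68

noncomputable def R1_70 : Tr := (node (node (node (node (node (node leaf (nat_lit 3859603821637) (nat_lit 0) leaf) (nat_lit 3859603821829) (nat_lit 0) (node leaf (nat_lit 3859603821841) (nat_lit 0) leaf)) (nat_lit 3859603850389) (nat_lit 0) (node (node leaf (nat_lit 3859603850833) (nat_lit 0) leaf) (nat_lit 3859603853905) (nat_lit 0) leaf)) (nat_lit 3859603932181) (nat_lit 0) (node (node (node leaf (nat_lit 3859603932229) (nat_lit 0) leaf) (nat_lit 3859603935301) (nat_lit 0) (node leaf (nat_lit 3859603935493) (nat_lit 0) leaf)) (nat_lit 3859604048197) (nat_lit 0) (node (node leaf (nat_lit 3859604048209) (nat_lit 0) leaf) (nat_lit 3859604050513) (nat_lit 0) leaf))) (nat_lit 3859604055301) (nat_lit 0) (node (node (node (node leaf (nat_lit 3859604324629) (nat_lit 0) leaf) (nat_lit 3859604325397) (nat_lit 0) (node leaf (nat_lit 3859604328469) (nat_lit 0) leaf)) (nat_lit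 3859604328517) (nat_lit 0) (node (node leaf (nat_lit 3859604918293) (nat_lit 0) leaf) (nat_lit 3859604918341) (nat_lit 0) leaf)) (nat_lit 3859607277589) (nat_lit 0) (node (node (node leaf (nat_lit 3859607277637) (nat_lit 0) leaf) (nat_lit 3859608244549) (nat_lit 0) (node leaf (nat_lit 3859608245317) (nat_lit 0) leaf)) (nat_lit 3859641796945) (nat_lit 0) (node (node leaf (nat_lit 3859641860485) (nat_lit 0) leaf) (nat_lit 3859641861157) (nat_lit 0) leaf)))) (nat_lit 3859648956820) (nat_lit 0) (node (node (node (node (node leaf (nat_lit 3859648972357) (nat_lit 0) leaf) (nat_lit 3859648972369) (nat_lit 0) (node leaf (nat_lit 3859648972372) (nat_lit 0) leaf)) (nat_lit 3859648975237) (nat_lit 0) (node (node leaf (nat_lit 3859648975252) (nat_lit 0) leaf) (nat_lit 3859648975945) (nat_lit 0) leaf)) (nat_lit 3859648976980) (nat_lit 0) (node (node (node leaf (nat_lit 3859649024581) (nat_lit 0) leaf) (nat_lit 3859649024593) (nat_lit 0) (node leaf (nat_lit 3859649024596) (nat_lit 0) leaf)) (nat_lit 3859649025097) (nat_lit 0) (node (node leaf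 (nat_lit 3859649025121) (nat_lit 0) leaf) (nat_lit 3859649025157) (nat_lit 0) leaf))) (nat_lit 3859649025169) (nat_lit 0) (node (node (node (node leaf (nat_lit 3859649025289) (nat_lit 0) leaf) (nat_lit 3859649025298) (nat_lit 0) (node leaf (nat_lit 3859649025313) (nat_lit 0) leaf)) (nat_lit 3859649025316) (nat_lit 0) (node (node leaf (nat_lit 3859649141125) (nat_lit 0) leaf) (nat_lit 3859649144101) (nat_lit 0) leaf)) (nat_lit 3859649144212) (nat_lit 0) (node (node (node leaf (nat_lit 3859649144389) (nat_lit 0) leaf) (nat_lit 3859649144401) (nat_lit 0) (node leaf (nat_lit 3859649144404) (nat_lit 0) leaf)) (nat_lit 3859649152165) (nat_lit 0) (node (node leaf (nat_lit 3859649153317) (nat_lit 0) leaf) (nat_lit 3859649153353) (nat_lit 0) leaf)))))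

noncomputable def R1_71 : Tr := (node (node (node (node (node (node leaf (nat_lit 3859649153620) (nat_lit 0) leaf) (nat_lit 3859649159497) (nat_lit 0) (node leaf (nat_lit 3859649159764) (nat_lit 0) leaf)) (nat_lit 3859649161537) (nat_lit 0) (node (node leaf (nat_lit 3859649168485) (nat_lit 0) leaf) (nat_lit 3859649168677) (nat_lit 0) leaf)) (nat_lit 3859649168980) (nat_lit 0) (node (node (node leaf (nat_lit 3859649171749) (nat_lit 0) leaf) (nat_lit 3859649171845) (nat_lit 0) (node leaf (nat_lit 3859649172052) (nat_lit 0) leaf)) (nat_lit 3859649172517) (nat_lit 0) (node (node leaf (nat_lit 3859649172628) (nat_lit 0) leaf) (nat_lit 3859649173588) (nat_lit 0) leaf))) (nat_lit 3859649173780) (nat_lit 0) (node (node (node (node leaf (nat_lit 3859649176900) (nat_lit 0) leaf) (nat_lit 3859649201317) (nat_lit 0) (node leaf (nat_lit 3859649202469) (nat_lit 0) leaf)) (nat_lit 3859649208724) (nat_lit 0) (node (node leaf (nat_lit 3859649209876) (nat_lit 0) leaf) (nat_lit 3859649268052) (nat_lit 0) leaf)) (nat_lit 3859649269861) (nat_lit 0)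 (node (node (node leaf (nat_lit 3859649270053) (nat_lit 0) leaf) (nat_lit 3859649270164) (nat_lit 0) (node leaf (nat_lit 3859649271049) (nat_lit 0) leaf)) (nat_lit 3859649282452) (nat_lit 0) (node (node leaf (nat_lit 3859649283604) (nat_lit 0) leaf) (nat_lit 3859649284369) (nat_lit 0) leaf)))) (nat_lit 3859649286292) (nat_lit 0) (node (node (node (node (node leaf (nat_lit 3859649463589) (nat_lit 0) leaf) (nat_lit 3859649463829) (nat_lit 0) (node leaf (nat_lit 3859649463877) (nat_lit 0) leaf)) (nat_lit 3859649463889) (nat_lit 0) (node (node leaf (nat_lit 3859649463892) (nat_lit 0) leaf) (nat_lit 3859649466517) (nat_lit 0) leaf)) (nat_lit 3859649466661) (nat_lit 0) (node (node (node leaf (nat_lit 3859649466757) (nat_lit 0) leaf) (nat_lit 3859649466964) (nat_lit 0) (node leaf (nat_lit 3859649467429) (nat_lit 0) leaf)) (nat_lit 3859649468497) (nat_lit 0) (node (node leaf (nat_lit 3859649471812) (nat_lit 0) leaf) (nat_lit 3859649479045) (nat_lit 0) leaf))) (nat_lit 3859649479252) (nat_lit 0) (node (node (node (node leaf (nat_lit 3859649479717)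 (nat_lit 0) leaf) (nat_lit 3859649479813) (nat_lit 0) (node leaf (nat_lit 3859649479825) (nat_lit 0) leaf)) (nat_lit 3859649479828) (nat_lit 0) (node (node leaf (nat_lit 3859649480212) (nat_lit 0) leaf) (nat_lit 3859649480785) (nat_lit 0) leaf)) (nat_lit 3859649480977) (nat_lit 0) (node (node (node leaf (nat_lit 3859649480980) (nat_lit 0) leaf) (nat_lit 3859649481040) (nat_lit 0) leaf) (nat_lit 3859649482777) (nat_lit 0) (node (node leaf (nat_lit 3859649482789) (nat_lit 0) leaf) (nat_lit 3859649482849) (nat_lit 0) leaf)))))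

noncomputable def R1_72 : Tr := node R1_70 (nat_lit 3859649153413) (nat_lit 0) R1_71

noncomputable def R1_73 : Tr := (node (node (node (node (node (node leaf (nat_lit 3859649483017) (nat_lit 0) leaf) (nat_lit 3859649483041) (nat_lit 0) (node leaf (nat_lit 3859649483284) (nat_lit 0) leaf)) (nat_lit 3859649483785) (nat_lit 0) (node (node leaf (nat_lit 3859649487172) (nat_lit 0) leaf) (nat_lit 3859649496385) (nat_lit 0) leaf)) (nat_lit 3859649496388) (nat_lit 0) (node (node (node leaf (nat_lit 3859649930533) (nat_lit 0) leaf) (nat_lit 3859649930629) (nat_lit 0) (node leaf (nat_lit 3859649930644) (nat_lit 0) leaf)) (nat_lit 3859649938069) (nat_lit 0) (node (node leaf (nat_lit 3859649939785) (nat_lit 0) leaf) (nat_lit 3859649939857) (nat_lit 0) leaf))) (nat_lit 3859649940052) (nat_lit 0) (node (node (node (node leaf (nat_lit 3859649958484) (nat_lit 0) leaf) (nat_lit 3859649958949) (nat_lit 0) (node leaf (nat_lit 3859649959009) (nat_lit 0) leaf)) (nat_lit 3859649959045) (nat_lit 0) (node (node leaf (nat_lit 3859649959060) (nat_lit 0)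 leaf) (nat_lit 3859649959177) (nat_lit 0) leaf)) (nat_lit 3859649960257) (nat_lit 0) (node (node (node leaf (nat_lit 3859649988901) (nat_lit 0) leaf) (nat_lit 3859649989012) (nat_lit 0) (node leaf (nat_lit 3859649995924) (nat_lit 0) leaf)) (nat_lit 3859650057481) (nat_lit 0) (node (node leaf (nat_lit 3859650183589) (nat_lit 0) leaf) (nat_lit 3859650184852) (nat_lit 0) leaf)))) (nat_lit 3859650465940) (nat_lit 0) (node (node (node (node (node leaf (nat_lit 3859651007809) (nat_lit 0) leaf) (nat_lit 3859651036453) (nat_lit 0) (node leaf (nat_lit 3859651036741) (nat_lit 0) leaf)) (nat_lit 3859651036753) (nat_lit 0) (node (node leaf (nat_lit 3859651037521) (nat_lit 0) leaf) (nat_lit 3859651039525) (nat_lit 0) leaf)) (nat_lit 3859651044676) (nat_lit 0) (node (node (node leaf (nat_lit 3859651051669) (nat_lit 0) leaf) (nat_lit 3859651051813) (nat_lit 0) (node leaf (nat_lit 3859651051909) (nat_lit 0) leaf)) (nat_lit 3859651052116) (nat_lit 0) (node (node leaf (nat_lit 3859651052581) (nat_lit 0) leaf) (nat_lit 3859651052677) (nat_lit 0) leaf)))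 (nat_lit 3859651053649) (nat_lit 0) (node (node (node (node leaf (nat_lit 3859651055653) (nat_lit 0) leaf) (nat_lit 3859651069249) (nat_lit 0) (node leaf (nat_lit 3859651234129) (nat_lit 0) leaf)) (nat_lit 3859651250257) (nat_lit 0) (node (node leaf (nat_lit 3859651297429) (nat_lit 0) leaf) (nat_lit 3859651297873) (nat_lit 0) leaf)) (nat_lit 3859653076261) (nat_lit 0) (node (node (node leaf (nat_lit 3859653076297) (nat_lit 0) leaf) (nat_lit 3859653083797) (nat_lit 0) leaf) (nat_lit 3859653085780) (nat_lit 0) (node (node leaf (nat_lit 3859653091621) (nat_lit 0) leaf) (nat_lit 3859653104212) (nat_lit 0) leaf)))))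

noncomputable def R1_74 : Tr := (node (node (node (node (node (node leaf (nat_lit 3859653134629) (nat_lit 0) leaf) (nat_lit 3859653140773) (nat_lit 0) (node leaf (nat_lit 3859653218452) (nat_lit 0) leaf)) (nat_lit 3859653329317) (nat_lit 0) (node (node leaf (nat_lit 3859653330085) (nat_lit 0) leaf) (nat_lit 3859653331237) (nat_lit 0) leaf)) (nat_lit 3859657299217) (nat_lit 0) (node (node (node leaf (nat_lit 3859657299265) (nat_lit 0) leaf) (nat_lit 3859657328149) (nat_lit 0) (node leaf (nat_lit 3859657328197) (nat_lit 0) leaf)) (nat_lit 3859657330789) (nat_lit 0) (node (node leaf (nat_lit 3859657330837) (nat_lit 0) leaf) (nat_lit 3859657330981) (nat_lit 0) leaf))) (nat_lit 3859657332817) (nat_lit 0) (node (node (node (node leaf (nat_lit 3859657343125) (nat_lit 0) leaf) (nat_lit 3859657343269) (nat_lit 0) (node leaf (nat_lit 3859657343569) (nat_lit 0) leaf)) (nat_lit 3859657529425) (nat_lit 0) (node (node leaf (nat_lit 3859657539733) (nat_lit 0) leaf) (nat_lit 3859657540177) (nat_lit 0) leaf)) (nat_lit 3859666736401) (nat_lit 0)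 (node (node (node leaf (nat_lit 3859666736449) (nat_lit 0) leaf) (nat_lit 3859666767973) (nat_lit 0) (node leaf (nat_lit 3859666768021) (nat_lit 0) leaf)) (nat_lit 3859666768165) (nat_lit 0) (node (node leaf (nat_lit 3859666780309) (nat_lit 0) leaf) (nat_lit 3859669911889) (nat_lit 0) leaf)))) (nat_lit 3859669913893) (nat_lit 0) (node (node (node (node (node leaf (nat_lit 3859669926037) (nat_lit 0) leaf) (nat_lit 3859669926277) (nat_lit 0) (node leaf (nat_lit 3859669926949) (nat_lit 0) leaf)) (nat_lit 3859670108497) (nat_lit 0) (node (node leaf (nat_lit 3859701649477) (nat_lit 0) leaf) (nat_lit 3859703698501) (nat_lit 0) leaf)) (nat_lit 3859704004885) (nat_lit 0) (node (node (node leaf (nat_lit 3859704005653) (nat_lit 0) leaf) (nat_lit 3859704008725) (nat_lit 0) (node leaf (nat_lit 3859704464533) (nat_lit 0) leaf)) (nat_lit 3859704465685) (nat_lit 0) (node (node leaf (nat_lit 3859704471889) (nat_lit 0) leaf) (nat_lit 3859704472657) (nat_lit 0) leaf))) (nat_lit 3859704484117) (nat_lit 0) (node (node (node (node leaf (nat_lit 3859704484933)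 (nat_lit 0) leaf) (nat_lit 3859704484945) (nat_lit 0) (node leaf (nat_lit 3859704485137) (nat_lit 0) leaf)) (nat_lit 3859704514129) (nat_lit 0) (node (node leaf (nat_lit 3859704514885) (nat_lit 0) leaf) (nat_lit 3859704514897) (nat_lit 0) leaf)) (nat_lit 3859704521989) (nat_lit 0) (node (node (node leaf (nat_lit 3859704583237) (nat_lit 0) leaf) (nat_lit 3859704595525) (nat_lit 0) leaf) (nat_lit 3859705578517) (nat_lit 0) (node (node leaf (nat_lit 3859708907797) (nat_lit 0) leaf) (nat_lit 3859708908565) (nat_lit 0) leaf)))))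

noncomputable def R1_75 : Tr := node R1_73 (nat_lit 3859653104905) (nat_lit 0) R1_74

noncomputable def R1_76 : Tr := node R1_72 (nat_lit 3859649482900) (nat_lit 0) R1_75

noncomputable def R1_77 : Tr := node R1_69 (nat_lit 3859603820869) (nat_lit 0) R1_76

noncomputable def R1_78 : Tr := (node (node (node (node (node (node leaf (nat_lit 3859717097041) (nat_lit 0) leaf) (nat_lit 3859717097809) (nat_lit 0) (node leaf (nat_lit 3859717294417) (nat_lit 0) leaf)) (nat_lit 3859720241749) (nat_lit 0) (node (node leaf (nat_lit 3859720242325) (nat_lit 0) leaf) (nat_lit 3859720245397) (nat_lit 0) leaf)) (nat_lit 3859720438357) (nat_lit 0) (node (node (node leaf (nat_lit 3859721224789) (nat_lit 0) leaf) (nat_lit 3859733877013) (nat_lit 0) (node leaf (nat_lit 3859733877781) (nat_lit 0) leaf)) (nat_lit 3883096408453) (nat_lit 0) (node (node leaf (nat_lit 3883348003156) (nat_lit 0) leaf) (nat_lit 3883348005397) (nat_lit 0) leaf))) (nat_lit 3883348006996) (nat_lit 0) (node (node (node (node leaf (nat_lit 3883348017301) (nat_lit 0) leaf) (nat_lit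 3883348017748) (nat_lit 0) (node leaf (nat_lit 3883360339540) (nat_lit 0) leaf)) (nat_lit 3883360347397) (nat_lit 0) (node (node leaf (nat_lit 3883360347409) (nat_lit 0) leaf) (nat_lit 3883360347457) (nat_lit 0) leaf)) (nat_lit 3883360359493) (nat_lit 0) (node (node (node leaf (nat_lit 3883360359685) (nat_lit 0) leaf) (nat_lit 3883360359697) (nat_lit 0) (node leaf (nat_lit 3883360359700) (nat_lit 0) leaf)) (nat_lit 3883360389445) (nat_lit 0) (node (node leaf (nat_lit 3883360391317) (nat_lit 0) leaf) (nat_lit 3883360391764) (nat_lit 0) leaf)))) (nat_lit 3883360404517) (nat_lit 0) (node (node (node (node (node leaf (nat_lit 3883360470085) (nat_lit 0) leaf) (nat_lit 3883360470277) (nat_lit 0) (node leaf (nat_lit 3883360473349) (nat_lit 0) leaf)) (nat_lit 3883360474117) (nat_lit 0) (node (node leaf (nat_lit 3883360585297) (nat_lit 0) leaf) (nat_lit 3883360586065) (nat_lit 0) leaf)) (nat_lit 3883360588069) (nat_lit 0) (node (node (node leaf (nat_lit 3883360589905) (nat_lit 0) leaf) (nat_lit 3883360589908) (nat_lit 0) (node leaf (nat_lit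 3883360593169) (nat_lit 0) leaf)) (nat_lit 3883360600213) (nat_lit 0) (node (node leaf (nat_lit 3883360600453) (nat_lit 0) leaf) (nat_lit 3883360600657) (nat_lit 0) leaf))) (nat_lit 3883360600660) (nat_lit 0) (node (node (node (node leaf (nat_lit 3883360601125) (nat_lit 0) leaf) (nat_lit 3883360649605) (nat_lit 0) (node leaf (nat_lit 3883360650277) (nat_lit 0) leaf)) (nat_lit 3883360863253) (nat_lit 0) (node (node leaf (nat_lit 3883360863301) (nat_lit 0) leaf) (nat_lit 3883360866373) (nat_lit 0) leaf)) (nat_lit 3883360866565) (nat_lit 0) (node (node (node leaf (nat_lit 3883361456197) (nat_lit 0) leaf) (nat_lit 3883361456389) (nat_lit 0) (node leaf (nat_lit 3883363815493) (nat_lit 0) leaf)) (nat_lit 3883363815685) (nat_lit 0) (node (node leaf (nat_lit 3883364783173) (nat_lit 0) leaf) (nat_lit 3883364783365) (nat_lit 0) leaf)))))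

noncomputable def R1_79 : Tr := (node (node (node (node (node (node leaf (nat_lit 3884958615061) (nat_lit 0) leaf) (nat_lit 3884958615889) (nat_lit 0) (node leaf (nat_lit 3884958617749) (nat_lit 0) leaf)) (nat_lit 3884958619729) (nat_lit 0) (node (node leaf (nat_lit 3884958630481) (nat_lit 0) leaf) (nat_lit 3884970952273) (nat_lit 0) leaf)) (nat_lit 3884970953029) (nat_lit 0) (node (node (node leaf (nat_lit 3884970954901) (nat_lit 0) leaf) (nat_lit 3884970959941) (nat_lit 0) (node leaf (nat_lit 3884970960133) (nat_lit 0) leaf)) (nat_lit 3884970960145) (nat_lit 0) (node (node leaf (nat_lit 3884970972181) (nat_lit 0) leaf) (nat_lit 3884970972229) (nat_lit 0) leaf))) (nat_lit 3884970972241) (nat_lit 0) (node (node (node (node leaf (nat_lit 3884970972433) (nat_lit 0) leaf) (nat_lit 3884971001425) (nat_lit 0) (node leaf (nat_lit 3884971004497) (nat_lit 0) leaf)) (nat_lit 3884971016341) (nat_lit 0) (node (node leaf (nat_lit 3884971016485) (nat_lit 0) leaf) (nat_lit 3884971082773) (nat_lit 0) leaf)) (nat_lit 3884971082821) (nat_lit 0)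 (node (node (node leaf (nat_lit 3884971085893) (nat_lit 0) leaf) (nat_lit 3884971086085) (nat_lit 0) (node leaf (nat_lit 3884971197733) (nat_lit 0) leaf)) (nat_lit 3884971198021) (nat_lit 0) (node (node leaf (nat_lit 3884971198789) (nat_lit 0) leaf) (nat_lit 3884971198801) (nat_lit 0) leaf)))) (nat_lit 3884971198804) (nat_lit 0) (node (node (node (node (node leaf (nat_lit 3884971201105) (nat_lit 0) leaf) (nat_lit 3884971205893) (nat_lit 0) (node leaf (nat_lit 3884971212949) (nat_lit 0) leaf)) (nat_lit 3884971213093) (nat_lit 0) (node (node leaf (nat_lit 3884971262101) (nat_lit 0) leaf) (nat_lit 3884971475221) (nat_lit 0) leaf)) (nat_lit 3884971475989) (nat_lit 0) (node (node (node leaf (nat_lit 3884971479061) (nat_lit 0) leaf) (nat_lit 3884971479109) (nat_lit 0) (node leaf (nat_lit 3884972068885) (nat_lit 0) leaf)) (nat_lit 3884972068933) (nat_lit 0) (node (node leaf (nat_lit 3884974428181) (nat_lit 0) leaf) (nat_lit 3884974428229) (nat_lit 0) leaf))) (nat_lit 3884975395861) (nat_lit 0) (node (node (node (node leaf (nat_lit 3884975395909)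 (nat_lit 0) leaf) (nat_lit 3885109674133) (nat_lit 0) (node leaf (nat_lit 3885361267285) (nat_lit 0) leaf)) (nat_lit 3885361267861) (nat_lit 0) (node (node leaf (nat_lit 3885361269061) (nat_lit 0) leaf) (nat_lit 3885361269073) (nat_lit 0) leaf)) (nat_lit 3885373605013) (nat_lit 0) (node (node (node leaf (nat_lit 3885373606165) (nat_lit 0) leaf) (nat_lit 3885373613125) (nat_lit 0) leaf) (nat_lit 3885373613317) (nat_lit 0) (node (node leaf (nat_lit 3885373624597) (nat_lit 0) leaf) (nat_lit 3885373625365) (nat_lit 0) leaf)))))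

noncomputable def R1_80 : Tr := node R1_78 (nat_lit 3883901714725) (nat_lit 0) R1_79

noncomputable def R1_81 : Tr := (node (node (node (node (node (node leaf (nat_lit 3885373625425) (nat_lit 0) leaf) (nat_lit 3885373654597) (nat_lit 0) (node leaf (nat_lit 3885373654609) (nat_lit 0) leaf)) (nat_lit 3885373655365) (nat_lit 0) (node (node leaf (nat_lit 3885373655377) (nat_lit 0) leaf) (nat_lit 3885373657237) (nat_lit 0) leaf)) (nat_lit 3885373657381) (nat_lit 0) (node (node (node leaf (nat_lit 3885373657681) (nat_lit 0) leaf) (nat_lit 3885373662469) (nat_lit 0) (node leaf (nat_lit 3885373723669) (nat_lit 0) leaf)) (nat_lit 3885373723717) (nat_lit 0) (node (node leaf (nat_lit 3885373736005) (nat_lit 0) leaf) (nat_lit 3885373739077) (nat_lit 0) leaf))) (nat_lit 3885374116117) (nat_lit 0) (node (node (node (node leaf (nat_lit 3885374116885) (nat_lit 0) leaf) (nat_lit 3885374129173) (nat_lit 0) (node leaf (nat_lit 3885374132245) (nat_lit 0) leaf)) (nat_lit 3885374718997) (nat_lit 0) (node (node leaf (nat_lit 3885374722069) (nat_lit 0)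 leaf) (nat_lit 3885377078293) (nat_lit 0) leaf)) (nat_lit 3885377081365) (nat_lit 0) (node (node (node leaf (nat_lit 3885378048277) (nat_lit 0) leaf) (nat_lit 3885378049045) (nat_lit 0) (node leaf (nat_lit 3885411664021) (nat_lit 0) leaf)) (nat_lit 3885418760521) (nat_lit 0) (node (node leaf (nat_lit 3885418760593) (nat_lit 0) leaf) (nat_lit 3885418776133) (nat_lit 0) leaf)))) (nat_lit 3885418776145) (nat_lit 0) (node (node (node (node (node leaf (nat_lit 3885418776148) (nat_lit 0) leaf) (nat_lit 3885418779013) (nat_lit 0) (node leaf (nat_lit 3885418779025) (nat_lit 0) leaf)) (nat_lit 3885418779673) (nat_lit 0) (node (node leaf (nat_lit 3885418784068) (nat_lit 0) leaf) (nat_lit 3885418828165) (nat_lit 0) leaf)) (nat_lit 3885418828180) (nat_lit 0) (node (node (node leaf (nat_lit 3885418828309) (nat_lit 0) leaf) (nat_lit 3885418828357) (nat_lit 0) (node leaf (nat_lit 3885418828369) (nat_lit 0) leaf)) (nat_lit 3885418828837) (nat_lit 0) (node (node leaf (nat_lit 3885418828873) (nat_lit 0) leaf) (nat_lit 3885418828897) (nat_lit 0) leaf)))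 (nat_lit 3885418828933) (nat_lit 0) (node (node (node (node leaf (nat_lit 3885418829065) (nat_lit 0) leaf) (nat_lit 3885418829089) (nat_lit 0) (node leaf (nat_lit 3885418944901) (nat_lit 0) leaf)) (nat_lit 3885418947877) (nat_lit 0) (node (node leaf (nat_lit 3885418947913) (nat_lit 0) leaf) (nat_lit 3885418947973) (nat_lit 0) leaf)) (nat_lit 3885418947985) (nat_lit 0) (node (node (node leaf (nat_lit 3885418948117) (nat_lit 0) leaf) (nat_lit 3885418948165) (nat_lit 0) leaf) (nat_lit 3885418948177) (nat_lit 0) (node (node leaf (nat_lit 3885418948180) (nat_lit 0) leaf) (nat_lit 3885418955413) (nat_lit 0) leaf)))))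

noncomputable def R1_82 : Tr := (node (node (node (node (node (node leaf (nat_lit 3885418957396) (nat_lit 0) leaf) (nat_lit 3885418964500) (nat_lit 0) (node leaf (nat_lit 3885418972261) (nat_lit 0) leaf)) (nat_lit 3885418972453) (nat_lit 0) (node (node leaf (nat_lit 3885418975525) (nat_lit 0) leaf) (nat_lit 3885418975828) (nat_lit 0) leaf)) (nat_lit 3885418976389) (nat_lit 0) (node (node (node leaf (nat_lit 3885418976404) (nat_lit 0) leaf) (nat_lit 3885418977361) (nat_lit 0) (node leaf (nat_lit 3885418977364) (nat_lit 0) leaf)) (nat_lit 3885418977601) (nat_lit 0) (node (node leaf (nat_lit 3885419004325) (nat_lit 0) leaf) (nat_lit 3885419013268) (nat_lit 0) leaf))) (nat_lit 3885419073637) (nat_lit 0) (node (node (node (node leaf (nat_lit 3885419073940) (nat_lit 0) leaf) (nat_lit 3885419074825) (nat_lit 0) (node leaf (nat_lit 3885419075857) (nat_lit 0) leaf)) (nat_lit 3885419086420) (nat_lit 0) (node (node leaf (nat_lit 3885419218453) (nat_lit 0) leaf) (nat_lit 3885419221141) (nat_lit 0) leaf)) (nat_lit 3885419267365) (nat_lit 0)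 (node (node (node leaf (nat_lit 3885419267605) (nat_lit 0) leaf) (nat_lit 3885419267653) (nat_lit 0) (node leaf (nat_lit 3885419267665) (nat_lit 0) leaf)) (nat_lit 3885419270293) (nat_lit 0) (node (node leaf (nat_lit 3885419270437) (nat_lit 0) leaf) (nat_lit 3885419270740) (nat_lit 0) leaf)))) (nat_lit 3885419272273) (nat_lit 0) (node (node (node (node (node leaf (nat_lit 3885419275585) (nat_lit 0) leaf) (nat_lit 3885419282581) (nat_lit 0) (node leaf (nat_lit 3885419282821) (nat_lit 0) leaf)) (nat_lit 3885419283028) (nat_lit 0) (node (node leaf (nat_lit 3885419283493) (nat_lit 0) leaf) (nat_lit 3885419283589) (nat_lit 0) leaf)) (nat_lit 3885419283988) (nat_lit 0) (node (node (node leaf (nat_lit 3885419284561) (nat_lit 0) leaf) (nat_lit 3885419284564) (nat_lit 0) (node leaf (nat_lit 3885419284804) (nat_lit 0) leaf)) (nat_lit 3885419286565) (nat_lit 0) (node (node leaf (nat_lit 3885419286625) (nat_lit 0) leaf) (nat_lit 3885419286676) (nat_lit 0) leaf))) (nat_lit 3885419286793) (nat_lit 0) (node (node (node (node leaf (nat_lit 3885419290945)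 (nat_lit 0) leaf) (nat_lit 3885419300113) (nat_lit 0) (node leaf (nat_lit 3885419300161) (nat_lit 0) leaf)) (nat_lit 3885419734309) (nat_lit 0) (node (node leaf (nat_lit 3885419734345) (nat_lit 0) leaf) (nat_lit 3885419734417) (nat_lit 0) leaf)) (nat_lit 3885419743525) (nat_lit 0) (node (node (node leaf (nat_lit 3885419743621) (nat_lit 0) leaf) (nat_lit 3885419743636) (nat_lit 0) leaf) (nat_lit 3885419743828) (nat_lit 0) (node (node leaf (nat_lit 3885419749669) (nat_lit 0) leaf) (nat_lit 3885419761957) (nat_lit 0) leaf)))))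

noncomputable def R1_83 : Tr := node R1_81 (nat_lit 3885418957093) (nat_lit 0) R1_82

noncomputable def R1_84 : Tr := node R1_80 (nat_lit 3885373625413) (nat_lit 0) R1_83

noncomputable def R1_85 : Tr := (node (node (node (node (node (node leaf (nat_lit 3885419762725) (nat_lit 0) leaf) (nat_lit 3885419762761) (nat_lit 0) (node leaf (nat_lit 3885419762953) (nat_lit 0) leaf)) (nat_lit 3885419790757) (nat_lit 0) (node (node leaf (nat_lit 3885419792020) (nat_lit 0) leaf) (nat_lit 3885419792677) (nat_lit 0) leaf)) (nat_lit 3885420811537) (nat_lit 0) (node (node (node leaf (nat_lit 3885420811585) (nat_lit 0) leaf) (nat_lit 3885420840469) (nat_lit 0) (node leaf (nat_lit 3885420840517) (nat_lit 0) leaf)) (nat_lit 3885420841297) (nat_lit 0) (node (node leaf (nat_lit 3885420843109) (nat_lit 0) leaf) (nat_lit 3885420843157) (nat_lit 0) leaf))) (nat_lit 3885420845137) (nat_lit 0) (node (node (node (node leaf (nat_lit 3885420855445) (nat_lit 0) leaf) (nat_lit 3885420855589) (nat_lit 0) (node leaf (nat_lit 3885420855685) (nat_lit 0) leaf)) (nat_lit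 3885420855889) (nat_lit 0) (node (node leaf (nat_lit 3885420856357) (nat_lit 0) leaf) (nat_lit 3885421041745) (nat_lit 0) leaf)) (nat_lit 3885421052497) (nat_lit 0) (node (node (node leaf (nat_lit 3885422875285) (nat_lit 0) leaf) (nat_lit 3885422895397) (nat_lit 0) (node leaf (nat_lit 3885422936485) (nat_lit 0) leaf)) (nat_lit 3885422937253) (nat_lit 0) (node (node leaf (nat_lit 3885422938405) (nat_lit 0) leaf) (nat_lit 3885427085461) (nat_lit 0) leaf)))) (nat_lit 3885427102801) (nat_lit 0) (node (node (node (node (node leaf (nat_lit 3885427102993) (nat_lit 0) leaf) (nat_lit 3885427130965) (nat_lit 0) (node leaf (nat_lit 3885427131493) (nat_lit 0) leaf)) (nat_lit 3885427131925) (nat_lit 0) (node (node leaf (nat_lit 3885427132753) (nat_lit 0) leaf) (nat_lit 3885427134613) (nat_lit 0) leaf)) (nat_lit 3885427134757) (nat_lit 0) (node (node (node leaf (nat_lit 3885427146901) (nat_lit 0) leaf) (nat_lit 3885427329361) (nat_lit 0) (node leaf (nat_lit 3885436539985) (nat_lit 0) leaf)) (nat_lit 3885436540177) (nat_lit 0) (node (node leaf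 (nat_lit 3885436568677) (nat_lit 0) leaf) (nat_lit 3885436569937) (nat_lit 0) leaf))) (nat_lit 3885436571797) (nat_lit 0) (node (node (node (node leaf (nat_lit 3885436584085) (nat_lit 0) leaf) (nat_lit 3885439715665) (nat_lit 0) (node leaf (nat_lit 3885439717477) (nat_lit 0) leaf)) (nat_lit 3885439729813) (nat_lit 0) (node (node leaf (nat_lit 3885471453205) (nat_lit 0) leaf) (nat_lit 3885473501461) (nat_lit 0) leaf)) (nat_lit 3885473502229) (nat_lit 0) (node (node (node leaf (nat_lit 3885473796373) (nat_lit 0) leaf) (nat_lit 3885473797141) (nat_lit 0) (node leaf (nat_lit 3885473809429) (nat_lit 0) leaf)) (nat_lit 3885474257173) (nat_lit 0) (node (node leaf (nat_lit 3885474267541) (nat_lit 0) leaf) (nat_lit 3885474268753) (nat_lit 0) leaf)))))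

noncomputable def R1_86 : Tr := (node (node (node (node (node (node leaf (nat_lit 3885474275653) (nat_lit 0) leaf) (nat_lit 3885474276421) (nat_lit 0) (node leaf (nat_lit 3885474276613) (nat_lit 0) leaf)) (nat_lit 3885474288661) (nat_lit 0) (node (node leaf (nat_lit 3885474288709) (nat_lit 0) leaf) (nat_lit 3885474288721) (nat_lit 0) leaf)) (nat_lit 3885474317461) (nat_lit 0) (node (node (node leaf (nat_lit 3885474317905) (nat_lit 0) leaf) (nat_lit 3885474318661) (nat_lit 0) (node leaf (nat_lit 3885474386965) (nat_lit 0) leaf)) (nat_lit 3885474399253) (nat_lit 0) (node (node leaf (nat_lit 3885475381525) (nat_lit 0) leaf) (nat_lit 3885478514965) (nat_lit 0) leaf))) (nat_lit 3885478515733) (nat_lit 0) (node (node (node (node leaf (nat_lit 3885478711573) (nat_lit 0) leaf) (nat_lit 3885486899797) (nat_lit 0) (node leaf (nat_lit 3885486900373) (nat_lit 0) leaf)) (nat_lit 3885486901573) (nat_lit 0) (node (node leaf (nat_lit 3885486901585) (nat_lit 0) leaf) (nat_lit 3885490000021) (nat_lit 0) leaf)) (nat_lit 3885490045525) (nat_lit 0)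 (node (node (node leaf (nat_lit 3885490242133) (nat_lit 0) leaf) (nat_lit 3885503680597) (nat_lit 0) (node leaf (nat_lit 3885503680789) (nat_lit 0) leaf)) (nat_lit 3891350798485) (nat_lit 0) (node (node leaf (nat_lit 3891413391685) (nat_lit 0) leaf) (nat_lit 3891413402773) (nat_lit 0) leaf)))) (nat_lit 3891413403217) (nat_lit 0) (node (node (node (node (node leaf (nat_lit 3891413410117) (nat_lit 0) leaf) (nat_lit 3891413410885) (nat_lit 0) (node leaf (nat_lit 3891413411077) (nat_lit 0) leaf)) (nat_lit 3891413422357) (nat_lit 0) (node (node leaf (nat_lit 3891413423173) (nat_lit 0) leaf) (nat_lit 3891413423185) (nat_lit 0) leaf)) (nat_lit 3891413452369) (nat_lit 0) (node (node (node leaf (nat_lit 3891413453125) (nat_lit 0) leaf) (nat_lit 3891413453137) (nat_lit 0) (node leaf (nat_lit 3891413453140) (nat_lit 0) leaf)) (nat_lit 3891413454997) (nat_lit 0) (node (node leaf (nat_lit 3891413455141) (nat_lit 0) leaf) (nat_lit 3891413455441) (nat_lit 0) leaf))) (nat_lit 3891413460229) (nat_lit 0) (node (node (node (node leaf (nat_lit 3891413532949)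 (nat_lit 0) leaf) (nat_lit 3891413533717) (nat_lit 0) (node leaf (nat_lit 3891413536789) (nat_lit 0) leaf)) (nat_lit 3891413536837) (nat_lit 0) (node (node leaf (nat_lit 3891413648917) (nat_lit 0) leaf) (nat_lit 3891413651605) (nat_lit 0) leaf)) (nat_lit 3891413663845) (nat_lit 0) (node (node (node leaf (nat_lit 3891413663893) (nat_lit 0) leaf) (nat_lit 3891413925973) (nat_lit 0) leaf) (nat_lit 3891413926933) (nat_lit 0) (node (node leaf (nat_lit 3891413926981) (nat_lit 0) leaf) (nat_lit 3891414516757) (nat_lit 0) leaf)))))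

noncomputable def R1_87 : Tr := node R1_85 (nat_lit 3885474269509) (nat_lit 0) R1_86

noncomputable def R1_88 : Tr := (node (node (node (node (node (node leaf (nat_lit 3891416876053) (nat_lit 0) leaf) (nat_lit 3891416876101) (nat_lit 0) (node leaf (nat_lit 3891417846037) (nat_lit 0) leaf)) (nat_lit 3891417846805) (nat_lit 0) (node (node leaf (nat_lit 3891816044821) (nat_lit 0) leaf) (nat_lit 3891816055189) (nat_lit 0) leaf)) (nat_lit 3891816056401) (nat_lit 0) (node (node (node leaf (nat_lit 3891816057157) (nat_lit 0) leaf) (nat_lit 3891816059473) (nat_lit 0) (node leaf (nat_lit 3891816063301) (nat_lit 0) leaf)) (nat_lit 3891816064069) (nat_lit 0) (node (node leaf (nat_lit 3891816064261) (nat_lit 0) leaf) (nat_lit 3891816075349) (nat_lit 0) leaf))) (nat_lit 3891816076309) (nat_lit 0) (node (node (node (node leaf (nat_lit 3891816076357) (nat_lit 0) leaf) (nat_lit 3891816105109) (nat_lit 0) (node leaf (nat_lit 3891816105493) (nat_lit 0) leaf)) (nat_lit 3891816106309) (nat_lit 0) (node (node leaf (nat_lit 3891816108133) (nat_lit 0)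 leaf) (nat_lit 3891816108181) (nat_lit 0) leaf)) (nat_lit 3891816120469) (nat_lit 0) (node (node (node leaf (nat_lit 3891816173845) (nat_lit 0) leaf) (nat_lit 3891816174613) (nat_lit 0) (node leaf (nat_lit 3891816186901) (nat_lit 0) leaf)) (nat_lit 3891816189973) (nat_lit 0) (node (node leaf (nat_lit 3891816566869) (nat_lit 0) leaf) (nat_lit 3891816579349) (nat_lit 0) leaf)))) (nat_lit 3891816580117) (nat_lit 0) (node (node (node (node (node leaf (nat_lit 3891817169173) (nat_lit 0) leaf) (nat_lit 3891817169941) (nat_lit 0) (node leaf (nat_lit 3891819528469) (nat_lit 0) leaf)) (nat_lit 3891819529237) (nat_lit 0) (node (node leaf (nat_lit 3891820499029) (nat_lit 0) leaf) (nat_lit 3891820499221) (nat_lit 0) leaf)) (nat_lit 3891854065813) (nat_lit 0) (node (node (node leaf (nat_lit 3891861202309) (nat_lit 0) leaf) (nat_lit 3891861202453) (nat_lit 0) (node leaf (nat_lit 3891861202516) (nat_lit 0) leaf)) (nat_lit 3891861211525) (nat_lit 0) (node (node leaf (nat_lit 3891861226789) (nat_lit 0) leaf) (nat_lit 3891861226885) (nat_lit 0) leaf)))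 (nat_lit 3891861227029) (nat_lit 0) (node (node (node (node leaf (nat_lit 3891861227077) (nat_lit 0) leaf) (nat_lit 3891861227089) (nat_lit 0) (node leaf (nat_lit 3891861229957) (nat_lit 0) leaf)) (nat_lit 3891861230725) (nat_lit 0) (node (node leaf (nat_lit 3891861231937) (nat_lit 0) leaf) (nat_lit 3891861234964) (nat_lit 0) leaf)) (nat_lit 3891861276181) (nat_lit 0) (node (node (node leaf (nat_lit 3891861278869) (nat_lit 0) leaf) (nat_lit 3891861279013) (nat_lit 0) leaf) (nat_lit 3891861279109) (nat_lit 0) (node (node leaf (nat_lit 3891861279121) (nat_lit 0) leaf) (nat_lit 3891861279253) (nat_lit 0) leaf)))))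

noncomputable def R1_89 : Tr := (node (node (node (node (node (node leaf (nat_lit 3891861279769) (nat_lit 0) leaf) (nat_lit 3891861279781) (nat_lit 0) (node leaf (nat_lit 3891861279841) (nat_lit 0) leaf)) (nat_lit 3891861394069) (nat_lit 0) (node (node leaf (nat_lit 3891861398821) (nat_lit 0) leaf) (nat_lit 3891861398917) (nat_lit 0) leaf)) (nat_lit 3891861399061) (nat_lit 0) (node (node (node leaf (nat_lit 3891861399109) (nat_lit 0) leaf) (nat_lit 3891861408037) (nat_lit 0) (node leaf (nat_lit 3891861408133) (nat_lit 0) leaf)) (nat_lit 3891861423397) (nat_lit 0) (node (node leaf (nat_lit 3891861426469) (nat_lit 0) leaf) (nat_lit 3891861426580) (nat_lit 0) leaf))) (nat_lit 3891861426772) (nat_lit 0) (node (node (node (node leaf (nat_lit 3891861427237) (nat_lit 0) leaf) (nat_lit 3891861427273) (nat_lit 0) (node leaf (nat_lit 3891861428305) (nat_lit 0) leaf)) (nat_lit 3891861455269) (nat_lit 0) (node (node leaf (nat_lit 3891861457189) (nat_lit 0) leaf) (nat_lit 3891861525577) (nat_lit 0) leaf)) (nat_lit 3891861668437) (nat_lit 0)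 (node (node (node leaf (nat_lit 3891861669013) (nat_lit 0) leaf) (nat_lit 3891861717589) (nat_lit 0) (node leaf (nat_lit 3891861718309) (nat_lit 0) leaf)) (nat_lit 3891861718549) (nat_lit 0) (node (node leaf (nat_lit 3891861718597) (nat_lit 0) leaf) (nat_lit 3891861721237) (nat_lit 0) leaf)))) (nat_lit 3891861723217) (nat_lit 0) (node (node (node (node (node leaf (nat_lit 3891861726481) (nat_lit 0) leaf) (nat_lit 3891861726529) (nat_lit 0) (node leaf (nat_lit 3891861733525) (nat_lit 0) leaf)) (nat_lit 3891861733669) (nat_lit 0) (node (node leaf (nat_lit 3891861733969) (nat_lit 0) leaf) (nat_lit 3891861734548) (nat_lit 0) leaf)) (nat_lit 3891861734929) (nat_lit 0) (node (node (node leaf (nat_lit 3891861735505) (nat_lit 0) leaf) (nat_lit 3891861737509) (nat_lit 0) (node leaf (nat_lit 3891861751045) (nat_lit 0) leaf)) (nat_lit 3891861751057) (nat_lit 0) (node (node leaf (nat_lit 3891862180501) (nat_lit 0) leaf) (nat_lit 3891862182292) (nat_lit 0) leaf))) (nat_lit 3891862182484) (nat_lit 0) (node (node (node (node leaf (nat_lit 3891862185253)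 (nat_lit 0) leaf) (nat_lit 3891862185349) (nat_lit 0) (node leaf (nat_lit 3891862213705) (nat_lit 0) leaf)) (nat_lit 3891862241701) (nat_lit 0) (node (node leaf (nat_lit 3891863262469) (nat_lit 0) leaf) (nat_lit 3891863262481) (nat_lit 0) leaf)) (nat_lit 3891863290453) (nat_lit 0) (node (node (node leaf (nat_lit 3891863291029) (nat_lit 0) leaf) (nat_lit 3891863291413) (nat_lit 0) leaf) (nat_lit 3891863292241) (nat_lit 0) (node (node leaf (nat_lit 3891863294101) (nat_lit 0) leaf) (nat_lit 3891863296081) (nat_lit 0) leaf)))))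

noncomputable def R1_90 : Tr := node R1_88 (nat_lit 3891861279301) (nat_lit 0) R1_89

noncomputable def R1_91 : Tr := node R1_87 (nat_lit 3891414516805) (nat_lit 0) R1_90

noncomputable def R1_92 : Tr := node R1_84 (nat_lit 3885419762260) (nat_lit 0) R1_91

noncomputable def R1_93 : Tr := node R1_77 (nat_lit 3859717096597) (nat_lit 0) R1_92

noncomputable def R1_94 : Tr := (node (node (node (node (node (node leaf (nat_lit 3891863306833) (nat_lit 0) leaf) (nat_lit 3891865330981) (nat_lit 0) (node leaf (nat_lit 3891869532757) (nat_lit 0) leaf)) (nat_lit 3891869533333) (nat_lit 0) (node (node leaf (nat_lit 3891869553733) (nat_lit 0) leaf) (nat_lit 3891869553925) (nat_lit 0) leaf)) (nat_lit 3891869581909) (nat_lit 0) (node (node (node leaf (nat_lit 3891869583685) (nat_lit 0) leaf) (nat_lit 3891869583697) (nat_lit 0) (node leaf (nat_lit 3891869585509) (nat_lit 0) leaf)) (nat_lit 3891878990917) (nat_lit 0) (node (node leaf (nat_lit 3891878991109) (nat_lit 0) leaf) (nat_lit 3891879020869) (nat_lit 0) leaf))) (nat_lit 3891879020881) (nat_lit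 0) (node (node (node (node leaf (nat_lit 3891879022693) (nat_lit 0) leaf) (nat_lit 3891879035029) (nat_lit 0) (node leaf (nat_lit 3891913901077) (nat_lit 0) leaf)) (nat_lit 3891915921685) (nat_lit 0) (node (node leaf (nat_lit 3891915952213) (nat_lit 0) leaf) (nat_lit 3891916247125) (nat_lit 0) leaf)) (nat_lit 3891916259605) (nat_lit 0) (node (node (node leaf (nat_lit 3891916706197) (nat_lit 0) leaf) (nat_lit 3891916708165) (nat_lit 0) (node leaf (nat_lit 3891916711237) (nat_lit 0) leaf)) (nat_lit 3891916719253) (nat_lit 0) (node (node leaf (nat_lit 3891916719697) (nat_lit 0) leaf) (nat_lit 3891916720453) (nat_lit 0) leaf)))) (nat_lit 3891916726597) (nat_lit 0) (node (node (node (node (node leaf (nat_lit 3891916727365) (nat_lit 0) leaf) (nat_lit 3891916738837) (nat_lit 0) (node leaf (nat_lit 3891916739605) (nat_lit 0) leaf)) (nat_lit 3891916739653) (nat_lit 0) (node (node leaf (nat_lit 3891916767829) (nat_lit 0) leaf) (nat_lit 3891916768405) (nat_lit 0) leaf)) (nat_lit 3891916769605) (nat_lit 0) (node (node (node leaf (nat_lit 3891916769617)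 (nat_lit 0) leaf) (nat_lit 3891916837141) (nat_lit 0) (node leaf (nat_lit 3891916837909) (nat_lit 0) leaf)) (nat_lit 3891917820181) (nat_lit 0) (node (node leaf (nat_lit 3891920180245) (nat_lit 0) leaf) (nat_lit 3891920965717) (nat_lit 0) leaf))) (nat_lit 3891921162325) (nat_lit 0) (node (node (node (node leaf (nat_lit 3891932447317) (nat_lit 0) leaf) (nat_lit 3891932447893) (nat_lit 0) (node leaf (nat_lit 3891932496469) (nat_lit 0) leaf)) (nat_lit 3891945345109) (nat_lit 0) (node (node leaf (nat_lit 3891946131541) (nat_lit 0) leaf) (nat_lit 3892584162628) (nat_lit 0) leaf)) (nat_lit 3892586915140) (nat_lit 0) (node (node (node leaf (nat_lit 3892592026945) (nat_lit 0) leaf) (nat_lit 3892616406337) (nat_lit 0) (node leaf (nat_lit 3892716873025) (nat_lit 0) leaf)) (nat_lit 3892867867969) (nat_lit 0) (node (node leaf (nat_lit 3893426657605) (nat_lit 0) leaf) (nat_lit 3893426669125) (nat_lit 0) leaf)))))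

noncomputable def R1_95 : Tr := (node (node (node (node (node (node leaf (nat_lit 3893426671717) (nat_lit 0) leaf) (nat_lit 3893426672197) (nat_lit 0) (node leaf (nat_lit 3893426675989) (nat_lit 0) leaf)) (nat_lit 3893426676037) (nat_lit 0) (node (node leaf (nat_lit 3893426676805) (nat_lit 0) leaf) (nat_lit 3893426688277) (nat_lit 0) leaf)) (nat_lit 3893426688325) (nat_lit 0) (node (node (node leaf (nat_lit 3893426689093) (nat_lit 0) leaf) (nat_lit 3893426689285) (nat_lit 0) (node leaf (nat_lit 3893426717269) (nat_lit 0) leaf)) (nat_lit 3893426717845) (nat_lit 0) (node (node leaf (nat_lit 3893426719045) (nat_lit 0) leaf) (nat_lit 3893426719057) (nat_lit 0) leaf))) (nat_lit 3893426720869) (nat_lit 0) (node (node (node (node leaf (nat_lit 3893426720917) (nat_lit 0) leaf) (nat_lit 3893426733205) (nat_lit 0) (node leaf (nat_lit 3893426786581) (nat_lit 0) leaf)) (nat_lit 3893426787349) (nat_lit 0) (node (node leaf (nat_lit 3893426799637) (nat_lit 0) leaf) (nat_lit 3893427179797) (nat_lit 0) leaf)) (nat_lit 3893427192085) (nat_lit 0)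 (node (node (node leaf (nat_lit 3893427769621) (nat_lit 0) leaf) (nat_lit 3893427781909) (nat_lit 0) (node leaf (nat_lit 3893430128917) (nat_lit 0) leaf)) (nat_lit 3893430141205) (nat_lit 0) (node (node leaf (nat_lit 3893431111765) (nat_lit 0) leaf) (nat_lit 3893459698261) (nat_lit 0) leaf)))) (nat_lit 3893459698837) (nat_lit 0) (node (node (node (node (node leaf (nat_lit 3893459747413) (nat_lit 0) leaf) (nat_lit 3893464416853) (nat_lit 0) (node leaf (nat_lit 3893464417429) (nat_lit 0) leaf)) (nat_lit 3893464466005) (nat_lit 0) (node (node leaf (nat_lit 3893471766037) (nat_lit 0) leaf) (nat_lit 3893471810197) (nat_lit 0) leaf)) (nat_lit 3893471811973) (nat_lit 0) (node (node (node leaf (nat_lit 3893471814805) (nat_lit 0) leaf) (nat_lit 3893471815189) (nat_lit 0) (node leaf (nat_lit 3893471824165) (nat_lit 0) leaf)) (nat_lit 3893471838805) (nat_lit 0) (node (node leaf (nat_lit 3893471839765) (nat_lit 0) leaf) (nat_lit 3893471842453) (nat_lit 0) leaf))) (nat_lit 3893471887957) (nat_lit 0) (node (node (node (node leaf (nat_lit 3893471888533)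 (nat_lit 0) leaf) (nat_lit 3893471888917) (nat_lit 0) (node leaf (nat_lit 3893471891605) (nat_lit 0) leaf)) (nat_lit 3893472006805) (nat_lit 0) (node (node leaf (nat_lit 3893472011413) (nat_lit 0) leaf) (nat_lit 3893472011653) (nat_lit 0) leaf)) (nat_lit 3893472011797) (nat_lit 0) (node (node (node leaf (nat_lit 3893472018853) (nat_lit 0) leaf) (nat_lit 3893472797989) (nat_lit 0) leaf) (nat_lit 3893524513045) (nat_lit 0) (node (node leaf (nat_lit 3893526534469) (nat_lit 0) leaf) (nat_lit 3893526565141) (nat_lit 0) leaf)))))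

noncomputable def R1_96 : Tr := node R1_94 (nat_lit 3893426669893) (nat_lit 0) R1_95

noncomputable def R1_97 : Tr := (node (node (node (node (node (node leaf (nat_lit 3893526663445) (nat_lit 0) leaf) (nat_lit 3893526664213) (nat_lit 0) (node leaf (nat_lit 3893526860053) (nat_lit 0) leaf)) (nat_lit 3893527320901) (nat_lit 0) (node (node leaf (nat_lit 3893527323925) (nat_lit 0) leaf) (nat_lit 3893527323973) (nat_lit 0) leaf)) (nat_lit 3893527331413) (nat_lit 0) (node (node (node leaf (nat_lit 3893527331989) (nat_lit 0) leaf) (nat_lit 3893527333189) (nat_lit 0) (node leaf (nat_lit 3893527339333) (nat_lit 0) leaf)) (nat_lit 3893527351573) (nat_lit 0) (node (node leaf (nat_lit 3893527382341) (nat_lit 0) leaf) (nat_lit 3893528432725) (nat_lit 0) leaf))) (nat_lit 3893530792021) (nat_lit 0) (node (node (node (node leaf (nat_lit 3893530792213) (nat_lit 0) leaf) (nat_lit 3893531771989) (nat_lit 0) (node leaf (nat_lit 3893543047765) (nat_lit 0) leaf)) (nat_lit 3893543048341) (nat_lit 0) (node (node leaf (nat_lit 3893543060053) (nat_lit 0)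 leaf) (nat_lit 3893555954773) (nat_lit 0) leaf)) (nat_lit 3893556741205) (nat_lit 0) (node (node (node leaf (nat_lit 3893927153941) (nat_lit 0) leaf) (nat_lit 3893928991045) (nat_lit 0) (node leaf (nat_lit 3893929021717) (nat_lit 0) leaf)) (nat_lit 3893929070869) (nat_lit 0) (node (node leaf (nat_lit 3893929071637) (nat_lit 0) leaf) (nat_lit 3893929513045) (nat_lit 0) leaf)))) (nat_lit 3893929972309) (nat_lit 0) (node (node (node (node (node leaf (nat_lit 3893929972885) (nat_lit 0) leaf) (nat_lit 3893929974037) (nat_lit 0) (node leaf (nat_lit 3893929976917) (nat_lit 0) leaf)) (nat_lit 3893929977109) (nat_lit 0) (node (node leaf (nat_lit 3893931082837) (nat_lit 0) leaf) (nat_lit 3893933442133) (nat_lit 0) leaf)) (nat_lit 3893933445205) (nat_lit 0) (node (node (node leaf (nat_lit 3893934424405) (nat_lit 0) leaf) (nat_lit 3893945697877) (nat_lit 0) (node leaf (nat_lit 3893945700949) (nat_lit 0) leaf)) (nat_lit 3893958607189) (nat_lit 0) (node (node leaf (nat_lit 3893959393621) (nat_lit 0) leaf) (nat_lit 3894059221333) (nat_lit 0) leaf)))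 (nat_lit 3894059270485) (nat_lit 0) (node (node (node (node leaf (nat_lit 3986175623317) (nat_lit 0) leaf) (nat_lit 3986427218260) (nat_lit 0) (node leaf (nat_lit 3986439557716) (nat_lit 0) leaf)) (nat_lit 3986439562501) (nat_lit 0) (node (node leaf (nat_lit 3986439562513) (nat_lit 0) leaf) (nat_lit 3986439574789) (nat_lit 0) leaf)) (nat_lit 3986439574801) (nat_lit 0) (node (node (node leaf (nat_lit 3986439603793) (nat_lit 0) leaf) (nat_lit 3986439607333) (nat_lit 0) leaf) (nat_lit 3986439685189) (nat_lit 0) (node (node leaf (nat_lit 3986439688261) (nat_lit 0) leaf) (nat_lit 3986439688453) (nat_lit 0) leaf)))))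

noncomputable def R1_98 : Tr := (node (node (node (node (node (node leaf (nat_lit 3986439801157) (nat_lit 0) leaf) (nat_lit 3986439801169) (nat_lit 0) (node leaf (nat_lit 3986439801172) (nat_lit 0) leaf)) (nat_lit 3986439803029) (nat_lit 0) (node (node leaf (nat_lit 3986439803473) (nat_lit 0) leaf) (nat_lit 3986439808261) (nat_lit 0) leaf)) (nat_lit 3986439815317) (nat_lit 0) (node (node (node leaf (nat_lit 3986439815461) (nat_lit 0) leaf) (nat_lit 3986439864469) (nat_lit 0) (node leaf (nat_lit 3986440081429) (nat_lit 0) leaf)) (nat_lit 3986440081477) (nat_lit 0) (node (node leaf (nat_lit 3986440671253) (nat_lit 0) leaf) (nat_lit 3986440671301) (nat_lit 0) leaf))) (nat_lit 3986443030549) (nat_lit 0) (node (node (node (node leaf (nat_lit 3986443030597) (nat_lit 0) leaf) (nat_lit 3988037830993) (nat_lit 0) (node leaf (nat_lit 3988050170449) (nat_lit 0) leaf)) (nat_lit 3988050175045) (nat_lit 0) (node (node leaf (nat_lit 3988050175237) (nat_lit 0) leaf) (nat_lit 3988050187333) (nat_lit 0) leaf)) (nat_lit 3988050187525) (nat_lit 0)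 (node (node (node leaf (nat_lit 3988050216517) (nat_lit 0) leaf) (nat_lit 3988050217285) (nat_lit 0) (node leaf (nat_lit 3988050217300) (nat_lit 0) leaf)) (nat_lit 3988050219157) (nat_lit 0) (node (node leaf (nat_lit 3988050219301) (nat_lit 0) leaf) (nat_lit 3988050219601) (nat_lit 0) leaf)))) (nat_lit 3988050224389) (nat_lit 0) (node (node (node (node (node leaf (nat_lit 3988050231589) (nat_lit 0) leaf) (nat_lit 3988050297877) (nat_lit 0) (node leaf (nat_lit 3988050300949) (nat_lit 0) leaf)) (nat_lit 3988050300997) (nat_lit 0) (node (node leaf (nat_lit 3988050412645) (nat_lit 0) leaf) (nat_lit 3988050413893) (nat_lit 0) leaf)) (nat_lit 3988050415765) (nat_lit 0) (node (node (node leaf (nat_lit 3988050428053) (nat_lit 0) leaf) (nat_lit 3988050691093) (nat_lit 0) (node leaf (nat_lit 3988050691141) (nat_lit 0) leaf)) (nat_lit 3988051280917) (nat_lit 0) (node (node leaf (nat_lit 3988051280965) (nat_lit 0) leaf) (nat_lit 3988053640213) (nat_lit 0) leaf))) (nat_lit 3988053640261) (nat_lit 0) (node (node (node (node leaf (nat_lit 3988188840085)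 (nat_lit 0) leaf) (nat_lit 3988440484165) (nat_lit 0) (node leaf (nat_lit 3988452820561) (nat_lit 0) leaf)) (nat_lit 3988452821317) (nat_lit 0) (node (node leaf (nat_lit 3988452823633) (nat_lit 0) leaf) (nat_lit 3988452827461) (nat_lit 0) leaf)) (nat_lit 3988452828229) (nat_lit 0) (node (node (node leaf (nat_lit 3988452828421) (nat_lit 0) leaf) (nat_lit 3988452840469) (nat_lit 0) leaf) (nat_lit 3988452840517) (nat_lit 0) (node (node leaf (nat_lit 3988452869269) (nat_lit 0) leaf) (nat_lit 3988452869653) (nat_lit 0) leaf)))))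

noncomputable def R1_99 : Tr := node R1_97 (nat_lit 3986439800101) (nat_lit 0) R1_98

noncomputable def R1_100 : Tr := node R1_96 (nat_lit 3893526565957) (nat_lit 0) R1_99

noncomputable def R1_101 : Tr := (node (node (node (node (node (node leaf (nat_lit 3988452872293) (nat_lit 0) leaf) (nat_lit 3988452872341) (nat_lit 0) (node leaf (nat_lit 3988452884629) (nat_lit 0) leaf)) (nat_lit 3988452938773) (nat_lit 0) (node (node leaf (nat_lit 3988452951061) (nat_lit 0) leaf) (nat_lit 3988452951109) (nat_lit 0) leaf)) (nat_lit 3988453343509) (nat_lit 0) (node (node (node leaf (nat_lit 3988453344277) (nat_lit 0) leaf) (nat_lit 3988453933333) (nat_lit 0) (node leaf (nat_lit 3988453934101) (nat_lit 0) leaf)) (nat_lit 3988456292629) (nat_lit 0) (node (node leaf (nat_lit 3988456293397) (nat_lit 0) leaf) (nat_lit 3988490829973) (nat_lit 0) leaf))) (nat_lit 3988497966469) (nat_lit 0) (node (node (node (node leaf (nat_lit 3988497966613) (nat_lit 0) leaf) (nat_lit 3988497973909) (nat_lit 0) (node leaf (nat_lit 3988497975685) (nat_lit 0) leaf))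 (nat_lit 3988497975892) (nat_lit 0) (node (node leaf (nat_lit 3988497990949) (nat_lit 0) leaf) (nat_lit 3988497991237) (nat_lit 0) leaf)) (nat_lit 3988497991249) (nat_lit 0) (node (node (node leaf (nat_lit 3988497994117) (nat_lit 0) leaf) (nat_lit 3988497994324) (nat_lit 0) (node leaf (nat_lit 3988497994885) (nat_lit 0) leaf)) (nat_lit 3988497995857) (nat_lit 0) (node (node leaf (nat_lit 3988497999124) (nat_lit 0) leaf) (nat_lit 3988498040341) (nat_lit 0) leaf)))) (nat_lit 3988498043029) (nat_lit 0) (node (node (node (node (node leaf (nat_lit 3988498043173) (nat_lit 0) leaf) (nat_lit 3988498043269) (nat_lit 0) (node leaf (nat_lit 3988498043281) (nat_lit 0) leaf)) (nat_lit 3988498043413) (nat_lit 0) (node (node leaf (nat_lit 3988498043461) (nat_lit 0) leaf) (nat_lit 3988498043929) (nat_lit 0) leaf)) (nat_lit 3988498043941) (nat_lit 0) (node (node (node leaf (nat_lit 3988498044001) (nat_lit 0) leaf) (nat_lit 3988498044169) (nat_lit 0) (node leaf (nat_lit 3988498162981) (nat_lit 0) leaf)) (nat_lit 3988498163077) (nat_lit 0) (node (node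 leaf (nat_lit 3988498163221) (nat_lit 0) leaf) (nat_lit 3988498163269) (nat_lit 0) leaf))) (nat_lit 3988498163281) (nat_lit 0) (node (node (node (node leaf (nat_lit 3988498172197) (nat_lit 0) leaf) (nat_lit 3988498172293) (nat_lit 0) (node leaf (nat_lit 3988498172500) (nat_lit 0) leaf)) (nat_lit 3988498187557) (nat_lit 0) (node (node leaf (nat_lit 3988498190629) (nat_lit 0) leaf) (nat_lit 3988498190740) (nat_lit 0) leaf)) (nat_lit 3988498190932) (nat_lit 0) (node (node (node leaf (nat_lit 3988498191397) (nat_lit 0) leaf) (nat_lit 3988498192465) (nat_lit 0) (node leaf (nat_lit 3988498192657) (nat_lit 0) leaf)) (nat_lit 3988498219429) (nat_lit 0) (node (node leaf (nat_lit 3988498432597) (nat_lit 0) leaf) (nat_lit 3988498433173) (nat_lit 0) leaf)))))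

noncomputable def R1_102 : Tr := (node (node (node (node (node (node leaf (nat_lit 3988498436245) (nat_lit 0) leaf) (nat_lit 3988498482469) (nat_lit 0) (node leaf (nat_lit 3988498482709) (nat_lit 0) leaf)) (nat_lit 3988498482757) (nat_lit 0) (node (node leaf (nat_lit 3988498483537) (nat_lit 0) leaf) (nat_lit 3988498485397) (nat_lit 0) leaf)) (nat_lit 3988498485844) (nat_lit 0) (node (node (node leaf (nat_lit 3988498487377) (nat_lit 0) leaf) (nat_lit 3988498490641) (nat_lit 0) (node leaf (nat_lit 3988498497685) (nat_lit 0) leaf)) (nat_lit 3988498497829) (nat_lit 0) (node (node leaf (nat_lit 3988498498132) (nat_lit 0) leaf) (nat_lit 3988498499665) (nat_lit 0) leaf))) (nat_lit 3988498499905) (nat_lit 0) (node (node (node (node leaf (nat_lit 3988498501669) (nat_lit 0) leaf) (nat_lit 3988498506001) (nat_lit 0) (node leaf (nat_lit 3988498515205) (nat_lit 0) leaf)) (nat_lit 3988498515217) (nat_lit 0) (node (node leaf (nat_lit 3988498944661) (nat_lit 0) leaf) (nat_lit 3988498946452) (nat_lit 0) leaf)) (nat_lit 3988498949413) (nat_lit 0)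 (node (node (node leaf (nat_lit 3988498949509) (nat_lit 0) leaf) (nat_lit 3988498958629) (nat_lit 0) (node leaf (nat_lit 3988498977817) (nat_lit 0) leaf)) (nat_lit 3988499005861) (nat_lit 0) (node (node leaf (nat_lit 3988500009109) (nat_lit 0) leaf) (nat_lit 3988500026629) (nat_lit 0) leaf)))) (nat_lit 3988500026641) (nat_lit 0) (node (node (node (node (node leaf (nat_lit 3988500054613) (nat_lit 0) leaf) (nat_lit 3988500055573) (nat_lit 0) (node leaf (nat_lit 3988500056389) (nat_lit 0) leaf)) (nat_lit 3988500056401) (nat_lit 0) (node (node leaf (nat_lit 3988500058261) (nat_lit 0) leaf) (nat_lit 3988500060241) (nat_lit 0) leaf)) (nat_lit 3988500070501) (nat_lit 0) (node (node (node leaf (nat_lit 3988500070993) (nat_lit 0) leaf) (nat_lit 3988502095141) (nat_lit 0) (node leaf (nat_lit 3988506296917) (nat_lit 0) leaf)) (nat_lit 3988506297493) (nat_lit 0) (node (node leaf (nat_lit 3988506317893) (nat_lit 0) leaf) (nat_lit 3988506318085) (nat_lit 0) leaf))) (nat_lit 3988506346069) (nat_lit 0) (node (node (node (node leaf (nat_lit 3988506347845)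 (nat_lit 0) leaf) (nat_lit 3988506347857) (nat_lit 0) (node leaf (nat_lit 3988506349669) (nat_lit 0) leaf)) (nat_lit 3988515755077) (nat_lit 0) (node (node leaf (nat_lit 3988515755269) (nat_lit 0) leaf) (nat_lit 3988515785029) (nat_lit 0) leaf)) (nat_lit 3988515786853) (nat_lit 0) (node (node (node leaf (nat_lit 3988515799189) (nat_lit 0) leaf) (nat_lit 3988518930757) (nat_lit 0) leaf) (nat_lit 3988550665237) (nat_lit 0) (node (node leaf (nat_lit 3988553023765) (nat_lit 0) leaf) (nat_lit 3988553472325) (nat_lit 0) leaf)))))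

noncomputable def R1_103 : Tr := node R1_101 (nat_lit 3988498433557) (nat_lit 0) R1_102

noncomputable def R1_104 : Tr := (node (node (node (node (node (node leaf (nat_lit 3988553483857) (nat_lit 0) leaf) (nat_lit 3988553484613) (nat_lit 0) (node leaf (nat_lit 3988553490709) (nat_lit 0) leaf)) (nat_lit 3988553490757) (nat_lit 0) (node (node leaf (nat_lit 3988553491525) (nat_lit 0) leaf) (nat_lit 3988553502997) (nat_lit 0) leaf)) (nat_lit 3988553503045) (nat_lit 0) (node (node (node leaf (nat_lit 3988553503813) (nat_lit 0) leaf) (nat_lit 3988553531989) (nat_lit 0) (node leaf (nat_lit 3988553532565) (nat_lit 0) leaf)) (nat_lit 3988553533765) (nat_lit 0) (node (node leaf (nat_lit 3988553601301) (nat_lit 0) leaf) (nat_lit 3988553602069) (nat_lit 0) leaf))) (nat_lit 3988554584341) (nat_lit 0) (node (node (node (node leaf (nat_lit 3988556943637) (nat_lit 0) leaf) (nat_lit 3988556944405) (nat_lit 0) (node leaf (nat_lit 3988566116677) (nat_lit 0) leaf)) (nat_lit 3988569211477) (nat_lit 0) (node (node leaf (nat_lit 3988569212053) (nat_lit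 0) leaf) (nat_lit 3988569260629) (nat_lit 0) leaf)) (nat_lit 3988582109269) (nat_lit 0) (node (node (node leaf (nat_lit 3988582109461) (nat_lit 0) leaf) (nat_lit 3994429964437) (nat_lit 0) (node leaf (nat_lit 3994492618321) (nat_lit 0) leaf)) (nat_lit 3994492619077) (nat_lit 0) (node (node leaf (nat_lit 3994492619092) (nat_lit 0) leaf) (nat_lit 3994492625221) (nat_lit 0) leaf)))) (nat_lit 3994492625989) (nat_lit 0) (node (node (node (node (node leaf (nat_lit 3994492626181) (nat_lit 0) leaf) (nat_lit 3994492638229) (nat_lit 0) (node leaf (nat_lit 3994492638277) (nat_lit 0) leaf)) (nat_lit 3994492667029) (nat_lit 0) (node (node leaf (nat_lit 3994492667413) (nat_lit 0) leaf) (nat_lit 3994492668229) (nat_lit 0) leaf)) (nat_lit 3994492670053) (nat_lit 0) (node (node (node leaf (nat_lit 3994492670101) (nat_lit 0) leaf) (nat_lit 3994492670533) (nat_lit 0) (node leaf (nat_lit 3994492682341) (nat_lit 0) leaf)) (nat_lit 3994492748053) (nat_lit 0) (node (node leaf (nat_lit 3994492748821) (nat_lit 0) leaf) (nat_lit 3994492748869) (nat_lit 0)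 leaf))) (nat_lit 3994492866709) (nat_lit 0) (node (node (node (node leaf (nat_lit 3994493129749) (nat_lit 0) leaf) (nat_lit 3994493142037) (nat_lit 0) (node leaf (nat_lit 3994493719573) (nat_lit 0) leaf)) (nat_lit 3994493731861) (nat_lit 0) (node (node leaf (nat_lit 3994496078869) (nat_lit 0) leaf) (nat_lit 3994496091157) (nat_lit 0) leaf)) (nat_lit 3994895271061) (nat_lit 0) (node (node (node leaf (nat_lit 3994895271445) (nat_lit 0) leaf) (nat_lit 3994895271493) (nat_lit 0) leaf) (nat_lit 3994895272213) (nat_lit 0) (node (node leaf (nat_lit 3994895272261) (nat_lit 0) leaf) (nat_lit 3994895274085) (nat_lit 0) leaf)))))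

noncomputable def R1_105 : Tr := (node (node (node (node (node (node leaf (nat_lit 3994895278357) (nat_lit 0) leaf) (nat_lit 3994895278405) (nat_lit 0) (node leaf (nat_lit 3994895279173) (nat_lit 0) leaf)) (nat_lit 3994895290645) (nat_lit 0) (node (node leaf (nat_lit 3994895291413) (nat_lit 0) leaf) (nat_lit 3994895320213) (nat_lit 0) leaf)) (nat_lit 3994895323237) (nat_lit 0) (node (node (node leaf (nat_lit 3994895323285) (nat_lit 0) leaf) (nat_lit 3994895388949) (nat_lit 0) (node leaf (nat_lit 3994895401237) (nat_lit 0) leaf)) (nat_lit 3994895402005) (nat_lit 0) (node (node leaf (nat_lit 3994895782165) (nat_lit 0) leaf) (nat_lit 3994895782933) (nat_lit 0) leaf))) (nat_lit 3994896371989) (nat_lit 0) (node (node (node (node leaf (nat_lit 3994896372757) (nat_lit 0) leaf) (nat_lit 3994898731285) (nat_lit 0) (node leaf (nat_lit 3994898732053) (nat_lit 0) leaf)) (nat_lit 3994933268629) (nat_lit 0) (node (node leaf (nat_lit 3994940368405) (nat_lit 0) leaf) (nat_lit 3994940412565) (nat_lit 0) leaf)) (nat_lit 3994940417173) (nat_lit 0)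 (node (node (node leaf (nat_lit 3994940417557) (nat_lit 0) leaf) (nat_lit 3994940417617) (nat_lit 0) (node leaf (nat_lit 3994940426629) (nat_lit 0) leaf)) (nat_lit 3994940441893) (nat_lit 0) (node (node leaf (nat_lit 3994940441989) (nat_lit 0) leaf) (nat_lit 3994940442133) (nat_lit 0) leaf)))) (nat_lit 3994940442181) (nat_lit 0) (node (node (node (node (node leaf (nat_lit 3994940445061) (nat_lit 0) leaf) (nat_lit 3994940445076) (nat_lit 0) (node leaf (nat_lit 3994940445268) (nat_lit 0) leaf)) (nat_lit 3994940445733) (nat_lit 0) (node (node leaf (nat_lit 3994940446801) (nat_lit 0) leaf) (nat_lit 3994940446993) (nat_lit 0) leaf)) (nat_lit 3994940450065) (nat_lit 0) (node (node (node leaf (nat_lit 3994940490325) (nat_lit 0) leaf) (nat_lit 3994940490901) (nat_lit 0) (node leaf (nat_lit 3994940491285) (nat_lit 0) leaf)) (nat_lit 3994940493973) (nat_lit 0) (node (node leaf (nat_lit 3994940494213) (nat_lit 0) leaf) (nat_lit 3994940494357) (nat_lit 0) leaf))) (nat_lit 3994940494885) (nat_lit 0) (node (node (node (node leaf (nat_lit 3994940609173)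 (nat_lit 0) leaf) (nat_lit 3994940610964) (nat_lit 0) (node leaf (nat_lit 3994940611156) (nat_lit 0) leaf)) (nat_lit 3994940613781) (nat_lit 0) (node (node leaf (nat_lit 3994940613925) (nat_lit 0) leaf) (nat_lit 3994940614021) (nat_lit 0) leaf)) (nat_lit 3994940614165) (nat_lit 0) (node (node (node leaf (nat_lit 3994940623141) (nat_lit 0) leaf) (nat_lit 3994940638501) (nat_lit 0) leaf) (nat_lit 3994940642329) (nat_lit 0) (node (node leaf (nat_lit 3994940670373) (nat_lit 0) leaf) (nat_lit 3994940871253) (nat_lit 0) leaf)))))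

noncomputable def R1_106 : Tr := node R1_104 (nat_lit 3994895274565) (nat_lit 0) R1_105

noncomputable def R1_107 : Tr := node R1_103 (nat_lit 3988553483413) (nat_lit 0) R1_106

noncomputable def R1_108 : Tr := node R1_100 (nat_lit 3988452870469) (nat_lit 0) R1_107

noncomputable def R1_109 : Tr := (node (node (node (node (node (node leaf (nat_lit 3994940883541) (nat_lit 0) leaf) (nat_lit 3994940932693) (nat_lit 0) (node leaf (nat_lit 3994940933269) (nat_lit 0) leaf)) (nat_lit 3994940933653) (nat_lit 0) (node (node leaf (nat_lit 3994940934481) (nat_lit 0) leaf) (nat_lit 3994940936341) (nat_lit 0) leaf)) (nat_lit 3994940936785) (nat_lit 0) (node (node (node leaf (nat_lit 3994940938321) (nat_lit 0) leaf) (nat_lit 3994940941573) (nat_lit 0) (node leaf (nat_lit 3994940941585) (nat_lit 0) leaf)) (nat_lit 3994940949073) (nat_lit 0) (node (node leaf (nat_lit 3994940949541) (nat_lit 0) leaf) (nat_lit 3994940965957) (nat_lit 0) leaf))) (nat_lit 3994940966149) (nat_lit 0) (node (node (node (node leaf (nat_lit 3994941400357) (nat_lit 0) leaf)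 (nat_lit 3994942456405) (nat_lit 0) (node leaf (nat_lit 3994942456981) (nat_lit 0) leaf)) (nat_lit 3994942458193) (nat_lit 0) (node (node leaf (nat_lit 3994942477381) (nat_lit 0) leaf) (nat_lit 3994942477573) (nat_lit 0) leaf)) (nat_lit 3994942505557) (nat_lit 0) (node (node (node leaf (nat_lit 3994942507345) (nat_lit 0) leaf) (nat_lit 3994948735573) (nat_lit 0) (node leaf (nat_lit 3994948736149) (nat_lit 0) leaf)) (nat_lit 3994948747861) (nat_lit 0) (node (node leaf (nat_lit 3994948749637) (nat_lit 0) leaf) (nat_lit 3994948768069) (nat_lit 0) leaf)))) (nat_lit 3994948768837) (nat_lit 0) (node (node (node (node (node leaf (nat_lit 3994948798789) (nat_lit 0) leaf) (nat_lit 3994958186821) (nat_lit 0) (node leaf (nat_lit 3994958205253) (nat_lit 0) leaf)) (nat_lit 3994958206021) (nat_lit 0) (node (node leaf (nat_lit 3994958235973) (nat_lit 0) leaf) (nat_lit 3994958237845) (nat_lit 0) leaf)) (nat_lit 3994993103893) (nat_lit 0) (node (node (node leaf (nat_lit 3994995167509) (nat_lit 0) leaf) (nat_lit 3994995462421) (nat_lit 0) (node leaf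 (nat_lit 3994995922069) (nat_lit 0) leaf)) (nat_lit 3994995923221) (nat_lit 0) (node (node leaf (nat_lit 3994995923269) (nat_lit 0) leaf) (nat_lit 3994995926293) (nat_lit 0) leaf))) (nat_lit 3994995926341) (nat_lit 0) (node (node (node (node leaf (nat_lit 3994995933781) (nat_lit 0) leaf) (nat_lit 3994995934357) (nat_lit 0) (node leaf (nat_lit 3994995935557) (nat_lit 0) leaf)) (nat_lit 3994995941701) (nat_lit 0) (node (node leaf (nat_lit 3994995953941) (nat_lit 0) leaf) (nat_lit 3994995953989) (nat_lit 0) leaf)) (nat_lit 3994995984709) (nat_lit 0) (node (node (node leaf (nat_lit 3994996052053) (nat_lit 0) leaf) (nat_lit 3994996052245) (nat_lit 0) (node leaf (nat_lit 3994997035093) (nat_lit 0) leaf)) (nat_lit 3994999394389) (nat_lit 0) (node (node leaf (nat_lit 3994999394581) (nat_lit 0) leaf) (nat_lit 3995011650133) (nat_lit 0) leaf)))))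

noncomputable def R1_110 : Tr := (node (node (node (node (node (node leaf (nat_lit 3995011662421) (nat_lit 0) leaf) (nat_lit 3995024511061) (nat_lit 0) (node leaf (nat_lit 3995024560213) (nat_lit 0) leaf)) (nat_lit 3995663377729) (nat_lit 0) (node (node leaf (nat_lit 3995666130241) (nat_lit 0) leaf) (nat_lit 3995671242001) (nat_lit 0) leaf)) (nat_lit 3995695621393) (nat_lit 0) (node (node (node leaf (nat_lit 3995796088081) (nat_lit 0) leaf) (nat_lit 3995947083025) (nat_lit 0) (node leaf (nat_lit 3996505875781) (nat_lit 0) leaf)) (nat_lit 3996505883221) (nat_lit 0) (node (node leaf (nat_lit 3996505883797) (nat_lit 0) leaf) (nat_lit 3996505884181) (nat_lit 0) leaf))) (nat_lit 3996505884949) (nat_lit 0) (node (node (node (node leaf (nat_lit 3996505884997) (nat_lit 0) leaf) (nat_lit 3996505887253) (nat_lit 0) (node leaf (nat_lit 3996505890901) (nat_lit 0) leaf)) (nat_lit 3996505891141) (nat_lit 0) (node (node leaf (nat_lit 3996505900309) (nat_lit 0) leaf) (nat_lit 3996505903381) (nat_lit 0) leaf)) (nat_lit 3996505903429) (nat_lit 0)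 (node (node (node leaf (nat_lit 3996505904197) (nat_lit 0) leaf) (nat_lit 3996505932949) (nat_lit 0) (node leaf (nat_lit 3996505934149) (nat_lit 0) leaf)) (nat_lit 3996505936021) (nat_lit 0) (node (node leaf (nat_lit 3996506001493) (nat_lit 0) leaf) (nat_lit 3996506001685) (nat_lit 0) leaf)))) (nat_lit 3996506013973) (nat_lit 0) (node (node (node (node (node leaf (nat_lit 3996506391829) (nat_lit 0) leaf) (nat_lit 3996506394709) (nat_lit 0) (node leaf (nat_lit 3996506394901) (nat_lit 0) leaf)) (nat_lit 3996506984533) (nat_lit 0) (node (node leaf (nat_lit 3996506984725) (nat_lit 0) leaf) (nat_lit 3996509343829) (nat_lit 0) leaf)) (nat_lit 3996509344021) (nat_lit 0) (node (node (node leaf (nat_lit 3996538520725) (nat_lit 0) leaf) (nat_lit 3996538901077) (nat_lit 0) (node leaf (nat_lit 3996538901653) (nat_lit 0) leaf)) (nat_lit 3996538913365) (nat_lit 0) (node (node leaf (nat_lit 3996543619669) (nat_lit 0) leaf) (nat_lit 3996543620245) (nat_lit 0) leaf))) (nat_lit 3996543631957) (nat_lit 0) (node (node (node (node leaf (nat_lit 3996550976149)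 (nat_lit 0) leaf) (nat_lit 3996550980757) (nat_lit 0) (node leaf (nat_lit 3996550981141) (nat_lit 0) leaf)) (nat_lit 3996551029909) (nat_lit 0) (node (node leaf (nat_lit 3996551030149) (nat_lit 0) leaf) (nat_lit 3996551030293) (nat_lit 0) leaf)) (nat_lit 3996551053909) (nat_lit 0) (node (node (node leaf (nat_lit 3996551090773) (nat_lit 0) leaf) (nat_lit 3996551103061) (nat_lit 0) leaf) (nat_lit 3996551218837) (nat_lit 0) (node (node leaf (nat_lit 3996551226661) (nat_lit 0) leaf) (nat_lit 3996603715861) (nat_lit 0) leaf)))))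

noncomputable def R1_111 : Tr := node R1_109 (nat_lit 3995011650709) (nat_lit 0) R1_110

noncomputable def R1_112 : Tr := (node (node (node (node (node (node leaf (nat_lit 3996605780293) (nat_lit 0) leaf) (nat_lit 3996605878357) (nat_lit 0) (node leaf (nat_lit 3996605878549) (nat_lit 0) leaf)) (nat_lit 3996606072085) (nat_lit 0) (node (node leaf (nat_lit 3996606534229) (nat_lit 0) leaf) (nat_lit 3996606534805) (nat_lit 0) leaf)) (nat_lit 3996606535957) (nat_lit 0) (node (node (node leaf (nat_lit 3996606536005) (nat_lit 0) leaf) (nat_lit 3996606538837) (nat_lit 0) (node leaf (nat_lit 3996606539029) (nat_lit 0) leaf)) (nat_lit 3996606548293) (nat_lit 0) (node (node leaf (nat_lit 3996606554389) (nat_lit 0) leaf) (nat_lit 3996606566485) (nat_lit 0) leaf))) (nat_lit 3996607644757) (nat_lit 0) (node (node (node (node leaf (nat_lit 3996610004053) (nat_lit 0) leaf) (nat_lit 3996610007125) (nat_lit 0) (node leaf (nat_lit 3996619129429) (nat_lit 0) leaf)) (nat_lit 3996622259797) (nat_lit 0) (node (node leaf (nat_lit 3996622262677) (nat_lit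 0) leaf) (nat_lit 3996635120725) (nat_lit 0) leaf)) (nat_lit 3996635169877) (nat_lit 0) (node (node (node leaf (nat_lit 3997006368853) (nat_lit 0) leaf) (nat_lit 3997008233749) (nat_lit 0) (node leaf (nat_lit 3997008285781) (nat_lit 0) leaf)) (nat_lit 3997008285973) (nat_lit 0) (node (node leaf (nat_lit 3997008400981) (nat_lit 0) leaf) (nat_lit 3997008405589) (nat_lit 0) leaf)))) (nat_lit 3997008405781) (nat_lit 0) (node (node (node (node (node leaf (nat_lit 3997008725077) (nat_lit 0) leaf) (nat_lit 3997009188949) (nat_lit 0) (node leaf (nat_lit 3997010297173) (nat_lit 0) leaf)) (nat_lit 3997012656469) (nat_lit 0) (node (node leaf (nat_lit 3997012657237) (nat_lit 0) leaf) (nat_lit 3997021767253) (nat_lit 0) leaf)) (nat_lit 3997021770325) (nat_lit 0) (node (node (node leaf (nat_lit 3997037773141) (nat_lit 0) leaf) (nat_lit 3997037822293) (nat_lit 0) (node leaf (nat_lit 3997138424149) (nat_lit 0) leaf)) (nat_lit 3997138436437) (nat_lit 0) (node (node leaf (nat_lit 4020199755925) (nat_lit 0) leaf) (nat_lit 4020262410565) (nat_lit 0)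 leaf))) (nat_lit 4020262421653) (nat_lit 0) (node (node (node (node leaf (nat_lit 4020262422085) (nat_lit 0) leaf) (nat_lit 4020262422853) (nat_lit 0) (node leaf (nat_lit 4020262422865) (nat_lit 0) leaf)) (nat_lit 4020262424677) (nat_lit 0) (node (node leaf (nat_lit 4020262424725) (nat_lit 0) leaf) (nat_lit 4020262425157) (nat_lit 0) leaf)) (nat_lit 4020262428949) (nat_lit 0) (node (node (node leaf (nat_lit 4020262428997) (nat_lit 0) leaf) (nat_lit 4020262429765) (nat_lit 0) leaf) (nat_lit 4020262441237) (nat_lit 0) (node (node leaf (nat_lit 4020262442005) (nat_lit 0) leaf) (nat_lit 4020262470229) (nat_lit 0) leaf)))))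

noncomputable def R1_113 : Tr := (node (node (node (node (node (node leaf (nat_lit 4020262551637) (nat_lit 0) leaf) (nat_lit 4020262551829) (nat_lit 0) (node leaf (nat_lit 4020262552597) (nat_lit 0) leaf)) (nat_lit 4020262667413) (nat_lit 0) (node (node leaf (nat_lit 4020262932757) (nat_lit 0) leaf) (nat_lit 4020262945045) (nat_lit 0) leaf)) (nat_lit 4020263522581) (nat_lit 0) (node (node (node leaf (nat_lit 4020263534869) (nat_lit 0) leaf) (nat_lit 4020265881877) (nat_lit 0) (node leaf (nat_lit 4020265894165) (nat_lit 0) leaf)) (nat_lit 4020665062549) (nat_lit 0) (node (node leaf (nat_lit 4020665063701) (nat_lit 0) leaf) (nat_lit 4020665066821) (nat_lit 0) leaf))) (nat_lit 4020665074261) (nat_lit 0) (node (node (node (node leaf (nat_lit 4020665074837) (nat_lit 0) leaf) (nat_lit 4020665075221) (nat_lit 0) (node leaf (nat_lit 4020665075269) (nat_lit 0) leaf)) (nat_lit 4020665075989) (nat_lit 0) (node (node leaf (nat_lit 4020665077861) (nat_lit 0) leaf) (nat_lit 4020665081941) (nat_lit 0) leaf)) (nat_lit 4020665082181) (nat_lit 0)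 (node (node (node leaf (nat_lit 4020665094229) (nat_lit 0) leaf) (nat_lit 4020665094421) (nat_lit 0) (node leaf (nat_lit 4020665123989) (nat_lit 0) leaf)) (nat_lit 4020665192533) (nat_lit 0) (node (node leaf (nat_lit 4020665192725) (nat_lit 0) leaf) (nat_lit 4020665193493) (nat_lit 0) leaf)))) (nat_lit 4020665582869) (nat_lit 0) (node (node (node (node (node leaf (nat_lit 4020665585749) (nat_lit 0) leaf) (nat_lit 4020665585941) (nat_lit 0) (node leaf (nat_lit 4020666172693) (nat_lit 0) leaf)) (nat_lit 4020666175765) (nat_lit 0) (node (node leaf (nat_lit 4020668531989) (nat_lit 0) leaf) (nat_lit 4020668535061) (nat_lit 0) leaf)) (nat_lit 4020703069333) (nat_lit 0) (node (node (node leaf (nat_lit 4020710171797) (nat_lit 0) leaf) (nat_lit 4020710172181) (nat_lit 0) (node leaf (nat_lit 4020710213269) (nat_lit 0) leaf)) (nat_lit 4020710218117) (nat_lit 0) (node (node leaf (nat_lit 4020710218132) (nat_lit 0) leaf) (nat_lit 4020710218324) (nat_lit 0) leaf))) (nat_lit 4020710220949) (nat_lit 0) (node (node (node (node leaf (nat_lit 4020710221093)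 (nat_lit 0) leaf) (nat_lit 4020710221189) (nat_lit 0) (node leaf (nat_lit 4020710221333) (nat_lit 0) leaf)) (nat_lit 4020710221381) (nat_lit 0) (node (node leaf (nat_lit 4020710230309) (nat_lit 0) leaf) (nat_lit 4020710244949) (nat_lit 0) leaf)) (nat_lit 4020710245909) (nat_lit 0) (node (node (node leaf (nat_lit 4020710248597) (nat_lit 0) leaf) (nat_lit 4020710248849) (nat_lit 0) leaf) (nat_lit 4020710249041) (nat_lit 0) (node (node leaf (nat_lit 4020710249497) (nat_lit 0) leaf) (nat_lit 4020710250565) (nat_lit 0) leaf)))))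

noncomputable def R1_114 : Tr := node R1_112 (nat_lit 4020262473829) (nat_lit 0) R1_113

noncomputable def R1_115 : Tr := node R1_111 (nat_lit 3996605777173) (nat_lit 0) R1_114

noncomputable def R1_116 : Tr := (node (node (node (node (node (node leaf (nat_lit 4020710253649) (nat_lit 0) leaf) (nat_lit 4020710253841) (nat_lit 0) (node leaf (nat_lit 4020710281813) (nat_lit 0) leaf)) (nat_lit 4020710293909) (nat_lit 0) (node (node leaf (nat_lit 4020710294101) (nat_lit 0) leaf) (nat_lit 4020710295061) (nat_lit 0) leaf)) (nat_lit 4020710297749) (nat_lit 0) (node (node (node leaf (nat_lit 4020710409877) (nat_lit 0) leaf) (nat_lit 4020710417701) (nat_lit 0) (node leaf (nat_lit 4020710424997) (nat_lit 0) leaf)) (nat_lit 4020710671957) (nat_lit 0) (node (node leaf (nat_lit 4020710674837) (nat_lit 0) leaf) (nat_lit 4020710675029) (nat_lit 0) leaf))) (nat_lit 4020710687317) (nat_lit 0) (node (node (node (node leaf (nat_lit 4020710687893) (nat_lit 0) leaf) (nat_lit 4020710736469) (nat_lit 0) (node leaf (nat_lit 4020710737489) (nat_lit 0) leaf))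 (nat_lit 4020710738245) (nat_lit 0) (node (node leaf (nat_lit 4020710742085) (nat_lit 0) leaf) (nat_lit 4020710745157) (nat_lit 0) leaf)) (nat_lit 4020710745349) (nat_lit 0) (node (node (node leaf (nat_lit 4020710752549) (nat_lit 0) leaf) (nat_lit 4020710752837) (nat_lit 0) (node leaf (nat_lit 4020710769685) (nat_lit 0) leaf)) (nat_lit 4020710769733) (nat_lit 0) (node (node leaf (nat_lit 4020712247893) (nat_lit 0) leaf) (nat_lit 4020712259989) (nat_lit 0) leaf)))) (nat_lit 4020712260181) (nat_lit 0) (node (node (node (node (node leaf (nat_lit 4020712261957) (nat_lit 0) leaf) (nat_lit 4020712281109) (nat_lit 0) (node leaf (nat_lit 4020712281157) (nat_lit 0) leaf)) (nat_lit 4020712311109) (nat_lit 0) (node (node leaf (nat_lit 4020718536277) (nat_lit 0) leaf) (nat_lit 4020718539157) (nat_lit 0) leaf)) (nat_lit 4020718539349) (nat_lit 0) (node (node (node leaf (nat_lit 4020718541125) (nat_lit 0) leaf) (nat_lit 4020718553413) (nat_lit 0) (node leaf (nat_lit 4020718571797) (nat_lit 0) leaf)) (nat_lit 4020718572565) (nat_lit 0) (node (node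 leaf (nat_lit 4020727978309) (nat_lit 0) leaf) (nat_lit 4020727990597) (nat_lit 0) leaf))) (nat_lit 4020728008981) (nat_lit 0) (node (node (node (node leaf (nat_lit 4020728009749) (nat_lit 0) leaf) (nat_lit 4020728038549) (nat_lit 0) (node leaf (nat_lit 4020762906901) (nat_lit 0) leaf)) (nat_lit 4020764940565) (nat_lit 0) (node (node leaf (nat_lit 4020764971093) (nat_lit 0) leaf) (nat_lit 4020765069397) (nat_lit 0) leaf)) (nat_lit 4020765266005) (nat_lit 0) (node (node (node leaf (nat_lit 4020765725077) (nat_lit 0) leaf) (nat_lit 4020765725269) (nat_lit 0) (node leaf (nat_lit 4020765725845) (nat_lit 0) leaf)) (nat_lit 4020765726997) (nat_lit 0) (node (node leaf (nat_lit 4020765727045) (nat_lit 0) leaf) (nat_lit 4020765729877) (nat_lit 0) leaf)))))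

noncomputable def R1_117 : Tr := (node (node (node (node (node (node leaf (nat_lit 4020765730117) (nat_lit 0) leaf) (nat_lit 4020765757525) (nat_lit 0) (node leaf (nat_lit 4020765757717) (nat_lit 0) leaf)) (nat_lit 4020765855829) (nat_lit 0) (node (node leaf (nat_lit 4020766835797) (nat_lit 0) leaf) (nat_lit 4020769195093) (nat_lit 0) leaf)) (nat_lit 4020769198165) (nat_lit 0) (node (node (node leaf (nat_lit 4020781450837) (nat_lit 0) leaf) (nat_lit 4020781453717) (nat_lit 0) (node leaf (nat_lit 4020781453909) (nat_lit 0) leaf)) (nat_lit 4020794311765) (nat_lit 0) (node (node leaf (nat_lit 4020794314837) (nat_lit 0) leaf) (nat_lit 4022275674709) (nat_lit 0) leaf))) (nat_lit 4022275676485) (nat_lit 0) (node (node (node (node leaf (nat_lit 4022275679317) (nat_lit 0) leaf) (nat_lit 4022275679509) (nat_lit 0) (node leaf (nat_lit 4022275686997) (nat_lit 0) leaf)) (nat_lit 4022275687573) (nat_lit 0) (node (node leaf (nat_lit 4022275687957) (nat_lit 0) leaf) (nat_lit 4022275688533) (nat_lit 0) leaf)) (nat_lit 4022275688773) (nat_lit 0)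 (node (node (node leaf (nat_lit 4022275694869) (nat_lit 0) leaf) (nat_lit 4022275703893) (nat_lit 0) (node leaf (nat_lit 4022275706965) (nat_lit 0) leaf)) (nat_lit 4022275707157) (nat_lit 0) (node (node leaf (nat_lit 4022275707925) (nat_lit 0) leaf) (nat_lit 4022275736725) (nat_lit 0) leaf)))) (nat_lit 4022275802197) (nat_lit 0) (node (node (node (node (node leaf (nat_lit 4022275805269) (nat_lit 0) leaf) (nat_lit 4022275805461) (nat_lit 0) (node leaf (nat_lit 4022276195413) (nat_lit 0) leaf)) (nat_lit 4022276198485) (nat_lit 0) (node (node leaf (nat_lit 4022276785237) (nat_lit 0) leaf) (nat_lit 4022276788309) (nat_lit 0) leaf)) (nat_lit 4022279144533) (nat_lit 0) (node (node (node leaf (nat_lit 4022279147605) (nat_lit 0) leaf) (nat_lit 4022308201621) (nat_lit 0) (node leaf (nat_lit 4022308202005) (nat_lit 0) leaf)) (nat_lit 4022308251013) (nat_lit 0) (node (node leaf (nat_lit 4022308251157) (nat_lit 0) leaf) (nat_lit 4022308274773) (nat_lit 0) leaf))) (nat_lit 4022308311637) (nat_lit 0) (node (node (node (node leaf (nat_lit 4022308323733)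 (nat_lit 0) leaf) (nat_lit 4022308323925) (nat_lit 0) (node leaf (nat_lit 4022308701781) (nat_lit 0) leaf)) (nat_lit 4022308704661) (nat_lit 0) (node (node leaf (nat_lit 4022308704853) (nat_lit 0) leaf) (nat_lit 4022313420373) (nat_lit 0) leaf)) (nat_lit 4022313423253) (nat_lit 0) (node (node (node leaf (nat_lit 4022313423445) (nat_lit 0) leaf) (nat_lit 4022320776853) (nat_lit 0) leaf) (nat_lit 4022320784533) (nat_lit 0) (node (node leaf (nat_lit 4022320826005) (nat_lit 0) leaf) (nat_lit 4022320833829) (nat_lit 0) leaf)))))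

noncomputable def R1_118 : Tr := node R1_116 (nat_lit 4020765730069) (nat_lit 0) R1_117

noncomputable def R1_119 : Tr := (node (node (node (node (node (node leaf (nat_lit 4022375553349) (nat_lit 0) leaf) (nat_lit 4022375556181) (nat_lit 0) (node leaf (nat_lit 4022375556373) (nat_lit 0) leaf)) (nat_lit 4022375580757) (nat_lit 0) (node (node leaf (nat_lit 4022375584021) (nat_lit 0) leaf) (nat_lit 4022375679061) (nat_lit 0) leaf)) (nat_lit 4022375682133) (nat_lit 0) (node (node (node leaf (nat_lit 4022375875669) (nat_lit 0) leaf) (nat_lit 4022376334933) (nat_lit 0) (node leaf (nat_lit 4022376339541) (nat_lit 0) leaf)) (nat_lit 4022376342805) (nat_lit 0) (node (node leaf (nat_lit 4022376367189) (nat_lit 0) leaf) (nat_lit 4022377447765) (nat_lit 0) leaf))) (nat_lit 4022379807061) (nat_lit 0) (node (node (node (node leaf (nat_lit 4022379807829) (nat_lit 0) leaf) (nat_lit 4022388917845) (nat_lit 0) (node leaf (nat_lit 4022388920725) (nat_lit 0) leaf)) (nat_lit 4022388920917) (nat_lit 0) (node (node leaf (nat_lit 4022404923733) (nat_lit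 0) leaf) (nat_lit 4022404924501) (nat_lit 0) leaf)) (nat_lit 4022776169557) (nat_lit 0) (node (node (node leaf (nat_lit 4022778012757) (nat_lit 0) leaf) (nat_lit 4022778086485) (nat_lit 0) (node leaf (nat_lit 4022778089557) (nat_lit 0) leaf)) (nat_lit 4022778201685) (nat_lit 0) (node (node leaf (nat_lit 4022778209365) (nat_lit 0) leaf) (nat_lit 4022778479701) (nat_lit 0) leaf)))) (nat_lit 4022778988117) (nat_lit 0) (node (node (node (node (node leaf (nat_lit 4022778988885) (nat_lit 0) leaf) (nat_lit 4022780051797) (nat_lit 0) (node leaf (nat_lit 4022782411093) (nat_lit 0) leaf)) (nat_lit 4022782411861) (nat_lit 0) (node (node leaf (nat_lit 4022807380309) (nat_lit 0) leaf) (nat_lit 4022807576917) (nat_lit 0) leaf)) (nat_lit 4022908031317) (nat_lit 0) (node (node (node leaf (nat_lit 4022908227925) (nat_lit 0) leaf) (nat_lit 4028718125653) (nat_lit 0) (node leaf (nat_lit 4028718126229) (nat_lit 0) leaf)) (nat_lit 4028718127189) (nat_lit 0) (node (node leaf (nat_lit 4028718127381) (nat_lit 0) leaf) (nat_lit 4028718127429) (nat_lit 0)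 leaf))) (nat_lit 4028718129493) (nat_lit 0) (node (node (node (node leaf (nat_lit 4028718130261) (nat_lit 0) leaf) (nat_lit 4028718130453) (nat_lit 0) (node leaf (nat_lit 4028718137941) (nat_lit 0) leaf)) (nat_lit 4028718154069) (nat_lit 0) (node (node leaf (nat_lit 4028718154837) (nat_lit 0) leaf) (nat_lit 4028718157909) (nat_lit 0) leaf)) (nat_lit 4028718158101) (nat_lit 0) (node (node (node leaf (nat_lit 4028718252373) (nat_lit 0) leaf) (nat_lit 4028718253141) (nat_lit 0) leaf) (nat_lit 4028718253333) (nat_lit 0) (node (node leaf (nat_lit 4028718645589) (nat_lit 0) leaf) (nat_lit 4028718646357) (nat_lit 0) leaf)))))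

noncomputable def R1_120 : Tr := (node (node (node (node (node (node leaf (nat_lit 4028719236181) (nat_lit 0) leaf) (nat_lit 4028721594709) (nat_lit 0) (node leaf (nat_lit 4028721595477) (nat_lit 0) leaf)) (nat_lit 4028815967317) (nat_lit 0) (node (node leaf (nat_lit 4028818004245) (nat_lit 0) leaf) (nat_lit 4028818006357) (nat_lit 0) leaf)) (nat_lit 4028818007125) (nat_lit 0) (node (node (node leaf (nat_lit 4028818007317) (nat_lit 0) leaf) (nat_lit 4028818030933) (nat_lit 0) (node leaf (nat_lit 4028818031701) (nat_lit 0) leaf)) (nat_lit 4028818034773) (nat_lit 0) (node (node leaf (nat_lit 4028818129237) (nat_lit 0) leaf) (nat_lit 4028818130005) (nat_lit 0) leaf))) (nat_lit 4028818325845) (nat_lit 0) (node (node (node (node leaf (nat_lit 4028818785877) (nat_lit 0) leaf) (nat_lit 4028818786645) (nat_lit 0) (node leaf (nat_lit 4028818788757) (nat_lit 0) leaf)) (nat_lit 4028819849557) (nat_lit 0) (node (node leaf (nat_lit 4028822208853) (nat_lit 0) leaf) (nat_lit 4028822209621) (nat_lit 0) leaf)) (nat_lit 4028847362389) (nat_lit 0)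 (node (node (node leaf (nat_lit 4028847363157) (nat_lit 0) leaf) (nat_lit 4029218619733) (nat_lit 0) (node leaf (nat_lit 4029220462933) (nat_lit 0) leaf)) (nat_lit 4029220463701) (nat_lit 0) (node (node leaf (nat_lit 4029220536661) (nat_lit 0) leaf) (nat_lit 4029220537429) (nat_lit 0) leaf)))) (nat_lit 4029220652629) (nat_lit 0) (node (node (node (node (node leaf (nat_lit 4029220653397) (nat_lit 0) leaf) (nat_lit 4029220929877) (nat_lit 0) (node leaf (nat_lit 4029222490453) (nat_lit 0) leaf)) (nat_lit 4029224849749) (nat_lit 0) (node (node leaf (nat_lit 4029224862037) (nat_lit 0) leaf) (nat_lit 4029249818965) (nat_lit 0) leaf)) (nat_lit 4029250015573) (nat_lit 0) (node (node (node leaf (nat_lit 4029350479189) (nat_lit 0) leaf) (nat_lit 4029350675797) (nat_lit 0) (node leaf (nat_lit 4030828003669) (nat_lit 0) leaf)) (nat_lit 4030829183317) (nat_lit 0) (node (node leaf (nat_lit 4030831026517) (nat_lit 0) leaf) (nat_lit 4030831027285) (nat_lit 0) leaf))) (nat_lit 4030831068757) (nat_lit 0) (node (node (node (node leaf (nat_lit 4030831069525)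 (nat_lit 0) leaf) (nat_lit 4030831149397) (nat_lit 0) (node leaf (nat_lit 4030831530325) (nat_lit 0) leaf)) (nat_lit 4030833100117) (nat_lit 0) (node (node leaf (nat_lit 4030835459413) (nat_lit 0) leaf) (nat_lit 4030835462485) (nat_lit 0) leaf)) (nat_lit 4030860428629) (nat_lit 0) (node (node (node leaf (nat_lit 4030860625237) (nat_lit 0) leaf) (nat_lit 4030961042773) (nat_lit 0) leaf) (nat_lit 4030961091925) (nat_lit 0) (node (node leaf (nat_lit 4031363683669) (nat_lit 0) leaf) (nat_lit 4031363695957) (nat_lit 0) leaf)))))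

noncomputable def R1_121 : Tr := node R1_119 (nat_lit 4028719235413) (nat_lit 0) R1_120

noncomputable def R1_122 : Tr := node R1_118 (nat_lit 4022373519445) (nat_lit 0) R1_121

noncomputable def R1_123 : Tr := node R1_115 (nat_lit 4020710250757) (nat_lit 0) R1_122

noncomputable def R1_124 : Tr := node R1_108 (nat_lit 3994940871829) (nat_lit 0) R1_123

noncomputable def R1_125 : Tr := node R1_93 (nat_lit 3891863306341) (nat_lit 0) R1_124

noncomputable def R1_126 : Tr := node R1_62 (nat_lit 3481157046421) (nat_lit 0) R1_125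

/-- data -/
noncomputable def R1 : Tr := R1_126

noncomputable def L0_0 : Tr := (node (node (node (node (node (node leaf (nat_lit 3305691679060) (nat_lit 32) leaf) (nat_lit 3305691682900) (nat_lit 12) leaf) (nat_lit 3305691693652) (nat_lit 32) (node (node leaf (nat_lit 3305691695188) (nat_lit 14) leaf) (nat_lit 3305691742357) (nat_lit 32) leaf)) (nat_lit 3305691742804) (nat_lit 32) (node (node (node leaf (nat_lit 3305691743497) (nat_lit 10) leaf) (nat_lit 3305691758689) (nat_lit 32) leaf) (nat_lit 3305691758857) (nat_lit 32) (node (node leaf (nat_lit 3308912971924) (nat_lit 12) leaf) (nat_lit 3309969885520) (nat_lit 14) leaf))) (nat_lit 3309969932884) (nat_lit 7) (node (node (node (node leaf (nat_lit 3309969933460) (nat_lit 10) leaf) (nat_lit 3309969934672) (nat_lit 9) leaf) (nat_lit 3309969936421) (nat_lit 12) (node (node leaf (nat_lit 3309969936517) (nat_lit 12) leaf) (nat_lit 3309969936532) (nat_lit 12) leaf)) (nat_lit 3309969936976) (nat_lit 12) (node (node (node leaf (nat_lit 3309969937426) (nat_lit 12) leaf) (nat_lit 3309969937444)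 (nat_lit 12) leaf) (nat_lit 3309969948697) (nat_lit 4) (node (node leaf (nat_lit 3309969948709) (nat_lit 3) leaf) (nat_lit 3309969948745) (nat_lit 6) leaf)))) (nat_lit 3309969948769) (nat_lit 6) (node (node (node (node (node leaf (nat_lit 3309969948772) (nat_lit 6) leaf) (nat_lit 3309969948805) (nat_lit 2) leaf) (nat_lit 3309969948820) (nat_lit 5) (node (node leaf (nat_lit 3309969948934) (nat_lit 8) leaf) (nat_lit 3309969948937) (nat_lit 8) leaf)) (nat_lit 3309969948964) (nat_lit 8) (node (node (node leaf (nat_lit 3309969949060) (nat_lit 8) leaf) (nat_lit 3309969949204) (nat_lit 4) leaf) (nat_lit 3309969949702) (nat_lit 2) (node (node leaf (nat_lit 3309969949732) (nat_lit 10) leaf) (nat_lit 3309969949828) (nat_lit 10) leaf))) (nat_lit 3309969952774) (nat_lit 2) (node (node (node (node leaf (nat_lit 3309969952786) (nat_lit 4) leaf) (nat_lit 3309969952804) (nat_lit 3) leaf) (nat_lit 3309969952840) (nat_lit 6) (node (node leaf (nat_lit 3309969953026) (nat_lit 8) leaf) (nat_lit 3309979391056) (nat_lit 19) leaf)) (nat_lit 3309979391248)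 (nat_lit 19) (node (node (node leaf (nat_lit 3309981750352) (nat_lit 17) leaf) (nat_lit 3309981750544) (nat_lit 17) leaf) (nat_lit 3309982225744) (nat_lit 13) (node leaf (nat_lit 3309982262608) (nat_lit 11) leaf)))))

noncomputable def L0_1 : Tr := (node (node (node (node (node (node leaf (nat_lit 3309982287172) (nat_lit 2) leaf) (nat_lit 3309982287184) (nat_lit 16) leaf) (nat_lit 3309982339396) (nat_lit 8) (node (node leaf (nat_lit 3309982340161) (nat_lit 0) leaf) (nat_lit 3309982340164) (nat_lit 6) leaf)) (nat_lit 3309982340176) (nat_lit 6) (node (node (node leaf (nat_lit 3309982340368) (nat_lit 4) leaf) (nat_lit 3309982456144) (nat_lit 12) leaf) (nat_lit 3309982459216) (nat_lit 11) (node (node leaf (nat_lit 3309982467604) (nat_lit 14) leaf) (nat_lit 3309982468180) (nat_lit 14) leaf))) (nat_lit 3309982468420) (nat_lit 2) (node (node (node (node leaf (nat_lit 3309982468432) (nat_lit 14) leaf) (nat_lit 3309982474576) (nat_lit 14) leaf) (nat_lit 3309982483792) (nat_lit 10) (node (node leaf (nat_lit 3309982486864) (nat_lit 8) leaf)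 (nat_lit 3309982515796) (nat_lit 7) leaf)) (nat_lit 3309982516357) (nat_lit 10) (node (node (node leaf (nat_lit 3309982516372) (nat_lit 10) leaf) (nat_lit 3309982516756) (nat_lit 10) leaf) (nat_lit 3309982516816) (nat_lit 10) (node leaf (nat_lit 3309982517584) (nat_lit 9) leaf)))) (nat_lit 3309982519333) (nat_lit 3) (node (node (node (node (node leaf (nat_lit 3309982519369) (nat_lit 12) leaf) (nat_lit 3309982519393) (nat_lit 12) leaf) (nat_lit 3309982519444) (nat_lit 12) (node (node leaf (nat_lit 3309982519828) (nat_lit 12) leaf) (nat_lit 3309982519888) (nat_lit 12) leaf)) (nat_lit 3309982521424) (nat_lit 12) (node (node (node leaf (nat_lit 3309982523728) (nat_lit 8) leaf) (nat_lit 3309982531609) (nat_lit 4) leaf) (nat_lit 3309982531621) (nat_lit 3) (node (node leaf (nat_lit 3309982531657) (nat_lit 6) leaf) (nat_lit 3309982531672) (nat_lit 6) leaf))) (nat_lit 3309982531681) (nat_lit 6) (node (node (node (node leaf (nat_lit 3309982531684) (nat_lit 6) leaf) (nat_lit 3309982531717) (nat_lit 2) leaf) (nat_lit 3309982531729) (nat_lit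 0) (node (node leaf (nat_lit 3309982531732) (nat_lit 5) leaf) (nat_lit 3309982531846) (nat_lit 8) leaf)) (nat_lit 3309982531849) (nat_lit 1) (node (node (node leaf (nat_lit 3309982531858) (nat_lit 8) leaf) (nat_lit 3309982531864) (nat_lit 8) leaf) (nat_lit 3309982531873) (nat_lit 0) (node leaf (nat_lit 3309982531876) (nat_lit 8) leaf)))))

noncomputable def L0_2 : Tr := node L0_0 (nat_lit 3309982271824) (nat_lit 16) L0_1

noncomputable def L0_3 : Tr := (node (node (node (node (node (node leaf (nat_lit 3309982532116) (nat_lit 4) leaf) (nat_lit 3309982532164) (nat_lit 2) leaf) (nat_lit 3309982532176) (nat_lit 7) (node (node leaf (nat_lit 3309982532614) (nat_lit 2) leaf) (nat_lit 3309982532626) (nat_lit 10) leaf)) (nat_lit 3309982532632) (nat_lit 4) (node (node (node leaf (nat_lit 3309982532644) (nat_lit 3) leaf) (nat_lit 3309982532674) (nat_lit 10) leaf) (nat_lit 3309982532680) (nat_lit 10) (node (node leaf (nat_lit 3309982532740) (nat_lit 10) leaf) (nat_lit 3309982532752) (nat_lit 10) leaf))) (nat_lit 3309982535698) (nat_lit 4) (node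 (node (node (node leaf (nat_lit 3309982535704) (nat_lit 4) leaf) (nat_lit 3309982535716) (nat_lit 3) leaf) (nat_lit 3309982535746) (nat_lit 6) (node (node leaf (nat_lit 3309982535752) (nat_lit 6) leaf) (nat_lit 3309982535938) (nat_lit 8) leaf)) (nat_lit 3309982732609) (nat_lit 8) (node (node (node leaf (nat_lit 3309982732624) (nat_lit 8) leaf) (nat_lit 3309982733332) (nat_lit 4) leaf) (nat_lit 3309982733377) (nat_lit 0) (node leaf (nat_lit 3309982733392) (nat_lit 6) leaf)))) (nat_lit 3309983322448) (nat_lit 8) (node (node (node (node (node leaf (nat_lit 3309983323216) (nat_lit 6) leaf) (nat_lit 3309983568961) (nat_lit 6) leaf) (nat_lit 3309985681744) (nat_lit 8) (node (node leaf (nat_lit 3309985682512) (nat_lit 6) leaf) (nat_lit 3309986649424) (nat_lit 12) leaf)) (nat_lit 3309986661712) (nat_lit 14) (node (node (node leaf (nat_lit 3309986710852) (nat_lit 2) leaf) (nat_lit 3318576580945) (nat_lit 0) leaf) (nat_lit 3318576660517) (nat_lit 3) (node (node leaf (nat_lit 3318576660553) (nat_lit 6) leaf) (nat_lit 3334682708308) (nat_lit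 30) leaf))) (nat_lit 3334682712148) (nat_lit 30) (node (node (node (node leaf (nat_lit 3334682722900) (nat_lit 30) leaf) (nat_lit 3334682724436) (nat_lit 30) leaf) (nat_lit 3334682771605) (nat_lit 30) (node (node leaf (nat_lit 3334682772052) (nat_lit 30) leaf) (nat_lit 3334682772628) (nat_lit 10) leaf)) (nat_lit 3334682772745) (nat_lit 30) (node (node (node leaf (nat_lit 3334682787937) (nat_lit 30) leaf) (nat_lit 3334682788105) (nat_lit 30) leaf) (nat_lit 3335739689284) (nat_lit 2) (node leaf (nat_lit 3335739689296) (nat_lit 14) leaf)))))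

noncomputable def L0_4 : Tr := (node (node (node (node (node (node leaf (nat_lit 3335739736657) (nat_lit 0) leaf) (nat_lit 3335739737125) (nat_lit 10) leaf) (nat_lit 3335739737221) (nat_lit 10) (node (node leaf (nat_lit 3335739737236) (nat_lit 10) leaf) (nat_lit 3335739740197) (nat_lit 12) leaf)) (nat_lit 3335739740293) (nat_lit 12) (node (node (node leaf (nat_lit 3335739740308) (nat_lit 12) leaf) (nat_lit 3335739740434) (nat_lit 8) leaf) (nat_lit 3335739740452) (nat_lit 8) (node (node leaf (nat_lit 3335739740692) (nat_lit 12) leaf) (nat_lit 3335739740740) (nat_lit 2) leaf))) (nat_lit 3335739741190) (nat_lit 2) (node (node (node (node leaf (nat_lit 3335739752485) (nat_lit 3) leaf) (nat_lit 3335739752521) (nat_lit 6) leaf) (nat_lit 3335739752596) (nat_lit 5) (node (node leaf (nat_lit 3335739752740) (nat_lit 8) leaf) (nat_lit 3335739752836) (nat_lit 8) leaf)) (nat_lit 3335739753478) (nat_lit 10) (node (node (node leaf (nat_lit 3335739753490) (nat_lit 10) leaf) (nat_lit 3335739753508) (nat_lit 10) leaf) (nat_lit 3335739756550) (nat_lit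 2) (node leaf (nat_lit 3335749194064) (nat_lit 19) leaf)))) (nat_lit 3335749194832) (nat_lit 19) (node (node (node (node (node leaf (nat_lit 3335751553360) (nat_lit 17) leaf) (nat_lit 3335751554128) (nat_lit 17) leaf) (nat_lit 3335752017232) (nat_lit 14) (node (node leaf (nat_lit 3335752029508) (nat_lit 13) leaf) (nat_lit 3335752029520) (nat_lit 13) leaf)) (nat_lit 3335752066372) (nat_lit 2) (node (node (node leaf (nat_lit 3335752066384) (nat_lit 16) leaf) (nat_lit 3335752090948) (nat_lit 2) leaf) (nat_lit 3335752090960) (nat_lit 16) (node (node leaf (nat_lit 3335752143124) (nat_lit 4) leaf) (nat_lit 3335752143169) (nat_lit 0) leaf))) (nat_lit 3335752143184) (nat_lit 8) (node (node (node (node leaf (nat_lit 3335752143892) (nat_lit 4) leaf) (nat_lit 3335752143937) (nat_lit 0) leaf) (nat_lit 3335752143940) (nat_lit 2) (node (node leaf (nat_lit 3335752143952) (nat_lit 6) leaf) (nat_lit 3335752144132) (nat_lit 2) leaf)) (nat_lit 3335752259668) (nat_lit 12) (node (node (node leaf (nat_lit 3335752259920) (nat_lit 12) leaf) (nat_lit 3335752262992)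 (nat_lit 11) leaf) (nat_lit 3335752270420) (nat_lit 14) (node leaf (nat_lit 3335752270996) (nat_lit 14) leaf)))))

noncomputable def L0_5 : Tr := node L0_3 (nat_lit 3335739691156) (nat_lit 14) L0_4

noncomputable def L0_6 : Tr := node L0_2 (nat_lit 3309982531972) (nat_lit 2) L0_5

noncomputable def L0_7 : Tr := (node (node (node (node (node (node leaf (nat_lit 3335752272148) (nat_lit 4) leaf) (nat_lit 3335752272196) (nat_lit 2) leaf) (nat_lit 3335752272208) (nat_lit 14) (node (node leaf (nat_lit 3335752278352) (nat_lit 14) leaf) (nat_lit 3335752287556) (nat_lit 2) leaf)) (nat_lit 3335752287568) (nat_lit 10) (node (node (node leaf (nat_lit 3335752319365) (nat_lit 8) leaf) (nat_lit 3335752319380) (nat_lit 8) leaf) (nat_lit 3335752319572) (nat_lit 7) (node (node leaf (nat_lit 3335752320037) (nat_lit 10) leaf) (nat_lit 3335752320148) (nat_lit 10) leaf))) (nat_lit 3335752320532) (nat_lit 10) (node (node (node (node leaf (nat_lit 3335752321348) (nat_lit 2) leaf) (nat_lit 3335752321360) (nat_lit 9) leaf) (nat_lit 3335752323109) (nat_lit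 3) (node (node leaf (nat_lit 3335752323145) (nat_lit 12) leaf) (nat_lit 3335752323205) (nat_lit 12) leaf)) (nat_lit 3335752323220) (nat_lit 12) (node (node (node leaf (nat_lit 3335752323604) (nat_lit 12) leaf) (nat_lit 3335752323664) (nat_lit 12) leaf) (nat_lit 3335752335385) (nat_lit 4) (node leaf (nat_lit 3335752335397) (nat_lit 3) leaf)))) (nat_lit 3335752335433) (nat_lit 6) (node (node (node (node (node leaf (nat_lit 3335752335457) (nat_lit 6) leaf) (nat_lit 3335752335460) (nat_lit 6) leaf) (nat_lit 3335752335493) (nat_lit 2) (node (node leaf (nat_lit 3335752335505) (nat_lit 0) leaf) (nat_lit 3335752335508) (nat_lit 5) leaf)) (nat_lit 3335752335622) (nat_lit 8) (node (node (node leaf (nat_lit 3335752335625) (nat_lit 1) leaf) (nat_lit 3335752335634) (nat_lit 8) leaf) (nat_lit 3335752335640) (nat_lit 8) (node (node leaf (nat_lit 3335752335649) (nat_lit 0) leaf) (nat_lit 3335752335652) (nat_lit 8) leaf))) (nat_lit 3335752335748) (nat_lit 8) (node (node (node (node leaf (nat_lit 3335752335892) (nat_lit 4) leaf) (nat_lit 3335752336390)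 (nat_lit 2) leaf) (nat_lit 3335752336402) (nat_lit 10) (node (node leaf (nat_lit 3335752336420) (nat_lit 10) leaf) (nat_lit 3335752339462) (nat_lit 2) leaf)) (nat_lit 3335752536337) (nat_lit 4) (node (node (node leaf (nat_lit 3335752536388) (nat_lit 2) leaf) (nat_lit 3335752536400) (nat_lit 8) leaf) (nat_lit 3335752537105) (nat_lit 4) (node leaf (nat_lit 3335752537156) (nat_lit 2) leaf)))))

noncomputable def L0_8 : Tr := (node (node (node (node (node (node leaf (nat_lit 3335753126224) (nat_lit 8) leaf) (nat_lit 3335753126980) (nat_lit 2) leaf) (nat_lit 3335753372689) (nat_lit 4) (node (node leaf (nat_lit 3335755485508) (nat_lit 2) leaf) (nat_lit 3335755485520) (nat_lit 8) leaf)) (nat_lit 3335755486276) (nat_lit 2) (node (node (node leaf (nat_lit 3335756453188) (nat_lit 2) leaf) (nat_lit 3335756465476) (nat_lit 2) leaf) (nat_lit 3337903933777) (nat_lit 0) (node (node leaf (nat_lit 3337903933780) (nat_lit 9) leaf) (nat_lit 3337903936084) (nat_lit 12) leaf))) (nat_lit 3337903937620) (nat_lit 12) (node (node (node (node leaf (nat_lit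 3337903948372) (nat_lit 14) leaf) (nat_lit 3337903998025) (nat_lit 6) leaf) (nat_lit 3337904013349) (nat_lit 3) (node (node leaf (nat_lit 3337904013385) (nat_lit 6) leaf) (nat_lit 3341930465620) (nat_lit 28) leaf)) (nat_lit 3341930469460) (nat_lit 28) (node (node (node leaf (nat_lit 3341930480212) (nat_lit 28) leaf) (nat_lit 3341930481748) (nat_lit 28) leaf) (nat_lit 3341930528917) (nat_lit 28) (node leaf (nat_lit 3341930529364) (nat_lit 28) leaf)))) (nat_lit 3341930529940) (nat_lit 28) (node (node (node (node (node leaf (nat_lit 3341930530057) (nat_lit 28) leaf) (nat_lit 3341930545249) (nat_lit 28) leaf) (nat_lit 3341930545417) (nat_lit 28) (node (node leaf (nat_lit 3342182127940) (nat_lit 12) leaf) (nat_lit 3342182127952) (nat_lit 12) leaf)) (nat_lit 3342182139028) (nat_lit 10) (node (node (node leaf (nat_lit 3342182140228) (nat_lit 2) leaf) (nat_lit 3342182187301) (nat_lit 8) leaf) (nat_lit 3342182187397) (nat_lit 8) (node (node leaf (nat_lit 3342182187589) (nat_lit 2) leaf) (nat_lit 3342182188069) (nat_lit 10) leaf))) (nat_lit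 3342182188165) (nat_lit 10) (node (node (node (node leaf (nat_lit 3342182188180) (nat_lit 10) leaf) (nat_lit 3342182188564) (nat_lit 10) leaf) (nat_lit 3342182191141) (nat_lit 12) (node (node leaf (nat_lit 3342182191204) (nat_lit 6) leaf) (nat_lit 3342182191252) (nat_lit 12) leaf)) (nat_lit 3342182191366) (nat_lit 2) (node (node (node leaf (nat_lit 3342182191636) (nat_lit 4) leaf) (nat_lit 3342182203540) (nat_lit 5) leaf) (nat_lit 3342182203684) (nat_lit 8) (node leaf (nat_lit 3342182204422) (nat_lit 2) leaf)))))

noncomputable def L0_9 : Tr := node L0_7 (nat_lit 3335753126212) (nat_lit 2) L0_8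

noncomputable def L0_10 : Tr := (node (node (node (node (node (node leaf (nat_lit 3342191645764) (nat_lit 19) leaf) (nat_lit 3342194004292) (nat_lit 17) leaf) (nat_lit 3342194005060) (nat_lit 17) (node (node leaf (nat_lit 3342194468164) (nat_lit 14) leaf) (nat_lit 3342194468176) (nat_lit 14) leaf)) (nat_lit 3342194480404) (nat_lit 4) (node (node (node leaf (nat_lit 3342194480452) (nat_lit 13) leaf) (nat_lit 3342194517268) (nat_lit 4) leaf) (nat_lit 3342194517316) (nat_lit 2) (node (node leaf (nat_lit 3342194517328) (nat_lit 16) leaf) (nat_lit 3342194541892) (nat_lit 16) leaf))) (nat_lit 3342194541904) (nat_lit 16) (node (node (node (node leaf (nat_lit 3342194594065) (nat_lit 4) leaf) (nat_lit 3342194594068) (nat_lit 8) leaf) (nat_lit 3342194594116) (nat_lit 8) (node (node leaf (nat_lit 3342194594833) (nat_lit 0) leaf) (nat_lit 3342194594881) (nat_lit 0) leaf)) (nat_lit 3342194594884) (nat_lit 6) (node (node (node leaf (nat_lit 3342194595073) (nat_lit 0) leaf) (nat_lit 3342194706772) (nat_lit 9) leaf) (nat_lit 3342194709076) (nat_lit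 12) (node leaf (nat_lit 3342194710609) (nat_lit 0) leaf)))) (nat_lit 3342194713924) (nat_lit 2) (node (node (node (node (node leaf (nat_lit 3342194713936) (nat_lit 11) leaf) (nat_lit 3342194721172) (nat_lit 8) leaf) (nat_lit 3342194721364) (nat_lit 14) (node (node leaf (nat_lit 3342194721940) (nat_lit 14) leaf) (nat_lit 3342194722900) (nat_lit 6) leaf)) (nat_lit 3342194723092) (nat_lit 4) (node (node (node leaf (nat_lit 3342194723152) (nat_lit 14) leaf) (nat_lit 3342194724901) (nat_lit 14) leaf) (nat_lit 3342194770069) (nat_lit 5) (node (node leaf (nat_lit 3342194770213) (nat_lit 8) leaf) (nat_lit 3342194770324) (nat_lit 8) leaf))) (nat_lit 3342194770516) (nat_lit 7) (node (node (node (node leaf (nat_lit 3342194770981) (nat_lit 10) leaf) (nat_lit 3342194771077) (nat_lit 10) leaf) (nat_lit 3342194771092) (nat_lit 10) (node (node leaf (nat_lit 3342194771476) (nat_lit 10) leaf) (nat_lit 3342194772244) (nat_lit 4) leaf)) (nat_lit 3342194774053) (nat_lit 12) (node (node (node leaf (nat_lit 3342194774149) (nat_lit 12) leaf) (nat_lit 3342194774164)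 (nat_lit 12) leaf) (nat_lit 3342194774548) (nat_lit 12) (node leaf (nat_lit 3342194786329) (nat_lit 4) leaf)))))

noncomputable def L0_11 : Tr := (node (node (node (node (node (node leaf (nat_lit 3342194786377) (nat_lit 6) leaf) (nat_lit 3342194786401) (nat_lit 6) leaf) (nat_lit 3342194786437) (nat_lit 2) (node (node leaf (nat_lit 3342194786452) (nat_lit 5) leaf) (nat_lit 3342194786569) (nat_lit 1) leaf)) (nat_lit 3342194786578) (nat_lit 8) (node (node (node leaf (nat_lit 3342194786596) (nat_lit 8) leaf) (nat_lit 3342194787334) (nat_lit 2) leaf) (nat_lit 3342194987269) (nat_lit 2) (node (node leaf (nat_lit 3342194987281) (nat_lit 8) leaf) (nat_lit 3342194987284) (nat_lit 4) leaf))) (nat_lit 3342194987329) (nat_lit 0) (node (node (node (node leaf (nat_lit 3342194987332) (nat_lit 8) leaf) (nat_lit 3342194988052) (nat_lit 4) leaf) (nat_lit 3342194988097) (nat_lit 0) (node (node leaf (nat_lit 3342195577108) (nat_lit 4) leaf) (nat_lit 3342195577153) (nat_lit 0) leaf)) (nat_lit 3342195577156) (nat_lit 8) (node (node (node leaf (nat_lit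 3342195577876) (nat_lit 4) leaf) (nat_lit 3342195577921) (nat_lit 0) leaf) (nat_lit 3342195774481) (nat_lit 14) (node leaf (nat_lit 3342195822865) (nat_lit 8) leaf)))) (nat_lit 3342197936404) (nat_lit 4) (node (node (node (node (node leaf (nat_lit 3342197936449) (nat_lit 0) leaf) (nat_lit 3342197936452) (nat_lit 8) leaf) (nat_lit 3342197937172) (nat_lit 4) (node (node leaf (nat_lit 3342197937217) (nat_lit 0) leaf) (nat_lit 3342198904084) (nat_lit 4) leaf)) (nat_lit 3342198904129) (nat_lit 0) (node (node (node leaf (nat_lit 3342198904132) (nat_lit 12) leaf) (nat_lit 3342198916372) (nat_lit 4) leaf) (nat_lit 3342735771985) (nat_lit 0) (node (node leaf (nat_lit 3342735771988) (nat_lit 9) leaf) (nat_lit 3342735774292) (nat_lit 12) leaf))) (nat_lit 3342735775828) (nat_lit 12) (node (node (node (node leaf (nat_lit 3342735786580) (nat_lit 14) leaf) (nat_lit 3342735835540) (nat_lit 8) leaf) (nat_lit 3342735836233) (nat_lit 6) (node (node leaf (nat_lit 3342735851557) (nat_lit 3) leaf) (nat_lit 3342735851593) (nat_lit 6) leaf)) (nat_lit 3343742404948)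 (nat_lit 26) (node (node (node leaf (nat_lit 3343742468245) (nat_lit 26) leaf) (nat_lit 3343792739476) (nat_lit 12) leaf) (nat_lit 3343792740628) (nat_lit 4) (node leaf (nat_lit 3343792740673) (nat_lit 0) leaf)))))

noncomputable def L0_12 : Tr := node L0_10 (nat_lit 3342194786341) (nat_lit 3) L0_11

noncomputable def L0_13 : Tr := node L0_9 (nat_lit 3342191644996) (nat_lit 19) L0_12

noncomputable def L0_14 : Tr := node L0_6 (nat_lit 3335752271380) (nat_lit 14) L0_13

noncomputable def L0_15 : Tr := (node (node (node (node (node (node leaf (nat_lit 3343792750996) (nat_lit 8) leaf) (nat_lit 3343792751188) (nat_lit 25) leaf) (nat_lit 3343792799845) (nat_lit 6) (node (node leaf (nat_lit 3343792799893) (nat_lit 5) leaf) (nat_lit 3343792800037) (nat_lit 8) leaf)) (nat_lit 3343792800133) (nat_lit 8) (node (node (node leaf (nat_lit 3343792800148) (nat_lit 25) leaf) (nat_lit 3343792800277) (nat_lit 4) leaf) (nat_lit 3343792800340) (nat_lit 7) (node (node leaf (nat_lit 3343792800805) (nat_lit 10) leaf) (nat_lit 3343792800916) (nat_lit 10)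 leaf))) (nat_lit 3343792801300) (nat_lit 10) (node (node (node (node leaf (nat_lit 3343792803988) (nat_lit 12) leaf) (nat_lit 3343802257729) (nat_lit 19) leaf) (nat_lit 3343802257732) (nat_lit 19) (node (node leaf (nat_lit 3343802258452) (nat_lit 19) leaf) (nat_lit 3343804617025) (nat_lit 17) leaf)) (nat_lit 3343804617028) (nat_lit 17) (node (node (node leaf (nat_lit 3343804617748) (nat_lit 17) leaf) (nat_lit 3343805080852) (nat_lit 14) leaf) (nat_lit 3343805080900) (nat_lit 14) (node leaf (nat_lit 3343805092948) (nat_lit 6) leaf)))) (nat_lit 3343805093137) (nat_lit 0) (node (node (node (node (node leaf (nat_lit 3343805093140) (nat_lit 4) leaf) (nat_lit 3343805093188) (nat_lit 13) leaf) (nat_lit 3343805093200) (nat_lit 13) (node (node leaf (nat_lit 3343805125204) (nat_lit 16) leaf) (nat_lit 3343805130001) (nat_lit 0) leaf)) (nat_lit 3343805130049) (nat_lit 0) (node (node (node leaf (nat_lit 3343805130052) (nat_lit 16) leaf) (nat_lit 3343805130064) (nat_lit 16) leaf) (nat_lit 3343805206612) (nat_lit 6) (node (node leaf (nat_lit 3343805206789)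 (nat_lit 2) leaf) (nat_lit 3343805206801) (nat_lit 0) leaf))) (nat_lit 3343805206849) (nat_lit 8) (node (node (node (node leaf (nat_lit 3343805206852) (nat_lit 8) leaf) (nat_lit 3343805207572) (nat_lit 4) leaf) (nat_lit 3343805207617) (nat_lit 0) (node (node leaf (nat_lit 3343805319505) (nat_lit 9) leaf) (nat_lit 3343805321809) (nat_lit 0) leaf)) (nat_lit 3343805321812) (nat_lit 12) (node (node (node leaf (nat_lit 3343805323348) (nat_lit 12) leaf) (nat_lit 3343805326612) (nat_lit 4) leaf) (nat_lit 3343805326660) (nat_lit 2) (node leaf (nat_lit 3343805333653) (nat_lit 14) leaf)))))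

noncomputable def L0_16 : Tr := (node (node (node (node (node (node leaf (nat_lit 3343805334100) (nat_lit 14) leaf) (nat_lit 3343805334565) (nat_lit 10) leaf) (nat_lit 3343805335636) (nat_lit 6) (node (node leaf (nat_lit 3343805383045) (nat_lit 8) leaf) (nat_lit 3343805383060) (nat_lit 8) leaf)) (nat_lit 3343805383249) (nat_lit 0) (node (node (node leaf (nat_lit 3343805383252) (nat_lit 7) leaf) (nat_lit 3343805383717) (nat_lit 10) leaf) (nat_lit 3343805383813) (nat_lit 10) (node (node leaf (nat_lit 3343805383828) (nat_lit 10) leaf) (nat_lit 3343805384212) (nat_lit 10) leaf))) (nat_lit 3343805384788) (nat_lit 6) (node (node (node (node leaf (nat_lit 3343805386789) (nat_lit 12) leaf) (nat_lit 3343805386885) (nat_lit 12) leaf) (nat_lit 3343805386900) (nat_lit 12) (node (node leaf (nat_lit 3343805399077) (nat_lit 3) leaf) (nat_lit 3343805399113) (nat_lit 6) leaf)) (nat_lit 3343805596933) (nat_lit 10) (node (node (node leaf (nat_lit 3343805599813) (nat_lit 6) leaf) (nat_lit 3343805599825) (nat_lit 6) leaf) (nat_lit 3343805600005) (nat_lit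 2) (node leaf (nat_lit 3343805600017) (nat_lit 4) leaf)))) (nat_lit 3343805600065) (nat_lit 0) (node (node (node (node (node leaf (nat_lit 3343805600785) (nat_lit 0) leaf) (nat_lit 3343806189841) (nat_lit 4) leaf) (nat_lit 3343806189889) (nat_lit 0) (node (node leaf (nat_lit 3343806190609) (nat_lit 0) leaf) (nat_lit 3343806386449) (nat_lit 14) leaf)) (nat_lit 3343806435409) (nat_lit 6) (node (node (node leaf (nat_lit 3343808549137) (nat_lit 4) leaf) (nat_lit 3343808549185) (nat_lit 0) leaf) (nat_lit 3343808549905) (nat_lit 0) (node (node leaf (nat_lit 3343809516817) (nat_lit 0) leaf) (nat_lit 3343809516820) (nat_lit 4) leaf))) (nat_lit 3343943731537) (nat_lit 0) (node (node (node (node leaf (nat_lit 3343943731540) (nat_lit 9) leaf) (nat_lit 3343943733844) (nat_lit 12) leaf) (nat_lit 3343943735380) (nat_lit 12) (node (node leaf (nat_lit 3343943746132) (nat_lit 14) leaf) (nat_lit 3343943795092) (nat_lit 8) leaf)) (nat_lit 3343943795785) (nat_lit 6) (node (node (node leaf (nat_lit 3343943811109) (nat_lit 3) leaf) (nat_lit 3343943811145)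 (nat_lit 6) leaf) (nat_lit 3344044394836) (nat_lit 9) (node leaf (nat_lit 3344044397140) (nat_lit 12) leaf)))))

noncomputable def L0_17 : Tr := node L0_15 (nat_lit 3343805333908) (nat_lit 14) L0_16

noncomputable def L0_18 : Tr := (node (node (node (node (node (node leaf (nat_lit 3344195389780) (nat_lit 24) leaf) (nat_lit 3344195392084) (nat_lit 12) leaf) (nat_lit 3344195403925) (nat_lit 14) (node (node leaf (nat_lit 3344195404309) (nat_lit 14) leaf) (nat_lit 3344195453077) (nat_lit 24) leaf)) (nat_lit 3344204910865) (nat_lit 19) (node (node (node leaf (nat_lit 3344204911633) (nat_lit 19) leaf) (nat_lit 3344206959892) (nat_lit 18) leaf) (nat_lit 3344207269957) (nat_lit 17) (node (node leaf (nat_lit 3344207270161) (nat_lit 17) leaf) (nat_lit 3344207270929) (nat_lit 17) leaf))) (nat_lit 3344207729236) (nat_lit 14) (node (node (node (node leaf (nat_lit 3344207734033) (nat_lit 14) leaf) (nat_lit 3344207734081) (nat_lit 14) leaf) (nat_lit 3344207746129) (nat_lit 0) (node (node leaf (nat_lit 3344207746132) (nat_lit 6) leaf) (nat_lit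 3344207746324) (nat_lit 4) leaf)) (nat_lit 3344207746372) (nat_lit 2) (node (node (node leaf (nat_lit 3344207746384) (nat_lit 23) leaf) (nat_lit 3344207776081) (nat_lit 16) leaf) (nat_lit 3344207778388) (nat_lit 23) (node leaf (nat_lit 3344207783188) (nat_lit 16) leaf)))) (nat_lit 3344207859781) (nat_lit 6) (node (node (node (node (node leaf (nat_lit 3344207859793) (nat_lit 0) leaf) (nat_lit 3344207859985) (nat_lit 4) leaf) (nat_lit 3344207860753) (nat_lit 4) (node (node leaf (nat_lit 3344207972677) (nat_lit 2) leaf) (nat_lit 3344207972692) (nat_lit 23) leaf)) (nat_lit 3344207974549) (nat_lit 12) (node (node (node leaf (nat_lit 3344207979796) (nat_lit 4) leaf) (nat_lit 3344207987281) (nat_lit 14) leaf) (nat_lit 3344208249925) (nat_lit 10) (node (node leaf (nat_lit 3344208252997) (nat_lit 2) leaf) (nat_lit 3344208253189) (nat_lit 2) leaf))) (nat_lit 3344208253201) (nat_lit 8) (node (node (node (node leaf (nat_lit 3344208253957) (nat_lit 2) leaf) (nat_lit 3344208842833) (nat_lit 6) leaf) (nat_lit 3344208843013) (nat_lit 2) (node (node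 leaf (nat_lit 3344208843025) (nat_lit 8) leaf) (nat_lit 3344208843781) (nat_lit 2) leaf)) (nat_lit 3344209039441) (nat_lit 14) (node (node (node leaf (nat_lit 3344211202309) (nat_lit 2) leaf) (nat_lit 3344211202321) (nat_lit 8) leaf) (nat_lit 3344211203077) (nat_lit 2) (node leaf (nat_lit 3344212169809) (nat_lit 6) leaf)))))

noncomputable def L0_19 : Tr := (node (node (node (node (node (node leaf (nat_lit 3344212170001) (nat_lit 0) leaf) (nat_lit 3344242349392) (nat_lit 22) leaf) (nat_lit 3344242393477) (nat_lit 22) (node (node leaf (nat_lit 3344242393492) (nat_lit 22) leaf) (nat_lit 3344242394149) (nat_lit 22) leaf)) (nat_lit 3344242394185) (nat_lit 22) (node (node (node leaf (nat_lit 3344242590757) (nat_lit 22) leaf) (nat_lit 3344242638997) (nat_lit 22) leaf) (nat_lit 3344242639909) (nat_lit 22) (node (node leaf (nat_lit 3344242640005) (nat_lit 22) leaf) (nat_lit 3344245495120) (nat_lit 21) leaf))) (nat_lit 3344245527124) (nat_lit 21) (node (node (node (node leaf (nat_lit 3344245721425) (nat_lit 0) leaf) (nat_lit 3344245721428)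 (nat_lit 21) leaf) (nat_lit 3344245735717) (nat_lit 21) (node (node leaf (nat_lit 3344245736020) (nat_lit 21) leaf) (nat_lit 3344245737553) (nat_lit 21) leaf)) (nat_lit 3344252896852) (nat_lit 16) (node (node (node leaf (nat_lit 3344252900389) (nat_lit 16) leaf) (nat_lit 3344252949652) (nat_lit 15) leaf) (nat_lit 3344252949778) (nat_lit 15) (node leaf (nat_lit 3344252949796) (nat_lit 15) leaf)))) (nat_lit 3344252950033) (nat_lit 0) (node (node (node (node (node leaf (nat_lit 3344252950036) (nat_lit 15) leaf) (nat_lit 3344253065569) (nat_lit 18) leaf) (nat_lit 3344253068884) (nat_lit 11) (node (node leaf (nat_lit 3344253077833) (nat_lit 18) leaf) (nat_lit 3344253077905) (nat_lit 18) leaf)) (nat_lit 3344253078100) (nat_lit 18) (node (node (node leaf (nat_lit 3344253080212) (nat_lit 14) leaf) (nat_lit 3344253084820) (nat_lit 14) leaf) (nat_lit 3344253084937) (nat_lit 18) (node (node leaf (nat_lit 3344253086020) (nat_lit 18) leaf) (nat_lit 3344253086032) (nat_lit 18) leaf))) (nat_lit 3344253093457) (nat_lit 0) (node (node (node (node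 leaf (nat_lit 3344253093460) (nat_lit 18) leaf) (nat_lit 3344253096229) (nat_lit 8) leaf) (nat_lit 3344253096532) (nat_lit 18) (node (node leaf (nat_lit 3344253096997) (nat_lit 18) leaf) (nat_lit 3344253097093) (nat_lit 18) leaf)) (nat_lit 3344253097108) (nat_lit 13) (node (node (node leaf (nat_lit 3344253097234) (nat_lit 18) leaf) (nat_lit 3344253097252) (nat_lit 18) leaf) (nat_lit 3344253097492) (nat_lit 18) (node leaf (nat_lit 3344253098308) (nat_lit 18) leaf)))))

noncomputable def L0_20 : Tr := node L0_18 (nat_lit 3344212169989) (nat_lit 2) L0_19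

noncomputable def L0_21 : Tr := node L0_17 (nat_lit 3344044409236) (nat_lit 14) L0_20

noncomputable def L0_22 : Tr := (node (node (node (node (node (node leaf (nat_lit 3344253126292) (nat_lit 10) leaf) (nat_lit 3344253126949) (nat_lit 18) leaf) (nat_lit 3344253127060) (nat_lit 18) (node (node leaf (nat_lit 3344253133972) (nat_lit 18) leaf) (nat_lit 3344253134089) (nat_lit 18) leaf)) (nat_lit 3344253195301) (nat_lit 18) (node (node (node leaf (nat_lit 3344253195337) (nat_lit 18) leaf) (nat_lit 3344253195409) (nat_lit 0) leaf) (nat_lit 3344253195412) (nat_lit 12) (node (node leaf (nat_lit 3344253195526) (nat_lit 2) leaf) (nat_lit 3344253195538) (nat_lit 18) leaf))) (nat_lit 3344253195556) (nat_lit 18) (node (node (node (node leaf (nat_lit 3344253195793) (nat_lit 0) leaf) (nat_lit 3344253196372) (nat_lit 18) leaf) (nat_lit 3344253196564) (nat_lit 4) (node (node leaf (nat_lit 3344253199696) (nat_lit 18) leaf) (nat_lit 3344253206932) (nat_lit 8) leaf)) (nat_lit 3344253207124) (nat_lit 18) (node (node (node leaf (nat_lit 3344253207589)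 (nat_lit 10) leaf) (nat_lit 3344253207625) (nat_lit 10) leaf) (nat_lit 3344253207697) (nat_lit 0) (node leaf (nat_lit 3344253207817) (nat_lit 10) leaf)))) (nat_lit 3344253208852) (nat_lit 4) (node (node (node (node (node leaf (nat_lit 3344253208900) (nat_lit 2) leaf) (nat_lit 3344253210661) (nat_lit 18) leaf) (nat_lit 3344253210772) (nat_lit 18) (node (node leaf (nat_lit 3344253212752) (nat_lit 18) leaf) (nat_lit 3344253215056) (nat_lit 18) leaf)) (nat_lit 3344253359440) (nat_lit 13) (node (node (node leaf (nat_lit 3344253388369) (nat_lit 0) leaf) (nat_lit 3344253388372) (nat_lit 17) leaf) (nat_lit 3344253391141) (nat_lit 8) (node (node leaf (nat_lit 3344253391444) (nat_lit 17) leaf) (nat_lit 3344253391909) (nat_lit 17) leaf))) (nat_lit 3344253393232) (nat_lit 12) (node (node (node (node leaf (nat_lit 3344253396304) (nat_lit 11) leaf) (nat_lit 3344253403525) (nat_lit 8) leaf) (nat_lit 3344253403540) (nat_lit 8) (node (node leaf (nat_lit 3344253403732) (nat_lit 17) leaf) (nat_lit 3344253404197) (nat_lit 17) leaf)) (nat_lit 3344253404233)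 (nat_lit 10) (node (node (node leaf (nat_lit 3344253404293) (nat_lit 10) leaf) (nat_lit 3344253404305) (nat_lit 0) leaf) (nat_lit 3344253404308) (nat_lit 10) (node leaf (nat_lit 3344253404692) (nat_lit 10) leaf)))))

noncomputable def L0_23 : Tr := (node (node (node (node (node (node leaf (nat_lit 3344253405268) (nat_lit 6) leaf) (nat_lit 3344253405457) (nat_lit 0) leaf) (nat_lit 3344253405460) (nat_lit 9) (node (node leaf (nat_lit 3344253405508) (nat_lit 2) leaf) (nat_lit 3344253405520) (nat_lit 9) leaf)) (nat_lit 3344253407269) (nat_lit 17) (node (node (node leaf (nat_lit 3344253407305) (nat_lit 6) leaf) (nat_lit 3344253407329) (nat_lit 6) leaf) (nat_lit 3344253407377) (nat_lit 0) (node (node leaf (nat_lit 3344253407380) (nat_lit 17) leaf) (nat_lit 3344253407497) (nat_lit 1) leaf))) (nat_lit 3344253407506) (nat_lit 8) (node (node (node (node leaf (nat_lit 3344253407512) (nat_lit 8) leaf) (nat_lit 3344253407521) (nat_lit 8) leaf) (nat_lit 3344253407524) (nat_lit 8) (node (node leaf (nat_lit 3344253407764) (nat_lit 17) leaf) (nat_lit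 3344253407812) (nat_lit 2) leaf)) (nat_lit 3344253407824) (nat_lit 17) (node (node (node leaf (nat_lit 3344253408262) (nat_lit 2) leaf) (nat_lit 3344253408265) (nat_lit 1) leaf) (nat_lit 3344253408274) (nat_lit 4) (node leaf (nat_lit 3344253408280) (nat_lit 4) leaf)))) (nat_lit 3344253408292) (nat_lit 3) (node (node (node (node (node leaf (nat_lit 3344253408322) (nat_lit 6) leaf) (nat_lit 3344253408328) (nat_lit 17) leaf) (nat_lit 3344253409348) (nat_lit 2) (node (node leaf (nat_lit 3344253411652) (nat_lit 2) leaf) (nat_lit 3344253411664) (nat_lit 8) leaf)) (nat_lit 3344253412432) (nat_lit 6) (node (node (node leaf (nat_lit 3344253420868) (nat_lit 2) leaf) (nat_lit 3344253420880) (nat_lit 10) leaf) (nat_lit 3344253424708) (nat_lit 2) (node (node leaf (nat_lit 3344253851977) (nat_lit 12) leaf) (nat_lit 3344253852244) (nat_lit 12) leaf))) (nat_lit 3344253855073) (nat_lit 20) (node (node (node (node leaf (nat_lit 3344253855316) (nat_lit 20) leaf) (nat_lit 3344253864217) (nat_lit 4) leaf) (nat_lit 3344253864325) (nat_lit 2) (node (node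 leaf (nat_lit 3344253864340) (nat_lit 14) leaf) (nat_lit 3344253864532) (nat_lit 20) leaf)) (nat_lit 3344253870676) (nat_lit 14) (node (node (node leaf (nat_lit 3344253871252) (nat_lit 14) leaf) (nat_lit 3344253871369) (nat_lit 14) leaf) (nat_lit 3344253872404) (nat_lit 4) (node leaf (nat_lit 3344253872452) (nat_lit 2) leaf)))))

noncomputable def L0_24 : Tr := node L0_22 (nat_lit 3344253404752) (nat_lit 10) L0_23

noncomputable def L0_25 : Tr := (node (node (node (node (node (node leaf (nat_lit 3344253882964) (nat_lit 7) leaf) (nat_lit 3344253883429) (nat_lit 3) leaf) (nat_lit 3344253883465) (nat_lit 13) (node (node leaf (nat_lit 3344253883489) (nat_lit 20) leaf) (nat_lit 3344253883525) (nat_lit 20) leaf)) (nat_lit 3344253883540) (nat_lit 13) (node (node (node leaf (nat_lit 3344253883654) (nat_lit 2) leaf) (nat_lit 3344253883666) (nat_lit 20) leaf) (nat_lit 3344253883681) (nat_lit 0) (node (node leaf (nat_lit 3344253883684) (nat_lit 20) leaf) (nat_lit 3344253884500) (nat_lit 20) leaf))) (nat_lit 3344253884692) (nat_lit 4) (node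 (node (node (node leaf (nat_lit 3344253884740) (nat_lit 20) leaf) (nat_lit 3344253887824) (nat_lit 20) leaf) (nat_lit 3344253911461) (nat_lit 8) (node (node leaf (nat_lit 3344253912229) (nat_lit 10) leaf) (nat_lit 3344253912724) (nat_lit 10) leaf)) (nat_lit 3344253913381) (nat_lit 3) (node (node (node leaf (nat_lit 3344253913417) (nat_lit 16) leaf) (nat_lit 3344253913477) (nat_lit 20) leaf) (nat_lit 3344253913492) (nat_lit 20) (node leaf (nat_lit 3344253913684) (nat_lit 20) leaf)))) (nat_lit 3344253915796) (nat_lit 16) (node (node (node (node (node leaf (nat_lit 3344253919381) (nat_lit 20) leaf) (nat_lit 3344253919636) (nat_lit 8) leaf) (nat_lit 3344253919828) (nat_lit 20) (node (node leaf (nat_lit 3344253920329) (nat_lit 6) leaf) (nat_lit 3344253920404) (nat_lit 16) leaf)) (nat_lit 3344253944404) (nat_lit 20) (node (node (node leaf (nat_lit 3344253945097) (nat_lit 20) leaf) (nat_lit 3344253948052) (nat_lit 20) leaf) (nat_lit 3344253978196) (nat_lit 10) (node (node leaf (nat_lit 3344253978964) (nat_lit 9) leaf) (nat_lit 3344253981268)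 (nat_lit 12) leaf))) (nat_lit 3344253981721) (nat_lit 4) (node (node (node (node leaf (nat_lit 3344253981733) (nat_lit 20) leaf) (nat_lit 3344253981844) (nat_lit 12) leaf) (nat_lit 3344253981958) (nat_lit 2) (node (node leaf (nat_lit 3344253981970) (nat_lit 20) leaf) (nat_lit 3344253981988) (nat_lit 20) leaf)) (nat_lit 3344253993109) (nat_lit 20) (node (node (node leaf (nat_lit 3344253993364) (nat_lit 8) leaf) (nat_lit 3344253993556) (nat_lit 20) leaf) (nat_lit 3344253994021) (nat_lit 10) (node leaf (nat_lit 3344253994132) (nat_lit 10) leaf)))))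

noncomputable def L0_26 : Tr := (node (node (node (node (node (node leaf (nat_lit 3344253997093) (nat_lit 20) leaf) (nat_lit 3344253997204) (nat_lit 20) leaf) (nat_lit 3344253997321) (nat_lit 20) (node (node leaf (nat_lit 3344253997588) (nat_lit 20) leaf) (nat_lit 3344253997648) (nat_lit 20) leaf)) (nat_lit 3344253998152) (nat_lit 20) (node (node (node leaf (nat_lit 3344253999184) (nat_lit 20) leaf) (nat_lit 3344254108309) (nat_lit 20) leaf) (nat_lit 3344254108837) (nat_lit 20) (node (node leaf (nat_lit 3344254109332) (nat_lit 10) leaf) (nat_lit 3344254109989) (nat_lit 20) leaf))) (nat_lit 3344254110100) (nat_lit 20) (node (node (node (node leaf (nat_lit 3344254117129) (nat_lit 20) leaf) (nat_lit 3344254371412) (nat_lit 10) leaf) (nat_lit 3344254374181) (nat_lit 8) (node (node leaf (nat_lit 3344254374484) (nat_lit 12) leaf) (nat_lit 3344254387237) (nat_lit 10) leaf)) (nat_lit 3344254388560) (nat_lit 20) (node (node (node leaf (nat_lit 3344254390420) (nat_lit 14) leaf) (nat_lit 3344254391362) (nat_lit 20) leaf) (nat_lit 3344254436500)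 (nat_lit 10) (node leaf (nat_lit 3344254439572) (nat_lit 20) leaf)))) (nat_lit 3344254932292) (nat_lit 2) (node (node (node (node (node leaf (nat_lit 3344254932304) (nat_lit 13) leaf) (nat_lit 3344254961236) (nat_lit 10) leaf) (nat_lit 3344254964305) (nat_lit 0) (node (node leaf (nat_lit 3344254964308) (nat_lit 12) leaf) (nat_lit 3344254964773) (nat_lit 12) leaf)) (nat_lit 3344254969168) (nat_lit 16) (node (node (node leaf (nat_lit 3344254976149) (nat_lit 5) leaf) (nat_lit 3344254976293) (nat_lit 8) leaf) (nat_lit 3344254976329) (nat_lit 8) (node (node leaf (nat_lit 3344254976401) (nat_lit 0) leaf) (nat_lit 3344254976593) (nat_lit 0) leaf))) (nat_lit 3344254977061) (nat_lit 16) (node (node (node (node leaf (nat_lit 3344254977172) (nat_lit 10) leaf) (nat_lit 3344254978324) (nat_lit 4) leaf) (nat_lit 3344254984528) (nat_lit 16) (node (node leaf (nat_lit 3344254996804) (nat_lit 8) leaf) (nat_lit 3344254997569) (nat_lit 0) leaf)) (nat_lit 3344255158612) (nat_lit 9) (node (node (node leaf (nat_lit 3344255160724) (nat_lit 8) leaf) (nat_lit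 3344255160916) (nat_lit 12) leaf) (nat_lit 3344255161381) (nat_lit 12) (node leaf (nat_lit 3344255162452) (nat_lit 6) leaf)))))

noncomputable def L0_27 : Tr := node L0_25 (nat_lit 3344253995344) (nat_lit 9) L0_26

noncomputable def L0_28 : Tr := node L0_24 (nat_lit 3344253879892) (nat_lit 10) L0_27

noncomputable def L0_29 : Tr := node L0_21 (nat_lit 3344253125797) (nat_lit 18) L0_28

noncomputable def L0_30 : Tr := node L0_14 (nat_lit 3343792740676) (nat_lit 12) L0_29

noncomputable def L0_31 : Tr := (node (node (node (node (node (node leaf (nat_lit 3344255165776) (nat_lit 11) leaf) (nat_lit 3344255172757) (nat_lit 14) leaf) (nat_lit 3344255172901) (nat_lit 8) (node (node leaf (nat_lit 3344255172997) (nat_lit 14) leaf) (nat_lit 3344255173204) (nat_lit 14) leaf)) (nat_lit 3344255173669) (nat_lit 14) (node (node (node leaf (nat_lit 3344255173705) (nat_lit 14) leaf) (nat_lit 3344255173765) (nat_lit 14) leaf) (nat_lit 3344255174737) (nat_lit 14) (node (node leaf (nat_lit 3344255174740) (nat_lit 14) leaf) (nat_lit 3344255174977) (nat_lit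 0) leaf))) (nat_lit 3344255174992) (nat_lit 14) (node (node (node (node leaf (nat_lit 3344255221861) (nat_lit 6) leaf) (nat_lit 3344255221909) (nat_lit 5) leaf) (nat_lit 3344255222053) (nat_lit 8) (node (node leaf (nat_lit 3344255222149) (nat_lit 8) leaf) (nat_lit 3344255222164) (nat_lit 8) leaf)) (nat_lit 3344255222353) (nat_lit 0) (node (node (node leaf (nat_lit 3344255222356) (nat_lit 7) leaf) (nat_lit 3344255222809) (nat_lit 4) leaf) (nat_lit 3344255222821) (nat_lit 3) (node leaf (nat_lit 3344255222857) (nat_lit 6) leaf)))) (nat_lit 3344255222917) (nat_lit 2) (node (node (node (node (node leaf (nat_lit 3344255222929) (nat_lit 0) leaf) (nat_lit 3344255222932) (nat_lit 10) leaf) (nat_lit 3344255223316) (nat_lit 10) (node (node leaf (nat_lit 3344255223889) (nat_lit 0) leaf) (nat_lit 3344255225893) (nat_lit 12) leaf)) (nat_lit 3344255226004) (nat_lit 19) (node (node (node leaf (nat_lit 3344255238181) (nat_lit 3) leaf) (nat_lit 3344255238217) (nat_lit 6) leaf) (nat_lit 3344257000741) (nat_lit 3) (node (node leaf (nat_lit 3344257000774)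 (nat_lit 2) leaf) (nat_lit 3344257000777) (nat_lit 1) leaf))) (nat_lit 3344257000786) (nat_lit 11) (node (node (node (node leaf (nat_lit 3344257000801) (nat_lit 0) leaf) (nat_lit 3344257000804) (nat_lit 11) leaf) (nat_lit 3344257000849) (nat_lit 0) (node (node leaf (nat_lit 3344257010002) (nat_lit 14) leaf) (nat_lit 3344257010020) (nat_lit 14) leaf)) (nat_lit 3344257010068) (nat_lit 14) (node (node (node leaf (nat_lit 3344257015957) (nat_lit 14) leaf) (nat_lit 3344257016134) (nat_lit 2) leaf) (nat_lit 3344257016137) (nat_lit 14) (node leaf (nat_lit 3344257016404) (nat_lit 14) leaf)))))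

noncomputable def L0_32 : Tr := (node (node (node (node (node (node leaf (nat_lit 3344257017364) (nat_lit 14) leaf) (nat_lit 3344257028692) (nat_lit 13) leaf) (nat_lit 3344257029157) (nat_lit 3) (node (node leaf (nat_lit 3344257029193) (nat_lit 6) leaf) (nat_lit 3344257029220) (nat_lit 6) leaf)) (nat_lit 3344257029268) (nat_lit 13) (node (node (node leaf (nat_lit 3344257029382) (nat_lit 2) leaf) (nat_lit 3344257029385) (nat_lit 13) leaf) (nat_lit 3344257029394) (nat_lit 13) (node (node leaf (nat_lit 3344257029412) (nat_lit 13) leaf) (nat_lit 3344257029652) (nat_lit 4) leaf))) (nat_lit 3344257029700) (nat_lit 2) (node (node (node (node leaf (nat_lit 3344257030468) (nat_lit 2) leaf) (nat_lit 3344257057429) (nat_lit 16) leaf) (nat_lit 3344257058965) (nat_lit 5) (node (node leaf (nat_lit 3344257059109) (nat_lit 16) leaf) (nat_lit 3344257059142) (nat_lit 2) leaf)) (nat_lit 3344257059145) (nat_lit 16) (node (node (node leaf (nat_lit 3344257059205) (nat_lit 16) leaf) (nat_lit 3344257059220) (nat_lit 16) leaf) (nat_lit 3344257059412) (nat_lit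 16) (node leaf (nat_lit 3344257063060) (nat_lit 12) leaf)))) (nat_lit 3344257065109) (nat_lit 16) (node (node (node (node (node leaf (nat_lit 3344257065289) (nat_lit 16) leaf) (nat_lit 3344257065556) (nat_lit 7) leaf) (nat_lit 3344257066021) (nat_lit 16) (node (node leaf (nat_lit 3344257066132) (nat_lit 11) leaf) (nat_lit 3344257066249) (nat_lit 16) leaf)) (nat_lit 3344257066258) (nat_lit 16) (node (node (node leaf (nat_lit 3344257066276) (nat_lit 16) leaf) (nat_lit 3344257066516) (nat_lit 16) leaf) (nat_lit 3344257073812) (nat_lit 16) (node (node leaf (nat_lit 3344257075348) (nat_lit 16) leaf) (nat_lit 3344257090708) (nat_lit 10) leaf))) (nat_lit 3344257090822) (nat_lit 2) (node (node (node (node leaf (nat_lit 3344257090825) (nat_lit 16) leaf) (nat_lit 3344257091920) (nat_lit 16) leaf) (nat_lit 3344257093780) (nat_lit 16) (node (node leaf (nat_lit 3344257127686) (nat_lit 2) leaf) (nat_lit 3344257127689) (nat_lit 12) leaf)) (nat_lit 3344257138837) (nat_lit 15) (node (node (node leaf (nat_lit 3344257139284) (nat_lit 7) leaf) (nat_lit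 3344257139860) (nat_lit 10) leaf) (nat_lit 3344257139977) (nat_lit 10) (node leaf (nat_lit 3344257141072) (nat_lit 9) leaf)))))

noncomputable def L0_33 : Tr := node L0_31 (nat_lit 3344257017097) (nat_lit 14) L0_32

noncomputable def L0_34 : Tr := (node (node (node (node (node (node leaf (nat_lit 3344257142857) (nat_lit 6) leaf) (nat_lit 3344257142932) (nat_lit 15) leaf) (nat_lit 3344257143184) (nat_lit 8) (node (node leaf (nat_lit 3344257143376) (nat_lit 15) leaf) (nat_lit 3344257143832) (nat_lit 4) leaf)) (nat_lit 3344257143874) (nat_lit 15) (node (node (node leaf (nat_lit 3344257143940) (nat_lit 2) leaf) (nat_lit 3344257144912) (nat_lit 6) leaf) (nat_lit 3344257253797) (nat_lit 8) (node (node leaf (nat_lit 3344257254037) (nat_lit 18) leaf) (nat_lit 3344257254565) (nat_lit 18) leaf))) (nat_lit 3344257254949) (nat_lit 10) (node (node (node (node leaf (nat_lit 3344257255573) (nat_lit 5) leaf) (nat_lit 3344257255717) (nat_lit 3) leaf) (nat_lit 3344257255753) (nat_lit 18) (node (node leaf (nat_lit 3344257256020) (nat_lit 18) leaf)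 (nat_lit 3344257257637) (nat_lit 18) leaf)) (nat_lit 3344257258132) (nat_lit 12) (node (node (node leaf (nat_lit 3344257259668) (nat_lit 12) leaf) (nat_lit 3344257262740) (nat_lit 11) leaf) (nat_lit 3344257262854) (nat_lit 2) (node leaf (nat_lit 3344257262857) (nat_lit 18) leaf)))) (nat_lit 3344257263952) (nat_lit 18) (node (node (node (node (node leaf (nat_lit 3344257270420) (nat_lit 18) leaf) (nat_lit 3344257271956) (nat_lit 18) leaf) (nat_lit 3344257278100) (nat_lit 18) (node (node leaf (nat_lit 3344257286293) (nat_lit 18) leaf) (nat_lit 3344257287316) (nat_lit 10) leaf)) (nat_lit 3344257287433) (nat_lit 18) (node (node (node leaf (nat_lit 3344257290388) (nat_lit 18) leaf) (nat_lit 3344257290832) (nat_lit 18) leaf) (nat_lit 3344257291330) (nat_lit 18) (node (node leaf (nat_lit 3344257388692) (nat_lit 12) leaf) (nat_lit 3344257389136) (nat_lit 18) leaf))) (nat_lit 3344257389586) (nat_lit 4) (node (node (node (node leaf (nat_lit 3344257389604) (nat_lit 18) leaf) (nat_lit 3344257534288) (nat_lit 14) leaf) (nat_lit 3344257536148)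 (nat_lit 14) (node (node leaf (nat_lit 3344257537033) (nat_lit 1) leaf) (nat_lit 3344257537042) (nat_lit 4) leaf)) (nat_lit 3344257585300) (nat_lit 12) (node (node (node leaf (nat_lit 3344258040997) (nat_lit 10) leaf) (nat_lit 3344258041381) (nat_lit 10) leaf) (nat_lit 3344258042137) (nat_lit 4) (node leaf (nat_lit 3344258042149) (nat_lit 9) leaf)))))

noncomputable def L0_35 : Tr := (node (node (node (node (node (node leaf (nat_lit 3344258044069) (nat_lit 12) leaf) (nat_lit 3344258044453) (nat_lit 12) leaf) (nat_lit 3344258044564) (nat_lit 12) (node (node leaf (nat_lit 3344258045989) (nat_lit 12) leaf) (nat_lit 3344258046100) (nat_lit 12) leaf)) (nat_lit 3344258046340) (nat_lit 12) (node (node (node leaf (nat_lit 3344258046544) (nat_lit 12) leaf) (nat_lit 3344258048149) (nat_lit 5) leaf) (nat_lit 3344258048293) (nat_lit 8) (node (node leaf (nat_lit 3344258049289) (nat_lit 1) leaf) (nat_lit 3344258049298) (nat_lit 4) leaf))) (nat_lit 3344258056357) (nat_lit 14) (node (node (node (node leaf (nat_lit 3344258056741) (nat_lit 14) leaf)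 (nat_lit 3344258056852) (nat_lit 14) leaf) (nat_lit 3344258058388) (nat_lit 5) (node (node leaf (nat_lit 3344258058532) (nat_lit 3) leaf) (nat_lit 3344258058568) (nat_lit 14) leaf)) (nat_lit 3344258058832) (nat_lit 14) (node (node (node leaf (nat_lit 3344258076820) (nat_lit 5) leaf) (nat_lit 3344258076964) (nat_lit 8) leaf) (nat_lit 3344258077264) (nat_lit 13) (node leaf (nat_lit 3344258077702) (nat_lit 2) leaf)))) (nat_lit 3344258077714) (nat_lit 4) (node (node (node (node (node leaf (nat_lit 3344258077732) (nat_lit 3) leaf) (nat_lit 3344258077768) (nat_lit 13) leaf) (nat_lit 3344258105509) (nat_lit 16) (node (node leaf (nat_lit 3344258106004) (nat_lit 16) leaf) (nat_lit 3344258107714) (nat_lit 16) leaf)) (nat_lit 3344258114128) (nat_lit 7) (node (node (node leaf (nat_lit 3344258114632) (nat_lit 16) leaf) (nat_lit 3344258114704) (nat_lit 16) leaf) (nat_lit 3344258139202) (nat_lit 16) (node (node leaf (nat_lit 3344258176006) (nat_lit 2) leaf) (nat_lit 3344258303560) (nat_lit 10) leaf))) (nat_lit 3344258303632) (nat_lit 10) (node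 (node (node (node leaf (nat_lit 3344258306152) (nat_lit 6) leaf) (nat_lit 3344258306338) (nat_lit 12) leaf) (nat_lit 3344258306584) (nat_lit 4) (node (node leaf (nat_lit 3344258306626) (nat_lit 12) leaf) (nat_lit 3344258311192) (nat_lit 4) leaf)) (nat_lit 3344258311234) (nat_lit 6) (node (node (node leaf (nat_lit 3344258318434) (nat_lit 6) leaf) (nat_lit 3344258318602) (nat_lit 8) leaf) (nat_lit 3344259155092) (nat_lit 10) (node leaf (nat_lit 3344261223748) (nat_lit 2) leaf)))))

noncomputable def L0_36 : Tr := node L0_34 (nat_lit 3344258042245) (nat_lit 2) L0_35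

noncomputable def L0_37 : Tr := node L0_33 (nat_lit 3344257142821) (nat_lit 3) L0_36

noncomputable def L0_38 : Tr := (node (node (node (node (node (node leaf (nat_lit 3344261255461) (nat_lit 8) leaf) (nat_lit 3344261255761) (nat_lit 0) leaf) (nat_lit 3344261257540) (nat_lit 16) (node (node leaf (nat_lit 3344261260624) (nat_lit 16) leaf) (nat_lit 3344261267845) (nat_lit 16) leaf)) (nat_lit 3344261288257) (nat_lit 0) (node (node (node leaf (nat_lit 3344261450065) (nat_lit 0) leaf) (nat_lit 3344261453905) (nat_lit 12) leaf) (nat_lit 3344261454100) (nat_lit 4) (node (node leaf (nat_lit 3344261454145) (nat_lit 12) leaf) (nat_lit 3344261464165) (nat_lit 6) leaf))) (nat_lit 3344261464357) (nat_lit 14) (node (node (node (node leaf (nat_lit 3344261464453) (nat_lit 14) leaf) (nat_lit 3344261464468) (nat_lit 14) leaf) (nat_lit 3344261464657) (nat_lit 0) (node (node leaf (nat_lit 3344261464660) (nat_lit 14) leaf) (nat_lit 3344261465125) (nat_lit 14) leaf)) (nat_lit 3344261466193) (nat_lit 0) (node (node (node leaf (nat_lit 3344261466385)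 (nat_lit 4) leaf) (nat_lit 3344261513365) (nat_lit 5) leaf) (nat_lit 3344261513509) (nat_lit 8) (node leaf (nat_lit 3344261513605) (nat_lit 8) leaf)))) (nat_lit 3344261513617) (nat_lit 0) (node (node (node (node (node leaf (nat_lit 3344261513809) (nat_lit 0) leaf) (nat_lit 3344261513812) (nat_lit 7) leaf) (nat_lit 3344261514265) (nat_lit 4) (node (node leaf (nat_lit 3344261514277) (nat_lit 10) leaf) (nat_lit 3344261514373) (nat_lit 2) leaf)) (nat_lit 3344261514388) (nat_lit 18) (node (node (node leaf (nat_lit 3344261517349) (nat_lit 12) leaf) (nat_lit 3344270660932) (nat_lit 2) leaf) (nat_lit 3344270692945) (nat_lit 0) (node (node leaf (nat_lit 3344270705029) (nat_lit 20) leaf) (nat_lit 3344270887249) (nat_lit 0) leaf))) (nat_lit 3344270891089) (nat_lit 12) (node (node (node (node leaf (nat_lit 3344270901349) (nat_lit 6) leaf) (nat_lit 3344270901841) (nat_lit 0) leaf) (nat_lit 3344270950549) (nat_lit 20) (node (node leaf (nat_lit 3344273806660) (nat_lit 2) leaf) (nat_lit 3344273839141) (nat_lit 12) leaf)) (nat_lit 3344273850517)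 (nat_lit 5) (node (node (node leaf (nat_lit 3344273850661) (nat_lit 8) leaf) (nat_lit 3344273850697) (nat_lit 8) leaf) (nat_lit 3344273850769) (nat_lit 0) (node leaf (nat_lit 3344273851429) (nat_lit 16) leaf)))))

noncomputable def L0_39 : Tr := (node (node (node (node (node (node leaf (nat_lit 3344274047125) (nat_lit 14) leaf) (nat_lit 3344274048037) (nat_lit 14) leaf) (nat_lit 3344274048133) (nat_lit 14) (node (node leaf (nat_lit 3344274096277) (nat_lit 18) leaf) (nat_lit 3344274097189) (nat_lit 18) leaf)) (nat_lit 3344274819409) (nat_lit 0) (node (node (node leaf (nat_lit 3344274819412) (nat_lit 9) leaf) (nat_lit 3344274821716) (nat_lit 12) leaf) (nat_lit 3344274882709) (nat_lit 5) (node (node leaf (nat_lit 3344274882853) (nat_lit 8) leaf) (nat_lit 3344307622996) (nat_lit 6) leaf))) (nat_lit 3344307736657) (nat_lit 18) (node (node (node (node leaf (nat_lit 3344307930181) (nat_lit 10) leaf) (nat_lit 3344307933265) (nat_lit 6) leaf) (nat_lit 3344307933445) (nat_lit 2) (node (node leaf (nat_lit 3344307933457) (nat_lit 8) leaf) (nat_lit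 3344307934213) (nat_lit 2) leaf)) (nat_lit 3344308397329) (nat_lit 4) (node (node (node leaf (nat_lit 3344308397332) (nat_lit 14) leaf) (nat_lit 3344308409413) (nat_lit 2) leaf) (nat_lit 3344308409617) (nat_lit 0) (node leaf (nat_lit 3344308409620) (nat_lit 4) leaf)))) (nat_lit 3344308409668) (nat_lit 2) (node (node (node (node (node leaf (nat_lit 3344308439365) (nat_lit 16) leaf) (nat_lit 3344308441681) (nat_lit 0) leaf) (nat_lit 3344308453969) (nat_lit 16) (node (node leaf (nat_lit 3344308520017) (nat_lit 10) leaf) (nat_lit 3344308523077) (nat_lit 2) leaf)) (nat_lit 3344308523269) (nat_lit 2) (node (node (node leaf (nat_lit 3344308634773) (nat_lit 10) leaf) (nat_lit 3344308635985) (nat_lit 0) leaf) (nat_lit 3344308638289) (nat_lit 12) (node (node leaf (nat_lit 3344308643089) (nat_lit 0) leaf) (nat_lit 3344308913221) (nat_lit 10) leaf))) (nat_lit 3344308916245) (nat_lit 4) (node (node (node (node leaf (nat_lit 3344309506117) (nat_lit 2) leaf) (nat_lit 3344309506129) (nat_lit 16) leaf) (nat_lit 3344309702725) (nat_lit 2) (node (node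 leaf (nat_lit 3344312833093) (nat_lit 2) leaf) (nat_lit 3344312833285) (nat_lit 2) leaf)) (nat_lit 3344321024596) (nat_lit 20) (node (node (node leaf (nat_lit 3344321218897) (nat_lit 20) leaf) (nat_lit 3344324167252) (nat_lit 10) leaf) (nat_lit 3344324169877) (nat_lit 12) (node leaf (nat_lit 3344324174164) (nat_lit 8) leaf)))))

noncomputable def L0_40 : Tr := node L0_38 (nat_lit 3344274032980) (nat_lit 18) L0_39

noncomputable def L0_41 : Tr := (node (node (node (node (node (node leaf (nat_lit 3344324364625) (nat_lit 18) leaf) (nat_lit 3344324364628) (nat_lit 18) leaf) (nat_lit 3344324366485) (nat_lit 18) (node (node leaf (nat_lit 3344324366869) (nat_lit 12) leaf) (nat_lit 3344324378773) (nat_lit 18) leaf)) (nat_lit 3344325152917) (nat_lit 12) (node (node (node leaf (nat_lit 3344325153301) (nat_lit 12) leaf) (nat_lit 3344325165205) (nat_lit 14) leaf) (nat_lit 3344337998149) (nat_lit 8) (node (node leaf (nat_lit 3344337998869) (nat_lit 4) leaf) (nat_lit 3344337998917) (nat_lit 6) leaf))) (nat_lit 3437761923412) (nat_lit 30) (node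 (node (node (node leaf (nat_lit 3437761927252) (nat_lit 12) leaf) (nat_lit 3437761938004) (nat_lit 14) leaf) (nat_lit 3437761986964) (nat_lit 8) (node (node leaf (nat_lit 3437761987657) (nat_lit 30) leaf) (nat_lit 3437761987729) (nat_lit 0) leaf)) (nat_lit 3437762002981) (nat_lit 30) (node (node (node leaf (nat_lit 3438818892100) (nat_lit 12) leaf) (nat_lit 3438818892112) (nat_lit 12) leaf) (nat_lit 3438818903188) (nat_lit 14) (node leaf (nat_lit 3438818904340) (nat_lit 4) leaf)))) (nat_lit 3438818904388) (nat_lit 2) (node (node (node (node (node leaf (nat_lit 3438818906260) (nat_lit 14) leaf) (nat_lit 3438818951461) (nat_lit 8) leaf) (nat_lit 3438818951557) (nat_lit 8) (node (node leaf (nat_lit 3438818951749) (nat_lit 2) leaf) (nat_lit 3438818952229) (nat_lit 10) leaf)) (nat_lit 3438818952325) (nat_lit 10) (node (node (node leaf (nat_lit 3438818952340) (nat_lit 10) leaf) (nat_lit 3438818952724) (nat_lit 10) leaf) (nat_lit 3438818955301) (nat_lit 12) (node (node leaf (nat_lit 3438818955364) (nat_lit 6) leaf) (nat_lit 3438818955412)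 (nat_lit 12) leaf))) (nat_lit 3438818955526) (nat_lit 8) (node (node (node (node leaf (nat_lit 3438818955796) (nat_lit 4) leaf) (nat_lit 3438818967700) (nat_lit 5) leaf) (nat_lit 3438818967844) (nat_lit 8) (node (node leaf (nat_lit 3438818968582) (nat_lit 2) leaf) (nat_lit 3438828409156) (nat_lit 19) leaf)) (nat_lit 3438828409168) (nat_lit 19) (node (node (node leaf (nat_lit 3438830768452) (nat_lit 17) leaf) (nat_lit 3438830768464) (nat_lit 17) leaf) (nat_lit 3438831232324) (nat_lit 2) (node leaf (nat_lit 3438831232336) (nat_lit 14) leaf)))))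

noncomputable def L0_42 : Tr := (node (node (node (node (node (node leaf (nat_lit 3438831244612) (nat_lit 2) leaf) (nat_lit 3438831281476) (nat_lit 2) leaf) (nat_lit 3438831281488) (nat_lit 16) (node (node leaf (nat_lit 3438831288916) (nat_lit 16) leaf) (nat_lit 3438831306052) (nat_lit 16) leaf)) (nat_lit 3438831306064) (nat_lit 16) (node (node (node leaf (nat_lit 3438831358225) (nat_lit 0) leaf) (nat_lit 3438831358276) (nat_lit 2) leaf) (nat_lit 3438831358288) (nat_lit 8) (node (node leaf (nat_lit 3438831358993) (nat_lit 0) leaf) (nat_lit 3438831359044) (nat_lit 2) leaf))) (nat_lit 3438831470932) (nat_lit 9) (node (node (node (node leaf (nat_lit 3438831473236) (nat_lit 12) leaf) (nat_lit 3438831474196) (nat_lit 12) leaf) (nat_lit 3438831474769) (nat_lit 0) (node (node leaf (nat_lit 3438831478084) (nat_lit 2) leaf) (nat_lit 3438831478096) (nat_lit 11) leaf)) (nat_lit 3438831485332) (nat_lit 14) (node (node (node leaf (nat_lit 3438831485524) (nat_lit 7) leaf) (nat_lit 3438831486100) (nat_lit 14) leaf) (nat_lit 3438831487060) (nat_lit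 6) (node leaf (nat_lit 3438831487252) (nat_lit 4) leaf)))) (nat_lit 3438831487312) (nat_lit 14) (node (node (node (node (node leaf (nat_lit 3438831489061) (nat_lit 14) leaf) (nat_lit 3438831534229) (nat_lit 5) leaf) (nat_lit 3438831534373) (nat_lit 8) (node (node leaf (nat_lit 3438831534484) (nat_lit 8) leaf) (nat_lit 3438831534676) (nat_lit 7) leaf)) (nat_lit 3438831535141) (nat_lit 10) (node (node (node leaf (nat_lit 3438831535237) (nat_lit 10) leaf) (nat_lit 3438831535252) (nat_lit 10) leaf) (nat_lit 3438831535636) (nat_lit 10) (node (node leaf (nat_lit 3438831536404) (nat_lit 4) leaf) (nat_lit 3438831538213) (nat_lit 12) leaf))) (nat_lit 3438831538309) (nat_lit 12) (node (node (node (node leaf (nat_lit 3438831538324) (nat_lit 12) leaf) (nat_lit 3438831538708) (nat_lit 12) leaf) (nat_lit 3438831550489) (nat_lit 4) (node (node leaf (nat_lit 3438831550501) (nat_lit 3) leaf) (nat_lit 3438831550537) (nat_lit 6) leaf)) (nat_lit 3438831550561) (nat_lit 6) (node (node (node leaf (nat_lit 3438831550597) (nat_lit 2) leaf) (nat_lit 3438831550612)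 (nat_lit 5) leaf) (nat_lit 3438831550729) (nat_lit 1) (node leaf (nat_lit 3438831550738) (nat_lit 8) leaf)))))

noncomputable def L0_43 : Tr := node L0_41 (nat_lit 3438831244564) (nat_lit 4) L0_42

noncomputable def L0_44 : Tr := node L0_40 (nat_lit 3344324363797) (nat_lit 10) L0_43

noncomputable def L0_45 : Tr := node L0_37 (nat_lit 3344261252689) (nat_lit 10) L0_44

noncomputable def L0_46 : Tr := (node (node (node (node (node (node leaf (nat_lit 3438831551494) (nat_lit 2) leaf) (nat_lit 3438831751429) (nat_lit 2) leaf) (nat_lit 3438831751441) (nat_lit 8) (node (node leaf (nat_lit 3438831751444) (nat_lit 4) leaf) (nat_lit 3438831751489) (nat_lit 0) leaf)) (nat_lit 3438831751492) (nat_lit 2) (node (node (node leaf (nat_lit 3438832341268) (nat_lit 4) leaf) (nat_lit 3438832341313) (nat_lit 0) leaf) (nat_lit 3438832341316) (nat_lit 2) (node (node leaf (nat_lit 3438834700564) (nat_lit 4) leaf) (nat_lit 3438834700609) (nat_lit 0) leaf))) (nat_lit 3438834700612) (nat_lit 2) (node (node (node (node leaf (nat_lit 3438835668244) (nat_lit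 4) leaf) (nat_lit 3438835668289) (nat_lit 0) leaf) (nat_lit 3438835680532) (nat_lit 4) (node (node leaf (nat_lit 3438835680577) (nat_lit 0) leaf) (nat_lit 3440983148881) (nat_lit 0) leaf)) (nat_lit 3440983216165) (nat_lit 12) (node (node (node leaf (nat_lit 3445009680724) (nat_lit 28) leaf) (nat_lit 3445009684564) (nat_lit 28) leaf) (nat_lit 3445009695316) (nat_lit 28) (node leaf (nat_lit 3445009744276) (nat_lit 28) leaf)))) (nat_lit 3445009744969) (nat_lit 28) (node (node (node (node (node leaf (nat_lit 3445009760293) (nat_lit 28) leaf) (nat_lit 3445261341844) (nat_lit 12) leaf) (nat_lit 3445261342996) (nat_lit 4) (node (node leaf (nat_lit 3445261343044) (nat_lit 12) leaf) (nat_lit 3445261353364) (nat_lit 8) leaf)) (nat_lit 3445261354132) (nat_lit 14) (node (node (node leaf (nat_lit 3445261402213) (nat_lit 6) leaf) (nat_lit 3445261402261) (nat_lit 5) leaf) (nat_lit 3445261402405) (nat_lit 8) (node (node leaf (nat_lit 3445261402501) (nat_lit 8) leaf) (nat_lit 3445261402645) (nat_lit 4) leaf))) (nat_lit 3445261402708) (nat_lit 7)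 (node (node (node (node leaf (nat_lit 3445261403173) (nat_lit 10) leaf) (nat_lit 3445261403284) (nat_lit 10) leaf) (nat_lit 3445261403668) (nat_lit 10) (node (node leaf (nat_lit 3445261406356) (nat_lit 12) leaf) (nat_lit 3445270860052) (nat_lit 19) leaf)) (nat_lit 3445270860100) (nat_lit 19) (node (node (node leaf (nat_lit 3445273219348) (nat_lit 17) leaf) (nat_lit 3445273219396) (nat_lit 17) leaf) (nat_lit 3445273683220) (nat_lit 4) (node leaf (nat_lit 3445273683265) (nat_lit 0) leaf)))))

noncomputable def L0_47 : Tr := (node (node (node (node (node (node leaf (nat_lit 3445273683280) (nat_lit 14) leaf) (nat_lit 3445273695316) (nat_lit 6) leaf) (nat_lit 3445273695505) (nat_lit 0) (node (node leaf (nat_lit 3445273695508) (nat_lit 4) leaf) (nat_lit 3445273695556) (nat_lit 13) leaf)) (nat_lit 3445273695568) (nat_lit 13) (node (node (node leaf (nat_lit 3445273725268) (nat_lit 16) leaf) (nat_lit 3445273727572) (nat_lit 16) leaf) (nat_lit 3445273732417) (nat_lit 0) (node (node leaf (nat_lit 3445273732420) (nat_lit 2) leaf) (nat_lit 3445273732432)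 (nat_lit 16) leaf))) (nat_lit 3445273756996) (nat_lit 2) (node (node (node (node leaf (nat_lit 3445273809157) (nat_lit 2) leaf) (nat_lit 3445273809169) (nat_lit 8) leaf) (nat_lit 3445273809172) (nat_lit 4) (node (node leaf (nat_lit 3445273809217) (nat_lit 0) leaf) (nat_lit 3445273809220) (nat_lit 8) leaf)) (nat_lit 3445273809925) (nat_lit 2) (node (node (node leaf (nat_lit 3445273809940) (nat_lit 4) leaf) (nat_lit 3445273809985) (nat_lit 0) leaf) (nat_lit 3445273921873) (nat_lit 0) (node leaf (nat_lit 3445273924180) (nat_lit 12) leaf)))) (nat_lit 3445273925716) (nat_lit 12) (node (node (node (node (node leaf (nat_lit 3445273929028) (nat_lit 2) leaf) (nat_lit 3445273936021) (nat_lit 14) leaf) (nat_lit 3445273936276) (nat_lit 14) (node (node leaf (nat_lit 3445273936465) (nat_lit 0) leaf) (nat_lit 3445273936468) (nat_lit 14) leaf)) (nat_lit 3445273936933) (nat_lit 10) (node (node (node leaf (nat_lit 3445273938004) (nat_lit 6) leaf) (nat_lit 3445273985413) (nat_lit 8) leaf) (nat_lit 3445273985428) (nat_lit 8) (node (node leaf (nat_lit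 3445273985620) (nat_lit 7) leaf) (nat_lit 3445273986085) (nat_lit 10) leaf))) (nat_lit 3445273986181) (nat_lit 10) (node (node (node (node leaf (nat_lit 3445273986196) (nat_lit 10) leaf) (nat_lit 3445273986580) (nat_lit 10) leaf) (nat_lit 3445273987156) (nat_lit 6) (node (node leaf (nat_lit 3445273989157) (nat_lit 12) leaf) (nat_lit 3445273989253) (nat_lit 12) leaf)) (nat_lit 3445273989268) (nat_lit 12) (node (node (node leaf (nat_lit 3445274001445) (nat_lit 3) leaf) (nat_lit 3445274001481) (nat_lit 6) leaf) (nat_lit 3445274199301) (nat_lit 10) (node leaf (nat_lit 3445274202181) (nat_lit 6) leaf)))))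

noncomputable def L0_48 : Tr := node L0_46 (nat_lit 3445273683268) (nat_lit 14) L0_47

noncomputable def L0_49 : Tr := (node (node (node (node (node (node leaf (nat_lit 3445274202385) (nat_lit 0) leaf) (nat_lit 3445274202388) (nat_lit 4) leaf) (nat_lit 3445274202433) (nat_lit 0) (node (node leaf (nat_lit 3445274792209) (nat_lit 0) leaf) (nat_lit 3445274792212) (nat_lit 4) leaf)) (nat_lit 3445274792257) (nat_lit 0) (node (node (node leaf (nat_lit 3445277151505) (nat_lit 0) leaf) (nat_lit 3445277151508) (nat_lit 4) leaf) (nat_lit 3445277151553) (nat_lit 0) (node (node leaf (nat_lit 3445278119185) (nat_lit 0) leaf) (nat_lit 3445278119188) (nat_lit 12) leaf))) (nat_lit 3445278131473) (nat_lit 0) (node (node (node (node leaf (nat_lit 3445814987089) (nat_lit 0) leaf) (nat_lit 3445814987092) (nat_lit 9) leaf) (nat_lit 3445814989396) (nat_lit 12) (node (node leaf (nat_lit 3445815050569) (nat_lit 8) leaf) (nat_lit 3445815050641) (nat_lit 0) leaf)) (nat_lit 3445815054373) (nat_lit 12) (node (node (node leaf (nat_lit 3446871951700) (nat_lit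 25) leaf) (nat_lit 3446871953812) (nat_lit 12) leaf) (nat_lit 3446871954004) (nat_lit 25) (node leaf (nat_lit 3446871955729) (nat_lit 0) leaf)))) (nat_lit 3446871955732) (nat_lit 4) (node (node (node (node (node leaf (nat_lit 3446871955777) (nat_lit 0) leaf) (nat_lit 3446871965845) (nat_lit 14) leaf) (nat_lit 3446871966100) (nat_lit 25) (node (node leaf (nat_lit 3446871966229) (nat_lit 14) leaf) (nat_lit 3446871966292) (nat_lit 14) leaf)) (nat_lit 3446872014997) (nat_lit 5) (node (node (node leaf (nat_lit 3446872015141) (nat_lit 8) leaf) (nat_lit 3446872015441) (nat_lit 0) leaf) (nat_lit 3446872015444) (nat_lit 7) (node (node leaf (nat_lit 3446872016020) (nat_lit 10) leaf) (nat_lit 3446881472785) (nat_lit 19) leaf))) (nat_lit 3446881472833) (nat_lit 19) (node (node (node (node leaf (nat_lit 3446883832081) (nat_lit 17) leaf) (nat_lit 3446883832129) (nat_lit 17) leaf) (nat_lit 3446884291156) (nat_lit 14) (node (node leaf (nat_lit 3446884295953) (nat_lit 0) leaf) (nat_lit 3446884296001) (nat_lit 0) leaf)) (nat_lit 3446884296004) (nat_lit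 14) (node (node (node leaf (nat_lit 3446884308049) (nat_lit 0) leaf) (nat_lit 3446884308052) (nat_lit 6) leaf) (nat_lit 3446884308241) (nat_lit 0) (node leaf (nat_lit 3446884308244) (nat_lit 4) leaf)))))

noncomputable def L0_50 : Tr := (node (node (node (node (node (node leaf (nat_lit 3446884338001) (nat_lit 16) leaf) (nat_lit 3446884340308) (nat_lit 16) leaf) (nat_lit 3446884345108) (nat_lit 4) (node (node leaf (nat_lit 3446884352596) (nat_lit 16) leaf) (nat_lit 3446884418821) (nat_lit 10) leaf)) (nat_lit 3446884421701) (nat_lit 6) (node (node (node leaf (nat_lit 3446884421713) (nat_lit 6) leaf) (nat_lit 3446884421893) (nat_lit 2) leaf) (nat_lit 3446884421905) (nat_lit 4) (node (node leaf (nat_lit 3446884421953) (nat_lit 8) leaf) (nat_lit 3446884422673) (nat_lit 4) leaf))) (nat_lit 3446884533844) (nat_lit 10) (node (node (node (node leaf (nat_lit 3446884534597) (nat_lit 2) leaf) (nat_lit 3446884534612) (nat_lit 9) leaf) (nat_lit 3446884536469) (nat_lit 12) (node (node leaf (nat_lit 3446884536913) (nat_lit 0) leaf) (nat_lit 3446884536916)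 (nat_lit 12) leaf)) (nat_lit 3446884537381) (nat_lit 12) (node (node (node leaf (nat_lit 3446884538452) (nat_lit 12) leaf) (nat_lit 3446884541716) (nat_lit 4) leaf) (nat_lit 3446884541761) (nat_lit 0) (node leaf (nat_lit 3446884549201) (nat_lit 0) leaf)))) (nat_lit 3446884549204) (nat_lit 14) (node (node (node (node (node leaf (nat_lit 3446884549669) (nat_lit 14) leaf) (nat_lit 3446884549765) (nat_lit 14) leaf) (nat_lit 3446884550740) (nat_lit 14) (node (node leaf (nat_lit 3446884552741) (nat_lit 14) leaf) (nat_lit 3446884597909) (nat_lit 5) leaf)) (nat_lit 3446884598053) (nat_lit 8) (node (node (node leaf (nat_lit 3446884598149) (nat_lit 8) leaf) (nat_lit 3446884598356) (nat_lit 7) leaf) (nat_lit 3446884598821) (nat_lit 10) (node (node leaf (nat_lit 3446884598917) (nat_lit 10) leaf) (nat_lit 3446884598932) (nat_lit 10) leaf))) (nat_lit 3446884601893) (nat_lit 12) (node (node (node (node leaf (nat_lit 3446884811845) (nat_lit 10) leaf) (nat_lit 3446884812037) (nat_lit 10) leaf) (nat_lit 3446884814917) (nat_lit 6) (node (node leaf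 (nat_lit 3446884814929) (nat_lit 6) leaf) (nat_lit 3446884815109) (nat_lit 2) leaf)) (nat_lit 3446884815121) (nat_lit 4) (node (node (node leaf (nat_lit 3446885404753) (nat_lit 6) leaf) (nat_lit 3446885404933) (nat_lit 2) leaf) (nat_lit 3446885404945) (nat_lit 4) (node leaf (nat_lit 3446887764049) (nat_lit 6) leaf)))))

noncomputable def L0_51 : Tr := node L0_49 (nat_lit 3446884308292) (nat_lit 2) L0_50

noncomputable def L0_52 : Tr := node L0_48 (nat_lit 3445274202373) (nat_lit 2) L0_51

noncomputable def L0_53 : Tr := (node (node (node (node (node (node leaf (nat_lit 3446887764241) (nat_lit 4) leaf) (nat_lit 3446888731729) (nat_lit 6) leaf) (nat_lit 3446888731909) (nat_lit 2) (node (node leaf (nat_lit 3446888731921) (nat_lit 0) leaf) (nat_lit 3447022946641) (nat_lit 0) leaf)) (nat_lit 3447022946644) (nat_lit 9) (node (node (node leaf (nat_lit 3447022948948) (nat_lit 12) leaf) (nat_lit 3447022961044) (nat_lit 14) leaf) (nat_lit 3447023010121) (nat_lit 8) (node (node leaf (nat_lit 3447023010193) (nat_lit 0) leaf) (nat_lit 3447023013925)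 (nat_lit 12) leaf))) (nat_lit 3447123609172) (nat_lit 10) (node (node (node (node leaf (nat_lit 3447274604116) (nat_lit 10) leaf) (nat_lit 3447274604881) (nat_lit 0) leaf) (nat_lit 3447274606741) (nat_lit 12) (node (node leaf (nat_lit 3447274607125) (nat_lit 12) leaf) (nat_lit 3447274619029) (nat_lit 14) leaf)) (nat_lit 3447284125957) (nat_lit 19) (node (node (node leaf (nat_lit 3447284125969) (nat_lit 19) leaf) (nat_lit 3447286174804) (nat_lit 18) leaf) (nat_lit 3447286481989) (nat_lit 17) (node leaf (nat_lit 3447286485253) (nat_lit 17) leaf)))) (nat_lit 3447286485265) (nat_lit 17) (node (node (node (node (node leaf (nat_lit 3447286941268) (nat_lit 10) leaf) (nat_lit 3447286944337) (nat_lit 0) leaf) (nat_lit 3447286948945) (nat_lit 6) (node (node leaf (nat_lit 3447286949125) (nat_lit 2) leaf) (nat_lit 3447286949137) (nat_lit 4) leaf)) (nat_lit 3447286949140) (nat_lit 14) (node (node (node leaf (nat_lit 3447286961221) (nat_lit 2) leaf) (nat_lit 3447286961233) (nat_lit 0) leaf) (nat_lit 3447286961425) (nat_lit 0) (node (node leaf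 (nat_lit 3447286961428) (nat_lit 4) leaf) (nat_lit 3447286961476) (nat_lit 23) leaf))) (nat_lit 3447286991173) (nat_lit 16) (node (node (node (node leaf (nat_lit 3447286993045) (nat_lit 16) leaf) (nat_lit 3447286993489) (nat_lit 23) leaf) (nat_lit 3447287005777) (nat_lit 16) (node (node leaf (nat_lit 3447287071813) (nat_lit 10) leaf) (nat_lit 3447287071825) (nat_lit 10) leaf)) (nat_lit 3447287074885) (nat_lit 2) (node (node (node leaf (nat_lit 3447287074897) (nat_lit 6) leaf) (nat_lit 3447287075077) (nat_lit 2) leaf) (nat_lit 3447287075089) (nat_lit 8) (node leaf (nat_lit 3447287075845) (nat_lit 2) leaf)))))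

noncomputable def L0_54 : Tr := (node (node (node (node (node (node leaf (nat_lit 3447287187793) (nat_lit 23) leaf) (nat_lit 3447287190097) (nat_lit 12) leaf) (nat_lit 3447287194897) (nat_lit 0) (node (node leaf (nat_lit 3447287202385) (nat_lit 23) leaf) (nat_lit 3447287464981) (nat_lit 4) leaf)) (nat_lit 3447287465029) (nat_lit 10) (node (node (node leaf (nat_lit 3447287468053) (nat_lit 4) leaf) (nat_lit 3447287468101) (nat_lit 6) leaf) (nat_lit 3447287468293) (nat_lit 2) (node (node leaf (nat_lit 3447288057925) (nat_lit 6) leaf) (nat_lit 3447288057937) (nat_lit 6) leaf))) (nat_lit 3447288058117) (nat_lit 2) (node (node (node (node leaf (nat_lit 3447290417221) (nat_lit 6) leaf) (nat_lit 3447290417413) (nat_lit 2) leaf) (nat_lit 3447291384901) (nat_lit 6) (node (node leaf (nat_lit 3447291385093) (nat_lit 2) leaf) (nat_lit 3447321564484) (nat_lit 22) leaf)) (nat_lit 3447321608485) (nat_lit 22) (node (node (node leaf (nat_lit 3447321608521) (nat_lit 22) leaf) (nat_lit 3447321608593) (nat_lit 22) leaf) (nat_lit 3447321609253) (nat_lit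 22) (node leaf (nat_lit 3447321804949) (nat_lit 22) leaf)))) (nat_lit 3447321805861) (nat_lit 22) (node (node (node (node (node leaf (nat_lit 3447321805957) (nat_lit 22) leaf) (nat_lit 3447321854101) (nat_lit 22) leaf) (nat_lit 3447321855013) (nat_lit 22) (node (node leaf (nat_lit 3447324710212) (nat_lit 21) leaf) (nat_lit 3447324742225) (nat_lit 21) leaf)) (nat_lit 3447324754309) (nat_lit 21) (node (node (node leaf (nat_lit 3447324936529) (nat_lit 21) leaf) (nat_lit 3447324940369) (nat_lit 21) leaf) (nat_lit 3447324950629) (nat_lit 21) (node (node leaf (nat_lit 3447324951121) (nat_lit 21) leaf) (nat_lit 3447332087380) (nat_lit 16) leaf))) (nat_lit 3447332111953) (nat_lit 0) (node (node (node (node leaf (nat_lit 3447332111956) (nat_lit 16) leaf) (nat_lit 3447332114725) (nat_lit 16) leaf) (nat_lit 3447332115589) (nat_lit 16) (node (node leaf (nat_lit 3447332115604) (nat_lit 16) leaf) (nat_lit 3447332164177) (nat_lit 7) leaf)) (nat_lit 3447332164753) (nat_lit 0) (node (node (node leaf (nat_lit 3447332164756) (nat_lit 15) leaf) (nat_lit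 3447332164870) (nat_lit 2) leaf) (nat_lit 3447332164882) (nat_lit 15) (node leaf (nat_lit 3447332164897) (nat_lit 0) leaf)))))

noncomputable def L0_55 : Tr := node L0_53 (nat_lit 3447287186581) (nat_lit 10) L0_54

noncomputable def L0_56 : Tr := (node (node (node (node (node (node leaf (nat_lit 3447332165125) (nat_lit 2) leaf) (nat_lit 3447332165137) (nat_lit 0) leaf) (nat_lit 3447332280613) (nat_lit 3) (node (node leaf (nat_lit 3447332280649) (nat_lit 12) leaf) (nat_lit 3447332283985) (nat_lit 0) leaf)) (nat_lit 3447332283988) (nat_lit 18) (node (node (node leaf (nat_lit 3447332291749) (nat_lit 14) leaf) (nat_lit 3447332292244) (nat_lit 14) leaf) (nat_lit 3447332292901) (nat_lit 14) (node (node leaf (nat_lit 3447332292997) (nat_lit 18) leaf) (nat_lit 3447332293012) (nat_lit 18) leaf))) (nat_lit 3447332293204) (nat_lit 18) (node (node (node (node leaf (nat_lit 3447332299156) (nat_lit 8) leaf) (nat_lit 3447332299348) (nat_lit 18) leaf) (nat_lit 3447332299849) (nat_lit 6) (node (node leaf (nat_lit 3447332299921) (nat_lit 0) leaf)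 (nat_lit 3447332300041) (nat_lit 14) leaf)) (nat_lit 3447332301076) (nat_lit 18) (node (node (node leaf (nat_lit 3447332301124) (nat_lit 18) leaf) (nat_lit 3447332308261) (nat_lit 10) leaf) (nat_lit 3447332308561) (nat_lit 0) (node leaf (nat_lit 3447332308564) (nat_lit 18) leaf)))) (nat_lit 3447332311333) (nat_lit 8) (node (node (node (node (node leaf (nat_lit 3447332311429) (nat_lit 8) leaf) (nat_lit 3447332311444) (nat_lit 8) leaf) (nat_lit 3447332311636) (nat_lit 18) (node (node leaf (nat_lit 3447332312101) (nat_lit 18) leaf) (nat_lit 3447332312137) (nat_lit 18) leaf)) (nat_lit 3447332312197) (nat_lit 18) (node (node (node leaf (nat_lit 3447332312212) (nat_lit 18) leaf) (nat_lit 3447332312338) (nat_lit 18) leaf) (nat_lit 3447332312356) (nat_lit 18) (node (node leaf (nat_lit 3447332313172) (nat_lit 18) leaf) (nat_lit 3447332313364) (nat_lit 18) leaf))) (nat_lit 3447332316496) (nat_lit 18) (node (node (node (node leaf (nat_lit 3447332340133) (nat_lit 8) leaf) (nat_lit 3447332340901) (nat_lit 18) leaf) (nat_lit 3447332342053) (nat_lit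 18) (node (node leaf (nat_lit 3447332342149) (nat_lit 18) leaf) (nat_lit 3447332344468) (nat_lit 18) leaf)) (nat_lit 3447332349076) (nat_lit 18) (node (node (node leaf (nat_lit 3447332373076) (nat_lit 18) leaf) (nat_lit 3447332407636) (nat_lit 18) leaf) (nat_lit 3447332409637) (nat_lit 8) (node leaf (nat_lit 3447332409748) (nat_lit 8) leaf)))))

noncomputable def L0_57 : Tr := (node (node (node (node (node (node leaf (nat_lit 3447332410393) (nat_lit 4) leaf) (nat_lit 3447332410405) (nat_lit 18) leaf) (nat_lit 3447332410441) (nat_lit 12) (node (node leaf (nat_lit 3447332410513) (nat_lit 0) leaf) (nat_lit 3447332410630) (nat_lit 2) leaf)) (nat_lit 3447332410633) (nat_lit 12) (node (node (node leaf (nat_lit 3447332410642) (nat_lit 18) leaf) (nat_lit 3447332410660) (nat_lit 18) leaf) (nat_lit 3447332411476) (nat_lit 6) (node (node leaf (nat_lit 3447332411668) (nat_lit 12) leaf) (nat_lit 3447332411716) (nat_lit 12) leaf))) (nat_lit 3447332414800) (nat_lit 11) (node (node (node (node leaf (nat_lit 3447332421781) (nat_lit 18) leaf) (nat_lit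 3447332421961) (nat_lit 8) leaf) (nat_lit 3447332422033) (nat_lit 8) (node (node leaf (nat_lit 3447332422036) (nat_lit 18) leaf) (nat_lit 3447332422228) (nat_lit 18) leaf)) (nat_lit 3447332422681) (nat_lit 4) (node (node (node leaf (nat_lit 3447332422693) (nat_lit 10) leaf) (nat_lit 3447332422729) (nat_lit 6) leaf) (nat_lit 3447332422789) (nat_lit 2) (node leaf (nat_lit 3447332422804) (nat_lit 18) leaf)))) (nat_lit 3447332423764) (nat_lit 6) (node (node (node (node (node leaf (nat_lit 3447332423953) (nat_lit 0) leaf) (nat_lit 3447332423956) (nat_lit 4) leaf) (nat_lit 3447332424001) (nat_lit 0) (node (node leaf (nat_lit 3447332424016) (nat_lit 9) leaf) (nat_lit 3447332425765) (nat_lit 18) leaf)) (nat_lit 3447332426260) (nat_lit 18) (node (node (node leaf (nat_lit 3447332426320) (nat_lit 18) leaf) (nat_lit 3447332574532) (nat_lit 13) leaf) (nat_lit 3447332574544) (nat_lit 13) (node (node leaf (nat_lit 3447332603173) (nat_lit 10) leaf) (nat_lit 3447332603461) (nat_lit 2) leaf))) (nat_lit 3447332603473) (nat_lit 0) (node (node (node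 (node leaf (nat_lit 3447332603476) (nat_lit 17) leaf) (nat_lit 3447332606245) (nat_lit 17) leaf) (nat_lit 3447332606341) (nat_lit 12) (node (node leaf (nat_lit 3447332606548) (nat_lit 17) leaf) (nat_lit 3447332607013) (nat_lit 12) leaf)) (nat_lit 3447332611396) (nat_lit 11) (node (node (node leaf (nat_lit 3447332611408) (nat_lit 11) leaf) (nat_lit 3447332618389) (nat_lit 5) leaf) (nat_lit 3447332618533) (nat_lit 8) (node leaf (nat_lit 3447332618569) (nat_lit 8) leaf)))))

noncomputable def L0_58 : Tr := node L0_56 (nat_lit 3447332409940) (nat_lit 18) L0_57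

noncomputable def L0_59 : Tr := node L0_55 (nat_lit 3447332164900) (nat_lit 15) L0_58

noncomputable def L0_60 : Tr := node L0_52 (nat_lit 3446887764229) (nat_lit 2) L0_59

noncomputable def L0_61 : Tr := node L0_45 (nat_lit 3438831550756) (nat_lit 8) L0_60

noncomputable def L0_62 : Tr := node L0_30 (nat_lit 3344255162692) (nat_lit 12) L0_61

noncomputable def L0_63 : Tr := (node (node (node (node (node (node leaf (nat_lit 3447332618641) (nat_lit 8) leaf) (nat_lit 3447332618644) (nat_lit 8) leaf) (nat_lit 3447332618836) (nat_lit 7) (node (node leaf (nat_lit 3447332619289) (nat_lit 4) leaf) (nat_lit 3447332619301) (nat_lit 17) leaf)) (nat_lit 3447332619361) (nat_lit 10) (node (node (node leaf (nat_lit 3447332619397) (nat_lit 2) leaf) (nat_lit 3447332619409) (nat_lit 0) leaf) (nat_lit 3447332619412) (nat_lit 10) (node (node leaf (nat_lit 3447332619796) (nat_lit 10) leaf) (nat_lit 3447332619856) (nat_lit 10) leaf))) (nat_lit 3447332620369) (nat_lit 0) (node (node (node (node leaf (nat_lit 3447332620372) (nat_lit 6) leaf) (nat_lit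 3447332620564) (nat_lit 4) leaf) (nat_lit 3447332620609) (nat_lit 0) (node (node leaf (nat_lit 3447332620612) (nat_lit 9) leaf) (nat_lit 3447332620624) (nat_lit 17) leaf)) (nat_lit 3447332622361) (nat_lit 4) (node (node (node leaf (nat_lit 3447332622373) (nat_lit 3) leaf) (nat_lit 3447332622409) (nat_lit 6) leaf) (nat_lit 3447332622433) (nat_lit 6) (node (node leaf (nat_lit 3447332622436) (nat_lit 6) leaf) (nat_lit 3447332622469) (nat_lit 2) leaf)))) (nat_lit 3447332622481) (nat_lit 0) (node (node (node (node (node leaf (nat_lit 3447332622484) (nat_lit 17) leaf) (nat_lit 3447332622598) (nat_lit 2) leaf) (nat_lit 3447332622601) (nat_lit 8) (node (node leaf (nat_lit 3447332622610) (nat_lit 8) leaf) (nat_lit 3447332622625) (nat_lit 0) leaf)) (nat_lit 3447332622628) (nat_lit 8) (node (node (node leaf (nat_lit 3447332622868) (nat_lit 4) leaf) (nat_lit 3447332622916) (nat_lit 2) leaf) (nat_lit 3447332623366) (nat_lit 2) (node (node leaf (nat_lit 3447332623369) (nat_lit 1) leaf) (nat_lit 3447332623378) (nat_lit 4) leaf))) (nat_lit 3447332626753)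 (nat_lit 0) (node (node (node (node leaf (nat_lit 3447332626768) (nat_lit 8) leaf) (nat_lit 3447332635969) (nat_lit 0) leaf) (nat_lit 3447332635972) (nat_lit 2) (node (node leaf (nat_lit 3447332639044) (nat_lit 8) leaf) (nat_lit 3447332639809) (nat_lit 0) leaf)) (nat_lit 3447333067348) (nat_lit 12) (node (node (node leaf (nat_lit 3447333070117) (nat_lit 3) leaf) (nat_lit 3447333070153) (nat_lit 20) leaf) (nat_lit 3447333070177) (nat_lit 20) (node leaf (nat_lit 3447333070417) (nat_lit 0) leaf)))))

noncomputable def L0_64 : Tr := (node (node (node (node (node (node leaf (nat_lit 3447333079333) (nat_lit 14) leaf) (nat_lit 3447333079369) (nat_lit 14) leaf) (nat_lit 3447333079429) (nat_lit 14) (node (node leaf (nat_lit 3447333079444) (nat_lit 20) leaf) (nat_lit 3447333079636) (nat_lit 14) leaf)) (nat_lit 3447333085333) (nat_lit 14) (node (node (node leaf (nat_lit 3447333085513) (nat_lit 20) leaf) (nat_lit 3447333085588) (nat_lit 14) leaf) (nat_lit 3447333085780) (nat_lit 14) (node (node leaf (nat_lit 3447333086356) (nat_lit 14) leaf)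 (nat_lit 3447333095764) (nat_lit 9) leaf))) (nat_lit 3447333097876) (nat_lit 8) (node (node (node (node leaf (nat_lit 3447333098068) (nat_lit 13) leaf) (nat_lit 3447333098533) (nat_lit 3) leaf) (nat_lit 3447333098569) (nat_lit 20) (node (node leaf (nat_lit 3447333098593) (nat_lit 6) leaf) (nat_lit 3447333098641) (nat_lit 0) leaf)) (nat_lit 3447333098644) (nat_lit 20) (node (node (node leaf (nat_lit 3447333098758) (nat_lit 2) leaf) (nat_lit 3447333098761) (nat_lit 20) leaf) (nat_lit 3447333098770) (nat_lit 20) (node leaf (nat_lit 3447333098785) (nat_lit 0) leaf)))) (nat_lit 3447333098788) (nat_lit 20) (node (node (node (node (node leaf (nat_lit 3447333099028) (nat_lit 20) leaf) (nat_lit 3447333099604) (nat_lit 6) leaf) (nat_lit 3447333099796) (nat_lit 4) (node (node leaf (nat_lit 3447333099844) (nat_lit 20) leaf) (nat_lit 3447333126565) (nat_lit 8) leaf)) (nat_lit 3447333126805) (nat_lit 16) (node (node (node leaf (nat_lit 3447333127333) (nat_lit 16) leaf) (nat_lit 3447333127828) (nat_lit 10) leaf) (nat_lit 3447333128341) (nat_lit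 5) (node (node leaf (nat_lit 3447333128485) (nat_lit 16) leaf) (nat_lit 3447333128521) (nat_lit 20) leaf))) (nat_lit 3447333128581) (nat_lit 20) (node (node (node (node leaf (nat_lit 3447333128596) (nat_lit 20) leaf) (nat_lit 3447333128788) (nat_lit 20) leaf) (nat_lit 3447333134485) (nat_lit 20) (node (node leaf (nat_lit 3447333134932) (nat_lit 20) leaf) (nat_lit 3447333135625) (nat_lit 16) leaf)) (nat_lit 3447333135892) (nat_lit 20) (node (node (node leaf (nat_lit 3447333193300) (nat_lit 10) leaf) (nat_lit 3447333196069) (nat_lit 8) leaf) (nat_lit 3447333196180) (nat_lit 12) (node leaf (nat_lit 3447333196372) (nat_lit 12) leaf)))))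

noncomputable def L0_65 : Tr := node L0_63 (nat_lit 3447333070420) (nat_lit 11) L0_64

noncomputable def L0_66 : Tr := (node (node (node (node (node (node leaf (nat_lit 3447333197065) (nat_lit 20) leaf) (nat_lit 3447333208213) (nat_lit 20) leaf) (nat_lit 3447333208660) (nat_lit 20) (node (node leaf (nat_lit 3447333209125) (nat_lit 10) leaf) (nat_lit 3447333209353) (nat_lit 10) leaf)) (nat_lit 3447333210448) (nat_lit 9) (node (node (node leaf (nat_lit 3447333212197) (nat_lit 20) leaf) (nat_lit 3447333212308) (nat_lit 20) leaf) (nat_lit 3447333212752) (nat_lit 20) (node (node leaf (nat_lit 3447333213208) (nat_lit 20) leaf) (nat_lit 3447333214288) (nat_lit 20) leaf))) (nat_lit 3447333323173) (nat_lit 8) (node (node (node (node leaf (nat_lit 3447333323941) (nat_lit 20) leaf) (nat_lit 3447333325093) (nat_lit 20) leaf) (nat_lit 3447333327508) (nat_lit 20) (node (node leaf (nat_lit 3447333332116) (nat_lit 20) leaf) (nat_lit 3447333458068) (nat_lit 20) leaf)) (nat_lit 3447333602452) (nat_lit 10) (node (node (node leaf (nat_lit 3447333603664)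 (nat_lit 20) leaf) (nat_lit 3447333605524) (nat_lit 20) leaf) (nat_lit 3447333606409) (nat_lit 20) (node leaf (nat_lit 3447334147393) (nat_lit 0) leaf)))) (nat_lit 3447334147396) (nat_lit 2) (node (node (node (node (node leaf (nat_lit 3447334176337) (nat_lit 0) leaf) (nat_lit 3447334176340) (nat_lit 10) leaf) (nat_lit 3447334179109) (nat_lit 12) (node (node leaf (nat_lit 3447334179409) (nat_lit 0) leaf) (nat_lit 3447334184272) (nat_lit 16) leaf)) (nat_lit 3447334191253) (nat_lit 16) (node (node (node leaf (nat_lit 3447334191385) (nat_lit 4) leaf) (nat_lit 3447334191397) (nat_lit 8) leaf) (nat_lit 3447334191493) (nat_lit 2) (node (node leaf (nat_lit 3447334191508) (nat_lit 8) leaf) (nat_lit 3447334192165) (nat_lit 16) leaf))) (nat_lit 3447334192201) (nat_lit 16) (node (node (node (node leaf (nat_lit 3447334192261) (nat_lit 16) leaf) (nat_lit 3447334192273) (nat_lit 0) leaf) (nat_lit 3447334193425) (nat_lit 0) (node (node leaf (nat_lit 3447334193473) (nat_lit 16) leaf) (nat_lit 3447334211905) (nat_lit 8) leaf)) (nat_lit 3447334373713)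 (nat_lit 0) (node (node (node leaf (nat_lit 3447334373716) (nat_lit 9) leaf) (nat_lit 3447334375717) (nat_lit 8) leaf) (nat_lit 3447334376020) (nat_lit 12) (node leaf (nat_lit 3447334377553) (nat_lit 0) leaf)))))

noncomputable def L0_67 : Tr := (node (node (node (node (node (node leaf (nat_lit 3447334377748) (nat_lit 4) leaf) (nat_lit 3447334377793) (nat_lit 0) leaf) (nat_lit 3447334387813) (nat_lit 14) (node (node leaf (nat_lit 3447334387861) (nat_lit 14) leaf) (nat_lit 3447334388005) (nat_lit 8) leaf)) (nat_lit 3447334388101) (nat_lit 8) (node (node (node leaf (nat_lit 3447334388116) (nat_lit 14) leaf) (nat_lit 3447334388305) (nat_lit 0) leaf) (nat_lit 3447334388308) (nat_lit 14) (node (node leaf (nat_lit 3447334388773) (nat_lit 14) leaf) (nat_lit 3447334389841) (nat_lit 0) leaf))) (nat_lit 3447334390033) (nat_lit 4) (node (node (node (node leaf (nat_lit 3447334391845) (nat_lit 14) leaf) (nat_lit 3447334437013) (nat_lit 5) leaf) (nat_lit 3447334437157) (nat_lit 8) (node (node leaf (nat_lit 3447334437193) (nat_lit 8) leaf) (nat_lit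 3447334437253) (nat_lit 8) leaf)) (nat_lit 3447334437265) (nat_lit 0) (node (node (node leaf (nat_lit 3447334437457) (nat_lit 0) leaf) (nat_lit 3447334437460) (nat_lit 7) leaf) (nat_lit 3447334437913) (nat_lit 4) (node leaf (nat_lit 3447334437925) (nat_lit 10) leaf)))) (nat_lit 3447334438021) (nat_lit 2) (node (node (node (node (node leaf (nat_lit 3447334438036) (nat_lit 19) leaf) (nat_lit 3447334440997) (nat_lit 12) leaf) (nat_lit 3447336215833) (nat_lit 4) (node (node leaf (nat_lit 3447336215845) (nat_lit 3) leaf) (nat_lit 3447336215878) (nat_lit 2) leaf)) (nat_lit 3447336215881) (nat_lit 11) (node (node (node leaf (nat_lit 3447336215905) (nat_lit 0) leaf) (nat_lit 3447336215941) (nat_lit 2) leaf) (nat_lit 3447336225097) (nat_lit 14) (node (node leaf (nat_lit 3447336225172) (nat_lit 14) leaf) (nat_lit 3447336225364) (nat_lit 14) leaf))) (nat_lit 3447336231061) (nat_lit 14) (node (node (node (node leaf (nat_lit 3447336231241) (nat_lit 14) leaf) (nat_lit 3447336231508) (nat_lit 14) leaf) (nat_lit 3447336231973) (nat_lit 14) (node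 (node leaf (nat_lit 3447336243796) (nat_lit 7) leaf) (nat_lit 3447336244324) (nat_lit 6) leaf)) (nat_lit 3447336244372) (nat_lit 13) (node (node (node leaf (nat_lit 3447336244486) (nat_lit 2) leaf) (nat_lit 3447336244489) (nat_lit 13) leaf) (nat_lit 3447336244756) (nat_lit 4) (node leaf (nat_lit 3447336272533) (nat_lit 16) leaf)))))

noncomputable def L0_68 : Tr := node L0_66 (nat_lit 3447334377556) (nat_lit 12) L0_67

noncomputable def L0_69 : Tr := node L0_65 (nat_lit 3447333197062) (nat_lit 2) L0_68

noncomputable def L0_70 : Tr := (node (node (node (node (node (node leaf (nat_lit 3447336274069) (nat_lit 5) leaf) (nat_lit 3447336274213) (nat_lit 16) leaf) (nat_lit 3447336274249) (nat_lit 16) (node (node leaf (nat_lit 3447336274324) (nat_lit 9) leaf) (nat_lit 3447336274516) (nat_lit 16) leaf)) (nat_lit 3447336276628) (nat_lit 16) (node (node (node leaf (nat_lit 3447336281236) (nat_lit 16) leaf) (nat_lit 3447336281353) (nat_lit 16) leaf) (nat_lit 3447336296596) (nat_lit 16) (node (node leaf (nat_lit 3447336305812) (nat_lit 16)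 leaf) (nat_lit 3447336305929) (nat_lit 16) leaf))) (nat_lit 3447336308884) (nat_lit 16) (node (node (node (node leaf (nat_lit 3447336356176) (nat_lit 9) leaf) (nat_lit 3447336358036) (nat_lit 15) leaf) (nat_lit 3447336358276) (nat_lit 8) (node (node leaf (nat_lit 3447336358480) (nat_lit 15) leaf) (nat_lit 3447336358921) (nat_lit 1) leaf)) (nat_lit 3447336358930) (nat_lit 15) (node (node (node leaf (nat_lit 3447336358948) (nat_lit 15) leaf) (nat_lit 3447336468901) (nat_lit 8) leaf) (nat_lit 3447336469669) (nat_lit 18) (node leaf (nat_lit 3447336470164) (nat_lit 10) leaf)))) (nat_lit 3447336470821) (nat_lit 18) (node (node (node (node (node leaf (nat_lit 3447336473236) (nat_lit 18) leaf) (nat_lit 3447336474772) (nat_lit 12) leaf) (nat_lit 3447336476965) (nat_lit 18) (node (node leaf (nat_lit 3447336477844) (nat_lit 11) leaf) (nat_lit 3447336477961) (nat_lit 18) leaf)) (nat_lit 3447336485524) (nat_lit 18) (node (node (node leaf (nat_lit 3447336487060) (nat_lit 18) leaf) (nat_lit 3447336505492) (nat_lit 18) leaf) (nat_lit 3447336505936)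 (nat_lit 18) (node (node leaf (nat_lit 3447336506386) (nat_lit 18) leaf) (nat_lit 3447336506404) (nat_lit 18) leaf))) (nat_lit 3447336604678) (nat_lit 2) (node (node (node (node leaf (nat_lit 3447336751252) (nat_lit 14) leaf) (nat_lit 3447336797332) (nat_lit 10) leaf) (nat_lit 3447337255333) (nat_lit 8) (node (node leaf (nat_lit 3447337256101) (nat_lit 10) leaf) (nat_lit 3447337256596) (nat_lit 10) leaf)) (nat_lit 3447337257253) (nat_lit 9) (node (node (node leaf (nat_lit 3447337259557) (nat_lit 12) leaf) (nat_lit 3447337261204) (nat_lit 12) leaf) (nat_lit 3447337261648) (nat_lit 12) (node leaf (nat_lit 3447337271461) (nat_lit 14) leaf)))))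

noncomputable def L0_71 : Tr := (node (node (node (node (node (node leaf (nat_lit 3447337292806) (nat_lit 2) leaf) (nat_lit 3447340438849) (nat_lit 0) leaf) (nat_lit 3447340467493) (nat_lit 10) (node (node leaf (nat_lit 3447340467781) (nat_lit 2) leaf) (nat_lit 3447340467793) (nat_lit 10) leaf)) (nat_lit 3447340470373) (nat_lit 6) (node (node (node leaf (nat_lit 3447340470853) (nat_lit 2) leaf) (nat_lit 3447340472641) (nat_lit 16) leaf) (nat_lit 3447340475716) (nat_lit 2) (node (node leaf (nat_lit 3447340482661) (nat_lit 16) leaf) (nat_lit 3447340482709) (nat_lit 5) leaf))) (nat_lit 3447340482853) (nat_lit 16) (node (node (node (node leaf (nat_lit 3447340483621) (nat_lit 16) leaf) (nat_lit 3447340484689) (nat_lit 16) leaf) (nat_lit 3447340500289) (nat_lit 10) (node (node leaf (nat_lit 3447340665169) (nat_lit 9) leaf) (nat_lit 3447340666981) (nat_lit 12) leaf)) (nat_lit 3447340667284) (nat_lit 12) (node (node (node leaf (nat_lit 3447340667473) (nat_lit 12) leaf) (nat_lit 3447340669009) (nat_lit 12) leaf) (nat_lit 3447340669012)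 (nat_lit 6) (node leaf (nat_lit 3447340679317) (nat_lit 5) leaf)))) (nat_lit 3447340679461) (nat_lit 8) (node (node (node (node (node leaf (nat_lit 3447340679569) (nat_lit 0) leaf) (nat_lit 3447340679761) (nat_lit 14) leaf) (nat_lit 3447340679764) (nat_lit 14) (node (node leaf (nat_lit 3447340681297) (nat_lit 6) leaf) (nat_lit 3447340728469) (nat_lit 5) leaf)) (nat_lit 3447340728613) (nat_lit 8) (node (node (node leaf (nat_lit 3447340728709) (nat_lit 8) leaf) (nat_lit 3447340729381) (nat_lit 10) leaf) (nat_lit 3447349876033) (nat_lit 0) (node (node leaf (nat_lit 3447349904977) (nat_lit 10) leaf) (nat_lit 3447349919845) (nat_lit 16) leaf))) (nat_lit 3447349919893) (nat_lit 5) (node (node (node (node leaf (nat_lit 3447349920037) (nat_lit 20) leaf) (nat_lit 3447350102341) (nat_lit 2) leaf) (nat_lit 3447350102353) (nat_lit 9) (node (node leaf (nat_lit 3447350104165) (nat_lit 12) leaf) (nat_lit 3447350104657) (nat_lit 12) leaf)) (nat_lit 3447350116501) (nat_lit 20) (node (node (node leaf (nat_lit 3447353021761) (nat_lit 0) leaf) (nat_lit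 3447353053477) (nat_lit 12) leaf) (nat_lit 3447353065621) (nat_lit 16) (node leaf (nat_lit 3447353065753) (nat_lit 4) leaf)))))

noncomputable def L0_72 : Tr := node L0_70 (nat_lit 3447337271956) (nat_lit 14) L0_71

noncomputable def L0_73 : Tr := (node (node (node (node (node (node leaf (nat_lit 3447353065861) (nat_lit 2) leaf) (nat_lit 3447353066533) (nat_lit 16) leaf) (nat_lit 3447353066629) (nat_lit 16) (node (node leaf (nat_lit 3447353248081) (nat_lit 18) leaf) (nat_lit 3447353248084) (nat_lit 18) leaf)) (nat_lit 3447353262229) (nat_lit 14) (node (node (node leaf (nat_lit 3447353263141) (nat_lit 14) leaf) (nat_lit 3447353311381) (nat_lit 18) leaf) (nat_lit 3447354034513) (nat_lit 0) (node (node leaf (nat_lit 3447354048661) (nat_lit 14) leaf) (nat_lit 3447386838097) (nat_lit 0) leaf))) (nat_lit 3447387145237) (nat_lit 4) (node (node (node (node leaf (nat_lit 3447387148357) (nat_lit 6) leaf) (nat_lit 3447387148369) (nat_lit 6) leaf) (nat_lit 3447387148549) (nat_lit 2) (node (node leaf (nat_lit 3447387605317) (nat_lit 14) leaf)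 (nat_lit 3447387607633) (nat_lit 14) leaf)) (nat_lit 3447387612241) (nat_lit 6) (node (node (node leaf (nat_lit 3447387612421) (nat_lit 2) leaf) (nat_lit 3447387612433) (nat_lit 0) leaf) (nat_lit 3447387623749) (nat_lit 8) (node leaf (nat_lit 3447387624469) (nat_lit 4) leaf)))) (nat_lit 3447387624529) (nat_lit 6) (node (node (node (node (node leaf (nat_lit 3447387624721) (nat_lit 0) leaf) (nat_lit 3447387624769) (nat_lit 0) leaf) (nat_lit 3447387653269) (nat_lit 16) (node (node leaf (nat_lit 3447387653713) (nat_lit 10) leaf) (nat_lit 3447387654421) (nat_lit 4) leaf)) (nat_lit 3447387656785) (nat_lit 12) (node (node (node leaf (nat_lit 3447387735109) (nat_lit 2) leaf) (nat_lit 3447387738181) (nat_lit 6) leaf) (nat_lit 3447387851077) (nat_lit 2) (node (node leaf (nat_lit 3447387851089) (nat_lit 22) leaf) (nat_lit 3447387858181) (nat_lit 2) leaf))) (nat_lit 3447388128277) (nat_lit 4) (node (node (node (node leaf (nat_lit 3447388721173) (nat_lit 4) leaf) (nat_lit 3447388721221) (nat_lit 2) leaf) (nat_lit 3447392047429) (nat_lit 8) (node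 (node leaf (nat_lit 3447392048149) (nat_lit 4) leaf) (nat_lit 3447392048197) (nat_lit 6) leaf)) (nat_lit 3447400236628) (nat_lit 20) (node (node (node leaf (nat_lit 3447400239253) (nat_lit 20) leaf) (nat_lit 3447400434001) (nat_lit 20) leaf) (nat_lit 3447403383121) (nat_lit 16) (node leaf (nat_lit 3447403383124) (nat_lit 16) leaf)))))

noncomputable def L0_74 : Tr := (node (node (node (node (node (node leaf (nat_lit 3447403389265) (nat_lit 0) leaf) (nat_lit 3447403577941) (nat_lit 7) leaf) (nat_lit 3447403578517) (nat_lit 10) (node (node leaf (nat_lit 3447403578901) (nat_lit 10) leaf) (nat_lit 3447403579729) (nat_lit 0) leaf)) (nat_lit 3447403581589) (nat_lit 18) (node (node (node leaf (nat_lit 3447404365333) (nat_lit 10) leaf) (nat_lit 3447404368021) (nat_lit 12) leaf) (nat_lit 3447417017365) (nat_lit 16) (node (node leaf (nat_lit 3447417213205) (nat_lit 8) leaf) (nat_lit 3447417213973) (nat_lit 4) leaf))) (nat_lit 3470779484497) (nat_lit 28) (node (node (node (node leaf (nat_lit 3470779484500) (nat_lit 28) leaf) (nat_lit 3470779486804)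 (nat_lit 28) leaf) (nat_lit 3470779547977) (nat_lit 28) (node (node leaf (nat_lit 3470779548049) (nat_lit 28) leaf) (nat_lit 3470779551781) (nat_lit 28) leaf)) (nat_lit 3471031144852) (nat_lit 8) (node (node (node leaf (nat_lit 3471031146580) (nat_lit 6) leaf) (nat_lit 3471031146769) (nat_lit 0) leaf) (nat_lit 3471031146772) (nat_lit 4) (node leaf (nat_lit 3471031156885) (nat_lit 14) leaf)))) (nat_lit 3471031157140) (nat_lit 8) (node (node (node (node (node leaf (nat_lit 3471031157269) (nat_lit 14) leaf) (nat_lit 3471031157332) (nat_lit 14) leaf) (nat_lit 3471031206037) (nat_lit 5) (node (node leaf (nat_lit 3471031206181) (nat_lit 8) leaf) (nat_lit 3471031206484) (nat_lit 7) leaf)) (nat_lit 3471031207060) (nat_lit 10) (node (node (node leaf (nat_lit 3471040663825) (nat_lit 19) leaf) (nat_lit 3471040663828) (nat_lit 19) leaf) (nat_lit 3471043023121) (nat_lit 17) (node (node leaf (nat_lit 3471043023124) (nat_lit 17) leaf) (nat_lit 3471043482196) (nat_lit 14) leaf))) (nat_lit 3471043486993) (nat_lit 0) (node (node (node (node leaf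 (nat_lit 3471043487041) (nat_lit 14) leaf) (nat_lit 3471043487044) (nat_lit 2) leaf) (nat_lit 3471043499089) (nat_lit 6) (node (node leaf (nat_lit 3471043499092) (nat_lit 6) leaf) (nat_lit 3471043499281) (nat_lit 0) leaf)) (nat_lit 3471043499284) (nat_lit 4) (node (node (node leaf (nat_lit 3471043499329) (nat_lit 0) leaf) (nat_lit 3471043499332) (nat_lit 2) leaf) (nat_lit 3471043528276) (nat_lit 10) (node leaf (nat_lit 3471043529041) (nat_lit 0) leaf)))))

noncomputable def L0_75 : Tr := node L0_73 (nat_lit 3447403384981) (nat_lit 16) L0_74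

noncomputable def L0_76 : Tr := node L0_72 (nat_lit 3447353065765) (nat_lit 8) L0_75

noncomputable def L0_77 : Tr := node L0_69 (nat_lit 3447336273445) (nat_lit 16) L0_76

noncomputable def L0_78 : Tr := (node (node (node (node (node (node leaf (nat_lit 3471043609861) (nat_lit 10) leaf) (nat_lit 3471043612741) (nat_lit 6) leaf) (nat_lit 3471043612933) (nat_lit 8) (node (node leaf (nat_lit 3471043612945) (nat_lit 4) leaf) (nat_lit 3471043612948) (nat_lit 8) leaf)) (nat_lit 3471043613713) (nat_lit 0) (node (node (node leaf (nat_lit 3471043725652) (nat_lit 9) leaf) (nat_lit 3471043727509) (nat_lit 12) leaf) (nat_lit 3471043727953) (nat_lit 12) (node (node leaf (nat_lit 3471043727956) (nat_lit 12) leaf) (nat_lit 3471043728421) (nat_lit 12) leaf))) (nat_lit 3471043729489) (nat_lit 0) (node (node (node (node leaf (nat_lit 3471043729492) (nat_lit 12) leaf) (nat_lit 3471043732756) (nat_lit 4) leaf) (nat_lit 3471043732801) (nat_lit 0) (node (node leaf (nat_lit 3471043740037) (nat_lit 14) leaf) (nat_lit 3471043740244) (nat_lit 14) leaf))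 (nat_lit 3471043740709) (nat_lit 14) (node (node (node leaf (nat_lit 3471043740805) (nat_lit 14) leaf) (nat_lit 3471043741780) (nat_lit 14) leaf) (nat_lit 3471043743781) (nat_lit 14) (node leaf (nat_lit 3471043788949) (nat_lit 5) leaf)))) (nat_lit 3471043789093) (nat_lit 8) (node (node (node (node (node leaf (nat_lit 3471043789189) (nat_lit 8) leaf) (nat_lit 3471043789396) (nat_lit 7) leaf) (nat_lit 3471043789861) (nat_lit 10) (node (node leaf (nat_lit 3471043789957) (nat_lit 10) leaf) (nat_lit 3471043789972) (nat_lit 10) leaf)) (nat_lit 3471043792933) (nat_lit 12) (node (node (node leaf (nat_lit 3471044002885) (nat_lit 6) leaf) (nat_lit 3471044003077) (nat_lit 10) leaf) (nat_lit 3471044005957) (nat_lit 6) (node (node leaf (nat_lit 3471044005969) (nat_lit 6) leaf) (nat_lit 3471044006149) (nat_lit 2) leaf))) (nat_lit 3471044006161) (nat_lit 0) (node (node (node (node leaf (nat_lit 3471044595793) (nat_lit 6) leaf) (nat_lit 3471044595973) (nat_lit 2) leaf) (nat_lit 3471044595985) (nat_lit 0) (node (node leaf (nat_lit 3471046955089)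 (nat_lit 6) leaf) (nat_lit 3471046955269) (nat_lit 2) leaf)) (nat_lit 3471046955281) (nat_lit 0) (node (node (node leaf (nat_lit 3471047922769) (nat_lit 6) leaf) (nat_lit 3471047922949) (nat_lit 2) leaf) (nat_lit 3471047922961) (nat_lit 12) (node leaf (nat_lit 3471584790100) (nat_lit 10) leaf)))))

noncomputable def L0_79 : Tr := (node (node (node (node (node (node leaf (nat_lit 3471584854297) (nat_lit 4) leaf) (nat_lit 3471584854405) (nat_lit 2) leaf) (nat_lit 3471584855077) (nat_lit 10) (node (node leaf (nat_lit 3472591423825) (nat_lit 26) leaf) (nat_lit 3472591423828) (nat_lit 26) leaf)) (nat_lit 3472641754708) (nat_lit 25) (node (node (node leaf (nat_lit 3472641757333) (nat_lit 12) leaf) (nat_lit 3472641757585) (nat_lit 0) leaf) (nat_lit 3472641757588) (nat_lit 12) (node (node leaf (nat_lit 3472641757717) (nat_lit 12) leaf) (nat_lit 3472641759313) (nat_lit 6) leaf))) (nat_lit 3472641759505) (nat_lit 0) (node (node (node (node leaf (nat_lit 3472641769621) (nat_lit 14) leaf) (nat_lit 3472641770065) (nat_lit 0) leaf) (nat_lit 3472641819217)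 (nat_lit 0) (node (node leaf (nat_lit 3472651276369) (nat_lit 19) leaf) (nat_lit 3472651276561) (nat_lit 19) leaf)) (nat_lit 3472653635665) (nat_lit 17) (node (node (node leaf (nat_lit 3472653635857) (nat_lit 17) leaf) (nat_lit 3472654091860) (nat_lit 10) leaf) (nat_lit 3472654092625) (nat_lit 14) (node leaf (nat_lit 3472654099537) (nat_lit 6) leaf)))) (nat_lit 3472654099717) (nat_lit 2) (node (node (node (node (node leaf (nat_lit 3472654099729) (nat_lit 4) leaf) (nat_lit 3472654099732) (nat_lit 4) leaf) (nat_lit 3472654099777) (nat_lit 0) (node (node leaf (nat_lit 3472654111813) (nat_lit 2) leaf) (nat_lit 3472654111825) (nat_lit 0) leaf)) (nat_lit 3472654112017) (nat_lit 0) (node (node (node leaf (nat_lit 3472654112020) (nat_lit 4) leaf) (nat_lit 3472654112065) (nat_lit 0) leaf) (nat_lit 3472654141765) (nat_lit 2) (node (node leaf (nat_lit 3472654143637) (nat_lit 16) leaf) (nat_lit 3472654144084) (nat_lit 16) leaf))) (nat_lit 3472654156837) (nat_lit 16) (node (node (node (node leaf (nat_lit 3472654222405) (nat_lit 6) leaf) (nat_lit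 3472654222597) (nat_lit 10) leaf) (nat_lit 3472654225477) (nat_lit 6) (node (node leaf (nat_lit 3472654225489) (nat_lit 6) leaf) (nat_lit 3472654225669) (nat_lit 2) leaf)) (nat_lit 3472654225681) (nat_lit 8) (node (node (node leaf (nat_lit 3472654226437) (nat_lit 2) leaf) (nat_lit 3472654337173) (nat_lit 10) leaf) (nat_lit 3472654337617) (nat_lit 10) (node leaf (nat_lit 3472654338385) (nat_lit 0) leaf)))))

noncomputable def L0_80 : Tr := node L0_78 (nat_lit 3471584790865) (nat_lit 0) L0_79

noncomputable def L0_81 : Tr := (node (node (node (node (node (node leaf (nat_lit 3472654340389) (nat_lit 8) leaf) (nat_lit 3472654340689) (nat_lit 0) leaf) (nat_lit 3472654340692) (nat_lit 12) (node (node leaf (nat_lit 3472654342228) (nat_lit 12) leaf) (nat_lit 3472654345489) (nat_lit 0) leaf)) (nat_lit 3472654352533) (nat_lit 14) (node (node (node leaf (nat_lit 3472654352677) (nat_lit 8) leaf) (nat_lit 3472654352773) (nat_lit 14) leaf) (nat_lit 3472654352977) (nat_lit 0) (node (node leaf (nat_lit 3472654352980) (nat_lit 14) leaf) (nat_lit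 3472654353445) (nat_lit 14) leaf))) (nat_lit 3472654401829) (nat_lit 8) (node (node (node (node leaf (nat_lit 3472654401925) (nat_lit 8) leaf) (nat_lit 3472654402597) (nat_lit 10) leaf) (nat_lit 3472654614853) (nat_lit 8) (node (node leaf (nat_lit 3472654615573) (nat_lit 4) leaf) (nat_lit 3472654615621) (nat_lit 10) leaf)) (nat_lit 3472654618693) (nat_lit 2) (node (node (node leaf (nat_lit 3472654618885) (nat_lit 2) leaf) (nat_lit 3472655208517) (nat_lit 2) leaf) (nat_lit 3472655208709) (nat_lit 2) (node leaf (nat_lit 3472657567813) (nat_lit 2) leaf)))) (nat_lit 3472657568005) (nat_lit 2) (node (node (node (node (node leaf (nat_lit 3472658535493) (nat_lit 2) leaf) (nat_lit 3472658535505) (nat_lit 6) leaf) (nat_lit 3472658535685) (nat_lit 2) (node (node leaf (nat_lit 3472792749652) (nat_lit 10) leaf) (nat_lit 3472792750417) (nat_lit 0) leaf)) (nat_lit 3472792813849) (nat_lit 4) (node (node (node leaf (nat_lit 3472792813957) (nat_lit 2) leaf) (nat_lit 3472792814629) (nat_lit 10) leaf) (nat_lit 3472893412945) (nat_lit 0) (node (node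 leaf (nat_lit 3473044211284) (nat_lit 16) leaf) (nat_lit 3473044213909) (nat_lit 16) leaf))) (nat_lit 3473044407445) (nat_lit 10) (node (node (node (node leaf (nat_lit 3473044407829) (nat_lit 10) leaf) (nat_lit 3473044407889) (nat_lit 0) leaf) (nat_lit 3473044408657) (nat_lit 24) (node (node leaf (nat_lit 3473044410517) (nat_lit 12) leaf) (nat_lit 3473053929541) (nat_lit 19) leaf)) (nat_lit 3473053929733) (nat_lit 19) (node (node (node leaf (nat_lit 3473055978577) (nat_lit 18) leaf) (nat_lit 3473056285717) (nat_lit 17) leaf) (nat_lit 3473056288837) (nat_lit 17) (node leaf (nat_lit 3473056289029) (nat_lit 17) leaf)))))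

noncomputable def L0_82 : Tr := (node (node (node (node (node (node leaf (nat_lit 3473056745797) (nat_lit 14) leaf) (nat_lit 3473056752709) (nat_lit 2) leaf) (nat_lit 3473056752901) (nat_lit 2) (node (node leaf (nat_lit 3473056752913) (nat_lit 0) leaf) (nat_lit 3473056764229) (nat_lit 8) leaf)) (nat_lit 3473056764949) (nat_lit 4) (node (node (node leaf (nat_lit 3473056764997) (nat_lit 2) leaf) (nat_lit 3473056765009) (nat_lit 6) leaf) (nat_lit 3473056765201) (nat_lit 0) (node (node leaf (nat_lit 3473056765249) (nat_lit 23) leaf) (nat_lit 3473056793749) (nat_lit 16) leaf))) (nat_lit 3473056794193) (nat_lit 23) (node (node (node (node leaf (nat_lit 3473056797265) (nat_lit 16) leaf) (nat_lit 3473056809109) (nat_lit 23) leaf) (nat_lit 3473056809253) (nat_lit 23) (node (node leaf (nat_lit 3473056874821) (nat_lit 8) leaf) (nat_lit 3473056875541) (nat_lit 4) leaf)) (nat_lit 3473056875589) (nat_lit 10) (node (node (node leaf (nat_lit 3473056878661) (nat_lit 2) leaf) (nat_lit 3473056878853) (nat_lit 8) leaf) (nat_lit 3473056991557) (nat_lit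 2) (node leaf (nat_lit 3473056991569) (nat_lit 23) leaf)))) (nat_lit 3473056993873) (nat_lit 12) (node (node (node (node (node leaf (nat_lit 3473056998661) (nat_lit 2) leaf) (nat_lit 3473057267989) (nat_lit 8) leaf) (nat_lit 3473057268757) (nat_lit 4) (node (node leaf (nat_lit 3473057271829) (nat_lit 4) leaf) (nat_lit 3473057271877) (nat_lit 6) leaf)) (nat_lit 3473057861653) (nat_lit 4) (node (node (node leaf (nat_lit 3473057861701) (nat_lit 6) leaf) (nat_lit 3473060220949) (nat_lit 4) leaf) (nat_lit 3473060220997) (nat_lit 6) (node (node leaf (nat_lit 3473061187909) (nat_lit 8) leaf) (nat_lit 3473061188629) (nat_lit 4) leaf))) (nat_lit 3473061188677) (nat_lit 6) (node (node (node (node leaf (nat_lit 3473091368257) (nat_lit 22) leaf) (nat_lit 3473091412117) (nat_lit 22) leaf) (nat_lit 3473091412261) (nat_lit 22) (node (node leaf (nat_lit 3473091594577) (nat_lit 22) leaf) (nat_lit 3473091594580) (nat_lit 22) leaf)) (nat_lit 3473091608725) (nat_lit 22) (node (node (node leaf (nat_lit 3473091657877) (nat_lit 22) leaf) (nat_lit 3473094513985)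 (nat_lit 21) leaf) (nat_lit 3473094542929) (nat_lit 21) (node leaf (nat_lit 3473094557797) (nat_lit 21) leaf)))))

noncomputable def L0_83 : Tr := node L0_81 (nat_lit 3473056745041) (nat_lit 0) L0_82

noncomputable def L0_84 : Tr := node L0_80 (nat_lit 3472654338388) (nat_lit 9) L0_83

noncomputable def L0_85 : Tr := (node (node (node (node (node (node leaf (nat_lit 3473094557989) (nat_lit 21) leaf) (nat_lit 3473094740305) (nat_lit 21) leaf) (nat_lit 3473094803845) (nat_lit 21) (node (node leaf (nat_lit 3473094804517) (nat_lit 21) leaf) (nat_lit 3473101891153) (nat_lit 16) leaf)) (nat_lit 3473101900180) (nat_lit 16) (node (node (node leaf (nat_lit 3473101915429) (nat_lit 16) leaf) (nat_lit 3473101915717) (nat_lit 2) leaf) (nat_lit 3473101915729) (nat_lit 16) (node (node leaf (nat_lit 3473101915732) (nat_lit 16) leaf) (nat_lit 3473101918501) (nat_lit 16) leaf))) (nat_lit 3473101918597) (nat_lit 8) (node (node (node (node leaf (nat_lit 3473101918612) (nat_lit 8) leaf) (nat_lit 3473101918804) (nat_lit 16) leaf) (nat_lit 3473101919269)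 (nat_lit 16) (node (node leaf (nat_lit 3473101919305) (nat_lit 16) leaf) (nat_lit 3473101919365) (nat_lit 16) leaf)) (nat_lit 3473101919377) (nat_lit 0) (node (node (node leaf (nat_lit 3473101920340) (nat_lit 16) leaf) (nat_lit 3473101923664) (nat_lit 16) leaf) (nat_lit 3473101967653) (nat_lit 15) (node leaf (nat_lit 3473101967941) (nat_lit 7) leaf)))) (nat_lit 3473101967953) (nat_lit 7) (node (node (node (node (node leaf (nat_lit 3473101967956) (nat_lit 15) leaf) (nat_lit 3473101968409) (nat_lit 15) leaf) (nat_lit 3473101968457) (nat_lit 15) (node (node leaf (nat_lit 3473101968481) (nat_lit 6) leaf) (nat_lit 3473101968517) (nat_lit 2) leaf)) (nat_lit 3473101968529) (nat_lit 15) (node (node (node leaf (nat_lit 3473101968646) (nat_lit 2) leaf) (nat_lit 3473101968649) (nat_lit 15) leaf) (nat_lit 3473101968658) (nat_lit 15) (node (node leaf (nat_lit 3473101968673) (nat_lit 0) leaf) (nat_lit 3473101968676) (nat_lit 15) leaf))) (nat_lit 3473101968901) (nat_lit 2) (node (node (node (node leaf (nat_lit 3473102084389) (nat_lit 12) leaf)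 (nat_lit 3473102084485) (nat_lit 12) leaf) (nat_lit 3473102084692) (nat_lit 18) (node (node leaf (nat_lit 3473102087461) (nat_lit 18) leaf) (nat_lit 3473102087572) (nat_lit 11) leaf)) (nat_lit 3473102087749) (nat_lit 2) (node (node (node leaf (nat_lit 3473102087761) (nat_lit 18) leaf) (nat_lit 3473102087764) (nat_lit 11) leaf) (nat_lit 3473102094757) (nat_lit 8) (node leaf (nat_lit 3473102095525) (nat_lit 14) leaf)))))

noncomputable def L0_86 : Tr := (node (node (node (node (node (node leaf (nat_lit 3473102096713) (nat_lit 18) leaf) (nat_lit 3473102096773) (nat_lit 18) leaf) (nat_lit 3473102096785) (nat_lit 0) (node (node leaf (nat_lit 3473102096788) (nat_lit 18) leaf) (nat_lit 3473102096980) (nat_lit 18) leaf)) (nat_lit 3473102102857) (nat_lit 18) (node (node (node leaf (nat_lit 3473102102929) (nat_lit 0) leaf) (nat_lit 3473102102932) (nat_lit 18) leaf) (nat_lit 3473102103124) (nat_lit 18) (node (node leaf (nat_lit 3473102103700) (nat_lit 14) leaf) (nat_lit 3473102104852) (nat_lit 4) leaf))) (nat_lit 3473102111845) (nat_lit 6)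 (node (node (node (node leaf (nat_lit 3473102112037) (nat_lit 10) leaf) (nat_lit 3473102112325) (nat_lit 2) leaf) (nat_lit 3473102112340) (nat_lit 10) (node (node leaf (nat_lit 3473102113108) (nat_lit 9) leaf) (nat_lit 3473102115109) (nat_lit 8) leaf)) (nat_lit 3473102115412) (nat_lit 18) (node (node (node leaf (nat_lit 3473102115865) (nat_lit 4) leaf) (nat_lit 3473102115877) (nat_lit 18) leaf) (nat_lit 3473102115913) (nat_lit 18) (node leaf (nat_lit 3473102115985) (nat_lit 18) leaf)))) (nat_lit 3473102115988) (nat_lit 18) (node (node (node (node (node leaf (nat_lit 3473102116105) (nat_lit 18) leaf) (nat_lit 3473102116114) (nat_lit 18) leaf) (nat_lit 3473102116132) (nat_lit 18) (node (node leaf (nat_lit 3473102116945) (nat_lit 0) leaf) (nat_lit 3473102116948) (nat_lit 18) leaf)) (nat_lit 3473102117140) (nat_lit 18) (node (node (node leaf (nat_lit 3473102117188) (nat_lit 18) leaf) (nat_lit 3473102143909) (nat_lit 8) leaf) (nat_lit 3473102144149) (nat_lit 18) (node (node leaf (nat_lit 3473102144677) (nat_lit 18) leaf) (nat_lit 3473102145172)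 (nat_lit 10) leaf))) (nat_lit 3473102145829) (nat_lit 18) (node (node (node (node leaf (nat_lit 3473102152084) (nat_lit 8) leaf) (nat_lit 3473102152969) (nat_lit 18) leaf) (nat_lit 3473102153236) (nat_lit 18) (node (node leaf (nat_lit 3473102211409) (nat_lit 0) leaf) (nat_lit 3473102211412) (nat_lit 9) leaf)) (nat_lit 3473102213221) (nat_lit 6) (node (node (node leaf (nat_lit 3473102213413) (nat_lit 8) leaf) (nat_lit 3473102213524) (nat_lit 12) leaf) (nat_lit 3473102213716) (nat_lit 18) (node leaf (nat_lit 3473102214169) (nat_lit 4) leaf)))))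

noncomputable def L0_87 : Tr := node L0_85 (nat_lit 3473102096677) (nat_lit 14) L0_86

noncomputable def L0_88 : Tr := (node (node (node (node (node (node leaf (nat_lit 3473102214292) (nat_lit 12) leaf) (nat_lit 3473102214406) (nat_lit 2) leaf) (nat_lit 3473102214409) (nat_lit 18) (node (node leaf (nat_lit 3473102215252) (nat_lit 6) leaf) (nat_lit 3473102215441) (nat_lit 0) leaf)) (nat_lit 3473102215444) (nat_lit 12) (node (node (node leaf (nat_lit 3473102225557) (nat_lit 18) leaf) (nat_lit 3473102225689) (nat_lit 4) leaf) (nat_lit 3473102225797) (nat_lit 2) (node (node leaf (nat_lit 3473102225812) (nat_lit 8) leaf) (nat_lit 3473102226004) (nat_lit 18) leaf))) (nat_lit 3473102226469) (nat_lit 18) (node (node (node (node leaf (nat_lit 3473102226697) (nat_lit 18) leaf) (nat_lit 3473102226964) (nat_lit 10) leaf) (nat_lit 3473102227729) (nat_lit 0) (node (node leaf (nat_lit 3473102229541) (nat_lit 18) leaf) (nat_lit 3473102229652) (nat_lit 18) leaf)) (nat_lit 3473102378305) (nat_lit 13) (node (node (node leaf (nat_lit 3473102378308)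 (nat_lit 13) leaf) (nat_lit 3473102406757) (nat_lit 6) leaf) (nat_lit 3473102406949) (nat_lit 10) (node leaf (nat_lit 3473102407189) (nat_lit 4) leaf)))) (nat_lit 3473102407237) (nat_lit 2) (node (node (node (node (node leaf (nat_lit 3473102407249) (nat_lit 0) leaf) (nat_lit 3473102407252) (nat_lit 10) leaf) (nat_lit 3473102409877) (nat_lit 5) (node (node leaf (nat_lit 3473102410021) (nat_lit 12) leaf) (nat_lit 3473102410117) (nat_lit 12) leaf)) (nat_lit 3473102410324) (nat_lit 12) (node (node (node leaf (nat_lit 3473102411857) (nat_lit 12) leaf) (nat_lit 3473102412100) (nat_lit 12) leaf) (nat_lit 3473102415169) (nat_lit 11) (node (node leaf (nat_lit 3473102415172) (nat_lit 2) leaf) (nat_lit 3473102415184) (nat_lit 11) leaf))) (nat_lit 3473102422165) (nat_lit 5) (node (node (node (node leaf (nat_lit 3473102422309) (nat_lit 8) leaf) (nat_lit 3473102422405) (nat_lit 8) leaf) (nat_lit 3473102422609) (nat_lit 0) (node (node leaf (nat_lit 3473102422612) (nat_lit 7) leaf) (nat_lit 3473102423077) (nat_lit 3) leaf)) (nat_lit 3473102423113)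 (nat_lit 10) (node (node (node leaf (nat_lit 3473102423173) (nat_lit 10) leaf) (nat_lit 3473102423185) (nat_lit 10) leaf) (nat_lit 3473102423188) (nat_lit 17) (node leaf (nat_lit 3473102423572) (nat_lit 10) leaf)))))

noncomputable def L0_89 : Tr := (node (node (node (node (node (node leaf (nat_lit 3473102424337) (nat_lit 4) leaf) (nat_lit 3473102424340) (nat_lit 4) leaf) (nat_lit 3473102424385) (nat_lit 0) (node (node leaf (nat_lit 3473102424400) (nat_lit 17) leaf) (nat_lit 3473102426137) (nat_lit 4) leaf)) (nat_lit 3473102426149) (nat_lit 3) (node (node (node leaf (nat_lit 3473102426185) (nat_lit 6) leaf) (nat_lit 3473102426209) (nat_lit 6) leaf) (nat_lit 3473102426212) (nat_lit 6) (node (node leaf (nat_lit 3473102426260) (nat_lit 17) leaf) (nat_lit 3473102426374) (nat_lit 2) leaf))) (nat_lit 3473102426377) (nat_lit 8) (node (node (node (node leaf (nat_lit 3473102426401) (nat_lit 0) leaf) (nat_lit 3473102426644) (nat_lit 4) leaf) (nat_lit 3473102427145) (nat_lit 17) (node (node leaf (nat_lit 3473102430532) (nat_lit 2) leaf) (nat_lit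 3473102439745) (nat_lit 0) leaf)) (nat_lit 3473102439748) (nat_lit 10) (node (node (node leaf (nat_lit 3473102442817) (nat_lit 0) leaf) (nat_lit 3473102871124) (nat_lit 12) leaf) (nat_lit 3473102873893) (nat_lit 20) (node leaf (nat_lit 3473102873953) (nat_lit 20) leaf)))) (nat_lit 3473102873989) (nat_lit 20) (node (node (node (node (node leaf (nat_lit 3473102874004) (nat_lit 11) leaf) (nat_lit 3473102874181) (nat_lit 2) leaf) (nat_lit 3473102874196) (nat_lit 11) (node (node leaf (nat_lit 3473102881429) (nat_lit 14) leaf) (nat_lit 3473102883109) (nat_lit 14) leaf)) (nat_lit 3473102883145) (nat_lit 14) (node (node (node leaf (nat_lit 3473102883217) (nat_lit 0) leaf) (nat_lit 3473102883220) (nat_lit 20) leaf) (nat_lit 3473102883412) (nat_lit 20) (node (node leaf (nat_lit 3473102889109) (nat_lit 14) leaf) (nat_lit 3473102889556) (nat_lit 14) leaf))) (nat_lit 3473102890021) (nat_lit 20) (node (node (node (node leaf (nat_lit 3473102890249) (nat_lit 14) leaf) (nat_lit 3473102901652) (nat_lit 8) leaf) (nat_lit 3473102901844) (nat_lit 7)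 (node (node leaf (nat_lit 3473102902297) (nat_lit 4) leaf) (nat_lit 3473102902309) (nat_lit 3) leaf)) (nat_lit 3473102902345) (nat_lit 6) (node (node (node leaf (nat_lit 3473102902369) (nat_lit 6) leaf) (nat_lit 3473102902405) (nat_lit 2) leaf) (nat_lit 3473102902420) (nat_lit 20) (node leaf (nat_lit 3473102902534) (nat_lit 2) leaf)))))

noncomputable def L0_90 : Tr := node L0_88 (nat_lit 3473102424145) (nat_lit 0) L0_89

noncomputable def L0_91 : Tr := node L0_87 (nat_lit 3473102214277) (nat_lit 2) L0_90

noncomputable def L0_92 : Tr := node L0_84 (nat_lit 3473094557845) (nat_lit 21) L0_91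

noncomputable def L0_93 : Tr := node L0_77 (nat_lit 3471043543636) (nat_lit 16) L0_92

noncomputable def L0_94 : Tr := (node (node (node (node (node (node leaf (nat_lit 3473102903380) (nat_lit 6) leaf) (nat_lit 3473102930341) (nat_lit 8) leaf) (nat_lit 3473102931109) (nat_lit 16) (node (node leaf (nat_lit 3473102932117) (nat_lit 5) leaf) (nat_lit 3473102932261) (nat_lit 16) leaf)) (nat_lit 3473102932372) (nat_lit 20) (node (node (node leaf (nat_lit 3473102932564) (nat_lit 20) leaf) (nat_lit 3473102934676) (nat_lit 16) leaf) (nat_lit 3473102939284) (nat_lit 16) (node (node leaf (nat_lit 3473103000148) (nat_lit 12) leaf) (nat_lit 3473103000613) (nat_lit 12) leaf))) (nat_lit 3473103012133) (nat_lit 8) (node (node (node (node leaf (nat_lit 3473103013012) (nat_lit 10) leaf) (nat_lit 3473103014224) (nat_lit 9) leaf) (nat_lit 3473103016084) (nat_lit 20) (node (node leaf (nat_lit 3473103016528) (nat_lit 20) leaf) (nat_lit 3473103016969) (nat_lit 1) leaf)) (nat_lit 3473103016978) (nat_lit 20) (node (node (node leaf (nat_lit 3473103126949)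 (nat_lit 8) leaf) (nat_lit 3473103128212) (nat_lit 10) leaf) (nat_lit 3473103405460) (nat_lit 8) (node leaf (nat_lit 3473103409300) (nat_lit 20) leaf)))) (nat_lit 3473103951169) (nat_lit 0) (node (node (node (node (node leaf (nat_lit 3473103979813) (nat_lit 10) leaf) (nat_lit 3473103980101) (nat_lit 2) leaf) (nat_lit 3473103980113) (nat_lit 0) (node (node leaf (nat_lit 3473103980881) (nat_lit 16) leaf) (nat_lit 3473103982693) (nat_lit 6) leaf)) (nat_lit 3473103982741) (nat_lit 12) (node (node (node leaf (nat_lit 3473103984913) (nat_lit 12) leaf) (nat_lit 3473103984961) (nat_lit 12) leaf) (nat_lit 3473103988036) (nat_lit 2) (node (node leaf (nat_lit 3473103994981) (nat_lit 6) leaf) (nat_lit 3473103995029) (nat_lit 16) leaf))) (nat_lit 3473103995173) (nat_lit 8) (node (node (node (node leaf (nat_lit 3473103995209) (nat_lit 8) leaf) (nat_lit 3473103995269) (nat_lit 16) leaf) (nat_lit 3473103995281) (nat_lit 8) (node (node leaf (nat_lit 3473103995476) (nat_lit 16) leaf) (nat_lit 3473103995929) (nat_lit 4) leaf)) (nat_lit 3473103995941)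 (nat_lit 16) (node (node (node leaf (nat_lit 3473103996037) (nat_lit 2) leaf) (nat_lit 3473103999013) (nat_lit 16) leaf) (nat_lit 3473104012609) (nat_lit 10) (node leaf (nat_lit 3473104177489) (nat_lit 0) leaf)))))

noncomputable def L0_95 : Tr := (node (node (node (node (node (node leaf (nat_lit 3473104179604) (nat_lit 12) leaf) (nat_lit 3473104179796) (nat_lit 12) leaf) (nat_lit 3473104181329) (nat_lit 0) (node (node leaf (nat_lit 3473104181332) (nat_lit 6) leaf) (nat_lit 3473104191637) (nat_lit 14) leaf)) (nat_lit 3473104191781) (nat_lit 14) (node (node (node leaf (nat_lit 3473104191889) (nat_lit 0) leaf) (nat_lit 3473104192081) (nat_lit 0) leaf) (nat_lit 3473104192084) (nat_lit 14) (node (node leaf (nat_lit 3473104193617) (nat_lit 6) leaf) (nat_lit 3473104240741) (nat_lit 6) leaf))) (nat_lit 3473104240789) (nat_lit 5) (node (node (node (node leaf (nat_lit 3473104240933) (nat_lit 8) leaf) (nat_lit 3473104241029) (nat_lit 8) leaf) (nat_lit 3473104241701) (nat_lit 10) (node (node leaf (nat_lit 3473106019621) (nat_lit 3) leaf) (nat_lit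 3473106019657) (nat_lit 11) leaf)) (nat_lit 3473106027157) (nat_lit 14) (node (node (node leaf (nat_lit 3473106028069) (nat_lit 14) leaf) (nat_lit 3473106028873) (nat_lit 14) leaf) (nat_lit 3473106028948) (nat_lit 14) (node leaf (nat_lit 3473106029140) (nat_lit 14) leaf)))) (nat_lit 3473106034981) (nat_lit 8) (node (node (node (node (node leaf (nat_lit 3473106047572) (nat_lit 7) leaf) (nat_lit 3473106048148) (nat_lit 13) leaf) (nat_lit 3473106048265) (nat_lit 13) (node (node leaf (nat_lit 3473106076837) (nat_lit 16) leaf) (nat_lit 3473106077989) (nat_lit 16) leaf)) (nat_lit 3473106084133) (nat_lit 16) (node (node (node leaf (nat_lit 3473106085012) (nat_lit 16) leaf) (nat_lit 3473106085129) (nat_lit 16) leaf) (nat_lit 3473106161812) (nat_lit 5) (node (node leaf (nat_lit 3473106161956) (nat_lit 8) leaf) (nat_lit 3473106162694) (nat_lit 2) leaf))) (nat_lit 3473106272677) (nat_lit 8) (node (node (node (node leaf (nat_lit 3473106273445) (nat_lit 18) leaf) (nat_lit 3473106273940) (nat_lit 10) leaf) (nat_lit 3473106274597) (nat_lit 18)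 (node (node leaf (nat_lit 3473107059109) (nat_lit 8) leaf) (nat_lit 3473110242577) (nat_lit 4) leaf)) (nat_lit 3473110242625) (nat_lit 13) (node (node (node leaf (nat_lit 3473110271077) (nat_lit 10) leaf) (nat_lit 3473110271509) (nat_lit 4) leaf) (nat_lit 3473110271557) (nat_lit 2) (node leaf (nat_lit 3473110274149) (nat_lit 12) leaf)))))

noncomputable def L0_96 : Tr := node L0_94 (nat_lit 3473104177492) (nat_lit 9) L0_95

noncomputable def L0_97 : Tr := (node (node (node (node (node (node leaf (nat_lit 3473110274341) (nat_lit 12) leaf) (nat_lit 3473110276177) (nat_lit 16) leaf) (nat_lit 3473110279489) (nat_lit 0) (node (node leaf (nat_lit 3473110286485) (nat_lit 16) leaf) (nat_lit 3473110286629) (nat_lit 16) leaf)) (nat_lit 3473110286929) (nat_lit 16) (node (node (node leaf (nat_lit 3473110468945) (nat_lit 9) leaf) (nat_lit 3473110468948) (nat_lit 9) leaf) (nat_lit 3473110470805) (nat_lit 12) (node (node leaf (nat_lit 3473110471249) (nat_lit 12) leaf) (nat_lit 3473110471252) (nat_lit 12) leaf))) (nat_lit 3473110472785) (nat_lit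 0) (node (node (node (node leaf (nat_lit 3473110483045) (nat_lit 6) leaf) (nat_lit 3473110483093) (nat_lit 14) leaf) (nat_lit 3473110532245) (nat_lit 5) (node (node leaf (nat_lit 3473110532389) (nat_lit 8) leaf) (nat_lit 3473119679761) (nat_lit 4) leaf)) (nat_lit 3473119679809) (nat_lit 20) (node (node (node leaf (nat_lit 3473119709521) (nat_lit 16) leaf) (nat_lit 3473119711333) (nat_lit 12) leaf) (nat_lit 3473119711381) (nat_lit 12) (node leaf (nat_lit 3473119711525) (nat_lit 12) leaf)))) (nat_lit 3473119723669) (nat_lit 20) (node (node (node (node (node leaf (nat_lit 3473119906129) (nat_lit 20) leaf) (nat_lit 3473119906132) (nat_lit 20) leaf) (nat_lit 3473119920277) (nat_lit 20) (node (node leaf (nat_lit 3473119969429) (nat_lit 20) leaf) (nat_lit 3473122855249) (nat_lit 16) leaf)) (nat_lit 3473122857109) (nat_lit 12) (node (node (node leaf (nat_lit 3473122869349) (nat_lit 6) leaf) (nat_lit 3473122869397) (nat_lit 16) leaf) (nat_lit 3473123051857) (nat_lit 0) (node (node leaf (nat_lit 3473123066005) (nat_lit 14) leaf) (nat_lit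 3473154592837) (nat_lit 19) leaf))) (nat_lit 3473156641861) (nat_lit 2) (node (node (node (node leaf (nat_lit 3473156948245) (nat_lit 8) leaf) (nat_lit 3473156949013) (nat_lit 17) leaf) (nat_lit 3473156952085) (nat_lit 4) (node (node leaf (nat_lit 3473156952133) (nat_lit 6) leaf) (nat_lit 3473157396805) (nat_lit 12) leaf)) (nat_lit 3473157407893) (nat_lit 14) (node (node (node leaf (nat_lit 3473157408337) (nat_lit 14) leaf) (nat_lit 3473157409045) (nat_lit 4) leaf) (nat_lit 3473157416005) (nat_lit 6) (node leaf (nat_lit 3473157416017) (nat_lit 6) leaf)))))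

noncomputable def L0_98 : Tr := (node (node (node (node (node (node leaf (nat_lit 3473157427477) (nat_lit 8) leaf) (nat_lit 3473157428293) (nat_lit 2) leaf) (nat_lit 3473157428305) (nat_lit 6) (node (node leaf (nat_lit 3473157428497) (nat_lit 4) leaf) (nat_lit 3473157456277) (nat_lit 8) leaf)) (nat_lit 3473157457489) (nat_lit 10) (node (node (node leaf (nat_lit 3473157458245) (nat_lit 16) leaf) (nat_lit 3473157458257) (nat_lit 16) leaf) (nat_lit 3473157465349) (nat_lit 16) (node (node leaf (nat_lit 3473157526597) (nat_lit 12) leaf) (nat_lit 3473157538837) (nat_lit 4) leaf))) (nat_lit 3473157538885) (nat_lit 10) (node (node (node (node leaf (nat_lit 3473157654865) (nat_lit 22) leaf) (nat_lit 3473157919765) (nat_lit 12) leaf) (nat_lit 3473158521877) (nat_lit 10) (node (node leaf (nat_lit 3473161851157) (nat_lit 4) leaf) (nat_lit 3473161851925) (nat_lit 4) leaf)) (nat_lit 3473170039957) (nat_lit 10) (node (node (node leaf (nat_lit 3473170040401) (nat_lit 0) leaf) (nat_lit 3473170041169) (nat_lit 16) leaf) (nat_lit 3473170043029) (nat_lit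 20) (node leaf (nat_lit 3473170237777) (nat_lit 20) leaf)))) (nat_lit 3473173143889) (nat_lit 14) (node (node (node (node (node leaf (nat_lit 3473173185109) (nat_lit 16) leaf) (nat_lit 3473173186897) (nat_lit 16) leaf) (nat_lit 3473173188757) (nat_lit 16) (node (node leaf (nat_lit 3473173381717) (nat_lit 7) leaf) (nat_lit 3473173382293) (nat_lit 10) leaf)) (nat_lit 3473174168149) (nat_lit 7) (node (node (node leaf (nat_lit 3473174168725) (nat_lit 10) leaf) (nat_lit 3473186820373) (nat_lit 16) leaf) (nat_lit 3473187016789) (nat_lit 6) (node (node leaf (nat_lit 3473187016981) (nat_lit 8) leaf) (nat_lit 3479033874769) (nat_lit 0) leaf))) (nat_lit 3479084205205) (nat_lit 10) (node (node (node (node leaf (nat_lit 3479084205589) (nat_lit 10) leaf) (nat_lit 3479084205649) (nat_lit 0) leaf) (nat_lit 3479084208277) (nat_lit 12) (node (node leaf (nat_lit 3479093727301) (nat_lit 19) leaf) (nat_lit 3479093727493) (nat_lit 19) leaf)) (nat_lit 3479096086597) (nat_lit 17) (node (node (node leaf (nat_lit 3479096086789) (nat_lit 17) leaf) (nat_lit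 3479096542801) (nat_lit 0) leaf) (nat_lit 3479096543557) (nat_lit 14) (node leaf (nat_lit 3479096545429) (nat_lit 14) leaf)))))

noncomputable def L0_99 : Tr := node L0_97 (nat_lit 3473157416197) (nat_lit 2) L0_98

noncomputable def L0_100 : Tr := node L0_96 (nat_lit 3473110274197) (nat_lit 12) L0_99

noncomputable def L0_101 : Tr := (node (node (node (node (node (node leaf (nat_lit 3479096550661) (nat_lit 2) leaf) (nat_lit 3479096550673) (nat_lit 0) leaf) (nat_lit 3479096561989) (nat_lit 8) (node (node leaf (nat_lit 3479096562709) (nat_lit 4) leaf) (nat_lit 3479096562757) (nat_lit 2) leaf)) (nat_lit 3479096562769) (nat_lit 6) (node (node (node leaf (nat_lit 3479096562949) (nat_lit 2) leaf) (nat_lit 3479096562961) (nat_lit 4) leaf) (nat_lit 3479096591509) (nat_lit 10) (node (node leaf (nat_lit 3479096591953) (nat_lit 16) leaf) (nat_lit 3479096591956) (nat_lit 10) leaf))) (nat_lit 3479096592721) (nat_lit 16) (node (node (node (node leaf (nat_lit 3479096592724) (nat_lit 16) leaf) (nat_lit 3479096595025) (nat_lit 0) leaf) (nat_lit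 3479096595028) (nat_lit 16) (node (node leaf (nat_lit 3479096599825) (nat_lit 16) leaf) (nat_lit 3479096606869) (nat_lit 16) leaf)) (nat_lit 3479096607013) (nat_lit 8) (node (node (node leaf (nat_lit 3479096672581) (nat_lit 8) leaf) (nat_lit 3479096673301) (nat_lit 4) leaf) (nat_lit 3479096673349) (nat_lit 10) (node leaf (nat_lit 3479096676421) (nat_lit 2) leaf)))) (nat_lit 3479096676613) (nat_lit 8) (node (node (node (node (node leaf (nat_lit 3479096788549) (nat_lit 2) leaf) (nat_lit 3479096789317) (nat_lit 2) leaf) (nat_lit 3479096789329) (nat_lit 0) (node (node leaf (nat_lit 3479096789332) (nat_lit 9) leaf) (nat_lit 3479096791141) (nat_lit 6) leaf)) (nat_lit 3479096791189) (nat_lit 12) (node (node (node leaf (nat_lit 3479096791633) (nat_lit 0) leaf) (nat_lit 3479096791636) (nat_lit 12) leaf) (nat_lit 3479096796421) (nat_lit 2) (node (node leaf (nat_lit 3479096803477) (nat_lit 5) leaf) (nat_lit 3479096803621) (nat_lit 14) leaf))) (nat_lit 3479096852629) (nat_lit 5) (node (node (node (node leaf (nat_lit 3479096852773) (nat_lit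 8) leaf) (nat_lit 3479097065749) (nat_lit 4) leaf) (nat_lit 3479097066517) (nat_lit 4) (node (node leaf (nat_lit 3479097066565) (nat_lit 10) leaf) (nat_lit 3479097069589) (nat_lit 4) leaf)) (nat_lit 3479097069637) (nat_lit 6) (node (node (node leaf (nat_lit 3479097656389) (nat_lit 10) leaf) (nat_lit 3479097659413) (nat_lit 4) leaf) (nat_lit 3479097659461) (nat_lit 6) (node leaf (nat_lit 3479100015685) (nat_lit 10) leaf)))))

noncomputable def L0_102 : Tr := (node (node (node (node (node (node leaf (nat_lit 3479100018757) (nat_lit 6) leaf) (nat_lit 3479100985669) (nat_lit 8) leaf) (nat_lit 3479100986437) (nat_lit 6) (node (node leaf (nat_lit 3479235264661) (nat_lit 5) leaf) (nat_lit 3479235264805) (nat_lit 8) leaf)) (nat_lit 3479486661781) (nat_lit 16) (node (node (node leaf (nat_lit 3479486662225) (nat_lit 16) leaf) (nat_lit 3479486664853) (nat_lit 16) leaf) (nat_lit 3479486857813) (nat_lit 7) (node (node leaf (nat_lit 3479486858389) (nat_lit 10) leaf) (nat_lit 3479486859601) (nat_lit 24) leaf))) (nat_lit 3479496380437) (nat_lit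 19) (node (node (node (node leaf (nat_lit 3479496380485) (nat_lit 19) leaf) (nat_lit 3479498429509) (nat_lit 18) leaf) (nat_lit 3479498735893) (nat_lit 17) (node (node leaf (nat_lit 3479498736661) (nat_lit 17) leaf) (nat_lit 3479498739733) (nat_lit 17) leaf)) (nat_lit 3479498739781) (nat_lit 17) (node (node (node leaf (nat_lit 3479499184453) (nat_lit 12) leaf) (nat_lit 3479499195541) (nat_lit 14) leaf) (nat_lit 3479499195973) (nat_lit 2) (node leaf (nat_lit 3479499195985) (nat_lit 14) leaf)))) (nat_lit 3479499202885) (nat_lit 8) (node (node (node (node (node leaf (nat_lit 3479499203653) (nat_lit 6) leaf) (nat_lit 3479499203845) (nat_lit 2) leaf) (nat_lit 3479499215125) (nat_lit 4) (node (node leaf (nat_lit 3479499215893) (nat_lit 4) leaf) (nat_lit 3479499215941) (nat_lit 2) leaf)) (nat_lit 3479499215953) (nat_lit 6) (node (node (node leaf (nat_lit 3479499216145) (nat_lit 23) leaf) (nat_lit 3479499216193) (nat_lit 23) leaf) (nat_lit 3479499245125) (nat_lit 2) (node (node leaf (nat_lit 3479499245137) (nat_lit 10) leaf) (nat_lit 3479499245893)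 (nat_lit 16) leaf))) (nat_lit 3479499245905) (nat_lit 16) (node (node (node (node leaf (nat_lit 3479499247717) (nat_lit 23) leaf) (nat_lit 3479499247765) (nat_lit 23) leaf) (nat_lit 3479499247909) (nat_lit 12) (node (node leaf (nat_lit 3479499248209) (nat_lit 16) leaf) (nat_lit 3479499252997) (nat_lit 16) leaf)) (nat_lit 3479499260053) (nat_lit 23) (node (node (node leaf (nat_lit 3479499314245) (nat_lit 12) leaf) (nat_lit 3479499325717) (nat_lit 4) leaf) (nat_lit 3479499326485) (nat_lit 4) (node leaf (nat_lit 3479499326533) (nat_lit 10) leaf)))))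

noncomputable def L0_103 : Tr := node L0_101 (nat_lit 3479100018709) (nat_lit 4) L0_102

noncomputable def L0_104 : Tr := (node (node (node (node (node (node leaf (nat_lit 3479499329605) (nat_lit 6) leaf) (nat_lit 3479499442501) (nat_lit 2) leaf) (nat_lit 3479499442513) (nat_lit 23) (node (node leaf (nat_lit 3479499442516) (nat_lit 23) leaf) (nat_lit 3479499456661) (nat_lit 23) leaf)) (nat_lit 3479499505813) (nat_lit 23) (node (node (node leaf (nat_lit 3479499707413) (nat_lit 12) leaf) (nat_lit 3479499718741) (nat_lit 6) leaf) (nat_lit 3479499719701) (nat_lit 10) (node (node leaf (nat_lit 3479499722773) (nat_lit 4) leaf) (nat_lit 3479500309525) (nat_lit 10) leaf))) (nat_lit 3479500312597) (nat_lit 4) (node (node (node (node leaf (nat_lit 3479502668821) (nat_lit 10) leaf) (nat_lit 3479502671893) (nat_lit 4) leaf) (nat_lit 3479503638805) (nat_lit 4) (node (node leaf (nat_lit 3479503639573) (nat_lit 4) leaf) (nat_lit 3479533863013) (nat_lit 22) leaf)) (nat_lit 3479536964881) (nat_lit 21) (node (node (node leaf (nat_lit 3479536964929)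 (nat_lit 21) leaf) (nat_lit 3479536996453) (nat_lit 21) leaf) (nat_lit 3479536996501) (nat_lit 21) (node leaf (nat_lit 3479537008789) (nat_lit 21) leaf)))) (nat_lit 3479537191249) (nat_lit 21) (node (node (node (node (node leaf (nat_lit 3479537191252) (nat_lit 21) leaf) (nat_lit 3479537205349) (nat_lit 21) leaf) (nat_lit 3479537205397) (nat_lit 21) (node (node leaf (nat_lit 3479537254549) (nat_lit 21) leaf) (nat_lit 3479544338821) (nat_lit 16) leaf)) (nat_lit 3479544342085) (nat_lit 16) (node (node (node leaf (nat_lit 3479544342100) (nat_lit 16) leaf) (nat_lit 3479544351049) (nat_lit 16) leaf) (nat_lit 3479544351121) (nat_lit 16) (node (node leaf (nat_lit 3479544366181) (nat_lit 16) leaf) (nat_lit 3479544366373) (nat_lit 16) leaf))) (nat_lit 3479544366469) (nat_lit 10) (node (node (node (node leaf (nat_lit 3479544366613) (nat_lit 4) leaf) (nat_lit 3479544366661) (nat_lit 16) leaf) (nat_lit 3479544366673) (nat_lit 0) (node (node leaf (nat_lit 3479544366676) (nat_lit 16) leaf) (nat_lit 3479544369301) (nat_lit 5) leaf)) (nat_lit 3479544369445)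 (nat_lit 16) (node (node (node leaf (nat_lit 3479544369541) (nat_lit 8) leaf) (nat_lit 3479544369553) (nat_lit 8) leaf) (nat_lit 3479544370201) (nat_lit 4) (node leaf (nat_lit 3479544370213) (nat_lit 16) leaf)))))

noncomputable def L0_105 : Tr := (node (node (node (node (node (node leaf (nat_lit 3479544374596) (nat_lit 2) leaf) (nat_lit 3479544418405) (nat_lit 15) leaf) (nat_lit 3479544418597) (nat_lit 15) (node (node leaf (nat_lit 3479544418657) (nat_lit 8) leaf) (nat_lit 3479544418693) (nat_lit 8) leaf)) (nat_lit 3479544418708) (nat_lit 15) (node (node (node leaf (nat_lit 3479544418837) (nat_lit 4) leaf) (nat_lit 3479544418885) (nat_lit 7) leaf) (nat_lit 3479544418897) (nat_lit 0) (node (node leaf (nat_lit 3479544419365) (nat_lit 3) leaf) (nat_lit 3479544419401) (nat_lit 6) leaf))) (nat_lit 3479544419410) (nat_lit 6) (node (node (node (node leaf (nat_lit 3479544419425) (nat_lit 6) leaf) (nat_lit 3479544419428) (nat_lit 6) leaf) (nat_lit 3479544419461) (nat_lit 15) (node (node leaf (nat_lit 3479544419590) (nat_lit 2) leaf) (nat_lit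 3479544419593) (nat_lit 15) leaf)) (nat_lit 3479544535333) (nat_lit 12) (node (node (node leaf (nat_lit 3479544535429) (nat_lit 12) leaf) (nat_lit 3479544538213) (nat_lit 6) leaf) (nat_lit 3479544538405) (nat_lit 18) (node leaf (nat_lit 3479544538441) (nat_lit 11) leaf)))) (nat_lit 3479544538501) (nat_lit 18) (node (node (node (node (node leaf (nat_lit 3479544538513) (nat_lit 0) leaf) (nat_lit 3479544538645) (nat_lit 4) leaf) (nat_lit 3479544538693) (nat_lit 18) (node (node leaf (nat_lit 3479544538705) (nat_lit 0) leaf) (nat_lit 3479544538708) (nat_lit 18) leaf)) (nat_lit 3479544545701) (nat_lit 8) (node (node (node leaf (nat_lit 3479544545941) (nat_lit 14) leaf) (nat_lit 3479544546469) (nat_lit 14) leaf) (nat_lit 3479544547609) (nat_lit 4) (node (node leaf (nat_lit 3479544547621) (nat_lit 14) leaf) (nat_lit 3479544547657) (nat_lit 18) leaf))) (nat_lit 3479544547717) (nat_lit 2) (node (node (node (node leaf (nat_lit 3479544554761) (nat_lit 18) leaf) (nat_lit 3479544555028) (nat_lit 14) leaf) (nat_lit 3479544562789) (nat_lit 6) (node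 (node leaf (nat_lit 3479544562981) (nat_lit 10) leaf) (nat_lit 3479544565861) (nat_lit 6) leaf)) (nat_lit 3479544566053) (nat_lit 8) (node (node (node leaf (nat_lit 3479544566164) (nat_lit 8) leaf) (nat_lit 3479544566821) (nat_lit 18) leaf) (nat_lit 3479544566917) (nat_lit 18) (node leaf (nat_lit 3479544566932) (nat_lit 18) leaf)))))

noncomputable def L0_106 : Tr := node L0_104 (nat_lit 3479544370309) (nat_lit 2) L0_105

noncomputable def L0_107 : Tr := node L0_103 (nat_lit 3479499329557) (nat_lit 4) L0_106

noncomputable def L0_108 : Tr := node L0_100 (nat_lit 3479096550469) (nat_lit 6) L0_107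

noncomputable def L0_109 : Tr := (node (node (node (node (node (node leaf (nat_lit 3479544567892) (nat_lit 18) leaf) (nat_lit 3479544568084) (nat_lit 4) leaf) (nat_lit 3479544568129) (nat_lit 0) (node (node leaf (nat_lit 3479544594853) (nat_lit 8) leaf) (nat_lit 3479544595621) (nat_lit 18) leaf)) (nat_lit 3479544596773) (nat_lit 18) (node (node (node leaf (nat_lit 3479544603796) (nat_lit 18) leaf) (nat_lit 3479544662356) (nat_lit 9) leaf) (nat_lit 3479544664165) (nat_lit 6) (node (node leaf (nat_lit 3479544664468) (nat_lit 8) leaf) (nat_lit 3479544664660) (nat_lit 18) leaf))) (nat_lit 3479544665125) (nat_lit 18) (node (node (node (node leaf (nat_lit 3479544665161) (nat_lit 6) leaf) (nat_lit 3479544666196) (nat_lit 6) leaf) (nat_lit 3479544666385) (nat_lit 0) (node (node leaf (nat_lit 3479544676948) (nat_lit 7) leaf) (nat_lit 3479544677449) (nat_lit 6) leaf)) (nat_lit 3479544677524) (nat_lit 18) (node (node (node leaf (nat_lit 3479544811669) (nat_lit 14) leaf) (nat_lit 3479544829249) (nat_lit 13) leaf) (nat_lit 3479544857173) (nat_lit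 7) (node leaf (nat_lit 3479544857701) (nat_lit 6) leaf)))) (nat_lit 3479544857749) (nat_lit 10) (node (node (node (node (node leaf (nat_lit 3479544857893) (nat_lit 10) leaf) (nat_lit 3479544857989) (nat_lit 10) leaf) (nat_lit 3479544858133) (nat_lit 4) (node (node leaf (nat_lit 3479544858181) (nat_lit 2) leaf) (nat_lit 3479544858193) (nat_lit 0) leaf)) (nat_lit 3479544860821) (nat_lit 5) (node (node (node leaf (nat_lit 3479544860965) (nat_lit 12) leaf) (nat_lit 3479544862993) (nat_lit 12) leaf) (nat_lit 3479544866068) (nat_lit 4) (node (node leaf (nat_lit 3479544866113) (nat_lit 0) leaf) (nat_lit 3479544866116) (nat_lit 11) leaf))) (nat_lit 3479544873061) (nat_lit 6) (node (node (node (node leaf (nat_lit 3479544873109) (nat_lit 5) leaf) (nat_lit 3479544873253) (nat_lit 8) leaf) (nat_lit 3479544873289) (nat_lit 8) (node (node leaf (nat_lit 3479544873349) (nat_lit 8) leaf) (nat_lit 3479544873361) (nat_lit 8) leaf)) (nat_lit 3479544873364) (nat_lit 8) (node (node (node leaf (nat_lit 3479544873556) (nat_lit 7) leaf) (nat_lit 3479544874009)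 (nat_lit 4) leaf) (nat_lit 3479544874021) (nat_lit 10) (node leaf (nat_lit 3479544874117) (nat_lit 2) leaf)))))

noncomputable def L0_110 : Tr := (node (node (node (node (node (node leaf (nat_lit 3479544874516) (nat_lit 10) leaf) (nat_lit 3479544875089) (nat_lit 6) leaf) (nat_lit 3479544875281) (nat_lit 4) (node (node leaf (nat_lit 3479544875332) (nat_lit 2) leaf) (nat_lit 3479544877093) (nat_lit 3) leaf)) (nat_lit 3479544877129) (nat_lit 6) (node (node (node leaf (nat_lit 3479544877153) (nat_lit 6) leaf) (nat_lit 3479544877204) (nat_lit 17) leaf) (nat_lit 3479544877321) (nat_lit 8) (node (node leaf (nat_lit 3479544881473) (nat_lit 0) leaf) (nat_lit 3479544890641) (nat_lit 4) leaf))) (nat_lit 3479544890689) (nat_lit 0) (node (node (node (node leaf (nat_lit 3479545324645) (nat_lit 6) leaf) (nat_lit 3479545324837) (nat_lit 20) leaf) (nat_lit 3479545324873) (nat_lit 20) (node (node leaf (nat_lit 3479545324945) (nat_lit 0) leaf) (nat_lit 3479545332373) (nat_lit 20) leaf)) (nat_lit 3479545334041) (nat_lit 4) (node (node (node leaf (nat_lit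 3479545334149) (nat_lit 2) leaf) (nat_lit 3479545334164) (nat_lit 20) leaf) (nat_lit 3479545336468) (nat_lit 14) (node leaf (nat_lit 3479545341076) (nat_lit 14) leaf)))) (nat_lit 3479545352596) (nat_lit 8) (node (node (node (node (node leaf (nat_lit 3479545352788) (nat_lit 20) leaf) (nat_lit 3479545353253) (nat_lit 3) leaf) (nat_lit 3479545353289) (nat_lit 6) (node (node leaf (nat_lit 3479545381285) (nat_lit 8) leaf) (nat_lit 3479545382548) (nat_lit 10) leaf)) (nat_lit 3479545383205) (nat_lit 20) (node (node (node leaf (nat_lit 3479545467028) (nat_lit 20) leaf) (nat_lit 3479546402065) (nat_lit 4) leaf) (nat_lit 3479546402113) (nat_lit 13) (node (node leaf (nat_lit 3479546430565) (nat_lit 6) leaf) (nat_lit 3479546430997) (nat_lit 4) leaf))) (nat_lit 3479546431045) (nat_lit 2) (node (node (node (node leaf (nat_lit 3479546433637) (nat_lit 12) leaf) (nat_lit 3479546433685) (nat_lit 12) leaf) (nat_lit 3479546433937) (nat_lit 12) (node (node leaf (nat_lit 3479546435665) (nat_lit 6) leaf) (nat_lit 3479546438977) (nat_lit 0) leaf)) (nat_lit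 3479546445973) (nat_lit 5) (node (node (node leaf (nat_lit 3479546446105) (nat_lit 4) leaf) (nat_lit 3479546446117) (nat_lit 8) leaf) (nat_lit 3479546446213) (nat_lit 2) (node leaf (nat_lit 3479546446417) (nat_lit 0) leaf)))))

noncomputable def L0_111 : Tr := node L0_109 (nat_lit 3479544874132) (nat_lit 10) L0_110

noncomputable def L0_112 : Tr := (node (node (node (node (node (node leaf (nat_lit 3479546628433) (nat_lit 0) leaf) (nat_lit 3479546628436) (nat_lit 9) leaf) (nat_lit 3479546630740) (nat_lit 12) (node (node leaf (nat_lit 3479546632273) (nat_lit 0) leaf) (nat_lit 3479546642533) (nat_lit 14) leaf)) (nat_lit 3479546642581) (nat_lit 14) (node (node (node leaf (nat_lit 3479546643025) (nat_lit 0) leaf) (nat_lit 3479546691733) (nat_lit 5) leaf) (nat_lit 3479546691877) (nat_lit 8) (node (node leaf (nat_lit 3479548465813) (nat_lit 12) leaf) (nat_lit 3479548467796) (nat_lit 12) leaf))) (nat_lit 3479548470565) (nat_lit 11) (node (node (node (node leaf (nat_lit 3479548479781) (nat_lit 14) leaf) (nat_lit 3479548485925) (nat_lit 14)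 leaf) (nat_lit 3479548499017) (nat_lit 6) (node (node leaf (nat_lit 3479548527013) (nat_lit 8) leaf) (nat_lit 3479548528933) (nat_lit 16) leaf)) (nat_lit 3479548723621) (nat_lit 18) (node (node (node leaf (nat_lit 3479552675989) (nat_lit 14) leaf) (nat_lit 3479552693509) (nat_lit 2) leaf) (nat_lit 3479552693521) (nat_lit 4) (node leaf (nat_lit 3479552721493) (nat_lit 7) leaf)))) (nat_lit 3479552722021) (nat_lit 10) (node (node (node (node (node leaf (nat_lit 3479552722069) (nat_lit 10) leaf) (nat_lit 3479552722453) (nat_lit 4) leaf) (nat_lit 3479552723281) (nat_lit 16) (node (node leaf (nat_lit 3479552725141) (nat_lit 12) leaf) (nat_lit 3479552737381) (nat_lit 16) leaf)) (nat_lit 3479552737429) (nat_lit 16) (node (node (node leaf (nat_lit 3479552919889) (nat_lit 0) leaf) (nat_lit 3479562130693) (nat_lit 2) leaf) (nat_lit 3479562130705) (nat_lit 4) (node (node leaf (nat_lit 3479562160465) (nat_lit 16) leaf) (nat_lit 3479562162325) (nat_lit 12) leaf))) (nat_lit 3479562174565) (nat_lit 20) (node (node (node (node leaf (nat_lit 3479562174613)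 (nat_lit 16) leaf) (nat_lit 3479562357073) (nat_lit 0) leaf) (nat_lit 3479562371221) (nat_lit 14) (node (node leaf (nat_lit 3479597043733) (nat_lit 4) leaf) (nat_lit 3479599061317) (nat_lit 18) leaf)) (nat_lit 3479599091989) (nat_lit 18) (node (node (node leaf (nat_lit 3479599092757) (nat_lit 4) leaf) (nat_lit 3479599387669) (nat_lit 12) leaf) (nat_lit 3479599398997) (nat_lit 6) (node leaf (nat_lit 3479599399957) (nat_lit 10) leaf)))))

noncomputable def L0_113 : Tr := (node (node (node (node (node (node leaf (nat_lit 3479599847701) (nat_lit 4) leaf) (nat_lit 3479599858069) (nat_lit 8) leaf) (nat_lit 3479599859269) (nat_lit 2) (node (node leaf (nat_lit 3479599859281) (nat_lit 14) leaf) (nat_lit 3479599860037) (nat_lit 14) leaf)) (nat_lit 3479599866181) (nat_lit 8) (node (node (node leaf (nat_lit 3479599866949) (nat_lit 6) leaf) (nat_lit 3479599867141) (nat_lit 14) leaf) (nat_lit 3479599878229) (nat_lit 6) (node (node leaf (nat_lit 3479599879189) (nat_lit 4) leaf) (nat_lit 3479599879237) (nat_lit 2) leaf))) (nat_lit 3479599879429)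 (nat_lit 2) (node (node (node (node leaf (nat_lit 3479599907989) (nat_lit 22) leaf) (nat_lit 3479599908433) (nat_lit 22) leaf) (nat_lit 3479599909189) (nat_lit 2) (node (node leaf (nat_lit 3479599909201) (nat_lit 16) leaf) (nat_lit 3479599911061) (nat_lit 22) leaf)) (nat_lit 3479599916101) (nat_lit 6) (node (node (node leaf (nat_lit 3479599977493) (nat_lit 4) leaf) (nat_lit 3479599977541) (nat_lit 12) leaf) (nat_lit 3479599989781) (nat_lit 4) (node leaf (nat_lit 3479600105809) (nat_lit 22) leaf)))) (nat_lit 3479600972053) (nat_lit 8) (node (node (node (node (node leaf (nat_lit 3479604105493) (nat_lit 16) leaf) (nat_lit 3479604106261) (nat_lit 16) leaf) (nat_lit 3479604301909) (nat_lit 6) (node (node leaf (nat_lit 3479604302101) (nat_lit 8) leaf) (nat_lit 3479612490325) (nat_lit 20) leaf)) (nat_lit 3479612490901) (nat_lit 10) (node (node (node leaf (nat_lit 3479615579473) (nat_lit 11) leaf) (nat_lit 3479615588689) (nat_lit 14) leaf) (nat_lit 3479615590549) (nat_lit 14) (node (node leaf (nat_lit 3479615636053) (nat_lit 16) leaf) (nat_lit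 3479615636629) (nat_lit 10) leaf))) (nat_lit 3479615832661) (nat_lit 18) (node (node (node (node leaf (nat_lit 3479629271125) (nat_lit 6) leaf) (nat_lit 3479629464853) (nat_lit 10) leaf) (nat_lit 3479629467733) (nat_lit 6) (node (node leaf (nat_lit 3480148550980) (nat_lit 25) leaf) (nat_lit 3480267302224) (nat_lit 20) leaf)) (nat_lit 3480270054736) (nat_lit 22) (node (node (node leaf (nat_lit 3480270447940) (nat_lit 2) leaf) (nat_lit 3480275166532) (nat_lit 2) leaf) (nat_lit 3480282637636) (nat_lit 2) (node leaf (nat_lit 3480299545924) (nat_lit 18) leaf)))))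

noncomputable def L0_114 : Tr := node L0_112 (nat_lit 3479599846549) (nat_lit 12) L0_113

noncomputable def L0_115 : Tr := node L0_111 (nat_lit 3479546446885) (nat_lit 10) L0_114

noncomputable def L0_116 : Tr := (node (node (node (node (node (node leaf (nat_lit 3480400209217) (nat_lit 0) leaf) (nat_lit 3480551204161) (nat_lit 0) leaf) (nat_lit 3481097273941) (nat_lit 16) (node (node leaf (nat_lit 3481106990101) (nat_lit 19) leaf) (nat_lit 3481106993173) (nat_lit 19) leaf)) (nat_lit 3481109010757) (nat_lit 18) (node (node (node leaf (nat_lit 3481109041429) (nat_lit 18) leaf) (nat_lit 3481109042197) (nat_lit 18) leaf) (nat_lit 3481109337109) (nat_lit 17) (node (node leaf (nat_lit 3481109348437) (nat_lit 17) leaf) (nat_lit 3481109349397) (nat_lit 17) leaf))) (nat_lit 3481109352469) (nat_lit 17) (node (node (node (node leaf (nat_lit 3481109795989) (nat_lit 12) leaf) (nat_lit 3481109797141) (nat_lit 4) leaf) (nat_lit 3481109807509) (nat_lit 8) (node (node leaf (nat_lit 3481109808709) (nat_lit 14) leaf) (nat_lit 3481109808721) (nat_lit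 14) leaf)) (nat_lit 3481109809477) (nat_lit 14) (node (node (node leaf (nat_lit 3481109811793) (nat_lit 14) leaf) (nat_lit 3481109815573) (nat_lit 4) leaf) (nat_lit 3481109815621) (nat_lit 8) (node leaf (nat_lit 3481109816341) (nat_lit 4) leaf)))) (nat_lit 3481109816389) (nat_lit 6) (node (node (node (node (node leaf (nat_lit 3481109816581) (nat_lit 14) leaf) (nat_lit 3481109827669) (nat_lit 6) leaf) (nat_lit 3481109828629) (nat_lit 4) (node (node leaf (nat_lit 3481109828677) (nat_lit 2) leaf) (nat_lit 3481109828869) (nat_lit 2) leaf)) (nat_lit 3481109828881) (nat_lit 4) (node (node (node leaf (nat_lit 3481109857381) (nat_lit 10) leaf) (nat_lit 3481109857813) (nat_lit 4) leaf) (nat_lit 3481109857861) (nat_lit 2) (node (node leaf (nat_lit 3481109857873) (nat_lit 10) leaf) (nat_lit 3481109858629) (nat_lit 16) leaf))) (nat_lit 3481109858641) (nat_lit 16) (node (node (node (node leaf (nat_lit 3481109860453) (nat_lit 6) leaf) (nat_lit 3481109860501) (nat_lit 12) leaf) (nat_lit 3481109872741) (nat_lit 23) (node (node leaf (nat_lit 3481109872789)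 (nat_lit 16) leaf) (nat_lit 3481109926165) (nat_lit 12) leaf)) (nat_lit 3481109926933) (nat_lit 12) (node (node (node leaf (nat_lit 3481109926981) (nat_lit 12) leaf) (nat_lit 3481109938261) (nat_lit 6) leaf) (nat_lit 3481109939221) (nat_lit 4) (node leaf (nat_lit 3481109939269) (nat_lit 10) leaf)))))

noncomputable def L0_117 : Tr := (node (node (node (node (node (node leaf (nat_lit 3481110055249) (nat_lit 0) leaf) (nat_lit 3481110069397) (nat_lit 14) leaf) (nat_lit 3481110319189) (nat_lit 12) (node (node leaf (nat_lit 3481110320149) (nat_lit 12) leaf) (nat_lit 3481110331669) (nat_lit 8) leaf)) (nat_lit 3481110332437) (nat_lit 10) (node (node (node leaf (nat_lit 3481110909973) (nat_lit 12) leaf) (nat_lit 3481110921493) (nat_lit 8) leaf) (nat_lit 3481110922261) (nat_lit 10) (node (node leaf (nat_lit 3481113269269) (nat_lit 12) leaf) (nat_lit 3481113280789) (nat_lit 8) leaf))) (nat_lit 3481113281557) (nat_lit 10) (node (node (node (node leaf (nat_lit 3481114055701) (nat_lit 16) leaf) (nat_lit 3481114251349) (nat_lit 6) leaf) (nat_lit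 3481114251541) (nat_lit 8) (node (node leaf (nat_lit 3481142841493) (nat_lit 22) leaf) (nat_lit 3481142886997) (nat_lit 22) leaf)) (nat_lit 3481147560085) (nat_lit 21) (node (node (node leaf (nat_lit 3481147605589) (nat_lit 21) leaf) (nat_lit 3481147621477) (nat_lit 16) leaf) (nat_lit 3481154951557) (nat_lit 16) (node leaf (nat_lit 3481154954533) (nat_lit 16) leaf)))) (nat_lit 3481154954629) (nat_lit 16) (node (node (node (node (node leaf (nat_lit 3481154954773) (nat_lit 16) leaf) (nat_lit 3481154954821) (nat_lit 16) leaf) (nat_lit 3481154954833) (nat_lit 16) (node (node leaf (nat_lit 3481154954836) (nat_lit 16) leaf) (nat_lit 3481154962069) (nat_lit 16) leaf)) (nat_lit 3481154963845) (nat_lit 16) (node (node (node leaf (nat_lit 3481154978389) (nat_lit 7) leaf) (nat_lit 3481154978917) (nat_lit 6) leaf) (nat_lit 3481154978965) (nat_lit 5) (node (node leaf (nat_lit 3481154979109) (nat_lit 16) leaf) (nat_lit 3481154979205) (nat_lit 10) leaf))) (nat_lit 3481154979349) (nat_lit 4) (node (node (node (node leaf (nat_lit 3481154979397)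 (nat_lit 2) leaf) (nat_lit 3481154979409) (nat_lit 0) leaf) (nat_lit 3481154982181) (nat_lit 16) (node (node leaf (nat_lit 3481154982277) (nat_lit 8) leaf) (nat_lit 3481154982949) (nat_lit 16) leaf)) (nat_lit 3481155028501) (nat_lit 10) (node (node (node leaf (nat_lit 3481155031141) (nat_lit 15) leaf) (nat_lit 3481155031189) (nat_lit 5) leaf) (nat_lit 3481155031333) (nat_lit 8) (node leaf (nat_lit 3481155031429) (nat_lit 8) leaf)))))

noncomputable def L0_118 : Tr := node L0_116 (nat_lit 3481109942293) (nat_lit 4) L0_117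

noncomputable def L0_119 : Tr := (node (node (node (node (node (node leaf (nat_lit 3481155032101) (nat_lit 3) leaf) (nat_lit 3481155032137) (nat_lit 6) leaf) (nat_lit 3481155146389) (nat_lit 12) (node (node leaf (nat_lit 3481155148069) (nat_lit 12) leaf) (nat_lit 3481155150949) (nat_lit 6) leaf)) (nat_lit 3481155150997) (nat_lit 5) (node (node (node leaf (nat_lit 3481155151129) (nat_lit 4) leaf) (nat_lit 3481155151141) (nat_lit 18) leaf) (nat_lit 3481155151237) (nat_lit 2) (node (node leaf (nat_lit 3481155151381) (nat_lit 4) leaf) (nat_lit 3481155151429) (nat_lit 2) leaf))) (nat_lit 3481155151441) (nat_lit 0) (node (node (node (node leaf (nat_lit 3481155158437) (nat_lit 8) leaf) (nat_lit 3481155160357) (nat_lit 14) leaf) (nat_lit 3481155175525) (nat_lit 6) (node (node leaf (nat_lit 3481155175717) (nat_lit 10) leaf) (nat_lit 3481155178597) (nat_lit 6) leaf)) (nat_lit 3481155178789) (nat_lit 8) (node (node (node leaf (nat_lit 3481155207589) (nat_lit 8) leaf) (nat_lit 3481155469909) (nat_lit 7) leaf) (nat_lit 3481155470437) (nat_lit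 6) (node leaf (nat_lit 3481155470485) (nat_lit 5) leaf)))) (nat_lit 3481155470629) (nat_lit 10) (node (node (node (node (node leaf (nat_lit 3481155470869) (nat_lit 4) leaf) (nat_lit 3481155470917) (nat_lit 2) leaf) (nat_lit 3481155473509) (nat_lit 6) (node (node leaf (nat_lit 3481155473557) (nat_lit 12) leaf) (nat_lit 3481155485845) (nat_lit 5) leaf)) (nat_lit 3481155485989) (nat_lit 8) (node (node (node leaf (nat_lit 3481155932821) (nat_lit 12) leaf) (nat_lit 3481155937561) (nat_lit 4) leaf) (nat_lit 3481155937573) (nat_lit 20) (node (node leaf (nat_lit 3481155937669) (nat_lit 2) leaf) (nat_lit 3481156997269) (nat_lit 14) leaf))) (nat_lit 3481157042773) (nat_lit 7) (node (node (node (node leaf (nat_lit 3481157043301) (nat_lit 10) leaf) (nat_lit 3481157043349) (nat_lit 10) leaf) (nat_lit 3481157043733) (nat_lit 4) (node (node leaf (nat_lit 3481157046421) (nat_lit 12) leaf) (nat_lit 3481159083301) (nat_lit 11) leaf)) (nat_lit 3481159092517) (nat_lit 14) (node (node (node leaf (nat_lit 3481159139749) (nat_lit 16) leaf) (nat_lit 3481163334229)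 (nat_lit 7) leaf) (nat_lit 3481163334805) (nat_lit 10) (node leaf (nat_lit 3481206854677) (nat_lit 20) leaf)))))

noncomputable def L0_120 : Tr := (node (node (node (node (node (node leaf (nat_lit 3481207653397) (nat_lit 10) leaf) (nat_lit 3481209508885) (nat_lit 16) leaf) (nat_lit 3481209674005) (nat_lit 4) (node (node leaf (nat_lit 3481209704533) (nat_lit 6) leaf) (nat_lit 3481209705493) (nat_lit 18) leaf)) (nat_lit 3481209803797) (nat_lit 18) (node (node (node leaf (nat_lit 3481209999445) (nat_lit 12) leaf) (nat_lit 3481210000405) (nat_lit 12) leaf) (nat_lit 3481210011925) (nat_lit 8) (node (node leaf (nat_lit 3481210458517) (nat_lit 12) leaf) (nat_lit 3481210460485) (nat_lit 12) leaf))) (nat_lit 3481210463557) (nat_lit 11) (node (node (node (node leaf (nat_lit 3481210472005) (nat_lit 2) leaf) (nat_lit 3481210472017) (nat_lit 14) leaf) (nat_lit 3481210472773) (nat_lit 14) (node (node leaf (nat_lit 3481210478869) (nat_lit 4) leaf) (nat_lit 3481210478917) (nat_lit 8) leaf)) (nat_lit 3481210479685) (nat_lit 6) (node (node (node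 leaf (nat_lit 3481210491157) (nat_lit 8) leaf) (nat_lit 3481210491925) (nat_lit 4) leaf) (nat_lit 3481210491973) (nat_lit 6) (node leaf (nat_lit 3481210520149) (nat_lit 22) leaf)))) (nat_lit 3481210520725) (nat_lit 10) (node (node (node (node (node leaf (nat_lit 3481210521925) (nat_lit 2) leaf) (nat_lit 3481210521937) (nat_lit 16) leaf) (nat_lit 3481210590229) (nat_lit 4) (node (node leaf (nat_lit 3481211572501) (nat_lit 12) leaf) (nat_lit 3481211584597) (nat_lit 6) leaf)) (nat_lit 3481213932565) (nat_lit 18) (node (node (node leaf (nat_lit 3481214718037) (nat_lit 16) leaf) (nat_lit 3481214911765) (nat_lit 10) leaf) (nat_lit 3481214914645) (nat_lit 6) (node (node leaf (nat_lit 3481223053909) (nat_lit 14) leaf) (nat_lit 3481226192197) (nat_lit 2) leaf))) (nat_lit 3481226199637) (nat_lit 14) (node (node (node (node leaf (nat_lit 3481226200213) (nat_lit 10) leaf) (nat_lit 3481226248789) (nat_lit 16) leaf) (nat_lit 3481239097429) (nat_lit 18) (node (node leaf (nat_lit 3481239880789) (nat_lit 10) leaf) (nat_lit 3481240077397) (nat_lit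 6) leaf)) (nat_lit 3481609506901) (nat_lit 12) (node (node (node leaf (nat_lit 3481610294293) (nat_lit 12) leaf) (nat_lit 3481612162069) (nat_lit 16) leaf) (nat_lit 3481612211221) (nat_lit 15) (node leaf (nat_lit 3481612327237) (nat_lit 18) leaf)))))

noncomputable def L0_121 : Tr := node L0_119 (nat_lit 3481206866005) (nat_lit 20) L0_120

noncomputable def L0_122 : Tr := node L0_118 (nat_lit 3481155031573) (nat_lit 4) L0_121

noncomputable def L0_123 : Tr := node L0_115 (nat_lit 3480300332353) (nat_lit 0) L0_122

noncomputable def L0_124 : Tr := node L0_108 (nat_lit 3479544567049) (nat_lit 18) L0_123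

noncomputable def L0_125 : Tr := node L0_93 (nat_lit 3473102902537) (nat_lit 20) L0_124

noncomputable def L0_126 : Tr := node L0_62 (nat_lit 3447332618629) (nat_lit 8) L0_125

noncomputable def L0_127 : Tr := (node (node (node (node (node (node leaf (nat_lit 3481612358677) (nat_lit 18) leaf) (nat_lit 3481612358725) (nat_lit 18) leaf) (nat_lit 3481612456213) (nat_lit 8) (node (node leaf (nat_lit 3481612456981) (nat_lit 18) leaf) (nat_lit 3481612652821) (nat_lit 12) leaf)) (nat_lit 3481613113669) (nat_lit 12) (node (node (node leaf (nat_lit 3481613116693) (nat_lit 11) leaf) (nat_lit 3481613116741) (nat_lit 11) leaf) (nat_lit 3481613124181) (nat_lit 22) (node (node leaf (nat_lit 3481613124757) (nat_lit 14) leaf) (nat_lit 3481613125909) (nat_lit 4) leaf))) (nat_lit 3481613125957) (nat_lit 14) (node (node (node (node leaf (nat_lit 3481613144341) (nat_lit 8) leaf) (nat_lit 3481613145109) (nat_lit 4) leaf) (nat_lit 3481614225493) (nat_lit 6) (node (node leaf (nat_lit 3481616584789) (nat_lit 18) leaf) (nat_lit 3481616584981) (nat_lit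 8) leaf)) (nat_lit 3481617368149) (nat_lit 10) (node (node (node leaf (nat_lit 3481617564757) (nat_lit 10) leaf) (nat_lit 3481628840533) (nat_lit 12) leaf) (nat_lit 3481628845333) (nat_lit 4) (node (node leaf (nat_lit 3481628852821) (nat_lit 14) leaf) (nat_lit 3481641747541) (nat_lit 18) leaf)))) (nat_lit 3481642729813) (nat_lit 8) (node (node (node (node (node leaf (nat_lit 3481742361685) (nat_lit 14) leaf) (nat_lit 3481742410069) (nat_lit 8) leaf) (nat_lit 3481743196501) (nat_lit 16) (node (node leaf (nat_lit 3850078783825) (nat_lit 0) leaf) (nat_lit 3850078783828) (nat_lit 9) leaf)) (nat_lit 3850078786132) (nat_lit 12) (node (node (node leaf (nat_lit 3850078847305) (nat_lit 8) leaf) (nat_lit 3850078847377) (nat_lit 8) leaf) (nat_lit 3850078848025) (nat_lit 4) (node (node leaf (nat_lit 3850078848133) (nat_lit 2) leaf) (nat_lit 3850078851109) (nat_lit 30) leaf))) (nat_lit 3851135752468) (nat_lit 12) (node (node (node (node leaf (nat_lit 3851135752516) (nat_lit 2) leaf) (nat_lit 3851135762836) (nat_lit 8) leaf) (nat_lit 3851135763604)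 (nat_lit 10) (node (node leaf (nat_lit 3851135764564) (nat_lit 6) leaf) (nat_lit 3851135811685) (nat_lit 6) leaf)) (nat_lit 3851135811733) (nat_lit 5) (node (node (node leaf (nat_lit 3851135811877) (nat_lit 8) leaf) (nat_lit 3851135811973) (nat_lit 8) leaf) (nat_lit 3851135812117) (nat_lit 4) (node leaf (nat_lit 3851135812180) (nat_lit 7) leaf)))))

noncomputable def L0_128 : Tr := (node (node (node (node (node (node leaf (nat_lit 3851135812756) (nat_lit 10) leaf) (nat_lit 3851135813140) (nat_lit 10) leaf) (nat_lit 3851135815828) (nat_lit 12) (node (node leaf (nat_lit 3851145269569) (nat_lit 19) leaf) (nat_lit 3851145269572) (nat_lit 19) leaf)) (nat_lit 3851147628865) (nat_lit 17) (node (node (node leaf (nat_lit 3851147628868) (nat_lit 17) leaf) (nat_lit 3851148092692) (nat_lit 4) leaf) (nat_lit 3851148092737) (nat_lit 0) (node (node leaf (nat_lit 3851148092740) (nat_lit 14) leaf) (nat_lit 3851148104788) (nat_lit 6) leaf))) (nat_lit 3851148104977) (nat_lit 0) (node (node (node (node leaf (nat_lit 3851148104980) (nat_lit 4) leaf)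 (nat_lit 3851148105025) (nat_lit 0) leaf) (nat_lit 3851148105028) (nat_lit 13) (node (node leaf (nat_lit 3851148137044) (nat_lit 12) leaf) (nat_lit 3851148141892) (nat_lit 2) leaf)) (nat_lit 3851148141904) (nat_lit 16) (node (node (node leaf (nat_lit 3851148166468) (nat_lit 2) leaf) (nat_lit 3851148218449) (nat_lit 6) leaf) (nat_lit 3851148218629) (nat_lit 2) (node leaf (nat_lit 3851148218641) (nat_lit 8) leaf)))) (nat_lit 3851148218689) (nat_lit 0) (node (node (node (node (node leaf (nat_lit 3851148218692) (nat_lit 8) leaf) (nat_lit 3851148219397) (nat_lit 2) leaf) (nat_lit 3851148219412) (nat_lit 4) (node (node leaf (nat_lit 3851148219457) (nat_lit 0) leaf) (nat_lit 3851148331345) (nat_lit 0) leaf)) (nat_lit 3851148333652) (nat_lit 12) (node (node (node leaf (nat_lit 3851148335188) (nat_lit 12) leaf) (nat_lit 3851148338500) (nat_lit 2) leaf) (nat_lit 3851148345493) (nat_lit 14) (node (node leaf (nat_lit 3851148345748) (nat_lit 8) leaf) (nat_lit 3851148345940) (nat_lit 14) leaf))) (nat_lit 3851148346405) (nat_lit 10) (node (node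 (node (node leaf (nat_lit 3851148347476) (nat_lit 6) leaf) (nat_lit 3851148349573) (nat_lit 14) leaf) (nat_lit 3851148394885) (nat_lit 8) (node (node leaf (nat_lit 3851148394900) (nat_lit 8) leaf) (nat_lit 3851148395092) (nat_lit 7) leaf)) (nat_lit 3851148395557) (nat_lit 10) (node (node (node leaf (nat_lit 3851148395653) (nat_lit 10) leaf) (nat_lit 3851148395668) (nat_lit 10) leaf) (nat_lit 3851148396052) (nat_lit 10) (node leaf (nat_lit 3851148396628) (nat_lit 6) leaf)))))

noncomputable def L0_129 : Tr := node L0_127 (nat_lit 3851135812645) (nat_lit 10) L0_128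

noncomputable def L0_130 : Tr := (node (node (node (node (node (node leaf (nat_lit 3851148398725) (nat_lit 12) leaf) (nat_lit 3851148398740) (nat_lit 12) leaf) (nat_lit 3851148410917) (nat_lit 3) (node (node leaf (nat_lit 3851148410953) (nat_lit 6) leaf) (nat_lit 3851148611653) (nat_lit 6) leaf)) (nat_lit 3851148611845) (nat_lit 2) (node (node (node leaf (nat_lit 3851148611857) (nat_lit 4) leaf) (nat_lit 3851148611860) (nat_lit 4) leaf) (nat_lit 3851148611905) (nat_lit 0) (node (node leaf (nat_lit 3851149201681) (nat_lit 4) leaf) (nat_lit 3851149201684) (nat_lit 4) leaf))) (nat_lit 3851149201729) (nat_lit 0) (node (node (node (node leaf (nat_lit 3851151560977) (nat_lit 4) leaf) (nat_lit 3851151560980) (nat_lit 4) leaf) (nat_lit 3851151561025) (nat_lit 0) (node (node leaf (nat_lit 3851152528657) (nat_lit 4) leaf) (nat_lit 3851152540945) (nat_lit 4) leaf)) (nat_lit 3857326541137) (nat_lit 28) (node (node (node leaf (nat_lit 3857326541140) (nat_lit 28) leaf) (nat_lit 3857326543444) (nat_lit 28) leaf) (nat_lit 3857326604617) (nat_lit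 28) (node leaf (nat_lit 3857326604689) (nat_lit 28) leaf)))) (nat_lit 3857326608421) (nat_lit 28) (node (node (node (node (node leaf (nat_lit 3857578201492) (nat_lit 12) leaf) (nat_lit 3857578202260) (nat_lit 12) leaf) (nat_lit 3857578203220) (nat_lit 6) (node (node leaf (nat_lit 3857578203409) (nat_lit 0) leaf) (nat_lit 3857578203412) (nat_lit 4) leaf)) (nat_lit 3857578213525) (nat_lit 14) (node (node (node leaf (nat_lit 3857578213780) (nat_lit 8) leaf) (nat_lit 3857578213909) (nat_lit 14) leaf) (nat_lit 3857578213972) (nat_lit 14) (node (node leaf (nat_lit 3857578262677) (nat_lit 5) leaf) (nat_lit 3857578262821) (nat_lit 8) leaf))) (nat_lit 3857578263121) (nat_lit 0) (node (node (node (node leaf (nat_lit 3857578263124) (nat_lit 7) leaf) (nat_lit 3857578263700) (nat_lit 10) leaf) (nat_lit 3857587720465) (nat_lit 19) (node (node leaf (nat_lit 3857587720468) (nat_lit 19) leaf) (nat_lit 3857590079761) (nat_lit 17) leaf)) (nat_lit 3857590079764) (nat_lit 17) (node (node (node leaf (nat_lit 3857590538836) (nat_lit 14) leaf) (nat_lit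 3857590543633) (nat_lit 0) leaf) (nat_lit 3857590543636) (nat_lit 4) (node leaf (nat_lit 3857590543681) (nat_lit 0) leaf)))))

noncomputable def L0_131 : Tr := (node (node (node (node (node (node leaf (nat_lit 3857590555729) (nat_lit 6) leaf) (nat_lit 3857590555921) (nat_lit 0) leaf) (nat_lit 3857590555924) (nat_lit 4) (node (node leaf (nat_lit 3857590555969) (nat_lit 0) leaf) (nat_lit 3857590555972) (nat_lit 13) leaf)) (nat_lit 3857590584916) (nat_lit 10) (node (node (node leaf (nat_lit 3857590585681) (nat_lit 16) leaf) (nat_lit 3857590592836) (nat_lit 16) leaf) (nat_lit 3857590600276) (nat_lit 16) (node (node leaf (nat_lit 3857590669381) (nat_lit 6) leaf) (nat_lit 3857590669573) (nat_lit 2) leaf))) (nat_lit 3857590669585) (nat_lit 4) (node (node (node (node leaf (nat_lit 3857590669588) (nat_lit 8) leaf) (nat_lit 3857590670353) (nat_lit 0) leaf) (nat_lit 3857590781524) (nat_lit 10) (node (node leaf (nat_lit 3857590782277) (nat_lit 2) leaf) (nat_lit 3857590782292) (nat_lit 9) leaf)) (nat_lit 3857590784149) (nat_lit 12) (node (node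 (node leaf (nat_lit 3857590784593) (nat_lit 0) leaf) (nat_lit 3857590784596) (nat_lit 12) leaf) (nat_lit 3857590785061) (nat_lit 12) (node leaf (nat_lit 3857590786132) (nat_lit 12) leaf)))) (nat_lit 3857590789441) (nat_lit 0) (node (node (node (node (node leaf (nat_lit 3857590796581) (nat_lit 8) leaf) (nat_lit 3857590796677) (nat_lit 14) leaf) (nat_lit 3857590796884) (nat_lit 14) (node (node leaf (nat_lit 3857590797349) (nat_lit 14) leaf) (nat_lit 3857590797445) (nat_lit 14) leaf)) (nat_lit 3857590798420) (nat_lit 14) (node (node (node leaf (nat_lit 3857590800421) (nat_lit 14) leaf) (nat_lit 3857590845589) (nat_lit 5) leaf) (nat_lit 3857590845733) (nat_lit 8) (node (node leaf (nat_lit 3857590845829) (nat_lit 8) leaf) (nat_lit 3857590846036) (nat_lit 7) leaf))) (nat_lit 3857590846501) (nat_lit 10) (node (node (node (node leaf (nat_lit 3857590846597) (nat_lit 10) leaf) (nat_lit 3857590846612) (nat_lit 10) leaf) (nat_lit 3857590849573) (nat_lit 12) (node (node leaf (nat_lit 3857591059525) (nat_lit 10) leaf) (nat_lit 3857591059717)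 (nat_lit 10) leaf)) (nat_lit 3857591062549) (nat_lit 4) (node (node (node leaf (nat_lit 3857591062789) (nat_lit 2) leaf) (nat_lit 3857591062801) (nat_lit 0) leaf) (nat_lit 3857591652613) (nat_lit 2) (node leaf (nat_lit 3857591652625) (nat_lit 0) leaf)))))

noncomputable def L0_132 : Tr := node L0_130 (nat_lit 3857590543684) (nat_lit 14) L0_131

noncomputable def L0_133 : Tr := node L0_129 (nat_lit 3851148398629) (nat_lit 12) L0_132

noncomputable def L0_134 : Tr := (node (node (node (node (node (node leaf (nat_lit 3857594011921) (nat_lit 0) leaf) (nat_lit 3857594979409) (nat_lit 6) leaf) (nat_lit 3857594979589) (nat_lit 2) (node (node leaf (nat_lit 3857594979601) (nat_lit 12) leaf) (nat_lit 3858131846740) (nat_lit 10) leaf)) (nat_lit 3858131847505) (nat_lit 0) (node (node (node leaf (nat_lit 3858131910937) (nat_lit 4) leaf) (nat_lit 3858131911045) (nat_lit 2) leaf) (nat_lit 3858131911717) (nat_lit 10) (node (node leaf (nat_lit 3859138480465) (nat_lit 26) leaf) (nat_lit 3859188811348) (nat_lit 25) leaf))) (nat_lit 3859188813973)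 (nat_lit 12) (node (node (node (node leaf (nat_lit 3859188814225) (nat_lit 0) leaf) (nat_lit 3859188814228) (nat_lit 12) leaf) (nat_lit 3859188814357) (nat_lit 12) (node (node leaf (nat_lit 3859188815953) (nat_lit 6) leaf) (nat_lit 3859188816145) (nat_lit 0) leaf)) (nat_lit 3859188826261) (nat_lit 14) (node (node (node leaf (nat_lit 3859188826705) (nat_lit 14) leaf) (nat_lit 3859188875857) (nat_lit 0) leaf) (nat_lit 3859198333189) (nat_lit 19) (node leaf (nat_lit 3859198333201) (nat_lit 19) leaf)))) (nat_lit 3859200692485) (nat_lit 17) (node (node (node (node (node leaf (nat_lit 3859200692497) (nat_lit 17) leaf) (nat_lit 3859201148500) (nat_lit 10) leaf) (nat_lit 3859201149265) (nat_lit 14) (node (node leaf (nat_lit 3859201156177) (nat_lit 6) leaf) (nat_lit 3859201156357) (nat_lit 2) leaf)) (nat_lit 3859201156369) (nat_lit 4) (node (node (node leaf (nat_lit 3859201156372) (nat_lit 4) leaf) (nat_lit 3859201156417) (nat_lit 0) leaf) (nat_lit 3859201168453) (nat_lit 2) (node (node leaf (nat_lit 3859201168465) (nat_lit 6) leaf) (nat_lit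 3859201168657) (nat_lit 0) leaf))) (nat_lit 3859201168660) (nat_lit 4) (node (node (node (node leaf (nat_lit 3859201198405) (nat_lit 2) leaf) (nat_lit 3859201200277) (nat_lit 16) leaf) (nat_lit 3859201200721) (nat_lit 16) (node (node leaf (nat_lit 3859201200724) (nat_lit 12) leaf) (nat_lit 3859201213009) (nat_lit 0) leaf)) (nat_lit 3859201279045) (nat_lit 10) (node (node (node leaf (nat_lit 3859201279237) (nat_lit 10) leaf) (nat_lit 3859201282117) (nat_lit 6) leaf) (nat_lit 3859201282129) (nat_lit 6) (node leaf (nat_lit 3859201282309) (nat_lit 2) leaf)))))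

noncomputable def L0_135 : Tr := (node (node (node (node (node (node leaf (nat_lit 3859201394257) (nat_lit 10) leaf) (nat_lit 3859201395025) (nat_lit 0) leaf) (nat_lit 3859201395028) (nat_lit 9) (node (node leaf (nat_lit 3859201397029) (nat_lit 8) leaf) (nat_lit 3859201397332) (nat_lit 12) leaf)) (nat_lit 3859201398868) (nat_lit 12) (node (node (node leaf (nat_lit 3859201402129) (nat_lit 4) leaf) (nat_lit 3859201409173) (nat_lit 14) leaf) (nat_lit 3859201409317) (nat_lit 8) (node (node leaf (nat_lit 3859201409413) (nat_lit 14) leaf) (nat_lit 3859201409617) (nat_lit 0) leaf))) (nat_lit 3859201409620) (nat_lit 14) (node (node (node (node leaf (nat_lit 3859201410085) (nat_lit 14) leaf) (nat_lit 3859201458469) (nat_lit 8) leaf) (nat_lit 3859201458565) (nat_lit 8) (node (node leaf (nat_lit 3859201459237) (nat_lit 10) leaf) (nat_lit 3859201672213) (nat_lit 4) leaf)) (nat_lit 3859201672261) (nat_lit 6) (node (node (node leaf (nat_lit 3859201675333) (nat_lit 6) leaf) (nat_lit 3859201675525) (nat_lit 2) leaf) (nat_lit 3859202265157) (nat_lit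 6) (node leaf (nat_lit 3859202265349) (nat_lit 2) leaf)))) (nat_lit 3859204624453) (nat_lit 6) (node (node (node (node (node leaf (nat_lit 3859204624645) (nat_lit 2) leaf) (nat_lit 3859205592133) (nat_lit 2) leaf) (nat_lit 3859205592145) (nat_lit 6) (node (node leaf (nat_lit 3859205592325) (nat_lit 2) leaf) (nat_lit 3859339806292) (nat_lit 10) leaf)) (nat_lit 3859339807057) (nat_lit 0) (node (node (node leaf (nat_lit 3859339870489) (nat_lit 4) leaf) (nat_lit 3859339870597) (nat_lit 2) leaf) (nat_lit 3859339871269) (nat_lit 10) (node (node leaf (nat_lit 3859440469585) (nat_lit 0) leaf) (nat_lit 3859591267924) (nat_lit 16) leaf))) (nat_lit 3859591270549) (nat_lit 16) (node (node (node (node leaf (nat_lit 3859591464085) (nat_lit 10) leaf) (nat_lit 3859591464469) (nat_lit 10) leaf) (nat_lit 3859591464529) (nat_lit 0) (node (node leaf (nat_lit 3859591465297) (nat_lit 24) leaf) (nat_lit 3859591467157) (nat_lit 12) leaf)) (nat_lit 3859600986181) (nat_lit 19) (node (node (node leaf (nat_lit 3859600986373) (nat_lit 19) leaf) (nat_lit 3859603035217)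 (nat_lit 18) leaf) (nat_lit 3859603342357) (nat_lit 17) (node leaf (nat_lit 3859603345477) (nat_lit 17) leaf)))))

noncomputable def L0_136 : Tr := node L0_134 (nat_lit 3859201282321) (nat_lit 8) L0_135

noncomputable def L0_137 : Tr := (node (node (node (node (node (node leaf (nat_lit 3859603801681) (nat_lit 0) leaf) (nat_lit 3859603802437) (nat_lit 14) leaf) (nat_lit 3859603804753) (nat_lit 14) (node (node leaf (nat_lit 3859603809349) (nat_lit 6) leaf) (nat_lit 3859603809361) (nat_lit 6) leaf)) (nat_lit 3859603809541) (nat_lit 2) (node (node (node leaf (nat_lit 3859603809553) (nat_lit 0) leaf) (nat_lit 3859603820869) (nat_lit 8) leaf) (nat_lit 3859603821589) (nat_lit 4) (node (node leaf (nat_lit 3859603821637) (nat_lit 2) leaf) (nat_lit 3859603821649) (nat_lit 6) leaf))) (nat_lit 3859603821829) (nat_lit 2) (node (node (node (node leaf (nat_lit 3859603821841) (nat_lit 0) leaf) (nat_lit 3859603821889) (nat_lit 23) leaf) (nat_lit 3859603850389) (nat_lit 10) (node (node leaf (nat_lit 3859603850833) (nat_lit 10) leaf) (nat_lit 3859603851541)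 (nat_lit 4) leaf)) (nat_lit 3859603853905) (nat_lit 12) (node (node (node leaf (nat_lit 3859603865749) (nat_lit 23) leaf) (nat_lit 3859603865893) (nat_lit 23) leaf) (nat_lit 3859603932181) (nat_lit 4) (node leaf (nat_lit 3859603932229) (nat_lit 10) leaf)))) (nat_lit 3859603935301) (nat_lit 6) (node (node (node (node (node leaf (nat_lit 3859603935493) (nat_lit 2) leaf) (nat_lit 3859604048197) (nat_lit 23) leaf) (nat_lit 3859604048209) (nat_lit 23) (node (node leaf (nat_lit 3859604050513) (nat_lit 12) leaf) (nat_lit 3859604055301) (nat_lit 2) leaf)) (nat_lit 3859604324629) (nat_lit 8) (node (node (node leaf (nat_lit 3859604325397) (nat_lit 4) leaf) (nat_lit 3859604328469) (nat_lit 4) leaf) (nat_lit 3859604328517) (nat_lit 6) (node (node leaf (nat_lit 3859604918293) (nat_lit 4) leaf) (nat_lit 3859604918341) (nat_lit 6) leaf))) (nat_lit 3859607277589) (nat_lit 4) (node (node (node (node leaf (nat_lit 3859607277637) (nat_lit 6) leaf) (nat_lit 3859608244549) (nat_lit 8) leaf) (nat_lit 3859608245269) (nat_lit 4) (node (node leaf (nat_lit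 3859608245317) (nat_lit 6) leaf) (nat_lit 3859638424897) (nat_lit 22) leaf)) (nat_lit 3859638468757) (nat_lit 22) (node (node (node leaf (nat_lit 3859638468901) (nat_lit 22) leaf) (nat_lit 3859638468997) (nat_lit 22) leaf) (nat_lit 3859638469669) (nat_lit 22) (node leaf (nat_lit 3859638469765) (nat_lit 22) leaf)))))

noncomputable def L0_138 : Tr := (node (node (node (node (node (node leaf (nat_lit 3859638666277) (nat_lit 22) leaf) (nat_lit 3859638714517) (nat_lit 22) leaf) (nat_lit 3859641570625) (nat_lit 21) (node (node leaf (nat_lit 3859641614485) (nat_lit 21) leaf) (nat_lit 3859641614629) (nat_lit 21) leaf)) (nat_lit 3859641796933) (nat_lit 2) (node (node (node leaf (nat_lit 3859641796945) (nat_lit 21) leaf) (nat_lit 3859641798757) (nat_lit 21) leaf) (nat_lit 3859641860485) (nat_lit 21) (node (node leaf (nat_lit 3859641861157) (nat_lit 21) leaf) (nat_lit 3859648947793) (nat_lit 16) leaf))) (nat_lit 3859648947796) (nat_lit 16) (node (node (node (node leaf (nat_lit 3859648956820) (nat_lit 16) leaf) (nat_lit 3859648972069) (nat_lit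 16) leaf) (nat_lit 3859648972357) (nat_lit 2) (node (node leaf (nat_lit 3859648972369) (nat_lit 0) leaf) (nat_lit 3859648972372) (nat_lit 16) leaf)) (nat_lit 3859648975141) (nat_lit 16) (node (node (node leaf (nat_lit 3859648975237) (nat_lit 8) leaf) (nat_lit 3859648975252) (nat_lit 8) leaf) (nat_lit 3859648975444) (nat_lit 16) (node leaf (nat_lit 3859648975909) (nat_lit 16) leaf)))) (nat_lit 3859648975945) (nat_lit 16) (node (node (node (node (node leaf (nat_lit 3859648976005) (nat_lit 16) leaf) (nat_lit 3859648976017) (nat_lit 0) leaf) (nat_lit 3859648976980) (nat_lit 16) (node (node leaf (nat_lit 3859648980304) (nat_lit 16) leaf) (nat_lit 3859649024581) (nat_lit 7) leaf)) (nat_lit 3859649024593) (nat_lit 7) (node (node (node leaf (nat_lit 3859649024596) (nat_lit 15) leaf) (nat_lit 3859649025049) (nat_lit 15) leaf) (nat_lit 3859649025097) (nat_lit 15) (node (node leaf (nat_lit 3859649025121) (nat_lit 6) leaf) (nat_lit 3859649025157) (nat_lit 2) leaf))) (nat_lit 3859649025169) (nat_lit 15) (node (node (node (node leaf (nat_lit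 3859649025286) (nat_lit 2) leaf) (nat_lit 3859649025289) (nat_lit 15) leaf) (nat_lit 3859649025298) (nat_lit 15) (node (node leaf (nat_lit 3859649025313) (nat_lit 0) leaf) (nat_lit 3859649025316) (nat_lit 15) leaf)) (nat_lit 3859649141029) (nat_lit 12) (node (node (node leaf (nat_lit 3859649141125) (nat_lit 12) leaf) (nat_lit 3859649141332) (nat_lit 18) leaf) (nat_lit 3859649144101) (nat_lit 18) (node leaf (nat_lit 3859649144212) (nat_lit 11) leaf)))))

noncomputable def L0_139 : Tr := node L0_137 (nat_lit 3859638651217) (nat_lit 22) L0_138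

noncomputable def L0_140 : Tr := node L0_136 (nat_lit 3859603345669) (nat_lit 17) L0_139

noncomputable def L0_141 : Tr := node L0_133 (nat_lit 3857594011909) (nat_lit 2) L0_140

noncomputable def L0_142 : Tr := (node (node (node (node (node (node leaf (nat_lit 3859649144401) (nat_lit 0) leaf) (nat_lit 3859649144404) (nat_lit 11) leaf) (nat_lit 3859649151397) (nat_lit 14) (node (node leaf (nat_lit 3859649152165) (nat_lit 14) leaf) (nat_lit 3859649153317) (nat_lit 14) leaf)) (nat_lit 3859649153353) (nat_lit 18) (node (node (node leaf (nat_lit 3859649153413) (nat_lit 18) leaf) (nat_lit 3859649153425) (nat_lit 0) leaf) (nat_lit 3859649153428) (nat_lit 18) (node (node leaf (nat_lit 3859649153620) (nat_lit 18) leaf) (nat_lit 3859649159497) (nat_lit 18) leaf))) (nat_lit 3859649159569) (nat_lit 0) (node (node (node (node leaf (nat_lit 3859649159572) (nat_lit 18) leaf) (nat_lit 3859649159764) (nat_lit 18) leaf) (nat_lit 3859649160340) (nat_lit 14) (node (node leaf (nat_lit 3859649161489) (nat_lit 0) leaf) (nat_lit 3859649161492) (nat_lit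 4) leaf)) (nat_lit 3859649161537) (nat_lit 0) (node (node (node leaf (nat_lit 3859649168485) (nat_lit 6) leaf) (nat_lit 3859649168677) (nat_lit 10) leaf) (nat_lit 3859649168980) (nat_lit 10) (node leaf (nat_lit 3859649169748) (nat_lit 9) leaf)))) (nat_lit 3859649171749) (nat_lit 8) (node (node (node (node (node leaf (nat_lit 3859649171845) (nat_lit 8) leaf) (nat_lit 3859649172052) (nat_lit 18) leaf) (nat_lit 3859649172505) (nat_lit 4) (node (node leaf (nat_lit 3859649172517) (nat_lit 18) leaf) (nat_lit 3859649172553) (nat_lit 18) leaf)) (nat_lit 3859649172625) (nat_lit 18) (node (node (node leaf (nat_lit 3859649172628) (nat_lit 18) leaf) (nat_lit 3859649172745) (nat_lit 18) leaf) (nat_lit 3859649172754) (nat_lit 18) (node (node leaf (nat_lit 3859649172772) (nat_lit 18) leaf) (nat_lit 3859649173585) (nat_lit 0) leaf))) (nat_lit 3859649173588) (nat_lit 18) (node (node (node (node leaf (nat_lit 3859649173780) (nat_lit 18) leaf) (nat_lit 3859649173828) (nat_lit 18) leaf) (nat_lit 3859649176900) (nat_lit 2) (node (node leaf (nat_lit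 3859649200549) (nat_lit 8) leaf) (nat_lit 3859649201317) (nat_lit 18) leaf)) (nat_lit 3859649201812) (nat_lit 10) (node (node (node leaf (nat_lit 3859649202469) (nat_lit 18) leaf) (nat_lit 3859649208724) (nat_lit 8) leaf) (nat_lit 3859649209609) (nat_lit 18) (node leaf (nat_lit 3859649209876) (nat_lit 18) leaf)))))

noncomputable def L0_143 : Tr := (node (node (node (node (node (node leaf (nat_lit 3859649268052) (nat_lit 9) leaf) (nat_lit 3859649269861) (nat_lit 6) leaf) (nat_lit 3859649270053) (nat_lit 18) (node (node leaf (nat_lit 3859649270164) (nat_lit 12) leaf) (nat_lit 3859649270356) (nat_lit 12) leaf)) (nat_lit 3859649270809) (nat_lit 4) (node (node (node leaf (nat_lit 3859649270917) (nat_lit 2) leaf) (nat_lit 3859649270932) (nat_lit 12) leaf) (nat_lit 3859649271046) (nat_lit 2) (node (node leaf (nat_lit 3859649271049) (nat_lit 18) leaf) (nat_lit 3859649272081) (nat_lit 12) leaf))) (nat_lit 3859649272084) (nat_lit 12) (node (node (node (node leaf (nat_lit 3859649282329) (nat_lit 4) leaf) (nat_lit 3859649282437) (nat_lit 2)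 leaf) (nat_lit 3859649282449) (nat_lit 0) (node (node leaf (nat_lit 3859649282452) (nat_lit 8) leaf) (nat_lit 3859649282644) (nat_lit 18) leaf)) (nat_lit 3859649283109) (nat_lit 10) (node (node (node leaf (nat_lit 3859649283337) (nat_lit 18) leaf) (nat_lit 3859649283604) (nat_lit 10) leaf) (nat_lit 3859649284177) (nat_lit 6) (node leaf (nat_lit 3859649284369) (nat_lit 0) leaf)))) (nat_lit 3859649286181) (nat_lit 18) (node (node (node (node (node leaf (nat_lit 3859649286292) (nat_lit 18) leaf) (nat_lit 3859649434945) (nat_lit 13) leaf) (nat_lit 3859649434948) (nat_lit 13) (node (node leaf (nat_lit 3859649463397) (nat_lit 6) leaf) (nat_lit 3859649463589) (nat_lit 10) leaf)) (nat_lit 3859649463829) (nat_lit 4) (node (node (node leaf (nat_lit 3859649463877) (nat_lit 2) leaf) (nat_lit 3859649463889) (nat_lit 0) leaf) (nat_lit 3859649463892) (nat_lit 10) (node (node leaf (nat_lit 3859649466517) (nat_lit 5) leaf) (nat_lit 3859649466661) (nat_lit 8) leaf))) (nat_lit 3859649466757) (nat_lit 12) (node (node (node (node leaf (nat_lit 3859649466961)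 (nat_lit 0) leaf) (nat_lit 3859649466964) (nat_lit 12) leaf) (nat_lit 3859649467429) (nat_lit 12) (node (node leaf (nat_lit 3859649468497) (nat_lit 12) leaf) (nat_lit 3859649468740) (nat_lit 12) leaf)) (nat_lit 3859649471809) (nat_lit 11) (node (node (node leaf (nat_lit 3859649471812) (nat_lit 2) leaf) (nat_lit 3859649471824) (nat_lit 11) leaf) (nat_lit 3859649478805) (nat_lit 5) (node leaf (nat_lit 3859649478949) (nat_lit 8) leaf)))))

noncomputable def L0_144 : Tr := node L0_142 (nat_lit 3859649268049) (nat_lit 0) L0_143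

noncomputable def L0_145 : Tr := (node (node (node (node (node (node leaf (nat_lit 3859649479060) (nat_lit 8) leaf) (nat_lit 3859649479249) (nat_lit 0) leaf) (nat_lit 3859649479252) (nat_lit 7) (node (node leaf (nat_lit 3859649479717) (nat_lit 3) leaf) (nat_lit 3859649479753) (nat_lit 10) leaf)) (nat_lit 3859649479813) (nat_lit 10) (node (node (node leaf (nat_lit 3859649479825) (nat_lit 0) leaf) (nat_lit 3859649479828) (nat_lit 17) leaf) (nat_lit 3859649480212) (nat_lit 10) (node (node leaf (nat_lit 3859649480785) (nat_lit 0) leaf) (nat_lit 3859649480977) (nat_lit 0) leaf))) (nat_lit 3859649480980) (nat_lit 4) (node (node (node (node leaf (nat_lit 3859649481025) (nat_lit 0) leaf) (nat_lit 3859649481040) (nat_lit 17) leaf) (nat_lit 3859649482777) (nat_lit 4) (node (node leaf (nat_lit 3859649482789) (nat_lit 3) leaf) (nat_lit 3859649482825) (nat_lit 6) leaf)) (nat_lit 3859649482849) (nat_lit 6) (node (node (node leaf (nat_lit 3859649482852) (nat_lit 6) leaf) (nat_lit 3859649482900) (nat_lit 17) leaf) (nat_lit 3859649483014) (nat_lit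 8) (node leaf (nat_lit 3859649483017) (nat_lit 8) leaf)))) (nat_lit 3859649483041) (nat_lit 0) (node (node (node (node (node leaf (nat_lit 3859649483284) (nat_lit 4) leaf) (nat_lit 3859649483785) (nat_lit 17) leaf) (nat_lit 3859649487172) (nat_lit 2) (node (node leaf (nat_lit 3859649496385) (nat_lit 0) leaf) (nat_lit 3859649496388) (nat_lit 10) leaf)) (nat_lit 3859649499457) (nat_lit 0) (node (node (node leaf (nat_lit 3859649927764) (nat_lit 12) leaf) (nat_lit 3859649930533) (nat_lit 3) leaf) (nat_lit 3859649930569) (nat_lit 11) (node (node leaf (nat_lit 3859649930629) (nat_lit 20) leaf) (nat_lit 3859649930644) (nat_lit 11) leaf))) (nat_lit 3859649938069) (nat_lit 14) (node (node (node (node leaf (nat_lit 3859649939749) (nat_lit 14) leaf) (nat_lit 3859649939785) (nat_lit 20) leaf) (nat_lit 3859649939857) (nat_lit 0) (node (node leaf (nat_lit 3859649939860) (nat_lit 14) leaf) (nat_lit 3859649940052) (nat_lit 20) leaf)) (nat_lit 3859649946196) (nat_lit 20) (node (node (node leaf (nat_lit 3859649946661) (nat_lit 20) leaf) (nat_lit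 3859649946889) (nat_lit 14) leaf) (nat_lit 3859649958181) (nat_lit 8) (node leaf (nat_lit 3859649958292) (nat_lit 8) leaf)))))

noncomputable def L0_146 : Tr := (node (node (node (node (node (node leaf (nat_lit 3859649958937) (nat_lit 4) leaf) (nat_lit 3859649958949) (nat_lit 3) leaf) (nat_lit 3859649958985) (nat_lit 6) (node (node leaf (nat_lit 3859649959009) (nat_lit 6) leaf) (nat_lit 3859649959045) (nat_lit 2) leaf)) (nat_lit 3859649959060) (nat_lit 20) (node (node (node leaf (nat_lit 3859649959174) (nat_lit 2) leaf) (nat_lit 3859649959177) (nat_lit 20) leaf) (nat_lit 3859649960257) (nat_lit 0) (node (node leaf (nat_lit 3859649986981) (nat_lit 8) leaf) (nat_lit 3859649987749) (nat_lit 16) leaf))) (nat_lit 3859649988901) (nat_lit 16) (node (node (node (node leaf (nat_lit 3859649989012) (nat_lit 20) leaf) (nat_lit 3859649991316) (nat_lit 16) leaf) (nat_lit 3859649995924) (nat_lit 16) (node (node leaf (nat_lit 3859650057481) (nat_lit 12) leaf) (nat_lit 3859650069652) (nat_lit 10) leaf)) (nat_lit 3859650070864) (nat_lit 9) (node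 (node (node leaf (nat_lit 3859650072724) (nat_lit 20) leaf) (nat_lit 3859650073168) (nat_lit 20) leaf) (nat_lit 3859650073609) (nat_lit 1) (node leaf (nat_lit 3859650073618) (nat_lit 20) leaf)))) (nat_lit 3859650183589) (nat_lit 8) (node (node (node (node (node leaf (nat_lit 3859650184852) (nat_lit 10) leaf) (nat_lit 3859650462100) (nat_lit 8) leaf) (nat_lit 3859650465940) (nat_lit 20) (node (node leaf (nat_lit 3859651007809) (nat_lit 0) leaf) (nat_lit 3859651036453) (nat_lit 10) leaf)) (nat_lit 3859651036741) (nat_lit 2) (node (node (node leaf (nat_lit 3859651036753) (nat_lit 10) leaf) (nat_lit 3859651037521) (nat_lit 16) leaf) (nat_lit 3859651039381) (nat_lit 12) (node (node leaf (nat_lit 3859651039525) (nat_lit 12) leaf) (nat_lit 3859651039813) (nat_lit 2) leaf))) (nat_lit 3859651041601) (nat_lit 12) (node (node (node (node leaf (nat_lit 3859651044676) (nat_lit 2) leaf) (nat_lit 3859651051621) (nat_lit 6) leaf) (nat_lit 3859651051669) (nat_lit 5) (node (node leaf (nat_lit 3859651051813) (nat_lit 8) leaf) (nat_lit 3859651051909)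 (nat_lit 8) leaf)) (nat_lit 3859651052116) (nat_lit 16) (node (node (node leaf (nat_lit 3859651052569) (nat_lit 4) leaf) (nat_lit 3859651052581) (nat_lit 16) leaf) (nat_lit 3859651052677) (nat_lit 2) (node leaf (nat_lit 3859651053649) (nat_lit 16) leaf)))))

noncomputable def L0_147 : Tr := node L0_145 (nat_lit 3859649958484) (nat_lit 20) L0_146

noncomputable def L0_148 : Tr := node L0_144 (nat_lit 3859649479045) (nat_lit 8) L0_147

noncomputable def L0_149 : Tr := (node (node (node (node (node (node leaf (nat_lit 3859651069249) (nat_lit 10) leaf) (nat_lit 3859651234129) (nat_lit 0) leaf) (nat_lit 3859651235941) (nat_lit 6) (node (node leaf (nat_lit 3859651236244) (nat_lit 12) leaf) (nat_lit 3859651237969) (nat_lit 12) leaf)) (nat_lit 3859651237972) (nat_lit 6) (node (node (node leaf (nat_lit 3859651248277) (nat_lit 14) leaf) (nat_lit 3859651248529) (nat_lit 0) leaf) (nat_lit 3859651248721) (nat_lit 0) (node (node leaf (nat_lit 3859651248724) (nat_lit 14) leaf) (nat_lit 3859651250257) (nat_lit 6) leaf))) (nat_lit 3859651297429)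 (nat_lit 5) (node (node (node (node leaf (nat_lit 3859651297573) (nat_lit 8) leaf) (nat_lit 3859651297669) (nat_lit 8) leaf) (nat_lit 3859651297873) (nat_lit 0) (node (node leaf (nat_lit 3859651298341) (nat_lit 10) leaf) (nat_lit 3859653073492) (nat_lit 12) leaf)) (nat_lit 3859653076261) (nat_lit 3) (node (node (node leaf (nat_lit 3859653076297) (nat_lit 11) leaf) (nat_lit 3859653083797) (nat_lit 14) leaf) (nat_lit 3859653084709) (nat_lit 14) (node leaf (nat_lit 3859653085513) (nat_lit 14) leaf)))) (nat_lit 3859653085588) (nat_lit 14) (node (node (node (node (node leaf (nat_lit 3859653085780) (nat_lit 14) leaf) (nat_lit 3859653091621) (nat_lit 8) leaf) (nat_lit 3859653104212) (nat_lit 7) (node (node leaf (nat_lit 3859653104788) (nat_lit 13) leaf) (nat_lit 3859653104905) (nat_lit 13) leaf)) (nat_lit 3859653133477) (nat_lit 16) (node (node (node leaf (nat_lit 3859653134629) (nat_lit 16) leaf) (nat_lit 3859653140773) (nat_lit 16) leaf) (nat_lit 3859653141652) (nat_lit 16) (node (node leaf (nat_lit 3859653141769) (nat_lit 16) leaf)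 (nat_lit 3859653218452) (nat_lit 5) leaf))) (nat_lit 3859653218596) (nat_lit 8) (node (node (node (node leaf (nat_lit 3859653219334) (nat_lit 2) leaf) (nat_lit 3859653329317) (nat_lit 8) leaf) (nat_lit 3859653330085) (nat_lit 18) (node (node leaf (nat_lit 3859653330580) (nat_lit 18) leaf) (nat_lit 3859653331237) (nat_lit 18) leaf)) (nat_lit 3859654115749) (nat_lit 8) (node (node (node leaf (nat_lit 3859657299217) (nat_lit 4) leaf) (nat_lit 3859657299265) (nat_lit 13) leaf) (nat_lit 3859657327717) (nat_lit 6) (node leaf (nat_lit 3859657328149) (nat_lit 4) leaf)))))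

noncomputable def L0_150 : Tr := (node (node (node (node (node (node leaf (nat_lit 3859657330789) (nat_lit 16) leaf) (nat_lit 3859657330837) (nat_lit 12) leaf) (nat_lit 3859657330981) (nat_lit 12) (node (node leaf (nat_lit 3859657332817) (nat_lit 16) leaf) (nat_lit 3859657336129) (nat_lit 0) leaf)) (nat_lit 3859657343125) (nat_lit 16) (node (node (node leaf (nat_lit 3859657343269) (nat_lit 8) leaf) (nat_lit 3859657343569) (nat_lit 16) leaf) (nat_lit 3859657525585) (nat_lit 9) (node (node leaf (nat_lit 3859657525588) (nat_lit 9) leaf) (nat_lit 3859657527445) (nat_lit 12) leaf))) (nat_lit 3859657527889) (nat_lit 12) (node (node (node (node leaf (nat_lit 3859657527892) (nat_lit 12) leaf) (nat_lit 3859657529425) (nat_lit 0) leaf) (nat_lit 3859657539733) (nat_lit 14) (node (node leaf (nat_lit 3859657540177) (nat_lit 0) leaf) (nat_lit 3859657589029) (nat_lit 8) leaf)) (nat_lit 3859666736401) (nat_lit 4) (node (node (node leaf (nat_lit 3859666736449) (nat_lit 20) leaf) (nat_lit 3859666767973) (nat_lit 16) leaf) (nat_lit 3859666768021)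 (nat_lit 12) (node leaf (nat_lit 3859666768165) (nat_lit 12) leaf)))) (nat_lit 3859666780309) (nat_lit 20) (node (node (node (node (node leaf (nat_lit 3859669911889) (nat_lit 16) leaf) (nat_lit 3859669913749) (nat_lit 12) leaf) (nat_lit 3859669913893) (nat_lit 12) (node (node leaf (nat_lit 3859669925989) (nat_lit 6) leaf) (nat_lit 3859669926037) (nat_lit 5) leaf)) (nat_lit 3859669926181) (nat_lit 8) (node (node (node leaf (nat_lit 3859669926277) (nat_lit 8) leaf) (nat_lit 3859669926949) (nat_lit 16) leaf) (nat_lit 3859670108497) (nat_lit 18) (node (node leaf (nat_lit 3859670122645) (nat_lit 14) leaf) (nat_lit 3859701649477) (nat_lit 19) leaf))) (nat_lit 3859703698501) (nat_lit 2) (node (node (node (node leaf (nat_lit 3859704004885) (nat_lit 8) leaf) (nat_lit 3859704005653) (nat_lit 17) leaf) (nat_lit 3859704008725) (nat_lit 4) (node (node leaf (nat_lit 3859704008773) (nat_lit 6) leaf) (nat_lit 3859704464533) (nat_lit 14) leaf)) (nat_lit 3859704464977) (nat_lit 10) (node (node (node leaf (nat_lit 3859704465685) (nat_lit 14) leaf)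 (nat_lit 3859704471889) (nat_lit 8) leaf) (nat_lit 3859704472645) (nat_lit 2) (node leaf (nat_lit 3859704472657) (nat_lit 6) leaf)))))

noncomputable def L0_151 : Tr := node L0_149 (nat_lit 3859657328197) (nat_lit 10) L0_150

noncomputable def L0_152 : Tr := (node (node (node (node (node (node leaf (nat_lit 3859704484933) (nat_lit 2) leaf) (nat_lit 3859704484945) (nat_lit 6) leaf) (nat_lit 3859704485137) (nat_lit 4) (node (node leaf (nat_lit 3859704512917) (nat_lit 8) leaf) (nat_lit 3859704514129) (nat_lit 10) leaf)) (nat_lit 3859704514885) (nat_lit 16) (node (node (node leaf (nat_lit 3859704514897) (nat_lit 16) leaf) (nat_lit 3859704521989) (nat_lit 16) leaf) (nat_lit 3859704583237) (nat_lit 12) (node (node leaf (nat_lit 3859704595477) (nat_lit 4) leaf) (nat_lit 3859704595525) (nat_lit 10) leaf))) (nat_lit 3859705578517) (nat_lit 10) (node (node (node (node leaf (nat_lit 3859708711957) (nat_lit 16) leaf) (nat_lit 3859708907797) (nat_lit 8) leaf) (nat_lit 3859708908565) (nat_lit 4) (node (node leaf (nat_lit 3859717096597) (nat_lit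 10) leaf) (nat_lit 3859717097041) (nat_lit 0) leaf)) (nat_lit 3859717097809) (nat_lit 20) (node (node (node leaf (nat_lit 3859717099669) (nat_lit 20) leaf) (nat_lit 3859717294417) (nat_lit 20) leaf) (nat_lit 3859720200529) (nat_lit 14) (node leaf (nat_lit 3859720241749) (nat_lit 16) leaf)))) (nat_lit 3859720242325) (nat_lit 10) (node (node (node (node (node leaf (nat_lit 3859720243537) (nat_lit 16) leaf) (nat_lit 3859720245397) (nat_lit 16) leaf) (nat_lit 3859720438357) (nat_lit 7) (node (node leaf (nat_lit 3859720438933) (nat_lit 10) leaf) (nat_lit 3859721224789) (nat_lit 7) leaf)) (nat_lit 3859721225365) (nat_lit 10) (node (node (node leaf (nat_lit 3859733877013) (nat_lit 8) leaf) (nat_lit 3859733877781) (nat_lit 16) leaf) (nat_lit 3859734073621) (nat_lit 8) (node (node leaf (nat_lit 3883096344148) (nat_lit 10) leaf) (nat_lit 3883096344913) (nat_lit 0) leaf))) (nat_lit 3883096408453) (nat_lit 28) (node (node (node (node leaf (nat_lit 3883096409125) (nat_lit 28) leaf) (nat_lit 3883348003156) (nat_lit 9) leaf) (nat_lit 3883348005013)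 (nat_lit 12) (node (node leaf (nat_lit 3883348005268) (nat_lit 12) leaf) (nat_lit 3883348005397) (nat_lit 12) leaf)) (nat_lit 3883348005460) (nat_lit 12) (node (node (node leaf (nat_lit 3883348006993) (nat_lit 0) leaf) (nat_lit 3883348006996) (nat_lit 6) leaf) (nat_lit 3883348007185) (nat_lit 0) (node leaf (nat_lit 3883348017301) (nat_lit 14) leaf)))))

noncomputable def L0_153 : Tr := (node (node (node (node (node (node leaf (nat_lit 3883348017748) (nat_lit 14) leaf) (nat_lit 3883348066897) (nat_lit 0) leaf) (nat_lit 3883357524229) (nat_lit 19) (node (node leaf (nat_lit 3883357524241) (nat_lit 19) leaf) (nat_lit 3883359883525) (nat_lit 17) leaf)) (nat_lit 3883359883537) (nat_lit 17) (node (node (node leaf (nat_lit 3883360339540) (nat_lit 14) leaf) (nat_lit 3883360340305) (nat_lit 14) leaf) (nat_lit 3883360347217) (nat_lit 6) (node (node leaf (nat_lit 3883360347397) (nat_lit 2) leaf) (nat_lit 3883360347409) (nat_lit 4) leaf))) (nat_lit 3883360347412) (nat_lit 4) (node (node (node (node leaf (nat_lit 3883360347457) (nat_lit 0) leaf)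 (nat_lit 3883360359493) (nat_lit 2) leaf) (nat_lit 3883360359505) (nat_lit 6) (node (node leaf (nat_lit 3883360359685) (nat_lit 2) leaf) (nat_lit 3883360359697) (nat_lit 0) leaf)) (nat_lit 3883360359700) (nat_lit 4) (node (node (node leaf (nat_lit 3883360389445) (nat_lit 2) leaf) (nat_lit 3883360391317) (nat_lit 16) leaf) (nat_lit 3883360391764) (nat_lit 12) (node leaf (nat_lit 3883360404517) (nat_lit 16) leaf)))) (nat_lit 3883360470085) (nat_lit 10) (node (node (node (node (node leaf (nat_lit 3883360470277) (nat_lit 10) leaf) (nat_lit 3883360473157) (nat_lit 6) leaf) (nat_lit 3883360473349) (nat_lit 2) (node (node leaf (nat_lit 3883360473361) (nat_lit 8) leaf) (nat_lit 3883360474117) (nat_lit 2) leaf)) (nat_lit 3883360585297) (nat_lit 10) (node (node (node leaf (nat_lit 3883360586065) (nat_lit 0) leaf) (nat_lit 3883360586068) (nat_lit 9) leaf) (nat_lit 3883360588069) (nat_lit 8) (node (node leaf (nat_lit 3883360588372) (nat_lit 12) leaf) (nat_lit 3883360589905) (nat_lit 0) leaf))) (nat_lit 3883360589908) (nat_lit 12) (node (node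 (node (node leaf (nat_lit 3883360593169) (nat_lit 4) leaf) (nat_lit 3883360600213) (nat_lit 5) leaf) (nat_lit 3883360600357) (nat_lit 8) (node (node leaf (nat_lit 3883360600453) (nat_lit 8) leaf) (nat_lit 3883360600657) (nat_lit 0) leaf)) (nat_lit 3883360600660) (nat_lit 14) (node (node (node leaf (nat_lit 3883360601125) (nat_lit 10) leaf) (nat_lit 3883360649605) (nat_lit 8) leaf) (nat_lit 3883360650277) (nat_lit 10) (node leaf (nat_lit 3883360851013) (nat_lit 12) leaf)))))

noncomputable def L0_154 : Tr := node L0_152 (nat_lit 3883348017745) (nat_lit 0) L0_153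

noncomputable def L0_155 : Tr := node L0_151 (nat_lit 3859704484117) (nat_lit 8) L0_154

noncomputable def L0_156 : Tr := node L0_148 (nat_lit 3859651055653) (nat_lit 16) L0_155

noncomputable def L0_157 : Tr := node L0_141 (nat_lit 3859649144389) (nat_lit 2) L0_156

noncomputable def L0_158 : Tr := (node (node (node (node (node (node leaf (nat_lit 3883360863253) (nat_lit 4) leaf) (nat_lit 3883360863301) (nat_lit 6) leaf) (nat_lit 3883360866373) (nat_lit 6) (node (node leaf (nat_lit 3883360866565) (nat_lit 2) leaf) (nat_lit 3883361456197) (nat_lit 6) leaf)) (nat_lit 3883361456389) (nat_lit 2) (node (node (node leaf (nat_lit 3883363815493) (nat_lit 6) leaf) (nat_lit 3883363815685) (nat_lit 2) leaf) (nat_lit 3883364783173) (nat_lit 2) (node (node leaf (nat_lit 3883364783185) (nat_lit 6) leaf) (nat_lit 3883364783365) (nat_lit 2) leaf))) (nat_lit 3883901714581) (nat_lit 5) (node (node (node (node leaf (nat_lit 3883901714725) (nat_lit 8) leaf) (nat_lit 3884908284241) (nat_lit 26) leaf) (nat_lit 3884908347781) (nat_lit 26) (node (node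 leaf (nat_lit 3884908348453) (nat_lit 26) leaf) (nat_lit 3884958614677) (nat_lit 10) leaf)) (nat_lit 3884958615061) (nat_lit 10) (node (node (node leaf (nat_lit 3884958615121) (nat_lit 25) leaf) (nat_lit 3884958615889) (nat_lit 9) leaf) (nat_lit 3884958617749) (nat_lit 12) (node leaf (nat_lit 3884958618001) (nat_lit 0) leaf)))) (nat_lit 3884958618193) (nat_lit 12) (node (node (node (node (node leaf (nat_lit 3884958619729) (nat_lit 6) leaf) (nat_lit 3884958630481) (nat_lit 14) leaf) (nat_lit 3884968136773) (nat_lit 19) (node (node leaf (nat_lit 3884968136965) (nat_lit 19) leaf) (nat_lit 3884970496069) (nat_lit 17) leaf)) (nat_lit 3884970496261) (nat_lit 17) (node (node (node leaf (nat_lit 3884970940753) (nat_lit 12) leaf) (nat_lit 3884970952273) (nat_lit 0) leaf) (nat_lit 3884970953029) (nat_lit 2) (node (node leaf (nat_lit 3884970954901) (nat_lit 14) leaf) (nat_lit 3884970955348) (nat_lit 14) leaf))) (nat_lit 3884970959941) (nat_lit 2) (node (node (node (node leaf (nat_lit 3884970960133) (nat_lit 2) leaf) (nat_lit 3884970960145)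 (nat_lit 4) leaf) (nat_lit 3884970971461) (nat_lit 8) (node (node leaf (nat_lit 3884970972181) (nat_lit 4) leaf) (nat_lit 3884970972229) (nat_lit 2) leaf)) (nat_lit 3884970972241) (nat_lit 6) (node (node (node leaf (nat_lit 3884970972433) (nat_lit 0) leaf) (nat_lit 3884971000981) (nat_lit 10) leaf) (nat_lit 3884971001425) (nat_lit 16) (node leaf (nat_lit 3884971001428) (nat_lit 10) leaf)))))

noncomputable def L0_159 : Tr := (node (node (node (node (node (node leaf (nat_lit 3884971002196) (nat_lit 16) leaf) (nat_lit 3884971004497) (nat_lit 0) leaf) (nat_lit 3884971009297) (nat_lit 16) (node (node leaf (nat_lit 3884971016341) (nat_lit 16) leaf) (nat_lit 3884971016485) (nat_lit 16) leaf)) (nat_lit 3884971017253) (nat_lit 16) (node (node (node leaf (nat_lit 3884971070533) (nat_lit 12) leaf) (nat_lit 3884971082773) (nat_lit 4) leaf) (nat_lit 3884971082821) (nat_lit 10) (node (node leaf (nat_lit 3884971085893) (nat_lit 6) leaf) (nat_lit 3884971086085) (nat_lit 2) leaf))) (nat_lit 3884971197733) (nat_lit 10) (node (node (node (node leaf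 (nat_lit 3884971198021) (nat_lit 2) leaf) (nat_lit 3884971198789) (nat_lit 2) leaf) (nat_lit 3884971198801) (nat_lit 0) (node (node leaf (nat_lit 3884971198804) (nat_lit 9) leaf) (nat_lit 3884971200613) (nat_lit 6) leaf)) (nat_lit 3884971200661) (nat_lit 12) (node (node (node leaf (nat_lit 3884971201105) (nat_lit 0) leaf) (nat_lit 3884971201108) (nat_lit 12) leaf) (nat_lit 3884971205893) (nat_lit 2) (node leaf (nat_lit 3884971212949) (nat_lit 5) leaf)))) (nat_lit 3884971213093) (nat_lit 8) (node (node (node (node (node leaf (nat_lit 3884971262101) (nat_lit 5) leaf) (nat_lit 3884971262245) (nat_lit 8) leaf) (nat_lit 3884971463701) (nat_lit 12) (node (node leaf (nat_lit 3884971463749) (nat_lit 12) leaf) (nat_lit 3884971475221) (nat_lit 8) leaf)) (nat_lit 3884971475989) (nat_lit 4) (node (node (node leaf (nat_lit 3884971479061) (nat_lit 4) leaf) (nat_lit 3884971479109) (nat_lit 6) leaf) (nat_lit 3884972068885) (nat_lit 4) (node (node leaf (nat_lit 3884972068933) (nat_lit 6) leaf) (nat_lit 3884974428181) (nat_lit 4) leaf))) (nat_lit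 3884974428229) (nat_lit 6) (node (node (node (node leaf (nat_lit 3884975395141) (nat_lit 8) leaf) (nat_lit 3884975395861) (nat_lit 4) leaf) (nat_lit 3884975395909) (nat_lit 2) (node (node leaf (nat_lit 3885109610065) (nat_lit 0) leaf) (nat_lit 3885109674133) (nat_lit 5) leaf)) (nat_lit 3885109674277) (nat_lit 8) (node (node (node leaf (nat_lit 3885361071253) (nat_lit 16) leaf) (nat_lit 3885361071697) (nat_lit 16) leaf) (nat_lit 3885361072465) (nat_lit 16) (node leaf (nat_lit 3885361074325) (nat_lit 16) leaf)))))

noncomputable def L0_160 : Tr := node L0_158 (nat_lit 3884971002193) (nat_lit 16) L0_159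

noncomputable def L0_161 : Tr := (node (node (node (node (node (node leaf (nat_lit 3885361267861) (nat_lit 10) leaf) (nat_lit 3885361269061) (nat_lit 2) leaf) (nat_lit 3885361269073) (nat_lit 24) (node (node leaf (nat_lit 3885370789909) (nat_lit 19) leaf) (nat_lit 3885370789957) (nat_lit 19) leaf)) (nat_lit 3885372838981) (nat_lit 18) (node (node (node leaf (nat_lit 3885373145365) (nat_lit 17) leaf) (nat_lit 3885373146133) (nat_lit 17) leaf) (nat_lit 3885373149205) (nat_lit 17) (node (node leaf (nat_lit 3885373149253) (nat_lit 17) leaf) (nat_lit 3885373593925) (nat_lit 12) leaf))) (nat_lit 3885373605013) (nat_lit 14) (node (node (node (node leaf (nat_lit 3885373605445) (nat_lit 2) leaf) (nat_lit 3885373605457) (nat_lit 14) leaf) (nat_lit 3885373606165) (nat_lit 4) (node (node leaf (nat_lit 3885373608529) (nat_lit 14) leaf) (nat_lit 3885373612357) (nat_lit 8) leaf)) (nat_lit 3885373613077) (nat_lit 4) (node (node (node leaf (nat_lit 3885373613125) (nat_lit 6) leaf) (nat_lit 3885373613137) (nat_lit 6) leaf) (nat_lit 3885373613317)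 (nat_lit 2) (node leaf (nat_lit 3885373624597) (nat_lit 8) leaf)))) (nat_lit 3885373625365) (nat_lit 4) (node (node (node (node (node leaf (nat_lit 3885373625413) (nat_lit 2) leaf) (nat_lit 3885373625425) (nat_lit 6) leaf) (nat_lit 3885373625617) (nat_lit 23) (node (node leaf (nat_lit 3885373654597) (nat_lit 2) leaf) (nat_lit 3885373654609) (nat_lit 10) leaf)) (nat_lit 3885373655365) (nat_lit 16) (node (node (node leaf (nat_lit 3885373655377) (nat_lit 16) leaf) (nat_lit 3885373657189) (nat_lit 23) leaf) (nat_lit 3885373657237) (nat_lit 12) (node (node leaf (nat_lit 3885373657381) (nat_lit 12) leaf) (nat_lit 3885373657681) (nat_lit 16) leaf))) (nat_lit 3885373662469) (nat_lit 16) (node (node (node (node leaf (nat_lit 3885373723669) (nat_lit 12) leaf) (nat_lit 3885373723717) (nat_lit 12) leaf) (nat_lit 3885373735189) (nat_lit 8) (node (node leaf (nat_lit 3885373735957) (nat_lit 4) leaf) (nat_lit 3885373736005) (nat_lit 10) leaf)) (nat_lit 3885373739029) (nat_lit 4) (node (node (node leaf (nat_lit 3885373739077) (nat_lit 6) leaf) (nat_lit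 3885374116117) (nat_lit 12) leaf) (nat_lit 3885374116885) (nat_lit 12) (node leaf (nat_lit 3885374128213) (nat_lit 6) leaf)))))

noncomputable def L0_162 : Tr := (node (node (node (node (node (node leaf (nat_lit 3885374132245) (nat_lit 4) leaf) (nat_lit 3885374718997) (nat_lit 10) leaf) (nat_lit 3885374722069) (nat_lit 4) (node (node leaf (nat_lit 3885377078293) (nat_lit 10) leaf) (nat_lit 3885377081365) (nat_lit 4) leaf)) (nat_lit 3885378048277) (nat_lit 8) (node (node (node leaf (nat_lit 3885378049045) (nat_lit 4) leaf) (nat_lit 3885408258385) (nat_lit 22) leaf) (nat_lit 3885408260245) (nat_lit 22) (node (node leaf (nat_lit 3885408272485) (nat_lit 22) leaf) (nat_lit 3885408272533) (nat_lit 22) leaf))) (nat_lit 3885408454993) (nat_lit 22) (node (node (node (node leaf (nat_lit 3885408469141) (nat_lit 22) leaf) (nat_lit 3885411374353) (nat_lit 21) leaf) (nat_lit 3885411374401) (nat_lit 21) (node (node leaf (nat_lit 3885411405925) (nat_lit 21) leaf) (nat_lit 3885411664021) (nat_lit 5) leaf)) (nat_lit 3885411664165) (nat_lit 8) (node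 (node (node leaf (nat_lit 3885418748293) (nat_lit 16) leaf) (nat_lit 3885418751557) (nat_lit 16) leaf) (nat_lit 3885418751569) (nat_lit 16) (node leaf (nat_lit 3885418751572) (nat_lit 16) leaf)))) (nat_lit 3885418760521) (nat_lit 16) (node (node (node (node (node leaf (nat_lit 3885418760593) (nat_lit 16) leaf) (nat_lit 3885418775653) (nat_lit 16) leaf) (nat_lit 3885418775845) (nat_lit 16) (node (node leaf (nat_lit 3885418775941) (nat_lit 10) leaf) (nat_lit 3885418776085) (nat_lit 4) leaf)) (nat_lit 3885418776133) (nat_lit 2) (node (node (node leaf (nat_lit 3885418776145) (nat_lit 0) leaf) (nat_lit 3885418776148) (nat_lit 16) leaf) (nat_lit 3885418778773) (nat_lit 5) (node (node leaf (nat_lit 3885418778917) (nat_lit 16) leaf) (nat_lit 3885418779013) (nat_lit 8) leaf))) (nat_lit 3885418779025) (nat_lit 8) (node (node (node (node leaf (nat_lit 3885418779220) (nat_lit 16) leaf) (nat_lit 3885418779673) (nat_lit 4) leaf) (nat_lit 3885418779685) (nat_lit 16) (node (node leaf (nat_lit 3885418779781) (nat_lit 2) leaf) (nat_lit 3885418780753)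 (nat_lit 16) leaf)) (nat_lit 3885418784068) (nat_lit 2) (node (node (node leaf (nat_lit 3885418827877) (nat_lit 15) leaf) (nat_lit 3885418828129) (nat_lit 8) leaf) (nat_lit 3885418828165) (nat_lit 8) (node leaf (nat_lit 3885418828180) (nat_lit 15) leaf)))))

noncomputable def L0_163 : Tr := node L0_161 (nat_lit 3885374129173) (nat_lit 10) L0_162

noncomputable def L0_164 : Tr := node L0_160 (nat_lit 3885361267285) (nat_lit 7) L0_163

noncomputable def L0_165 : Tr := (node (node (node (node (node (node leaf (nat_lit 3885418828357) (nat_lit 2) leaf) (nat_lit 3885418828369) (nat_lit 0) leaf) (nat_lit 3885418828837) (nat_lit 3) (node (node leaf (nat_lit 3885418828873) (nat_lit 6) leaf) (nat_lit 3885418828897) (nat_lit 6) leaf)) (nat_lit 3885418828900) (nat_lit 6) (node (node (node leaf (nat_lit 3885418828933) (nat_lit 15) leaf) (nat_lit 3885418829062) (nat_lit 2) leaf) (nat_lit 3885418829065) (nat_lit 15) (node (node leaf (nat_lit 3885418829089) (nat_lit 0) leaf) (nat_lit 3885418944805) (nat_lit 12) leaf))) (nat_lit 3885418944901) (nat_lit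 12) (node (node (node (node leaf (nat_lit 3885418945108) (nat_lit 18) leaf) (nat_lit 3885418947685) (nat_lit 6) leaf) (nat_lit 3885418947877) (nat_lit 18) (node (node leaf (nat_lit 3885418947913) (nat_lit 11) leaf) (nat_lit 3885418947973) (nat_lit 18) leaf)) (nat_lit 3885418947985) (nat_lit 11) (node (node (node leaf (nat_lit 3885418948117) (nat_lit 4) leaf) (nat_lit 3885418948165) (nat_lit 2) leaf) (nat_lit 3885418948177) (nat_lit 0) (node leaf (nat_lit 3885418948180) (nat_lit 11) leaf)))) (nat_lit 3885418955173) (nat_lit 8) (node (node (node (node (node leaf (nat_lit 3885418955413) (nat_lit 18) leaf) (nat_lit 3885418957081) (nat_lit 4) leaf) (nat_lit 3885418957093) (nat_lit 14) (node (node leaf (nat_lit 3885418957129) (nat_lit 18) leaf) (nat_lit 3885418957189) (nat_lit 2) leaf)) (nat_lit 3885418957201) (nat_lit 18) (node (node (node leaf (nat_lit 3885418957396) (nat_lit 18) leaf) (nat_lit 3885418963225) (nat_lit 4) leaf) (nat_lit 3885418963333) (nat_lit 2) (node (node leaf (nat_lit 3885418963540) (nat_lit 18) leaf) (nat_lit 3885418964005)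 (nat_lit 18) leaf))) (nat_lit 3885418964233) (nat_lit 14) (node (node (node (node leaf (nat_lit 3885418964500) (nat_lit 14) leaf) (nat_lit 3885418972261) (nat_lit 6) leaf) (nat_lit 3885418972453) (nat_lit 10) (node (node leaf (nat_lit 3885418973524) (nat_lit 9) leaf) (nat_lit 3885418975333) (nat_lit 6) leaf)) (nat_lit 3885418975525) (nat_lit 8) (node (node (node leaf (nat_lit 3885418975636) (nat_lit 8) leaf) (nat_lit 3885418975825) (nat_lit 0) leaf) (nat_lit 3885418975828) (nat_lit 18) (node leaf (nat_lit 3885418976293) (nat_lit 18) leaf)))))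

noncomputable def L0_166 : Tr := (node (node (node (node (node (node leaf (nat_lit 3885418976404) (nat_lit 18) leaf) (nat_lit 3885418976521) (nat_lit 18) leaf) (nat_lit 3885418977361) (nat_lit 0) (node (node leaf (nat_lit 3885418977364) (nat_lit 6) leaf) (nat_lit 3885418977553) (nat_lit 0) leaf)) (nat_lit 3885418977556) (nat_lit 4) (node (node (node leaf (nat_lit 3885418977601) (nat_lit 0) leaf) (nat_lit 3885419004325) (nat_lit 8) leaf) (nat_lit 3885419005093) (nat_lit 18) (node (node leaf (nat_lit 3885419006245) (nat_lit 18) leaf) (nat_lit 3885419013268) (nat_lit 18) leaf))) (nat_lit 3885419071825) (nat_lit 0) (node (node (node (node leaf (nat_lit 3885419073637) (nat_lit 6) leaf) (nat_lit 3885419073937) (nat_lit 0) leaf) (nat_lit 3885419073940) (nat_lit 8) (node (node leaf (nat_lit 3885419074597) (nat_lit 12) leaf) (nat_lit 3885419074825) (nat_lit 12) leaf)) (nat_lit 3885419075665) (nat_lit 6) (node (node (node leaf (nat_lit 3885419075668) (nat_lit 6) leaf) (nat_lit 3885419075857) (nat_lit 0) leaf) (nat_lit 3885419085973) (nat_lit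 5) (node leaf (nat_lit 3885419086117) (nat_lit 8) leaf)))) (nat_lit 3885419086417) (nat_lit 0) (node (node (node (node (node leaf (nat_lit 3885419086420) (nat_lit 7) leaf) (nat_lit 3885419086921) (nat_lit 6) leaf) (nat_lit 3885419086996) (nat_lit 18) (node (node leaf (nat_lit 3885419218453) (nat_lit 14) leaf) (nat_lit 3885419221141) (nat_lit 14) leaf)) (nat_lit 3885419238721) (nat_lit 13) (node (node (node leaf (nat_lit 3885419266645) (nat_lit 7) leaf) (nat_lit 3885419267173) (nat_lit 6) leaf) (nat_lit 3885419267221) (nat_lit 10) (node (node leaf (nat_lit 3885419267365) (nat_lit 10) leaf) (nat_lit 3885419267605) (nat_lit 4) leaf))) (nat_lit 3885419267653) (nat_lit 2) (node (node (node (node leaf (nat_lit 3885419267665) (nat_lit 0) leaf) (nat_lit 3885419268433) (nat_lit 9) leaf) (nat_lit 3885419270293) (nat_lit 5) (node (node leaf (nat_lit 3885419270437) (nat_lit 12) leaf) (nat_lit 3885419270737) (nat_lit 0) leaf)) (nat_lit 3885419270740) (nat_lit 12) (node (node (node leaf (nat_lit 3885419272273) (nat_lit 12) leaf) (nat_lit 3885419275540)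 (nat_lit 4) leaf) (nat_lit 3885419275585) (nat_lit 0) (node leaf (nat_lit 3885419275588) (nat_lit 11) leaf)))))

noncomputable def L0_167 : Tr := node L0_165 (nat_lit 3885418976389) (nat_lit 18) L0_166

noncomputable def L0_168 : Tr := (node (node (node (node (node (node leaf (nat_lit 3885419282581) (nat_lit 5) leaf) (nat_lit 3885419282725) (nat_lit 8) leaf) (nat_lit 3885419282821) (nat_lit 8) (node (node leaf (nat_lit 3885419282833) (nat_lit 8) leaf) (nat_lit 3885419282836) (nat_lit 17) leaf)) (nat_lit 3885419283025) (nat_lit 0) (node (node (node leaf (nat_lit 3885419283028) (nat_lit 7) leaf) (nat_lit 3885419283481) (nat_lit 10) leaf) (nat_lit 3885419283493) (nat_lit 10) (node (node leaf (nat_lit 3885419283589) (nat_lit 2) leaf) (nat_lit 3885419283604) (nat_lit 10) leaf))) (nat_lit 3885419283988) (nat_lit 10) (node (node (node (node leaf (nat_lit 3885419284561) (nat_lit 6) leaf) (nat_lit 3885419284564) (nat_lit 6) leaf) (nat_lit 3885419284753) (nat_lit 0) (node (node leaf (nat_lit 3885419284804) (nat_lit 2) leaf) (nat_lit 3885419286565)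 (nat_lit 3) leaf)) (nat_lit 3885419286601) (nat_lit 6) (node (node (node leaf (nat_lit 3885419286625) (nat_lit 6) leaf) (nat_lit 3885419286676) (nat_lit 17) leaf) (nat_lit 3885419286793) (nat_lit 8) (node leaf (nat_lit 3885419290945) (nat_lit 0) leaf)))) (nat_lit 3885419300113) (nat_lit 4) (node (node (node (node (node leaf (nat_lit 3885419300161) (nat_lit 0) leaf) (nat_lit 3885419731540) (nat_lit 12) leaf) (nat_lit 3885419734309) (nat_lit 20) (node (node leaf (nat_lit 3885419734345) (nat_lit 20) leaf) (nat_lit 3885419734417) (nat_lit 0) leaf)) (nat_lit 3885419741845) (nat_lit 20) (node (node (node leaf (nat_lit 3885419742757) (nat_lit 20) leaf) (nat_lit 3885419743513) (nat_lit 4) leaf) (nat_lit 3885419743525) (nat_lit 14) (node (node leaf (nat_lit 3885419743621) (nat_lit 2) leaf) (nat_lit 3885419743636) (nat_lit 20) leaf))) (nat_lit 3885419743828) (nat_lit 20) (node (node (node (node leaf (nat_lit 3885419749669) (nat_lit 20) leaf) (nat_lit 3885419750548) (nat_lit 14) leaf) (nat_lit 3885419761957) (nat_lit 8) (node (node leaf (nat_lit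 3885419762068) (nat_lit 8) leaf) (nat_lit 3885419762260) (nat_lit 20) leaf)) (nat_lit 3885419762725) (nat_lit 3) (node (node (node leaf (nat_lit 3885419762761) (nat_lit 6) leaf) (nat_lit 3885419762953) (nat_lit 20) leaf) (nat_lit 3885419790757) (nat_lit 8) (node leaf (nat_lit 3885419791525) (nat_lit 20) leaf)))))

noncomputable def L0_169 : Tr := (node (node (node (node (node (node leaf (nat_lit 3885419792677) (nat_lit 20) leaf) (nat_lit 3885419872660) (nat_lit 8) leaf) (nat_lit 3885419876500) (nat_lit 20) (node (node leaf (nat_lit 3885420811537) (nat_lit 4) leaf) (nat_lit 3885420811585) (nat_lit 13) leaf)) (nat_lit 3885420840037) (nat_lit 6) (node (node (node leaf (nat_lit 3885420840469) (nat_lit 4) leaf) (nat_lit 3885420840517) (nat_lit 2) leaf) (nat_lit 3885420841285) (nat_lit 2) (node (node leaf (nat_lit 3885420841297) (nat_lit 16) leaf) (nat_lit 3885420843109) (nat_lit 12) leaf))) (nat_lit 3885420843157) (nat_lit 12) (node (node (node (node leaf (nat_lit 3885420845137) (nat_lit 16) leaf) (nat_lit 3885420848449) (nat_lit 0)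 leaf) (nat_lit 3885420855445) (nat_lit 16) (node (node leaf (nat_lit 3885420855589) (nat_lit 8) leaf) (nat_lit 3885420855685) (nat_lit 8) leaf)) (nat_lit 3885420855889) (nat_lit 16) (node (node (node leaf (nat_lit 3885420856357) (nat_lit 10) leaf) (nat_lit 3885421037893) (nat_lit 2) leaf) (nat_lit 3885421037905) (nat_lit 9) (node leaf (nat_lit 3885421037908) (nat_lit 9) leaf)))) (nat_lit 3885421039765) (nat_lit 12) (node (node (node (node (node leaf (nat_lit 3885421040209) (nat_lit 12) leaf) (nat_lit 3885421040212) (nat_lit 12) leaf) (nat_lit 3885421041745) (nat_lit 0) (node (node leaf (nat_lit 3885421052053) (nat_lit 14) leaf) (nat_lit 3885421052497) (nat_lit 0) leaf)) (nat_lit 3885422875285) (nat_lit 12) (node (node (node leaf (nat_lit 3885422877268) (nat_lit 12) leaf) (nat_lit 3885422880037) (nat_lit 11) leaf) (nat_lit 3885422888101) (nat_lit 14) (node (node leaf (nat_lit 3885422889253) (nat_lit 14) leaf) (nat_lit 3885422895397) (nat_lit 14) leaf))) (nat_lit 3885422908489) (nat_lit 6) (node (node (node (node leaf (nat_lit 3885422936485)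 (nat_lit 8) leaf) (nat_lit 3885422937253) (nat_lit 16) leaf) (nat_lit 3885422938405) (nat_lit 16) (node (node leaf (nat_lit 3885423133093) (nat_lit 8) leaf) (nat_lit 3885427085461) (nat_lit 14) leaf)) (nat_lit 3885427102801) (nat_lit 6) (node (node (node leaf (nat_lit 3885427102981) (nat_lit 2) leaf) (nat_lit 3885427102993) (nat_lit 4) leaf) (nat_lit 3885427130965) (nat_lit 7) (node leaf (nat_lit 3885427131493) (nat_lit 10) leaf)))))

noncomputable def L0_170 : Tr := node L0_168 (nat_lit 3885419792020) (nat_lit 10) L0_169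

noncomputable def L0_171 : Tr := node L0_167 (nat_lit 3885419282533) (nat_lit 6) L0_170

noncomputable def L0_172 : Tr := node L0_164 (nat_lit 3885418828309) (nat_lit 4) L0_171

noncomputable def L0_173 : Tr := (node (node (node (node (node (node leaf (nat_lit 3885427131925) (nat_lit 4) leaf) (nat_lit 3885427132753) (nat_lit 16) leaf) (nat_lit 3885427134613) (nat_lit 16) (node (node leaf (nat_lit 3885427134757) (nat_lit 12) leaf) (nat_lit 3885427146853) (nat_lit 6) leaf)) (nat_lit 3885427146901) (nat_lit 16) (node (node (node leaf (nat_lit 3885427329361) (nat_lit 0) leaf) (nat_lit 3885436539985) (nat_lit 6) leaf) (nat_lit 3885436540165) (nat_lit 2) (node (node leaf (nat_lit 3885436540177) (nat_lit 4) leaf) (nat_lit 3885436568677) (nat_lit 10) leaf))) (nat_lit 3885436569937) (nat_lit 20) (node (node (node (node leaf (nat_lit 3885436571797) (nat_lit 20) leaf) (nat_lit 3885436584037) (nat_lit 20) leaf) (nat_lit 3885436584085) (nat_lit 20) (node (node leaf (nat_lit 3885436766545) (nat_lit 20) leaf) (nat_lit 3885436780693) (nat_lit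 20) leaf)) (nat_lit 3885439715653) (nat_lit 2) (node (node (node leaf (nat_lit 3885439715665) (nat_lit 16) leaf) (nat_lit 3885439717477) (nat_lit 12) leaf) (nat_lit 3885439729813) (nat_lit 16) (node leaf (nat_lit 3885439912261) (nat_lit 2) leaf)))) (nat_lit 3885471453205) (nat_lit 4) (node (node (node (node (node leaf (nat_lit 3885473501461) (nat_lit 18) leaf) (nat_lit 3885473502229) (nat_lit 4) leaf) (nat_lit 3885473796373) (nat_lit 12) (node (node leaf (nat_lit 3885473797141) (nat_lit 12) leaf) (nat_lit 3885473808469) (nat_lit 6) leaf)) (nat_lit 3885473809429) (nat_lit 10) (node (node (node leaf (nat_lit 3885474256021) (nat_lit 12) leaf) (nat_lit 3885474257173) (nat_lit 12) leaf) (nat_lit 3885474267541) (nat_lit 8) (node (node leaf (nat_lit 3885474268741) (nat_lit 2) leaf) (nat_lit 3885474268753) (nat_lit 14) leaf))) (nat_lit 3885474269509) (nat_lit 14) (node (node (node (node leaf (nat_lit 3885474275653) (nat_lit 8) leaf) (nat_lit 3885474276373) (nat_lit 4) leaf) (nat_lit 3885474276421) (nat_lit 2) (node (node leaf (nat_lit 3885474276613)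 (nat_lit 14) leaf) (nat_lit 3885474287701) (nat_lit 6) leaf)) (nat_lit 3885474288661) (nat_lit 4) (node (node (node leaf (nat_lit 3885474288709) (nat_lit 2) leaf) (nat_lit 3885474288721) (nat_lit 6) leaf) (nat_lit 3885474288901) (nat_lit 2) (node leaf (nat_lit 3885474317461) (nat_lit 22) leaf)))))

noncomputable def L0_174 : Tr := (node (node (node (node (node (node leaf (nat_lit 3885474318661) (nat_lit 2) leaf) (nat_lit 3885474318673) (nat_lit 22) leaf) (nat_lit 3885474325573) (nat_lit 6) (node (node leaf (nat_lit 3885474386965) (nat_lit 12) leaf) (nat_lit 3885474387013) (nat_lit 12) leaf)) (nat_lit 3885474399253) (nat_lit 4) (node (node (node leaf (nat_lit 3885474515281) (nat_lit 22) leaf) (nat_lit 3885475381525) (nat_lit 8) leaf) (nat_lit 3885478514965) (nat_lit 16) (node (node leaf (nat_lit 3885478515733) (nat_lit 16) leaf) (nat_lit 3885478711381) (nat_lit 6) leaf))) (nat_lit 3885478711573) (nat_lit 8) (node (node (node (node leaf (nat_lit 3885486899797) (nat_lit 20) leaf) (nat_lit 3885486900373) (nat_lit 10) leaf) (nat_lit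 3885486901573) (nat_lit 2) (node (node leaf (nat_lit 3885486901585) (nat_lit 20) leaf) (nat_lit 3885489988945) (nat_lit 11) leaf)) (nat_lit 3885489998161) (nat_lit 14) (node (node (node leaf (nat_lit 3885490000021) (nat_lit 14) leaf) (nat_lit 3885490045525) (nat_lit 16) leaf) (nat_lit 3885490046101) (nat_lit 10) (node leaf (nat_lit 3885490242133) (nat_lit 18) leaf)))) (nat_lit 3885503680597) (nat_lit 6) (node (node (node (node (node leaf (nat_lit 3885503680789) (nat_lit 16) leaf) (nat_lit 3885503877205) (nat_lit 6) leaf) (nat_lit 3891350798485) (nat_lit 26) (node (node leaf (nat_lit 3891401065045) (nat_lit 7) leaf) (nat_lit 3891401065621) (nat_lit 10) leaf)) (nat_lit 3891410587669) (nat_lit 19) (node (node (node leaf (nat_lit 3891410587717) (nat_lit 19) leaf) (nat_lit 3891412946965) (nat_lit 17) leaf) (nat_lit 3891412947013) (nat_lit 17) (node (node leaf (nat_lit 3891413391685) (nat_lit 12) leaf) (nat_lit 3891413402773) (nat_lit 10) leaf))) (nat_lit 3891413403205) (nat_lit 2) (node (node (node (node leaf (nat_lit 3891413403217)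 (nat_lit 14) leaf) (nat_lit 3891413403220) (nat_lit 14) leaf) (nat_lit 3891413410117) (nat_lit 8) (node (node leaf (nat_lit 3891413410837) (nat_lit 4) leaf) (nat_lit 3891413410885) (nat_lit 6) leaf)) (nat_lit 3891413411077) (nat_lit 2) (node (node (node leaf (nat_lit 3891413422357) (nat_lit 8) leaf) (nat_lit 3891413423125) (nat_lit 4) leaf) (nat_lit 3891413423173) (nat_lit 2) (node leaf (nat_lit 3891413423185) (nat_lit 6) leaf)))))

noncomputable def L0_175 : Tr := node L0_173 (nat_lit 3885474317905) (nat_lit 22) L0_174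

noncomputable def L0_176 : Tr := (node (node (node (node (node (node leaf (nat_lit 3891413452369) (nat_lit 0) leaf) (nat_lit 3891413453125) (nat_lit 2) leaf) (nat_lit 3891413453137) (nat_lit 0) (node (node leaf (nat_lit 3891413453140) (nat_lit 16) leaf) (nat_lit 3891413454949) (nat_lit 16) leaf)) (nat_lit 3891413454997) (nat_lit 16) (node (node (node leaf (nat_lit 3891413455141) (nat_lit 12) leaf) (nat_lit 3891413455441) (nat_lit 16) leaf) (nat_lit 3891413460229) (nat_lit 2) (node (node leaf (nat_lit 3891413467429) (nat_lit 16) leaf) (nat_lit 3891413521429) (nat_lit 12) leaf))) (nat_lit 3891413521477) (nat_lit 12) (node (node (node (node leaf (nat_lit 3891413532949) (nat_lit 8) leaf) (nat_lit 3891413533717) (nat_lit 4) leaf) (nat_lit 3891413533765) (nat_lit 10) (node (node leaf (nat_lit 3891413536789) (nat_lit 4) leaf) (nat_lit 3891413536837) (nat_lit 6) leaf)) (nat_lit 3891413648485) (nat_lit 10) (node (node (node leaf (nat_lit 3891413648917) (nat_lit 4) leaf) (nat_lit 3891413651605) (nat_lit 12) leaf) (nat_lit 3891413663845)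 (nat_lit 6) (node leaf (nat_lit 3891413663893) (nat_lit 14) leaf)))) (nat_lit 3891413913877) (nat_lit 12) (node (node (node (node (node leaf (nat_lit 3891413914645) (nat_lit 12) leaf) (nat_lit 3891413925973) (nat_lit 6) leaf) (nat_lit 3891413926933) (nat_lit 10) (node (node leaf (nat_lit 3891413926981) (nat_lit 10) leaf) (nat_lit 3891413930005) (nat_lit 4) leaf)) (nat_lit 3891414516757) (nat_lit 10) (node (node (node leaf (nat_lit 3891414516805) (nat_lit 10) leaf) (nat_lit 3891414519829) (nat_lit 4) leaf) (nat_lit 3891416876053) (nat_lit 10) (node (node leaf (nat_lit 3891416876101) (nat_lit 10) leaf) (nat_lit 3891416879125) (nat_lit 4) leaf))) (nat_lit 3891417846037) (nat_lit 4) (node (node (node (node leaf (nat_lit 3891417846085) (nat_lit 8) leaf) (nat_lit 3891417846805) (nat_lit 4) leaf) (nat_lit 3891803521621) (nat_lit 16) (node (node leaf (nat_lit 3891803522197) (nat_lit 16) leaf) (nat_lit 3891813237781) (nat_lit 19) leaf)) (nat_lit 3891813240853) (nat_lit 19) (node (node (node leaf (nat_lit 3891815289877) (nat_lit 18) leaf)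 (nat_lit 3891815584789) (nat_lit 17) leaf) (nat_lit 3891815596117) (nat_lit 17) (node leaf (nat_lit 3891815597077) (nat_lit 17) leaf)))))

noncomputable def L0_177 : Tr := (node (node (node (node (node (node leaf (nat_lit 3891816043669) (nat_lit 12) leaf) (nat_lit 3891816044821) (nat_lit 4) leaf) (nat_lit 3891816055189) (nat_lit 8) (node (node leaf (nat_lit 3891816056389) (nat_lit 14) leaf) (nat_lit 3891816056401) (nat_lit 14) leaf)) (nat_lit 3891816057157) (nat_lit 14) (node (node (node leaf (nat_lit 3891816059473) (nat_lit 14) leaf) (nat_lit 3891816063253) (nat_lit 4) leaf) (nat_lit 3891816063301) (nat_lit 8) (node (node leaf (nat_lit 3891816064069) (nat_lit 6) leaf) (nat_lit 3891816064261) (nat_lit 14) leaf))) (nat_lit 3891816075349) (nat_lit 6) (node (node (node (node leaf (nat_lit 3891816076309) (nat_lit 4) leaf) (nat_lit 3891816076357) (nat_lit 2) leaf) (nat_lit 3891816076549) (nat_lit 23) (node (node leaf (nat_lit 3891816076561) (nat_lit 23) leaf) (nat_lit 3891816105061) (nat_lit 10) leaf)) (nat_lit 3891816105109) (nat_lit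 10) (node (node (node leaf (nat_lit 3891816105493) (nat_lit 4) leaf) (nat_lit 3891816105541) (nat_lit 2) leaf) (nat_lit 3891816105553) (nat_lit 10) (node leaf (nat_lit 3891816106309) (nat_lit 2) leaf)))) (nat_lit 3891816106321) (nat_lit 23) (node (node (node (node (node leaf (nat_lit 3891816108133) (nat_lit 6) leaf) (nat_lit 3891816108181) (nat_lit 23) leaf) (nat_lit 3891816113221) (nat_lit 6) (node (node leaf (nat_lit 3891816120421) (nat_lit 23) leaf) (nat_lit 3891816120469) (nat_lit 23) leaf)) (nat_lit 3891816173845) (nat_lit 12) (node (node (node leaf (nat_lit 3891816174613) (nat_lit 4) leaf) (nat_lit 3891816174661) (nat_lit 12) leaf) (nat_lit 3891816185941) (nat_lit 6) (node (node leaf (nat_lit 3891816186901) (nat_lit 4) leaf) (nat_lit 3891816186949) (nat_lit 10) leaf))) (nat_lit 3891816189973) (nat_lit 4) (node (node (node (node leaf (nat_lit 3891816302929) (nat_lit 23) leaf) (nat_lit 3891816317077) (nat_lit 23) leaf) (nat_lit 3891816566869) (nat_lit 12) (node (node leaf (nat_lit 3891816579349) (nat_lit 8) leaf) (nat_lit 3891816580117)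 (nat_lit 10) leaf)) (nat_lit 3891817169173) (nat_lit 8) (node (node (node leaf (nat_lit 3891817169941) (nat_lit 10) leaf) (nat_lit 3891819528469) (nat_lit 8) leaf) (nat_lit 3891819529237) (nat_lit 10) (node leaf (nat_lit 3891820303381) (nat_lit 16) leaf)))))

noncomputable def L0_178 : Tr := node L0_176 (nat_lit 3891815600149) (nat_lit 17) L0_177

noncomputable def L0_179 : Tr := node L0_175 (nat_lit 3891413452357) (nat_lit 16) L0_178

noncomputable def L0_180 : Tr := (node (node (node (node (node (node leaf (nat_lit 3891820499221) (nat_lit 8) leaf) (nat_lit 3891849089173) (nat_lit 22) leaf) (nat_lit 3891849134677) (nat_lit 22) (node (node leaf (nat_lit 3891853807765) (nat_lit 21) leaf) (nat_lit 3891853825285) (nat_lit 21) leaf)) (nat_lit 3891853825297) (nat_lit 21) (node (node (node leaf (nat_lit 3891853853269) (nat_lit 21) leaf) (nat_lit 3891853855057) (nat_lit 21) leaf) (nat_lit 3891853856917) (nat_lit 21) (node (node leaf (nat_lit 3891853869157) (nat_lit 21) leaf) (nat_lit 3891853869205) (nat_lit 21) leaf))) (nat_lit 3891854051665)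 (nat_lit 21) (node (node (node (node leaf (nat_lit 3891854065813) (nat_lit 14) leaf) (nat_lit 3891861199237) (nat_lit 16) leaf) (nat_lit 3891861202213) (nat_lit 16) (node (node leaf (nat_lit 3891861202309) (nat_lit 16) leaf) (nat_lit 3891861202453) (nat_lit 16) leaf)) (nat_lit 3891861202501) (nat_lit 16) (node (node (node leaf (nat_lit 3891861202513) (nat_lit 16) leaf) (nat_lit 3891861202516) (nat_lit 16) leaf) (nat_lit 3891861209749) (nat_lit 16) (node leaf (nat_lit 3891861211525) (nat_lit 16) leaf)))) (nat_lit 3891861226069) (nat_lit 7) (node (node (node (node (node leaf (nat_lit 3891861226597) (nat_lit 6) leaf) (nat_lit 3891861226645) (nat_lit 5) leaf) (nat_lit 3891861226789) (nat_lit 16) (node (node leaf (nat_lit 3891861226885) (nat_lit 10) leaf) (nat_lit 3891861227029) (nat_lit 4) leaf)) (nat_lit 3891861227077) (nat_lit 2) (node (node (node leaf (nat_lit 3891861227089) (nat_lit 0) leaf) (nat_lit 3891861229717) (nat_lit 5) leaf) (nat_lit 3891861229861) (nat_lit 16) (node (node leaf (nat_lit 3891861229957) (nat_lit 8) leaf) (nat_lit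 3891861230629) (nat_lit 16) leaf))) (nat_lit 3891861230725) (nat_lit 16) (node (node (node (node leaf (nat_lit 3891861231892) (nat_lit 16) leaf) (nat_lit 3891861231937) (nat_lit 16) leaf) (nat_lit 3891861234964) (nat_lit 4) (node (node leaf (nat_lit 3891861235009) (nat_lit 0) leaf) (nat_lit 3891861276181) (nat_lit 10) leaf)) (nat_lit 3891861278821) (nat_lit 15) (node (node (node leaf (nat_lit 3891861278869) (nat_lit 5) leaf) (nat_lit 3891861279013) (nat_lit 8) leaf) (nat_lit 3891861279049) (nat_lit 8) (node leaf (nat_lit 3891861279109) (nat_lit 8) leaf)))))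

noncomputable def L0_181 : Tr := (node (node (node (node (node (node leaf (nat_lit 3891861279253) (nat_lit 4) leaf) (nat_lit 3891861279301) (nat_lit 2) leaf) (nat_lit 3891861279769) (nat_lit 4) (node (node leaf (nat_lit 3891861279781) (nat_lit 15) leaf) (nat_lit 3891861279814) (nat_lit 6) leaf)) (nat_lit 3891861279841) (nat_lit 0) (node (node (node leaf (nat_lit 3891861394069) (nat_lit 12) leaf) (nat_lit 3891861395749) (nat_lit 12) leaf) (nat_lit 3891861398629) (nat_lit 6) (node (node leaf (nat_lit 3891861398677) (nat_lit 5) leaf) (nat_lit 3891861398809) (nat_lit 4) leaf))) (nat_lit 3891861398821) (nat_lit 18) (node (node (node (node leaf (nat_lit 3891861398917) (nat_lit 2) leaf) (nat_lit 3891861399061) (nat_lit 4) leaf) (nat_lit 3891861399109) (nat_lit 2) (node (node leaf (nat_lit 3891861399121) (nat_lit 0) leaf) (nat_lit 3891861406117) (nat_lit 14) leaf)) (nat_lit 3891861408037) (nat_lit 14) (node (node (node leaf (nat_lit 3891861408133) (nat_lit 18) leaf) (nat_lit 3891861414484) (nat_lit 7) leaf) (nat_lit 3891861414985) (nat_lit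 6) (node leaf (nat_lit 3891861415060) (nat_lit 14) leaf)))) (nat_lit 3891861423205) (nat_lit 6) (node (node (node (node (node leaf (nat_lit 3891861423397) (nat_lit 10) leaf) (nat_lit 3891861426277) (nat_lit 6) leaf) (nat_lit 3891861426469) (nat_lit 8) (node (node leaf (nat_lit 3891861426580) (nat_lit 8) leaf) (nat_lit 3891861426772) (nat_lit 18) leaf)) (nat_lit 3891861427237) (nat_lit 18) (node (node (node leaf (nat_lit 3891861427273) (nat_lit 6) leaf) (nat_lit 3891861428305) (nat_lit 0) leaf) (nat_lit 3891861428308) (nat_lit 6) (node (node leaf (nat_lit 3891861455269) (nat_lit 18) leaf) (nat_lit 3891861456532) (nat_lit 18) leaf))) (nat_lit 3891861457189) (nat_lit 18) (node (node (node (node leaf (nat_lit 3891861524773) (nat_lit 8) leaf) (nat_lit 3891861525076) (nat_lit 12) leaf) (nat_lit 3891861525577) (nat_lit 12) (node (node leaf (nat_lit 3891861526609) (nat_lit 0) leaf) (nat_lit 3891861537361) (nat_lit 0) leaf)) (nat_lit 3891861668437) (nat_lit 14) (node (node (node leaf (nat_lit 3891861669013) (nat_lit 10) leaf) (nat_lit 3891861689617)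 (nat_lit 13) leaf) (nat_lit 3891861689665) (nat_lit 13) (node leaf (nat_lit 3891861717589) (nat_lit 7) leaf)))))

noncomputable def L0_182 : Tr := node L0_180 (nat_lit 3891861279121) (nat_lit 0) L0_181

noncomputable def L0_183 : Tr := (node (node (node (node (node (node leaf (nat_lit 3891861718165) (nat_lit 10) leaf) (nat_lit 3891861718309) (nat_lit 10) leaf) (nat_lit 3891861718549) (nat_lit 4) (node (node leaf (nat_lit 3891861718597) (nat_lit 2) leaf) (nat_lit 3891861721189) (nat_lit 6) leaf)) (nat_lit 3891861721237) (nat_lit 12) (node (node (node leaf (nat_lit 3891861723217) (nat_lit 12) leaf) (nat_lit 3891861726481) (nat_lit 0) leaf) (nat_lit 3891861726529) (nat_lit 11) (node (node leaf (nat_lit 3891861733525) (nat_lit 5) leaf) (nat_lit 3891861733669) (nat_lit 8) leaf))) (nat_lit 3891861733765) (nat_lit 8) (node (node (node (node leaf (nat_lit 3891861733777) (nat_lit 0) leaf) (nat_lit 3891861733969) (nat_lit 0) leaf) (nat_lit 3891861734437) (nat_lit 10) (node (node leaf (nat_lit 3891861734548) (nat_lit 10) leaf) (nat_lit 3891861734929)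 (nat_lit 0) leaf)) (nat_lit 3891861735505) (nat_lit 6) (node (node (node leaf (nat_lit 3891861735745) (nat_lit 0) leaf) (nat_lit 3891861737509) (nat_lit 3) leaf) (nat_lit 3891861737545) (nat_lit 6) (node leaf (nat_lit 3891861751045) (nat_lit 2) leaf)))) (nat_lit 3891861751057) (nat_lit 4) (node (node (node (node (node leaf (nat_lit 3891862180501) (nat_lit 20) leaf) (nat_lit 3891862182292) (nat_lit 12) leaf) (nat_lit 3891862182484) (nat_lit 20) (node (node leaf (nat_lit 3891862185241) (nat_lit 4) leaf) (nat_lit 3891862185253) (nat_lit 20) leaf)) (nat_lit 3891862185349) (nat_lit 2) (node (node (node leaf (nat_lit 3891862194469) (nat_lit 14) leaf) (nat_lit 3891862213705) (nat_lit 20) leaf) (nat_lit 3891862241701) (nat_lit 20) (node (node leaf (nat_lit 3891863244949) (nat_lit 14) leaf) (nat_lit 3891863262469) (nat_lit 2) leaf))) (nat_lit 3891863262481) (nat_lit 4) (node (node (node (node leaf (nat_lit 3891863290453) (nat_lit 7) leaf) (nat_lit 3891863290981) (nat_lit 10) leaf) (nat_lit 3891863291029) (nat_lit 10) (node (node leaf (nat_lit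 3891863291413) (nat_lit 4) leaf) (nat_lit 3891863292241) (nat_lit 9) leaf)) (nat_lit 3891863294101) (nat_lit 12) (node (node (node leaf (nat_lit 3891863294545) (nat_lit 12) leaf) (nat_lit 3891863296081) (nat_lit 16) leaf) (nat_lit 3891863306341) (nat_lit 6) (node leaf (nat_lit 3891863306389) (nat_lit 5) leaf)))))

noncomputable def L0_184 : Tr := (node (node (node (node (node (node leaf (nat_lit 3891863306833) (nat_lit 16) leaf) (nat_lit 3891863488849) (nat_lit 9) leaf) (nat_lit 3891863491153) (nat_lit 12) (node (node leaf (nat_lit 3891865330981) (nat_lit 11) leaf) (nat_lit 3891865340197) (nat_lit 14) leaf)) (nat_lit 3891865387429) (nat_lit 16) (node (node (node leaf (nat_lit 3891869532757) (nat_lit 14) leaf) (nat_lit 3891869533333) (nat_lit 10) leaf) (nat_lit 3891869553733) (nat_lit 6) (node (node leaf (nat_lit 3891869553925) (nat_lit 2) leaf) (nat_lit 3891869581909) (nat_lit 7) leaf))) (nat_lit 3891869582485) (nat_lit 10) (node (node (node (node leaf (nat_lit 3891869583685) (nat_lit 2) leaf) (nat_lit 3891869583697) (nat_lit 16)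 leaf) (nat_lit 3891869585509) (nat_lit 12) (node (node leaf (nat_lit 3891878990917) (nat_lit 6) leaf) (nat_lit 3891878991109) (nat_lit 2) leaf)) (nat_lit 3891879020869) (nat_lit 2) (node (node (node leaf (nat_lit 3891879020881) (nat_lit 16) leaf) (nat_lit 3891879022693) (nat_lit 12) leaf) (nat_lit 3891879035029) (nat_lit 16) (node leaf (nat_lit 3891913102357) (nat_lit 20) leaf)))) (nat_lit 3891913901077) (nat_lit 10) (node (node (node (node (node leaf (nat_lit 3891915756565) (nat_lit 16) leaf) (nat_lit 3891915921685) (nat_lit 18) leaf) (nat_lit 3891915952213) (nat_lit 18) (node (node leaf (nat_lit 3891915953173) (nat_lit 18) leaf) (nat_lit 3891916051477) (nat_lit 18) leaf)) (nat_lit 3891916247125) (nat_lit 12) (node (node (node leaf (nat_lit 3891916259605) (nat_lit 8) leaf) (nat_lit 3891916706197) (nat_lit 8) leaf) (nat_lit 3891916707925) (nat_lit 6) (node (node leaf (nat_lit 3891916708165) (nat_lit 12) leaf) (nat_lit 3891916711237) (nat_lit 11) leaf))) (nat_lit 3891916719253) (nat_lit 14) (node (node (node (node leaf (nat_lit 3891916719685)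 (nat_lit 2) leaf) (nat_lit 3891916719697) (nat_lit 14) leaf) (nat_lit 3891916720453) (nat_lit 14) (node (node leaf (nat_lit 3891916726597) (nat_lit 8) leaf) (nat_lit 3891916727365) (nat_lit 14) leaf)) (nat_lit 3891916738837) (nat_lit 8) (node (node (node leaf (nat_lit 3891916738885) (nat_lit 8) leaf) (nat_lit 3891916739605) (nat_lit 4) leaf) (nat_lit 3891916739653) (nat_lit 6) (node leaf (nat_lit 3891916767829) (nat_lit 22) leaf)))))

noncomputable def L0_185 : Tr := node L0_183 (nat_lit 3891863306533) (nat_lit 8) L0_184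

noncomputable def L0_186 : Tr := node L0_182 (nat_lit 3891861718117) (nat_lit 6) L0_185

noncomputable def L0_187 : Tr := node L0_179 (nat_lit 3891820499029) (nat_lit 6) L0_186

noncomputable def L0_188 : Tr := node L0_172 (nat_lit 3885427131541) (nat_lit 10) L0_187

noncomputable def L0_189 : Tr := node L0_157 (nat_lit 3883360851205) (nat_lit 12) L0_188

noncomputable def L0_190 : Tr := (node (node (node (node (node (node leaf (nat_lit 3891916768837) (nat_lit 2) leaf) (nat_lit 3891916769605) (nat_lit 2) leaf) (nat_lit 3891916769617) (nat_lit 16) (node (node leaf (nat_lit 3891916837141) (nat_lit 8) leaf) (nat_lit 3891916837909) (nat_lit 4) leaf)) (nat_lit 3891917820181) (nat_lit 12) (node (node (node leaf (nat_lit 3891917832277) (nat_lit 6) leaf) (nat_lit 3891920180245) (nat_lit 18) leaf) (nat_lit 3891920965717) (nat_lit 16) (node (node leaf (nat_lit 3891921162325) (nat_lit 6) leaf) (nat_lit 3891932439877) (nat_lit 2) leaf))) (nat_lit 3891932447317) (nat_lit 14) (node (node (node (node leaf (nat_lit 3891932447893) (nat_lit 14)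 leaf) (nat_lit 3891932496469) (nat_lit 16) leaf) (nat_lit 3891945345109) (nat_lit 18) (node (node leaf (nat_lit 3891946131541) (nat_lit 16) leaf) (nat_lit 3891946325077) (nat_lit 10) leaf)) (nat_lit 3892465411393) (nat_lit 25) (node (node (node leaf (nat_lit 3892584162628) (nat_lit 20) leaf) (nat_lit 3892586915140) (nat_lit 22) leaf) (nat_lit 3892587308353) (nat_lit 0) (node leaf (nat_lit 3892591240516) (nat_lit 18) leaf)))) (nat_lit 3892592026945) (nat_lit 0) (node (node (node (node (node leaf (nat_lit 3892616406337) (nat_lit 0) leaf) (nat_lit 3892716873025) (nat_lit 16) leaf) (nat_lit 3892867867969) (nat_lit 16) (node (node leaf (nat_lit 3893423849749) (nat_lit 19) leaf) (nat_lit 3893423850517) (nat_lit 19) leaf)) (nat_lit 3893425871125) (nat_lit 18) (node (node (node leaf (nat_lit 3893425901653) (nat_lit 18) leaf) (nat_lit 3893426000917) (nat_lit 18) leaf) (nat_lit 3893426196565) (nat_lit 17) (node (node leaf (nat_lit 3893426209045) (nat_lit 17) leaf) (nat_lit 3893426209813) (nat_lit 17) leaf))) (nat_lit 3893426655637) (nat_lit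 8) (node (node (node (node leaf (nat_lit 3893426657365) (nat_lit 6) leaf) (nat_lit 3893426657605) (nat_lit 12) leaf) (nat_lit 3893426660677) (nat_lit 11) (node (node leaf (nat_lit 3893426669125) (nat_lit 14) leaf) (nat_lit 3893426669137) (nat_lit 10) leaf)) (nat_lit 3893426669893) (nat_lit 14) (node (node (node leaf (nat_lit 3893426671717) (nat_lit 14) leaf) (nat_lit 3893426671765) (nat_lit 14) leaf) (nat_lit 3893426672197) (nat_lit 2) (node leaf (nat_lit 3893426675989) (nat_lit 4) leaf)))))

noncomputable def L0_191 : Tr := (node (node (node (node (node (node leaf (nat_lit 3893426676757) (nat_lit 4) leaf) (nat_lit 3893426676805) (nat_lit 6) leaf) (nat_lit 3893426688277) (nat_lit 8) (node (node leaf (nat_lit 3893426688325) (nat_lit 8) leaf) (nat_lit 3893426689045) (nat_lit 4) leaf)) (nat_lit 3893426689093) (nat_lit 6) (node (node (node leaf (nat_lit 3893426689285) (nat_lit 2) leaf) (nat_lit 3893426717269) (nat_lit 7) leaf) (nat_lit 3893426717797) (nat_lit 10) (node (node leaf (nat_lit 3893426717845) (nat_lit 10) leaf) (nat_lit 3893426719045)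 (nat_lit 2) leaf))) (nat_lit 3893426719057) (nat_lit 16) (node (node (node (node leaf (nat_lit 3893426720869) (nat_lit 12) leaf) (nat_lit 3893426720917) (nat_lit 12) leaf) (nat_lit 3893426733205) (nat_lit 16) (node (node leaf (nat_lit 3893426786389) (nat_lit 6) leaf) (nat_lit 3893426786581) (nat_lit 8) leaf)) (nat_lit 3893426787349) (nat_lit 12) (node (node (node leaf (nat_lit 3893426798869) (nat_lit 8) leaf) (nat_lit 3893426799637) (nat_lit 10) leaf) (nat_lit 3893427179797) (nat_lit 12) (node leaf (nat_lit 3893427192085) (nat_lit 8) leaf)))) (nat_lit 3893427769621) (nat_lit 12) (node (node (node (node (node leaf (nat_lit 3893427781717) (nat_lit 6) leaf) (nat_lit 3893427781909) (nat_lit 8) leaf) (nat_lit 3893430128917) (nat_lit 12) (node (node leaf (nat_lit 3893430129685) (nat_lit 12) leaf) (nat_lit 3893430141205) (nat_lit 8) leaf)) (nat_lit 3893430915157) (nat_lit 16) (node (node (node leaf (nat_lit 3893431111765) (nat_lit 6) leaf) (nat_lit 3893456556181) (nat_lit 20) leaf) (nat_lit 3893456601685) (nat_lit 20) (node (node leaf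 (nat_lit 3893459255893) (nat_lit 22) leaf) (nat_lit 3893459308693) (nat_lit 22) leaf))) (nat_lit 3893459698261) (nat_lit 14) (node (node (node (node leaf (nat_lit 3893459698837) (nat_lit 10) leaf) (nat_lit 3893459747413) (nat_lit 22) leaf) (nat_lit 3893464416853) (nat_lit 14) (node (node leaf (nat_lit 3893464417429) (nat_lit 10) leaf) (nat_lit 3893464466005) (nat_lit 21) leaf)) (nat_lit 3893471765893) (nat_lit 14) (node (node (node leaf (nat_lit 3893471766037) (nat_lit 14) leaf) (nat_lit 3893471810197) (nat_lit 12) leaf) (nat_lit 3893471811973) (nat_lit 12) (node leaf (nat_lit 3893471814229) (nat_lit 7) leaf)))))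

noncomputable def L0_192 : Tr := node L0_190 (nat_lit 3893426676037) (nat_lit 8) L0_191

noncomputable def L0_193 : Tr := (node (node (node (node (node (node leaf (nat_lit 3893471814949) (nat_lit 16) leaf) (nat_lit 3893471815045) (nat_lit 16) leaf) (nat_lit 3893471815189) (nat_lit 16) (node (node leaf (nat_lit 3893471815237) (nat_lit 16) leaf) (nat_lit 3893471815249) (nat_lit 16) leaf)) (nat_lit 3893471824165) (nat_lit 16) (node (node (node leaf (nat_lit 3893471838805) (nat_lit 7) leaf) (nat_lit 3893471839333) (nat_lit 16) leaf) (nat_lit 3893471839381) (nat_lit 5) (node (node leaf (nat_lit 3893471839525) (nat_lit 16) leaf) (nat_lit 3893471839621) (nat_lit 10) leaf))) (nat_lit 3893471839765) (nat_lit 4) (node (node (node (node leaf (nat_lit 3893471839813) (nat_lit 2) leaf) (nat_lit 3893471842453) (nat_lit 5) leaf) (nat_lit 3893471842597) (nat_lit 16) (node (node leaf (nat_lit 3893471887957) (nat_lit 7) leaf) (nat_lit 3893471888533) (nat_lit 10) leaf)) (nat_lit 3893471888917) (nat_lit 10) (node (node (node leaf (nat_lit 3893471891605)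 (nat_lit 5) leaf) (nat_lit 3893471891749) (nat_lit 8) leaf) (nat_lit 3893472006805) (nat_lit 18) (node leaf (nat_lit 3893472008485) (nat_lit 12) leaf)))) (nat_lit 3893472011365) (nat_lit 6) (node (node (node (node (node leaf (nat_lit 3893472011413) (nat_lit 5) leaf) (nat_lit 3893472011557) (nat_lit 18) leaf) (nat_lit 3893472011653) (nat_lit 18) (node (node leaf (nat_lit 3893472011797) (nat_lit 4) leaf) (nat_lit 3893472018853) (nat_lit 14) leaf)) (nat_lit 3893472036133) (nat_lit 10) (node (node (node leaf (nat_lit 3893472330853) (nat_lit 6) leaf) (nat_lit 3893472331285) (nat_lit 4) leaf) (nat_lit 3893472333973) (nat_lit 12) (node (node leaf (nat_lit 3893472797989) (nat_lit 20) leaf) (nat_lit 3893473903189) (nat_lit 7) leaf))) (nat_lit 3893473903765) (nat_lit 10) (node (node (node (node leaf (nat_lit 3893523714133) (nat_lit 20) leaf) (nat_lit 3893524501525) (nat_lit 12) leaf) (nat_lit 3893524513045) (nat_lit 8) (node (node leaf (nat_lit 3893526368341) (nat_lit 16) leaf) (nat_lit 3893526532501) (nat_lit 18) leaf)) (nat_lit 3893526534229)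 (nat_lit 6) (node (node (node leaf (nat_lit 3893526534469) (nat_lit 18) leaf) (nat_lit 3893526565141) (nat_lit 18) leaf) (nat_lit 3893526565909) (nat_lit 18) (node leaf (nat_lit 3893526565957) (nat_lit 18) leaf)))))

noncomputable def L0_194 : Tr := (node (node (node (node (node (node leaf (nat_lit 3893526664213) (nat_lit 18) leaf) (nat_lit 3893526860053) (nat_lit 12) leaf) (nat_lit 3893526872149) (nat_lit 6) (node (node leaf (nat_lit 3893527320853) (nat_lit 4) leaf) (nat_lit 3893527320901) (nat_lit 12) leaf)) (nat_lit 3893527323925) (nat_lit 4) (node (node (node leaf (nat_lit 3893527323973) (nat_lit 11) leaf) (nat_lit 3893527331413) (nat_lit 14) leaf) (nat_lit 3893527331989) (nat_lit 14) (node (node leaf (nat_lit 3893527332421) (nat_lit 2) leaf) (nat_lit 3893527333189) (nat_lit 14) leaf))) (nat_lit 3893527339333) (nat_lit 8) (node (node (node (node leaf (nat_lit 3893527351573) (nat_lit 8) leaf) (nat_lit 3893527352341) (nat_lit 4) leaf) (nat_lit 3893527382341) (nat_lit 2) (node (node leaf (nat_lit 3893528432725) (nat_lit 12) leaf)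 (nat_lit 3893530792021) (nat_lit 18) leaf)) (nat_lit 3893530792213) (nat_lit 8) (node (node (node leaf (nat_lit 3893531771989) (nat_lit 10) leaf) (nat_lit 3893539963477) (nat_lit 20) leaf) (nat_lit 3893543047765) (nat_lit 12) (node leaf (nat_lit 3893543048341) (nat_lit 12) leaf)))) (nat_lit 3893543052565) (nat_lit 4) (node (node (node (node (node leaf (nat_lit 3893543060053) (nat_lit 14) leaf) (nat_lit 3893555954773) (nat_lit 10) leaf) (nat_lit 3893556741205) (nat_lit 16) (node (node leaf (nat_lit 3893556937045) (nat_lit 8) leaf) (nat_lit 3893927153749) (nat_lit 19) leaf)) (nat_lit 3893927153941) (nat_lit 8) (node (node (node leaf (nat_lit 3893928991045) (nat_lit 16) leaf) (nat_lit 3893929021717) (nat_lit 16) leaf) (nat_lit 3893929070869) (nat_lit 15) (node (node leaf (nat_lit 3893929071637) (nat_lit 15) leaf) (nat_lit 3893929187605) (nat_lit 4) leaf))) (nat_lit 3893929190677) (nat_lit 18) (node (node (node (node leaf (nat_lit 3893929190725) (nat_lit 18) leaf) (nat_lit 3893929198165) (nat_lit 18) leaf) (nat_lit 3893929218325) (nat_lit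 18) (node (node leaf (nat_lit 3893929219093) (nat_lit 4) leaf) (nat_lit 3893929316437) (nat_lit 6) leaf)) (nat_lit 3893929513045) (nat_lit 6) (node (node (node leaf (nat_lit 3893929972309) (nat_lit 12) leaf) (nat_lit 3893929972885) (nat_lit 12) leaf) (nat_lit 3893929974037) (nat_lit 4) (node leaf (nat_lit 3893929976917) (nat_lit 6) leaf)))))

noncomputable def L0_195 : Tr := node L0_193 (nat_lit 3893526663445) (nat_lit 8) L0_194

noncomputable def L0_196 : Tr := node L0_192 (nat_lit 3893471814805) (nat_lit 5) L0_195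

noncomputable def L0_197 : Tr := (node (node (node (node (node (node leaf (nat_lit 3893931082837) (nat_lit 10) leaf) (nat_lit 3893933442133) (nat_lit 10) leaf) (nat_lit 3893933445205) (nat_lit 6) (node (node leaf (nat_lit 3893934424405) (nat_lit 8) leaf) (nat_lit 3893942555221) (nat_lit 20) leaf)) (nat_lit 3893942560021) (nat_lit 20) (node (node (node leaf (nat_lit 3893942567509) (nat_lit 20) leaf) (nat_lit 3893945697877) (nat_lit 10) leaf) (nat_lit 3893945700949) (nat_lit 12) (node (node leaf (nat_lit 3893958607189) (nat_lit 8) leaf) (nat_lit 3893959393621) (nat_lit 16) leaf))) (nat_lit 3894059221333) (nat_lit 14) (node (node (node (node leaf (nat_lit 3894059270485) (nat_lit 18) leaf) (nat_lit 3894060007765) (nat_lit 14) leaf) (nat_lit 3986175623317) (nat_lit 28) (node (node leaf (nat_lit 3986427217429) (nat_lit 10) leaf) (nat_lit 3986427218257) (nat_lit 0) leaf)) (nat_lit 3986427218260) (nat_lit 9) (node (node (node leaf (nat_lit 3986427220117) (nat_lit 12) leaf) (nat_lit 3986427220564) (nat_lit 12) leaf) (nat_lit 3986427222097)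 (nat_lit 0) (node leaf (nat_lit 3986427232849) (nat_lit 0) leaf)))) (nat_lit 3986436739141) (nat_lit 19) (node (node (node (node (node leaf (nat_lit 3986436739333) (nat_lit 19) leaf) (nat_lit 3986439098437) (nat_lit 17) leaf) (nat_lit 3986439098629) (nat_lit 17) (node (node leaf (nat_lit 3986439543121) (nat_lit 12) leaf) (nat_lit 3986439557716) (nat_lit 14) leaf)) (nat_lit 3986439562309) (nat_lit 6) (node (node (node leaf (nat_lit 3986439562501) (nat_lit 2) leaf) (nat_lit 3986439562513) (nat_lit 0) leaf) (nat_lit 3986439573829) (nat_lit 8) (node (node leaf (nat_lit 3986439574597) (nat_lit 2) leaf) (nat_lit 3986439574609) (nat_lit 6) leaf))) (nat_lit 3986439574789) (nat_lit 2) (node (node (node (node leaf (nat_lit 3986439574801) (nat_lit 0) leaf) (nat_lit 3986439603349) (nat_lit 10) leaf) (nat_lit 3986439603793) (nat_lit 16) (node (node leaf (nat_lit 3986439607333) (nat_lit 12) leaf) (nat_lit 3986439618709) (nat_lit 16) leaf)) (nat_lit 3986439618853) (nat_lit 8) (node (node (node leaf (nat_lit 3986439619621) (nat_lit 16) leaf) (nat_lit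 3986439672901) (nat_lit 12) leaf) (nat_lit 3986439673093) (nat_lit 12) (node leaf (nat_lit 3986439685189) (nat_lit 6) leaf)))))

noncomputable def L0_198 : Tr := (node (node (node (node (node (node leaf (nat_lit 3986439688453) (nat_lit 2) leaf) (nat_lit 3986439800101) (nat_lit 10) leaf) (nat_lit 3986439800389) (nat_lit 2) (node (node leaf (nat_lit 3986439801157) (nat_lit 2) leaf) (nat_lit 3986439801169) (nat_lit 0) leaf)) (nat_lit 3986439801172) (nat_lit 9) (node (node (node leaf (nat_lit 3986439802981) (nat_lit 6) leaf) (nat_lit 3986439803029) (nat_lit 12) leaf) (nat_lit 3986439803473) (nat_lit 0) (node (node leaf (nat_lit 3986439803476) (nat_lit 12) leaf) (nat_lit 3986439808261) (nat_lit 2) leaf))) (nat_lit 3986439815317) (nat_lit 5) (node (node (node (node leaf (nat_lit 3986439815461) (nat_lit 8) leaf) (nat_lit 3986439864469) (nat_lit 5) leaf) (nat_lit 3986439864613) (nat_lit 8) (node (node leaf (nat_lit 3986440066069) (nat_lit 4) leaf) (nat_lit 3986440066117) (nat_lit 6) leaf)) (nat_lit 3986440081429) (nat_lit 4) (node (node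 (node leaf (nat_lit 3986440081477) (nat_lit 6) leaf) (nat_lit 3986440671253) (nat_lit 4) leaf) (nat_lit 3986440671301) (nat_lit 6) (node leaf (nat_lit 3986443030549) (nat_lit 4) leaf)))) (nat_lit 3986443030597) (nat_lit 6) (node (node (node (node (node leaf (nat_lit 3986443998229) (nat_lit 4) leaf) (nat_lit 3986443998277) (nat_lit 2) leaf) (nat_lit 3987987562645) (nat_lit 26) (node (node leaf (nat_lit 3988037829205) (nat_lit 7) leaf) (nat_lit 3988037829781) (nat_lit 10) leaf)) (nat_lit 3988037830981) (nat_lit 2) (node (node (node leaf (nat_lit 3988037830993) (nat_lit 9) leaf) (nat_lit 3988037833297) (nat_lit 12) leaf) (nat_lit 3988047351829) (nat_lit 19) (node (node leaf (nat_lit 3988047351877) (nat_lit 19) leaf) (nat_lit 3988049711125) (nat_lit 17) leaf))) (nat_lit 3988049711173) (nat_lit 17) (node (node (node (node leaf (nat_lit 3988050155845) (nat_lit 2) leaf) (nat_lit 3988050166933) (nat_lit 14) leaf) (nat_lit 3988050167377) (nat_lit 14) (node (node leaf (nat_lit 3988050167380) (nat_lit 10) leaf) (nat_lit 3988050170449) (nat_lit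 0) leaf)) (nat_lit 3988050175045) (nat_lit 6) (node (node (node leaf (nat_lit 3988050175057) (nat_lit 6) leaf) (nat_lit 3988050175237) (nat_lit 2) leaf) (nat_lit 3988050186517) (nat_lit 4) (node leaf (nat_lit 3988050187285) (nat_lit 4) leaf)))))

noncomputable def L0_199 : Tr := node L0_197 (nat_lit 3986439688261) (nat_lit 6) L0_198

noncomputable def L0_200 : Tr := (node (node (node (node (node (node leaf (nat_lit 3988050187345) (nat_lit 6) leaf) (nat_lit 3988050187525) (nat_lit 2) leaf) (nat_lit 3988050216517) (nat_lit 2) (node (node leaf (nat_lit 3988050217285) (nat_lit 16) leaf) (nat_lit 3988050217297) (nat_lit 16) leaf)) (nat_lit 3988050217300) (nat_lit 16) (node (node (node leaf (nat_lit 3988050219109) (nat_lit 16) leaf) (nat_lit 3988050219157) (nat_lit 12) leaf) (nat_lit 3988050219301) (nat_lit 12) (node (node leaf (nat_lit 3988050219601) (nat_lit 16) leaf) (nat_lit 3988050224389) (nat_lit 16) leaf))) (nat_lit 3988050231589) (nat_lit 8) (node (node (node (node leaf (nat_lit 3988050285589) (nat_lit 4) leaf) (nat_lit 3988050285637)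 (nat_lit 12) leaf) (nat_lit 3988050297877) (nat_lit 4) (node (node leaf (nat_lit 3988050297925) (nat_lit 10) leaf) (nat_lit 3988050300949) (nat_lit 4) leaf)) (nat_lit 3988050300997) (nat_lit 6) (node (node (node leaf (nat_lit 3988050412645) (nat_lit 10) leaf) (nat_lit 3988050413077) (nat_lit 4) leaf) (nat_lit 3988050413893) (nat_lit 2) (node leaf (nat_lit 3988050415765) (nat_lit 12) leaf)))) (nat_lit 3988050428053) (nat_lit 14) (node (node (node (node (node leaf (nat_lit 3988050678037) (nat_lit 8) leaf) (nat_lit 3988050678805) (nat_lit 4) leaf) (nat_lit 3988050691093) (nat_lit 10) (node (node leaf (nat_lit 3988050691141) (nat_lit 10) leaf) (nat_lit 3988050694165) (nat_lit 4) leaf)) (nat_lit 3988051280917) (nat_lit 10) (node (node (node leaf (nat_lit 3988051280965) (nat_lit 10) leaf) (nat_lit 3988051283989) (nat_lit 4) leaf) (nat_lit 3988053640213) (nat_lit 10) (node (node leaf (nat_lit 3988053640261) (nat_lit 10) leaf) (nat_lit 3988053643285) (nat_lit 4) leaf))) (nat_lit 3988054610197) (nat_lit 8) (node (node (node (node leaf (nat_lit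 3988054610245) (nat_lit 8) leaf) (nat_lit 3988054610965) (nat_lit 4) leaf) (nat_lit 3988188840085) (nat_lit 14) (node (node leaf (nat_lit 3988440285781) (nat_lit 16) leaf) (nat_lit 3988440286357) (nat_lit 16) leaf)) (nat_lit 3988440287557) (nat_lit 16) (node (node (node leaf (nat_lit 3988440287569) (nat_lit 16) leaf) (nat_lit 3988440484165) (nat_lit 2) leaf) (nat_lit 3988450001941) (nat_lit 19) (node leaf (nat_lit 3988450005013) (nat_lit 19) leaf)))))

noncomputable def L0_201 : Tr := (node (node (node (node (node (node leaf (nat_lit 3988452054037) (nat_lit 18) leaf) (nat_lit 3988452348181) (nat_lit 17) leaf) (nat_lit 3988452348949) (nat_lit 17) (node (node leaf (nat_lit 3988452361237) (nat_lit 17) leaf) (nat_lit 3988452364309) (nat_lit 17) leaf)) (nat_lit 3988452807829) (nat_lit 12) (node (node (node leaf (nat_lit 3988452808981) (nat_lit 4) leaf) (nat_lit 3988452819349) (nat_lit 8) leaf) (nat_lit 3988452820549) (nat_lit 14) (node (node leaf (nat_lit 3988452820561) (nat_lit 10) leaf) (nat_lit 3988452821317) (nat_lit 14) leaf)))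 (nat_lit 3988452823633) (nat_lit 14) (node (node (node (node leaf (nat_lit 3988452827461) (nat_lit 8) leaf) (nat_lit 3988452828229) (nat_lit 2) leaf) (nat_lit 3988452828421) (nat_lit 14) (node (node leaf (nat_lit 3988452839509) (nat_lit 6) leaf) (nat_lit 3988452840469) (nat_lit 4) leaf)) (nat_lit 3988452840517) (nat_lit 2) (node (node (node leaf (nat_lit 3988452840709) (nat_lit 23) leaf) (nat_lit 3988452869221) (nat_lit 10) leaf) (nat_lit 3988452869269) (nat_lit 10) (node leaf (nat_lit 3988452869653) (nat_lit 4) leaf)))) (nat_lit 3988452869713) (nat_lit 10) (node (node (node (node (node leaf (nat_lit 3988452870469) (nat_lit 2) leaf) (nat_lit 3988452872293) (nat_lit 6) leaf) (nat_lit 3988452872341) (nat_lit 23) (node (node leaf (nat_lit 3988452884581) (nat_lit 23) leaf) (nat_lit 3988452884629) (nat_lit 23) leaf)) (nat_lit 3988452938005) (nat_lit 8) (node (node (node leaf (nat_lit 3988452938773) (nat_lit 4) leaf) (nat_lit 3988452938821) (nat_lit 12) leaf) (nat_lit 3988452951061) (nat_lit 4) (node (node leaf (nat_lit 3988452951109)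 (nat_lit 10) leaf) (nat_lit 3988452954133) (nat_lit 4) leaf))) (nat_lit 3988453331029) (nat_lit 6) (node (node (node (node leaf (nat_lit 3988453343509) (nat_lit 8) leaf) (nat_lit 3988453344277) (nat_lit 10) leaf) (nat_lit 3988453933333) (nat_lit 8) (node (node leaf (nat_lit 3988453934101) (nat_lit 10) leaf) (nat_lit 3988456292629) (nat_lit 8) leaf)) (nat_lit 3988456293397) (nat_lit 10) (node (node (node leaf (nat_lit 3988457066773) (nat_lit 16) leaf) (nat_lit 3988457067541) (nat_lit 16) leaf) (nat_lit 3988457263189) (nat_lit 6) (node leaf (nat_lit 3988457263381) (nat_lit 8) leaf)))))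

noncomputable def L0_202 : Tr := node L0_200 (nat_lit 3988452053269) (nat_lit 18) L0_201

noncomputable def L0_203 : Tr := node L0_199 (nat_lit 3988050187333) (nat_lit 2) L0_202

noncomputable def L0_204 : Tr := node L0_196 (nat_lit 3893929977109) (nat_lit 4) L0_203

noncomputable def L0_205 : Tr := (node (node (node (node (node (node leaf (nat_lit 3988487670085) (nat_lit 22) leaf) (nat_lit 3988490589445) (nat_lit 21) leaf) (nat_lit 3988490589457) (nat_lit 21) (node (node leaf (nat_lit 3988490621077) (nat_lit 21) leaf) (nat_lit 3988490633317) (nat_lit 21) leaf)) (nat_lit 3988490633365) (nat_lit 21) (node (node (node leaf (nat_lit 3988490815825) (nat_lit 21) leaf) (nat_lit 3988490829973) (nat_lit 14) leaf) (nat_lit 3988497963397) (nat_lit 16) (node (node leaf (nat_lit 3988497963604) (nat_lit 16) leaf) (nat_lit 3988497966373) (nat_lit 16) leaf))) (nat_lit 3988497966469) (nat_lit 16) (node (node (node (node leaf (nat_lit 3988497966613) (nat_lit 16) leaf) (nat_lit 3988497966661) (nat_lit 16) leaf) (nat_lit 3988497966673) (nat_lit 16)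 (node (node leaf (nat_lit 3988497966676) (nat_lit 16) leaf) (nat_lit 3988497973909) (nat_lit 16) leaf)) (nat_lit 3988497975685) (nat_lit 16) (node (node (node leaf (nat_lit 3988497975892) (nat_lit 16) leaf) (nat_lit 3988497990757) (nat_lit 6) leaf) (nat_lit 3988497990949) (nat_lit 16) (node leaf (nat_lit 3988497991045) (nat_lit 10) leaf)))) (nat_lit 3988497991189) (nat_lit 4) (node (node (node (node (node leaf (nat_lit 3988497991237) (nat_lit 2) leaf) (nat_lit 3988497991249) (nat_lit 0) leaf) (nat_lit 3988497992017) (nat_lit 9) (node (node leaf (nat_lit 3988497993877) (nat_lit 5) leaf) (nat_lit 3988497994021) (nat_lit 16) leaf)) (nat_lit 3988497994117) (nat_lit 8) (node (node (node leaf (nat_lit 3988497994321) (nat_lit 0) leaf) (nat_lit 3988497994324) (nat_lit 16) leaf) (nat_lit 3988497994789) (nat_lit 16) (node (node leaf (nat_lit 3988497994885) (nat_lit 16) leaf) (nat_lit 3988497995857) (nat_lit 16) leaf))) (nat_lit 3988497996052) (nat_lit 16) (node (node (node (node leaf (nat_lit 3988497999124) (nat_lit 4) leaf) (nat_lit 3988497999169)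 (nat_lit 0) leaf) (nat_lit 3988498040341) (nat_lit 10) (node (node leaf (nat_lit 3988498042981) (nat_lit 15) leaf) (nat_lit 3988498043029) (nat_lit 5) leaf)) (nat_lit 3988498043173) (nat_lit 3) (node (node (node leaf (nat_lit 3988498043209) (nat_lit 8) leaf) (nat_lit 3988498043269) (nat_lit 8) leaf) (nat_lit 3988498043281) (nat_lit 0) (node leaf (nat_lit 3988498043413) (nat_lit 4) leaf)))))

noncomputable def L0_206 : Tr := (node (node (node (node (node (node leaf (nat_lit 3988498043929) (nat_lit 4) leaf) (nat_lit 3988498043941) (nat_lit 15) leaf) (nat_lit 3988498044001) (nat_lit 6) (node (node leaf (nat_lit 3988498044169) (nat_lit 15) leaf) (nat_lit 3988498159909) (nat_lit 12) leaf)) (nat_lit 3988498160212) (nat_lit 12) (node (node (node leaf (nat_lit 3988498162789) (nat_lit 6) leaf) (nat_lit 3988498162837) (nat_lit 5) leaf) (nat_lit 3988498162969) (nat_lit 4) (node (node leaf (nat_lit 3988498162981) (nat_lit 18) leaf) (nat_lit 3988498163077) (nat_lit 2) leaf))) (nat_lit 3988498163221) (nat_lit 4) (node (node (node (node leaf (nat_lit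 3988498163269) (nat_lit 2) leaf) (nat_lit 3988498163281) (nat_lit 0) leaf) (nat_lit 3988498170277) (nat_lit 14) (node (node leaf (nat_lit 3988498172197) (nat_lit 14) leaf) (nat_lit 3988498172293) (nat_lit 18) leaf)) (nat_lit 3988498172500) (nat_lit 18) (node (node (node leaf (nat_lit 3988498178644) (nat_lit 7) leaf) (nat_lit 3988498179220) (nat_lit 18) leaf) (nat_lit 3988498187557) (nat_lit 10) (node leaf (nat_lit 3988498188625) (nat_lit 9) leaf)))) (nat_lit 3988498190437) (nat_lit 6) (node (node (node (node (node leaf (nat_lit 3988498190629) (nat_lit 8) leaf) (nat_lit 3988498190740) (nat_lit 18) leaf) (nat_lit 3988498190929) (nat_lit 0) (node (node leaf (nat_lit 3988498190932) (nat_lit 18) leaf) (nat_lit 3988498191397) (nat_lit 18) leaf)) (nat_lit 3988498191433) (nat_lit 18) (node (node (node leaf (nat_lit 3988498191625) (nat_lit 18) leaf) (nat_lit 3988498192465) (nat_lit 0) leaf) (nat_lit 3988498192468) (nat_lit 6) (node (node leaf (nat_lit 3988498192657) (nat_lit 0) leaf) (nat_lit 3988498219429) (nat_lit 8) leaf))) (nat_lit 3988498221349)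 (nat_lit 18) (node (node (node (node leaf (nat_lit 3988498286917) (nat_lit 2) leaf) (nat_lit 3988498288933) (nat_lit 8) leaf) (nat_lit 3988498289236) (nat_lit 12) (node (node leaf (nat_lit 3988498289737) (nat_lit 6) leaf) (nat_lit 3988498290769) (nat_lit 0) leaf)) (nat_lit 3988498301521) (nat_lit 0) (node (node (node leaf (nat_lit 3988498432597) (nat_lit 7) leaf) (nat_lit 3988498433173) (nat_lit 10) leaf) (nat_lit 3988498433557) (nat_lit 14) (node leaf (nat_lit 3988498436245) (nat_lit 14) leaf)))))

noncomputable def L0_207 : Tr := node L0_205 (nat_lit 3988498043461) (nat_lit 2) L0_206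

noncomputable def L0_208 : Tr := (node (node (node (node (node (node leaf (nat_lit 3988498453825) (nat_lit 13) leaf) (nat_lit 3988498481749) (nat_lit 7) leaf) (nat_lit 3988498482277) (nat_lit 6) (node (node leaf (nat_lit 3988498482325) (nat_lit 10) leaf) (nat_lit 3988498482469) (nat_lit 10) leaf)) (nat_lit 3988498482709) (nat_lit 4) (node (node (node leaf (nat_lit 3988498482757) (nat_lit 2) leaf) (nat_lit 3988498483525) (nat_lit 2) leaf) (nat_lit 3988498483537) (nat_lit 9) (node (node leaf (nat_lit 3988498485349) (nat_lit 6) leaf) (nat_lit 3988498485397) (nat_lit 12) leaf))) (nat_lit 3988498485841) (nat_lit 12) (node (node (node (node leaf (nat_lit 3988498485844) (nat_lit 12) leaf) (nat_lit 3988498487377) (nat_lit 12) leaf) (nat_lit 3988498490641) (nat_lit 4) (node (node leaf (nat_lit 3988498490689) (nat_lit 11) leaf) (nat_lit 3988498497685) (nat_lit 5) leaf)) (nat_lit 3988498497829) (nat_lit 8) (node (node (node leaf (nat_lit 3988498497925) (nat_lit 8) leaf) (nat_lit 3988498498129) (nat_lit 0) leaf) (nat_lit 3988498498132) (nat_lit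 7) (node leaf (nat_lit 3988498498597) (nat_lit 10) leaf)))) (nat_lit 3988498498708) (nat_lit 10) (node (node (node (node (node leaf (nat_lit 3988498499089) (nat_lit 0) leaf) (nat_lit 3988498499665) (nat_lit 0) leaf) (nat_lit 3988498499905) (nat_lit 0) (node (node leaf (nat_lit 3988498501669) (nat_lit 3) leaf) (nat_lit 3988498501705) (nat_lit 6) leaf)) (nat_lit 3988498506001) (nat_lit 4) (node (node (node leaf (nat_lit 3988498515205) (nat_lit 2) leaf) (nat_lit 3988498515217) (nat_lit 4) leaf) (nat_lit 3988498944661) (nat_lit 12) (node (node leaf (nat_lit 3988498946452) (nat_lit 12) leaf) (nat_lit 3988498946644) (nat_lit 12) leaf))) (nat_lit 3988498949401) (nat_lit 4) (node (node (node (node leaf (nat_lit 3988498949413) (nat_lit 11) leaf) (nat_lit 3988498949509) (nat_lit 2) leaf) (nat_lit 3988498957972) (nat_lit 14) (node (node leaf (nat_lit 3988498958629) (nat_lit 14) leaf) (nat_lit 3988498977817) (nat_lit 4) leaf)) (nat_lit 3988498977865) (nat_lit 6) (node (node (node leaf (nat_lit 3988499005861) (nat_lit 8) leaf) (nat_lit 3988500009109)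 (nat_lit 14) leaf) (nat_lit 3988500026629) (nat_lit 2) (node leaf (nat_lit 3988500026641) (nat_lit 4) leaf)))))

noncomputable def L0_209 : Tr := (node (node (node (node (node (node leaf (nat_lit 3988500055141) (nat_lit 10) leaf) (nat_lit 3988500055189) (nat_lit 10) leaf) (nat_lit 3988500055573) (nat_lit 4) (node (node leaf (nat_lit 3988500056389) (nat_lit 16) leaf) (nat_lit 3988500056401) (nat_lit 9) leaf)) (nat_lit 3988500058261) (nat_lit 12) (node (node (node leaf (nat_lit 3988500058705) (nat_lit 12) leaf) (nat_lit 3988500060241) (nat_lit 16) leaf) (nat_lit 3988500070501) (nat_lit 6) (node (node leaf (nat_lit 3988500070549) (nat_lit 5) leaf) (nat_lit 3988500070693) (nat_lit 8) leaf))) (nat_lit 3988500070993) (nat_lit 16) (node (node (node (node leaf (nat_lit 3988500253009) (nat_lit 9) leaf) (nat_lit 3988500255313) (nat_lit 12) leaf) (nat_lit 3988502095141) (nat_lit 11) (node (node leaf (nat_lit 3988502104357) (nat_lit 14) leaf) (nat_lit 3988502151589) (nat_lit 16) leaf)) (nat_lit 3988506296917) (nat_lit 14) (node (node (node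 leaf (nat_lit 3988506297493) (nat_lit 14) leaf) (nat_lit 3988506317893) (nat_lit 6) leaf) (nat_lit 3988506318085) (nat_lit 2) (node leaf (nat_lit 3988506346069) (nat_lit 7) leaf)))) (nat_lit 3988506346645) (nat_lit 10) (node (node (node (node (node leaf (nat_lit 3988506347845) (nat_lit 2) leaf) (nat_lit 3988506347857) (nat_lit 16) leaf) (nat_lit 3988506349669) (nat_lit 12) (node (node leaf (nat_lit 3988515755077) (nat_lit 6) leaf) (nat_lit 3988515755269) (nat_lit 2) leaf)) (nat_lit 3988515785029) (nat_lit 20) (node (node (node leaf (nat_lit 3988515785041) (nat_lit 16) leaf) (nat_lit 3988515786853) (nat_lit 12) leaf) (nat_lit 3988515799189) (nat_lit 16) (node (node leaf (nat_lit 3988518930757) (nat_lit 16) leaf) (nat_lit 3988549865749) (nat_lit 20) leaf))) (nat_lit 3988549866517) (nat_lit 20) (node (node (node (node leaf (nat_lit 3988550665237) (nat_lit 10) leaf) (nat_lit 3988552519957) (nat_lit 16) leaf) (nat_lit 3988552520725) (nat_lit 16) (node (node leaf (nat_lit 3988552685845) (nat_lit 18) leaf) (nat_lit 3988552716373) (nat_lit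 6) leaf)) (nat_lit 3988552717333) (nat_lit 18) (node (node (node leaf (nat_lit 3988553011285) (nat_lit 6) leaf) (nat_lit 3988553023765) (nat_lit 8) leaf) (nat_lit 3988553470357) (nat_lit 12) (node leaf (nat_lit 3988553472325) (nat_lit 12) leaf)))))

noncomputable def L0_210 : Tr := node L0_208 (nat_lit 3988500054613) (nat_lit 7) L0_209

noncomputable def L0_211 : Tr := node L0_207 (nat_lit 3988498453777) (nat_lit 13) L0_210

noncomputable def L0_212 : Tr := (node (node (node (node (node (node leaf (nat_lit 3988553483413) (nat_lit 14) leaf) (nat_lit 3988553483845) (nat_lit 2) leaf) (nat_lit 3988553483857) (nat_lit 14) (node (node leaf (nat_lit 3988553484613) (nat_lit 14) leaf) (nat_lit 3988553490709) (nat_lit 4) leaf)) (nat_lit 3988553490757) (nat_lit 8) (node (node (node leaf (nat_lit 3988553491525) (nat_lit 6) leaf) (nat_lit 3988553502997) (nat_lit 8) leaf) (nat_lit 3988553503045) (nat_lit 8) (node (node leaf (nat_lit 3988553503765) (nat_lit 4) leaf) (nat_lit 3988553503813) (nat_lit 6) leaf))) (nat_lit 3988553531989) (nat_lit 22)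 (node (node (node (node leaf (nat_lit 3988553532565) (nat_lit 22) leaf) (nat_lit 3988553533765) (nat_lit 22) leaf) (nat_lit 3988553533777) (nat_lit 22) (node (node leaf (nat_lit 3988553601301) (nat_lit 8) leaf) (nat_lit 3988553602069) (nat_lit 4) leaf)) (nat_lit 3988554584341) (nat_lit 12) (node (node (node leaf (nat_lit 3988554596437) (nat_lit 6) leaf) (nat_lit 3988556943637) (nat_lit 18) leaf) (nat_lit 3988556944405) (nat_lit 18) (node leaf (nat_lit 3988557729877) (nat_lit 6) leaf)))) (nat_lit 3988557730069) (nat_lit 8) (node (node (node (node (node leaf (nat_lit 3988557926485) (nat_lit 6) leaf) (nat_lit 3988566116677) (nat_lit 2) leaf) (nat_lit 3988569204037) (nat_lit 2) (node (node leaf (nat_lit 3988569211477) (nat_lit 14) leaf) (nat_lit 3988569212053) (nat_lit 14) leaf)) (nat_lit 3988569260629) (nat_lit 16) (node (node (node leaf (nat_lit 3988582109269) (nat_lit 18) leaf) (nat_lit 3988582109461) (nat_lit 18) leaf) (nat_lit 3988582895701) (nat_lit 6) (node (node leaf (nat_lit 3994429964437) (nat_lit 14) leaf) (nat_lit 3994489799701)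 (nat_lit 19) leaf))) (nat_lit 3994489799749) (nat_lit 19) (node (node (node (node leaf (nat_lit 3994492158997) (nat_lit 17) leaf) (nat_lit 3994492159045) (nat_lit 17) leaf) (nat_lit 3994492605589) (nat_lit 12) (node (node leaf (nat_lit 3994492606741) (nat_lit 4) leaf) (nat_lit 3994492618309) (nat_lit 2) leaf)) (nat_lit 3994492618321) (nat_lit 0) (node (node (node leaf (nat_lit 3994492619077) (nat_lit 14) leaf) (nat_lit 3994492619092) (nat_lit 14) leaf) (nat_lit 3994492621093) (nat_lit 14) (node leaf (nat_lit 3994492621393) (nat_lit 14) leaf)))))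

noncomputable def L0_213 : Tr := (node (node (node (node (node (node leaf (nat_lit 3994492625941) (nat_lit 4) leaf) (nat_lit 3994492625989) (nat_lit 6) leaf) (nat_lit 3994492626181) (nat_lit 14) (node (node leaf (nat_lit 3994492637269) (nat_lit 6) leaf) (nat_lit 3994492638229) (nat_lit 4) leaf)) (nat_lit 3994492638277) (nat_lit 2) (node (node (node leaf (nat_lit 3994492667029) (nat_lit 10) leaf) (nat_lit 3994492667413) (nat_lit 16) leaf) (nat_lit 3994492668229) (nat_lit 2) (node (node leaf (nat_lit 3994492670053) (nat_lit 6) leaf) (nat_lit 3994492670101) (nat_lit 16) leaf))) (nat_lit 3994492670245) (nat_lit 12) (node (node (node (node leaf (nat_lit 3994492670533) (nat_lit 2) leaf) (nat_lit 3994492682341) (nat_lit 6) leaf) (nat_lit 3994492682389) (nat_lit 16) (node (node leaf (nat_lit 3994492735765) (nat_lit 8) leaf) (nat_lit 3994492736533) (nat_lit 12) leaf)) (nat_lit 3994492748053) (nat_lit 8) (node (node (node leaf (nat_lit 3994492748821) (nat_lit 10) leaf) (nat_lit 3994492748869) (nat_lit 10) leaf) (nat_lit 3994492863061) (nat_lit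 7) (node leaf (nat_lit 3994492863637) (nat_lit 10) leaf)))) (nat_lit 3994492866709) (nat_lit 12) (node (node (node (node (node leaf (nat_lit 3994493128789) (nat_lit 6) leaf) (nat_lit 3994493129749) (nat_lit 12) leaf) (nat_lit 3994493141269) (nat_lit 8) (node (node leaf (nat_lit 3994493142037) (nat_lit 4) leaf) (nat_lit 3994493719573) (nat_lit 12) leaf)) (nat_lit 3994493731093) (nat_lit 8) (node (node (node leaf (nat_lit 3994493731861) (nat_lit 4) leaf) (nat_lit 3994496078869) (nat_lit 12) leaf) (nat_lit 3994496090389) (nat_lit 8) (node (node leaf (nat_lit 3994496091157) (nat_lit 4) leaf) (nat_lit 3994497060949) (nat_lit 6) leaf))) (nat_lit 3994497061141) (nat_lit 4) (node (node (node (node leaf (nat_lit 3994892452117) (nat_lit 19) leaf) (nat_lit 3994892452885) (nat_lit 19) leaf) (nat_lit 3994894473493) (nat_lit 18) (node (node leaf (nat_lit 3994894504021) (nat_lit 18) leaf) (nat_lit 3994894504981) (nat_lit 18) leaf)) (nat_lit 3994894798933) (nat_lit 17) (node (node (node leaf (nat_lit 3994894811413) (nat_lit 17) leaf) (nat_lit 3994894812181)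 (nat_lit 17) leaf) (nat_lit 3994895258005) (nat_lit 8) (node leaf (nat_lit 3994895259733) (nat_lit 6) leaf)))))

noncomputable def L0_214 : Tr := node L0_212 (nat_lit 3994492625221) (nat_lit 8) L0_213

noncomputable def L0_215 : Tr := (node (node (node (node (node (node leaf (nat_lit 3994895263045) (nat_lit 11) leaf) (nat_lit 3994895271061) (nat_lit 14) leaf) (nat_lit 3994895271445) (nat_lit 14) (node (node leaf (nat_lit 3994895271493) (nat_lit 2) leaf) (nat_lit 3994895271505) (nat_lit 10) leaf)) (nat_lit 3994895272213) (nat_lit 4) (node (node (node leaf (nat_lit 3994895272261) (nat_lit 14) leaf) (nat_lit 3994895274085) (nat_lit 14) leaf) (nat_lit 3994895274133) (nat_lit 14) (node (node leaf (nat_lit 3994895274565) (nat_lit 2) leaf) (nat_lit 3994895278357) (nat_lit 4) leaf))) (nat_lit 3994895278405) (nat_lit 8) (node (node (node (node leaf (nat_lit 3994895279125) (nat_lit 4) leaf) (nat_lit 3994895279173) (nat_lit 6) leaf) (nat_lit 3994895290645) (nat_lit 8) (node (node leaf (nat_lit 3994895290693) (nat_lit 8) leaf) (nat_lit 3994895291413)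 (nat_lit 4) leaf)) (nat_lit 3994895291461) (nat_lit 23) (node (node (node leaf (nat_lit 3994895291653) (nat_lit 23) leaf) (nat_lit 3994895319637) (nat_lit 7) leaf) (nat_lit 3994895320213) (nat_lit 10) (node leaf (nat_lit 3994895321413) (nat_lit 23) leaf)))) (nat_lit 3994895321425) (nat_lit 23) (node (node (node (node (node leaf (nat_lit 3994895323237) (nat_lit 12) leaf) (nat_lit 3994895323285) (nat_lit 12) leaf) (nat_lit 3994895335573) (nat_lit 23) (node (node leaf (nat_lit 3994895388757) (nat_lit 6) leaf) (nat_lit 3994895388949) (nat_lit 8) leaf)) (nat_lit 3994895389717) (nat_lit 12) (node (node (node leaf (nat_lit 3994895401237) (nat_lit 8) leaf) (nat_lit 3994895402005) (nat_lit 4) leaf) (nat_lit 3994895782165) (nat_lit 12) (node (node leaf (nat_lit 3994895782933) (nat_lit 12) leaf) (nat_lit 3994895794453) (nat_lit 8) leaf))) (nat_lit 3994896371989) (nat_lit 12) (node (node (node (node leaf (nat_lit 3994896372757) (nat_lit 12) leaf) (nat_lit 3994896384085) (nat_lit 6) leaf) (nat_lit 3994896384277) (nat_lit 8) (node (node leaf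 (nat_lit 3994898731285) (nat_lit 12) leaf) (nat_lit 3994898732053) (nat_lit 12) leaf)) (nat_lit 3994898743573) (nat_lit 8) (node (node (node leaf (nat_lit 3994899517525) (nat_lit 16) leaf) (nat_lit 3994899714133) (nat_lit 6) leaf) (nat_lit 3994927911061) (nat_lit 22) (node leaf (nat_lit 3994928300629) (nat_lit 22) leaf)))))

noncomputable def L0_216 : Tr := (node (node (node (node (node (node leaf (nat_lit 3994928349781) (nat_lit 22) leaf) (nat_lit 3994933019221) (nat_lit 21) leaf) (nat_lit 3994933019797) (nat_lit 21) (node (node leaf (nat_lit 3994933040197) (nat_lit 21) leaf) (nat_lit 3994933040389) (nat_lit 21) leaf)) (nat_lit 3994933068373) (nat_lit 21) (node (node (node leaf (nat_lit 3994933070149) (nat_lit 21) leaf) (nat_lit 3994933070161) (nat_lit 21) leaf) (nat_lit 3994933084309) (nat_lit 16) (node (node leaf (nat_lit 3994933268629) (nat_lit 12) leaf) (nat_lit 3994940368261) (nat_lit 14) leaf))) (nat_lit 3994940368405) (nat_lit 14) (node (node (node (node leaf (nat_lit 3994940412565) (nat_lit 12) leaf) (nat_lit 3994940414341)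 (nat_lit 12) leaf) (nat_lit 3994940417173) (nat_lit 5) (node (node leaf (nat_lit 3994940417317) (nat_lit 16) leaf) (nat_lit 3994940417413) (nat_lit 16) leaf)) (nat_lit 3994940417557) (nat_lit 16) (node (node (node leaf (nat_lit 3994940417605) (nat_lit 16) leaf) (nat_lit 3994940417617) (nat_lit 16) leaf) (nat_lit 3994940426533) (nat_lit 16) (node leaf (nat_lit 3994940426629) (nat_lit 16) leaf)))) (nat_lit 3994940441173) (nat_lit 7) (node (node (node (node (node leaf (nat_lit 3994940441701) (nat_lit 6) leaf) (nat_lit 3994940441749) (nat_lit 5) leaf) (nat_lit 3994940441893) (nat_lit 16) (node (node leaf (nat_lit 3994940441989) (nat_lit 10) leaf) (nat_lit 3994940442133) (nat_lit 4) leaf)) (nat_lit 3994940442181) (nat_lit 2) (node (node (node leaf (nat_lit 3994940444821) (nat_lit 5) leaf) (nat_lit 3994940444965) (nat_lit 16) leaf) (nat_lit 3994940445061) (nat_lit 8) (node (node leaf (nat_lit 3994940445076) (nat_lit 16) leaf) (nat_lit 3994940445268) (nat_lit 16) leaf))) (nat_lit 3994940445733) (nat_lit 16) (node (node (node (node leaf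 (nat_lit 3994940445769) (nat_lit 16) leaf) (nat_lit 3994940446801) (nat_lit 16) leaf) (nat_lit 3994940446993) (nat_lit 0) (node (node leaf (nat_lit 3994940450065) (nat_lit 4) leaf) (nat_lit 3994940450113) (nat_lit 27) leaf)) (nat_lit 3994940490325) (nat_lit 7) (node (node (node leaf (nat_lit 3994940490901) (nat_lit 10) leaf) (nat_lit 3994940491285) (nat_lit 10) leaf) (nat_lit 3994940493925) (nat_lit 6) (node leaf (nat_lit 3994940493973) (nat_lit 5) leaf)))))

noncomputable def L0_217 : Tr := node L0_215 (nat_lit 3994928301205) (nat_lit 22) L0_216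

noncomputable def L0_218 : Tr := node L0_214 (nat_lit 3994895259973) (nat_lit 12) L0_217

noncomputable def L0_219 : Tr := node L0_211 (nat_lit 3988553475397) (nat_lit 11) L0_218

noncomputable def L0_220 : Tr := node L0_204 (nat_lit 3988487473477) (nat_lit 22) L0_219

noncomputable def L0_221 : Tr := (node (node (node (node (node (node leaf (nat_lit 3994940494117) (nat_lit 15) leaf) (nat_lit 3994940494213) (nat_lit 2) leaf) (nat_lit 3994940494357) (nat_lit 4) (node (node leaf (nat_lit 3994940494885) (nat_lit 3) leaf) (nat_lit 3994940494921) (nat_lit 15) leaf)) (nat_lit 3994940609173) (nat_lit 18) (node (node (node leaf (nat_lit 3994940610853) (nat_lit 12) leaf) (nat_lit 3994940610964) (nat_lit 18) leaf) (nat_lit 3994940611156) (nat_lit 18) (node (node leaf (nat_lit 3994940613733) (nat_lit 6) leaf) (nat_lit 3994940613781) (nat_lit 5) leaf))) (nat_lit 3994940613925) (nat_lit 18) (node (node (node (node leaf (nat_lit 3994940614021) (nat_lit 18) leaf) (nat_lit 3994940614165) (nat_lit 4) leaf) (nat_lit 3994940614213) (nat_lit 2) (node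 (node leaf (nat_lit 3994940621221) (nat_lit 14) leaf) (nat_lit 3994940623141) (nat_lit 14) leaf)) (nat_lit 3994940638501) (nat_lit 10) (node (node (node leaf (nat_lit 3994940641573) (nat_lit 8) leaf) (nat_lit 3994940641873) (nat_lit 0) leaf) (nat_lit 3994940642329) (nat_lit 4) (node leaf (nat_lit 3994940642377) (nat_lit 18) leaf)))) (nat_lit 3994940670373) (nat_lit 18) (node (node (node (node (node leaf (nat_lit 3994940871253) (nat_lit 12) leaf) (nat_lit 3994940871829) (nat_lit 12) leaf) (nat_lit 3994940883541) (nat_lit 14) (node (node leaf (nat_lit 3994940887189) (nat_lit 14) leaf) (nat_lit 3994940904709) (nat_lit 13) leaf)) (nat_lit 3994940904721) (nat_lit 13) (node (node (node leaf (nat_lit 3994940932693) (nat_lit 7) leaf) (nat_lit 3994940933221) (nat_lit 6) leaf) (nat_lit 3994940933269) (nat_lit 10) (node (node leaf (nat_lit 3994940933653) (nat_lit 4) leaf) (nat_lit 3994940934481) (nat_lit 9) leaf))) (nat_lit 3994940936341) (nat_lit 12) (node (node (node (node leaf (nat_lit 3994940936785) (nat_lit 12) leaf) (nat_lit 3994940938321)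 (nat_lit 12) leaf) (nat_lit 3994940941393) (nat_lit 6) (node (node leaf (nat_lit 3994940941573) (nat_lit 2) leaf) (nat_lit 3994940941585) (nat_lit 4) leaf)) (nat_lit 3994940949073) (nat_lit 7) (node (node (node leaf (nat_lit 3994940949541) (nat_lit 10) leaf) (nat_lit 3994940949649) (nat_lit 0) leaf) (nat_lit 3994940965957) (nat_lit 6) (node leaf (nat_lit 3994940966149) (nat_lit 2) leaf)))))

noncomputable def L0_222 : Tr := (node (node (node (node (node (node leaf (nat_lit 3994941400357) (nat_lit 20) leaf) (nat_lit 3994942456405) (nat_lit 14) leaf) (nat_lit 3994942456981) (nat_lit 14) (node (node leaf (nat_lit 3994942458193) (nat_lit 14) leaf) (nat_lit 3994942477381) (nat_lit 6) leaf)) (nat_lit 3994942477573) (nat_lit 2) (node (node (node leaf (nat_lit 3994942505557) (nat_lit 7) leaf) (nat_lit 3994942506133) (nat_lit 10) leaf) (nat_lit 3994942507333) (nat_lit 2) (node (node leaf (nat_lit 3994942507345) (nat_lit 9) leaf) (nat_lit 3994942509649) (nat_lit 12) leaf))) (nat_lit 3994948735573) (nat_lit 12) (node (node (node (node leaf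 (nat_lit 3994948736149) (nat_lit 12) leaf) (nat_lit 3994948747861) (nat_lit 14) leaf) (nat_lit 3994948749637) (nat_lit 14) (node (node leaf (nat_lit 3994948768069) (nat_lit 8) leaf) (nat_lit 3994948768789) (nat_lit 4) leaf)) (nat_lit 3994948768837) (nat_lit 6) (node (node (node leaf (nat_lit 3994948798789) (nat_lit 2) leaf) (nat_lit 3994958186821) (nat_lit 14) leaf) (nat_lit 3994958205253) (nat_lit 8) (node leaf (nat_lit 3994958205973) (nat_lit 4) leaf)))) (nat_lit 3994958206021) (nat_lit 6) (node (node (node (node (node leaf (nat_lit 3994958235973) (nat_lit 2) leaf) (nat_lit 3994958237845) (nat_lit 12) leaf) (nat_lit 3994992316501) (nat_lit 20) (node (node leaf (nat_lit 3994993103893) (nat_lit 12) leaf) (nat_lit 3994993115413) (nat_lit 8) leaf)) (nat_lit 3994994970709) (nat_lit 16) (node (node (node leaf (nat_lit 3994995134869) (nat_lit 18) leaf) (nat_lit 3994995136597) (nat_lit 6) leaf) (nat_lit 3994995136837) (nat_lit 18) (node (node leaf (nat_lit 3994995167509) (nat_lit 8) leaf) (nat_lit 3994995168325) (nat_lit 18) leaf))) (nat_lit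 3994995265813) (nat_lit 18) (node (node (node (node leaf (nat_lit 3994995266581) (nat_lit 18) leaf) (nat_lit 3994995462421) (nat_lit 12) leaf) (nat_lit 3994995474517) (nat_lit 6) (node (node leaf (nat_lit 3994995922069) (nat_lit 12) leaf) (nat_lit 3994995923221) (nat_lit 4) leaf)) (nat_lit 3994995923269) (nat_lit 12) (node (node (node leaf (nat_lit 3994995926293) (nat_lit 4) leaf) (nat_lit 3994995926341) (nat_lit 11) leaf) (nat_lit 3994995933781) (nat_lit 14) (node leaf (nat_lit 3994995934357) (nat_lit 14) leaf)))))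

noncomputable def L0_223 : Tr := node L0_221 (nat_lit 3994941392533) (nat_lit 10) L0_222

noncomputable def L0_224 : Tr := (node (node (node (node (node (node leaf (nat_lit 3994995935557) (nat_lit 14) leaf) (nat_lit 3994995941701) (nat_lit 8) leaf) (nat_lit 3994995953941) (nat_lit 4) (node (node leaf (nat_lit 3994995953989) (nat_lit 8) leaf) (nat_lit 3994995954709) (nat_lit 4) leaf)) (nat_lit 3994995984709) (nat_lit 2) (node (node (node leaf (nat_lit 3994996052053) (nat_lit 6) leaf) (nat_lit 3994996052245) (nat_lit 8) leaf) (nat_lit 3994997035093) (nat_lit 12) (node (node leaf (nat_lit 3994999394389) (nat_lit 18) leaf) (nat_lit 3994999394581) (nat_lit 8) leaf))) (nat_lit 3995000180821) (nat_lit 16) (node (node (node (node leaf (nat_lit 3995000374357) (nat_lit 10) leaf) (nat_lit 3995008565845) (nat_lit 20) leaf) (nat_lit 3995011650133) (nat_lit 12) (node (node leaf (nat_lit 3995011650709) (nat_lit 12) leaf) (nat_lit 3995011654933) (nat_lit 4) leaf)) (nat_lit 3995011662421) (nat_lit 14) (node (node (node leaf (nat_lit 3995024511061)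 (nat_lit 14) leaf) (nat_lit 3995024557141) (nat_lit 10) leaf) (nat_lit 3995024560213) (nat_lit 18) (node leaf (nat_lit 3995025343573) (nat_lit 10) leaf)))) (nat_lit 3995544429889) (nat_lit 25) (node (node (node (node (node leaf (nat_lit 3995663377729) (nat_lit 20) leaf) (nat_lit 3995666130241) (nat_lit 0) leaf) (nat_lit 3995670455617) (nat_lit 18) (node (node leaf (nat_lit 3995671242001) (nat_lit 4) leaf) (nat_lit 3995695424833) (nat_lit 16) leaf)) (nat_lit 3995695621393) (nat_lit 4) (node (node (node leaf (nat_lit 3995796088081) (nat_lit 4) leaf) (nat_lit 3995947083025) (nat_lit 4) leaf) (nat_lit 3996493349461) (nat_lit 24) (node (node leaf (nat_lit 3996503052565) (nat_lit 19) leaf) (nat_lit 3996503064853) (nat_lit 19) leaf))) (nat_lit 3996505086277) (nat_lit 18) (node (node (node (node leaf (nat_lit 3996505116949) (nat_lit 18) leaf) (nat_lit 3996505117765) (nat_lit 18) leaf) (nat_lit 3996505215253) (nat_lit 18) (node (node leaf (nat_lit 3996505216021) (nat_lit 18) leaf) (nat_lit 3996505411861) (nat_lit 17) leaf)) (nat_lit 3996505424149)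 (nat_lit 17) (node (node (node leaf (nat_lit 3996505872661) (nat_lit 4) leaf) (nat_lit 3996505872709) (nat_lit 12) leaf) (nat_lit 3996505875733) (nat_lit 11) (node leaf (nat_lit 3996505875781) (nat_lit 11) leaf)))))

noncomputable def L0_225 : Tr := (node (node (node (node (node (node leaf (nat_lit 3996505883749) (nat_lit 10) leaf) (nat_lit 3996505883797) (nat_lit 10) leaf) (nat_lit 3996505884181) (nat_lit 4) (node (node leaf (nat_lit 3996505884229) (nat_lit 10) leaf) (nat_lit 3996505884949) (nat_lit 4) leaf)) (nat_lit 3996505884997) (nat_lit 14) (node (node (node leaf (nat_lit 3996505886821) (nat_lit 14) leaf) (nat_lit 3996505887253) (nat_lit 4) leaf) (nat_lit 3996505890901) (nat_lit 6) (node (node leaf (nat_lit 3996505891141) (nat_lit 8) leaf) (nat_lit 3996505891861) (nat_lit 4) leaf))) (nat_lit 3996505900309) (nat_lit 10) (node (node (node (node leaf (nat_lit 3996505903381) (nat_lit 8) leaf) (nat_lit 3996505903429) (nat_lit 8) leaf) (nat_lit 3996505904149) (nat_lit 4) (node (node leaf (nat_lit 3996505904197) (nat_lit 6) leaf)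 (nat_lit 3996505932949) (nat_lit 10) leaf)) (nat_lit 3996505934149) (nat_lit 2) (node (node (node leaf (nat_lit 3996505936021) (nat_lit 12) leaf) (nat_lit 3996506001493) (nat_lit 6) leaf) (nat_lit 3996506001685) (nat_lit 8) (node leaf (nat_lit 3996506013973) (nat_lit 8) leaf)))) (nat_lit 3996506391829) (nat_lit 10) (node (node (node (node (node leaf (nat_lit 3996506394709) (nat_lit 6) leaf) (nat_lit 3996506394901) (nat_lit 12) leaf) (nat_lit 3996506984533) (nat_lit 6) (node (node leaf (nat_lit 3996506984725) (nat_lit 12) leaf) (nat_lit 3996509343829) (nat_lit 6) leaf)) (nat_lit 3996509344021) (nat_lit 12) (node (node (node leaf (nat_lit 3996510323797) (nat_lit 10) leaf) (nat_lit 3996535767637) (nat_lit 20) leaf) (nat_lit 3996535768213) (nat_lit 20) (node (node leaf (nat_lit 3996535816789) (nat_lit 20) leaf) (nat_lit 3996538398229) (nat_lit 22) leaf))) (nat_lit 3996538470997) (nat_lit 22) (node (node (node (node leaf (nat_lit 3996538520149) (nat_lit 22) leaf) (nat_lit 3996538520725) (nat_lit 10) leaf) (nat_lit 3996538901077) (nat_lit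 12) (node (node leaf (nat_lit 3996538901653) (nat_lit 12) leaf) (nat_lit 3996538913365) (nat_lit 14) leaf)) (nat_lit 3996543619669) (nat_lit 12) (node (node (node leaf (nat_lit 3996543620245) (nat_lit 12) leaf) (nat_lit 3996543631957) (nat_lit 14) leaf) (nat_lit 3996550976149) (nat_lit 14) (node leaf (nat_lit 3996550980181) (nat_lit 7) leaf)))))

noncomputable def L0_226 : Tr := node L0_224 (nat_lit 3996505883221) (nat_lit 14) L0_225

noncomputable def L0_227 : Tr := node L0_223 (nat_lit 3994995934789) (nat_lit 2) L0_226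

noncomputable def L0_228 : Tr := (node (node (node (node (node (node leaf (nat_lit 3996550980901) (nat_lit 14) leaf) (nat_lit 3996550981141) (nat_lit 14) leaf) (nat_lit 3996551029333) (nat_lit 7) (node (node leaf (nat_lit 3996551029909) (nat_lit 16) leaf) (nat_lit 3996551030149) (nat_lit 16) leaf)) (nat_lit 3996551030293) (nat_lit 16) (node (node (node leaf (nat_lit 3996551053909) (nat_lit 7) leaf) (nat_lit 3996551054485) (nat_lit 5) leaf) (nat_lit 3996551054629) (nat_lit 16) (node (node leaf (nat_lit 3996551090773) (nat_lit 12) leaf) (nat_lit 3996551103061) (nat_lit 7) leaf))) (nat_lit 3996551103637) (nat_lit 10) (node (node (node (node leaf (nat_lit 3996551218837) (nat_lit 10) leaf) (nat_lit 3996551226517) (nat_lit 5) leaf) (nat_lit 3996551226661) (nat_lit 18) (node (node leaf (nat_lit 3996603715669) (nat_lit 19) leaf) (nat_lit 3996603715861) (nat_lit 12) leaf)) (nat_lit 3996605552965) (nat_lit 16) (node (node (node leaf (nat_lit 3996605583637) (nat_lit 16) leaf) (nat_lit 3996605633557) (nat_lit 15) leaf) (nat_lit 3996605749525)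 (nat_lit 4) (node leaf (nat_lit 3996605752597) (nat_lit 18) leaf)))) (nat_lit 3996605752645) (nat_lit 18) (node (node (node (node (node leaf (nat_lit 3996605760085) (nat_lit 18) leaf) (nat_lit 3996605777173) (nat_lit 10) leaf) (nat_lit 3996605780245) (nat_lit 18) (node (node leaf (nat_lit 3996605780293) (nat_lit 8) leaf) (nat_lit 3996605781013) (nat_lit 4) leaf)) (nat_lit 3996605878357) (nat_lit 6) (node (node (node leaf (nat_lit 3996605878549) (nat_lit 8) leaf) (nat_lit 3996606072085) (nat_lit 10) leaf) (nat_lit 3996606074965) (nat_lit 6) (node (node leaf (nat_lit 3996606534229) (nat_lit 12) leaf) (nat_lit 3996606534805) (nat_lit 12) leaf))) (nat_lit 3996606535957) (nat_lit 4) (node (node (node (node leaf (nat_lit 3996606536005) (nat_lit 12) leaf) (nat_lit 3996606538837) (nat_lit 6) leaf) (nat_lit 3996606539029) (nat_lit 4) (node (node leaf (nat_lit 3996606548293) (nat_lit 14) leaf) (nat_lit 3996606554389) (nat_lit 4) leaf)) (nat_lit 3996606566485) (nat_lit 6) (node (node (node leaf (nat_lit 3996607644757) (nat_lit 10) leaf) (nat_lit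 3996610004053) (nat_lit 10) leaf) (nat_lit 3996610007125) (nat_lit 6) (node leaf (nat_lit 3996610790485) (nat_lit 16) leaf)))))

noncomputable def L0_229 : Tr := (node (node (node (node (node (node leaf (nat_lit 3996619117141) (nat_lit 20) leaf) (nat_lit 3996619117717) (nat_lit 20) leaf) (nat_lit 3996619121941) (nat_lit 20) (node (node leaf (nat_lit 3996619129429) (nat_lit 14) leaf) (nat_lit 3996622259797) (nat_lit 10) leaf)) (nat_lit 3996622262677) (nat_lit 8) (node (node (node leaf (nat_lit 3996635120725) (nat_lit 14) leaf) (nat_lit 3996635169109) (nat_lit 8) leaf) (nat_lit 3996635169877) (nat_lit 18) (node (node leaf (nat_lit 3996635955541) (nat_lit 8) leaf) (nat_lit 3997006365781) (nat_lit 19) leaf))) (nat_lit 3997006368853) (nat_lit 6) (node (node (node (node leaf (nat_lit 3997008206101) (nat_lit 4) leaf) (nat_lit 3997008233749) (nat_lit 10) leaf) (nat_lit 3997008236629) (nat_lit 6) (node (node leaf (nat_lit 3997008285781) (nat_lit 15) leaf) (nat_lit 3997008285973) (nat_lit 8) leaf)) (nat_lit 3997008400981) (nat_lit 12) (node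 (node (node leaf (nat_lit 3997008402709) (nat_lit 18) leaf) (nat_lit 3997008405589) (nat_lit 6) leaf) (nat_lit 3997008405781) (nat_lit 4) (node leaf (nat_lit 3997008433237) (nat_lit 6) leaf)))) (nat_lit 3997008528469) (nat_lit 10) (node (node (node (node (node leaf (nat_lit 3997008725077) (nat_lit 10) leaf) (nat_lit 3997009187221) (nat_lit 8) leaf) (nat_lit 3997009187413) (nat_lit 22) (node (node leaf (nat_lit 3997009188949) (nat_lit 6) leaf) (nat_lit 3997009192213) (nat_lit 22) leaf)) (nat_lit 3997010297173) (nat_lit 8) (node (node (node leaf (nat_lit 3997012656469) (nat_lit 8) leaf) (nat_lit 3997012657237) (nat_lit 10) leaf) (nat_lit 3997013442901) (nat_lit 16) (node (node leaf (nat_lit 3997021767253) (nat_lit 10) leaf) (nat_lit 3997021770325) (nat_lit 12) leaf))) (nat_lit 3997037773141) (nat_lit 14) (node (node (node (node leaf (nat_lit 3997037822293) (nat_lit 18) leaf) (nat_lit 3997038559573) (nat_lit 14) leaf) (nat_lit 3997138424149) (nat_lit 12) (node (node leaf (nat_lit 3997138436437) (nat_lit 18) leaf) (nat_lit 4020199755925)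 (nat_lit 12) leaf)) (nat_lit 4020259591189) (nat_lit 19) (node (node (node leaf (nat_lit 4020259603477) (nat_lit 19) leaf) (nat_lit 4020261950485) (nat_lit 17) leaf) (nat_lit 4020261962773) (nat_lit 17) (node leaf (nat_lit 4020262410565) (nat_lit 12) leaf)))))

noncomputable def L0_230 : Tr := node L0_228 (nat_lit 3996610986325) (nat_lit 8) L0_229

noncomputable def L0_231 : Tr := (node (node (node (node (node (node leaf (nat_lit 4020262422085) (nat_lit 2) leaf) (nat_lit 4020262422805) (nat_lit 4) leaf) (nat_lit 4020262422853) (nat_lit 14) (node (node leaf (nat_lit 4020262422865) (nat_lit 0) leaf) (nat_lit 4020262424677) (nat_lit 6) leaf)) (nat_lit 4020262424725) (nat_lit 14) (node (node (node leaf (nat_lit 4020262425157) (nat_lit 2) leaf) (nat_lit 4020262428949) (nat_lit 4) leaf) (nat_lit 4020262428997) (nat_lit 8) (node (node leaf (nat_lit 4020262429717) (nat_lit 4) leaf) (nat_lit 4020262429765) (nat_lit 6) leaf))) (nat_lit 4020262441237) (nat_lit 8) (node (node (node (node leaf (nat_lit 4020262442005) (nat_lit 4) leaf) (nat_lit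 4020262470229) (nat_lit 16) leaf) (nat_lit 4020262470805) (nat_lit 10) (node (node leaf (nat_lit 4020262473829) (nat_lit 6) leaf) (nat_lit 4020262473877) (nat_lit 16) leaf)) (nat_lit 4020262539541) (nat_lit 12) (node (node (node leaf (nat_lit 4020262540309) (nat_lit 12) leaf) (nat_lit 4020262551637) (nat_lit 6) leaf) (nat_lit 4020262551829) (nat_lit 8) (node leaf (nat_lit 4020262552597) (nat_lit 4) leaf)))) (nat_lit 4020262667413) (nat_lit 10) (node (node (node (node (node leaf (nat_lit 4020262932757) (nat_lit 8) leaf) (nat_lit 4020262945045) (nat_lit 8) leaf) (nat_lit 4020263522581) (nat_lit 8) (node (node leaf (nat_lit 4020263534869) (nat_lit 8) leaf) (nat_lit 4020265881877) (nat_lit 8) leaf)) (nat_lit 4020265894165) (nat_lit 8) (node (node (node leaf (nat_lit 4020662243605) (nat_lit 19) leaf) (nat_lit 4020662255893) (nat_lit 19) leaf) (nat_lit 4020664307989) (nat_lit 18) (node (node leaf (nat_lit 4020664406293) (nat_lit 18) leaf) (nat_lit 4020664602901) (nat_lit 17) leaf))) (nat_lit 4020664615189) (nat_lit 17) (node (node (node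 (node leaf (nat_lit 4020665062549) (nat_lit 12) leaf) (nat_lit 4020665063701) (nat_lit 12) leaf) (nat_lit 4020665063749) (nat_lit 12) (node (node leaf (nat_lit 4020665066773) (nat_lit 11) leaf) (nat_lit 4020665066821) (nat_lit 11) leaf)) (nat_lit 4020665074069) (nat_lit 8) (node (node (node leaf (nat_lit 4020665074261) (nat_lit 14) leaf) (nat_lit 4020665074789) (nat_lit 10) leaf) (nat_lit 4020665074837) (nat_lit 14) (node leaf (nat_lit 4020665075221) (nat_lit 4) leaf)))))

noncomputable def L0_232 : Tr := (node (node (node (node (node (node leaf (nat_lit 4020665075989) (nat_lit 4) leaf) (nat_lit 4020665076037) (nat_lit 23) leaf) (nat_lit 4020665077861) (nat_lit 14) (node (node leaf (nat_lit 4020665078293) (nat_lit 4) leaf) (nat_lit 4020665081941) (nat_lit 6) leaf)) (nat_lit 4020665082133) (nat_lit 4) (node (node (node leaf (nat_lit 4020665082181) (nat_lit 8) leaf) (nat_lit 4020665082901) (nat_lit 4) leaf) (nat_lit 4020665091349) (nat_lit 10) (node (node leaf (nat_lit 4020665094229) (nat_lit 6) leaf) (nat_lit 4020665094421) (nat_lit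 8) leaf))) (nat_lit 4020665095189) (nat_lit 23) (node (node (node (node leaf (nat_lit 4020665095237) (nat_lit 23) leaf) (nat_lit 4020665123989) (nat_lit 10) leaf) (nat_lit 4020665125189) (nat_lit 23) (node (node leaf (nat_lit 4020665127061) (nat_lit 23) leaf) (nat_lit 4020665192533) (nat_lit 6) leaf)) (nat_lit 4020665192725) (nat_lit 12) (node (node (node leaf (nat_lit 4020665193493) (nat_lit 12) leaf) (nat_lit 4020665205013) (nat_lit 8) leaf) (nat_lit 4020665582869) (nat_lit 10) (node leaf (nat_lit 4020665585749) (nat_lit 6) leaf)))) (nat_lit 4020665585941) (nat_lit 12) (node (node (node (node (node leaf (nat_lit 4020666172693) (nat_lit 10) leaf) (nat_lit 4020666175573) (nat_lit 6) leaf) (nat_lit 4020666175765) (nat_lit 12) (node (node leaf (nat_lit 4020668531989) (nat_lit 10) leaf) (nat_lit 4020668534869) (nat_lit 6) leaf)) (nat_lit 4020668535061) (nat_lit 12) (node (node (node leaf (nat_lit 4020697589269) (nat_lit 22) leaf) (nat_lit 4020697711189) (nat_lit 22) leaf) (nat_lit 4020697711765) (nat_lit 22) (node (node leaf (nat_lit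 4020698092117) (nat_lit 22) leaf) (nat_lit 4020698092693) (nat_lit 22) leaf))) (nat_lit 4020698104405) (nat_lit 22) (node (node (node (node leaf (nat_lit 4020702810709) (nat_lit 21) leaf) (nat_lit 4020702811285) (nat_lit 21) leaf) (nat_lit 4020702822997) (nat_lit 21) (node (node leaf (nat_lit 4020702824773) (nat_lit 21) leaf) (nat_lit 4020702843925) (nat_lit 21) leaf)) (nat_lit 4020702843973) (nat_lit 21) (node (node (node leaf (nat_lit 4020702873925) (nat_lit 21) leaf) (nat_lit 4020702875797) (nat_lit 16) leaf) (nat_lit 4020703069333) (nat_lit 10) (node leaf (nat_lit 4020710167189) (nat_lit 14) leaf)))))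

noncomputable def L0_233 : Tr := node L0_231 (nat_lit 4020665075269) (nat_lit 10) L0_232

noncomputable def L0_234 : Tr := node L0_230 (nat_lit 4020262421653) (nat_lit 14) L0_233

noncomputable def L0_235 : Tr := node L0_227 (nat_lit 3996550980757) (nat_lit 5) L0_234

noncomputable def L0_236 : Tr := (node (node (node (node (node (node leaf (nat_lit 4020710171797) (nat_lit 14) leaf) (nat_lit 4020710172181) (nat_lit 14) leaf) (nat_lit 4020710213269) (nat_lit 10) (node (node leaf (nat_lit 4020710218117) (nat_lit 12) leaf) (nat_lit 4020710218132) (nat_lit 16) leaf)) (nat_lit 4020710218324) (nat_lit 16) (node (node (node leaf (nat_lit 4020710220901) (nat_lit 6) leaf) (nat_lit 4020710220949) (nat_lit 5) leaf) (nat_lit 4020710221093) (nat_lit 16) (node (node leaf (nat_lit 4020710221189) (nat_lit 16) leaf) (nat_lit 4020710221333) (nat_lit 4) leaf))) (nat_lit 4020710221381) (nat_lit 16) (node (node (node (node leaf (nat_lit 4020710230309) (nat_lit 16) leaf) (nat_lit 4020710244949) (nat_lit 7) leaf) (nat_lit 4020710245477) (nat_lit 6) (node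 (node leaf (nat_lit 4020710245525) (nat_lit 5) leaf) (nat_lit 4020710245669) (nat_lit 16) leaf)) (nat_lit 4020710245909) (nat_lit 4) (node (node (node leaf (nat_lit 4020710246737) (nat_lit 9) leaf) (nat_lit 4020710248597) (nat_lit 5) leaf) (nat_lit 4020710248741) (nat_lit 8) (node leaf (nat_lit 4020710248849) (nat_lit 0) leaf)))) (nat_lit 4020710249041) (nat_lit 16) (node (node (node (node (node leaf (nat_lit 4020710249497) (nat_lit 4) leaf) (nat_lit 4020710250565) (nat_lit 2) leaf) (nat_lit 4020710250577) (nat_lit 6) (node (node leaf (nat_lit 4020710250757) (nat_lit 2) leaf) (nat_lit 4020710253649) (nat_lit 6) leaf)) (nat_lit 4020710253841) (nat_lit 4) (node (node (node leaf (nat_lit 4020710281813) (nat_lit 12) leaf) (nat_lit 4020710282389) (nat_lit 12) leaf) (nat_lit 4020710293909) (nat_lit 8) (node (node leaf (nat_lit 4020710294101) (nat_lit 7) leaf) (nat_lit 4020710294677) (nat_lit 10) leaf))) (nat_lit 4020710295061) (nat_lit 10) (node (node (node (node leaf (nat_lit 4020710297749) (nat_lit 5) leaf) (nat_lit 4020710297893) (nat_lit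 8) leaf) (nat_lit 4020710409877) (nat_lit 18) (node (node leaf (nat_lit 4020710414929) (nat_lit 0) leaf) (nat_lit 4020710417509) (nat_lit 6) leaf)) (nat_lit 4020710417701) (nat_lit 18) (node (node (node leaf (nat_lit 4020710424997) (nat_lit 14) leaf) (nat_lit 4020710671957) (nat_lit 10) leaf) (nat_lit 4020710674837) (nat_lit 8) (node leaf (nat_lit 4020710675029) (nat_lit 12) leaf)))))

noncomputable def L0_237 : Tr := (node (node (node (node (node (node leaf (nat_lit 4020710687893) (nat_lit 10) leaf) (nat_lit 4020710689105) (nat_lit 14) leaf) (nat_lit 4020710708293) (nat_lit 13) (node (node leaf (nat_lit 4020710708485) (nat_lit 13) leaf) (nat_lit 4020710736469) (nat_lit 7) leaf)) (nat_lit 4020710737045) (nat_lit 10) (node (node (node leaf (nat_lit 4020710737489) (nat_lit 10) leaf) (nat_lit 4020710738245) (nat_lit 2) leaf) (nat_lit 4020710738257) (nat_lit 9) (node (node leaf (nat_lit 4020710740561) (nat_lit 12) leaf) (nat_lit 4020710742085) (nat_lit 2) leaf))) (nat_lit 4020710745157) (nat_lit 2) (node (node (node (node leaf (nat_lit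 4020710745349) (nat_lit 2) leaf) (nat_lit 4020710752549) (nat_lit 8) leaf) (nat_lit 4020710752837) (nat_lit 2) (node (node leaf (nat_lit 4020710769685) (nat_lit 4) leaf) (nat_lit 4020710769733) (nat_lit 6) leaf)) (nat_lit 4020712247893) (nat_lit 12) (node (node (node leaf (nat_lit 4020712248469) (nat_lit 12) leaf) (nat_lit 4020712259989) (nat_lit 8) leaf) (nat_lit 4020712260181) (nat_lit 14) (node leaf (nat_lit 4020712261957) (nat_lit 2) leaf)))) (nat_lit 4020712281109) (nat_lit 4) (node (node (node (node (node leaf (nat_lit 4020712281157) (nat_lit 6) leaf) (nat_lit 4020712311109) (nat_lit 2) leaf) (nat_lit 4020718536277) (nat_lit 10) (node (node leaf (nat_lit 4020718539157) (nat_lit 8) leaf) (nat_lit 4020718539349) (nat_lit 12) leaf)) (nat_lit 4020718541125) (nat_lit 12) (node (node (node leaf (nat_lit 4020718553413) (nat_lit 14) leaf) (nat_lit 4020718571797) (nat_lit 8) leaf) (nat_lit 4020718572565) (nat_lit 4) (node (node leaf (nat_lit 4020727978309) (nat_lit 12) leaf) (nat_lit 4020727990597) (nat_lit 14) leaf))) (nat_lit 4020728008981)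 (nat_lit 8) (node (node (node (node leaf (nat_lit 4020728009749) (nat_lit 4) leaf) (nat_lit 4020728038549) (nat_lit 10) leaf) (nat_lit 4020762906709) (nat_lit 19) (node (node leaf (nat_lit 4020762906901) (nat_lit 12) leaf) (nat_lit 4020764774677) (nat_lit 16) leaf)) (nat_lit 4020764940565) (nat_lit 18) (node (node (node leaf (nat_lit 4020764943685) (nat_lit 18) leaf) (nat_lit 4020764968213) (nat_lit 10) leaf) (nat_lit 4020764971093) (nat_lit 6) (node leaf (nat_lit 4020764971285) (nat_lit 18) leaf)))))

noncomputable def L0_238 : Tr := node L0_236 (nat_lit 4020710687317) (nat_lit 14) L0_237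

noncomputable def L0_239 : Tr := (node (node (node (node (node (node leaf (nat_lit 4020765069397) (nat_lit 6) leaf) (nat_lit 4020765069589) (nat_lit 18) leaf) (nat_lit 4020765263125) (nat_lit 10) (node (node leaf (nat_lit 4020765266005) (nat_lit 6) leaf) (nat_lit 4020765725077) (nat_lit 8) leaf)) (nat_lit 4020765725269) (nat_lit 12) (node (node (node leaf (nat_lit 4020765725845) (nat_lit 12) leaf) (nat_lit 4020765726997) (nat_lit 4) leaf) (nat_lit 4020765727045) (nat_lit 12) (node (node leaf (nat_lit 4020765729877) (nat_lit 6) leaf) (nat_lit 4020765730069) (nat_lit 4) leaf))) (nat_lit 4020765730117) (nat_lit 11) (node (node (node (node leaf (nat_lit 4020765739333) (nat_lit 14) leaf) (nat_lit 4020765745429) (nat_lit 4) leaf) (nat_lit 4020765757525) (nat_lit 6) (node (node leaf (nat_lit 4020765757717) (nat_lit 8) leaf) (nat_lit 4020765855829) (nat_lit 6) leaf)) (nat_lit 4020766835797) (nat_lit 10) (node (node (node leaf (nat_lit 4020769195093) (nat_lit 10) leaf) (nat_lit 4020769198165) (nat_lit 6) leaf) (nat_lit 4020778308181) (nat_lit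 20) (node leaf (nat_lit 4020778308757) (nat_lit 20) leaf)))) (nat_lit 4020778320469) (nat_lit 20) (node (node (node (node (node leaf (nat_lit 4020781450837) (nat_lit 10) leaf) (nat_lit 4020781453717) (nat_lit 8) leaf) (nat_lit 4020781453909) (nat_lit 12) (node (node leaf (nat_lit 4020794311765) (nat_lit 14) leaf) (nat_lit 4020794314837) (nat_lit 14) leaf)) (nat_lit 4020794360149) (nat_lit 8) (node (node (node leaf (nat_lit 4020794360917) (nat_lit 10) leaf) (nat_lit 4022263091797) (nat_lit 24) leaf) (nat_lit 4022263092373) (nat_lit 24) (node (node leaf (nat_lit 4022263104085) (nat_lit 24) leaf) (nat_lit 4022272856149) (nat_lit 19) leaf))) (nat_lit 4022272856341) (nat_lit 19) (node (node (node (node leaf (nat_lit 4022274893125) (nat_lit 18) leaf) (nat_lit 4022274917653) (nat_lit 18) leaf) (nat_lit 4022274921493) (nat_lit 18) (node (node leaf (nat_lit 4022275018837) (nat_lit 18) leaf) (nat_lit 4022275019029) (nat_lit 18) leaf)) (nat_lit 4022275212565) (nat_lit 17) (node (node (node leaf (nat_lit 4022275215445) (nat_lit 17) leaf) (nat_lit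 4022275215637) (nat_lit 17) leaf) (nat_lit 4022275674709) (nat_lit 12) (node leaf (nat_lit 4022275675285) (nat_lit 12) leaf)))))

noncomputable def L0_240 : Tr := (node (node (node (node (node (node leaf (nat_lit 4022275676485) (nat_lit 12) leaf) (nat_lit 4022275679317) (nat_lit 6) leaf) (nat_lit 4022275679509) (nat_lit 4) (node (node leaf (nat_lit 4022275686805) (nat_lit 8) leaf) (nat_lit 4022275686997) (nat_lit 7) leaf)) (nat_lit 4022275687573) (nat_lit 14) (node (node (node leaf (nat_lit 4022275687957) (nat_lit 10) leaf) (nat_lit 4022275688533) (nat_lit 6) leaf) (nat_lit 4022275688773) (nat_lit 14) (node (node leaf (nat_lit 4022275690645) (nat_lit 14) leaf) (nat_lit 4022275694869) (nat_lit 8) leaf))) (nat_lit 4022275703893) (nat_lit 6) (node (node (node (node leaf (nat_lit 4022275704085) (nat_lit 10) leaf) (nat_lit 4022275706965) (nat_lit 6) leaf) (nat_lit 4022275707157) (nat_lit 8) (node (node leaf (nat_lit 4022275707205) (nat_lit 8) leaf) (nat_lit 4022275707925) (nat_lit 4) leaf)) (nat_lit 4022275736725) (nat_lit 10) (node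 (node (node leaf (nat_lit 4022275802197) (nat_lit 10) leaf) (nat_lit 4022275802389) (nat_lit 10) leaf) (nat_lit 4022275805269) (nat_lit 6) (node leaf (nat_lit 4022275805461) (nat_lit 12) leaf)))) (nat_lit 4022276195413) (nat_lit 6) (node (node (node (node (node leaf (nat_lit 4022276198485) (nat_lit 6) leaf) (nat_lit 4022276785237) (nat_lit 10) leaf) (nat_lit 4022276788309) (nat_lit 6) (node (node leaf (nat_lit 4022279144533) (nat_lit 10) leaf) (nat_lit 4022279147605) (nat_lit 6) leaf)) (nat_lit 4022305559125) (nat_lit 20) (node (node (node leaf (nat_lit 4022305559701) (nat_lit 20) leaf) (nat_lit 4022305571413) (nat_lit 20) leaf) (nat_lit 4022308201045) (nat_lit 7) (node (node leaf (nat_lit 4022308201621) (nat_lit 22) leaf) (nat_lit 4022308202005) (nat_lit 22) leaf))) (nat_lit 4022308251013) (nat_lit 22) (node (node (node (node leaf (nat_lit 4022308251157) (nat_lit 22) leaf) (nat_lit 4022308274773) (nat_lit 22) leaf) (nat_lit 4022308311637) (nat_lit 12) (node (node leaf (nat_lit 4022308312213) (nat_lit 12) leaf) (nat_lit 4022308323733)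 (nat_lit 8) leaf)) (nat_lit 4022308323925) (nat_lit 22) (node (node (node leaf (nat_lit 4022308701781) (nat_lit 10) leaf) (nat_lit 4022308704661) (nat_lit 8) leaf) (nat_lit 4022308704853) (nat_lit 12) (node leaf (nat_lit 4022313420373) (nat_lit 10) leaf)))))

noncomputable def L0_241 : Tr := node L0_239 (nat_lit 4022275676437) (nat_lit 12) L0_240

noncomputable def L0_242 : Tr := node L0_238 (nat_lit 4020764972053) (nat_lit 18) L0_241

noncomputable def L0_243 : Tr := (node (node (node (node (node (node leaf (nat_lit 4022313423445) (nat_lit 12) leaf) (nat_lit 4022320776853) (nat_lit 10) leaf) (nat_lit 4022320783957) (nat_lit 7) (node (node leaf (nat_lit 4022320784533) (nat_lit 14) leaf) (nat_lit 4022320826005) (nat_lit 16) leaf)) (nat_lit 4022320833109) (nat_lit 7) (node (node (node leaf (nat_lit 4022320833685) (nat_lit 5) leaf) (nat_lit 4022320833829) (nat_lit 16) leaf) (nat_lit 4022373516373) (nat_lit 19) (node (node leaf (nat_lit 4022373519445) (nat_lit 6) leaf) (nat_lit 4022375384341) (nat_lit 16) leaf))) (nat_lit 4022375436565)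 (nat_lit 15) (node (node (node (node leaf (nat_lit 4022375551573) (nat_lit 18) leaf) (nat_lit 4022375553349) (nat_lit 18) leaf) (nat_lit 4022375556181) (nat_lit 18) (node (node leaf (nat_lit 4022375556373) (nat_lit 4) leaf) (nat_lit 4022375580757) (nat_lit 6) leaf)) (nat_lit 4022375583829) (nat_lit 18) (node (node (node leaf (nat_lit 4022375584021) (nat_lit 8) leaf) (nat_lit 4022375679061) (nat_lit 10) leaf) (nat_lit 4022375682133) (nat_lit 6) (node leaf (nat_lit 4022375875669) (nat_lit 6) leaf)))) (nat_lit 4022376334933) (nat_lit 10) (node (node (node (node (node leaf (nat_lit 4022376337813) (nat_lit 8) leaf) (nat_lit 4022376338005) (nat_lit 22) leaf) (nat_lit 4022376338581) (nat_lit 22) (node (node leaf (nat_lit 4022376339541) (nat_lit 6) leaf) (nat_lit 4022376339733) (nat_lit 4) leaf)) (nat_lit 4022376341845) (nat_lit 8) (node (node (node leaf (nat_lit 4022376342805) (nat_lit 11) leaf) (nat_lit 4022376350293) (nat_lit 22) leaf) (nat_lit 4022376352021) (nat_lit 4) (node (node leaf (nat_lit 4022376367189) (nat_lit 10) leaf) (nat_lit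 4022377399381) (nat_lit 14) leaf))) (nat_lit 4022377447765) (nat_lit 8) (node (node (node (node leaf (nat_lit 4022379758677) (nat_lit 14) leaf) (nat_lit 4022379761749) (nat_lit 14) leaf) (nat_lit 4022379807061) (nat_lit 8) (node (node leaf (nat_lit 4022379807829) (nat_lit 10) leaf) (nat_lit 4022388917845) (nat_lit 10) leaf)) (nat_lit 4022388920725) (nat_lit 8) (node (node (node leaf (nat_lit 4022388920917) (nat_lit 12) leaf) (nat_lit 4022404923733) (nat_lit 14) leaf) (nat_lit 4022404924501) (nat_lit 14) (node leaf (nat_lit 4022404972885) (nat_lit 8) leaf)))))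

noncomputable def L0_244 : Tr := (node (node (node (node (node (node leaf (nat_lit 4022776169557) (nat_lit 10) leaf) (nat_lit 4022778012757) (nat_lit 16) leaf) (nat_lit 4022778012949) (nat_lit 16) (node (node leaf (nat_lit 4022778037333) (nat_lit 6) leaf) (nat_lit 4022778086485) (nat_lit 15) leaf)) (nat_lit 4022778089557) (nat_lit 6) (node (node (node leaf (nat_lit 4022778201685) (nat_lit 10) leaf) (nat_lit 4022778206293) (nat_lit 18) leaf) (nat_lit 4022778208597) (nat_lit 8) (node (node leaf (nat_lit 4022778209365) (nat_lit 6) leaf) (nat_lit 4022778209557) (nat_lit 18) leaf))) (nat_lit 4022778233941) (nat_lit 10) (node (node (node (node leaf (nat_lit 4022778331477) (nat_lit 8) leaf) (nat_lit 4022778479701) (nat_lit 14) leaf) (nat_lit 4022778528085) (nat_lit 8) (node (node leaf (nat_lit 4022778988117) (nat_lit 10) leaf) (nat_lit 4022778988885) (nat_lit 9) leaf)) (nat_lit 4022778991189) (nat_lit 22) (node (node (node leaf (nat_lit 4022780051797) (nat_lit 14) leaf) (nat_lit 4022782411093) (nat_lit 14) leaf) (nat_lit 4022782411861)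 (nat_lit 14) (node leaf (nat_lit 4022782460245) (nat_lit 8) leaf)))) (nat_lit 4022807380309) (nat_lit 16) (node (node (node (node (node leaf (nat_lit 4022807564629) (nat_lit 12) leaf) (nat_lit 4022807576917) (nat_lit 14) leaf) (nat_lit 4022908031317) (nat_lit 16) (node (node leaf (nat_lit 4022908227925) (nat_lit 12) leaf) (nat_lit 4028715304021) (nat_lit 19) leaf)) (nat_lit 4028715307093) (nat_lit 19) (node (node (node leaf (nat_lit 4028717344021) (nat_lit 18) leaf) (nat_lit 4028717368405) (nat_lit 18) leaf) (nat_lit 4028717371669) (nat_lit 18) (node (node leaf (nat_lit 4028717466709) (nat_lit 18) leaf) (nat_lit 4028717469781) (nat_lit 18) leaf))) (nat_lit 4028717663317) (nat_lit 17) (node (node (node (node leaf (nat_lit 4028717666389) (nat_lit 17) leaf) (nat_lit 4028718122581) (nat_lit 10) leaf) (nat_lit 4028718125653) (nat_lit 12) (node (node leaf (nat_lit 4028718126229) (nat_lit 12) leaf) (nat_lit 4028718127189) (nat_lit 12) leaf)) (nat_lit 4028718127381) (nat_lit 4) (node (node (node leaf (nat_lit 4028718127429) (nat_lit 12)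 leaf) (nat_lit 4028718129493) (nat_lit 8) leaf) (nat_lit 4028718130261) (nat_lit 6) (node leaf (nat_lit 4028718130453) (nat_lit 11) leaf)))))

noncomputable def L0_245 : Tr := node L0_243 (nat_lit 4022776168789) (nat_lit 19) L0_244

noncomputable def L0_246 : Tr := (node (node (node (node (node (node leaf (nat_lit 4028718138517) (nat_lit 14) leaf) (nat_lit 4028718139669) (nat_lit 4) leaf) (nat_lit 4028718154069) (nat_lit 8) (node (node leaf (nat_lit 4028718154837) (nat_lit 6) leaf) (nat_lit 4028718157909) (nat_lit 6) leaf)) (nat_lit 4028718158101) (nat_lit 4) (node (node (node leaf (nat_lit 4028718252373) (nat_lit 8) leaf) (nat_lit 4028718253141) (nat_lit 10) leaf) (nat_lit 4028718253333) (nat_lit 10) (node (node leaf (nat_lit 4028718256213) (nat_lit 6) leaf) (nat_lit 4028718645589) (nat_lit 8) leaf))) (nat_lit 4028718646357) (nat_lit 10) (node (node (node (node leaf (nat_lit 4028719187029) (nat_lit 14) leaf) (nat_lit 4028719235413) (nat_lit 8) leaf) (nat_lit 4028719236181) (nat_lit 10) (node (node leaf (nat_lit 4028721546325) (nat_lit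 14) leaf) (nat_lit 4028721549397) (nat_lit 14) leaf)) (nat_lit 4028721594709) (nat_lit 8) (node (node (node leaf (nat_lit 4028721595477) (nat_lit 10) leaf) (nat_lit 4028815918165) (nat_lit 19) leaf) (nat_lit 4028815921237) (nat_lit 14) (node leaf (nat_lit 4028815967317) (nat_lit 10) leaf)))) (nat_lit 4028817810709) (nat_lit 16) (node (node (node (node (node leaf (nat_lit 4028817835093) (nat_lit 16) leaf) (nat_lit 4028817887317) (nat_lit 15) leaf) (nat_lit 4028818004245) (nat_lit 18) (node (node leaf (nat_lit 4028818006357) (nat_lit 18) leaf) (nat_lit 4028818007125) (nat_lit 6) leaf)) (nat_lit 4028818007317) (nat_lit 18) (node (node (node leaf (nat_lit 4028818030933) (nat_lit 8) leaf) (nat_lit 4028818031701) (nat_lit 18) leaf) (nat_lit 4028818034773) (nat_lit 6) (node (node leaf (nat_lit 4028818129237) (nat_lit 8) leaf) (nat_lit 4028818130005) (nat_lit 10) leaf))) (nat_lit 4028818277461) (nat_lit 14) (node (node (node (node leaf (nat_lit 4028818325845) (nat_lit 8) leaf) (nat_lit 4028818785877) (nat_lit 10) leaf) (nat_lit 4028818786645)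 (nat_lit 9) (node (node leaf (nat_lit 4028818788757) (nat_lit 8) leaf) (nat_lit 4028818788949) (nat_lit 12) leaf)) (nat_lit 4028818793557) (nat_lit 6) (node (node (node leaf (nat_lit 4028819849557) (nat_lit 8) leaf) (nat_lit 4028822208853) (nat_lit 8) leaf) (nat_lit 4028822209621) (nat_lit 10) (node leaf (nat_lit 4028847178069) (nat_lit 16) leaf)))))

noncomputable def L0_247 : Tr := (node (node (node (node (node (node leaf (nat_lit 4028847363157) (nat_lit 12) leaf) (nat_lit 4028847374677) (nat_lit 8) leaf) (nat_lit 4029218570581) (nat_lit 19) (node (node leaf (nat_lit 4029218571349) (nat_lit 14) leaf) (nat_lit 4029218619733) (nat_lit 8) leaf)) (nat_lit 4029220414741) (nat_lit 14) (node (node (node leaf (nat_lit 4029220462933) (nat_lit 16) leaf) (nat_lit 4029220463701) (nat_lit 6) leaf) (nat_lit 4029220536661) (nat_lit 15) (node (node leaf (nat_lit 4029220537429) (nat_lit 10) leaf) (nat_lit 4029220652629) (nat_lit 18) leaf))) (nat_lit 4029220653397) (nat_lit 18) (node (node (node (node leaf (nat_lit 4029220660309) (nat_lit 6) leaf)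 (nat_lit 4029220684117) (nat_lit 8) leaf) (nat_lit 4029220929877) (nat_lit 8) (node (node leaf (nat_lit 4029222490453) (nat_lit 12) leaf) (nat_lit 4029224665429) (nat_lit 16) leaf)) (nat_lit 4029224849749) (nat_lit 12) (node (node (node leaf (nat_lit 4029224862037) (nat_lit 8) leaf) (nat_lit 4029249818965) (nat_lit 12) leaf) (nat_lit 4029250015573) (nat_lit 12) (node leaf (nat_lit 4029350479189) (nat_lit 10) leaf)))) (nat_lit 4029350482261) (nat_lit 16) (node (node (node (node (node leaf (nat_lit 4029350675797) (nat_lit 10) leaf) (nat_lit 4030828003669) (nat_lit 20) leaf) (nat_lit 4030829171029) (nat_lit 19) (node (node leaf (nat_lit 4030829183317) (nat_lit 14) leaf) (nat_lit 4030831026517) (nat_lit 14) leaf)) (nat_lit 4030831027285) (nat_lit 6) (node (node (node leaf (nat_lit 4030831068757) (nat_lit 16) leaf) (nat_lit 4030831069525) (nat_lit 16) leaf) (nat_lit 4030831149397) (nat_lit 8) (node (node leaf (nat_lit 4030831530325) (nat_lit 12) leaf) (nat_lit 4030833100117) (nat_lit 10) leaf))) (nat_lit 4030835265877) (nat_lit 16) (node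 (node (node (node leaf (nat_lit 4030835459413) (nat_lit 10) leaf) (nat_lit 4030835462485) (nat_lit 12) leaf) (nat_lit 4030860428629) (nat_lit 10) (node (node leaf (nat_lit 4030860431701) (nat_lit 16) leaf) (nat_lit 4030860625237) (nat_lit 10) leaf)) (nat_lit 4030961042773) (nat_lit 14) (node (node (node leaf (nat_lit 4030961045845) (nat_lit 14) leaf) (nat_lit 4030961091925) (nat_lit 10) leaf) (nat_lit 4031363683669) (nat_lit 12) (node leaf (nat_lit 4031363695957) (nat_lit 10) leaf)))))

noncomputable def L0_248 : Tr := node L0_246 (nat_lit 4028847362389) (nat_lit 12) L0_247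

noncomputable def L0_249 : Tr := node L0_245 (nat_lit 4028718137941) (nat_lit 7) L0_248

noncomputable def L0_250 : Tr := node L0_242 (nat_lit 4022313423253) (nat_lit 8) L0_249

noncomputable def L0_251 : Tr := node L0_235 (nat_lit 4020710171221) (nat_lit 7) L0_250

noncomputable def L0_252 : Tr := node L0_220 (nat_lit 3994940494105) (nat_lit 4) L0_251

noncomputable def L0_253 : Tr := node L0_189 (nat_lit 3891916768405) (nat_lit 22) L0_252

noncomputable def L0_254 : Tr := node L0_126 (nat_lit 3481612357909) (nat_lit 8) L0_253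

/-- data -/
noncomputable def L0 : Tr := L0_254

noncomputable def L1_0 : Tr := (node (node (node (node (node (node leaf (nat_lit 3305691679057) (nat_lit 32) leaf) (nat_lit 3305691679060) (nat_lit 9) leaf) (nat_lit 3305691681364) (nat_lit 12) (node leaf (nat_lit 3305691682900) (nat_lit 12) leaf)) (nat_lit 3305691693652) (nat_lit 14) (node (node (node leaf (nat_lit 3305691743305) (nat_lit 6) leaf) (nat_lit 3305691758629) (nat_lit 32) leaf) (nat_lit 3308912968852) (nat_lit 10) (node leaf (nat_lit 3309969885508) (nat_lit 2) leaf))) (nat_lit 3309969885520) (nat_lit 14) (node (node (node (node leaf (nat_lit 3309969887380) (nat_lit 14) leaf) (nat_lit 3309969932881) (nat_lit 0) leaf) (nat_lit 3309969933349) (nat_lit 10) (node leaf (nat_lit 3309969933445) (nat_lit 10) leaf)) (nat_lit 3309969936421) (nat_lit 12) (node (node leaf (nat_lit 3309969936517) (nat_lit 12) leaf) (nat_lit 3309969936532) (nat_lit 12) (node leaf (nat_lit 3309969936676) (nat_lit 8) leaf)))) (nat_lit 3309969936916) (nat_lit 12) (node (node (node (node (node leaf (nat_lit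 3309969936964) (nat_lit 2) leaf) (nat_lit 3309969937414) (nat_lit 2) leaf) (nat_lit 3309969948709) (nat_lit 3) (node leaf (nat_lit 3309969948745) (nat_lit 6) leaf)) (nat_lit 3309969948820) (nat_lit 5) (node (node leaf (nat_lit 3309969948964) (nat_lit 8) leaf) (nat_lit 3309969949060) (nat_lit 8) (node leaf (nat_lit 3309969949702) (nat_lit 10) leaf))) (nat_lit 3309969949714) (nat_lit 10) (node (node (node (node leaf (nat_lit 3309969949732) (nat_lit 10) leaf) (nat_lit 3309969952774) (nat_lit 2) leaf) (nat_lit 3309979390288) (nat_lit 19) (node leaf (nat_lit 3309979391056) (nat_lit 19) leaf)) (nat_lit 3309981749584) (nat_lit 17) (node (node leaf (nat_lit 3309981750352) (nat_lit 17) leaf) (nat_lit 3309982225732) (nat_lit 2) (node leaf (nat_lit 3309982225744) (nat_lit 13) leaf)))))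

noncomputable def L1_1 : Tr := (node (node (node (node (node (node leaf (nat_lit 3309982262608) (nat_lit 16) leaf) (nat_lit 3309982287184) (nat_lit 16) leaf) (nat_lit 3309982339393) (nat_lit 0) (node leaf (nat_lit 3309982339408) (nat_lit 8) leaf)) (nat_lit 3309982340116) (nat_lit 4) (node (node leaf (nat_lit 3309982340176) (nat_lit 6) leaf) (nat_lit 3309982340356) (nat_lit 2) (node leaf (nat_lit 3309982455892) (nat_lit 12) leaf))) (nat_lit 3309982456144) (nat_lit 12) (node (node (node (node leaf (nat_lit 3309982459216) (nat_lit 11) leaf) (nat_lit 3309982466644) (nat_lit 7) leaf) (nat_lit 3309982467220) (nat_lit 14) (node leaf (nat_lit 3309982467604) (nat_lit 14) leaf)) (nat_lit 3309982468372) (nat_lit 4) (node (node leaf (nat_lit 3309982468420) (nat_lit 2) leaf) (nat_lit 3309982468432) (nat_lit 14) (node leaf (nat_lit 3309982474576) (nat_lit 14) leaf)))) (nat_lit 3309982483792) (nat_lit 10) (node (node (node (node (node leaf (nat_lit 3309982515589) (nat_lit 8) leaf) (nat_lit 3309982515604) (nat_lit 8) leaf) (nat_lit 3309982516261)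 (nat_lit 10) (node leaf (nat_lit 3309982516372) (nat_lit 10) leaf)) (nat_lit 3309982516756) (nat_lit 10) (node (node leaf (nat_lit 3309982517572) (nat_lit 2) leaf) (nat_lit 3309982517584) (nat_lit 9) (node leaf (nat_lit 3309982519333) (nat_lit 12) leaf))) (nat_lit 3309982519429) (nat_lit 12) (node (node (node (node leaf (nat_lit 3309982519444) (nat_lit 12) leaf) (nat_lit 3309982519828) (nat_lit 12) leaf) (nat_lit 3309982519888) (nat_lit 12) (node leaf (nat_lit 3309982531609) (nat_lit 4) leaf)) (nat_lit 3309982531621) (nat_lit 3) (node (node leaf (nat_lit 3309982531657) (nat_lit 1) leaf) (nat_lit 3309982531666) (nat_lit 6) (node leaf (nat_lit 3309982531681) (nat_lit 6) leaf)))))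

noncomputable def L1_2 : Tr := node L1_0 (nat_lit 3309982262596) (nat_lit 2) L1_1

noncomputable def L1_3 : Tr := (node (node (node (node (node (node leaf (nat_lit 3309982531717) (nat_lit 2) leaf) (nat_lit 3309982531729) (nat_lit 0) leaf) (nat_lit 3309982531732) (nat_lit 5) (node leaf (nat_lit 3309982531846) (nat_lit 2) leaf)) (nat_lit 3309982531849) (nat_lit 1) (node (node leaf (nat_lit 3309982531858) (nat_lit 8) leaf) (nat_lit 3309982531864) (nat_lit 8) (node leaf (nat_lit 3309982531873) (nat_lit 0) leaf))) (nat_lit 3309982531876) (nat_lit 8) (node (node (node (node leaf (nat_lit 3309982531972) (nat_lit 8) leaf) (nat_lit 3309982532116) (nat_lit 4) leaf) (nat_lit 3309982532614) (nat_lit 2) (node leaf (nat_lit 3309982532626) (nat_lit 10) leaf)) (nat_lit 3309982532644) (nat_lit 10) (node (node leaf (nat_lit 3309982535686) (nat_lit 2) leaf) (nat_lit 3309982732561) (nat_lit 4) (node leaf (nat_lit 3309982732612) (nat_lit 2) leaf)))) (nat_lit 3309982733329) (nat_lit 0) (node (node (node (node (node leaf (nat_lit 3309982733380) (nat_lit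 2) leaf) (nat_lit 3309983322436) (nat_lit 2) leaf) (nat_lit 3309983323204) (nat_lit 2) (node leaf (nat_lit 3309983568913) (nat_lit 4) leaf)) (nat_lit 3309985681732) (nat_lit 2) (node (node leaf (nat_lit 3309985682500) (nat_lit 2) leaf) (nat_lit 3309986649412) (nat_lit 2) (node leaf (nat_lit 3309986661700) (nat_lit 14) leaf))) (nat_lit 3334682708305) (nat_lit 30) (node (node (node (node leaf (nat_lit 3334682708308) (nat_lit 30) leaf) (nat_lit 3334682712148) (nat_lit 30) leaf) (nat_lit 3334682722900) (nat_lit 30) (node leaf (nat_lit 3334682771860) (nat_lit 8) leaf)) (nat_lit 3334682772553) (nat_lit 30) (node (node leaf (nat_lit 3334682772625) (nat_lit 0) leaf) (nat_lit 3334682787877) (nat_lit 30) (node leaf (nat_lit 3335739676996) (nat_lit 12) leaf)))))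

noncomputable def L1_4 : Tr := (node (node (node (node (node (node leaf (nat_lit 3335739688084) (nat_lit 10) leaf) (nat_lit 3335739689236) (nat_lit 4) leaf) (nat_lit 3335739736357) (nat_lit 8) (node leaf (nat_lit 3335739736453) (nat_lit 8) leaf)) (nat_lit 3335739736645) (nat_lit 2) (node (node leaf (nat_lit 3335739737125) (nat_lit 10) leaf) (nat_lit 3335739737221) (nat_lit 10) (node leaf (nat_lit 3335739737236) (nat_lit 10) leaf))) (nat_lit 3335739737620) (nat_lit 10) (node (node (node (node leaf (nat_lit 3335739740197) (nat_lit 12) leaf) (nat_lit 3335739740260) (nat_lit 6) leaf) (nat_lit 3335739740308) (nat_lit 12) (node leaf (nat_lit 3335739740422) (nat_lit 8) leaf)) (nat_lit 3335739740692) (nat_lit 4) (node (node leaf (nat_lit 3335739752596) (nat_lit 5) leaf) (nat_lit 3335739752740) (nat_lit 8) (node leaf (nat_lit 3335739753478) (nat_lit 2) leaf)))) (nat_lit 3335749194052) (nat_lit 19) (node (node (node (node (node leaf (nat_lit 3335749194820) (nat_lit 19) leaf) (nat_lit 3335751553348) (nat_lit 17) leaf) (nat_lit 3335751554116)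 (nat_lit 17) (node leaf (nat_lit 3335752017220) (nat_lit 14) leaf)) (nat_lit 3335752017232) (nat_lit 14) (node (node leaf (nat_lit 3335752029460) (nat_lit 4) leaf) (nat_lit 3335752029508) (nat_lit 2) (node leaf (nat_lit 3335752066384) (nat_lit 16) leaf))) (nat_lit 3335752090948) (nat_lit 2) (node (node (node (node leaf (nat_lit 3335752090960) (nat_lit 16) leaf) (nat_lit 3335752143121) (nat_lit 4) leaf) (nat_lit 3335752143172) (nat_lit 2) (node leaf (nat_lit 3335752143889) (nat_lit 0) leaf)) (nat_lit 3335752143940) (nat_lit 6) (node (node leaf (nat_lit 3335752144129) (nat_lit 0) leaf) (nat_lit 3335752258132) (nat_lit 12) (node leaf (nat_lit 3335752259092) (nat_lit 12) leaf)))))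

noncomputable def L1_5 : Tr := node L1_3 (nat_lit 3335739677008) (nat_lit 12) L1_4

noncomputable def L1_6 : Tr := node L1_2 (nat_lit 3309982531684) (nat_lit 6) L1_5

noncomputable def L1_7 : Tr := (node (node (node (node (node (node leaf (nat_lit 3335752262992) (nat_lit 11) leaf) (nat_lit 3335752270228) (nat_lit 14) leaf) (nat_lit 3335752270420) (nat_lit 7) (node leaf (nat_lit 3335752270996) (nat_lit 14) leaf)) (nat_lit 3335752271956) (nat_lit 6) (node (node leaf (nat_lit 3335752272148) (nat_lit 4) leaf) (nat_lit 3335752272208) (nat_lit 14) (node leaf (nat_lit 3335752319125) (nat_lit 5) leaf))) (nat_lit 3335752319269) (nat_lit 8) (node (node (node (node leaf (nat_lit 3335752319572) (nat_lit 7) leaf) (nat_lit 3335752320037) (nat_lit 10) leaf) (nat_lit 3335752320133) (nat_lit 10) (node leaf (nat_lit 3335752320148) (nat_lit 10) leaf)) (nat_lit 3335752320532) (nat_lit 10) (node (node leaf (nat_lit 3335752321300) (nat_lit 4) leaf) (nat_lit 3335752323109) (nat_lit 12) (node leaf (nat_lit 3335752323205) (nat_lit 12) leaf)))) (nat_lit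 3335752323220) (nat_lit 12) (node (node (node (node (node leaf (nat_lit 3335752323604) (nat_lit 12) leaf) (nat_lit 3335752335385) (nat_lit 4) leaf) (nat_lit 3335752335397) (nat_lit 3) (node leaf (nat_lit 3335752335433) (nat_lit 6) leaf)) (nat_lit 3335752335457) (nat_lit 6) (node (node leaf (nat_lit 3335752335493) (nat_lit 2) leaf) (nat_lit 3335752335508) (nat_lit 5) (node leaf (nat_lit 3335752335625) (nat_lit 1) leaf))) (nat_lit 3335752335634) (nat_lit 8) (node (node (node (node leaf (nat_lit 3335752335652) (nat_lit 8) leaf) (nat_lit 3335752336390) (nat_lit 2) leaf) (nat_lit 3335752536325) (nat_lit 2) (node leaf (nat_lit 3335752536337) (nat_lit 8) leaf)) (nat_lit 3335752536340) (nat_lit 4) (node (node leaf (nat_lit 3335752536385) (nat_lit 0) leaf) (nat_lit 3335752536388) (nat_lit 8) (node leaf (nat_lit 3335752537153) (nat_lit 0) leaf)))))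

noncomputable def L1_8 : Tr := (node (node (node (node (node (node leaf (nat_lit 3335753126209) (nat_lit 0) leaf) (nat_lit 3335753126212) (nat_lit 8) leaf) (nat_lit 3335753126977) (nat_lit 0) (node leaf (nat_lit 3335753323537) (nat_lit 14) leaf)) (nat_lit 3335755485460) (nat_lit 4) (node (node leaf (nat_lit 3335755485505) (nat_lit 0) leaf) (nat_lit 3335755485508) (nat_lit 8) (node leaf (nat_lit 3335755486273) (nat_lit 0) leaf))) (nat_lit 3335756453140) (nat_lit 4) (node (node (node (node leaf (nat_lit 3335756453185) (nat_lit 0) leaf) (nat_lit 3335756465428) (nat_lit 4) leaf) (nat_lit 3337903933777) (nat_lit 0) (node leaf (nat_lit 3337903936084) (nat_lit 12) leaf)) (nat_lit 3341930465617) (nat_lit 28) (node (node leaf (nat_lit 3341930465620) (nat_lit 28) leaf) (nat_lit 3341930469460) (nat_lit 28) (node leaf (nat_lit 3341930480212) (nat_lit 28) leaf)))) (nat_lit 3341930529172) (nat_lit 28) (node (node (node (node (node leaf (nat_lit 3341930529865) (nat_lit 28) leaf) (nat_lit 3341930545189) (nat_lit 28) leaf) (nat_lit 3342182126740)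 (nat_lit 12) (node leaf (nat_lit 3342182127892) (nat_lit 4) leaf)) (nat_lit 3342182127937) (nat_lit 0) (node (node leaf (nat_lit 3342182127940) (nat_lit 2) leaf) (nat_lit 3342182138260) (nat_lit 8) (node leaf (nat_lit 3342182139028) (nat_lit 14) leaf))) (nat_lit 3342182187109) (nat_lit 6) (node (node (node (node leaf (nat_lit 3342182187157) (nat_lit 5) leaf) (nat_lit 3342182187301) (nat_lit 8) leaf) (nat_lit 3342182187397) (nat_lit 8) (node leaf (nat_lit 3342182187412) (nat_lit 8) leaf)) (nat_lit 3342182187541) (nat_lit 4) (node (node leaf (nat_lit 3342182187604) (nat_lit 7) leaf) (nat_lit 3342182188069) (nat_lit 10) (node leaf (nat_lit 3342182188180) (nat_lit 10) leaf)))))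

noncomputable def L1_9 : Tr := node L1_7 (nat_lit 3335753126164) (nat_lit 4) L1_8

noncomputable def L1_10 : Tr := (node (node (node (node (node (node leaf (nat_lit 3342182191252) (nat_lit 12) leaf) (nat_lit 3342191644993) (nat_lit 19) leaf) (nat_lit 3342191645761) (nat_lit 19) (node leaf (nat_lit 3342193808401) (nat_lit 18) leaf)) (nat_lit 3342194004289) (nat_lit 17) (node (node leaf (nat_lit 3342194005057) (nat_lit 17) leaf) (nat_lit 3342194468116) (nat_lit 4) (node leaf (nat_lit 3342194468161) (nat_lit 0) leaf))) (nat_lit 3342194468164) (nat_lit 2) (node (node (node (node leaf (nat_lit 3342194480401) (nat_lit 0) leaf) (nat_lit 3342194480404) (nat_lit 4) leaf) (nat_lit 3342194480452) (nat_lit 13) (node leaf (nat_lit 3342194480464) (nat_lit 13) leaf)) (nat_lit 3342194512468) (nat_lit 16) (node (node leaf (nat_lit 3342194517316) (nat_lit 2) leaf) (nat_lit 3342194517328) (nat_lit 16) (node leaf (nat_lit 3342194594053) (nat_lit 2) leaf)))) (nat_lit 3342194594065) (nat_lit 8) (node (node (node (node (node leaf (nat_lit 3342194594068)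 (nat_lit 4) leaf) (nat_lit 3342194594113) (nat_lit 0) leaf) (nat_lit 3342194594821) (nat_lit 2) (node leaf (nat_lit 3342194594881) (nat_lit 6) leaf)) (nat_lit 3342194706769) (nat_lit 9) (node (node leaf (nat_lit 3342194709073) (nat_lit 0) leaf) (nat_lit 3342194709076) (nat_lit 12) (node leaf (nat_lit 3342194710612) (nat_lit 12) leaf))) (nat_lit 3342194713924) (nat_lit 2) (node (node (node (node leaf (nat_lit 3342194720917) (nat_lit 14) leaf) (nat_lit 3342194721172) (nat_lit 8) leaf) (nat_lit 3342194721364) (nat_lit 14) (node leaf (nat_lit 3342194721829) (nat_lit 14) leaf)) (nat_lit 3342194722900) (nat_lit 6) (node (node leaf (nat_lit 3342194770309) (nat_lit 8) leaf) (nat_lit 3342194770324) (nat_lit 8) (node leaf (nat_lit 3342194770516) (nat_lit 7) leaf)))))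

noncomputable def L1_11 : Tr := (node (node (node (node (node (node leaf (nat_lit 3342194771077) (nat_lit 10) leaf) (nat_lit 3342194771092) (nat_lit 10) leaf) (nat_lit 3342194771476) (nat_lit 10) (node leaf (nat_lit 3342194772052) (nat_lit 6) leaf)) (nat_lit 3342194774053) (nat_lit 12) (node (node leaf (nat_lit 3342194774149) (nat_lit 12) leaf) (nat_lit 3342194774164) (nat_lit 12) (node leaf (nat_lit 3342194786341) (nat_lit 3) leaf))) (nat_lit 3342194786377) (nat_lit 6) (node (node (node (node leaf (nat_lit 3342194984197) (nat_lit 10) leaf) (nat_lit 3342194987077) (nat_lit 6) leaf) (nat_lit 3342194987269) (nat_lit 2) (node leaf (nat_lit 3342194987281) (nat_lit 4) leaf)) (nat_lit 3342194987329) (nat_lit 8) (node (node leaf (nat_lit 3342194988049) (nat_lit 4) leaf) (nat_lit 3342195577105) (nat_lit 4) (node leaf (nat_lit 3342195577153) (nat_lit 8) leaf)))) (nat_lit 3342195577873) (nat_lit 4) (node (node (node (node (node leaf (nat_lit 3342195773713) (nat_lit 8) leaf) (nat_lit 3342197936401) (nat_lit 4) leaf) (nat_lit 3342197936449)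 (nat_lit 8) (node leaf (nat_lit 3342197937169) (nat_lit 4) leaf)) (nat_lit 3342198904081) (nat_lit 4) (node (node leaf (nat_lit 3342198904084) (nat_lit 12) leaf) (nat_lit 3342198916369) (nat_lit 0) (node leaf (nat_lit 3342735771985) (nat_lit 0) leaf))) (nat_lit 3342735771988) (nat_lit 9) (node (node (node (node leaf (nat_lit 3342735774292) (nat_lit 12) leaf) (nat_lit 3342735835465) (nat_lit 8) leaf) (nat_lit 3342735835537) (nat_lit 0) (node leaf (nat_lit 3342735839269) (nat_lit 12) leaf)) (nat_lit 3343742404945) (nat_lit 26) (node (node leaf (nat_lit 3343792738708) (nat_lit 8) leaf) (nat_lit 3343792738900) (nat_lit 25) (node leaf (nat_lit 3343792740625) (nat_lit 4) leaf)))))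

noncomputable def L1_12 : Tr := node L1_10 (nat_lit 3342194770981) (nat_lit 10) L1_11

noncomputable def L1_13 : Tr := node L1_9 (nat_lit 3342182188564) (nat_lit 10) L1_12

noncomputable def L1_14 : Tr := node L1_6 (nat_lit 3335752259665) (nat_lit 0) L1_13

noncomputable def L1_15 : Tr := (node (node (node (node (node (node leaf (nat_lit 3343792750741) (nat_lit 14) leaf) (nat_lit 3343792750996) (nat_lit 14) leaf) (nat_lit 3343792751125) (nat_lit 14) (node leaf (nat_lit 3343792799893) (nat_lit 5) leaf)) (nat_lit 3343792800037) (nat_lit 8) (node (node (node leaf (nat_lit 3343792800337) (nat_lit 0) leaf) (nat_lit 3343792800340) (nat_lit 7) leaf) (nat_lit 3343792800916) (nat_lit 10) (node leaf (nat_lit 3343802257681) (nat_lit 19) leaf))) (nat_lit 3343802258449) (nat_lit 19) (node (node (node (node leaf (nat_lit 3343804420369) (nat_lit 18) leaf) (nat_lit 3343804616977) (nat_lit 17) leaf) (nat_lit 3343804617745) (nat_lit 17) (node leaf (nat_lit 3343805076052) (nat_lit 14) leaf)) (nat_lit 3343805080849) (nat_lit 0) (node (node leaf (nat_lit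 3343805080897) (nat_lit 0) leaf) (nat_lit 3343805080900) (nat_lit 14) (node leaf (nat_lit 3343805092945) (nat_lit 6) leaf)))) (nat_lit 3343805092948) (nat_lit 6) (node (node (node (node (node leaf (nat_lit 3343805093140) (nat_lit 4) leaf) (nat_lit 3343805093188) (nat_lit 2) leaf) (nat_lit 3343805122897) (nat_lit 16) (node leaf (nat_lit 3343805125204) (nat_lit 16) leaf)) (nat_lit 3343805130004) (nat_lit 4) (node (node leaf (nat_lit 3343805203717) (nat_lit 10) leaf) (nat_lit 3343805206597) (nat_lit 6) (node leaf (nat_lit 3343805206609) (nat_lit 6) leaf))) (nat_lit 3343805206789) (nat_lit 2) (node (node (node (node leaf (nat_lit 3343805206801) (nat_lit 4) leaf) (nat_lit 3343805207569) (nat_lit 4) leaf) (nat_lit 3343805318740) (nat_lit 10) (node leaf (nat_lit 3343805319508) (nat_lit 9) leaf)) (nat_lit 3343805321365) (nat_lit 12) (node (node leaf (nat_lit 3343805321812) (nat_lit 12) leaf) (nat_lit 3343805322277) (nat_lit 12) (node leaf (nat_lit 3343805323348) (nat_lit 12) leaf)))))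

noncomputable def L1_16 : Tr := (node (node (node (node (node (node leaf (nat_lit 3343805326657) (nat_lit 0) leaf) (nat_lit 3343805334097) (nat_lit 0) leaf) (nat_lit 3343805334100) (nat_lit 14) (node leaf (nat_lit 3343805334565) (nat_lit 14) leaf)) (nat_lit 3343805334661) (nat_lit 14) (node (node leaf (nat_lit 3343805335636) (nat_lit 14) leaf) (nat_lit 3343805337637) (nat_lit 14) (node leaf (nat_lit 3343805382805) (nat_lit 5) leaf))) (nat_lit 3343805382949) (nat_lit 8) (node (node (node (node leaf (nat_lit 3343805383252) (nat_lit 7) leaf) (nat_lit 3343805383717) (nat_lit 10) leaf) (nat_lit 3343805383813) (nat_lit 10) (node leaf (nat_lit 3343805383828) (nat_lit 10) leaf)) (nat_lit 3343805386789) (nat_lit 12) (node (node leaf (nat_lit 3343805596741) (nat_lit 6) leaf) (nat_lit 3343805599813) (nat_lit 6) (node leaf (nat_lit 3343805600005) (nat_lit 2) leaf)))) (nat_lit 3343805600017) (nat_lit 8) (node (node (node (node (node leaf (nat_lit 3343805600773) (nat_lit 2) leaf) (nat_lit 3343806189829) (nat_lit 2) leaf) (nat_lit 3343806189841)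 (nat_lit 16) (node leaf (nat_lit 3343806190597) (nat_lit 2) leaf)) (nat_lit 3343806386257) (nat_lit 6) (node (node leaf (nat_lit 3343808549125) (nat_lit 2) leaf) (nat_lit 3343808549137) (nat_lit 8) (node leaf (nat_lit 3343808549893) (nat_lit 2) leaf))) (nat_lit 3343809516625) (nat_lit 6) (node (node (node (node leaf (nat_lit 3343809516805) (nat_lit 2) leaf) (nat_lit 3343809516817) (nat_lit 0) leaf) (nat_lit 3343943731537) (nat_lit 0) (node leaf (nat_lit 3343943731540) (nat_lit 9) leaf)) (nat_lit 3343943733844) (nat_lit 12) (node (node leaf (nat_lit 3343943795017) (nat_lit 8) leaf) (nat_lit 3343943795089) (nat_lit 0) (node leaf (nat_lit 3343943798821) (nat_lit 12) leaf)))))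

noncomputable def L1_17 : Tr := node L1_15 (nat_lit 3343805326612) (nat_lit 4) L1_16

noncomputable def L1_18 : Tr := (node (node (node (node (node (node leaf (nat_lit 3344195195476) (nat_lit 16) leaf) (nat_lit 3344195389012) (nat_lit 10) leaf) (nat_lit 3344195389777) (nat_lit 24) (node leaf (nat_lit 3344195391637) (nat_lit 12) leaf)) (nat_lit 3344195392021) (nat_lit 12) (node (node leaf (nat_lit 3344195403925) (nat_lit 14) leaf) (nat_lit 3344204910853) (nat_lit 19) (node leaf (nat_lit 3344204911621) (nat_lit 19) leaf))) (nat_lit 3344206959700) (nat_lit 18) (node (node (node (node leaf (nat_lit 3344207073361) (nat_lit 18) leaf) (nat_lit 3344207266885) (nat_lit 17) leaf) (nat_lit 3344207270149) (nat_lit 17) (node leaf (nat_lit 3344207270917) (nat_lit 17) leaf)) (nat_lit 3344207729233) (nat_lit 0) (node (node leaf (nat_lit 3344207733841) (nat_lit 6) leaf) (nat_lit 3344207734033) (nat_lit 4) (node leaf (nat_lit 3344207734036) (nat_lit 14) leaf)))) (nat_lit 3344207746117) (nat_lit 2) (node (node (node (node (node leaf (nat_lit 3344207746129)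 (nat_lit 0) leaf) (nat_lit 3344207746321) (nat_lit 0) leaf) (nat_lit 3344207746324) (nat_lit 4) (node leaf (nat_lit 3344207746372) (nat_lit 23) leaf)) (nat_lit 3344207776069) (nat_lit 2) (node (node leaf (nat_lit 3344207778385) (nat_lit 23) leaf) (nat_lit 3344207856709) (nat_lit 10) (node leaf (nat_lit 3344207859781) (nat_lit 2) leaf))) (nat_lit 3344207859973) (nat_lit 2) (node (node (node (node leaf (nat_lit 3344207860741) (nat_lit 2) leaf) (nat_lit 3344207971477) (nat_lit 10) leaf) (nat_lit 3344207972689) (nat_lit 23) (node leaf (nat_lit 3344207974993) (nat_lit 12) leaf)) (nat_lit 3344207979793) (nat_lit 0) (node (node leaf (nat_lit 3344207987281) (nat_lit 23) leaf) (nat_lit 3344208249877) (nat_lit 4) (node leaf (nat_lit 3344208252949) (nat_lit 4) leaf)))))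

noncomputable def L1_19 : Tr := (node (node (node (node (node (node leaf (nat_lit 3344208253189) (nat_lit 8) leaf) (nat_lit 3344208842821) (nat_lit 6) leaf) (nat_lit 3344208843013) (nat_lit 8) (node leaf (nat_lit 3344209039429) (nat_lit 2) leaf)) (nat_lit 3344211202117) (nat_lit 6) (node (node leaf (nat_lit 3344211202309) (nat_lit 8) leaf) (nat_lit 3344212169797) (nat_lit 2) (node leaf (nat_lit 3344212169989) (nat_lit 2) leaf))) (nat_lit 3344242349380) (nat_lit 22) (node (node (node (node leaf (nat_lit 3344242381861) (nat_lit 22) leaf) (nat_lit 3344242393237) (nat_lit 22) leaf) (nat_lit 3344242393417) (nat_lit 22) (node leaf (nat_lit 3344242393489) (nat_lit 22) leaf)) (nat_lit 3344242394149) (nat_lit 22) (node (node leaf (nat_lit 3344242575700) (nat_lit 22) leaf) (nat_lit 3344242590757) (nat_lit 22) (node leaf (nat_lit 3344242590853) (nat_lit 22) leaf)))) (nat_lit 3344242639909) (nat_lit 22) (node (node (node (node (node leaf (nat_lit 3344245495108) (nat_lit 21) leaf) (nat_lit 3344245527121) (nat_lit 21) leaf) (nat_lit 3344245721425)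 (nat_lit 21) (node leaf (nat_lit 3344245725265) (nat_lit 21) leaf)) (nat_lit 3344245735525) (nat_lit 21) (node (node leaf (nat_lit 3344245736017) (nat_lit 21) leaf) (nat_lit 3344245784725) (nat_lit 21) (node leaf (nat_lit 3344252896849) (nat_lit 16) leaf))) (nat_lit 3344252896852) (nat_lit 16) (node (node (node (node leaf (nat_lit 3344252899621) (nat_lit 16) leaf) (nat_lit 3344252899924) (nat_lit 16) leaf) (nat_lit 3344252900389) (nat_lit 16) (node leaf (nat_lit 3344252949073) (nat_lit 7) leaf)) (nat_lit 3344252949649) (nat_lit 15) (node (node leaf (nat_lit 3344252949766) (nat_lit 2) leaf) (nat_lit 3344252949778) (nat_lit 15) (node leaf (nat_lit 3344252949793) (nat_lit 0) leaf)))))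

noncomputable def L1_20 : Tr := node L1_18 (nat_lit 3344208252997) (nat_lit 6) L1_19

noncomputable def L1_21 : Tr := node L1_17 (nat_lit 3344044394068) (nat_lit 10) L1_20

noncomputable def L1_22 : Tr := (node (node (node (node (node (node leaf (nat_lit 3344252950033) (nat_lit 15) leaf) (nat_lit 3344253065509) (nat_lit 3) leaf) (nat_lit 3344253065545) (nat_lit 12) (node leaf (nat_lit 3344253065812) (nat_lit 18) leaf)) (nat_lit 3344253068881) (nat_lit 0) (node (node leaf (nat_lit 3344253068884) (nat_lit 18) leaf) (nat_lit 3344253077140) (nat_lit 10) (node leaf (nat_lit 3344253077785) (nat_lit 4) leaf))) (nat_lit 3344253077797) (nat_lit 14) (node (node (node (node leaf (nat_lit 3344253077893) (nat_lit 2) leaf) (nat_lit 3344253077908) (nat_lit 14) leaf) (nat_lit 3344253078100) (nat_lit 18) (node leaf (nat_lit 3344253084052) (nat_lit 8) leaf)) (nat_lit 3344253084244) (nat_lit 18) (node (node leaf (nat_lit 3344253084745) (nat_lit 6) leaf) (nat_lit 3344253084817) (nat_lit 0) (node leaf (nat_lit 3344253084937) (nat_lit 18) leaf)))) (nat_lit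 3344253086020) (nat_lit 2) (node (node (node (node (node leaf (nat_lit 3344253093157) (nat_lit 10) leaf) (nat_lit 3344253093457) (nat_lit 0) leaf) (nat_lit 3344253093460) (nat_lit 10) (node leaf (nat_lit 3344253096229) (nat_lit 8) leaf)) (nat_lit 3344253096325) (nat_lit 8) (node (node leaf (nat_lit 3344253096340) (nat_lit 8) leaf) (nat_lit 3344253096532) (nat_lit 7) (node leaf (nat_lit 3344253096997) (nat_lit 18) leaf))) (nat_lit 3344253097033) (nat_lit 18) (node (node (node (node leaf (nat_lit 3344253097093) (nat_lit 18) leaf) (nat_lit 3344253097105) (nat_lit 0) leaf) (nat_lit 3344253097108) (nat_lit 18) (node leaf (nat_lit 3344253097234) (nat_lit 18) leaf)) (nat_lit 3344253097252) (nat_lit 18) (node (node leaf (nat_lit 3344253097489) (nat_lit 0) leaf) (nat_lit 3344253098068) (nat_lit 18) (node leaf (nat_lit 3344253098260) (nat_lit 4) leaf)))))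

noncomputable def L1_23 : Tr := (node (node (node (node (node (node leaf (nat_lit 3344253125029) (nat_lit 18) leaf) (nat_lit 3344253125797) (nat_lit 18) leaf) (nat_lit 3344253126949) (nat_lit 18) (node leaf (nat_lit 3344253127045) (nat_lit 18) leaf)) (nat_lit 3344253129364) (nat_lit 18) (node (node leaf (nat_lit 3344253133972) (nat_lit 18) leaf) (nat_lit 3344253157972) (nat_lit 18) (node leaf (nat_lit 3344253192532) (nat_lit 9) leaf))) (nat_lit 3344253194533) (nat_lit 8) (node (node (node (node leaf (nat_lit 3344253194644) (nat_lit 12) leaf) (nat_lit 3344253194836) (nat_lit 12) leaf) (nat_lit 3344253195289) (nat_lit 18) (node leaf (nat_lit 3344253195301) (nat_lit 18) leaf)) (nat_lit 3344253195337) (nat_lit 12) (node (node leaf (nat_lit 3344253195409) (nat_lit 12) leaf) (nat_lit 3344253195526) (nat_lit 2) (node leaf (nat_lit 3344253195529) (nat_lit 12) leaf)))) (nat_lit 3344253195538) (nat_lit 18) (node (node (node (node (node leaf (nat_lit 3344253195556) (nat_lit 18) leaf) (nat_lit 3344253196372) (nat_lit 6) leaf) (nat_lit 3344253206857)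 (nat_lit 8) (node leaf (nat_lit 3344253206929) (nat_lit 8) leaf)) (nat_lit 3344253207124) (nat_lit 18) (node (node leaf (nat_lit 3344253207577) (nat_lit 4) leaf) (nat_lit 3344253207589) (nat_lit 10) (node leaf (nat_lit 3344253207625) (nat_lit 6) leaf))) (nat_lit 3344253207685) (nat_lit 2) (node (node (node (node leaf (nat_lit 3344253207700) (nat_lit 10) leaf) (nat_lit 3344253208897) (nat_lit 0) leaf) (nat_lit 3344253208912) (nat_lit 9) (node leaf (nat_lit 3344253211156) (nat_lit 18) leaf)) (nat_lit 3344253211216) (nat_lit 18) (node (node leaf (nat_lit 3344253359428) (nat_lit 13) leaf) (nat_lit 3344253359440) (nat_lit 13) (node leaf (nat_lit 3344253388069) (nat_lit 10) leaf)))))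

noncomputable def L1_24 : Tr := node L1_22 (nat_lit 3344253101392) (nat_lit 18) L1_23

noncomputable def L1_25 : Tr := (node (node (node (node (node (node leaf (nat_lit 3344253388369) (nat_lit 0) leaf) (nat_lit 3344253388372) (nat_lit 10) leaf) (nat_lit 3344253391141) (nat_lit 8) (node leaf (nat_lit 3344253391441) (nat_lit 0) leaf)) (nat_lit 3344253391444) (nat_lit 12) (node (node leaf (nat_lit 3344253391909) (nat_lit 12) leaf) (nat_lit 3344253396292) (nat_lit 11) (node leaf (nat_lit 3344253396304) (nat_lit 11) leaf))) (nat_lit 3344253403285) (nat_lit 5) (node (node (node (node leaf (nat_lit 3344253403429) (nat_lit 8) leaf) (nat_lit 3344253403465) (nat_lit 8) leaf) (nat_lit 3344253403525) (nat_lit 8) (node leaf (nat_lit 3344253403537) (nat_lit 8) leaf)) (nat_lit 3344253403540) (nat_lit 8) (node (node leaf (nat_lit 3344253403729) (nat_lit 0) leaf) (nat_lit 3344253403732) (nat_lit 7) (node leaf (nat_lit 3344253404185) (nat_lit 4) leaf)))) (nat_lit 3344253404197) (nat_lit 17) (node (node (node (node (node leaf (nat_lit 3344253404293)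 (nat_lit 2) leaf) (nat_lit 3344253404305) (nat_lit 0) leaf) (nat_lit 3344253404308) (nat_lit 10) (node leaf (nat_lit 3344253404692) (nat_lit 10) leaf)) (nat_lit 3344253404752) (nat_lit 10) (node (node leaf (nat_lit 3344253405265) (nat_lit 6) leaf) (nat_lit 3344253405268) (nat_lit 6) (node leaf (nat_lit 3344253405460) (nat_lit 4) leaf))) (nat_lit 3344253405505) (nat_lit 0) (node (node (node (node leaf (nat_lit 3344253405508) (nat_lit 9) leaf) (nat_lit 3344253405520) (nat_lit 17) leaf) (nat_lit 3344253407257) (nat_lit 4) (node leaf (nat_lit 3344253407269) (nat_lit 3) leaf)) (nat_lit 3344253407305) (nat_lit 6) (node (node leaf (nat_lit 3344253407329) (nat_lit 6) leaf) (nat_lit 3344253407332) (nat_lit 6) (node leaf (nat_lit 3344253407380) (nat_lit 17) leaf)))))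

noncomputable def L1_26 : Tr := (node (node (node (node (node (node leaf (nat_lit 3344253407497) (nat_lit 1) leaf) (nat_lit 3344253407506) (nat_lit 8) leaf) (nat_lit 3344253407521) (nat_lit 0) (node leaf (nat_lit 3344253407524) (nat_lit 8) leaf)) (nat_lit 3344253407764) (nat_lit 4) (node (node leaf (nat_lit 3344253407812) (nat_lit 2) leaf) (nat_lit 3344253408262) (nat_lit 2) (node leaf (nat_lit 3344253408265) (nat_lit 1) leaf))) (nat_lit 3344253408274) (nat_lit 4) (node (node (node (node leaf (nat_lit 3344253411649) (nat_lit 0) leaf) (nat_lit 3344253411664) (nat_lit 8) leaf) (nat_lit 3344253420865) (nat_lit 0) (node leaf (nat_lit 3344253420868) (nat_lit 2) leaf)) (nat_lit 3344253423940) (nat_lit 8) (node (node leaf (nat_lit 3344253424705) (nat_lit 0) leaf) (nat_lit 3344253855013) (nat_lit 20) (node leaf (nat_lit 3344253855073) (nat_lit 20) leaf)))) (nat_lit 3344253864265) (nat_lit 14) (node (node (node (node (node leaf (nat_lit 3344253864340) (nat_lit 14) leaf) (nat_lit 3344253864532) (nat_lit 14) leaf) (nat_lit 3344253870409)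 (nat_lit 20) (node leaf (nat_lit 3344253870484) (nat_lit 14) leaf)) (nat_lit 3344253870676) (nat_lit 14) (node (node leaf (nat_lit 3344253882964) (nat_lit 13) leaf) (nat_lit 3344253883417) (nat_lit 4) (node leaf (nat_lit 3344253883429) (nat_lit 3) leaf))) (nat_lit 3344253883465) (nat_lit 20) (node (node (node (node leaf (nat_lit 3344253883489) (nat_lit 6) leaf) (nat_lit 3344253883537) (nat_lit 0) leaf) (nat_lit 3344253883540) (nat_lit 20) (node leaf (nat_lit 3344253883654) (nat_lit 2) leaf)) (nat_lit 3344253883657) (nat_lit 13) (node (node leaf (nat_lit 3344253883666) (nat_lit 20) leaf) (nat_lit 3344253883681) (nat_lit 0) (node leaf (nat_lit 3344253883684) (nat_lit 20) leaf)))))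

noncomputable def L1_27 : Tr := node L1_25 (nat_lit 3344253407494) (nat_lit 2) L1_26

noncomputable def L1_28 : Tr := node L1_24 (nat_lit 3344253388357) (nat_lit 2) L1_27

noncomputable def L1_29 : Tr := node L1_21 (nat_lit 3344252949796) (nat_lit 15) L1_28

noncomputable def L1_30 : Tr := node L1_14 (nat_lit 3343792740673) (nat_lit 0) L1_29

noncomputable def L1_31 : Tr := (node (node (node (node (node (node leaf (nat_lit 3344253884692) (nat_lit 4) leaf) (nat_lit 3344253884740) (nat_lit 20) leaf) (nat_lit 3344253911461) (nat_lit 8) (node leaf (nat_lit 3344253911701) (nat_lit 20) leaf)) (nat_lit 3344253912229) (nat_lit 16) (node (node (node leaf (nat_lit 3344253912724) (nat_lit 10) leaf) (nat_lit 3344253913381) (nat_lit 16) leaf) (nat_lit 3344253913492) (nat_lit 16) (node leaf (nat_lit 3344253913684) (nat_lit 20) leaf))) (nat_lit 3344253919828) (nat_lit 20) (node (node (node (node leaf (nat_lit 3344253920521) (nat_lit 20) leaf) (nat_lit 3344253920788) (nat_lit 20) leaf) (nat_lit 3344253948052) (nat_lit 20) (node leaf (nat_lit 3344253981076)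 (nat_lit 8) leaf)) (nat_lit 3344253981958) (nat_lit 2) (node (node leaf (nat_lit 3344253981961) (nat_lit 20) leaf) (nat_lit 3344253993556) (nat_lit 20) (node leaf (nat_lit 3344253994021) (nat_lit 10) leaf)))) (nat_lit 3344253994249) (nat_lit 20) (node (node (node (node (node leaf (nat_lit 3344253995344) (nat_lit 9) leaf) (nat_lit 3344253997093) (nat_lit 20) leaf) (nat_lit 3344253997204) (nat_lit 20) (node leaf (nat_lit 3344253997648) (nat_lit 20) leaf)) (nat_lit 3344253998104) (nat_lit 20) (node (node leaf (nat_lit 3344253999184) (nat_lit 20) leaf) (nat_lit 3344254108069) (nat_lit 8) (node leaf (nat_lit 3344254108837) (nat_lit 20) leaf))) (nat_lit 3344254109989) (nat_lit 20) (node (node (node (node leaf (nat_lit 3344254112404) (nat_lit 20) leaf) (nat_lit 3344254117012) (nat_lit 20) leaf) (nat_lit 3344254242964) (nat_lit 20) (node leaf (nat_lit 3344254388560) (nat_lit 20) leaf)) (nat_lit 3344254390420) (nat_lit 14) (node (node leaf (nat_lit 3344254391305) (nat_lit 20) leaf) (nat_lit 3344254932289) (nat_lit 0) (node leaf (nat_lit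 3344254932292) (nat_lit 2) leaf)))))

noncomputable def L1_32 : Tr := (node (node (node (node (node (node leaf (nat_lit 3344254964005) (nat_lit 8) leaf) (nat_lit 3344254964305) (nat_lit 12) leaf) (nat_lit 3344254969168) (nat_lit 11) (node leaf (nat_lit 3344254976281) (nat_lit 4) leaf)) (nat_lit 3344254976293) (nat_lit 8) (node (node leaf (nat_lit 3344254976389) (nat_lit 2) leaf) (nat_lit 3344254976404) (nat_lit 8) (node leaf (nat_lit 3344254977061) (nat_lit 16) leaf))) (nat_lit 3344254977097) (nat_lit 16) (node (node (node (node leaf (nat_lit 3344254977157) (nat_lit 16) leaf) (nat_lit 3344254977169) (nat_lit 0) leaf) (nat_lit 3344254978321) (nat_lit 0) (node leaf (nat_lit 3344254978369) (nat_lit 16) leaf)) (nat_lit 3344254978384) (nat_lit 16) (node (node leaf (nat_lit 3344254996801) (nat_lit 8) leaf) (nat_lit 3344255158609) (nat_lit 0) (node leaf (nat_lit 3344255158612) (nat_lit 9) leaf)))) (nat_lit 3344255160916) (nat_lit 12) (node (node (node (node (node leaf (nat_lit 3344255162449) (nat_lit 0) leaf) (nat_lit 3344255162689) (nat_lit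 12) leaf) (nat_lit 3344255172709) (nat_lit 14) (node leaf (nat_lit 3344255172901) (nat_lit 8) leaf)) (nat_lit 3344255172997) (nat_lit 8) (node (node leaf (nat_lit 3344255173201) (nat_lit 0) leaf) (nat_lit 3344255173204) (nat_lit 14) (node leaf (nat_lit 3344255173669) (nat_lit 14) leaf))) (nat_lit 3344255174737) (nat_lit 14) (node (node (node (node leaf (nat_lit 3344255174929) (nat_lit 4) leaf) (nat_lit 3344255176741) (nat_lit 14) leaf) (nat_lit 3344255221909) (nat_lit 5) (node leaf (nat_lit 3344255222053) (nat_lit 8) leaf)) (nat_lit 3344255222089) (nat_lit 8) (node (node leaf (nat_lit 3344255222149) (nat_lit 8) leaf) (nat_lit 3344255222161) (nat_lit 0) (node leaf (nat_lit 3344255222353) (nat_lit 0) leaf)))))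

noncomputable def L1_33 : Tr := node L1_31 (nat_lit 3344254961233) (nat_lit 10) L1_32

noncomputable def L1_34 : Tr := (node (node (node (node (node (node leaf (nat_lit 3344255222809) (nat_lit 4) leaf) (nat_lit 3344255222821) (nat_lit 10) leaf) (nat_lit 3344255222932) (nat_lit 10) (node leaf (nat_lit 3344255225893) (nat_lit 12) leaf)) (nat_lit 3344257000729) (nat_lit 4) (node (node leaf (nat_lit 3344257000774) (nat_lit 2) leaf) (nat_lit 3344257000777) (nat_lit 11) (node leaf (nat_lit 3344257000801) (nat_lit 0) leaf))) (nat_lit 3344257000837) (nat_lit 2) (node (node (node (node leaf (nat_lit 3344257009993) (nat_lit 14) leaf) (nat_lit 3344257010260) (nat_lit 14) leaf) (nat_lit 3344257016137) (nat_lit 14) (node leaf (nat_lit 3344257016404) (nat_lit 14) leaf)) (nat_lit 3344257016869) (nat_lit 14) (node (node leaf (nat_lit 3344257017097) (nat_lit 14) leaf) (nat_lit 3344257029220) (nat_lit 6) (node leaf (nat_lit 3344257029268) (nat_lit 13) leaf)))) (nat_lit 3344257029382) (nat_lit 2) (node (node (node (node (node leaf (nat_lit 3344257029385)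 (nat_lit 13) leaf) (nat_lit 3344257029652) (nat_lit 4) leaf) (nat_lit 3344257057429) (nat_lit 16) (node leaf (nat_lit 3344257058341) (nat_lit 16) leaf)) (nat_lit 3344257059145) (nat_lit 16) (node (node leaf (nat_lit 3344257059220) (nat_lit 9) leaf) (nat_lit 3344257059412) (nat_lit 16) (node leaf (nat_lit 3344257061524) (nat_lit 16) leaf))) (nat_lit 3344257063060) (nat_lit 12) (node (node (node (node leaf (nat_lit 3344257066132) (nat_lit 16) leaf) (nat_lit 3344257066249) (nat_lit 16) leaf) (nat_lit 3344257073812) (nat_lit 16) (node leaf (nat_lit 3344257081492) (nat_lit 16) leaf)) (nat_lit 3344257090708) (nat_lit 10) (node (node leaf (nat_lit 3344257090825) (nat_lit 16) leaf) (nat_lit 3344257093780) (nat_lit 16) (node leaf (nat_lit 3344257141072) (nat_lit 9) leaf)))))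

noncomputable def L1_35 : Tr := (node (node (node (node (node (node leaf (nat_lit 3344257143376) (nat_lit 15) leaf) (nat_lit 3344257143817) (nat_lit 1) leaf) (nat_lit 3344257143826) (nat_lit 15) (node leaf (nat_lit 3344257143844) (nat_lit 15) leaf)) (nat_lit 3344257253797) (nat_lit 8) (node (node leaf (nat_lit 3344257254565) (nat_lit 18) leaf) (nat_lit 3344257255060) (nat_lit 10) (node leaf (nat_lit 3344257255717) (nat_lit 18) leaf))) (nat_lit 3344257259668) (nat_lit 18) (node (node (node (node leaf (nat_lit 3344257261861) (nat_lit 18) leaf) (nat_lit 3344257262857) (nat_lit 18) leaf) (nat_lit 3344257271956) (nat_lit 18) (node leaf (nat_lit 3344257290388) (nat_lit 18) leaf)) (nat_lit 3344257290832) (nat_lit 18) (node (node leaf (nat_lit 3344257291282) (nat_lit 18) leaf) (nat_lit 3344257291300) (nat_lit 18) (node leaf (nat_lit 3344257389574) (nat_lit 2) leaf)))) (nat_lit 3344257536148) (nat_lit 14) (node (node (node (node (node leaf (nat_lit 3344258040229) (nat_lit 8) leaf) (nat_lit 3344258040997) (nat_lit 10) leaf) (nat_lit 3344258042149)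 (nat_lit 9) (node leaf (nat_lit 3344258044453) (nat_lit 12) leaf)) (nat_lit 3344258044564) (nat_lit 12) (node (node leaf (nat_lit 3344258046100) (nat_lit 12) leaf) (nat_lit 3344258046544) (nat_lit 12) (node leaf (nat_lit 3344258056357) (nat_lit 14) leaf))) (nat_lit 3344258056852) (nat_lit 14) (node (node (node (node leaf (nat_lit 3344258077702) (nat_lit 2) leaf) (nat_lit 3344261223745) (nat_lit 0) leaf) (nat_lit 3344261252389) (nat_lit 10) (node leaf (nat_lit 3344261252677) (nat_lit 2) leaf)) (nat_lit 3344261252689) (nat_lit 10) (node (node leaf (nat_lit 3344261257537) (nat_lit 16) leaf) (nat_lit 3344261260612) (nat_lit 2) (node leaf (nat_lit 3344261267557) (nat_lit 16) leaf)))))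

noncomputable def L1_36 : Tr := node L1_34 (nat_lit 3344257143172) (nat_lit 8) L1_35

noncomputable def L1_37 : Tr := node L1_33 (nat_lit 3344255222356) (nat_lit 7) L1_36

noncomputable def L1_38 : Tr := (node (node (node (node (node (node leaf (nat_lit 3344261267749) (nat_lit 16) leaf) (nat_lit 3344261269585) (nat_lit 16) leaf) (nat_lit 3344261285185) (nat_lit 10) (node leaf (nat_lit 3344261450065) (nat_lit 9) leaf)) (nat_lit 3344261452369) (nat_lit 12) (node (node leaf (nat_lit 3344261464213) (nat_lit 14) leaf) (nat_lit 3344261464357) (nat_lit 14) (node leaf (nat_lit 3344261464465) (nat_lit 14) leaf))) (nat_lit 3344261464657) (nat_lit 14) (node (node (node (node leaf (nat_lit 3344261464660) (nat_lit 14) leaf) (nat_lit 3344261466193) (nat_lit 6) leaf) (nat_lit 3344261513365) (nat_lit 5) (node leaf (nat_lit 3344261513497) (nat_lit 8) leaf)) (nat_lit 3344261513509) (nat_lit 8) (node (node leaf (nat_lit 3344261513605) (nat_lit 2) leaf) (nat_lit 3344261514277) (nat_lit 10) (node leaf (nat_lit 3344270660929) (nat_lit 0) leaf)))) (nat_lit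 3344270704741) (nat_lit 16) (node (node (node (node (node leaf (nat_lit 3344270704789) (nat_lit 20) leaf) (nat_lit 3344270887237) (nat_lit 2) leaf) (nat_lit 3344270887249) (nat_lit 9) (node leaf (nat_lit 3344270889553) (nat_lit 12) leaf)) (nat_lit 3344270901397) (nat_lit 14) (node (node leaf (nat_lit 3344273806657) (nat_lit 0) leaf) (nat_lit 3344273838373) (nat_lit 8) (node leaf (nat_lit 3344273850649) (nat_lit 4) leaf))) (nat_lit 3344273850661) (nat_lit 8) (node (node (node (node leaf (nat_lit 3344273850757) (nat_lit 2) leaf) (nat_lit 3344273851429) (nat_lit 16) leaf) (nat_lit 3344273851525) (nat_lit 16) (node leaf (nat_lit 3344274032977) (nat_lit 0) leaf)) (nat_lit 3344274048037) (nat_lit 14) (node (node leaf (nat_lit 3344274819409) (nat_lit 0) leaf) (nat_lit 3344274833557) (nat_lit 14) (node leaf (nat_lit 3344307622993) (nat_lit 0) leaf)))))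

noncomputable def L1_39 : Tr := (node (node (node (node (node (node leaf (nat_lit 3344307930133) (nat_lit 4) leaf) (nat_lit 3344307933253) (nat_lit 6) leaf) (nat_lit 3344307933445) (nat_lit 8) (node leaf (nat_lit 3344308390213) (nat_lit 14) leaf)) (nat_lit 3344308392529) (nat_lit 14) (node (node leaf (nat_lit 3344308397137) (nat_lit 6) leaf) (nat_lit 3344308397329) (nat_lit 0) (node leaf (nat_lit 3344308408645) (nat_lit 8) leaf))) (nat_lit 3344308409425) (nat_lit 6) (node (node (node (node leaf (nat_lit 3344308409617) (nat_lit 0) leaf) (nat_lit 3344308409665) (nat_lit 0) leaf) (nat_lit 3344308438165) (nat_lit 16) (node leaf (nat_lit 3344308441681) (nat_lit 16) leaf)) (nat_lit 3344308520005) (nat_lit 10) (node (node leaf (nat_lit 3344308523029) (nat_lit 4) leaf) (nat_lit 3344308523077) (nat_lit 6) (node leaf (nat_lit 3344308635973) (nat_lit 2) leaf)))) (nat_lit 3344308635985) (nat_lit 22) (node (node (node (node (node leaf (nat_lit 3344308643077) (nat_lit 2) leaf) (nat_lit 3344308913173) (nat_lit 10) leaf) (nat_lit 3344309506069)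 (nat_lit 4) (node leaf (nat_lit 3344309506117) (nat_lit 16) leaf)) (nat_lit 3344312832325) (nat_lit 8) (node (node leaf (nat_lit 3344312833093) (nat_lit 6) leaf) (nat_lit 3344321021524) (nat_lit 10) (node leaf (nat_lit 3344321024149) (nat_lit 20) leaf))) (nat_lit 3344321218897) (nat_lit 20) (node (node (node (node leaf (nat_lit 3344324169877) (nat_lit 16) leaf) (nat_lit 3344324362837) (nat_lit 7) leaf) (nat_lit 3344324363413) (nat_lit 10) (node leaf (nat_lit 3344324363797) (nat_lit 10) leaf)) (nat_lit 3344324364625) (nat_lit 0) (node (node leaf (nat_lit 3344324366485) (nat_lit 12) leaf) (nat_lit 3344325150229) (nat_lit 10) (node leaf (nat_lit 3344325152917) (nat_lit 12) leaf)))))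

noncomputable def L1_40 : Tr := node L1_38 (nat_lit 3344307736645) (nat_lit 18) L1_39

noncomputable def L1_41 : Tr := (node (node (node (node (node (node leaf (nat_lit 3344337998869) (nat_lit 4) leaf) (nat_lit 3437761923409) (nat_lit 30) leaf) (nat_lit 3437761923412) (nat_lit 9) (node leaf (nat_lit 3437761925716) (nat_lit 12) leaf)) (nat_lit 3437761986889) (nat_lit 8) (node (node leaf (nat_lit 3437761986961) (nat_lit 8) leaf) (nat_lit 3437761987609) (nat_lit 4) (node leaf (nat_lit 3437761987717) (nat_lit 2) leaf))) (nat_lit 3437761990693) (nat_lit 12) (node (node (node (node leaf (nat_lit 3438818892052) (nat_lit 12) leaf) (nat_lit 3438818892100) (nat_lit 2) leaf) (nat_lit 3438818902420) (nat_lit 8) (node leaf (nat_lit 3438818903188) (nat_lit 14) leaf)) (nat_lit 3438818904148) (nat_lit 6) (node (node leaf (nat_lit 3438818951269) (nat_lit 6) leaf) (nat_lit 3438818951317) (nat_lit 5) (node leaf (nat_lit 3438818951461) (nat_lit 8) leaf)))) (nat_lit 3438818951557) (nat_lit 8) (node (node (node (node (node leaf (nat_lit 3438818951701)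 (nat_lit 4) leaf) (nat_lit 3438818951764) (nat_lit 7) leaf) (nat_lit 3438818952229) (nat_lit 10) (node leaf (nat_lit 3438818952340) (nat_lit 10) leaf)) (nat_lit 3438818952724) (nat_lit 10) (node (node leaf (nat_lit 3438818955412) (nat_lit 12) leaf) (nat_lit 3438828409108) (nat_lit 19) (node leaf (nat_lit 3438828409156) (nat_lit 19) leaf))) (nat_lit 3438830768404) (nat_lit 17) (node (node (node (node leaf (nat_lit 3438830768452) (nat_lit 17) leaf) (nat_lit 3438831232321) (nat_lit 0) leaf) (nat_lit 3438831232324) (nat_lit 2) (node leaf (nat_lit 3438831244372) (nat_lit 6) leaf)) (nat_lit 3438831244561) (nat_lit 0) (node (node leaf (nat_lit 3438831244564) (nat_lit 4) leaf) (nat_lit 3438831244609) (nat_lit 0) (node leaf (nat_lit 3438831244612) (nat_lit 13) leaf)))))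

noncomputable def L1_42 : Tr := (node (node (node (node (node (node leaf (nat_lit 3438831276628) (nat_lit 16) leaf) (nat_lit 3438831281476) (nat_lit 2) leaf) (nat_lit 3438831281488) (nat_lit 16) (node leaf (nat_lit 3438831306052) (nat_lit 2) leaf)) (nat_lit 3438831358033) (nat_lit 6) (node (node leaf (nat_lit 3438831358213) (nat_lit 2) leaf) (nat_lit 3438831358225) (nat_lit 8) (node leaf (nat_lit 3438831358228) (nat_lit 4) leaf))) (nat_lit 3438831358273) (nat_lit 0) (node (node (node (node leaf (nat_lit 3438831358276) (nat_lit 8) leaf) (nat_lit 3438831358981) (nat_lit 2) leaf) (nat_lit 3438831359041) (nat_lit 0) (node leaf (nat_lit 3438831470929) (nat_lit 9) leaf)) (nat_lit 3438831473233) (nat_lit 0) (node (node leaf (nat_lit 3438831473236) (nat_lit 7) leaf) (nat_lit 3438831473812) (nat_lit 12) (node leaf (nat_lit 3438831474772) (nat_lit 12) leaf)))) (nat_lit 3438831478084) (nat_lit 2) (node (node (node (node (node leaf (nat_lit 3438831485077) (nat_lit 14) leaf) (nat_lit 3438831485332) (nat_lit 8) leaf) (nat_lit 3438831485524)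 (nat_lit 14) (node leaf (nat_lit 3438831485989) (nat_lit 14) leaf)) (nat_lit 3438831487060) (nat_lit 6) (node (node leaf (nat_lit 3438831489157) (nat_lit 14) leaf) (nat_lit 3438831534469) (nat_lit 8) (node leaf (nat_lit 3438831534484) (nat_lit 8) leaf))) (nat_lit 3438831534676) (nat_lit 7) (node (node (node (node leaf (nat_lit 3438831535141) (nat_lit 10) leaf) (nat_lit 3438831535237) (nat_lit 10) leaf) (nat_lit 3438831535252) (nat_lit 10) (node leaf (nat_lit 3438831535636) (nat_lit 10) leaf)) (nat_lit 3438831536212) (nat_lit 6) (node (node leaf (nat_lit 3438831538213) (nat_lit 12) leaf) (nat_lit 3438831538309) (nat_lit 12) (node leaf (nat_lit 3438831538324) (nat_lit 12) leaf)))))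

noncomputable def L1_43 : Tr := node L1_41 (nat_lit 3438831244624) (nat_lit 13) L1_42

noncomputable def L1_44 : Tr := node L1_40 (nat_lit 3344337998101) (nat_lit 4) L1_43

noncomputable def L1_45 : Tr := node L1_37 (nat_lit 3344261267605) (nat_lit 5) L1_44

noncomputable def L1_46 : Tr := (node (node (node (node (node (node leaf (nat_lit 3438831550537) (nat_lit 6) leaf) (nat_lit 3438831751237) (nat_lit 6) leaf) (nat_lit 3438831751429) (nat_lit 2) (node leaf (nat_lit 3438831751441) (nat_lit 0) leaf)) (nat_lit 3438831751489) (nat_lit 0) (node (node leaf (nat_lit 3438832341265) (nat_lit 0) leaf) (nat_lit 3438832341313) (nat_lit 0) (node leaf (nat_lit 3438834700561) (nat_lit 0) leaf))) (nat_lit 3438834700609) (nat_lit 0) (node (node (node (node leaf (nat_lit 3438835668241) (nat_lit 0) leaf) (nat_lit 3438835680529) (nat_lit 0) leaf) (nat_lit 3445009680721) (nat_lit 28) (node leaf (nat_lit 3445009680724) (nat_lit 28) leaf)) (nat_lit 3445009683028) (nat_lit 28) (node (node leaf (nat_lit 3445009744201) (nat_lit 28) leaf) (nat_lit 3445009744273)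 (nat_lit 28) (node leaf (nat_lit 3445009748005) (nat_lit 28) leaf)))) (nat_lit 3445261341076) (nat_lit 12) (node (node (node (node (node leaf (nat_lit 3445261341844) (nat_lit 12) leaf) (nat_lit 3445261342804) (nat_lit 6) leaf) (nat_lit 3445261342993) (nat_lit 0) (node leaf (nat_lit 3445261342996) (nat_lit 4) leaf)) (nat_lit 3445261343041) (nat_lit 0) (node (node leaf (nat_lit 3445261353109) (nat_lit 14) leaf) (nat_lit 3445261353364) (nat_lit 8) (node leaf (nat_lit 3445261353493) (nat_lit 14) leaf))) (nat_lit 3445261353556) (nat_lit 14) (node (node (node (node leaf (nat_lit 3445261402261) (nat_lit 5) leaf) (nat_lit 3445261402405) (nat_lit 8) leaf) (nat_lit 3445261402705) (nat_lit 0) (node leaf (nat_lit 3445261402708) (nat_lit 7) leaf)) (nat_lit 3445261403284) (nat_lit 10) (node (node leaf (nat_lit 3445270860049) (nat_lit 19) leaf) (nat_lit 3445270860097) (nat_lit 19) (node leaf (nat_lit 3445273219345) (nat_lit 17) leaf)))))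

noncomputable def L1_47 : Tr := (node (node (node (node (node (node leaf (nat_lit 3445273678420) (nat_lit 14) leaf) (nat_lit 3445273683217) (nat_lit 4) leaf) (nat_lit 3445273683220) (nat_lit 4) (node leaf (nat_lit 3445273683265) (nat_lit 0) leaf)) (nat_lit 3445273683268) (nat_lit 14) (node (node leaf (nat_lit 3445273695313) (nat_lit 6) leaf) (nat_lit 3445273695316) (nat_lit 6) (node leaf (nat_lit 3445273695505) (nat_lit 0) leaf))) (nat_lit 3445273695508) (nat_lit 4) (node (node (node (node leaf (nat_lit 3445273695553) (nat_lit 0) leaf) (nat_lit 3445273695556) (nat_lit 2) leaf) (nat_lit 3445273724500) (nat_lit 10) (node leaf (nat_lit 3445273725265) (nat_lit 16) leaf)) (nat_lit 3445273727572) (nat_lit 16) (node (node leaf (nat_lit 3445273739860) (nat_lit 16) leaf) (nat_lit 3445273806085) (nat_lit 10) (node leaf (nat_lit 3445273808965) (nat_lit 6) leaf)))) (nat_lit 3445273809157) (nat_lit 8) (node (node (node (node (node leaf (nat_lit 3445273809169) (nat_lit 0) leaf) (nat_lit 3445273809217) (nat_lit 8) leaf) (nat_lit 3445273809937)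 (nat_lit 4) (node leaf (nat_lit 3445273921108) (nat_lit 10) leaf)) (nat_lit 3445273921861) (nat_lit 2) (node (node leaf (nat_lit 3445273921876) (nat_lit 9) leaf) (nat_lit 3445273923733) (nat_lit 12) (node leaf (nat_lit 3445273924177) (nat_lit 0) leaf))) (nat_lit 3445273924180) (nat_lit 12) (node (node (node (node leaf (nat_lit 3445273924645) (nat_lit 12) leaf) (nat_lit 3445273925713) (nat_lit 0) leaf) (nat_lit 3445273925716) (nat_lit 12) (node leaf (nat_lit 3445273928980) (nat_lit 4) leaf)) (nat_lit 3445273929025) (nat_lit 0) (node (node leaf (nat_lit 3445273936165) (nat_lit 8) leaf) (nat_lit 3445273936261) (nat_lit 14) (node leaf (nat_lit 3445273936468) (nat_lit 14) leaf)))))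

noncomputable def L1_48 : Tr := node L1_46 (nat_lit 3445273219393) (nat_lit 17) L1_47

noncomputable def L1_49 : Tr := (node (node (node (node (node (node leaf (nat_lit 3445273937029) (nat_lit 14) leaf) (nat_lit 3445273938004) (nat_lit 14) leaf) (nat_lit 3445273940005) (nat_lit 14) (node leaf (nat_lit 3445273985173) (nat_lit 5) leaf)) (nat_lit 3445273985317) (nat_lit 8) (node (node leaf (nat_lit 3445273985413) (nat_lit 8) leaf) (nat_lit 3445273985620) (nat_lit 7) (node leaf (nat_lit 3445273986085) (nat_lit 10) leaf))) (nat_lit 3445273986181) (nat_lit 10) (node (node (node (node leaf (nat_lit 3445273986196) (nat_lit 10) leaf) (nat_lit 3445273989157) (nat_lit 12) leaf) (nat_lit 3445274199109) (nat_lit 10) (node leaf (nat_lit 3445274199301) (nat_lit 10) leaf)) (nat_lit 3445274202133) (nat_lit 4) (node (node leaf (nat_lit 3445274202181) (nat_lit 6) leaf) (nat_lit 3445274202373) (nat_lit 2) (node leaf (nat_lit 3445274202385) (nat_lit 4) leaf)))) (nat_lit 3445274792197) (nat_lit 2) (node (node (node (node (node leaf (nat_lit 3445274792209)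 (nat_lit 4) leaf) (nat_lit 3445277151493) (nat_lit 2) leaf) (nat_lit 3445277151505) (nat_lit 4) (node leaf (nat_lit 3445278119173) (nat_lit 2) leaf)) (nat_lit 3445278119185) (nat_lit 12) (node (node leaf (nat_lit 3445814986324) (nat_lit 10) leaf) (nat_lit 3445814987089) (nat_lit 0) (node leaf (nat_lit 3445815050521) (nat_lit 4) leaf))) (nat_lit 3445815050629) (nat_lit 2) (node (node (node (node leaf (nat_lit 3445815051301) (nat_lit 10) leaf) (nat_lit 3446821620049) (nat_lit 26) leaf) (nat_lit 3446871950932) (nat_lit 25) (node leaf (nat_lit 3446871953557) (nat_lit 12) leaf)) (nat_lit 3446871953809) (nat_lit 0) (node (node leaf (nat_lit 3446871953812) (nat_lit 12) leaf) (nat_lit 3446871953941) (nat_lit 12) (node leaf (nat_lit 3446871955537) (nat_lit 6) leaf)))))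

noncomputable def L1_50 : Tr := (node (node (node (node (node (node leaf (nat_lit 3446871965845) (nat_lit 14) leaf) (nat_lit 3446871966289) (nat_lit 14) leaf) (nat_lit 3446872015441) (nat_lit 0) (node leaf (nat_lit 3446881472773) (nat_lit 19) leaf)) (nat_lit 3446881472785) (nat_lit 19) (node (node leaf (nat_lit 3446883832069) (nat_lit 17) leaf) (nat_lit 3446883832081) (nat_lit 17) (node leaf (nat_lit 3446884288084) (nat_lit 10) leaf))) (nat_lit 3446884288849) (nat_lit 14) (node (node (node (node leaf (nat_lit 3446884291153) (nat_lit 0) leaf) (nat_lit 3446884295761) (nat_lit 6) leaf) (nat_lit 3446884295941) (nat_lit 2) (node leaf (nat_lit 3446884295953) (nat_lit 4) leaf)) (nat_lit 3446884295956) (nat_lit 4) (node (node leaf (nat_lit 3446884308037) (nat_lit 2) leaf) (nat_lit 3446884308049) (nat_lit 0) (node leaf (nat_lit 3446884308241) (nat_lit 0) leaf)))) (nat_lit 3446884308244) (nat_lit 4) (node (node (node (node (node leaf (nat_lit 3446884337989) (nat_lit 2) leaf) (nat_lit 3446884339861) (nat_lit 16) leaf) (nat_lit 3446884340305)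 (nat_lit 0) (node leaf (nat_lit 3446884340308) (nat_lit 16) leaf)) (nat_lit 3446884353061) (nat_lit 16) (node (node leaf (nat_lit 3446884418629) (nat_lit 10) leaf) (nat_lit 3446884418821) (nat_lit 10) (node leaf (nat_lit 3446884421701) (nat_lit 6) leaf))) (nat_lit 3446884421713) (nat_lit 6) (node (node (node (node leaf (nat_lit 3446884421893) (nat_lit 2) leaf) (nat_lit 3446884421905) (nat_lit 8) leaf) (nat_lit 3446884422661) (nat_lit 2) (node leaf (nat_lit 3446884533397) (nat_lit 10) leaf)) (nat_lit 3446884533841) (nat_lit 0) (node (node leaf (nat_lit 3446884534609) (nat_lit 0) leaf) (nat_lit 3446884534612) (nat_lit 9) (node leaf (nat_lit 3446884536613) (nat_lit 8) leaf)))))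

noncomputable def L1_51 : Tr := node L1_49 (nat_lit 3446871955729) (nat_lit 4) L1_50

noncomputable def L1_52 : Tr := node L1_48 (nat_lit 3445273936933) (nat_lit 14) L1_51

noncomputable def L1_53 : Tr := (node (node (node (node (node (node leaf (nat_lit 3446884536916) (nat_lit 12) leaf) (nat_lit 3446884538452) (nat_lit 12) leaf) (nat_lit 3446884541713) (nat_lit 4) (node leaf (nat_lit 3446884548757) (nat_lit 14) leaf)) (nat_lit 3446884548901) (nat_lit 8) (node (node leaf (nat_lit 3446884548997) (nat_lit 8) leaf) (nat_lit 3446884549201) (nat_lit 0) (node leaf (nat_lit 3446884549204) (nat_lit 14) leaf))) (nat_lit 3446884549669) (nat_lit 10) (node (node (node (node leaf (nat_lit 3446884598149) (nat_lit 8) leaf) (nat_lit 3446884598821) (nat_lit 10) leaf) (nat_lit 3446884811077) (nat_lit 8) (node leaf (nat_lit 3446884811797) (nat_lit 4) leaf)) (nat_lit 3446884811845) (nat_lit 10) (node (node leaf (nat_lit 3446884814869) (nat_lit 4) leaf) (nat_lit 3446884814917) (nat_lit 6) (node leaf (nat_lit 3446884815109) (nat_lit 2) leaf)))) (nat_lit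 3446885404741) (nat_lit 6) (node (node (node (node (node leaf (nat_lit 3446885404933) (nat_lit 2) leaf) (nat_lit 3446887764037) (nat_lit 6) leaf) (nat_lit 3446887764229) (nat_lit 2) (node leaf (nat_lit 3446888731717) (nat_lit 6) leaf)) (nat_lit 3446888731729) (nat_lit 6) (node (node leaf (nat_lit 3446888731909) (nat_lit 2) leaf) (nat_lit 3447022945876) (nat_lit 10) (node leaf (nat_lit 3447022946641) (nat_lit 0) leaf))) (nat_lit 3447023010073) (nat_lit 4) (node (node (node (node leaf (nat_lit 3447023010181) (nat_lit 2) leaf) (nat_lit 3447023010853) (nat_lit 10) leaf) (nat_lit 3447123609169) (nat_lit 0) (node leaf (nat_lit 3447274407508) (nat_lit 16) leaf)) (nat_lit 3447274410133) (nat_lit 16) (node (node leaf (nat_lit 3447274603669) (nat_lit 10) leaf) (nat_lit 3447274604053) (nat_lit 10) (node leaf (nat_lit 3447274604113) (nat_lit 0) leaf)))))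

noncomputable def L1_54 : Tr := (node (node (node (node (node (node leaf (nat_lit 3447274606741) (nat_lit 12) leaf) (nat_lit 3447284125765) (nat_lit 19) leaf) (nat_lit 3447284125957) (nat_lit 19) (node leaf (nat_lit 3447286174801) (nat_lit 18) leaf)) (nat_lit 3447286481941) (nat_lit 17) (node (node leaf (nat_lit 3447286485061) (nat_lit 17) leaf) (nat_lit 3447286485253) (nat_lit 17) (node leaf (nat_lit 3447286941265) (nat_lit 10) leaf))) (nat_lit 3447286942021) (nat_lit 14) (node (node (node (node leaf (nat_lit 3447286944337) (nat_lit 14) leaf) (nat_lit 3447286948933) (nat_lit 2) leaf) (nat_lit 3447286948945) (nat_lit 6) (node leaf (nat_lit 3447286949125) (nat_lit 2) leaf)) (nat_lit 3447286949137) (nat_lit 0) (node (node leaf (nat_lit 3447286960453) (nat_lit 8) leaf) (nat_lit 3447286961221) (nat_lit 2) (node leaf (nat_lit 3447286961233) (nat_lit 6) leaf)))) (nat_lit 3447286961413) (nat_lit 2) (node (node (node (node (node leaf (nat_lit 3447286961425) (nat_lit 0) leaf) (nat_lit 3447286961473) (nat_lit 23) leaf) (nat_lit 3447286989973)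 (nat_lit 16) (node leaf (nat_lit 3447286990417) (nat_lit 10) leaf)) (nat_lit 3447286993489) (nat_lit 16) (node (node leaf (nat_lit 3447287005333) (nat_lit 23) leaf) (nat_lit 3447287071765) (nat_lit 4) (node leaf (nat_lit 3447287071813) (nat_lit 10) leaf))) (nat_lit 3447287074837) (nat_lit 4) (node (node (node (node leaf (nat_lit 3447287074885) (nat_lit 6) leaf) (nat_lit 3447287075077) (nat_lit 8) leaf) (nat_lit 3447287187781) (nat_lit 23) (node leaf (nat_lit 3447287187793) (nat_lit 23) leaf)) (nat_lit 3447287190097) (nat_lit 12) (node (node leaf (nat_lit 3447287194885) (nat_lit 2) leaf) (nat_lit 3447287464213) (nat_lit 8) (node leaf (nat_lit 3447287464981) (nat_lit 10) leaf)))))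

noncomputable def L1_55 : Tr := node L1_53 (nat_lit 3447274604881) (nat_lit 24) L1_54

noncomputable def L1_56 : Tr := (node (node (node (node (node (node leaf (nat_lit 3447287468101) (nat_lit 6) leaf) (nat_lit 3447288057877) (nat_lit 4) leaf) (nat_lit 3447288057925) (nat_lit 6) (node leaf (nat_lit 3447290417173) (nat_lit 4) leaf)) (nat_lit 3447290417221) (nat_lit 6) (node (node leaf (nat_lit 3447291384133) (nat_lit 8) leaf) (nat_lit 3447291384853) (nat_lit 4) (node leaf (nat_lit 3447291384901) (nat_lit 6) leaf))) (nat_lit 3447321564481) (nat_lit 22) (node (node (node (node leaf (nat_lit 3447321596197) (nat_lit 22) leaf) (nat_lit 3447321608485) (nat_lit 22) leaf) (nat_lit 3447321608581) (nat_lit 22) (node leaf (nat_lit 3447321609253) (nat_lit 22) leaf)) (nat_lit 3447321609349) (nat_lit 22) (node (node leaf (nat_lit 3447321790801) (nat_lit 22) leaf) (nat_lit 3447321805861) (nat_lit 22) (node leaf (nat_lit 3447324710209) (nat_lit 21) leaf)))) (nat_lit 3447324754021) (nat_lit 21) (node (node (node (node (node leaf (nat_lit 3447324754069)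 (nat_lit 21) leaf) (nat_lit 3447324936517) (nat_lit 2) leaf) (nat_lit 3447324936529) (nat_lit 21) (node leaf (nat_lit 3447324950677) (nat_lit 21) leaf)) (nat_lit 3447325000069) (nat_lit 21) (node (node leaf (nat_lit 3447325000741) (nat_lit 21) leaf) (nat_lit 3447332087377) (nat_lit 16) (node leaf (nat_lit 3447332096404) (nat_lit 16) leaf))) (nat_lit 3447332111653) (nat_lit 16) (node (node (node (node leaf (nat_lit 3447332111941) (nat_lit 2) leaf) (nat_lit 3447332111953) (nat_lit 16) leaf) (nat_lit 3447332111956) (nat_lit 16) (node leaf (nat_lit 3447332114725) (nat_lit 16) leaf)) (nat_lit 3447332114821) (nat_lit 16) (node (node leaf (nat_lit 3447332114836) (nat_lit 16) leaf) (nat_lit 3447332115028) (nat_lit 16) (node leaf (nat_lit 3447332115529) (nat_lit 16) leaf)))))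

noncomputable def L1_57 : Tr := (node (node (node (node (node (node leaf (nat_lit 3447332116564) (nat_lit 16) leaf) (nat_lit 3447332119888) (nat_lit 16) leaf) (nat_lit 3447332163877) (nat_lit 15) (node leaf (nat_lit 3447332164165) (nat_lit 2) leaf)) (nat_lit 3447332164177) (nat_lit 7) (node (node leaf (nat_lit 3447332164180) (nat_lit 15) leaf) (nat_lit 3447332164633) (nat_lit 15) (node leaf (nat_lit 3447332164681) (nat_lit 15) leaf))) (nat_lit 3447332164705) (nat_lit 6) (node (node (node (node leaf (nat_lit 3447332164741) (nat_lit 2) leaf) (nat_lit 3447332164753) (nat_lit 15) leaf) (nat_lit 3447332164870) (nat_lit 2) (node leaf (nat_lit 3447332164873) (nat_lit 15) leaf)) (nat_lit 3447332164882) (nat_lit 15) (node (node leaf (nat_lit 3447332164897) (nat_lit 0) leaf) (nat_lit 3447332164900) (nat_lit 15) (node leaf (nat_lit 3447332165125) (nat_lit 2) leaf)))) (nat_lit 3447332280613) (nat_lit 12) (node (node (node (node (node leaf (nat_lit 3447332280709) (nat_lit 12) leaf) (nat_lit 3447332280724) (nat_lit 12) leaf) (nat_lit 3447332280916)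 (nat_lit 12) (node leaf (nat_lit 3447332283685) (nat_lit 18) leaf)) (nat_lit 3447332283796) (nat_lit 11) (node (node leaf (nat_lit 3447332283973) (nat_lit 2) leaf) (nat_lit 3447332283985) (nat_lit 0) (node leaf (nat_lit 3447332283988) (nat_lit 11) leaf))) (nat_lit 3447332290981) (nat_lit 14) (node (node (node (node leaf (nat_lit 3447332291749) (nat_lit 14) leaf) (nat_lit 3447332292901) (nat_lit 14) leaf) (nat_lit 3447332292937) (nat_lit 18) (node leaf (nat_lit 3447332292997) (nat_lit 14) leaf)) (nat_lit 3447332293012) (nat_lit 18) (node (node leaf (nat_lit 3447332293204) (nat_lit 18) leaf) (nat_lit 3447332299081) (nat_lit 18) (node leaf (nat_lit 3447332299153) (nat_lit 0) leaf)))))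

noncomputable def L1_58 : Tr := node L1_56 (nat_lit 3447332115589) (nat_lit 16) L1_57

noncomputable def L1_59 : Tr := node L1_55 (nat_lit 3447287468053) (nat_lit 4) L1_58

noncomputable def L1_60 : Tr := node L1_52 (nat_lit 3446884536913) (nat_lit 0) L1_59

noncomputable def L1_61 : Tr := node L1_45 (nat_lit 3438831550501) (nat_lit 3) L1_60

noncomputable def L1_62 : Tr := node L1_30 (nat_lit 3344253883924) (nat_lit 20) L1_61

noncomputable def L1_63 : Tr := (node (node (node (node (node (node leaf (nat_lit 3447332299924) (nat_lit 14) leaf) (nat_lit 3447332301076) (nat_lit 4) leaf) (nat_lit 3447332301121) (nat_lit 0) (node leaf (nat_lit 3447332308069) (nat_lit 6) leaf)) (nat_lit 3447332308261) (nat_lit 10) (node (node (node leaf (nat_lit 3447332308564) (nat_lit 10) leaf) (nat_lit 3447332309332) (nat_lit 9) leaf) (nat_lit 3447332311333) (nat_lit 8) (node leaf (nat_lit 3447332311429) (nat_lit 8) leaf))) (nat_lit 3447332311444) (nat_lit 8) (node (node (node (node leaf (nat_lit 3447332311636) (nat_lit 13) leaf) (nat_lit 3447332312089)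 (nat_lit 4) leaf) (nat_lit 3447332312101) (nat_lit 18) (node leaf (nat_lit 3447332312137) (nat_lit 18) leaf)) (nat_lit 3447332312209) (nat_lit 0) (node (node leaf (nat_lit 3447332312212) (nat_lit 18) leaf) (nat_lit 3447332312329) (nat_lit 18) (node leaf (nat_lit 3447332312338) (nat_lit 18) leaf)))) (nat_lit 3447332312356) (nat_lit 18) (node (node (node (node (node leaf (nat_lit 3447332313172) (nat_lit 6) leaf) (nat_lit 3447332313364) (nat_lit 18) leaf) (nat_lit 3447332313412) (nat_lit 18) (node leaf (nat_lit 3447332316484) (nat_lit 2) leaf)) (nat_lit 3447332340133) (nat_lit 8) (node (node leaf (nat_lit 3447332340373) (nat_lit 18) leaf) (nat_lit 3447332340901) (nat_lit 18) (node leaf (nat_lit 3447332341396) (nat_lit 10) leaf))) (nat_lit 3447332342053) (nat_lit 18) (node (node (node (node leaf (nat_lit 3447332348308) (nat_lit 8) leaf) (nat_lit 3447332348500) (nat_lit 18) leaf) (nat_lit 3447332349460) (nat_lit 18) (node leaf (nat_lit 3447332407633) (nat_lit 0) leaf)) (nat_lit 3447332407636) (nat_lit 9) (node (node leaf (nat_lit 3447332409445)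 (nat_lit 6) leaf) (nat_lit 3447332409637) (nat_lit 8) (node leaf (nat_lit 3447332409748) (nat_lit 18) leaf)))))

noncomputable def L1_64 : Tr := (node (node (node (node (node (node leaf (nat_lit 3447332410393) (nat_lit 4) leaf) (nat_lit 3447332410630) (nat_lit 2) leaf) (nat_lit 3447332410633) (nat_lit 18) (node leaf (nat_lit 3447332421913) (nat_lit 4) leaf)) (nat_lit 3447332422021) (nat_lit 2) (node (node leaf (nat_lit 3447332422036) (nat_lit 8) leaf) (nat_lit 3447332422228) (nat_lit 18) (node leaf (nat_lit 3447332422693) (nat_lit 18) leaf))) (nat_lit 3447332422921) (nat_lit 18) (node (node (node (node leaf (nat_lit 3447332423188) (nat_lit 10) leaf) (nat_lit 3447332423953) (nat_lit 4) leaf) (nat_lit 3447332425765) (nat_lit 18) (node leaf (nat_lit 3447332425876) (nat_lit 18) leaf)) (nat_lit 3447332574529) (nat_lit 13) (node (node leaf (nat_lit 3447332574532) (nat_lit 13) leaf) (nat_lit 3447332602981) (nat_lit 6) (node leaf (nat_lit 3447332603173) (nat_lit 10) leaf)))) (nat_lit 3447332603413) (nat_lit 4) (node (node (node (node (node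 leaf (nat_lit 3447332603461) (nat_lit 2) leaf) (nat_lit 3447332603473) (nat_lit 0) leaf) (nat_lit 3447332603476) (nat_lit 10) (node leaf (nat_lit 3447332606101) (nat_lit 12) leaf)) (nat_lit 3447332606245) (nat_lit 12) (node (node leaf (nat_lit 3447332606341) (nat_lit 12) leaf) (nat_lit 3447332606545) (nat_lit 0) (node leaf (nat_lit 3447332606548) (nat_lit 12) leaf))) (nat_lit 3447332607013) (nat_lit 12) (node (node (node (node leaf (nat_lit 3447332608081) (nat_lit 12) leaf) (nat_lit 3447332608324) (nat_lit 12) leaf) (nat_lit 3447332611393) (nat_lit 11) (node leaf (nat_lit 3447332611396) (nat_lit 2) leaf)) (nat_lit 3447332611408) (nat_lit 11) (node (node leaf (nat_lit 3447332618533) (nat_lit 8) leaf) (nat_lit 3447332618629) (nat_lit 8) (node leaf (nat_lit 3447332618833) (nat_lit 0) leaf)))))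

noncomputable def L1_65 : Tr := node L1_63 (nat_lit 3447332409940) (nat_lit 12) L1_64

noncomputable def L1_66 : Tr := (node (node (node (node (node (node leaf (nat_lit 3447332619289) (nat_lit 10) leaf) (nat_lit 3447332619301) (nat_lit 10) leaf) (nat_lit 3447332619337) (nat_lit 10) (node leaf (nat_lit 3447332619397) (nat_lit 2) leaf)) (nat_lit 3447332619409) (nat_lit 0) (node (node leaf (nat_lit 3447332619412) (nat_lit 10) leaf) (nat_lit 3447332619796) (nat_lit 10) (node leaf (nat_lit 3447332620369) (nat_lit 0) leaf))) (nat_lit 3447332620561) (nat_lit 4) (node (node (node (node leaf (nat_lit 3447332620564) (nat_lit 4) leaf) (nat_lit 3447332620609) (nat_lit 0) leaf) (nat_lit 3447332620624) (nat_lit 17) (node leaf (nat_lit 3447332622361) (nat_lit 4) leaf)) (nat_lit 3447332622373) (nat_lit 3) (node (node leaf (nat_lit 3447332622409) (nat_lit 6) leaf) (nat_lit 3447332622433) (nat_lit 6) (node leaf (nat_lit 3447332622436) (nat_lit 6) leaf)))) (nat_lit 3447332622484) (nat_lit 17) (node (node (node (node (node leaf (nat_lit 3447332622598)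 (nat_lit 8) leaf) (nat_lit 3447332622601) (nat_lit 8) leaf) (nat_lit 3447332622625) (nat_lit 0) (node leaf (nat_lit 3447332622868) (nat_lit 4) leaf)) (nat_lit 3447332623369) (nat_lit 17) (node (node leaf (nat_lit 3447332626756) (nat_lit 2) leaf) (nat_lit 3447332635969) (nat_lit 0) (node leaf (nat_lit 3447332635972) (nat_lit 10) leaf))) (nat_lit 3447332639041) (nat_lit 0) (node (node (node (node leaf (nat_lit 3447333067348) (nat_lit 12) leaf) (nat_lit 3447333070117) (nat_lit 3) leaf) (nat_lit 3447333070153) (nat_lit 11) (node leaf (nat_lit 3447333070177) (nat_lit 20) leaf)) (nat_lit 3447333070213) (nat_lit 20) (node (node leaf (nat_lit 3447333070228) (nat_lit 11) leaf) (nat_lit 3447333077653) (nat_lit 14) (node leaf (nat_lit 3447333079369) (nat_lit 20) leaf)))))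

noncomputable def L1_67 : Tr := (node (node (node (node (node (node leaf (nat_lit 3447333079444) (nat_lit 14) leaf) (nat_lit 3447333079636) (nat_lit 20) leaf) (nat_lit 3447333085780) (nat_lit 14) (node leaf (nat_lit 3447333086245) (nat_lit 20) leaf)) (nat_lit 3447333086473) (nat_lit 14) (node (node leaf (nat_lit 3447333097876) (nat_lit 8) leaf) (nat_lit 3447333098068) (nat_lit 7) (node leaf (nat_lit 3447333098521) (nat_lit 4) leaf))) (nat_lit 3447333098533) (nat_lit 3) (node (node (node (node leaf (nat_lit 3447333098569) (nat_lit 6) leaf) (nat_lit 3447333098593) (nat_lit 6) leaf) (nat_lit 3447333098629) (nat_lit 2) (node leaf (nat_lit 3447333098644) (nat_lit 20) leaf)) (nat_lit 3447333098758) (nat_lit 2) (node (node leaf (nat_lit 3447333098761) (nat_lit 20) leaf) (nat_lit 3447333099841) (nat_lit 0) (node leaf (nat_lit 3447333126565) (nat_lit 8) leaf)))) (nat_lit 3447333127333) (nat_lit 16) (node (node (node (node (node leaf (nat_lit 3447333128485) (nat_lit 16) leaf) (nat_lit 3447333128596) (nat_lit 20) leaf) (nat_lit 3447333128788)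 (nat_lit 20) (node leaf (nat_lit 3447333130900) (nat_lit 16) leaf)) (nat_lit 3447333135508) (nat_lit 16) (node (node leaf (nat_lit 3447333197065) (nat_lit 12) leaf) (nat_lit 3447333208357) (nat_lit 8) (node leaf (nat_lit 3447333209236) (nat_lit 10) leaf))) (nat_lit 3447333210448) (nat_lit 9) (node (node (node (node leaf (nat_lit 3447333212308) (nat_lit 15) leaf) (nat_lit 3447333212752) (nat_lit 20) leaf) (nat_lit 3447333213193) (nat_lit 1) (node leaf (nat_lit 3447333213202) (nat_lit 20) leaf)) (nat_lit 3447333323173) (nat_lit 8) (node (node leaf (nat_lit 3447333324436) (nat_lit 10) leaf) (nat_lit 3447333359764) (nat_lit 20) (node leaf (nat_lit 3447333605524) (nat_lit 20) leaf)))))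

noncomputable def L1_68 : Tr := node L1_66 (nat_lit 3447333079441) (nat_lit 0) L1_67

noncomputable def L1_69 : Tr := node L1_65 (nat_lit 3447332618836) (nat_lit 7) L1_68

noncomputable def L1_70 : Tr := (node (node (node (node (node (node leaf (nat_lit 3447334176037) (nat_lit 10) leaf) (nat_lit 3447334176325) (nat_lit 2) leaf) (nat_lit 3447334176337) (nat_lit 10) (node leaf (nat_lit 3447334177105) (nat_lit 16) leaf)) (nat_lit 3447334178917) (nat_lit 6) (node (node leaf (nat_lit 3447334179109) (nat_lit 12) leaf) (nat_lit 3447334181137) (nat_lit 12) (node leaf (nat_lit 3447334181185) (nat_lit 12) leaf))) (nat_lit 3447334184260) (nat_lit 2) (node (node (node (node leaf (nat_lit 3447334191205) (nat_lit 6) leaf) (nat_lit 3447334191253) (nat_lit 5) leaf) (nat_lit 3447334191397) (nat_lit 8) (node leaf (nat_lit 3447334191493) (nat_lit 8) leaf)) (nat_lit 3447334191505) (nat_lit 8) (node (node leaf (nat_lit 3447334191700) (nat_lit 16) leaf) (nat_lit 3447334192153) (nat_lit 4) (node leaf (nat_lit 3447334192165) (nat_lit 16) leaf)))) (nat_lit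 3447334192261) (nat_lit 2) (node (node (node (node (node leaf (nat_lit 3447334193233) (nat_lit 6) leaf) (nat_lit 3447334195237) (nat_lit 16) leaf) (nat_lit 3447334208833) (nat_lit 10) (node leaf (nat_lit 3447334373713) (nat_lit 0) leaf)) (nat_lit 3447334387861) (nat_lit 5) (node (node leaf (nat_lit 3447334388005) (nat_lit 8) leaf) (nat_lit 3447334388113) (nat_lit 14) (node leaf (nat_lit 3447334388305) (nat_lit 0) leaf))) (nat_lit 3447334388308) (nat_lit 14) (node (node (node (node leaf (nat_lit 3447334389841) (nat_lit 6) leaf) (nat_lit 3447334437013) (nat_lit 5) leaf) (nat_lit 3447334437145) (nat_lit 4) (node leaf (nat_lit 3447334437157) (nat_lit 8) leaf)) (nat_lit 3447334437253) (nat_lit 2) (node (node leaf (nat_lit 3447334437457) (nat_lit 0) leaf) (nat_lit 3447334437925) (nat_lit 10) (node leaf (nat_lit 3447336215845) (nat_lit 3) leaf)))))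

noncomputable def L1_71 : Tr := (node (node (node (node (node (node leaf (nat_lit 3447336223381) (nat_lit 14) leaf) (nat_lit 3447336224293) (nat_lit 14) leaf) (nat_lit 3447336225097) (nat_lit 14) (node leaf (nat_lit 3447336225364) (nat_lit 14) leaf)) (nat_lit 3447336231205) (nat_lit 8) (node (node leaf (nat_lit 3447336243796) (nat_lit 7) leaf) (nat_lit 3447336244372) (nat_lit 13) (node leaf (nat_lit 3447336244489) (nat_lit 13) leaf))) (nat_lit 3447336273061) (nat_lit 16) (node (node (node (node leaf (nat_lit 3447336274213) (nat_lit 16) leaf) (nat_lit 3447336280357) (nat_lit 16) leaf) (nat_lit 3447336281236) (nat_lit 11) (node leaf (nat_lit 3447336281353) (nat_lit 16) leaf)) (nat_lit 3447336290452) (nat_lit 16) (node (node leaf (nat_lit 3447336358036) (nat_lit 5) leaf) (nat_lit 3447336358180) (nat_lit 8) (node leaf (nat_lit 3447336358918) (nat_lit 2) leaf)))) (nat_lit 3447336468901) (nat_lit 8) (node (node (node (node (node leaf (nat_lit 3447336469669) (nat_lit 18) leaf) (nat_lit 3447336470821) (nat_lit 18) leaf) (nat_lit 3447336474772)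 (nat_lit 12) (node leaf (nat_lit 3447336485524) (nat_lit 18) leaf)) (nat_lit 3447337255333) (nat_lit 8) (node (node leaf (nat_lit 3447340438801) (nat_lit 4) leaf) (nat_lit 3447340438849) (nat_lit 13) (node leaf (nat_lit 3447340467301) (nat_lit 6) leaf))) (nat_lit 3447340467733) (nat_lit 4) (node (node (node (node leaf (nat_lit 3447340467781) (nat_lit 2) leaf) (nat_lit 3447340470373) (nat_lit 12) leaf) (nat_lit 3447340470421) (nat_lit 12) (node leaf (nat_lit 3447340470565) (nat_lit 12) leaf)) (nat_lit 3447340472401) (nat_lit 12) (node (node leaf (nat_lit 3447340475713) (nat_lit 0) leaf) (nat_lit 3447340482709) (nat_lit 16) (node leaf (nat_lit 3447340482853) (nat_lit 16) leaf)))))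

noncomputable def L1_72 : Tr := node L1_70 (nat_lit 3447336215881) (nat_lit 11) L1_71

noncomputable def L1_73 : Tr := (node (node (node (node (node (node leaf (nat_lit 3447340667476) (nat_lit 12) leaf) (nat_lit 3447340669009) (nat_lit 12) leaf) (nat_lit 3447340679317) (nat_lit 14) (node leaf (nat_lit 3447340679761) (nat_lit 0) leaf)) (nat_lit 3447340728613) (nat_lit 8) (node (node leaf (nat_lit 3447349875985) (nat_lit 4) leaf) (nat_lit 3447349876033) (nat_lit 20) (node leaf (nat_lit 3447349905745) (nat_lit 16) leaf))) (nat_lit 3447349907557) (nat_lit 12) (node (node (node (node leaf (nat_lit 3447349907605) (nat_lit 12) leaf) (nat_lit 3447349907749) (nat_lit 20) leaf) (nat_lit 3447349919893) (nat_lit 16) (node leaf (nat_lit 3447353051473) (nat_lit 16) leaf)) (nat_lit 3447353053477) (nat_lit 12) (node (node leaf (nat_lit 3447353065573) (nat_lit 6) leaf) (nat_lit 3447353065621) (nat_lit 5) (node leaf (nat_lit 3447353065765) (nat_lit 8) leaf)))) (nat_lit 3447353065861) (nat_lit 8) (node (node (node (node (node leaf (nat_lit 3447353066533)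 (nat_lit 16) leaf) (nat_lit 3447353248081) (nat_lit 18) leaf) (nat_lit 3447353262229) (nat_lit 18) (node leaf (nat_lit 3447384789061) (nat_lit 19) leaf)) (nat_lit 3447386838085) (nat_lit 2) (node (node leaf (nat_lit 3447387144469) (nat_lit 8) leaf) (nat_lit 3447387145237) (nat_lit 17) (node leaf (nat_lit 3447387148309) (nat_lit 4) leaf))) (nat_lit 3447387148357) (nat_lit 6) (node (node (node (node leaf (nat_lit 3447387593029) (nat_lit 12) leaf) (nat_lit 3447387604117) (nat_lit 14) leaf) (nat_lit 3447387604561) (nat_lit 10) (node leaf (nat_lit 3447387605269) (nat_lit 4) leaf)) (nat_lit 3447387611473) (nat_lit 8) (node (node leaf (nat_lit 3447387612229) (nat_lit 2) leaf) (nat_lit 3447387612241) (nat_lit 6) (node leaf (nat_lit 3447387623701) (nat_lit 4) leaf)))))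

noncomputable def L1_74 : Tr := (node (node (node (node (node (node leaf (nat_lit 3447387624529) (nat_lit 6) leaf) (nat_lit 3447387624721) (nat_lit 4) leaf) (nat_lit 3447387652501) (nat_lit 8) (node leaf (nat_lit 3447387653713) (nat_lit 10) leaf)) (nat_lit 3447387654469) (nat_lit 16) (node (node leaf (nat_lit 3447387654481) (nat_lit 16) leaf) (nat_lit 3447387661573) (nat_lit 16) (node leaf (nat_lit 3447387722821) (nat_lit 12) leaf))) (nat_lit 3447387735061) (nat_lit 4) (node (node (node (node leaf (nat_lit 3447387735109) (nat_lit 10) leaf) (nat_lit 3447388115989) (nat_lit 12) leaf) (nat_lit 3447388718101) (nat_lit 10) (node leaf (nat_lit 3447392047381) (nat_lit 4) leaf)) (nat_lit 3447392048149) (nat_lit 4) (node (node leaf (nat_lit 3447400236181) (nat_lit 10) leaf) (nat_lit 3447400236625) (nat_lit 0) (node leaf (nat_lit 3447400237393) (nat_lit 16) leaf)))) (nat_lit 3447400239253) (nat_lit 20) (node (node (node (node (node leaf (nat_lit 3447400434001) (nat_lit 20) leaf) (nat_lit 3447403381333) (nat_lit 16) leaf) (nat_lit 3447403381909)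 (nat_lit 10) (node leaf (nat_lit 3447403384981) (nat_lit 16) leaf)) (nat_lit 3447403577941) (nat_lit 7) (node (node leaf (nat_lit 3447403578517) (nat_lit 10) leaf) (nat_lit 3447404364373) (nat_lit 7) (node leaf (nat_lit 3447404364949) (nat_lit 10) leaf))) (nat_lit 3447417016597) (nat_lit 16) (node (node (node (node leaf (nat_lit 3447417017365) (nat_lit 16) leaf) (nat_lit 3447417213013) (nat_lit 6) leaf) (nat_lit 3447417213205) (nat_lit 8) (node leaf (nat_lit 3470779483732) (nat_lit 28) leaf)) (nat_lit 3470779484497) (nat_lit 28) (node (node leaf (nat_lit 3470779548037) (nat_lit 28) leaf) (nat_lit 3470779548709) (nat_lit 28) (node leaf (nat_lit 3471031142740) (nat_lit 9) leaf)))))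

noncomputable def L1_75 : Tr := node L1_73 (nat_lit 3447387624517) (nat_lit 2) L1_74

noncomputable def L1_76 : Tr := node L1_72 (nat_lit 3447340483153) (nat_lit 16) L1_75

noncomputable def L1_77 : Tr := node L1_69 (nat_lit 3447334147393) (nat_lit 0) L1_76

noncomputable def L1_78 : Tr := (node (node (node (node (node (node leaf (nat_lit 3471031144852) (nat_lit 12) leaf) (nat_lit 3471031144981) (nat_lit 12) leaf) (nat_lit 3471031145044) (nat_lit 12) (node leaf (nat_lit 3471031146577) (nat_lit 0) leaf)) (nat_lit 3471031146580) (nat_lit 6) (node (node leaf (nat_lit 3471031146769) (nat_lit 0) leaf) (nat_lit 3471031156885) (nat_lit 14) (node leaf (nat_lit 3471031157329) (nat_lit 0) leaf))) (nat_lit 3471031157332) (nat_lit 14) (node (node (node (node leaf (nat_lit 3471031206481) (nat_lit 0) leaf) (nat_lit 3471040663813) (nat_lit 19) leaf) (nat_lit 3471040663825) (nat_lit 19) (node leaf (nat_lit 3471043023109) (nat_lit 17) leaf)) (nat_lit 3471043023121) (nat_lit 17) (node (node leaf (nat_lit 3471043479124) (nat_lit 14) leaf) (nat_lit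 3471043479889) (nat_lit 14) (node leaf (nat_lit 3471043486801) (nat_lit 6) leaf)))) (nat_lit 3471043486981) (nat_lit 2) (node (node (node (node (node leaf (nat_lit 3471043486993) (nat_lit 4) leaf) (nat_lit 3471043486996) (nat_lit 4) leaf) (nat_lit 3471043487041) (nat_lit 0) (node leaf (nat_lit 3471043499077) (nat_lit 2) leaf)) (nat_lit 3471043499089) (nat_lit 6) (node (node leaf (nat_lit 3471043499269) (nat_lit 2) leaf) (nat_lit 3471043499281) (nat_lit 4) (node leaf (nat_lit 3471043499284) (nat_lit 4) leaf))) (nat_lit 3471043529029) (nat_lit 2) (node (node (node (node leaf (nat_lit 3471043530901) (nat_lit 16) leaf) (nat_lit 3471043531348) (nat_lit 16) leaf) (nat_lit 3471043544101) (nat_lit 16) (node leaf (nat_lit 3471043609669) (nat_lit 6) leaf)) (nat_lit 3471043609861) (nat_lit 10) (node (node leaf (nat_lit 3471043612933) (nat_lit 2) leaf) (nat_lit 3471043612945) (nat_lit 8) (node leaf (nat_lit 3471043613701) (nat_lit 2) leaf)))))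

noncomputable def L1_79 : Tr := (node (node (node (node (node (node leaf (nat_lit 3471043725649) (nat_lit 9) leaf) (nat_lit 3471043725652) (nat_lit 9) leaf) (nat_lit 3471043727653) (nat_lit 8) (node leaf (nat_lit 3471043727953) (nat_lit 0) leaf)) (nat_lit 3471043727956) (nat_lit 12) (node (node leaf (nat_lit 3471043729489) (nat_lit 0) leaf) (nat_lit 3471043729492) (nat_lit 12) (node leaf (nat_lit 3471043732753) (nat_lit 0) leaf))) (nat_lit 3471043739797) (nat_lit 14) (node (node (node (node leaf (nat_lit 3471043740037) (nat_lit 14) leaf) (nat_lit 3471043740241) (nat_lit 0) leaf) (nat_lit 3471043740244) (nat_lit 14) (node leaf (nat_lit 3471043740709) (nat_lit 14) leaf)) (nat_lit 3471043789093) (nat_lit 8) (node (node leaf (nat_lit 3471043789189) (nat_lit 8) leaf) (nat_lit 3471043789861) (nat_lit 10) (node leaf (nat_lit 3471044002117) (nat_lit 8) leaf)))) (nat_lit 3471044002837) (nat_lit 4) (node (node (node (node (node leaf (nat_lit 3471044002885) (nat_lit 6) leaf) (nat_lit 3471044005957) (nat_lit 6) leaf) (nat_lit 3471044006149)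 (nat_lit 2) (node leaf (nat_lit 3471044595781) (nat_lit 6) leaf)) (nat_lit 3471044595973) (nat_lit 2) (node (node leaf (nat_lit 3471046955077) (nat_lit 6) leaf) (nat_lit 3471046955269) (nat_lit 2) (node leaf (nat_lit 3471047922757) (nat_lit 6) leaf))) (nat_lit 3471047922769) (nat_lit 6) (node (node (node (node leaf (nat_lit 3471047922949) (nat_lit 2) leaf) (nat_lit 3471584854309) (nat_lit 8) leaf) (nat_lit 3472591423825) (nat_lit 26) (node leaf (nat_lit 3472591487365) (nat_lit 26) leaf)) (nat_lit 3472591488037) (nat_lit 26) (node (node leaf (nat_lit 3472641754261) (nat_lit 10) leaf) (nat_lit 3472641754645) (nat_lit 10) (node leaf (nat_lit 3472641754705) (nat_lit 25) leaf)))))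

noncomputable def L1_80 : Tr := node L1_78 (nat_lit 3471043724881) (nat_lit 10) L1_79

noncomputable def L1_81 : Tr := (node (node (node (node (node (node leaf (nat_lit 3472641757333) (nat_lit 12) leaf) (nat_lit 3472641757585) (nat_lit 0) leaf) (nat_lit 3472641757777) (nat_lit 12) (node leaf (nat_lit 3472641759313) (nat_lit 6) leaf)) (nat_lit 3472641770065) (nat_lit 14) (node (node leaf (nat_lit 3472651276357) (nat_lit 19) leaf) (nat_lit 3472651276549) (nat_lit 19) (node leaf (nat_lit 3472653635653) (nat_lit 17) leaf))) (nat_lit 3472653635845) (nat_lit 17) (node (node (node (node leaf (nat_lit 3472654091857) (nat_lit 0) leaf) (nat_lit 3472654092613) (nat_lit 2) leaf) (nat_lit 3472654094485) (nat_lit 14) (node leaf (nat_lit 3472654099525) (nat_lit 2) leaf)) (nat_lit 3472654099717) (nat_lit 2) (node (node leaf (nat_lit 3472654099729) (nat_lit 0) leaf) (nat_lit 3472654111045) (nat_lit 8) (node leaf (nat_lit 3472654111765) (nat_lit 4) leaf)))) (nat_lit 3472654111813) (nat_lit 2) (node (node (node (node (node leaf (nat_lit 3472654111825)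 (nat_lit 6) leaf) (nat_lit 3472654112005) (nat_lit 2) leaf) (nat_lit 3472654112017) (nat_lit 0) (node leaf (nat_lit 3472654140565) (nat_lit 10) leaf)) (nat_lit 3472654141009) (nat_lit 16) (node (node leaf (nat_lit 3472654141012) (nat_lit 10) leaf) (nat_lit 3472654141780) (nat_lit 16) (node leaf (nat_lit 3472654144081) (nat_lit 0) leaf))) (nat_lit 3472654144084) (nat_lit 16) (node (node (node (node leaf (nat_lit 3472654155925) (nat_lit 16) leaf) (nat_lit 3472654156069) (nat_lit 8) leaf) (nat_lit 3472654221637) (nat_lit 8) (node leaf (nat_lit 3472654222357) (nat_lit 4) leaf)) (nat_lit 3472654222405) (nat_lit 6) (node (node leaf (nat_lit 3472654225477) (nat_lit 6) leaf) (nat_lit 3472654225669) (nat_lit 8) (node leaf (nat_lit 3472654337317) (nat_lit 10) leaf)))))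

noncomputable def L1_82 : Tr := (node (node (node (node (node (node leaf (nat_lit 3472654338373) (nat_lit 2) leaf) (nat_lit 3472654338385) (nat_lit 0) leaf) (nat_lit 3472654338388) (nat_lit 9) (node leaf (nat_lit 3472654340197) (nat_lit 6) leaf)) (nat_lit 3472654340689) (nat_lit 0) (node (node leaf (nat_lit 3472654340692) (nat_lit 12) leaf) (nat_lit 3472654345477) (nat_lit 2) (node leaf (nat_lit 3472654352533) (nat_lit 5) leaf))) (nat_lit 3472654352677) (nat_lit 8) (node (node (node (node leaf (nat_lit 3472654401685) (nat_lit 5) leaf) (nat_lit 3472654401829) (nat_lit 8) leaf) (nat_lit 3472654614805) (nat_lit 4) (node leaf (nat_lit 3472654615573) (nat_lit 4) leaf)) (nat_lit 3472654615621) (nat_lit 10) (node (node leaf (nat_lit 3472654618645) (nat_lit 4) leaf) (nat_lit 3472654618693) (nat_lit 6) (node leaf (nat_lit 3472655205445) (nat_lit 10) leaf)))) (nat_lit 3472655208469) (nat_lit 4) (node (node (node (node (node leaf (nat_lit 3472655208517) (nat_lit 6) leaf) (nat_lit 3472657564741) (nat_lit 10) leaf) (nat_lit 3472657567765) (nat_lit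 4) (node leaf (nat_lit 3472657567813) (nat_lit 6) leaf)) (nat_lit 3472658534725) (nat_lit 8) (node (node leaf (nat_lit 3472658535445) (nat_lit 4) leaf) (nat_lit 3472658535493) (nat_lit 2) (node leaf (nat_lit 3472792749649) (nat_lit 0) leaf))) (nat_lit 3472792813717) (nat_lit 5) (node (node (node (node leaf (nat_lit 3472792813861) (nat_lit 8) leaf) (nat_lit 3473044210837) (nat_lit 16) leaf) (nat_lit 3473044211281) (nat_lit 16) (node leaf (nat_lit 3473044212049) (nat_lit 16) leaf)) (nat_lit 3473044213909) (nat_lit 16) (node (node leaf (nat_lit 3473044406869) (nat_lit 7) leaf) (nat_lit 3473044407445) (nat_lit 10) (node leaf (nat_lit 3473044408645) (nat_lit 2) leaf)))))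

noncomputable def L1_83 : Tr := node L1_81 (nat_lit 3472654337605) (nat_lit 2) L1_82

noncomputable def L1_84 : Tr := node L1_80 (nat_lit 3472641755473) (nat_lit 9) L1_83

noncomputable def L1_85 : Tr := (node (node (node (node (node (node leaf (nat_lit 3473053929493) (nat_lit 19) leaf) (nat_lit 3473053929541) (nat_lit 19) leaf) (nat_lit 3473055978565) (nat_lit 18) (node leaf (nat_lit 3473056284949) (nat_lit 17) leaf)) (nat_lit 3473056288789) (nat_lit 17) (node (node leaf (nat_lit 3473056288837) (nat_lit 17) leaf) (nat_lit 3473056733509) (nat_lit 12) (node leaf (nat_lit 3473056744597) (nat_lit 14) leaf))) (nat_lit 3473056745029) (nat_lit 2) (node (node (node (node leaf (nat_lit 3473056745041) (nat_lit 14) leaf) (nat_lit 3473056745749) (nat_lit 4) leaf) (nat_lit 3473056751941) (nat_lit 8) (node leaf (nat_lit 3473056752661) (nat_lit 4) leaf)) (nat_lit 3473056752709) (nat_lit 6) (node (node leaf (nat_lit 3473056752721) (nat_lit 6) leaf) (nat_lit 3473056752901) (nat_lit 2) (node leaf (nat_lit 3473056764181) (nat_lit 4) leaf)))) (nat_lit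 3473056764949) (nat_lit 4) (node (node (node (node (node leaf (nat_lit 3473056764997) (nat_lit 2) leaf) (nat_lit 3473056765009) (nat_lit 6) leaf) (nat_lit 3473056765201) (nat_lit 23) (node leaf (nat_lit 3473056792981) (nat_lit 8) leaf)) (nat_lit 3473056794181) (nat_lit 2) (node (node leaf (nat_lit 3473056794193) (nat_lit 10) leaf) (nat_lit 3473056794949) (nat_lit 16) (node leaf (nat_lit 3473056794961) (nat_lit 23) leaf))) (nat_lit 3473056796773) (nat_lit 23) (node (node (node (node leaf (nat_lit 3473056796821) (nat_lit 12) leaf) (nat_lit 3473056796965) (nat_lit 23) leaf) (nat_lit 3473056797265) (nat_lit 16) (node leaf (nat_lit 3473056802053) (nat_lit 16) leaf)) (nat_lit 3473056809109) (nat_lit 23) (node (node leaf (nat_lit 3473056863253) (nat_lit 12) leaf) (nat_lit 3473056863301) (nat_lit 12) (node leaf (nat_lit 3473056874773) (nat_lit 8) leaf)))))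

noncomputable def L1_86 : Tr := (node (node (node (node (node (node leaf (nat_lit 3473056875589) (nat_lit 10) leaf) (nat_lit 3473056878613) (nat_lit 4) leaf) (nat_lit 3473056878661) (nat_lit 6) (node leaf (nat_lit 3473057255701) (nat_lit 12) leaf)) (nat_lit 3473057256469) (nat_lit 12) (node (node leaf (nat_lit 3473057267797) (nat_lit 6) leaf) (nat_lit 3473057268757) (nat_lit 10) (node leaf (nat_lit 3473057271829) (nat_lit 4) leaf))) (nat_lit 3473057858581) (nat_lit 10) (node (node (node (node leaf (nat_lit 3473057861653) (nat_lit 4) leaf) (nat_lit 3473060217877) (nat_lit 10) leaf) (nat_lit 3473060220949) (nat_lit 4) (node leaf (nat_lit 3473061187861) (nat_lit 8) leaf)) (nat_lit 3473061188629) (nat_lit 4) (node (node leaf (nat_lit 3473091397969) (nat_lit 22) leaf) (nat_lit 3473091412069) (nat_lit 22) (node leaf (nat_lit 3473091412117) (nat_lit 22) leaf)))) (nat_lit 3473091594577) (nat_lit 22) (node (node (node (node (node leaf (nat_lit 3473091608725) (nat_lit 22) leaf) (nat_lit 3473094513937) (nat_lit 21) leaf) (nat_lit 3473094513985)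 (nat_lit 21) (node leaf (nat_lit 3473094543697) (nat_lit 16) leaf)) (nat_lit 3473094545509) (nat_lit 21) (node (node leaf (nat_lit 3473094545701) (nat_lit 21) leaf) (nat_lit 3473094557845) (nat_lit 21) (node leaf (nat_lit 3473094803605) (nat_lit 5) leaf))) (nat_lit 3473094803749) (nat_lit 8) (node (node (node (node leaf (nat_lit 3473101887877) (nat_lit 16) leaf) (nat_lit 3473101887892) (nat_lit 12) leaf) (nat_lit 3473101890853) (nat_lit 16) (node leaf (nat_lit 3473101891141) (nat_lit 16) leaf)) (nat_lit 3473101891153) (nat_lit 16) (node (node leaf (nat_lit 3473101891156) (nat_lit 16) leaf) (nat_lit 3473101900105) (nat_lit 16) (node leaf (nat_lit 3473101900177) (nat_lit 0) leaf)))))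

noncomputable def L1_87 : Tr := node L1_85 (nat_lit 3473056875541) (nat_lit 4) L1_86

noncomputable def L1_88 : Tr := (node (node (node (node (node (node leaf (nat_lit 3473101915429) (nat_lit 16) leaf) (nat_lit 3473101915525) (nat_lit 10) leaf) (nat_lit 3473101915669) (nat_lit 4) (node leaf (nat_lit 3473101915717) (nat_lit 2) leaf)) (nat_lit 3473101915729) (nat_lit 0) (node (node leaf (nat_lit 3473101915732) (nat_lit 16) leaf) (nat_lit 3473101918357) (nat_lit 5) (node leaf (nat_lit 3473101918501) (nat_lit 16) leaf))) (nat_lit 3473101918597) (nat_lit 8) (node (node (node (node leaf (nat_lit 3473101918609) (nat_lit 0) leaf) (nat_lit 3473101918804) (nat_lit 16) leaf) (nat_lit 3473101919257) (nat_lit 4) (node leaf (nat_lit 3473101919269) (nat_lit 16) leaf)) (nat_lit 3473101920337) (nat_lit 0) (node (node leaf (nat_lit 3473101923652) (nat_lit 2) leaf) (nat_lit 3473101967461) (nat_lit 6) (node leaf (nat_lit 3473101967653) (nat_lit 15) leaf)))) (nat_lit 3473101967713) (nat_lit 8) (node (node (node (node (node leaf (nat_lit 3473101967749)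 (nat_lit 8) leaf) (nat_lit 3473101967764) (nat_lit 15) leaf) (nat_lit 3473101967893) (nat_lit 4) (node leaf (nat_lit 3473101967941) (nat_lit 7) leaf)) (nat_lit 3473101967953) (nat_lit 0) (node (node leaf (nat_lit 3473101968409) (nat_lit 4) leaf) (nat_lit 3473101968421) (nat_lit 3) (node leaf (nat_lit 3473101968457) (nat_lit 6) leaf))) (nat_lit 3473101968466) (nat_lit 6) (node (node (node (node leaf (nat_lit 3473101968481) (nat_lit 6) leaf) (nat_lit 3473101968484) (nat_lit 6) leaf) (nat_lit 3473101968517) (nat_lit 2) (node leaf (nat_lit 3473101968646) (nat_lit 2) leaf)) (nat_lit 3473101968649) (nat_lit 15) (node (node leaf (nat_lit 3473101968673) (nat_lit 0) leaf) (nat_lit 3473102084389) (nat_lit 12) (node leaf (nat_lit 3473102084485) (nat_lit 12) leaf)))))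

noncomputable def L1_89 : Tr := (node (node (node (node (node (node leaf (nat_lit 3473102087269) (nat_lit 6) leaf) (nat_lit 3473102087461) (nat_lit 18) leaf) (nat_lit 3473102087497) (nat_lit 11) (node leaf (nat_lit 3473102087557) (nat_lit 18) leaf)) (nat_lit 3473102087569) (nat_lit 11) (node (node leaf (nat_lit 3473102087701) (nat_lit 4) leaf) (nat_lit 3473102087749) (nat_lit 2) (node leaf (nat_lit 3473102087761) (nat_lit 0) leaf))) (nat_lit 3473102087764) (nat_lit 11) (node (node (node (node leaf (nat_lit 3473102094757) (nat_lit 8) leaf) (nat_lit 3473102094997) (nat_lit 14) leaf) (nat_lit 3473102096677) (nat_lit 14) (node leaf (nat_lit 3473102096713) (nat_lit 18) leaf)) (nat_lit 3473102096785) (nat_lit 18) (node (node leaf (nat_lit 3473102096980) (nat_lit 18) leaf) (nat_lit 3473102102809) (nat_lit 4) (node leaf (nat_lit 3473102102917) (nat_lit 2) leaf)))) (nat_lit 3473102102932) (nat_lit 14) (node (node (node (node (node leaf (nat_lit 3473102103817) (nat_lit 18) leaf) (nat_lit 3473102104084) (nat_lit 14) leaf) (nat_lit 3473102104849)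 (nat_lit 0) (node leaf (nat_lit 3473102111845) (nat_lit 6) leaf)) (nat_lit 3473102112037) (nat_lit 10) (node (node leaf (nat_lit 3473102113108) (nat_lit 9) leaf) (nat_lit 3473102115109) (nat_lit 8) (node leaf (nat_lit 3473102115220) (nat_lit 8) leaf))) (nat_lit 3473102115412) (nat_lit 18) (node (node (node (node leaf (nat_lit 3473102115877) (nat_lit 18) leaf) (nat_lit 3473102115973) (nat_lit 18) leaf) (nat_lit 3473102115988) (nat_lit 18) (node leaf (nat_lit 3473102116105) (nat_lit 18) leaf)) (nat_lit 3473102116945) (nat_lit 0) (node (node leaf (nat_lit 3473102116948) (nat_lit 6) leaf) (nat_lit 3473102117185) (nat_lit 0) (node leaf (nat_lit 3473102143909) (nat_lit 8) leaf)))))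

noncomputable def L1_90 : Tr := node L1_88 (nat_lit 3473102084692) (nat_lit 18) L1_89

noncomputable def L1_91 : Tr := node L1_87 (nat_lit 3473101915237) (nat_lit 6) L1_90

noncomputable def L1_92 : Tr := node L1_84 (nat_lit 3473044408657) (nat_lit 24) L1_91

noncomputable def L1_93 : Tr := node L1_77 (nat_lit 3471031144597) (nat_lit 12) L1_92

noncomputable def L1_94 : Tr := (node (node (node (node (node (node leaf (nat_lit 3473102145940) (nat_lit 18) leaf) (nat_lit 3473102152852) (nat_lit 18) leaf) (nat_lit 3473102211409) (nat_lit 0) (node leaf (nat_lit 3473102213221) (nat_lit 6) leaf)) (nat_lit 3473102213524) (nat_lit 12) (node (node (node leaf (nat_lit 3473102214217) (nat_lit 6) leaf) (nat_lit 3473102214409) (nat_lit 12) leaf) (nat_lit 3473102215441) (nat_lit 12) (node leaf (nat_lit 3473102225557) (nat_lit 5) leaf))) (nat_lit 3473102225701) (nat_lit 18) (node (node (node (node leaf (nat_lit 3473102225809) (nat_lit 0) leaf) (nat_lit 3473102226004) (nat_lit 7) leaf) (nat_lit 3473102226505) (nat_lit 6) (node leaf (nat_lit 3473102226580)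 (nat_lit 18) leaf)) (nat_lit 3473102227537) (nat_lit 6) (node (node leaf (nat_lit 3473102358037) (nat_lit 14) leaf) (nat_lit 3473102360725) (nat_lit 14) (node leaf (nat_lit 3473102378305) (nat_lit 13) leaf)))) (nat_lit 3473102406229) (nat_lit 7) (node (node (node (node (node leaf (nat_lit 3473102406757) (nat_lit 6) leaf) (nat_lit 3473102406805) (nat_lit 10) leaf) (nat_lit 3473102406949) (nat_lit 10) (node leaf (nat_lit 3473102407189) (nat_lit 4) leaf)) (nat_lit 3473102407237) (nat_lit 2) (node (node leaf (nat_lit 3473102407249) (nat_lit 0) leaf) (nat_lit 3473102408017) (nat_lit 9) (node leaf (nat_lit 3473102409829) (nat_lit 6) leaf))) (nat_lit 3473102409877) (nat_lit 5) (node (node (node (node leaf (nat_lit 3473102410021) (nat_lit 12) leaf) (nat_lit 3473102410321) (nat_lit 0) leaf) (nat_lit 3473102410324) (nat_lit 12) (node leaf (nat_lit 3473102411857) (nat_lit 12) leaf)) (nat_lit 3473102412049) (nat_lit 12) (node (node leaf (nat_lit 3473102415124) (nat_lit 4) leaf) (nat_lit 3473102415169) (nat_lit 0) (node leaf (nat_lit 3473102415172)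 (nat_lit 11) leaf)))))

noncomputable def L1_95 : Tr := (node (node (node (node (node (node leaf (nat_lit 3473102422165) (nat_lit 5) leaf) (nat_lit 3473102422309) (nat_lit 8) leaf) (nat_lit 3473102422405) (nat_lit 8) (node leaf (nat_lit 3473102422417) (nat_lit 8) leaf)) (nat_lit 3473102422420) (nat_lit 8) (node (node leaf (nat_lit 3473102422609) (nat_lit 0) leaf) (nat_lit 3473102422612) (nat_lit 7) (node leaf (nat_lit 3473102423065) (nat_lit 4) leaf))) (nat_lit 3473102423077) (nat_lit 10) (node (node (node (node leaf (nat_lit 3473102423173) (nat_lit 2) leaf) (nat_lit 3473102423188) (nat_lit 10) leaf) (nat_lit 3473102423572) (nat_lit 10) (node leaf (nat_lit 3473102424145) (nat_lit 6) leaf)) (nat_lit 3473102424148) (nat_lit 6) (node (node leaf (nat_lit 3473102424337) (nat_lit 0) leaf) (nat_lit 3473102424388) (nat_lit 2) (node leaf (nat_lit 3473102426149) (nat_lit 3) leaf)))) (nat_lit 3473102426185) (nat_lit 6) (node (node (node (node (node leaf (nat_lit 3473102426209) (nat_lit 6) leaf) (nat_lit 3473102426260) (nat_lit 17) leaf) (nat_lit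 3473102426377) (nat_lit 8) (node leaf (nat_lit 3473102430529) (nat_lit 0) leaf)) (nat_lit 3473102439697) (nat_lit 4) (node (node leaf (nat_lit 3473102439745) (nat_lit 0) leaf) (nat_lit 3473102871124) (nat_lit 12) (node leaf (nat_lit 3473102873893) (nat_lit 3) leaf))) (nat_lit 3473102873929) (nat_lit 20) (node (node (node (node leaf (nat_lit 3473102874001) (nat_lit 0) leaf) (nat_lit 3473102883097) (nat_lit 4) leaf) (nat_lit 3473102883109) (nat_lit 14) (node leaf (nat_lit 3473102883205) (nat_lit 2) leaf)) (nat_lit 3473102883220) (nat_lit 14) (node (node leaf (nat_lit 3473102883412) (nat_lit 20) leaf) (nat_lit 3473102885524) (nat_lit 14) (node leaf (nat_lit 3473102889253) (nat_lit 20) leaf)))))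

noncomputable def L1_96 : Tr := node L1_94 (nat_lit 3473102422117) (nat_lit 6) L1_95

noncomputable def L1_97 : Tr := (node (node (node (node (node (node leaf (nat_lit 3473102901541) (nat_lit 8) leaf) (nat_lit 3473102901652) (nat_lit 8) leaf) (nat_lit 3473102901844) (nat_lit 20) (node leaf (nat_lit 3473102902309) (nat_lit 3) leaf)) (nat_lit 3473102902345) (nat_lit 6) (node (node leaf (nat_lit 3473102902537) (nat_lit 20) leaf) (nat_lit 3473102930341) (nat_lit 8) (node leaf (nat_lit 3473102931604) (nat_lit 10) leaf))) (nat_lit 3473102932261) (nat_lit 20) (node (node (node (node leaf (nat_lit 3473103016084) (nat_lit 20) leaf) (nat_lit 3473103951121) (nat_lit 4) leaf) (nat_lit 3473103951169) (nat_lit 13) (node leaf (nat_lit 3473103979621) (nat_lit 10) leaf)) (nat_lit 3473103980053) (nat_lit 4) (node (node leaf (nat_lit 3473103980101) (nat_lit 2) leaf) (nat_lit 3473103980881) (nat_lit 16) (node leaf (nat_lit 3473103982693) (nat_lit 12) leaf)))) (nat_lit 3473103982741) (nat_lit 12) (node (node (node (node (node leaf (nat_lit 3473103982885)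 (nat_lit 12) leaf) (nat_lit 3473103982993) (nat_lit 12) leaf) (nat_lit 3473103984721) (nat_lit 6) (node leaf (nat_lit 3473103988033) (nat_lit 0) leaf)) (nat_lit 3473103995029) (nat_lit 16) (node (node leaf (nat_lit 3473103995161) (nat_lit 8) leaf) (nat_lit 3473103995173) (nat_lit 16) (node leaf (nat_lit 3473103995269) (nat_lit 2) leaf))) (nat_lit 3473103995473) (nat_lit 0) (node (node (node (node leaf (nat_lit 3473103995941) (nat_lit 10) leaf) (nat_lit 3473104179796) (nat_lit 12) leaf) (nat_lit 3473104181329) (nat_lit 12) (node leaf (nat_lit 3473104191637) (nat_lit 14) leaf)) (nat_lit 3473104192081) (nat_lit 0) (node (node leaf (nat_lit 3473106014869) (nat_lit 12) leaf) (nat_lit 3473106016852) (nat_lit 12) (node leaf (nat_lit 3473106019621) (nat_lit 11) leaf)))))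

noncomputable def L1_98 : Tr := (node (node (node (node (node (node leaf (nat_lit 3473106034981) (nat_lit 14) leaf) (nat_lit 3473106048073) (nat_lit 6) leaf) (nat_lit 3473106076069) (nat_lit 8) (node leaf (nat_lit 3473106076837) (nat_lit 16) leaf)) (nat_lit 3473106077989) (nat_lit 16) (node (node leaf (nat_lit 3473106272677) (nat_lit 8) leaf) (nat_lit 3473110225045) (nat_lit 14) (node leaf (nat_lit 3473110242385) (nat_lit 6) leaf))) (nat_lit 3473110242565) (nat_lit 2) (node (node (node (node leaf (nat_lit 3473110242577) (nat_lit 4) leaf) (nat_lit 3473110270549) (nat_lit 7) leaf) (nat_lit 3473110271077) (nat_lit 10) (node leaf (nat_lit 3473110271125) (nat_lit 10) leaf)) (nat_lit 3473110271509) (nat_lit 4) (node (node leaf (nat_lit 3473110272337) (nat_lit 9) leaf) (nat_lit 3473110274197) (nat_lit 12) (node leaf (nat_lit 3473110274341) (nat_lit 12) leaf)))) (nat_lit 3473110274641) (nat_lit 12) (node (node (node (node (node leaf (nat_lit 3473110286437) (nat_lit 6) leaf) (nat_lit 3473110286485) (nat_lit 16) leaf) (nat_lit 3473110468945)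 (nat_lit 9) (node leaf (nat_lit 3473110471249) (nat_lit 0) leaf)) (nat_lit 3473119679569) (nat_lit 6) (node (node leaf (nat_lit 3473119679749) (nat_lit 2) leaf) (nat_lit 3473119679761) (nat_lit 4) (node leaf (nat_lit 3473119708261) (nat_lit 10) leaf))) (nat_lit 3473119709521) (nat_lit 20) (node (node (node (node leaf (nat_lit 3473119711381) (nat_lit 12) leaf) (nat_lit 3473119723621) (nat_lit 20) leaf) (nat_lit 3473119723669) (nat_lit 20) (node leaf (nat_lit 3473119906129) (nat_lit 20) leaf)) (nat_lit 3473119920277) (nat_lit 20) (node (node leaf (nat_lit 3473122855249) (nat_lit 16) leaf) (nat_lit 3473122857061) (nat_lit 12) (node leaf (nat_lit 3473122869397) (nat_lit 16) leaf)))))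

noncomputable def L1_99 : Tr := node L1_97 (nat_lit 3473106028837) (nat_lit 14) L1_98

noncomputable def L1_100 : Tr := node L1_96 (nat_lit 3473102890132) (nat_lit 14) L1_99

noncomputable def L1_101 : Tr := (node (node (node (node (node (node leaf (nat_lit 3473156641045) (nat_lit 18) leaf) (nat_lit 3473156641813) (nat_lit 4) leaf) (nat_lit 3473156935957) (nat_lit 12) (node leaf (nat_lit 3473156936725) (nat_lit 17) leaf)) (nat_lit 3473156948053) (nat_lit 6) (node (node leaf (nat_lit 3473156949013) (nat_lit 10) leaf) (nat_lit 3473157396757) (nat_lit 12) (node leaf (nat_lit 3473157407125) (nat_lit 14) leaf))) (nat_lit 3473157408325) (nat_lit 2) (node (node (node (node leaf (nat_lit 3473157408337) (nat_lit 14) leaf) (nat_lit 3473157409093) (nat_lit 14) leaf) (nat_lit 3473157415237) (nat_lit 8) (node leaf (nat_lit 3473157415957) (nat_lit 4) leaf)) (nat_lit 3473157416005) (nat_lit 2) (node (node leaf (nat_lit 3473157416197) (nat_lit 14) leaf) (nat_lit 3473157428245) (nat_lit 4) (node leaf (nat_lit 3473157428293) (nat_lit 2) leaf))))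 (nat_lit 3473157428305) (nat_lit 6) (node (node (node (node (node leaf (nat_lit 3473157428485) (nat_lit 2) leaf) (nat_lit 3473157457045) (nat_lit 22) leaf) (nat_lit 3473157457489) (nat_lit 22) (node leaf (nat_lit 3473157458245) (nat_lit 2) leaf)) (nat_lit 3473157458257) (nat_lit 22) (node (node leaf (nat_lit 3473157526549) (nat_lit 12) leaf) (nat_lit 3473157538837) (nat_lit 4) (node leaf (nat_lit 3473157654865) (nat_lit 22) leaf))) (nat_lit 3473158521109) (nat_lit 8) (node (node (node (node leaf (nat_lit 3473161654549) (nat_lit 16) leaf) (nat_lit 3473161655317) (nat_lit 16) leaf) (nat_lit 3473161850965) (nat_lit 6) (node leaf (nat_lit 3473161851157) (nat_lit 8) leaf)) (nat_lit 3473170039381) (nat_lit 20) (node (node leaf (nat_lit 3473170039957) (nat_lit 10) leaf) (nat_lit 3473170041157) (nat_lit 2) (node leaf (nat_lit 3473170041169) (nat_lit 16) leaf)))))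

noncomputable def L1_102 : Tr := (node (node (node (node (node (node leaf (nat_lit 3473173185109) (nat_lit 16) leaf) (nat_lit 3473173381717) (nat_lit 18) leaf) (nat_lit 3473186820181) (nat_lit 16) (node leaf (nat_lit 3473186820373) (nat_lit 16) leaf)) (nat_lit 3473187016789) (nat_lit 6) (node (node leaf (nat_lit 3479033938069) (nat_lit 26) leaf) (nat_lit 3479084204629) (nat_lit 7) (node leaf (nat_lit 3479084205205) (nat_lit 10) leaf))) (nat_lit 3479093724229) (nat_lit 19) (node (node (node (node leaf (nat_lit 3479093727301) (nat_lit 19) leaf) (nat_lit 3479096083525) (nat_lit 17) leaf) (nat_lit 3479096086597) (nat_lit 17) (node leaf (nat_lit 3479096531269) (nat_lit 12) leaf)) (nat_lit 3479096542357) (nat_lit 10) (node (node leaf (nat_lit 3479096542789) (nat_lit 2) leaf) (nat_lit 3479096542801) (nat_lit 14) (node leaf (nat_lit 3479096549701) (nat_lit 8) leaf)))) (nat_lit 3479096550469) (nat_lit 6) (node (node (node (node (node leaf (nat_lit 3479096550661) (nat_lit 2) leaf) (nat_lit 3479096561941) (nat_lit 4) leaf) (nat_lit 3479096562709)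 (nat_lit 4) (node leaf (nat_lit 3479096562757) (nat_lit 6) leaf)) (nat_lit 3479096562769) (nat_lit 6) (node (node leaf (nat_lit 3479096591941) (nat_lit 2) leaf) (nat_lit 3479096591953) (nat_lit 0) (node leaf (nat_lit 3479096592709) (nat_lit 16) leaf))) (nat_lit 3479096592721) (nat_lit 0) (node (node (node (node leaf (nat_lit 3479096592724) (nat_lit 16) leaf) (nat_lit 3479096594533) (nat_lit 16) leaf) (nat_lit 3479096594581) (nat_lit 12) (node leaf (nat_lit 3479096594725) (nat_lit 12) leaf)) (nat_lit 3479096595025) (nat_lit 0) (node (node leaf (nat_lit 3479096599813) (nat_lit 16) leaf) (nat_lit 3479096606869) (nat_lit 16) (node leaf (nat_lit 3479096661061) (nat_lit 12) leaf)))))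

noncomputable def L1_103 : Tr := node L1_101 (nat_lit 3473173139605) (nat_lit 14) L1_102

noncomputable def L1_104 : Tr := (node (node (node (node (node (node leaf (nat_lit 3479096673301) (nat_lit 4) leaf) (nat_lit 3479096673349) (nat_lit 10) leaf) (nat_lit 3479096676373) (nat_lit 4) (node leaf (nat_lit 3479096676421) (nat_lit 6) leaf)) (nat_lit 3479096788069) (nat_lit 10) (node (node leaf (nat_lit 3479096788501) (nat_lit 4) leaf) (nat_lit 3479096791189) (nat_lit 12) (node leaf (nat_lit 3479096803429) (nat_lit 6) leaf))) (nat_lit 3479096803477) (nat_lit 14) (node (node (node (node leaf (nat_lit 3479097054229) (nat_lit 12) leaf) (nat_lit 3479097065557) (nat_lit 6) leaf) (nat_lit 3479097066517) (nat_lit 4) (node leaf (nat_lit 3479097066565) (nat_lit 10) leaf)) (nat_lit 3479097069589) (nat_lit 4) (node (node leaf (nat_lit 3479097656341) (nat_lit 4) leaf) (nat_lit 3479097656389) (nat_lit 10) (node leaf (nat_lit 3479097659413) (nat_lit 4) leaf)))) (nat_lit 3479100015637) (nat_lit 4) (node (node (node (node (node leaf (nat_lit 3479100015685)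 (nat_lit 10) leaf) (nat_lit 3479100018709) (nat_lit 4) leaf) (nat_lit 3479100985621) (nat_lit 4) (node leaf (nat_lit 3479100986389) (nat_lit 4) leaf)) (nat_lit 3479486661205) (nat_lit 16) (node (node leaf (nat_lit 3479486661781) (nat_lit 16) leaf) (nat_lit 3479496377365) (nat_lit 19) (node leaf (nat_lit 3479496380437) (nat_lit 19) leaf))) (nat_lit 3479498428693) (nat_lit 18) (node (node (node (node leaf (nat_lit 3479498429461) (nat_lit 18) leaf) (nat_lit 3479498724373) (nat_lit 17) leaf) (nat_lit 3479498735701) (nat_lit 17) (node leaf (nat_lit 3479498736661) (nat_lit 17) leaf)) (nat_lit 3479498739733) (nat_lit 17) (node (node leaf (nat_lit 3479499183253) (nat_lit 12) leaf) (nat_lit 3479499184405) (nat_lit 4) (node leaf (nat_lit 3479499194773) (nat_lit 8) leaf)))))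

noncomputable def L1_105 : Tr := (node (node (node (node (node (node leaf (nat_lit 3479499195985) (nat_lit 14) leaf) (nat_lit 3479499196741) (nat_lit 14) leaf) (nat_lit 3479499199057) (nat_lit 14) (node leaf (nat_lit 3479499202837) (nat_lit 4) leaf)) (nat_lit 3479499202885) (nat_lit 8) (node (node leaf (nat_lit 3479499203605) (nat_lit 4) leaf) (nat_lit 3479499203653) (nat_lit 6) (node leaf (nat_lit 3479499203845) (nat_lit 14) leaf))) (nat_lit 3479499214933) (nat_lit 6) (node (node (node (node leaf (nat_lit 3479499215893) (nat_lit 4) leaf) (nat_lit 3479499215941) (nat_lit 2) leaf) (nat_lit 3479499216133) (nat_lit 23) (node leaf (nat_lit 3479499216145) (nat_lit 23) leaf)) (nat_lit 3479499244645) (nat_lit 10) (node (node leaf (nat_lit 3479499244693) (nat_lit 10) leaf) (nat_lit 3479499245077) (nat_lit 4) (node leaf (nat_lit 3479499245137) (nat_lit 10) leaf)))) (nat_lit 3479499245893) (nat_lit 2) (node (node (node (node (node leaf (nat_lit 3479499245905) (nat_lit 23) leaf) (nat_lit 3479499247717) (nat_lit 6) leaf) (nat_lit 3479499247765)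 (nat_lit 12) (node leaf (nat_lit 3479499260005) (nat_lit 23) leaf)) (nat_lit 3479499260053) (nat_lit 23) (node (node leaf (nat_lit 3479499313429) (nat_lit 12) leaf) (nat_lit 3479499314197) (nat_lit 4) (node leaf (nat_lit 3479499325525) (nat_lit 6) leaf))) (nat_lit 3479499326485) (nat_lit 10) (node (node (node (node leaf (nat_lit 3479499326533) (nat_lit 10) leaf) (nat_lit 3479499329557) (nat_lit 4) leaf) (nat_lit 3479499442513) (nat_lit 23) (node leaf (nat_lit 3479499456661) (nat_lit 23) leaf)) (nat_lit 3479499706453) (nat_lit 12) (node (node leaf (nat_lit 3479499707413) (nat_lit 12) leaf) (nat_lit 3479499718933) (nat_lit 8) (node leaf (nat_lit 3479499719701) (nat_lit 10) leaf)))))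

noncomputable def L1_106 : Tr := node L1_104 (nat_lit 3479499195973) (nat_lit 14) L1_105

noncomputable def L1_107 : Tr := node L1_103 (nat_lit 3479096672533) (nat_lit 4) L1_106

noncomputable def L1_108 : Tr := node L1_100 (nat_lit 3473154592789) (nat_lit 4) L1_107

noncomputable def L1_109 : Tr := (node (node (node (node (node (node leaf (nat_lit 3479500308757) (nat_lit 8) leaf) (nat_lit 3479500309525) (nat_lit 10) leaf) (nat_lit 3479502656533) (nat_lit 12) (node leaf (nat_lit 3479502668053) (nat_lit 8) leaf)) (nat_lit 3479502668821) (nat_lit 10) (node (node leaf (nat_lit 3479503442965) (nat_lit 16) leaf) (nat_lit 3479503638613) (nat_lit 6) (node leaf (nat_lit 3479503638805) (nat_lit 8) leaf))) (nat_lit 3479532228757) (nat_lit 22) (node (node (node (node leaf (nat_lit 3479532274261) (nat_lit 22) leaf) (nat_lit 3479536947349) (nat_lit 21) leaf) (nat_lit 3479536964869) (nat_lit 21) (node leaf (nat_lit 3479536964881) (nat_lit 21) leaf)) (nat_lit 3479536992853) (nat_lit 21) (node (node leaf (nat_lit 3479536994641) (nat_lit 21) leaf)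 (nat_lit 3479537008741) (nat_lit 21) (node leaf (nat_lit 3479537008789) (nat_lit 21) leaf)))) (nat_lit 3479537191249) (nat_lit 21) (node (node (node (node (node leaf (nat_lit 3479537205397) (nat_lit 14) leaf) (nat_lit 3479544338821) (nat_lit 16) leaf) (nat_lit 3479544338833) (nat_lit 12) (node leaf (nat_lit 3479544341893) (nat_lit 16) leaf)) (nat_lit 3479544342037) (nat_lit 16) (node (node leaf (nat_lit 3479544342085) (nat_lit 16) leaf) (nat_lit 3479544342097) (nat_lit 16) (node leaf (nat_lit 3479544342100) (nat_lit 16) leaf))) (nat_lit 3479544351001) (nat_lit 4) (node (node (node (node leaf (nat_lit 3479544351109) (nat_lit 2) leaf) (nat_lit 3479544365653) (nat_lit 7) leaf) (nat_lit 3479544366181) (nat_lit 16) (node leaf (nat_lit 3479544366229) (nat_lit 5) leaf)) (nat_lit 3479544366373) (nat_lit 16) (node (node leaf (nat_lit 3479544366469) (nat_lit 10) leaf) (nat_lit 3479544366613) (nat_lit 4) (node leaf (nat_lit 3479544366661) (nat_lit 2) leaf)))))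

noncomputable def L1_110 : Tr := (node (node (node (node (node (node leaf (nat_lit 3479544369301) (nat_lit 5) leaf) (nat_lit 3479544369433) (nat_lit 8) leaf) (nat_lit 3479544369445) (nat_lit 16) (node leaf (nat_lit 3479544369541) (nat_lit 2) leaf)) (nat_lit 3479544370213) (nat_lit 16) (node (node leaf (nat_lit 3479544370309) (nat_lit 16) leaf) (nat_lit 3479544371521) (nat_lit 16) (node leaf (nat_lit 3479544374548) (nat_lit 4) leaf))) (nat_lit 3479544415765) (nat_lit 10) (node (node (node (node leaf (nat_lit 3479544418405) (nat_lit 6) leaf) (nat_lit 3479544418453) (nat_lit 5) leaf) (nat_lit 3479544418597) (nat_lit 3) (node leaf (nat_lit 3479544418633) (nat_lit 8) leaf)) (nat_lit 3479544418693) (nat_lit 8) (node (node leaf (nat_lit 3479544418705) (nat_lit 0) leaf) (nat_lit 3479544418837) (nat_lit 4) (node leaf (nat_lit 3479544418885) (nat_lit 2) leaf)))) (nat_lit 3479544419353) (nat_lit 4) (node (node (node (node (node leaf (nat_lit 3479544419365) (nat_lit 3) leaf) (nat_lit 3479544419398) (nat_lit 2) leaf) (nat_lit 3479544419401)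 (nat_lit 15) (node leaf (nat_lit 3479544419425) (nat_lit 0) leaf)) (nat_lit 3479544533653) (nat_lit 12) (node (node leaf (nat_lit 3479544535333) (nat_lit 12) leaf) (nat_lit 3479544538213) (nat_lit 6) (node leaf (nat_lit 3479544538261) (nat_lit 5) leaf))) (nat_lit 3479544538393) (nat_lit 4) (node (node (node (node leaf (nat_lit 3479544538405) (nat_lit 18) leaf) (nat_lit 3479544538501) (nat_lit 2) leaf) (nat_lit 3479544538645) (nat_lit 4) (node leaf (nat_lit 3479544538693) (nat_lit 2) leaf)) (nat_lit 3479544545701) (nat_lit 14) (node (node leaf (nat_lit 3479544547621) (nat_lit 14) leaf) (nat_lit 3479544547717) (nat_lit 18) (node leaf (nat_lit 3479544554068) (nat_lit 7) leaf)))))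

noncomputable def L1_111 : Tr := node L1_109 (nat_lit 3479544366673) (nat_lit 0) L1_110

noncomputable def L1_112 : Tr := (node (node (node (node (node (node leaf (nat_lit 3479544554644) (nat_lit 18) leaf) (nat_lit 3479544562981) (nat_lit 10) leaf) (nat_lit 3479544566053) (nat_lit 8) (node leaf (nat_lit 3479544566164) (nat_lit 18) leaf)) (nat_lit 3479544566356) (nat_lit 18) (node (node leaf (nat_lit 3479544566821) (nat_lit 18) leaf) (nat_lit 3479544566857) (nat_lit 6) (node leaf (nat_lit 3479544567889) (nat_lit 0) leaf))) (nat_lit 3479544568081) (nat_lit 4) (node (node (node (node leaf (nat_lit 3479544594853) (nat_lit 18) leaf) (nat_lit 3479544596773) (nat_lit 18) leaf) (nat_lit 3479544664465) (nat_lit 0) (node leaf (nat_lit 3479544665161) (nat_lit 12) leaf)) (nat_lit 3479544666193) (nat_lit 6) (node (node leaf (nat_lit 3479544676945) (nat_lit 0) leaf) (nat_lit 3479544808021) (nat_lit 14) (node leaf (nat_lit 3479544808597) (nat_lit 10) leaf)))) (nat_lit 3479544829201) (nat_lit 13) (node (node (node (node (node leaf (nat_lit 3479544829249)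 (nat_lit 13) leaf) (nat_lit 3479544857173) (nat_lit 7) leaf) (nat_lit 3479544857701) (nat_lit 6) (node leaf (nat_lit 3479544857749) (nat_lit 10) leaf)) (nat_lit 3479544857893) (nat_lit 10) (node (node leaf (nat_lit 3479544858133) (nat_lit 4) leaf) (nat_lit 3479544858181) (nat_lit 2) (node leaf (nat_lit 3479544860773) (nat_lit 6) leaf))) (nat_lit 3479544860821) (nat_lit 12) (node (node (node (node leaf (nat_lit 3479544862801) (nat_lit 12) leaf) (nat_lit 3479544866065) (nat_lit 0) leaf) (nat_lit 3479544866113) (nat_lit 11) (node leaf (nat_lit 3479544873109) (nat_lit 5) leaf)) (nat_lit 3479544873253) (nat_lit 8) (node (node leaf (nat_lit 3479544873349) (nat_lit 8) leaf) (nat_lit 3479544873361) (nat_lit 0) (node leaf (nat_lit 3479544873553) (nat_lit 0) leaf)))))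

noncomputable def L1_113 : Tr := (node (node (node (node (node (node leaf (nat_lit 3479544874132) (nat_lit 10) leaf) (nat_lit 3479544874513) (nat_lit 0) leaf) (nat_lit 3479544875089) (nat_lit 6) (node leaf (nat_lit 3479544875329) (nat_lit 0) leaf)) (nat_lit 3479544877093) (nat_lit 3) (node (node leaf (nat_lit 3479544877129) (nat_lit 6) leaf) (nat_lit 3479544890629) (nat_lit 2) (node leaf (nat_lit 3479544890641) (nat_lit 4) leaf))) (nat_lit 3479545320085) (nat_lit 20) (node (node (node (node leaf (nat_lit 3479545321876) (nat_lit 12) leaf) (nat_lit 3479545322068) (nat_lit 20) leaf) (nat_lit 3479545324825) (nat_lit 4) (node leaf (nat_lit 3479545324837) (nat_lit 20) leaf)) (nat_lit 3479545324933) (nat_lit 2) (node (node leaf (nat_lit 3479545333396) (nat_lit 10) leaf) (nat_lit 3479545334053) (nat_lit 14) (node leaf (nat_lit 3479545353289) (nat_lit 20) leaf)))) (nat_lit 3479545381285) (nat_lit 20) (node (node (node (node (node leaf (nat_lit 3479546384533) (nat_lit 14) leaf) (nat_lit 3479546402053) (nat_lit 2) leaf) (nat_lit 3479546402065)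 (nat_lit 4) (node leaf (nat_lit 3479546430037) (nat_lit 7) leaf)) (nat_lit 3479546430565) (nat_lit 10) (node (node leaf (nat_lit 3479546430613) (nat_lit 10) leaf) (nat_lit 3479546430997) (nat_lit 4) (node leaf (nat_lit 3479546431825) (nat_lit 9) leaf))) (nat_lit 3479546433685) (nat_lit 12) (node (node (node (node leaf (nat_lit 3479546434129) (nat_lit 12) leaf) (nat_lit 3479546435665) (nat_lit 16) leaf) (nat_lit 3479546445925) (nat_lit 6) (node leaf (nat_lit 3479546445973) (nat_lit 5) leaf)) (nat_lit 3479546446117) (nat_lit 8) (node (node leaf (nat_lit 3479546446417) (nat_lit 16) leaf) (nat_lit 3479546628433) (nat_lit 9) (node leaf (nat_lit 3479546630737) (nat_lit 12) leaf)))))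

noncomputable def L1_114 : Tr := node L1_112 (nat_lit 3479544874021) (nat_lit 10) L1_113

noncomputable def L1_115 : Tr := node L1_111 (nat_lit 3479544554569) (nat_lit 6) L1_114

noncomputable def L1_116 : Tr := (node (node (node (node (node (node leaf (nat_lit 3479548479781) (nat_lit 14) leaf) (nat_lit 3479548527013) (nat_lit 16) leaf) (nat_lit 3479552672341) (nat_lit 14) (node leaf (nat_lit 3479552672917) (nat_lit 10) leaf)) (nat_lit 3479552693317) (nat_lit 6) (node (node leaf (nat_lit 3479552693509) (nat_lit 2) leaf) (nat_lit 3479552721493) (nat_lit 7) (node leaf (nat_lit 3479552722069) (nat_lit 10) leaf))) (nat_lit 3479552723269) (nat_lit 2) (node (node (node (node leaf (nat_lit 3479552723281) (nat_lit 16) leaf) (nat_lit 3479552725093) (nat_lit 12) leaf) (nat_lit 3479562130501) (nat_lit 6) (node leaf (nat_lit 3479562130693) (nat_lit 2) leaf)) (nat_lit 3479562160453) (nat_lit 2) (node (node leaf (nat_lit 3479562160465) (nat_lit 16) leaf) (nat_lit 3479562162277) (nat_lit 12) (node leaf (nat_lit 3479562174613) (nat_lit 16) leaf))))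 (nat_lit 3479596241941) (nat_lit 20) (node (node (node (node (node leaf (nat_lit 3479597040661) (nat_lit 10) leaf) (nat_lit 3479598896149) (nat_lit 16) leaf) (nat_lit 3479599061269) (nat_lit 18) (node leaf (nat_lit 3479599091797) (nat_lit 6) leaf)) (nat_lit 3479599092757) (nat_lit 18) (node (node leaf (nat_lit 3479599191061) (nat_lit 18) leaf) (nat_lit 3479599386709) (nat_lit 12) (node leaf (nat_lit 3479599387669) (nat_lit 12) leaf))) (nat_lit 3479599399189) (nat_lit 8) (node (node (node (node leaf (nat_lit 3479599845781) (nat_lit 12) leaf) (nat_lit 3479599847749) (nat_lit 12) leaf) (nat_lit 3479599850821) (nat_lit 11) (node leaf (nat_lit 3479599858837) (nat_lit 14) leaf)) (nat_lit 3479599859269) (nat_lit 2) (node (node leaf (nat_lit 3479599859281) (nat_lit 14) leaf) (nat_lit 3479599860037) (nat_lit 14) (node leaf (nat_lit 3479599866133) (nat_lit 4) leaf)))))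

noncomputable def L1_117 : Tr := (node (node (node (node (node (node leaf (nat_lit 3479599866901) (nat_lit 4) leaf) (nat_lit 3479599866949) (nat_lit 6) leaf) (nat_lit 3479599878421) (nat_lit 8) (node leaf (nat_lit 3479599879189) (nat_lit 4) leaf)) (nat_lit 3479599879237) (nat_lit 6) (node (node leaf (nat_lit 3479599907413) (nat_lit 22) leaf) (nat_lit 3479599907989) (nat_lit 22) (node leaf (nat_lit 3479599909189) (nat_lit 2) leaf))) (nat_lit 3479599909201) (nat_lit 16) (node (node (node (node leaf (nat_lit 3479599976725) (nat_lit 8) leaf) (nat_lit 3479599977493) (nat_lit 12) leaf) (nat_lit 3479600959765) (nat_lit 12) (node leaf (nat_lit 3479603319829) (nat_lit 18) leaf)) (nat_lit 3479604105301) (nat_lit 16) (node (node leaf (nat_lit 3479604301909) (nat_lit 6) leaf) (nat_lit 3479615586901) (nat_lit 14) (node leaf (nat_lit 3479615587477) (nat_lit 10) leaf)))) (nat_lit 3479615636053) (nat_lit 16) (node (node (node (node (node leaf (nat_lit 3479628484693) (nat_lit 18) leaf) (nat_lit 3479629268053) (nat_lit 10) leaf) (nat_lit 3479629271125)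 (nat_lit 16) (node leaf (nat_lit 3479629464661) (nat_lit 10) leaf)) (nat_lit 3480148550977) (nat_lit 25) (node (node leaf (nat_lit 3480267302212) (nat_lit 20) leaf) (nat_lit 3480270054724) (nat_lit 22) (node leaf (nat_lit 3480275166529) (nat_lit 0) leaf))) (nat_lit 3480299545921) (nat_lit 18) (node (node (node (node leaf (nat_lit 3480400012609) (nat_lit 16) leaf) (nat_lit 3480551007553) (nat_lit 16) leaf) (nat_lit 3481106977813) (nat_lit 19) (node leaf (nat_lit 3481106990101) (nat_lit 19) leaf)) (nat_lit 3481109010709) (nat_lit 18) (node (node leaf (nat_lit 3481109041237) (nat_lit 18) leaf) (nat_lit 3481109042197) (nat_lit 18) (node leaf (nat_lit 3481109140501) (nat_lit 18) leaf)))))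

noncomputable def L1_118 : Tr := node L1_116 (nat_lit 3479599866181) (nat_lit 8) L1_117

noncomputable def L1_119 : Tr := (node (node (node (node (node (node leaf (nat_lit 3481109337109) (nat_lit 17) leaf) (nat_lit 3481109349397) (nat_lit 17) leaf) (nat_lit 3481109795221) (nat_lit 8) (node leaf (nat_lit 3481109796949) (nat_lit 6) leaf)) (nat_lit 3481109797189) (nat_lit 12) (node (node leaf (nat_lit 3481109808661) (nat_lit 14) leaf) (nat_lit 3481109808709) (nat_lit 2) (node leaf (nat_lit 3481109808721) (nat_lit 10) leaf))) (nat_lit 3481109809477) (nat_lit 14) (node (node (node (node leaf (nat_lit 3481109811301) (nat_lit 14) leaf) (nat_lit 3481109811781) (nat_lit 2) leaf) (nat_lit 3481109815573) (nat_lit 8) (node leaf (nat_lit 3481109815621) (nat_lit 8) leaf)) (nat_lit 3481109816341) (nat_lit 4) (node (node leaf (nat_lit 3481109816389) (nat_lit 6) leaf) (nat_lit 3481109827861) (nat_lit 8) (node leaf (nat_lit 3481109827909) (nat_lit 8) leaf)))) (nat_lit 3481109828629) (nat_lit 4) (node (node (node (node (node leaf (nat_lit 3481109828677)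 (nat_lit 6) leaf) (nat_lit 3481109828869) (nat_lit 2) leaf) (nat_lit 3481109856853) (nat_lit 7) (node leaf (nat_lit 3481109857429) (nat_lit 10) leaf)) (nat_lit 3481109858629) (nat_lit 2) (node (node leaf (nat_lit 3481109858641) (nat_lit 16) leaf) (nat_lit 3481109860453) (nat_lit 12) (node leaf (nat_lit 3481109860501) (nat_lit 12) leaf))) (nat_lit 3481109872789) (nat_lit 16) (node (node (node (node leaf (nat_lit 3481109925973) (nat_lit 6) leaf) (nat_lit 3481109926165) (nat_lit 8) leaf) (nat_lit 3481109926933) (nat_lit 12) (node leaf (nat_lit 3481109939221) (nat_lit 4) leaf)) (nat_lit 3481110319381) (nat_lit 8) (node (node leaf (nat_lit 3481110331669) (nat_lit 8) leaf) (nat_lit 3481110909205) (nat_lit 8) (node leaf (nat_lit 3481110921493) (nat_lit 8) leaf)))))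

noncomputable def L1_120 : Tr := (node (node (node (node (node (node leaf (nat_lit 3481113269269) (nat_lit 12) leaf) (nat_lit 3481113280789) (nat_lit 8) leaf) (nat_lit 3481114054741) (nat_lit 16) (node leaf (nat_lit 3481114251349) (nat_lit 6) leaf)) (nat_lit 3481139695765) (nat_lit 20) (node (node leaf (nat_lit 3481139741269) (nat_lit 20) leaf) (nat_lit 3481142395477) (nat_lit 22) (node leaf (nat_lit 3481142448277) (nat_lit 22) leaf))) (nat_lit 3481142837845) (nat_lit 14) (node (node (node (node leaf (nat_lit 3481142838421) (nat_lit 10) leaf) (nat_lit 3481142886997) (nat_lit 22) leaf) (nat_lit 3481147556437) (nat_lit 14) (node leaf (nat_lit 3481147557013) (nat_lit 10) leaf)) (nat_lit 3481147605589) (nat_lit 21) (node (node leaf (nat_lit 3481154905621) (nat_lit 14) leaf) (nat_lit 3481154949781) (nat_lit 16) (node leaf (nat_lit 3481154951557) (nat_lit 12) leaf)))) (nat_lit 3481154953813) (nat_lit 7) (node (node (node (node (node leaf (nat_lit 3481154954389) (nat_lit 16) leaf) (nat_lit 3481154954533) (nat_lit 16) leaf) (nat_lit 3481154954629)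 (nat_lit 16) (node leaf (nat_lit 3481154954773) (nat_lit 16) leaf)) (nat_lit 3481154954821) (nat_lit 16) (node (node leaf (nat_lit 3481154954833) (nat_lit 0) leaf) (nat_lit 3481154963749) (nat_lit 16) (node leaf (nat_lit 3481154978389) (nat_lit 7) leaf))) (nat_lit 3481154978917) (nat_lit 6) (node (node (node (node leaf (nat_lit 3481154978965) (nat_lit 5) leaf) (nat_lit 3481154979109) (nat_lit 16) leaf) (nat_lit 3481154979349) (nat_lit 4) (node leaf (nat_lit 3481154979397) (nat_lit 2) leaf)) (nat_lit 3481154982037) (nat_lit 5) (node (node leaf (nat_lit 3481154982181) (nat_lit 8) leaf) (nat_lit 3481155027541) (nat_lit 7) (node leaf (nat_lit 3481155028117) (nat_lit 10) leaf)))))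

noncomputable def L1_121 : Tr := node L1_119 (nat_lit 3481113268501) (nat_lit 8) L1_120

noncomputable def L1_122 : Tr := node L1_118 (nat_lit 3481109336149) (nat_lit 17) L1_121

noncomputable def L1_123 : Tr := node L1_115 (nat_lit 3479548470565) (nat_lit 11) L1_122

noncomputable def L1_124 : Tr := node L1_108 (nat_lit 3479500297237) (nat_lit 12) L1_123

noncomputable def L1_125 : Tr := node L1_93 (nat_lit 3473102145829) (nat_lit 18) L1_124

noncomputable def L1_126 : Tr := node L1_62 (nat_lit 3447332299348) (nat_lit 18) L1_125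

noncomputable def L1_127 : Tr := (node (node (node (node (node (node leaf (nat_lit 3481155031189) (nat_lit 5) leaf) (nat_lit 3481155031333) (nat_lit 8) leaf) (nat_lit 3481155143317) (nat_lit 10) (node leaf (nat_lit 3481155146389) (nat_lit 18) leaf)) (nat_lit 3481155150949) (nat_lit 6) (node (node (node leaf (nat_lit 3481155150997) (nat_lit 5) leaf) (nat_lit 3481155151141) (nat_lit 18) leaf) (nat_lit 3481155151237) (nat_lit 18) (node leaf (nat_lit 3481155151381) (nat_lit 4) leaf))) (nat_lit 3481155158437) (nat_lit 14) (node (node (node (node leaf (nat_lit 3481155470437) (nat_lit 6) leaf) (nat_lit 3481155470869) (nat_lit 4) leaf) (nat_lit 3481155473557) (nat_lit 12) (node leaf (nat_lit 3481155937573) (nat_lit 20) leaf)) (nat_lit 3481157042773) (nat_lit 7) (node (node leaf (nat_lit 3481157043349) (nat_lit 10) leaf) (nat_lit 3481206853717) (nat_lit 20) (node leaf (nat_lit 3481207641109) (nat_lit 12) leaf)))) (nat_lit 3481207652629) (nat_lit 8) (node (node (node (node (node leaf (nat_lit 3481209507925) (nat_lit 16) leaf) (nat_lit 3481209508885)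 (nat_lit 16) leaf) (nat_lit 3481209558037) (nat_lit 15) (node leaf (nat_lit 3481209672085) (nat_lit 18) leaf)) (nat_lit 3481209673813) (nat_lit 6) (node (node leaf (nat_lit 3481209674053) (nat_lit 18) leaf) (nat_lit 3481209704725) (nat_lit 8) (node leaf (nat_lit 3481209705493) (nat_lit 18) leaf))) (nat_lit 3481209705541) (nat_lit 18) (node (node (node (node leaf (nat_lit 3481209803029) (nat_lit 8) leaf) (nat_lit 3481209803797) (nat_lit 18) leaf) (nat_lit 3481209999637) (nat_lit 8) (node leaf (nat_lit 3481210460485) (nat_lit 12) leaf)) (nat_lit 3481210463509) (nat_lit 11) (node (node leaf (nat_lit 3481210463557) (nat_lit 11) leaf) (nat_lit 3481210470997) (nat_lit 14) (node leaf (nat_lit 3481210471573) (nat_lit 14) leaf)))))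

noncomputable def L1_128 : Tr := (node (node (node (node (node (node leaf (nat_lit 3481210472725) (nat_lit 4) leaf) (nat_lit 3481210472773) (nat_lit 14) leaf) (nat_lit 3481210478917) (nat_lit 8) (node leaf (nat_lit 3481210491157) (nat_lit 8) leaf)) (nat_lit 3481210491925) (nat_lit 4) (node (node leaf (nat_lit 3481210521925) (nat_lit 2) leaf) (nat_lit 3481211572309) (nat_lit 6) (node leaf (nat_lit 3481213931605) (nat_lit 18) leaf))) (nat_lit 3481213931797) (nat_lit 8) (node (node (node (node leaf (nat_lit 3481214714965) (nat_lit 10) leaf) (nat_lit 3481214911573) (nat_lit 10) leaf) (nat_lit 3481226187349) (nat_lit 12) (node leaf (nat_lit 3481226187925) (nat_lit 12) leaf)) (nat_lit 3481226199637) (nat_lit 14) (node (node leaf (nat_lit 3481239094357) (nat_lit 18) leaf) (nat_lit 3481239880789) (nat_lit 16) (node leaf (nat_lit 3481240076629) (nat_lit 8) leaf)))) (nat_lit 3481610293333) (nat_lit 19) (node (node (node (node (node leaf (nat_lit 3481610293525) (nat_lit 8) leaf) (nat_lit 3481612130629) (nat_lit 16) leaf) (nat_lit 3481612161301)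 (nat_lit 8) (node leaf (nat_lit 3481612210453) (nat_lit 8) leaf)) (nat_lit 3481612211221) (nat_lit 15) (node (node leaf (nat_lit 3481612358677) (nat_lit 18) leaf) (nat_lit 3481612652629) (nat_lit 6) (node leaf (nat_lit 3481613111893) (nat_lit 12) leaf))) (nat_lit 3481613112469) (nat_lit 12) (node (node (node (node leaf (nat_lit 3481613113621) (nat_lit 4) leaf) (nat_lit 3481613116501) (nat_lit 6) leaf) (nat_lit 3481613116693) (nat_lit 4) (node leaf (nat_lit 3481614222421) (nat_lit 10) leaf)) (nat_lit 3481616581717) (nat_lit 10) (node (node leaf (nat_lit 3481616584789) (nat_lit 6) leaf) (nat_lit 3481617563989) (nat_lit 8) (node leaf (nat_lit 3481628837461) (nat_lit 10) leaf)))))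

noncomputable def L1_129 : Tr := node L1_127 (nat_lit 3481210472005) (nat_lit 2) L1_128

noncomputable def L1_130 : Tr := (node (node (node (node (node (node leaf (nat_lit 3481641698389) (nat_lit 14) leaf) (nat_lit 3481641746773) (nat_lit 8) leaf) (nat_lit 3481642533205) (nat_lit 16) (node leaf (nat_lit 3481742360917) (nat_lit 8) leaf)) (nat_lit 3481742410069) (nat_lit 18) (node (node leaf (nat_lit 3850078783060) (nat_lit 10) leaf) (nat_lit 3850078783825) (nat_lit 0) (node leaf (nat_lit 3850078847365) (nat_lit 8) leaf))) (nat_lit 3850078848037) (nat_lit 10) (node (node (node (node leaf (nat_lit 3851135751316) (nat_lit 12) leaf) (nat_lit 3851135752276) (nat_lit 12) leaf) (nat_lit 3851135752468) (nat_lit 4) (node leaf (nat_lit 3851135762581) (nat_lit 14) leaf)) (nat_lit 3851135762965) (nat_lit 14) (node (node leaf (nat_lit 3851135763028) (nat_lit 14) leaf) (nat_lit 3851135811733) (nat_lit 5) (node leaf (nat_lit 3851135811877) (nat_lit 8) leaf)))) (nat_lit 3851135812180) (nat_lit 7) (node (node (node (node (node leaf (nat_lit 3851135812756)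 (nat_lit 10) leaf) (nat_lit 3851145269521) (nat_lit 19) leaf) (nat_lit 3851145269569) (nat_lit 19) (node leaf (nat_lit 3851147628817) (nat_lit 17) leaf)) (nat_lit 3851147628865) (nat_lit 17) (node (node leaf (nat_lit 3851148092689) (nat_lit 4) leaf) (nat_lit 3851148092692) (nat_lit 4) (node leaf (nat_lit 3851148092740) (nat_lit 14) leaf))) (nat_lit 3851148104785) (nat_lit 0) (node (node (node (node leaf (nat_lit 3851148104977) (nat_lit 4) leaf) (nat_lit 3851148105025) (nat_lit 0) leaf) (nat_lit 3851148105028) (nat_lit 13) (node leaf (nat_lit 3851148133972) (nat_lit 10) leaf)) (nat_lit 3851148141892) (nat_lit 16) (node (node leaf (nat_lit 3851148149332) (nat_lit 16) leaf) (nat_lit 3851148218437) (nat_lit 2) (node leaf (nat_lit 3851148218629) (nat_lit 8) leaf)))))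

noncomputable def L1_131 : Tr := (node (node (node (node (node (node leaf (nat_lit 3851148218689) (nat_lit 8) leaf) (nat_lit 3851148219409) (nat_lit 4) leaf) (nat_lit 3851148330580) (nat_lit 10) (node leaf (nat_lit 3851148331333) (nat_lit 2) leaf)) (nat_lit 3851148331348) (nat_lit 9) (node (node leaf (nat_lit 3851148333205) (nat_lit 12) leaf) (nat_lit 3851148333652) (nat_lit 12) (node leaf (nat_lit 3851148335188) (nat_lit 12) leaf))) (nat_lit 3851148338497) (nat_lit 0) (node (node (node (node leaf (nat_lit 3851148345637) (nat_lit 8) leaf) (nat_lit 3851148345733) (nat_lit 14) leaf) (nat_lit 3851148345940) (nat_lit 14) (node leaf (nat_lit 3851148346405) (nat_lit 14) leaf)) (nat_lit 3851148346501) (nat_lit 10) (node (node leaf (nat_lit 3851148347476) (nat_lit 14) leaf) (nat_lit 3851148349477) (nat_lit 14) (node leaf (nat_lit 3851148394789) (nat_lit 8) leaf)))) (nat_lit 3851148395092) (nat_lit 7) (node (node (node (node (node leaf (nat_lit 3851148395653) (nat_lit 10) leaf) (nat_lit 3851148395668) (nat_lit 10) leaf) (nat_lit 3851148398629)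 (nat_lit 12) (node leaf (nat_lit 3851148608773) (nat_lit 10) leaf)) (nat_lit 3851148611605) (nat_lit 4) (node (node leaf (nat_lit 3851148611845) (nat_lit 2) leaf) (nat_lit 3851148611857) (nat_lit 4) (node leaf (nat_lit 3851149201669) (nat_lit 2) leaf))) (nat_lit 3851149201681) (nat_lit 4) (node (node (node (node leaf (nat_lit 3851151560965) (nat_lit 2) leaf) (nat_lit 3851151560977) (nat_lit 4) leaf) (nat_lit 3851152528645) (nat_lit 2) (node leaf (nat_lit 3851152528657) (nat_lit 12) leaf)) (nat_lit 3857326540372) (nat_lit 28) (node (node leaf (nat_lit 3857326541137) (nat_lit 28) leaf) (nat_lit 3857326604677) (nat_lit 28) (node leaf (nat_lit 3857326605349) (nat_lit 28) leaf)))))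

noncomputable def L1_132 : Tr := node L1_130 (nat_lit 3851148218641) (nat_lit 4) L1_131

noncomputable def L1_133 : Tr := node L1_129 (nat_lit 3481628840533) (nat_lit 12) L1_132

noncomputable def L1_134 : Tr := (node (node (node (node (node (node leaf (nat_lit 3857578201237) (nat_lit 12) leaf) (nat_lit 3857578201492) (nat_lit 8) leaf) (nat_lit 3857578201621) (nat_lit 12) (node leaf (nat_lit 3857578201684) (nat_lit 12) leaf)) (nat_lit 3857578203217) (nat_lit 0) (node (node leaf (nat_lit 3857578203220) (nat_lit 6) leaf) (nat_lit 3857578203409) (nat_lit 0) (node leaf (nat_lit 3857578213525) (nat_lit 14) leaf))) (nat_lit 3857578213969) (nat_lit 0) (node (node (node (node leaf (nat_lit 3857578213972) (nat_lit 14) leaf) (nat_lit 3857578263121) (nat_lit 0) leaf) (nat_lit 3857587720453) (nat_lit 19) (node leaf (nat_lit 3857587720465) (nat_lit 19) leaf)) (nat_lit 3857590079749) (nat_lit 17) (node (node leaf (nat_lit 3857590079761) (nat_lit 17) leaf) (nat_lit 3857590535764) (nat_lit 14) (node leaf (nat_lit 3857590543621) (nat_lit 2) leaf))))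 (nat_lit 3857590543633) (nat_lit 0) (node (node (node (node (node leaf (nat_lit 3857590543636) (nat_lit 4) leaf) (nat_lit 3857590543681) (nat_lit 0) leaf) (nat_lit 3857590555717) (nat_lit 2) (node leaf (nat_lit 3857590555729) (nat_lit 6) leaf)) (nat_lit 3857590555909) (nat_lit 2) (node (node leaf (nat_lit 3857590555921) (nat_lit 4) leaf) (nat_lit 3857590555924) (nat_lit 4) (node leaf (nat_lit 3857590585669) (nat_lit 16) leaf))) (nat_lit 3857590587541) (nat_lit 16) (node (node (node (node leaf (nat_lit 3857590587988) (nat_lit 12) leaf) (nat_lit 3857590600741) (nat_lit 16) leaf) (nat_lit 3857590666309) (nat_lit 10) (node leaf (nat_lit 3857590666501) (nat_lit 10) leaf)) (nat_lit 3857590669333) (nat_lit 4) (node (node leaf (nat_lit 3857590669393) (nat_lit 6) leaf) (nat_lit 3857590669573) (nat_lit 2) (node leaf (nat_lit 3857590669585) (nat_lit 8) leaf)))))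

noncomputable def L1_135 : Tr := (node (node (node (node (node (node leaf (nat_lit 3857590781521) (nat_lit 0) leaf) (nat_lit 3857590782289) (nat_lit 0) leaf) (nat_lit 3857590782292) (nat_lit 9) (node leaf (nat_lit 3857590784293) (nat_lit 12) leaf)) (nat_lit 3857590784596) (nat_lit 12) (node (node leaf (nat_lit 3857590786129) (nat_lit 0) leaf) (nat_lit 3857590786132) (nat_lit 12) (node leaf (nat_lit 3857590789393) (nat_lit 4) leaf))) (nat_lit 3857590796437) (nat_lit 5) (node (node (node (node leaf (nat_lit 3857590796581) (nat_lit 8) leaf) (nat_lit 3857590796677) (nat_lit 8) leaf) (nat_lit 3857590796881) (nat_lit 0) (node leaf (nat_lit 3857590796884) (nat_lit 14) leaf)) (nat_lit 3857590797349) (nat_lit 10) (node (node leaf (nat_lit 3857590845829) (nat_lit 8) leaf) (nat_lit 3857590846501) (nat_lit 10) (node leaf (nat_lit 3857591059477) (nat_lit 10) leaf)))) (nat_lit 3857591059525) (nat_lit 6) (node (node (node (node (node leaf (nat_lit 3857591062597) (nat_lit 6) leaf) (nat_lit 3857591062789) (nat_lit 2) leaf) (nat_lit 3857591652421)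 (nat_lit 6) (node leaf (nat_lit 3857591652613) (nat_lit 2) leaf)) (nat_lit 3857594011717) (nat_lit 6) (node (node leaf (nat_lit 3857594011909) (nat_lit 2) leaf) (nat_lit 3857594979397) (nat_lit 6) (node leaf (nat_lit 3857594979589) (nat_lit 2) leaf))) (nat_lit 3858131910949) (nat_lit 8) (node (node (node (node leaf (nat_lit 3859138480465) (nat_lit 26) leaf) (nat_lit 3859138544005) (nat_lit 26) leaf) (nat_lit 3859138544677) (nat_lit 26) (node leaf (nat_lit 3859188810901) (nat_lit 10) leaf)) (nat_lit 3859188811285) (nat_lit 10) (node (node leaf (nat_lit 3859188811345) (nat_lit 25) leaf) (nat_lit 3859188812113) (nat_lit 9) (node leaf (nat_lit 3859188813973) (nat_lit 12) leaf)))))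

noncomputable def L1_136 : Tr := node L1_134 (nat_lit 3857590670341) (nat_lit 2) L1_135

noncomputable def L1_137 : Tr := (node (node (node (node (node (node leaf (nat_lit 3859188814417) (nat_lit 12) leaf) (nat_lit 3859188815953) (nat_lit 6) leaf) (nat_lit 3859188826705) (nat_lit 14) (node leaf (nat_lit 3859198332997) (nat_lit 19) leaf)) (nat_lit 3859198333189) (nat_lit 19) (node (node leaf (nat_lit 3859200692293) (nat_lit 17) leaf) (nat_lit 3859200692485) (nat_lit 17) (node leaf (nat_lit 3859201148497) (nat_lit 0) leaf))) (nat_lit 3859201149253) (nat_lit 14) (node (node (node (node leaf (nat_lit 3859201151125) (nat_lit 14) leaf) (nat_lit 3859201156165) (nat_lit 6) leaf) (nat_lit 3859201156177) (nat_lit 6) (node leaf (nat_lit 3859201156357) (nat_lit 2) leaf)) (nat_lit 3859201156369) (nat_lit 0) (node (node leaf (nat_lit 3859201167685) (nat_lit 8) leaf) (nat_lit 3859201168405) (nat_lit 4) (node leaf (nat_lit 3859201168453) (nat_lit 2) leaf)))) (nat_lit 3859201168465) (nat_lit 6) (node (node (node (node (node leaf (nat_lit 3859201168645)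 (nat_lit 2) leaf) (nat_lit 3859201168657) (nat_lit 0) leaf) (nat_lit 3859201197205) (nat_lit 10) (node leaf (nat_lit 3859201197649) (nat_lit 16) leaf)) (nat_lit 3859201200721) (nat_lit 0) (node (node leaf (nat_lit 3859201212565) (nat_lit 16) leaf) (nat_lit 3859201212709) (nat_lit 16) (node leaf (nat_lit 3859201278997) (nat_lit 4) leaf))) (nat_lit 3859201279045) (nat_lit 6) (node (node (node (node leaf (nat_lit 3859201282117) (nat_lit 2) leaf) (nat_lit 3859201282309) (nat_lit 2) leaf) (nat_lit 3859201393957) (nat_lit 10) (node leaf (nat_lit 3859201394245) (nat_lit 2) leaf)) (nat_lit 3859201395013) (nat_lit 2) (node (node leaf (nat_lit 3859201395025) (nat_lit 0) leaf) (nat_lit 3859201395028) (nat_lit 9) (node leaf (nat_lit 3859201397329) (nat_lit 0) leaf)))))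

noncomputable def L1_138 : Tr := (node (node (node (node (node (node leaf (nat_lit 3859201402117) (nat_lit 2) leaf) (nat_lit 3859201409173) (nat_lit 5) leaf) (nat_lit 3859201409317) (nat_lit 8) (node leaf (nat_lit 3859201458325) (nat_lit 5) leaf)) (nat_lit 3859201458469) (nat_lit 8) (node (node leaf (nat_lit 3859201671445) (nat_lit 8) leaf) (nat_lit 3859201672213) (nat_lit 4) (node leaf (nat_lit 3859201675285) (nat_lit 4) leaf))) (nat_lit 3859201675333) (nat_lit 6) (node (node (node (node leaf (nat_lit 3859202265109) (nat_lit 4) leaf) (nat_lit 3859202265157) (nat_lit 6) leaf) (nat_lit 3859204624405) (nat_lit 4) (node leaf (nat_lit 3859204624453) (nat_lit 6) leaf)) (nat_lit 3859205591365) (nat_lit 8) (node (node leaf (nat_lit 3859205592085) (nat_lit 4) leaf) (nat_lit 3859205592133) (nat_lit 6) (node leaf (nat_lit 3859339806289) (nat_lit 0) leaf)))) (nat_lit 3859339870357) (nat_lit 5) (node (node (node (node (node leaf (nat_lit 3859339870501) (nat_lit 8) leaf) (nat_lit 3859591267477) (nat_lit 16) leaf) (nat_lit 3859591267921) (nat_lit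 16) (node leaf (nat_lit 3859591268689) (nat_lit 16) leaf)) (nat_lit 3859591463509) (nat_lit 7) (node (node leaf (nat_lit 3859591464085) (nat_lit 10) leaf) (nat_lit 3859591465285) (nat_lit 2) (node leaf (nat_lit 3859591465297) (nat_lit 24) leaf))) (nat_lit 3859600986133) (nat_lit 19) (node (node (node (node leaf (nat_lit 3859600986181) (nat_lit 19) leaf) (nat_lit 3859603035205) (nat_lit 18) leaf) (nat_lit 3859603341589) (nat_lit 17) (node leaf (nat_lit 3859603342357) (nat_lit 17) leaf)) (nat_lit 3859603345429) (nat_lit 17) (node (node leaf (nat_lit 3859603345477) (nat_lit 17) leaf) (nat_lit 3859603790149) (nat_lit 12) (node leaf (nat_lit 3859603801237) (nat_lit 14) leaf)))))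

noncomputable def L1_139 : Tr := node L1_137 (nat_lit 3859201397332) (nat_lit 12) L1_138

noncomputable def L1_140 : Tr := node L1_136 (nat_lit 3859188814225) (nat_lit 0) L1_139

noncomputable def L1_141 : Tr := node L1_133 (nat_lit 3857578199380) (nat_lit 9) L1_140

noncomputable def L1_142 : Tr := (node (node (node (node (node (node leaf (nat_lit 3859603801681) (nat_lit 14) leaf) (nat_lit 3859603802389) (nat_lit 4) leaf) (nat_lit 3859603808593) (nat_lit 8) (node leaf (nat_lit 3859603809301) (nat_lit 4) leaf)) (nat_lit 3859603809349) (nat_lit 2) (node (node leaf (nat_lit 3859603809361) (nat_lit 6) leaf) (nat_lit 3859603809541) (nat_lit 2) (node leaf (nat_lit 3859603820821) (nat_lit 4) leaf))) (nat_lit 3859603821589) (nat_lit 4) (node (node (node (node leaf (nat_lit 3859603821637) (nat_lit 6) leaf) (nat_lit 3859603821649) (nat_lit 6) leaf) (nat_lit 3859603821841) (nat_lit 23) (node leaf (nat_lit 3859603850821) (nat_lit 2) leaf)) (nat_lit 3859603850833) (nat_lit 10) (node (node leaf (nat_lit 3859603851589) (nat_lit 16) leaf) (nat_lit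 3859603851601) (nat_lit 16) (node leaf (nat_lit 3859603853461) (nat_lit 23) leaf)))) (nat_lit 3859603853605) (nat_lit 23) (node (node (node (node (node leaf (nat_lit 3859603853905) (nat_lit 16) leaf) (nat_lit 3859603858693) (nat_lit 16) leaf) (nat_lit 3859603919893) (nat_lit 12) (node leaf (nat_lit 3859603919941) (nat_lit 12) leaf)) (nat_lit 3859603931413) (nat_lit 8) (node (node leaf (nat_lit 3859603932181) (nat_lit 4) leaf) (nat_lit 3859603932229) (nat_lit 10) (node leaf (nat_lit 3859603935253) (nat_lit 4) leaf))) (nat_lit 3859603935301) (nat_lit 6) (node (node (node (node leaf (nat_lit 3859604312341) (nat_lit 12) leaf) (nat_lit 3859604313109) (nat_lit 12) leaf) (nat_lit 3859604325397) (nat_lit 10) (node leaf (nat_lit 3859604328469) (nat_lit 4) leaf)) (nat_lit 3859604915221) (nat_lit 10) (node (node leaf (nat_lit 3859604918293) (nat_lit 4) leaf) (nat_lit 3859607274517) (nat_lit 10) (node leaf (nat_lit 3859607277589) (nat_lit 4) leaf)))))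

noncomputable def L1_143 : Tr := (node (node (node (node (node (node leaf (nat_lit 3859608245269) (nat_lit 4) leaf) (nat_lit 3859638454609) (nat_lit 22) leaf) (nat_lit 3859638456613) (nat_lit 22) (node leaf (nat_lit 3859638468757) (nat_lit 22) leaf)) (nat_lit 3859638468997) (nat_lit 22) (node (node leaf (nat_lit 3859638469669) (nat_lit 22) leaf) (nat_lit 3859638651217) (nat_lit 22) (node leaf (nat_lit 3859641570577) (nat_lit 21) leaf))) (nat_lit 3859641570625) (nat_lit 21) (node (node (node (node leaf (nat_lit 3859641602149) (nat_lit 21) leaf) (nat_lit 3859641602197) (nat_lit 21) leaf) (nat_lit 3859641602341) (nat_lit 21) (node leaf (nat_lit 3859641614485) (nat_lit 21) leaf)) (nat_lit 3859641860245) (nat_lit 5) (node (node leaf (nat_lit 3859641860389) (nat_lit 8) leaf) (nat_lit 3859648944517) (nat_lit 16) (node leaf (nat_lit 3859648944532) (nat_lit 12) leaf)))) (nat_lit 3859648947781) (nat_lit 16) (node (node (node (node (node leaf (nat_lit 3859648947793) (nat_lit 16) leaf) (nat_lit 3859648947796) (nat_lit 16) leaf) (nat_lit 3859648956745)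 (nat_lit 16) (node leaf (nat_lit 3859648956817) (nat_lit 0) leaf)) (nat_lit 3859648971877) (nat_lit 16) (node (node leaf (nat_lit 3859648972069) (nat_lit 16) leaf) (nat_lit 3859648972309) (nat_lit 4) (node leaf (nat_lit 3859648972357) (nat_lit 2) leaf))) (nat_lit 3859648972369) (nat_lit 0) (node (node (node (node leaf (nat_lit 3859648972372) (nat_lit 16) leaf) (nat_lit 3859648974997) (nat_lit 5) leaf) (nat_lit 3859648975141) (nat_lit 16) (node leaf (nat_lit 3859648975237) (nat_lit 16) leaf)) (nat_lit 3859648975249) (nat_lit 0) (node (node leaf (nat_lit 3859648975444) (nat_lit 16) leaf) (nat_lit 3859648975897) (nat_lit 4) (node leaf (nat_lit 3859648975909) (nat_lit 16) leaf)))))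

noncomputable def L1_144 : Tr := node L1_142 (nat_lit 3859608244501) (nat_lit 4) L1_143

noncomputable def L1_145 : Tr := (node (node (node (node (node (node leaf (nat_lit 3859648980292) (nat_lit 16) leaf) (nat_lit 3859649024101) (nat_lit 15) leaf) (nat_lit 3859649024389) (nat_lit 8) (node leaf (nat_lit 3859649024404) (nat_lit 15) leaf)) (nat_lit 3859649024533) (nat_lit 4) (node (node leaf (nat_lit 3859649024581) (nat_lit 2) leaf) (nat_lit 3859649024593) (nat_lit 0) (node leaf (nat_lit 3859649025049) (nat_lit 4) leaf))) (nat_lit 3859649025061) (nat_lit 3) (node (node (node (node leaf (nat_lit 3859649025097) (nat_lit 6) leaf) (nat_lit 3859649025121) (nat_lit 6) leaf) (nat_lit 3859649025157) (nat_lit 2) (node leaf (nat_lit 3859649025286) (nat_lit 2) leaf)) (nat_lit 3859649025289) (nat_lit 15) (node (node leaf (nat_lit 3859649025313) (nat_lit 0) leaf) (nat_lit 3859649141029) (nat_lit 12) (node leaf (nat_lit 3859649141125) (nat_lit 12) leaf)))) (nat_lit 3859649141332) (nat_lit 12) (node (node (node (node (node leaf (nat_lit 3859649143909)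 (nat_lit 6) leaf) (nat_lit 3859649144101) (nat_lit 18) leaf) (nat_lit 3859649144137) (nat_lit 11) (node leaf (nat_lit 3859649144197) (nat_lit 18) leaf)) (nat_lit 3859649144209) (nat_lit 0) (node (node leaf (nat_lit 3859649144341) (nat_lit 4) leaf) (nat_lit 3859649144389) (nat_lit 2) (node leaf (nat_lit 3859649144401) (nat_lit 0) leaf))) (nat_lit 3859649144404) (nat_lit 11) (node (node (node (node leaf (nat_lit 3859649151397) (nat_lit 8) leaf) (nat_lit 3859649151637) (nat_lit 18) leaf) (nat_lit 3859649153317) (nat_lit 14) (node leaf (nat_lit 3859649153353) (nat_lit 18) leaf)) (nat_lit 3859649153620) (nat_lit 18) (node (node leaf (nat_lit 3859649159572) (nat_lit 14) leaf) (nat_lit 3859649160724) (nat_lit 14) (node leaf (nat_lit 3859649161489) (nat_lit 4) leaf)))))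

noncomputable def L1_146 : Tr := (node (node (node (node (node (node leaf (nat_lit 3859649168677) (nat_lit 10) leaf) (nat_lit 3859649169748) (nat_lit 9) leaf) (nat_lit 3859649171557) (nat_lit 6) (node leaf (nat_lit 3859649171749) (nat_lit 8) leaf)) (nat_lit 3859649171860) (nat_lit 8) (node (node leaf (nat_lit 3859649172052) (nat_lit 18) leaf) (nat_lit 3859649172613) (nat_lit 18) (node leaf (nat_lit 3859649172628) (nat_lit 18) leaf))) (nat_lit 3859649172745) (nat_lit 18) (node (node (node (node leaf (nat_lit 3859649173585) (nat_lit 0) leaf) (nat_lit 3859649173588) (nat_lit 6) leaf) (nat_lit 3859649173825) (nat_lit 18) (node leaf (nat_lit 3859649200549) (nat_lit 8) leaf)) (nat_lit 3859649202580) (nat_lit 18) (node (node leaf (nat_lit 3859649209492) (nat_lit 18) leaf) (nat_lit 3859649268049) (nat_lit 0) (node leaf (nat_lit 3859649269861) (nat_lit 6) leaf)))) (nat_lit 3859649270164) (nat_lit 12) (node (node (node (node (node leaf (nat_lit 3859649271049) (nat_lit 18) leaf) (nat_lit 3859649272081) (nat_lit 12) leaf) (nat_lit 3859649282449)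 (nat_lit 0) (node leaf (nat_lit 3859649282644) (nat_lit 7) leaf)) (nat_lit 3859649283220) (nat_lit 10) (node (node leaf (nat_lit 3859649284177) (nat_lit 6) leaf) (nat_lit 3859649414677) (nat_lit 14) (node leaf (nat_lit 3859649417365) (nat_lit 14) leaf))) (nat_lit 3859649434945) (nat_lit 13) (node (node (node (node leaf (nat_lit 3859649463397) (nat_lit 6) leaf) (nat_lit 3859649463445) (nat_lit 10) leaf) (nat_lit 3859649463589) (nat_lit 10) (node leaf (nat_lit 3859649463829) (nat_lit 4) leaf)) (nat_lit 3859649463877) (nat_lit 2) (node (node leaf (nat_lit 3859649463889) (nat_lit 0) leaf) (nat_lit 3859649464657) (nat_lit 9) (node leaf (nat_lit 3859649466517) (nat_lit 5) leaf)))))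

noncomputable def L1_147 : Tr := node L1_145 (nat_lit 3859649168485) (nat_lit 6) L1_146

noncomputable def L1_148 : Tr := node L1_144 (nat_lit 3859648976977) (nat_lit 0) L1_147

noncomputable def L1_149 : Tr := (node (node (node (node (node (node leaf (nat_lit 3859649466961) (nat_lit 0) leaf) (nat_lit 3859649466964) (nat_lit 12) leaf) (nat_lit 3859649468497) (nat_lit 12) (node leaf (nat_lit 3859649471809) (nat_lit 0) leaf)) (nat_lit 3859649471812) (nat_lit 11) (node (node leaf (nat_lit 3859649478805) (nat_lit 5) leaf) (nat_lit 3859649478949) (nat_lit 8) (node leaf (nat_lit 3859649479045) (nat_lit 8) leaf))) (nat_lit 3859649479057) (nat_lit 8) (node (node (node (node leaf (nat_lit 3859649479060) (nat_lit 8) leaf) (nat_lit 3859649479249) (nat_lit 0) leaf) (nat_lit 3859649479252) (nat_lit 7) (node leaf (nat_lit 3859649479705) (nat_lit 10) leaf)) (nat_lit 3859649479717) (nat_lit 10) (node (node leaf (nat_lit 3859649479813) (nat_lit 2) leaf) (nat_lit 3859649479828) (nat_lit 10) (node leaf (nat_lit 3859649480212) (nat_lit 10) leaf))))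 (nat_lit 3859649480785) (nat_lit 6) (node (node (node (node (node leaf (nat_lit 3859649480788) (nat_lit 6) leaf) (nat_lit 3859649481028) (nat_lit 2) leaf) (nat_lit 3859649482789) (nat_lit 3) (node leaf (nat_lit 3859649482825) (nat_lit 6) leaf)) (nat_lit 3859649482849) (nat_lit 6) (node (node leaf (nat_lit 3859649482900) (nat_lit 17) leaf) (nat_lit 3859649483017) (nat_lit 8) (node leaf (nat_lit 3859649487169) (nat_lit 0) leaf))) (nat_lit 3859649496337) (nat_lit 4) (node (node (node (node leaf (nat_lit 3859649496385) (nat_lit 0) leaf) (nat_lit 3859649927764) (nat_lit 12) leaf) (nat_lit 3859649930533) (nat_lit 20) (node leaf (nat_lit 3859649930569) (nat_lit 20) leaf)) (nat_lit 3859649930641) (nat_lit 0) (node (node leaf (nat_lit 3859649939737) (nat_lit 4) leaf) (nat_lit 3859649939749) (nat_lit 14) (node leaf (nat_lit 3859649939845) (nat_lit 2) leaf)))))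

noncomputable def L1_150 : Tr := (node (node (node (node (node (node leaf (nat_lit 3859649940052) (nat_lit 20) leaf) (nat_lit 3859649945893) (nat_lit 20) leaf) (nat_lit 3859649958181) (nat_lit 8) (node leaf (nat_lit 3859649958484) (nat_lit 20) leaf)) (nat_lit 3859649958949) (nat_lit 3) (node (node leaf (nat_lit 3859649958985) (nat_lit 6) leaf) (nat_lit 3859649959177) (nat_lit 20) (node leaf (nat_lit 3859649986981) (nat_lit 16) leaf))) (nat_lit 3859649988244) (nat_lit 16) (node (node (node (node leaf (nat_lit 3859649988901) (nat_lit 20) leaf) (nat_lit 3859650072724) (nat_lit 20) leaf) (nat_lit 3859651007761) (nat_lit 4) (node leaf (nat_lit 3859651007809) (nat_lit 13) leaf)) (nat_lit 3859651036261) (nat_lit 6) (node (node leaf (nat_lit 3859651036693) (nat_lit 4) leaf) (nat_lit 3859651036741) (nat_lit 2) (node leaf (nat_lit 3859651037521) (nat_lit 16) leaf)))) (nat_lit 3859651039333) (nat_lit 6) (node (node (node (node (node leaf (nat_lit 3859651039381) (nat_lit 12) leaf) (nat_lit 3859651039525) (nat_lit 12) leaf) (nat_lit 3859651041361)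 (nat_lit 12) (node leaf (nat_lit 3859651044673) (nat_lit 0) leaf)) (nat_lit 3859651051669) (nat_lit 5) (node (node leaf (nat_lit 3859651051813) (nat_lit 8) leaf) (nat_lit 3859651051909) (nat_lit 8) (node leaf (nat_lit 3859651052113) (nat_lit 0) leaf))) (nat_lit 3859651052581) (nat_lit 10) (node (node (node (node leaf (nat_lit 3859651237969) (nat_lit 12) leaf) (nat_lit 3859651248277) (nat_lit 14) leaf) (nat_lit 3859651248721) (nat_lit 14) (node leaf (nat_lit 3859653071509) (nat_lit 12) leaf)) (nat_lit 3859653073492) (nat_lit 12) (node (node leaf (nat_lit 3859653085477) (nat_lit 14) leaf) (nat_lit 3859653091621) (nat_lit 14) (node leaf (nat_lit 3859653132709) (nat_lit 16) leaf)))))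

noncomputable def L1_151 : Tr := node L1_149 (nat_lit 3859649939860) (nat_lit 14) L1_150

noncomputable def L1_152 : Tr := (node (node (node (node (node (node leaf (nat_lit 3859653134629) (nat_lit 16) leaf) (nat_lit 3859653329317) (nat_lit 8) leaf) (nat_lit 3859657281685) (nat_lit 14) (node leaf (nat_lit 3859657299025) (nat_lit 6) leaf)) (nat_lit 3859657299217) (nat_lit 4) (node (node leaf (nat_lit 3859657327189) (nat_lit 7) leaf) (nat_lit 3859657327717) (nat_lit 10) (node leaf (nat_lit 3859657327765) (nat_lit 10) leaf))) (nat_lit 3859657328149) (nat_lit 4) (node (node (node (node leaf (nat_lit 3859657328977) (nat_lit 9) leaf) (nat_lit 3859657330837) (nat_lit 12) leaf) (nat_lit 3859657330981) (nat_lit 12) (node leaf (nat_lit 3859657331281) (nat_lit 12) leaf)) (nat_lit 3859657343125) (nat_lit 16) (node (node leaf (nat_lit 3859657525585) (nat_lit 9) leaf) (nat_lit 3859657527889) (nat_lit 12) (node leaf (nat_lit 3859666736209) (nat_lit 6) leaf)))) (nat_lit 3859666736401) (nat_lit 4) (node (node (node (node (node leaf (nat_lit 3859666764901)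 (nat_lit 10) leaf) (nat_lit 3859666766161) (nat_lit 20) leaf) (nat_lit 3859666768021) (nat_lit 12) (node leaf (nat_lit 3859666780309) (nat_lit 20) leaf)) (nat_lit 3859669911889) (nat_lit 16) (node (node leaf (nat_lit 3859669913701) (nat_lit 6) leaf) (nat_lit 3859669926037) (nat_lit 5) (node leaf (nat_lit 3859669926181) (nat_lit 8) leaf))) (nat_lit 3859701649429) (nat_lit 4) (node (node (node (node leaf (nat_lit 3859703697685) (nat_lit 18) leaf) (nat_lit 3859703698453) (nat_lit 4) leaf) (nat_lit 3859703992597) (nat_lit 12) (node leaf (nat_lit 3859703993365) (nat_lit 12) leaf)) (nat_lit 3859704005653) (nat_lit 10) (node (node leaf (nat_lit 3859704453397) (nat_lit 12) leaf) (nat_lit 3859704463765) (nat_lit 8) (node leaf (nat_lit 3859704464977) (nat_lit 14) leaf)))))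

noncomputable def L1_153 : Tr := (node (node (node (node (node (node leaf (nat_lit 3859704465745) (nat_lit 14) leaf) (nat_lit 3859704471877) (nat_lit 2) leaf) (nat_lit 3859704472645) (nat_lit 2) (node leaf (nat_lit 3859704472837) (nat_lit 14) leaf)) (nat_lit 3859704484885) (nat_lit 4) (node (node leaf (nat_lit 3859704484933) (nat_lit 2) leaf) (nat_lit 3859704484945) (nat_lit 6) (node leaf (nat_lit 3859704513685) (nat_lit 22) leaf))) (nat_lit 3859704514129) (nat_lit 22) (node (node (node (node leaf (nat_lit 3859704514885) (nat_lit 2) leaf) (nat_lit 3859704583189) (nat_lit 4) leaf) (nat_lit 3859704595477) (nat_lit 4) (node leaf (nat_lit 3859705577749) (nat_lit 8) leaf)) (nat_lit 3859708711189) (nat_lit 16) (node (node leaf (nat_lit 3859708711957) (nat_lit 16) leaf) (nat_lit 3859708907797) (nat_lit 8) (node leaf (nat_lit 3859717096021) (nat_lit 20) leaf)))) (nat_lit 3859717096597) (nat_lit 20) (node (node (node (node (node leaf (nat_lit 3859717097797) (nat_lit 2) leaf) (nat_lit 3859717097809) (nat_lit 16) leaf) (nat_lit 3859720196245)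 (nat_lit 14) (node leaf (nat_lit 3859720241749) (nat_lit 16) leaf)) (nat_lit 3859720438357) (nat_lit 18) (node (node leaf (nat_lit 3859733876821) (nat_lit 6) leaf) (nat_lit 3859733877013) (nat_lit 8) (node leaf (nat_lit 3883096408213) (nat_lit 5) leaf))) (nat_lit 3883096408357) (nat_lit 28) (node (node (node (node leaf (nat_lit 3883348002325) (nat_lit 10) leaf) (nat_lit 3883348003153) (nat_lit 0) leaf) (nat_lit 3883348003156) (nat_lit 9) (node leaf (nat_lit 3883348005013) (nat_lit 12) leaf)) (nat_lit 3883348005460) (nat_lit 12) (node (node leaf (nat_lit 3883348006993) (nat_lit 0) leaf) (nat_lit 3883348017745) (nat_lit 0) (node leaf (nat_lit 3883357524037) (nat_lit 19) leaf)))))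

noncomputable def L1_154 : Tr := node L1_152 (nat_lit 3859704465733) (nat_lit 14) L1_153

noncomputable def L1_155 : Tr := node L1_151 (nat_lit 3859653133477) (nat_lit 16) L1_154

noncomputable def L1_156 : Tr := node L1_148 (nat_lit 3859649466661) (nat_lit 8) L1_155

noncomputable def L1_157 : Tr := node L1_141 (nat_lit 3859603801669) (nat_lit 2) L1_156

noncomputable def L1_158 : Tr := (node (node (node (node (node (node leaf (nat_lit 3883359883333) (nat_lit 17) leaf) (nat_lit 3883359883525) (nat_lit 17) leaf) (nat_lit 3883360339537) (nat_lit 0) (node leaf (nat_lit 3883360340293) (nat_lit 14) leaf)) (nat_lit 3883360342165) (nat_lit 14) (node (node (node leaf (nat_lit 3883360342612) (nat_lit 14) leaf) (nat_lit 3883360347205) (nat_lit 6) leaf) (nat_lit 3883360347397) (nat_lit 2) (node leaf (nat_lit 3883360347409) (nat_lit 4) leaf))) (nat_lit 3883360359445) (nat_lit 4) (node (node (node (node leaf (nat_lit 3883360359493) (nat_lit 6) leaf) (nat_lit 3883360359505) (nat_lit 6) leaf) (nat_lit 3883360359685) (nat_lit 2) (node leaf (nat_lit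 3883360359697) (nat_lit 0) leaf)) (nat_lit 3883360388689) (nat_lit 16) (node (node leaf (nat_lit 3883360391761) (nat_lit 0) leaf) (nat_lit 3883360392229) (nat_lit 12) (node leaf (nat_lit 3883360403605) (nat_lit 16) leaf)))) (nat_lit 3883360403749) (nat_lit 8) (node (node (node (node (node leaf (nat_lit 3883360470037) (nat_lit 4) leaf) (nat_lit 3883360470085) (nat_lit 6) leaf) (nat_lit 3883360473157) (nat_lit 6) (node leaf (nat_lit 3883360473349) (nat_lit 8) leaf)) (nat_lit 3883360584997) (nat_lit 10) (node (node leaf (nat_lit 3883360585285) (nat_lit 2) leaf) (nat_lit 3883360586053) (nat_lit 2) (node leaf (nat_lit 3883360586065) (nat_lit 9) leaf))) (nat_lit 3883360586068) (nat_lit 9) (node (node (node (node leaf (nat_lit 3883360587925) (nat_lit 12) leaf) (nat_lit 3883360588369) (nat_lit 12) leaf) (nat_lit 3883360588372) (nat_lit 12) (node leaf (nat_lit 3883360593157) (nat_lit 2) leaf)) (nat_lit 3883360600213) (nat_lit 5) (node (node leaf (nat_lit 3883360600357) (nat_lit 8) leaf) (nat_lit 3883360649365) (nat_lit 5) (node leaf (nat_lit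 3883360649509) (nat_lit 8) leaf)))))

noncomputable def L1_159 : Tr := (node (node (node (node (node (node leaf (nat_lit 3883360863253) (nat_lit 4) leaf) (nat_lit 3883360866325) (nat_lit 4) leaf) (nat_lit 3883360866373) (nat_lit 6) (node leaf (nat_lit 3883361456149) (nat_lit 4) leaf)) (nat_lit 3883361456197) (nat_lit 6) (node (node leaf (nat_lit 3883363815445) (nat_lit 4) leaf) (nat_lit 3883363815493) (nat_lit 6) (node leaf (nat_lit 3883364783125) (nat_lit 4) leaf))) (nat_lit 3883364783173) (nat_lit 6) (node (node (node (node leaf (nat_lit 3884908347541) (nat_lit 26) leaf) (nat_lit 3884958614101) (nat_lit 7) leaf) (nat_lit 3884958614677) (nat_lit 10) (node leaf (nat_lit 3884958615877) (nat_lit 2) leaf)) (nat_lit 3884958615889) (nat_lit 9) (node (node leaf (nat_lit 3884958618193) (nat_lit 12) leaf) (nat_lit 3884968136725) (nat_lit 19) (node leaf (nat_lit 3884968136773) (nat_lit 19) leaf)))) (nat_lit 3884970496021) (nat_lit 17) (node (node (node (node (node leaf (nat_lit 3884970496069) (nat_lit 17) leaf) (nat_lit 3884970940741) (nat_lit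 12) leaf) (nat_lit 3884970951829) (nat_lit 10) (node leaf (nat_lit 3884970952261) (nat_lit 2) leaf)) (nat_lit 3884970952273) (nat_lit 14) (node (node leaf (nat_lit 3884970952981) (nat_lit 4) leaf) (nat_lit 3884970955345) (nat_lit 14) (node leaf (nat_lit 3884970959173) (nat_lit 8) leaf))) (nat_lit 3884970959893) (nat_lit 4) (node (node (node (node leaf (nat_lit 3884970959941) (nat_lit 6) leaf) (nat_lit 3884970960133) (nat_lit 2) leaf) (nat_lit 3884970971413) (nat_lit 8) (node leaf (nat_lit 3884970972181) (nat_lit 4) leaf)) (nat_lit 3884970972229) (nat_lit 2) (node (node leaf (nat_lit 3884970972241) (nat_lit 6) leaf) (nat_lit 3884970972421) (nat_lit 2) (node leaf (nat_lit 3884971001413) (nat_lit 16) leaf)))))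

noncomputable def L1_160 : Tr := node L1_158 (nat_lit 3883360862485) (nat_lit 8) L1_159

noncomputable def L1_161 : Tr := (node (node (node (node (node (node leaf (nat_lit 3884971002181) (nat_lit 16) leaf) (nat_lit 3884971002193) (nat_lit 16) leaf) (nat_lit 3884971002196) (nat_lit 16) (node leaf (nat_lit 3884971004053) (nat_lit 12) leaf)) (nat_lit 3884971004197) (nat_lit 12) (node (node leaf (nat_lit 3884971004497) (nat_lit 16) leaf) (nat_lit 3884971009285) (nat_lit 16) (node leaf (nat_lit 3884971016485) (nat_lit 16) leaf))) (nat_lit 3884971070485) (nat_lit 12) (node (node (node (node leaf (nat_lit 3884971070533) (nat_lit 12) leaf) (nat_lit 3884971082005) (nat_lit 8) leaf) (nat_lit 3884971082773) (nat_lit 4) (node leaf (nat_lit 3884971082821) (nat_lit 10) leaf)) (nat_lit 3884971085845) (nat_lit 4) (node (node leaf (nat_lit 3884971085893) (nat_lit 6) leaf) (nat_lit 3884971197541) (nat_lit 6) (node leaf (nat_lit 3884971197973) (nat_lit 4) leaf)))) (nat_lit 3884971198789) (nat_lit 2) (node (node (node (node (node leaf (nat_lit 3884971200661)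 (nat_lit 12) leaf) (nat_lit 3884971212901) (nat_lit 6) leaf) (nat_lit 3884971212949) (nat_lit 14) (node leaf (nat_lit 3884971462933) (nat_lit 12) leaf)) (nat_lit 3884971463701) (nat_lit 12) (node (node leaf (nat_lit 3884971475029) (nat_lit 6) leaf) (nat_lit 3884971475989) (nat_lit 10) (node leaf (nat_lit 3884971476037) (nat_lit 10) leaf))) (nat_lit 3884971479061) (nat_lit 4) (node (node (node (node leaf (nat_lit 3884972065813) (nat_lit 10) leaf) (nat_lit 3884972065861) (nat_lit 10) leaf) (nat_lit 3884972068885) (nat_lit 4) (node leaf (nat_lit 3884974425109) (nat_lit 10) leaf)) (nat_lit 3884974425157) (nat_lit 10) (node (node leaf (nat_lit 3884974428181) (nat_lit 4) leaf) (nat_lit 3884975395093) (nat_lit 8) (node leaf (nat_lit 3884975395861) (nat_lit 4) leaf)))))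

noncomputable def L1_162 : Tr := (node (node (node (node (node (node leaf (nat_lit 3885361070677) (nat_lit 16) leaf) (nat_lit 3885361071253) (nat_lit 16) leaf) (nat_lit 3885361072453) (nat_lit 16) (node leaf (nat_lit 3885361072465) (nat_lit 16) leaf)) (nat_lit 3885361269061) (nat_lit 2) (node (node leaf (nat_lit 3885370786837) (nat_lit 19) leaf) (nat_lit 3885370789909) (nat_lit 19) (node leaf (nat_lit 3885372838165) (nat_lit 18) leaf))) (nat_lit 3885372838933) (nat_lit 18) (node (node (node (node leaf (nat_lit 3885373133077) (nat_lit 17) leaf) (nat_lit 3885373133845) (nat_lit 17) leaf) (nat_lit 3885373146133) (nat_lit 17) (node leaf (nat_lit 3885373149205) (nat_lit 17) leaf)) (nat_lit 3885373593877) (nat_lit 12) (node (node leaf (nat_lit 3885373604245) (nat_lit 8) leaf) (nat_lit 3885373605445) (nat_lit 14) (node leaf (nat_lit 3885373605457) (nat_lit 14) leaf)))) (nat_lit 3885373606213) (nat_lit 14) (node (node (node (node (node leaf (nat_lit 3885373608529) (nat_lit 14) leaf) (nat_lit 3885373612357) (nat_lit 8) leaf) (nat_lit 3885373613125)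 (nat_lit 6) (node leaf (nat_lit 3885373613317) (nat_lit 14) leaf)) (nat_lit 3885373624405) (nat_lit 6) (node (node leaf (nat_lit 3885373625365) (nat_lit 4) leaf) (nat_lit 3885373625413) (nat_lit 2) (node leaf (nat_lit 3885373625425) (nat_lit 23) leaf))) (nat_lit 3885373654117) (nat_lit 23) (node (node (node (node leaf (nat_lit 3885373654165) (nat_lit 10) leaf) (nat_lit 3885373654549) (nat_lit 4) leaf) (nat_lit 3885373654609) (nat_lit 10) (node leaf (nat_lit 3885373655365) (nat_lit 2) leaf)) (nat_lit 3885373657189) (nat_lit 6) (node (node leaf (nat_lit 3885373657237) (nat_lit 23) leaf) (nat_lit 3885373669525) (nat_lit 23) (node leaf (nat_lit 3885373722901) (nat_lit 8) leaf)))))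

noncomputable def L1_163 : Tr := node L1_161 (nat_lit 3885109624981) (nat_lit 14) L1_162

noncomputable def L1_164 : Tr := node L1_160 (nat_lit 3884971001425) (nat_lit 10) L1_163

noncomputable def L1_165 : Tr := (node (node (node (node (node (node leaf (nat_lit 3885373735957) (nat_lit 4) leaf) (nat_lit 3885373736005) (nat_lit 10) leaf) (nat_lit 3885373739029) (nat_lit 4) (node leaf (nat_lit 3885374115925) (nat_lit 6) leaf)) (nat_lit 3885374128405) (nat_lit 8) (node (node leaf (nat_lit 3885374129173) (nat_lit 10) leaf) (nat_lit 3885374718229) (nat_lit 8) (node leaf (nat_lit 3885374718997) (nat_lit 10) leaf))) (nat_lit 3885377077525) (nat_lit 8) (node (node (node (node leaf (nat_lit 3885377078293) (nat_lit 10) leaf) (nat_lit 3885377851669) (nat_lit 16) leaf) (nat_lit 3885377852437) (nat_lit 16) (node leaf (nat_lit 3885378048085) (nat_lit 6) leaf)) (nat_lit 3885378048277) (nat_lit 8) (node (node leaf (nat_lit 3885408258385) (nat_lit 22) leaf) (nat_lit 3885408260197) (nat_lit 22) (node leaf (nat_lit 3885408272533) (nat_lit 22) leaf))))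 (nat_lit 3885411374161) (nat_lit 21) (node (node (node (node (node leaf (nat_lit 3885411374353) (nat_lit 21) leaf) (nat_lit 3885411402853) (nat_lit 21) leaf) (nat_lit 3885411404113) (nat_lit 21) (node leaf (nat_lit 3885411405973) (nat_lit 21) leaf)) (nat_lit 3885411418261) (nat_lit 21) (node (node leaf (nat_lit 3885411614869) (nat_lit 14) leaf) (nat_lit 3885418748293) (nat_lit 16) (node leaf (nat_lit 3885418748305) (nat_lit 12) leaf))) (nat_lit 3885418751365) (nat_lit 16) (node (node (node (node leaf (nat_lit 3885418751509) (nat_lit 16) leaf) (nat_lit 3885418751557) (nat_lit 16) leaf) (nat_lit 3885418751569) (nat_lit 16) (node leaf (nat_lit 3885418751572) (nat_lit 16) leaf)) (nat_lit 3885418758805) (nat_lit 16) (node (node leaf (nat_lit 3885418760473) (nat_lit 4) leaf) (nat_lit 3885418760581) (nat_lit 2) (node leaf (nat_lit 3885418760788) (nat_lit 16) leaf)))))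

noncomputable def L1_166 : Tr := (node (node (node (node (node (node leaf (nat_lit 3885418775845) (nat_lit 16) leaf) (nat_lit 3885418775941) (nat_lit 10) leaf) (nat_lit 3885418776085) (nat_lit 4) (node leaf (nat_lit 3885418776133) (nat_lit 2) leaf)) (nat_lit 3885418776145) (nat_lit 0) (node (node leaf (nat_lit 3885418778773) (nat_lit 5) leaf) (nat_lit 3885418778905) (nat_lit 8) (node leaf (nat_lit 3885418778917) (nat_lit 16) leaf))) (nat_lit 3885418779013) (nat_lit 2) (node (node (node (node leaf (nat_lit 3885418779220) (nat_lit 16) leaf) (nat_lit 3885418779781) (nat_lit 16) leaf) (nat_lit 3885418780753) (nat_lit 16) (node leaf (nat_lit 3885418780993) (nat_lit 16) leaf)) (nat_lit 3885418784020) (nat_lit 4) (node (node leaf (nat_lit 3885418784065) (nat_lit 0) leaf) (nat_lit 3885418825237) (nat_lit 10) (node leaf (nat_lit 3885418827877) (nat_lit 15) leaf)))) (nat_lit 3885418827925) (nat_lit 5) (node (node (node (node (node leaf (nat_lit 3885418828069) (nat_lit 8) leaf) (nat_lit 3885418828165) (nat_lit 8) leaf) (nat_lit 3885418828177)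 (nat_lit 0) (node leaf (nat_lit 3885418828309) (nat_lit 4) leaf)) (nat_lit 3885418828357) (nat_lit 2) (node (node leaf (nat_lit 3885418828825) (nat_lit 4) leaf) (nat_lit 3885418828837) (nat_lit 3) (node leaf (nat_lit 3885418828873) (nat_lit 6) leaf))) (nat_lit 3885418828897) (nat_lit 6) (node (node (node (node leaf (nat_lit 3885418829065) (nat_lit 15) leaf) (nat_lit 3885418943125) (nat_lit 12) leaf) (nat_lit 3885418944805) (nat_lit 12) (node leaf (nat_lit 3885418945108) (nat_lit 12) leaf)) (nat_lit 3885418947685) (nat_lit 6) (node (node leaf (nat_lit 3885418947733) (nat_lit 5) leaf) (nat_lit 3885418947865) (nat_lit 4) (node leaf (nat_lit 3885418947877) (nat_lit 18) leaf)))))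

noncomputable def L1_167 : Tr := node L1_165 (nat_lit 3885418775653) (nat_lit 16) L1_166

noncomputable def L1_168 : Tr := (node (node (node (node (node (node leaf (nat_lit 3885418948117) (nat_lit 4) leaf) (nat_lit 3885418948165) (nat_lit 2) leaf) (nat_lit 3885418948177) (nat_lit 0) (node leaf (nat_lit 3885418955173) (nat_lit 14) leaf)) (nat_lit 3885418957093) (nat_lit 18) (node (node leaf (nat_lit 3885418957189) (nat_lit 18) leaf) (nat_lit 3885418957396) (nat_lit 18) (node leaf (nat_lit 3885418963540) (nat_lit 7) leaf))) (nat_lit 3885418964116) (nat_lit 14) (node (node (node (node leaf (nat_lit 3885418972453) (nat_lit 10) leaf) (nat_lit 3885418975333) (nat_lit 6) leaf) (nat_lit 3885418975525) (nat_lit 18) (node leaf (nat_lit 3885418975636) (nat_lit 8) leaf)) (nat_lit 3885418975825) (nat_lit 0) (node (node leaf (nat_lit 3885418975828) (nat_lit 18) leaf) (nat_lit 3885418976293) (nat_lit 18) (node leaf (nat_lit 3885418976329) (nat_lit 18) leaf)))) (nat_lit 3885418976521) (nat_lit 18) (node (node (node (node (node leaf (nat_lit 3885418977361)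 (nat_lit 0) leaf) (nat_lit 3885418977553) (nat_lit 4) leaf) (nat_lit 3885419004325) (nat_lit 18) (node leaf (nat_lit 3885419005588) (nat_lit 18) leaf)) (nat_lit 3885419006245) (nat_lit 18) (node (node leaf (nat_lit 3885419073937) (nat_lit 0) leaf) (nat_lit 3885419074633) (nat_lit 6) (node leaf (nat_lit 3885419075665) (nat_lit 6) leaf))) (nat_lit 3885419086417) (nat_lit 0) (node (node (node (node leaf (nat_lit 3885419217493) (nat_lit 7) leaf) (nat_lit 3885419218069) (nat_lit 10) leaf) (nat_lit 3885419218453) (nat_lit 14) (node leaf (nat_lit 3885419221141) (nat_lit 14) leaf)) (nat_lit 3885419238673) (nat_lit 13) (node (node leaf (nat_lit 3885419238721) (nat_lit 13) leaf) (nat_lit 3885419266645) (nat_lit 7) (node leaf (nat_lit 3885419267173) (nat_lit 6) leaf)))))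

noncomputable def L1_169 : Tr := (node (node (node (node (node (node leaf (nat_lit 3885419267365) (nat_lit 10) leaf) (nat_lit 3885419267605) (nat_lit 4) leaf) (nat_lit 3885419267653) (nat_lit 2) (node leaf (nat_lit 3885419268433) (nat_lit 9) leaf)) (nat_lit 3885419270245) (nat_lit 6) (node (node leaf (nat_lit 3885419270293) (nat_lit 12) leaf) (nat_lit 3885419270737) (nat_lit 0) (node leaf (nat_lit 3885419270740) (nat_lit 12) leaf))) (nat_lit 3885419272273) (nat_lit 12) (node (node (node (node leaf (nat_lit 3885419275537) (nat_lit 4) leaf) (nat_lit 3885419275585) (nat_lit 11) leaf) (nat_lit 3885419282581) (nat_lit 5) (node leaf (nat_lit 3885419282725) (nat_lit 8) leaf)) (nat_lit 3885419282821) (nat_lit 8) (node (node leaf (nat_lit 3885419283025) (nat_lit 0) leaf) (nat_lit 3885419283028) (nat_lit 7) (node leaf (nat_lit 3885419283493) (nat_lit 10) leaf)))) (nat_lit 3885419283604) (nat_lit 10) (node (node (node (node (node leaf (nat_lit 3885419283985) (nat_lit 0) leaf) (nat_lit 3885419284561) (nat_lit 0) leaf) (nat_lit 3885419284801)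 (nat_lit 0) (node leaf (nat_lit 3885419286565) (nat_lit 3) leaf)) (nat_lit 3885419286601) (nat_lit 6) (node (node leaf (nat_lit 3885419290897) (nat_lit 4) leaf) (nat_lit 3885419300101) (nat_lit 2) (node leaf (nat_lit 3885419300113) (nat_lit 4) leaf))) (nat_lit 3885419729557) (nat_lit 20) (node (node (node (node leaf (nat_lit 3885419731237) (nat_lit 12) leaf) (nat_lit 3885419731348) (nat_lit 12) leaf) (nat_lit 3885419731540) (nat_lit 12) (node leaf (nat_lit 3885419734297) (nat_lit 4) leaf)) (nat_lit 3885419734309) (nat_lit 11) (node (node leaf (nat_lit 3885419734405) (nat_lit 2) leaf) (nat_lit 3885419741605) (nat_lit 14) (node leaf (nat_lit 3885419743525) (nat_lit 14) leaf)))))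

noncomputable def L1_170 : Tr := node L1_168 (nat_lit 3885419267221) (nat_lit 10) L1_169

noncomputable def L1_171 : Tr := node L1_167 (nat_lit 3885418947973) (nat_lit 2) L1_170

noncomputable def L1_172 : Tr := node L1_164 (nat_lit 3885373723669) (nat_lit 4) L1_171

noncomputable def L1_173 : Tr := (node (node (node (node (node (node leaf (nat_lit 3885419762761) (nat_lit 6) leaf) (nat_lit 3885419790757) (nat_lit 20) leaf) (nat_lit 3885420794005) (nat_lit 14) (node leaf (nat_lit 3885420811345) (nat_lit 6) leaf)) (nat_lit 3885420811525) (nat_lit 2) (node (node leaf (nat_lit 3885420811537) (nat_lit 4) leaf) (nat_lit 3885420839509) (nat_lit 7) (node leaf (nat_lit 3885420840037) (nat_lit 10) leaf))) (nat_lit 3885420840085) (nat_lit 10) (node (node (node (node leaf (nat_lit 3885420840469) (nat_lit 4) leaf) (nat_lit 3885420841285) (nat_lit 2) leaf) (nat_lit 3885420841297) (nat_lit 9) (node leaf (nat_lit 3885420843157) (nat_lit 12) leaf)) (nat_lit 3885420843301) (nat_lit 12) (node (node leaf (nat_lit 3885420843601) (nat_lit 12) leaf)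 (nat_lit 3885420845137) (nat_lit 16) (node leaf (nat_lit 3885420855397) (nat_lit 6) leaf)))) (nat_lit 3885420855445) (nat_lit 5) (node (node (node (node (node leaf (nat_lit 3885420855589) (nat_lit 8) leaf) (nat_lit 3885420855889) (nat_lit 16) leaf) (nat_lit 3885421037905) (nat_lit 9) (node leaf (nat_lit 3885421040209) (nat_lit 12) leaf)) (nat_lit 3885422880037) (nat_lit 11) (node (node leaf (nat_lit 3885422889253) (nat_lit 14) leaf) (nat_lit 3885422936485) (nat_lit 8) (node leaf (nat_lit 3885427081813) (nat_lit 14) leaf))) (nat_lit 3885427082389) (nat_lit 10) (node (node (node (node leaf (nat_lit 3885427102789) (nat_lit 2) leaf) (nat_lit 3885427102981) (nat_lit 2) leaf) (nat_lit 3885427130965) (nat_lit 7) (node leaf (nat_lit 3885427131541) (nat_lit 10) leaf)) (nat_lit 3885427132741) (nat_lit 2) (node (node leaf (nat_lit 3885427132753) (nat_lit 16) leaf) (nat_lit 3885427134565) (nat_lit 6) (node leaf (nat_lit 3885436539973) (nat_lit 2) leaf)))))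

noncomputable def L1_174 : Tr := (node (node (node (node (node (node leaf (nat_lit 3885436569925) (nat_lit 2) leaf) (nat_lit 3885436569937) (nat_lit 20) leaf) (nat_lit 3885436571749) (nat_lit 20) (node leaf (nat_lit 3885436584085) (nat_lit 20) leaf)) (nat_lit 3885439715653) (nat_lit 2) (node (node leaf (nat_lit 3885470650645) (nat_lit 20) leaf) (nat_lit 3885470651413) (nat_lit 20) (node leaf (nat_lit 3885471450133) (nat_lit 10) leaf))) (nat_lit 3885473304853) (nat_lit 16) (node (node (node (node leaf (nat_lit 3885473305621) (nat_lit 16) leaf) (nat_lit 3885473470741) (nat_lit 18) leaf) (nat_lit 3885473501269) (nat_lit 6) (node leaf (nat_lit 3885473796181) (nat_lit 6) leaf)) (nat_lit 3885473808661) (nat_lit 8) (node (node leaf (nat_lit 3885474255253) (nat_lit 12) leaf) (nat_lit 3885474257221) (nat_lit 12) (node leaf (nat_lit 3885474260293) (nat_lit 11) leaf)))) (nat_lit 3885474268309) (nat_lit 14) (node (node (node (node (node leaf (nat_lit 3885474268741) (nat_lit 2) leaf) (nat_lit 3885474268753) (nat_lit 14) leaf) (nat_lit 3885474269509)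 (nat_lit 14) (node leaf (nat_lit 3885474275605) (nat_lit 4) leaf)) (nat_lit 3885474275653) (nat_lit 8) (node (node leaf (nat_lit 3885474276373) (nat_lit 4) leaf) (nat_lit 3885474276421) (nat_lit 6) (node leaf (nat_lit 3885474287893) (nat_lit 8) leaf))) (nat_lit 3885474287941) (nat_lit 8) (node (node (node (node leaf (nat_lit 3885474288661) (nat_lit 4) leaf) (nat_lit 3885474288709) (nat_lit 2) leaf) (nat_lit 3885474316885) (nat_lit 22) (node leaf (nat_lit 3885474317461) (nat_lit 22) leaf)) (nat_lit 3885474318661) (nat_lit 22) (node (node leaf (nat_lit 3885474318673) (nat_lit 22) leaf) (nat_lit 3885474386197) (nat_lit 8) (node leaf (nat_lit 3885474386965) (nat_lit 12) leaf)))))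

noncomputable def L1_175 : Tr := node L1_173 (nat_lit 3885436540165) (nat_lit 2) L1_174

noncomputable def L1_176 : Tr := (node (node (node (node (node (node leaf (nat_lit 3885477728533) (nat_lit 18) leaf) (nat_lit 3885477729301) (nat_lit 18) leaf) (nat_lit 3885478514773) (nat_lit 6) (node leaf (nat_lit 3885478514965) (nat_lit 8) leaf)) (nat_lit 3885478711381) (nat_lit 6) (node (node leaf (nat_lit 3885486901573) (nat_lit 2) leaf) (nat_lit 3885489996373) (nat_lit 14) (node leaf (nat_lit 3885489996949) (nat_lit 10) leaf))) (nat_lit 3885490045525) (nat_lit 16) (node (node (node (node leaf (nat_lit 3885502894165) (nat_lit 18) leaf) (nat_lit 3885502894357) (nat_lit 18) leaf) (nat_lit 3885503680597) (nat_lit 6) (node leaf (nat_lit 3891350749333) (nat_lit 14) leaf)) (nat_lit 3891410584597) (nat_lit 19) (node (node leaf (nat_lit 3891410584645) (nat_lit 19) leaf) (nat_lit 3891412943893) (nat_lit 17) (node leaf (nat_lit 3891412943941) (nat_lit 17) leaf)))) (nat_lit 3891413391637) (nat_lit 4) (node (node (node (node (node leaf (nat_lit 3891413402005)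 (nat_lit 8) leaf) (nat_lit 3891413403205) (nat_lit 2) leaf) (nat_lit 3891413403217) (nat_lit 14) (node leaf (nat_lit 3891413403973) (nat_lit 14) leaf)) (nat_lit 3891413403988) (nat_lit 14) (node (node leaf (nat_lit 3891413406289) (nat_lit 14) leaf) (nat_lit 3891413410069) (nat_lit 4) (node leaf (nat_lit 3891413410117) (nat_lit 8) leaf))) (nat_lit 3891413410837) (nat_lit 4) (node (node (node (node leaf (nat_lit 3891413410885) (nat_lit 6) leaf) (nat_lit 3891413411077) (nat_lit 14) leaf) (nat_lit 3891413422165) (nat_lit 6) (node leaf (nat_lit 3891413423125) (nat_lit 4) leaf)) (nat_lit 3891413423173) (nat_lit 2) (node (node leaf (nat_lit 3891413451925) (nat_lit 10) leaf) (nat_lit 3891413452309) (nat_lit 16) (node leaf (nat_lit 3891413453125) (nat_lit 2) leaf)))))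

noncomputable def L1_177 : Tr := (node (node (node (node (node (node leaf (nat_lit 3891413454997) (nat_lit 16) leaf) (nat_lit 3891413455429) (nat_lit 2) leaf) (nat_lit 3891413467237) (nat_lit 16) (node leaf (nat_lit 3891413467285) (nat_lit 16) leaf)) (nat_lit 3891413520661) (nat_lit 12) (node (node leaf (nat_lit 3891413521429) (nat_lit 12) leaf) (nat_lit 3891413532757) (nat_lit 6) (node leaf (nat_lit 3891413532949) (nat_lit 8) leaf))) (nat_lit 3891413533717) (nat_lit 10) (node (node (node (node leaf (nat_lit 3891413533765) (nat_lit 10) leaf) (nat_lit 3891413536789) (nat_lit 4) leaf) (nat_lit 3891413648533) (nat_lit 10) (node leaf (nat_lit 3891413651605) (nat_lit 12) leaf)) (nat_lit 3891413913685) (nat_lit 12) (node (node leaf (nat_lit 3891413914645) (nat_lit 12) leaf) (nat_lit 3891413926165) (nat_lit 8) (node leaf (nat_lit 3891413926933) (nat_lit 4) leaf)))) (nat_lit 3891414504469) (nat_lit 12) (node (node (node (node (node leaf (nat_lit 3891414515989) (nat_lit 8) leaf) (nat_lit 3891414516757) (nat_lit 4) leaf) (nat_lit 3891416863765)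 (nat_lit 12) (node leaf (nat_lit 3891416875285) (nat_lit 8) leaf)) (nat_lit 3891416876053) (nat_lit 4) (node (node leaf (nat_lit 3891417845845) (nat_lit 6) leaf) (nat_lit 3891417846037) (nat_lit 8) (node leaf (nat_lit 3891813237013) (nat_lit 19) leaf))) (nat_lit 3891813237781) (nat_lit 19) (node (node (node (node leaf (nat_lit 3891815258389) (nat_lit 18) leaf) (nat_lit 3891815288917) (nat_lit 18) leaf) (nat_lit 3891815583829) (nat_lit 17) (node leaf (nat_lit 3891815596309) (nat_lit 17) leaf)) (nat_lit 3891815597077) (nat_lit 17) (node (node leaf (nat_lit 3891816042901) (nat_lit 12) leaf) (nat_lit 3891816044629) (nat_lit 6) (node leaf (nat_lit 3891816044869) (nat_lit 12) leaf)))))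

noncomputable def L1_178 : Tr := node L1_176 (nat_lit 3891413454949) (nat_lit 6) L1_177

noncomputable def L1_179 : Tr := node L1_175 (nat_lit 3885475369237) (nat_lit 12) L1_178

noncomputable def L1_180 : Tr := (node (node (node (node (node (node leaf (nat_lit 3891816055957) (nat_lit 14) leaf) (nat_lit 3891816056341) (nat_lit 14) leaf) (nat_lit 3891816056389) (nat_lit 2) (node leaf (nat_lit 3891816056401) (nat_lit 10) leaf)) (nat_lit 3891816057109) (nat_lit 4) (node (node leaf (nat_lit 3891816057157) (nat_lit 14) leaf) (nat_lit 3891816058981) (nat_lit 14) (node leaf (nat_lit 3891816059461) (nat_lit 2) leaf))) (nat_lit 3891816063253) (nat_lit 4) (node (node (node (node leaf (nat_lit 3891816063301) (nat_lit 8) leaf) (nat_lit 3891816064021) (nat_lit 4) leaf) (nat_lit 3891816064069) (nat_lit 6) (node leaf (nat_lit 3891816075541) (nat_lit 8) leaf)) (nat_lit 3891816075589) (nat_lit 8) (node (node leaf (nat_lit 3891816076309) (nat_lit 4) leaf) (nat_lit 3891816076357) (nat_lit 23) (node leaf (nat_lit 3891816076549) (nat_lit 23) leaf))))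 (nat_lit 3891816104533) (nat_lit 7) (node (node (node (node (node leaf (nat_lit 3891816105109) (nat_lit 10) leaf) (nat_lit 3891816106309) (nat_lit 23) leaf) (nat_lit 3891816106321) (nat_lit 23) (node leaf (nat_lit 3891816108133) (nat_lit 23) leaf)) (nat_lit 3891816108181) (nat_lit 12) (node (node leaf (nat_lit 3891816120469) (nat_lit 23) leaf) (nat_lit 3891816173653) (nat_lit 6) (node leaf (nat_lit 3891816173845) (nat_lit 8) leaf))) (nat_lit 3891816174613) (nat_lit 12) (node (node (node (node leaf (nat_lit 3891816186133) (nat_lit 8) leaf) (nat_lit 3891816186901) (nat_lit 10) leaf) (nat_lit 3891816567061) (nat_lit 12) (node leaf (nat_lit 3891816567829) (nat_lit 12) leaf)) (nat_lit 3891816579349) (nat_lit 8) (node (node leaf (nat_lit 3891817156885) (nat_lit 12) leaf) (nat_lit 3891817157653) (nat_lit 12) (node leaf (nat_lit 3891817169173) (nat_lit 8) leaf)))))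

noncomputable def L1_181 : Tr := (node (node (node (node (node (node leaf (nat_lit 3891819516949) (nat_lit 12) leaf) (nat_lit 3891819528469) (nat_lit 8) leaf) (nat_lit 3891820302421) (nat_lit 16) (node leaf (nat_lit 3891820499029) (nat_lit 6) leaf)) (nat_lit 3891849085525) (nat_lit 22) (node (node leaf (nat_lit 3891849086101) (nat_lit 22) leaf) (nat_lit 3891849134677) (nat_lit 22) (node leaf (nat_lit 3891853804117) (nat_lit 21) leaf))) (nat_lit 3891853804693) (nat_lit 21) (node (node (node (node leaf (nat_lit 3891853825093) (nat_lit 21) leaf) (nat_lit 3891853825285) (nat_lit 21) leaf) (nat_lit 3891853853269) (nat_lit 21) (node leaf (nat_lit 3891853855045) (nat_lit 21) leaf)) (nat_lit 3891853855057) (nat_lit 21) (node (node leaf (nat_lit 3891853856869) (nat_lit 21) leaf) (nat_lit 3891853869205) (nat_lit 16) (node leaf (nat_lit 3891854053525) (nat_lit 12) leaf)))) (nat_lit 3891861153301) (nat_lit 14) (node (node (node (node (node leaf (nat_lit 3891861197461) (nat_lit 16) leaf) (nat_lit 3891861199237) (nat_lit 12) leaf) (nat_lit 3891861202069)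 (nat_lit 5) (node leaf (nat_lit 3891861202213) (nat_lit 16) leaf)) (nat_lit 3891861202309) (nat_lit 16) (node (node leaf (nat_lit 3891861202453) (nat_lit 16) leaf) (nat_lit 3891861202501) (nat_lit 16) (node leaf (nat_lit 3891861202513) (nat_lit 0) leaf))) (nat_lit 3891861211429) (nat_lit 16) (node (node (node (node leaf (nat_lit 3891861211525) (nat_lit 16) leaf) (nat_lit 3891861226069) (nat_lit 7) leaf) (nat_lit 3891861226597) (nat_lit 6) (node leaf (nat_lit 3891861226645) (nat_lit 5) leaf)) (nat_lit 3891861226789) (nat_lit 16) (node (node leaf (nat_lit 3891861226885) (nat_lit 10) leaf) (nat_lit 3891861227029) (nat_lit 4) (node leaf (nat_lit 3891861227077) (nat_lit 2) leaf)))))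

noncomputable def L1_182 : Tr := node L1_180 (nat_lit 3891819516181) (nat_lit 12) L1_181

noncomputable def L1_183 : Tr := (node (node (node (node (node (node leaf (nat_lit 3891861229861) (nat_lit 16) leaf) (nat_lit 3891861229957) (nat_lit 8) leaf) (nat_lit 3891861229972) (nat_lit 16) (node leaf (nat_lit 3891861230164) (nat_lit 16) leaf)) (nat_lit 3891861230629) (nat_lit 16) (node (node leaf (nat_lit 3891861231697) (nat_lit 16) leaf) (nat_lit 3891861231889) (nat_lit 4) (node leaf (nat_lit 3891861234961) (nat_lit 0) leaf))) (nat_lit 3891861235009) (nat_lit 27) (node (node (node (node leaf (nat_lit 3891861275221) (nat_lit 7) leaf) (nat_lit 3891861275797) (nat_lit 10) leaf) (nat_lit 3891861276181) (nat_lit 10) (node leaf (nat_lit 3891861278821) (nat_lit 6) leaf)) (nat_lit 3891861278869) (nat_lit 5) (node (node leaf (nat_lit 3891861279001) (nat_lit 8) leaf) (nat_lit 3891861279013) (nat_lit 8) (node leaf (nat_lit 3891861279109) (nat_lit 2) leaf)))) (nat_lit 3891861279253) (nat_lit 4) (node (node (node (node (node leaf (nat_lit 3891861279781)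 (nat_lit 3) leaf) (nat_lit 3891861279817) (nat_lit 15) leaf) (nat_lit 3891861394069) (nat_lit 18) (node leaf (nat_lit 3891861395749) (nat_lit 12) leaf)) (nat_lit 3891861395860) (nat_lit 18) (node (node leaf (nat_lit 3891861396052) (nat_lit 18) leaf) (nat_lit 3891861398629) (nat_lit 6) (node leaf (nat_lit 3891861398677) (nat_lit 5) leaf))) (nat_lit 3891861398821) (nat_lit 18) (node (node (node (node leaf (nat_lit 3891861398917) (nat_lit 18) leaf) (nat_lit 3891861399061) (nat_lit 4) leaf) (nat_lit 3891861406117) (nat_lit 14) (node leaf (nat_lit 3891861408037) (nat_lit 14) leaf)) (nat_lit 3891861423397) (nat_lit 10) (node (node leaf (nat_lit 3891861426769) (nat_lit 0) leaf) (nat_lit 3891861427225) (nat_lit 4) (node leaf (nat_lit 3891861427273) (nat_lit 18) leaf)))))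

noncomputable def L1_184 : Tr := (node (node (node (node (node (node leaf (nat_lit 3891861656149) (nat_lit 12) leaf) (nat_lit 3891861656725) (nat_lit 12) leaf) (nat_lit 3891861668437) (nat_lit 14) (node leaf (nat_lit 3891861689605) (nat_lit 13) leaf)) (nat_lit 3891861689617) (nat_lit 13) (node (node leaf (nat_lit 3891861717589) (nat_lit 7) leaf) (nat_lit 3891861718117) (nat_lit 6) (node leaf (nat_lit 3891861718165) (nat_lit 10) leaf))) (nat_lit 3891861718549) (nat_lit 4) (node (node (node (node leaf (nat_lit 3891861719377) (nat_lit 9) leaf) (nat_lit 3891861721237) (nat_lit 12) leaf) (nat_lit 3891861721681) (nat_lit 12) (node leaf (nat_lit 3891861723217) (nat_lit 12) leaf)) (nat_lit 3891861726469) (nat_lit 2) (node (node leaf (nat_lit 3891861726481) (nat_lit 4) leaf) (nat_lit 3891861733477) (nat_lit 6) (node leaf (nat_lit 3891861733969) (nat_lit 7) leaf)))) (nat_lit 3891861734437) (nat_lit 10) (node (node (node (node (node leaf (nat_lit 3891861734545) (nat_lit 0) leaf) (nat_lit 3891861750853) (nat_lit 6) leaf) (nat_lit 3891861751045)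 (nat_lit 2) (node leaf (nat_lit 3891862185253) (nat_lit 20) leaf)) (nat_lit 3891863241301) (nat_lit 14) (node (node leaf (nat_lit 3891863241877) (nat_lit 14) leaf) (nat_lit 3891863243089) (nat_lit 14) (node leaf (nat_lit 3891863262277) (nat_lit 6) leaf))) (nat_lit 3891863262469) (nat_lit 2) (node (node (node (node leaf (nat_lit 3891863290453) (nat_lit 7) leaf) (nat_lit 3891863291029) (nat_lit 10) leaf) (nat_lit 3891863292229) (nat_lit 2) (node leaf (nat_lit 3891863292241) (nat_lit 9) leaf)) (nat_lit 3891863294053) (nat_lit 12) (node (node leaf (nat_lit 3891863294545) (nat_lit 12) leaf) (nat_lit 3891869520469) (nat_lit 12) (node leaf (nat_lit 3891869521045) (nat_lit 12) leaf)))))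

noncomputable def L1_185 : Tr := node L1_183 (nat_lit 3891861455269) (nat_lit 18) L1_184

noncomputable def L1_186 : Tr := node L1_182 (nat_lit 3891861229717) (nat_lit 5) L1_185

noncomputable def L1_187 : Tr := node L1_179 (nat_lit 3891816047941) (nat_lit 11) L1_186

noncomputable def L1_188 : Tr := node L1_172 (nat_lit 3885419762713) (nat_lit 4) L1_187

noncomputable def L1_189 : Tr := node L1_157 (nat_lit 3883357524229) (nat_lit 19) L1_188

noncomputable def L1_190 : Tr := (node (node (node (node (node (node leaf (nat_lit 3891869534533) (nat_lit 14) leaf) (nat_lit 3891869552965) (nat_lit 8) leaf) (nat_lit 3891869553733) (nat_lit 6) (node leaf (nat_lit 3891869583685) (nat_lit 2) leaf)) (nat_lit 3891878971717) (nat_lit 14) (node (node (node leaf (nat_lit 3891878990149) (nat_lit 8) leaf) (nat_lit 3891878990917) (nat_lit 6) leaf) (nat_lit 3891879020869) (nat_lit 2) (node leaf (nat_lit 3891879022741) (nat_lit 12) leaf))) (nat_lit 3891913101397) (nat_lit 20) (node (node (node (node leaf (nat_lit 3891913888789) (nat_lit 12) leaf) (nat_lit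 3891913900309) (nat_lit 8) leaf) (nat_lit 3891915755605) (nat_lit 16) (node leaf (nat_lit 3891915919765) (nat_lit 18) leaf)) (nat_lit 3891915921493) (nat_lit 6) (node (node leaf (nat_lit 3891915921733) (nat_lit 18) leaf) (nat_lit 3891915952405) (nat_lit 18) (node leaf (nat_lit 3891915953221) (nat_lit 18) leaf)))) (nat_lit 3891916050709) (nat_lit 18) (node (node (node (node (node leaf (nat_lit 3891916051477) (nat_lit 18) leaf) (nat_lit 3891916247317) (nat_lit 12) leaf) (nat_lit 3891916706965) (nat_lit 12) (node leaf (nat_lit 3891916708117) (nat_lit 4) leaf)) (nat_lit 3891916708165) (nat_lit 12) (node (node leaf (nat_lit 3891916711189) (nat_lit 4) leaf) (nat_lit 3891916711237) (nat_lit 11) (node leaf (nat_lit 3891916718677) (nat_lit 14) leaf))) (nat_lit 3891916719253) (nat_lit 14) (node (node (node (node leaf (nat_lit 3891916719685) (nat_lit 2) leaf) (nat_lit 3891916720453) (nat_lit 14) leaf) (nat_lit 3891916726597) (nat_lit 8) (node leaf (nat_lit 3891916738837) (nat_lit 8) leaf)) (nat_lit 3891916738885) (nat_lit 8) (node (node leaf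 (nat_lit 3891916739605) (nat_lit 4) leaf) (nat_lit 3891916769605) (nat_lit 2) (node leaf (nat_lit 3891916836949) (nat_lit 6) leaf)))))

noncomputable def L1_191 : Tr := (node (node (node (node (node (node leaf (nat_lit 3891917819989) (nat_lit 6) leaf) (nat_lit 3891920179285) (nat_lit 18) leaf) (nat_lit 3891920179477) (nat_lit 8) (node leaf (nat_lit 3891920965717) (nat_lit 16) leaf)) (nat_lit 3891921159253) (nat_lit 10) (node (node leaf (nat_lit 3891932435029) (nat_lit 12) leaf) (nat_lit 3891932435605) (nat_lit 12) (node leaf (nat_lit 3891932447317) (nat_lit 14) leaf))) (nat_lit 3891945295957) (nat_lit 14) (node (node (node (node leaf (nat_lit 3891945342037) (nat_lit 10) leaf) (nat_lit 3891945345109) (nat_lit 18) leaf) (nat_lit 3891946128469) (nat_lit 10) (node leaf (nat_lit 3892465214785) (nat_lit 25) leaf)) (nat_lit 3892583769412) (nat_lit 20) (node (node leaf (nat_lit 3892584162625) (nat_lit 0) leaf) (nat_lit 3892586915137) (nat_lit 0) (node leaf (nat_lit 3892591240513) (nat_lit 18) leaf)))) (nat_lit 3892592026897) (nat_lit 4)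 (node (node (node (node (node leaf (nat_lit 3892616209729) (nat_lit 16) leaf) (nat_lit 3892616406289) (nat_lit 4) leaf) (nat_lit 3892716872977) (nat_lit 4) (node leaf (nat_lit 3892867867921) (nat_lit 4) leaf)) (nat_lit 3893423837461) (nat_lit 19) (node (node leaf (nat_lit 3893423849749) (nat_lit 19) leaf) (nat_lit 3893425871173) (nat_lit 18) (node leaf (nat_lit 3893425901845) (nat_lit 18) leaf))) (nat_lit 3893425902661) (nat_lit 18) (node (node (node (node leaf (nat_lit 3893426000149) (nat_lit 18) leaf) (nat_lit 3893426000917) (nat_lit 18) leaf) (nat_lit 3893426196757) (nat_lit 17) (node leaf (nat_lit 3893426209045) (nat_lit 17) leaf)) (nat_lit 3893426657557) (nat_lit 4) (node (node leaf (nat_lit 3893426657605) (nat_lit 12) leaf) (nat_lit 3893426660629) (nat_lit 11) (node leaf (nat_lit 3893426660677) (nat_lit 11) leaf)))))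

noncomputable def L1_192 : Tr := node L1_190 (nat_lit 3891916837141) (nat_lit 8) L1_191

noncomputable def L1_193 : Tr := (node (node (node (node (node (node leaf (nat_lit 3893426668645) (nat_lit 10) leaf) (nat_lit 3893426668693) (nat_lit 14) leaf) (nat_lit 3893426669077) (nat_lit 4) (node leaf (nat_lit 3893426669125) (nat_lit 10) leaf)) (nat_lit 3893426669845) (nat_lit 4) (node (node leaf (nat_lit 3893426669893) (nat_lit 14) leaf) (nat_lit 3893426671717) (nat_lit 14) (node leaf (nat_lit 3893426672149) (nat_lit 4) leaf))) (nat_lit 3893426675797) (nat_lit 6) (node (node (node (node leaf (nat_lit 3893426676037) (nat_lit 8) leaf) (nat_lit 3893426676757) (nat_lit 4) leaf) (nat_lit 3893426685205) (nat_lit 10) (node leaf (nat_lit 3893426688277) (nat_lit 4) leaf)) (nat_lit 3893426688325) (nat_lit 8) (node (node leaf (nat_lit 3893426689045) (nat_lit 4) leaf) (nat_lit 3893426689093) (nat_lit 6) (node leaf (nat_lit 3893426717845) (nat_lit 10) leaf)))) (nat_lit 3893426719045) (nat_lit 2) (node (node (node (node (node leaf (nat_lit 3893426720917)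 (nat_lit 12) leaf) (nat_lit 3893426786389) (nat_lit 6) leaf) (nat_lit 3893426786581) (nat_lit 8) (node leaf (nat_lit 3893426798869) (nat_lit 8) leaf)) (nat_lit 3893427176725) (nat_lit 10) (node (node leaf (nat_lit 3893427179605) (nat_lit 6) leaf) (nat_lit 3893427179797) (nat_lit 12) (node leaf (nat_lit 3893427769429) (nat_lit 6) leaf))) (nat_lit 3893427769621) (nat_lit 12) (node (node (node (node leaf (nat_lit 3893430128725) (nat_lit 6) leaf) (nat_lit 3893430128917) (nat_lit 12) leaf) (nat_lit 3893431108693) (nat_lit 10) (node leaf (nat_lit 3893456552533) (nat_lit 20) leaf)) (nat_lit 3893456553109) (nat_lit 20) (node (node leaf (nat_lit 3893456601685) (nat_lit 20) leaf) (nat_lit 3893459255893) (nat_lit 22) (node leaf (nat_lit 3893459305045) (nat_lit 22) leaf)))))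

noncomputable def L1_194 : Tr := (node (node (node (node (node (node leaf (nat_lit 3893459685973) (nat_lit 12) leaf) (nat_lit 3893459686549) (nat_lit 12) leaf) (nat_lit 3893459698261) (nat_lit 14) (node leaf (nat_lit 3893464404565) (nat_lit 12) leaf)) (nat_lit 3893464405141) (nat_lit 12) (node (node leaf (nat_lit 3893464416853) (nat_lit 14) leaf) (nat_lit 3893471761045) (nat_lit 14) (node leaf (nat_lit 3893471765077) (nat_lit 7) leaf))) (nat_lit 3893471765653) (nat_lit 14) (node (node (node (node leaf (nat_lit 3893471766037) (nat_lit 14) leaf) (nat_lit 3893471807125) (nat_lit 10) leaf) (nat_lit 3893471811733) (nat_lit 5) (node leaf (nat_lit 3893471811877) (nat_lit 12) leaf)) (nat_lit 3893471814229) (nat_lit 7) (node (node leaf (nat_lit 3893471814805) (nat_lit 16) leaf) (nat_lit 3893471815045) (nat_lit 16) (node leaf (nat_lit 3893471815189) (nat_lit 16) leaf)))) (nat_lit 3893471822245) (nat_lit 16) (node (node (node (node (node leaf (nat_lit 3893471838805) (nat_lit 7) leaf) (nat_lit 3893471839381) (nat_lit 10) leaf) (nat_lit 3893471875669)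 (nat_lit 12) (node leaf (nat_lit 3893471887957) (nat_lit 7) leaf)) (nat_lit 3893471888533) (nat_lit 10) (node (node leaf (nat_lit 3893472003733) (nat_lit 10) leaf) (nat_lit 3893472011413) (nat_lit 5) (node leaf (nat_lit 3893472011557) (nat_lit 18) leaf))) (nat_lit 3893524500565) (nat_lit 19) (node (node (node (node leaf (nat_lit 3893524500757) (nat_lit 12) leaf) (nat_lit 3893526337861) (nat_lit 16) leaf) (nat_lit 3893526368533) (nat_lit 16) (node leaf (nat_lit 3893526417685) (nat_lit 15) leaf)) (nat_lit 3893526418453) (nat_lit 15) (node (node leaf (nat_lit 3893526534421) (nat_lit 4) leaf) (nat_lit 3893526562069) (nat_lit 10) (node leaf (nat_lit 3893526565141) (nat_lit 18) leaf)))))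

noncomputable def L1_195 : Tr := node L1_193 (nat_lit 3893459305621) (nat_lit 22) L1_194

noncomputable def L1_196 : Tr := node L1_192 (nat_lit 3893426668117) (nat_lit 14) L1_195

noncomputable def L1_197 : Tr := (node (node (node (node (node (node leaf (nat_lit 3893526565909) (nat_lit 4) leaf) (nat_lit 3893526663253) (nat_lit 6) leaf) (nat_lit 3893526663445) (nat_lit 8) (node leaf (nat_lit 3893526856981) (nat_lit 10) leaf)) (nat_lit 3893526859861) (nat_lit 6) (node (node leaf (nat_lit 3893527319125) (nat_lit 12) leaf) (nat_lit 3893527319701) (nat_lit 12) (node leaf (nat_lit 3893527320853) (nat_lit 4) leaf))) (nat_lit 3893527320901) (nat_lit 12) (node (node (node (node leaf (nat_lit 3893527323733) (nat_lit 6) leaf) (nat_lit 3893527323925) (nat_lit 4) leaf) (nat_lit 3893527333189) (nat_lit 14) (node leaf (nat_lit 3893527339285) (nat_lit 4) leaf)) (nat_lit 3893527351381) (nat_lit 6) (node (node leaf (nat_lit 3893528429653) (nat_lit 10) leaf) (nat_lit 3893530788949) (nat_lit 10) (node leaf (nat_lit 3893530792021) (nat_lit 6) leaf))))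 (nat_lit 3893531575381) (nat_lit 16) (node (node (node (node (node leaf (nat_lit 3893531771221) (nat_lit 8) leaf) (nat_lit 3893539914325) (nat_lit 20) leaf) (nat_lit 3893543044693) (nat_lit 10) (node leaf (nat_lit 3893543047573) (nat_lit 8) leaf)) (nat_lit 3893543047765) (nat_lit 12) (node (node leaf (nat_lit 3893555905621) (nat_lit 14) leaf) (nat_lit 3893555954005) (nat_lit 8) (node leaf (nat_lit 3893555954773) (nat_lit 18) leaf))) (nat_lit 3893556740437) (nat_lit 8) (node (node (node (node leaf (nat_lit 3893927150677) (nat_lit 19) leaf) (nat_lit 3893927153749) (nat_lit 6) leaf) (nat_lit 3893928990997) (nat_lit 4) (node leaf (nat_lit 3893929018645) (nat_lit 10) leaf)) (nat_lit 3893929021525) (nat_lit 6) (node (node leaf (nat_lit 3893929070677) (nat_lit 6) leaf) (nat_lit 3893929070869) (nat_lit 8) (node leaf (nat_lit 3893929185877) (nat_lit 18) leaf)))))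

noncomputable def L1_198 : Tr := (node (node (node (node (node (node leaf (nat_lit 3893929190677) (nat_lit 18) leaf) (nat_lit 3893929509973) (nat_lit 10) leaf) (nat_lit 3893929969237) (nat_lit 10) (node leaf (nat_lit 3893929972117) (nat_lit 8) leaf)) (nat_lit 3893929973845) (nat_lit 6) (node (node leaf (nat_lit 3893931082069) (nat_lit 8) leaf) (nat_lit 3893933441365) (nat_lit 8) (node leaf (nat_lit 3893933442133) (nat_lit 10) leaf))) (nat_lit 3893934227797) (nat_lit 16) (node (node (node (node leaf (nat_lit 3893942552149) (nat_lit 20) leaf) (nat_lit 3893942555221) (nat_lit 20) leaf) (nat_lit 3893958558037) (nat_lit 14) (node leaf (nat_lit 3893958607189) (nat_lit 18) leaf)) (nat_lit 3894059209045) (nat_lit 12) (node (node leaf (nat_lit 3894059221333) (nat_lit 14) leaf) (nat_lit 3986175574165) (nat_lit 14) (node leaf (nat_lit 3986427218257) (nat_lit 0) leaf)))) (nat_lit 3986436739093) (nat_lit 19) (node (node (node (node (node leaf (nat_lit 3986436739141) (nat_lit 19) leaf) (nat_lit 3986439098389) (nat_lit 17) leaf) (nat_lit 3986439098437)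 (nat_lit 17) (node leaf (nat_lit 3986439557713) (nat_lit 0) leaf)) (nat_lit 3986439562309) (nat_lit 6) (node (node leaf (nat_lit 3986439562501) (nat_lit 2) leaf) (nat_lit 3986439574597) (nat_lit 6) (node leaf (nat_lit 3986439574789) (nat_lit 2) leaf))) (nat_lit 3986439603781) (nat_lit 2) (node (node (node (node leaf (nat_lit 3986439604549) (nat_lit 16) leaf) (nat_lit 3986439604564) (nat_lit 16) leaf) (nat_lit 3986439606421) (nat_lit 16) (node leaf (nat_lit 3986439606565) (nat_lit 8) leaf)) (nat_lit 3986439606865) (nat_lit 16) (node (node leaf (nat_lit 3986439611653) (nat_lit 16) leaf) (nat_lit 3986439618853) (nat_lit 16) (node leaf (nat_lit 3986439685141) (nat_lit 4) leaf)))))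

noncomputable def L1_199 : Tr := node L1_197 (nat_lit 3893929190485) (nat_lit 18) L1_198

noncomputable def L1_200 : Tr := (node (node (node (node (node (node leaf (nat_lit 3986439688261) (nat_lit 6) leaf) (nat_lit 3986439799909) (nat_lit 6) leaf) (nat_lit 3986439801157) (nat_lit 2) (node leaf (nat_lit 3986439803029) (nat_lit 12) leaf)) (nat_lit 3986439815317) (nat_lit 14) (node (node leaf (nat_lit 3986440078357) (nat_lit 10) leaf) (nat_lit 3986440078405) (nat_lit 10) (node leaf (nat_lit 3986440668181) (nat_lit 10) leaf))) (nat_lit 3986440668229) (nat_lit 10) (node (node (node (node leaf (nat_lit 3986443027477) (nat_lit 10) leaf) (nat_lit 3986443027525) (nat_lit 10) leaf) (nat_lit 3987987513493) (nat_lit 26) (node leaf (nat_lit 3988037830981) (nat_lit 2) leaf)) (nat_lit 3988047348757) (nat_lit 19) (node (node leaf (nat_lit 3988047348805) (nat_lit 19) leaf) (nat_lit 3988049708053) (nat_lit 17) (node leaf (nat_lit 3988049708101) (nat_lit 17) leaf)))) (nat_lit 3988050167365) (nat_lit 14) (node (node (node (node (node leaf (nat_lit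 3988050167377) (nat_lit 10) leaf) (nat_lit 3988050168133) (nat_lit 14) leaf) (nat_lit 3988050168148) (nat_lit 14) (node leaf (nat_lit 3988050170449) (nat_lit 14) leaf)) (nat_lit 3988050174277) (nat_lit 8) (node (node leaf (nat_lit 3988050174997) (nat_lit 4) leaf) (nat_lit 3988050175045) (nat_lit 6) (node leaf (nat_lit 3988050175237) (nat_lit 14) leaf))) (nat_lit 3988050187285) (nat_lit 4) (node (node (node (node leaf (nat_lit 3988050187333) (nat_lit 6) leaf) (nat_lit 3988050216037) (nat_lit 16) leaf) (nat_lit 3988050216085) (nat_lit 10) (node leaf (nat_lit 3988050216469) (nat_lit 4) leaf)) (nat_lit 3988050217285) (nat_lit 16) (node (node leaf (nat_lit 3988050219109) (nat_lit 6) leaf) (nat_lit 3988050219157) (nat_lit 16) (node leaf (nat_lit 3988050219589) (nat_lit 2) leaf)))))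

noncomputable def L1_201 : Tr := (node (node (node (node (node (node leaf (nat_lit 3988050231445) (nat_lit 16) leaf) (nat_lit 3988050285589) (nat_lit 12) leaf) (nat_lit 3988050297109) (nat_lit 8) (node leaf (nat_lit 3988050297877) (nat_lit 10) leaf)) (nat_lit 3988050297925) (nat_lit 10) (node (node leaf (nat_lit 3988050415765) (nat_lit 12) leaf) (nat_lit 3988050678805) (nat_lit 12) (node leaf (nat_lit 3988050690325) (nat_lit 8) leaf))) (nat_lit 3988050691093) (nat_lit 4) (node (node (node (node leaf (nat_lit 3988051268629) (nat_lit 12) leaf) (nat_lit 3988051280149) (nat_lit 8) leaf) (nat_lit 3988051280917) (nat_lit 4) (node leaf (nat_lit 3988053627925) (nat_lit 12) leaf)) (nat_lit 3988053639445) (nat_lit 8) (node (node leaf (nat_lit 3988053640213) (nat_lit 4) leaf) (nat_lit 3988440287557) (nat_lit 16) (node leaf (nat_lit 3988450001173) (nat_lit 19) leaf)))) (nat_lit 3988450001941) (nat_lit 19) (node (node (node (node (node leaf (nat_lit 3988452360469) (nat_lit 17) leaf) (nat_lit 3988452361237) (nat_lit 17) leaf) (nat_lit 3988452809029)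 (nat_lit 12) (node leaf (nat_lit 3988452820117) (nat_lit 14) leaf)) (nat_lit 3988452820501) (nat_lit 14) (node (node leaf (nat_lit 3988452820549) (nat_lit 2) leaf) (nat_lit 3988452820561) (nat_lit 10) (node leaf (nat_lit 3988452821269) (nat_lit 4) leaf))) (nat_lit 3988452821317) (nat_lit 14) (node (node (node (node leaf (nat_lit 3988452823141) (nat_lit 14) leaf) (nat_lit 3988452823621) (nat_lit 2) leaf) (nat_lit 3988452827413) (nat_lit 4) (node leaf (nat_lit 3988452827461) (nat_lit 8) leaf)) (nat_lit 3988452828181) (nat_lit 4) (node (node leaf (nat_lit 3988452828229) (nat_lit 6) leaf) (nat_lit 3988452839701) (nat_lit 8) (node leaf (nat_lit 3988452839749) (nat_lit 8) leaf)))))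

noncomputable def L1_202 : Tr := node L1_200 (nat_lit 3988050231397) (nat_lit 6) L1_201

noncomputable def L1_203 : Tr := node L1_199 (nat_lit 3986439688213) (nat_lit 4) L1_202

noncomputable def L1_204 : Tr := node L1_196 (nat_lit 3893526565189) (nat_lit 8) L1_203

noncomputable def L1_205 : Tr := (node (node (node (node (node (node leaf (nat_lit 3988452840517) (nat_lit 23) leaf) (nat_lit 3988452868693) (nat_lit 7) leaf) (nat_lit 3988452869269) (nat_lit 10) (node leaf (nat_lit 3988452870469) (nat_lit 23) leaf)) (nat_lit 3988452872293) (nat_lit 23) (node (node leaf (nat_lit 3988452872341) (nat_lit 12) leaf) (nat_lit 3988452938005) (nat_lit 8) (node leaf (nat_lit 3988452938773) (nat_lit 12) leaf))) (nat_lit 3988452950293) (nat_lit 8) (node (node (node (node leaf (nat_lit 3988452951061) (nat_lit 4) leaf) (nat_lit 3988453331221) (nat_lit 12) leaf) (nat_lit 3988453331989) (nat_lit 12) (node leaf (nat_lit 3988453921045) (nat_lit 12) leaf)) (nat_lit 3988453921813) (nat_lit 12) (node (node leaf (nat_lit 3988456280341) (nat_lit 12) leaf)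 (nat_lit 3988456281109) (nat_lit 12) (node leaf (nat_lit 3988487473477) (nat_lit 22) leaf)))) (nat_lit 3988490589253) (nat_lit 21) (node (node (node (node (node leaf (nat_lit 3988490589445) (nat_lit 21) leaf) (nat_lit 3988490619205) (nat_lit 21) leaf) (nat_lit 3988490621029) (nat_lit 21) (node leaf (nat_lit 3988490633365) (nat_lit 16) leaf)) (nat_lit 3988490817685) (nat_lit 12) (node (node leaf (nat_lit 3988497917461) (nat_lit 14) leaf) (nat_lit 3988497961621) (nat_lit 12) (node leaf (nat_lit 3988497963397) (nat_lit 12) leaf))) (nat_lit 3988497963604) (nat_lit 12) (node (node (node (node leaf (nat_lit 3988497966229) (nat_lit 5) leaf) (nat_lit 3988497966373) (nat_lit 16) leaf) (nat_lit 3988497966613) (nat_lit 16) (node leaf (nat_lit 3988497966661) (nat_lit 16) leaf)) (nat_lit 3988497966673) (nat_lit 16) (node (node leaf (nat_lit 3988497975589) (nat_lit 16) leaf) (nat_lit 3988497975685) (nat_lit 16) (node leaf (nat_lit 3988497990757) (nat_lit 6) leaf)))))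

noncomputable def L1_206 : Tr := (node (node (node (node (node (node leaf (nat_lit 3988497991045) (nat_lit 10) leaf) (nat_lit 3988497991189) (nat_lit 4) leaf) (nat_lit 3988497991237) (nat_lit 2) (node leaf (nat_lit 3988497992017) (nat_lit 9) leaf)) (nat_lit 3988497993877) (nat_lit 5) (node (node leaf (nat_lit 3988497994021) (nat_lit 16) leaf) (nat_lit 3988497994117) (nat_lit 8) (node leaf (nat_lit 3988497994132) (nat_lit 16) leaf))) (nat_lit 3988497994321) (nat_lit 0) (node (node (node (node leaf (nat_lit 3988497994324) (nat_lit 16) leaf) (nat_lit 3988497994789) (nat_lit 16) leaf) (nat_lit 3988497995857) (nat_lit 16) (node leaf (nat_lit 3988497996049) (nat_lit 16) leaf)) (nat_lit 3988497999121) (nat_lit 0) (node (node leaf (nat_lit 3988498039381) (nat_lit 7) leaf) (nat_lit 3988498039957) (nat_lit 10) (node leaf (nat_lit 3988498040341) (nat_lit 10) leaf)))) (nat_lit 3988498042981) (nat_lit 6) (node (node (node (node (node leaf (nat_lit 3988498043029) (nat_lit 5) leaf) (nat_lit 3988498043161) (nat_lit 8) leaf) (nat_lit 3988498043173)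 (nat_lit 8) (node leaf (nat_lit 3988498043269) (nat_lit 2) leaf)) (nat_lit 3988498043413) (nat_lit 4) (node (node leaf (nat_lit 3988498043941) (nat_lit 3) leaf) (nat_lit 3988498043977) (nat_lit 6) (node leaf (nat_lit 3988498158229) (nat_lit 18) leaf))) (nat_lit 3988498159909) (nat_lit 12) (node (node (node (node leaf (nat_lit 3988498160020) (nat_lit 18) leaf) (nat_lit 3988498160212) (nat_lit 12) leaf) (nat_lit 3988498162789) (nat_lit 6) (node leaf (nat_lit 3988498162837) (nat_lit 5) leaf)) (nat_lit 3988498162981) (nat_lit 18) (node (node leaf (nat_lit 3988498163077) (nat_lit 18) leaf) (nat_lit 3988498163221) (nat_lit 4) (node leaf (nat_lit 3988498170277) (nat_lit 14) leaf)))))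

noncomputable def L1_207 : Tr := node L1_205 (nat_lit 3988497990949) (nat_lit 16) L1_206

noncomputable def L1_208 : Tr := (node (node (node (node (node (node leaf (nat_lit 3988498187557) (nat_lit 10) leaf) (nat_lit 3988498190737) (nat_lit 0) leaf) (nat_lit 3988498190929) (nat_lit 0) (node leaf (nat_lit 3988498191385) (nat_lit 18) leaf)) (nat_lit 3988498219429) (nat_lit 18) (node (node leaf (nat_lit 3988498420309) (nat_lit 12) leaf) (nat_lit 3988498420885) (nat_lit 12) (node leaf (nat_lit 3988498432597) (nat_lit 7) leaf))) (nat_lit 3988498433173) (nat_lit 10) (node (node (node (node leaf (nat_lit 3988498436245) (nat_lit 14) leaf) (nat_lit 3988498453765) (nat_lit 13) leaf) (nat_lit 3988498453777) (nat_lit 13) (node leaf (nat_lit 3988498481749) (nat_lit 7) leaf)) (nat_lit 3988498482277) (nat_lit 6) (node (node leaf (nat_lit 3988498482325) (nat_lit 10) leaf) (nat_lit 3988498482709) (nat_lit 4) (node leaf (nat_lit 3988498483525) (nat_lit 2) leaf)))) (nat_lit 3988498483537) (nat_lit 9) (node (node (node (node (node leaf (nat_lit 3988498485397)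 (nat_lit 12) leaf) (nat_lit 3988498485841) (nat_lit 0) leaf) (nat_lit 3988498487377) (nat_lit 12) (node leaf (nat_lit 3988498490629) (nat_lit 2) leaf)) (nat_lit 3988498490641) (nat_lit 11) (node (node leaf (nat_lit 3988498497637) (nat_lit 6) leaf) (nat_lit 3988498498129) (nat_lit 0) (node leaf (nat_lit 3988498498597) (nat_lit 10) leaf))) (nat_lit 3988498499857) (nat_lit 4) (node (node (node (node leaf (nat_lit 3988498515013) (nat_lit 6) leaf) (nat_lit 3988498515205) (nat_lit 2) leaf) (nat_lit 3988498949413) (nat_lit 20) (node leaf (nat_lit 3988498956709) (nat_lit 14) leaf)) (nat_lit 3988500005461) (nat_lit 14) (node (node leaf (nat_lit 3988500006037) (nat_lit 10) leaf) (nat_lit 3988500007249) (nat_lit 14) (node leaf (nat_lit 3988500026437) (nat_lit 6) leaf)))))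

noncomputable def L1_209 : Tr := (node (node (node (node (node (node leaf (nat_lit 3988500054613) (nat_lit 7) leaf) (nat_lit 3988500055189) (nat_lit 10) leaf) (nat_lit 3988500056389) (nat_lit 2) (node leaf (nat_lit 3988500056401) (nat_lit 9) leaf)) (nat_lit 3988500058213) (nat_lit 12) (node (node leaf (nat_lit 3988500058705) (nat_lit 12) leaf) (nat_lit 3988506284629) (nat_lit 12) (node leaf (nat_lit 3988506285205) (nat_lit 12) leaf))) (nat_lit 3988506296917) (nat_lit 14) (node (node (node (node leaf (nat_lit 3988506298693) (nat_lit 14) leaf) (nat_lit 3988506317125) (nat_lit 8) leaf) (nat_lit 3988506317893) (nat_lit 6) (node leaf (nat_lit 3988506347845) (nat_lit 2) leaf)) (nat_lit 3988515735877) (nat_lit 14) (node (node leaf (nat_lit 3988515754309) (nat_lit 8) leaf) (nat_lit 3988515755077) (nat_lit 6) (node leaf (nat_lit 3988515785029) (nat_lit 20) leaf)))) (nat_lit 3988515786901) (nat_lit 12) (node (node (node (node (node leaf (nat_lit 3988550652181) (nat_lit 19) leaf) (nat_lit 3988550652949) (nat_lit 12) leaf) (nat_lit 3988552716565)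 (nat_lit 18) (node leaf (nat_lit 3988553011477) (nat_lit 12) leaf)) (nat_lit 3988553471125) (nat_lit 12) (node (node leaf (nat_lit 3988553472277) (nat_lit 4) leaf) (nat_lit 3988553472325) (nat_lit 12) (node leaf (nat_lit 3988553475349) (nat_lit 11) leaf))) (nat_lit 3988553475397) (nat_lit 11) (node (node (node (node leaf (nat_lit 3988553482837) (nat_lit 14) leaf) (nat_lit 3988553483413) (nat_lit 14) leaf) (nat_lit 3988553483845) (nat_lit 2) (node leaf (nat_lit 3988553484565) (nat_lit 4) leaf)) (nat_lit 3988553484613) (nat_lit 14) (node (node leaf (nat_lit 3988553490757) (nat_lit 8) leaf) (nat_lit 3988553502997) (nat_lit 4) (node leaf (nat_lit 3988553503045) (nat_lit 8) leaf)))))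

noncomputable def L1_210 : Tr := node L1_208 (nat_lit 3988500026629) (nat_lit 2) L1_209

noncomputable def L1_211 : Tr := node L1_207 (nat_lit 3988498172197) (nat_lit 18) L1_210

noncomputable def L1_212 : Tr := (node (node (node (node (node (node leaf (nat_lit 3988553533765) (nat_lit 22) leaf) (nat_lit 3988553601109) (nat_lit 6) leaf) (nat_lit 3988553601301) (nat_lit 8) (node leaf (nat_lit 3988554584149) (nat_lit 6) leaf)) (nat_lit 3988556943445) (nat_lit 6) (node (node leaf (nat_lit 3988556943637) (nat_lit 8) leaf) (nat_lit 3988569199189) (nat_lit 12) (node leaf (nat_lit 3988569199765) (nat_lit 12) leaf))) (nat_lit 3988569211477) (nat_lit 14) (node (node (node (node leaf (nat_lit 3988582060117) (nat_lit 14) leaf) (nat_lit 3988582109269) (nat_lit 6) leaf) (nat_lit 3994429952149) (nat_lit 12) (node leaf (nat_lit 3994489787413) (nat_lit 19) leaf)) (nat_lit 3994489799701) (nat_lit 19) (node (node leaf (nat_lit 3994492146709) (nat_lit 17) leaf) (nat_lit 3994492158997) (nat_lit 17) (node leaf (nat_lit 3994492606789) (nat_lit 12) leaf))))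 (nat_lit 3994492617877) (nat_lit 14) (node (node (node (node (node leaf (nat_lit 3994492618261) (nat_lit 14) leaf) (nat_lit 3994492618309) (nat_lit 2) leaf) (nat_lit 3994492619029) (nat_lit 4) (node leaf (nat_lit 3994492619077) (nat_lit 14) leaf)) (nat_lit 3994492619089) (nat_lit 0) (node (node leaf (nat_lit 3994492620901) (nat_lit 14) leaf) (nat_lit 3994492620949) (nat_lit 14) (node leaf (nat_lit 3994492621381) (nat_lit 14) leaf))) (nat_lit 3994492625173) (nat_lit 4) (node (node (node (node leaf (nat_lit 3994492625221) (nat_lit 8) leaf) (nat_lit 3994492625941) (nat_lit 4) leaf) (nat_lit 3994492625989) (nat_lit 6) (node leaf (nat_lit 3994492637461) (nat_lit 8) leaf)) (nat_lit 3994492638229) (nat_lit 4) (node (node leaf (nat_lit 3994492666453) (nat_lit 7) leaf) (nat_lit 3994492667029) (nat_lit 10) (node leaf (nat_lit 3994492670053) (nat_lit 12) leaf)))))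

noncomputable def L1_213 : Tr := (node (node (node (node (node (node leaf (nat_lit 3994492735765) (nat_lit 12) leaf) (nat_lit 3994492736533) (nat_lit 12) leaf) (nat_lit 3994492747861) (nat_lit 6) (node leaf (nat_lit 3994492748053) (nat_lit 8) leaf)) (nat_lit 3994492748821) (nat_lit 4) (node (node leaf (nat_lit 3994492863637) (nat_lit 10) leaf) (nat_lit 3994493128981) (nat_lit 8) (node leaf (nat_lit 3994493129749) (nat_lit 12) leaf))) (nat_lit 3994493141269) (nat_lit 8) (node (node (node (node leaf (nat_lit 3994493718805) (nat_lit 8) leaf) (nat_lit 3994493719573) (nat_lit 12) leaf) (nat_lit 3994493731093) (nat_lit 8) (node leaf (nat_lit 3994496078101) (nat_lit 8) leaf)) (nat_lit 3994496078869) (nat_lit 12) (node (node leaf (nat_lit 3994496090389) (nat_lit 8) leaf) (nat_lit 3994892439829) (nat_lit 19) (node leaf (nat_lit 3994892440597) (nat_lit 19) leaf)))) (nat_lit 3994894504213) (nat_lit 18) (node (node (node (node (node leaf (nat_lit 3994894799125) (nat_lit 17) leaf) (nat_lit 3994894799893) (nat_lit 17) leaf) (nat_lit 3994895258773)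 (nat_lit 12) (node leaf (nat_lit 3994895259925) (nat_lit 12) leaf)) (nat_lit 3994895259973) (nat_lit 12) (node (node leaf (nat_lit 3994895262997) (nat_lit 11) leaf) (nat_lit 3994895263045) (nat_lit 11) (node leaf (nat_lit 3994895270293) (nat_lit 8) leaf))) (nat_lit 3994895270485) (nat_lit 7) (node (node (node (node leaf (nat_lit 3994895271013) (nat_lit 10) leaf) (nat_lit 3994895271061) (nat_lit 14) leaf) (nat_lit 3994895271445) (nat_lit 4) (node leaf (nat_lit 3994895271493) (nat_lit 10) leaf)) (nat_lit 3994895272213) (nat_lit 4) (node (node leaf (nat_lit 3994895272261) (nat_lit 23) leaf) (nat_lit 3994895274085) (nat_lit 14) (node leaf (nat_lit 3994895274517) (nat_lit 4) leaf)))))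

noncomputable def L1_214 : Tr := node L1_212 (nat_lit 3994492670101) (nat_lit 16) L1_213

noncomputable def L1_215 : Tr := (node (node (node (node (node (node leaf (nat_lit 3994895278357) (nat_lit 4) leaf) (nat_lit 3994895278405) (nat_lit 8) leaf) (nat_lit 3994895279125) (nat_lit 4) (node leaf (nat_lit 3994895287573) (nat_lit 10) leaf)) (nat_lit 3994895290453) (nat_lit 6) (node (node leaf (nat_lit 3994895290645) (nat_lit 8) leaf) (nat_lit 3994895290693) (nat_lit 23) (node leaf (nat_lit 3994895291461) (nat_lit 23) leaf))) (nat_lit 3994895320213) (nat_lit 10) (node (node (node (node leaf (nat_lit 3994895321413) (nat_lit 23) leaf) (nat_lit 3994895323285) (nat_lit 23) leaf) (nat_lit 3994895388757) (nat_lit 6) (node leaf (nat_lit 3994895388949) (nat_lit 12) leaf)) (nat_lit 3994895389717) (nat_lit 12) (node (node leaf (nat_lit 3994895401237) (nat_lit 8) leaf) (nat_lit 3994895779093) (nat_lit 10) (node leaf (nat_lit 3994895781973) (nat_lit 6) leaf)))) (nat_lit 3994895782165) (nat_lit 8) (node (node (node (node (node leaf (nat_lit 3994896368917)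 (nat_lit 10) leaf) (nat_lit 3994896371797) (nat_lit 6) leaf) (nat_lit 3994896371989) (nat_lit 8) (node leaf (nat_lit 3994898728213) (nat_lit 10) leaf)) (nat_lit 3994898731093) (nat_lit 6) (node (node leaf (nat_lit 3994898731285) (nat_lit 8) leaf) (nat_lit 3994927907989) (nat_lit 22) (node leaf (nat_lit 3994928288341) (nat_lit 22) leaf))) (nat_lit 3994928288917) (nat_lit 22) (node (node (node (node leaf (nat_lit 3994928300629) (nat_lit 22) leaf) (nat_lit 3994933006933) (nat_lit 21) leaf) (nat_lit 3994933007509) (nat_lit 21) (node leaf (nat_lit 3994933019221) (nat_lit 21) leaf)) (nat_lit 3994933020997) (nat_lit 21) (node (node leaf (nat_lit 3994933039429) (nat_lit 21) leaf) (nat_lit 3994933040197) (nat_lit 21) (node leaf (nat_lit 3994933070149) (nat_lit 21) leaf)))))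

noncomputable def L1_216 : Tr := (node (node (node (node (node (node leaf (nat_lit 3994933265557) (nat_lit 10) leaf) (nat_lit 3994940363413) (nat_lit 14) leaf) (nat_lit 3994940367445) (nat_lit 7) (node leaf (nat_lit 3994940368021) (nat_lit 14) leaf)) (nat_lit 3994940368405) (nat_lit 14) (node (node leaf (nat_lit 3994940409493) (nat_lit 10) leaf) (nat_lit 3994940414341) (nat_lit 12) (node leaf (nat_lit 3994940414356) (nat_lit 16) leaf))) (nat_lit 3994940414548) (nat_lit 16) (node (node (node (node leaf (nat_lit 3994940417173) (nat_lit 16) leaf) (nat_lit 3994940417317) (nat_lit 16) leaf) (nat_lit 3994940417413) (nat_lit 16) (node leaf (nat_lit 3994940417557) (nat_lit 16) leaf)) (nat_lit 3994940417605) (nat_lit 2) (node (node leaf (nat_lit 3994940426533) (nat_lit 16) leaf) (nat_lit 3994940441173) (nat_lit 7) (node leaf (nat_lit 3994940441701) (nat_lit 6) leaf)))) (nat_lit 3994940441749) (nat_lit 5) (node (node (node (node (node leaf (nat_lit 3994940441893) (nat_lit 16) leaf) (nat_lit 3994940442133) (nat_lit 4) leaf) (nat_lit 3994940442961)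 (nat_lit 9) (node leaf (nat_lit 3994940444821) (nat_lit 5) leaf)) (nat_lit 3994940444965) (nat_lit 8) (node (node leaf (nat_lit 3994940445073) (nat_lit 0) leaf) (nat_lit 3994940445265) (nat_lit 0) (node leaf (nat_lit 3994940445721) (nat_lit 16) leaf))) (nat_lit 3994940446789) (nat_lit 2) (node (node (node (node leaf (nat_lit 3994940446801) (nat_lit 6) leaf) (nat_lit 3994940446981) (nat_lit 2) leaf) (nat_lit 3994940449873) (nat_lit 6) (node leaf (nat_lit 3994940450053) (nat_lit 2) leaf)) (nat_lit 3994940450065) (nat_lit 27) (node (node leaf (nat_lit 3994940478037) (nat_lit 12) leaf) (nat_lit 3994940478613) (nat_lit 12) (node leaf (nat_lit 3994940490133) (nat_lit 8) leaf)))))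

noncomputable def L1_217 : Tr := node L1_215 (nat_lit 3994933072021) (nat_lit 16) L1_216

noncomputable def L1_218 : Tr := node L1_214 (nat_lit 3994895278165) (nat_lit 6) L1_217

noncomputable def L1_219 : Tr := node L1_211 (nat_lit 3988553503765) (nat_lit 4) L1_218

noncomputable def L1_220 : Tr := node L1_204 (nat_lit 3988452840469) (nat_lit 4) L1_219

noncomputable def L1_221 : Tr := (node (node (node (node (node (node leaf (nat_lit 3994940490901) (nat_lit 10) leaf) (nat_lit 3994940491285) (nat_lit 10) leaf) (nat_lit 3994940493973) (nat_lit 5) (node leaf (nat_lit 3994940494117) (nat_lit 8) leaf)) (nat_lit 3994940606101) (nat_lit 10) (node (node (node leaf (nat_lit 3994940613781) (nat_lit 5) leaf) (nat_lit 3994940613925) (nat_lit 18) leaf) (nat_lit 3994940621221) (nat_lit 14) (node leaf (nat_lit 3994940868181) (nat_lit 10) leaf))) (nat_lit 3994940871061) (nat_lit 8) (node (node (node (node leaf (nat_lit 3994940871253) (nat_lit 12) leaf) (nat_lit 3994940883541) (nat_lit 14) leaf) (nat_lit 3994940884117) (nat_lit 14) (node leaf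 (nat_lit 3994940885329) (nat_lit 14) leaf)) (nat_lit 3994940904517) (nat_lit 13) (node (node leaf (nat_lit 3994940904709) (nat_lit 13) leaf) (nat_lit 3994940932693) (nat_lit 7) (node leaf (nat_lit 3994940933269) (nat_lit 10) leaf)))) (nat_lit 3994940933713) (nat_lit 10) (node (node (node (node (node leaf (nat_lit 3994940934469) (nat_lit 2) leaf) (nat_lit 3994940934481) (nat_lit 9) leaf) (nat_lit 3994940936785) (nat_lit 12) (node leaf (nat_lit 3994940938309) (nat_lit 2) leaf)) (nat_lit 3994940941381) (nat_lit 6) (node (node leaf (nat_lit 3994940941573) (nat_lit 2) leaf) (nat_lit 3994940948773) (nat_lit 8) (node leaf (nat_lit 3994940949061) (nat_lit 2) leaf))) (nat_lit 3994940965909) (nat_lit 4) (node (node (node (node leaf (nat_lit 3994940965957) (nat_lit 6) leaf) (nat_lit 3994942444117) (nat_lit 12) leaf) (nat_lit 3994942444693) (nat_lit 12) (node leaf (nat_lit 3994942456213) (nat_lit 8) leaf)) (nat_lit 3994942456405) (nat_lit 14) (node (node leaf (nat_lit 3994942458181) (nat_lit 2) leaf) (nat_lit 3994942476613) (nat_lit 8) (node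 leaf (nat_lit 3994942477333) (nat_lit 4) leaf)))))

noncomputable def L1_222 : Tr := (node (node (node (node (node (node leaf (nat_lit 3994942507333) (nat_lit 2) leaf) (nat_lit 3994948732501) (nat_lit 10) leaf) (nat_lit 3994948735381) (nat_lit 8) (node leaf (nat_lit 3994948735573) (nat_lit 12) leaf)) (nat_lit 3994948737349) (nat_lit 12) (node (node leaf (nat_lit 3994948749637) (nat_lit 14) leaf) (nat_lit 3994948768021) (nat_lit 4) (node leaf (nat_lit 3994948768789) (nat_lit 4) leaf))) (nat_lit 3994958174533) (nat_lit 12) (node (node (node (node leaf (nat_lit 3994958186821) (nat_lit 14) leaf) (nat_lit 3994958205205) (nat_lit 4) leaf) (nat_lit 3994958205973) (nat_lit 4) (node leaf (nat_lit 3994958234773) (nat_lit 10) leaf)) (nat_lit 3994993102933) (nat_lit 19) (node (node leaf (nat_lit 3994993103125) (nat_lit 8) leaf) (nat_lit 3994994970901) (nat_lit 16) (node leaf (nat_lit 3994995136789) (nat_lit 18) leaf)))) (nat_lit 3994995164437) (nat_lit 10) (node (node (node (node (node leaf (nat_lit 3994995167317) (nat_lit 6) leaf) (nat_lit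 3994995167557) (nat_lit 18) leaf) (nat_lit 3994995265621) (nat_lit 18) (node leaf (nat_lit 3994995265813) (nat_lit 18) leaf)) (nat_lit 3994995459349) (nat_lit 10) (node (node leaf (nat_lit 3994995462229) (nat_lit 6) leaf) (nat_lit 3994995921301) (nat_lit 8) (node leaf (nat_lit 3994995921493) (nat_lit 12) leaf))) (nat_lit 3994995922069) (nat_lit 12) (node (node (node (node leaf (nat_lit 3994995923221) (nat_lit 4) leaf) (nat_lit 3994995923269) (nat_lit 12) leaf) (nat_lit 3994995926101) (nat_lit 6) (node leaf (nat_lit 3994995926293) (nat_lit 4) leaf)) (nat_lit 3994995926341) (nat_lit 11) (node (node leaf (nat_lit 3994995935557) (nat_lit 14) leaf) (nat_lit 3994995941653) (nat_lit 4) (node leaf (nat_lit 3994995953749) (nat_lit 6) leaf)))))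

noncomputable def L1_223 : Tr := node L1_221 (nat_lit 3994942477381) (nat_lit 6) L1_222

noncomputable def L1_224 : Tr := (node (node (node (node (node (node leaf (nat_lit 3994996052053) (nat_lit 6) leaf) (nat_lit 3994997032021) (nat_lit 10) leaf) (nat_lit 3994999345237) (nat_lit 14) (node leaf (nat_lit 3994999391317) (nat_lit 10) leaf)) (nat_lit 3994999394389) (nat_lit 6) (node (node leaf (nat_lit 3995008516693) (nat_lit 20) leaf) (nat_lit 3995011647061) (nat_lit 10) (node leaf (nat_lit 3995011649941) (nat_lit 8) leaf))) (nat_lit 3995011650133) (nat_lit 12) (node (node (node (node leaf (nat_lit 3995024507989) (nat_lit 10) leaf) (nat_lit 3995024511061) (nat_lit 14) leaf) (nat_lit 3995024557141) (nat_lit 10) (node leaf (nat_lit 3995544429841) (nat_lit 25) leaf)) (nat_lit 3995662984513) (nat_lit 20) (node (node leaf (nat_lit 3995663377681) (nat_lit 4) leaf) (nat_lit 3995670455569) (nat_lit 18) (node leaf (nat_lit 3995695424785) (nat_lit 16) leaf)))) (nat_lit 3996493300309) (nat_lit 24) (node (node (node (node (node leaf (nat_lit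 3996503052373) (nat_lit 19) leaf) (nat_lit 3996503052565) (nat_lit 19) leaf) (nat_lit 3996505113877) (nat_lit 18) (node leaf (nat_lit 3996505116997) (nat_lit 18) leaf)) (nat_lit 3996505215061) (nat_lit 18) (node (node leaf (nat_lit 3996505215253) (nat_lit 18) leaf) (nat_lit 3996505408789) (nat_lit 17) (node leaf (nat_lit 3996505411669) (nat_lit 17) leaf))) (nat_lit 3996505411861) (nat_lit 17) (node (node (node (node leaf (nat_lit 3996505870933) (nat_lit 12) leaf) (nat_lit 3996505871509) (nat_lit 12) leaf) (nat_lit 3996505872661) (nat_lit 12) (node leaf (nat_lit 3996505872709) (nat_lit 12) leaf)) (nat_lit 3996505875541) (nat_lit 11) (node (node leaf (nat_lit 3996505875733) (nat_lit 4) leaf) (nat_lit 3996505883029) (nat_lit 8) (node leaf (nat_lit 3996505883221) (nat_lit 7) leaf)))))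

noncomputable def L1_225 : Tr := (node (node (node (node (node (node leaf (nat_lit 3996505884181) (nat_lit 10) leaf) (nat_lit 3996505884757) (nat_lit 6) leaf) (nat_lit 3996505884997) (nat_lit 14) (node leaf (nat_lit 3996505886869) (nat_lit 14) leaf)) (nat_lit 3996505891093) (nat_lit 4) (node (node leaf (nat_lit 3996505900117) (nat_lit 6) leaf) (nat_lit 3996505903189) (nat_lit 6) (node leaf (nat_lit 3996505903381) (nat_lit 4) leaf))) (nat_lit 3996505904149) (nat_lit 4) (node (node (node (node leaf (nat_lit 3996505932949) (nat_lit 10) leaf) (nat_lit 3996505998421) (nat_lit 10) leaf) (nat_lit 3996505998613) (nat_lit 10) (node leaf (nat_lit 3996506001493) (nat_lit 6) leaf)) (nat_lit 3996506001685) (nat_lit 12) (node (node leaf (nat_lit 3996506391637) (nat_lit 10) leaf) (nat_lit 3996506394709) (nat_lit 6) (node leaf (nat_lit 3996506981461) (nat_lit 10) leaf)))) (nat_lit 3996506984533) (nat_lit 6) (node (node (node (node (node leaf (nat_lit 3996509340757) (nat_lit 10) leaf) (nat_lit 3996509343829) (nat_lit 6) leaf) (nat_lit 3996535755349)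 (nat_lit 20) (node leaf (nat_lit 3996535755925) (nat_lit 20) leaf)) (nat_lit 3996535767637) (nat_lit 20) (node (node leaf (nat_lit 3996538397845) (nat_lit 22) leaf) (nat_lit 3996538398229) (nat_lit 22) (node leaf (nat_lit 3996538447237) (nat_lit 22) leaf))) (nat_lit 3996538447381) (nat_lit 22) (node (node (node (node leaf (nat_lit 3996538470997) (nat_lit 22) leaf) (nat_lit 3996538507861) (nat_lit 22) leaf) (nat_lit 3996538508437) (nat_lit 12) (node leaf (nat_lit 3996538519957) (nat_lit 8) leaf)) (nat_lit 3996538520149) (nat_lit 22) (node (node leaf (nat_lit 3996538898005) (nat_lit 10) leaf) (nat_lit 3996538900885) (nat_lit 8) (node leaf (nat_lit 3996538901077) (nat_lit 12) leaf)))))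

noncomputable def L1_226 : Tr := node L1_224 (nat_lit 3996505883797) (nat_lit 14) L1_225

noncomputable def L1_227 : Tr := node L1_223 (nat_lit 3994995953941) (nat_lit 4) L1_226

noncomputable def L1_228 : Tr := (node (node (node (node (node (node leaf (nat_lit 3996543619477) (nat_lit 8) leaf) (nat_lit 3996543619669) (nat_lit 12) leaf) (nat_lit 3996550973077) (nat_lit 10) (node leaf (nat_lit 3996550980181) (nat_lit 7) leaf)) (nat_lit 3996550980757) (nat_lit 14) (node (node leaf (nat_lit 3996550992469) (nat_lit 13) leaf) (nat_lit 3996551022229) (nat_lit 16) (node leaf (nat_lit 3996551029333) (nat_lit 7) leaf))) (nat_lit 3996551029909) (nat_lit 5) (node (node (node (node leaf (nat_lit 3996551030053) (nat_lit 16) leaf) (nat_lit 3996603712597) (nat_lit 19) leaf) (nat_lit 3996603715669) (nat_lit 6) (node leaf (nat_lit 3996605580565) (nat_lit 16) leaf)) (nat_lit 3996605632597) (nat_lit 15) (node (node leaf (nat_lit 3996605632789) (nat_lit 15) leaf) (nat_lit 3996605747797) (nat_lit 18) (node leaf (nat_lit 3996605749573) (nat_lit 18) leaf))))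 (nat_lit 3996605752405) (nat_lit 18) (node (node (node (node (node leaf (nat_lit 3996605752597) (nat_lit 18) leaf) (nat_lit 3996605776981) (nat_lit 6) leaf) (nat_lit 3996605780053) (nat_lit 18) (node leaf (nat_lit 3996605780245) (nat_lit 4) leaf)) (nat_lit 3996605875285) (nat_lit 10) (node (node leaf (nat_lit 3996605878357) (nat_lit 6) leaf) (nat_lit 3996606071893) (nat_lit 6) (node leaf (nat_lit 3996606531157) (nat_lit 10) leaf))) (nat_lit 3996606534037) (nat_lit 8) (node (node (node (node leaf (nat_lit 3996606535765) (nat_lit 6) leaf) (nat_lit 3996606539029) (nat_lit 11) leaf) (nat_lit 3996606548245) (nat_lit 4) (node leaf (nat_lit 3996606563413) (nat_lit 10) leaf)) (nat_lit 3996607643989) (nat_lit 8) (node (node leaf (nat_lit 3996609954901) (nat_lit 14) leaf) (nat_lit 3996610003285) (nat_lit 8) (node leaf (nat_lit 3996610004053) (nat_lit 10) leaf)))))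

noncomputable def L1_229 : Tr := (node (node (node (node (node (node leaf (nat_lit 3996619116949) (nat_lit 20) leaf) (nat_lit 3996619117141) (nat_lit 12) leaf) (nat_lit 3996635119957) (nat_lit 8) (node leaf (nat_lit 3996635120725) (nat_lit 14) leaf)) (nat_lit 3996635169109) (nat_lit 8) (node (node leaf (nat_lit 3997006365013) (nat_lit 19) leaf) (nat_lit 3997006365781) (nat_lit 10) (node leaf (nat_lit 3997008208981) (nat_lit 16) leaf))) (nat_lit 3997008209173) (nat_lit 16) (node (node (node (node leaf (nat_lit 3997008233557) (nat_lit 6) leaf) (nat_lit 3997008282709) (nat_lit 10) leaf) (nat_lit 3997008285781) (nat_lit 6) (node leaf (nat_lit 3997008397909) (nat_lit 10) leaf)) (nat_lit 3997008405589) (nat_lit 6) (node (node leaf (nat_lit 3997008675925) (nat_lit 14) leaf) (nat_lit 3997008724309) (nat_lit 8) (node leaf (nat_lit 3997009184341) (nat_lit 22) leaf)))) (nat_lit 3997009185109) (nat_lit 9) (node (node (node (node (node leaf (nat_lit 3997009187413) (nat_lit 22) leaf) (nat_lit 3997010248021) (nat_lit 14) leaf) (nat_lit 3997012607317)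 (nat_lit 14) (node leaf (nat_lit 3997012608085) (nat_lit 14) leaf)) (nat_lit 3997012656469) (nat_lit 8) (node (node leaf (nat_lit 3997037576533) (nat_lit 16) leaf) (nat_lit 3997037760853) (nat_lit 12) (node leaf (nat_lit 3997037773141) (nat_lit 14) leaf))) (nat_lit 3997138227541) (nat_lit 16) (node (node (node (node leaf (nat_lit 3997138424149) (nat_lit 12) leaf) (nat_lit 4020199752853) (nat_lit 10) leaf) (nat_lit 4020259590421) (nat_lit 19) (node leaf (nat_lit 4020259602709) (nat_lit 19) leaf)) (nat_lit 4020261949717) (nat_lit 17) (node (node leaf (nat_lit 4020261962005) (nat_lit 17) leaf) (nat_lit 4020262409365) (nat_lit 12) (node leaf (nat_lit 4020262410517) (nat_lit 4) leaf)))))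

noncomputable def L1_230 : Tr := node L1_228 (nat_lit 3996619114069) (nat_lit 20) L1_229

noncomputable def L1_231 : Tr := (node (node (node (node (node (node leaf (nat_lit 4020262421077) (nat_lit 14) leaf) (nat_lit 4020262421605) (nat_lit 10) leaf) (nat_lit 4020262421653) (nat_lit 10) (node leaf (nat_lit 4020262422037) (nat_lit 4) leaf)) (nat_lit 4020262422085) (nat_lit 10) (node (node leaf (nat_lit 4020262422805) (nat_lit 4) leaf) (nat_lit 4020262422853) (nat_lit 2) (node leaf (nat_lit 4020262424677) (nat_lit 14) leaf))) (nat_lit 4020262428757) (nat_lit 6) (node (node (node (node leaf (nat_lit 4020262428949) (nat_lit 4) leaf) (nat_lit 4020262428997) (nat_lit 8) leaf) (nat_lit 4020262429717) (nat_lit 4) (node leaf (nat_lit 4020262441045) (nat_lit 6) leaf)) (nat_lit 4020262441237) (nat_lit 8) (node (node leaf (nat_lit 4020262470805) (nat_lit 16) leaf) (nat_lit 4020262539349) (nat_lit 12) (node leaf (nat_lit 4020262539541) (nat_lit 12) leaf)))) (nat_lit 4020262540309) (nat_lit 12) (node (node (node (node (node leaf (nat_lit 4020262551829)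 (nat_lit 8) leaf) (nat_lit 4020262929685) (nat_lit 10) leaf) (nat_lit 4020262932565) (nat_lit 6) (node leaf (nat_lit 4020262932757) (nat_lit 12) leaf)) (nat_lit 4020263519509) (nat_lit 10) (node (node leaf (nat_lit 4020263522581) (nat_lit 12) leaf) (nat_lit 4020265878805) (nat_lit 10) (node leaf (nat_lit 4020265881877) (nat_lit 12) leaf))) (nat_lit 4020662240533) (nat_lit 19) (node (node (node (node leaf (nat_lit 4020662243605) (nat_lit 19) leaf) (nat_lit 4020664277269) (nat_lit 18) leaf) (nat_lit 4020664307797) (nat_lit 18) (node leaf (nat_lit 4020664406101) (nat_lit 18) leaf)) (nat_lit 4020664599829) (nat_lit 17) (node (node leaf (nat_lit 4020664602709) (nat_lit 17) leaf) (nat_lit 4020664602901) (nat_lit 17) (node leaf (nat_lit 4020665061781) (nat_lit 8) leaf)))))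

noncomputable def L1_232 : Tr := (node (node (node (node (node (node leaf (nat_lit 4020665062549) (nat_lit 12) leaf) (nat_lit 4020665063509) (nat_lit 6) leaf) (nat_lit 4020665063701) (nat_lit 12) (node leaf (nat_lit 4020665063749) (nat_lit 23) leaf)) (nat_lit 4020665066581) (nat_lit 11) (node (node leaf (nat_lit 4020665066773) (nat_lit 4) leaf) (nat_lit 4020665066821) (nat_lit 11) (node leaf (nat_lit 4020665074069) (nat_lit 8) leaf))) (nat_lit 4020665074261) (nat_lit 7) (node (node (node (node leaf (nat_lit 4020665074789) (nat_lit 10) leaf) (nat_lit 4020665074837) (nat_lit 14) leaf) (nat_lit 4020665075221) (nat_lit 4) (node leaf (nat_lit 4020665075797) (nat_lit 6) leaf)) (nat_lit 4020665076037) (nat_lit 23) (node (node leaf (nat_lit 4020665082133) (nat_lit 4) leaf) (nat_lit 4020665091157) (nat_lit 10) (node leaf (nat_lit 4020665094229) (nat_lit 6) leaf)))) (nat_lit 4020665094421) (nat_lit 23) (node (node (node (node (node leaf (nat_lit 4020665095189) (nat_lit 23) leaf) (nat_lit 4020665123989) (nat_lit 23) leaf) (nat_lit 4020665189461)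 (nat_lit 10) (node leaf (nat_lit 4020665189653) (nat_lit 10) leaf)) (nat_lit 4020665192533) (nat_lit 6) (node (node leaf (nat_lit 4020665192725) (nat_lit 8) leaf) (nat_lit 4020665582677) (nat_lit 10) (node leaf (nat_lit 4020665585749) (nat_lit 6) leaf))) (nat_lit 4020666172501) (nat_lit 6) (node (node (node (node leaf (nat_lit 4020666175573) (nat_lit 6) leaf) (nat_lit 4020668531797) (nat_lit 6) leaf) (nat_lit 4020668534869) (nat_lit 6) (node leaf (nat_lit 4020697588885) (nat_lit 22) leaf)) (nat_lit 4020697589269) (nat_lit 22) (node (node leaf (nat_lit 4020697638277) (nat_lit 22) leaf) (nat_lit 4020697638421) (nat_lit 22) (node leaf (nat_lit 4020697662037) (nat_lit 22) leaf)))))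

noncomputable def L1_233 : Tr := node L1_231 (nat_lit 4020665061973) (nat_lit 12) L1_232

noncomputable def L1_234 : Tr := node L1_230 (nat_lit 4020262413637) (nat_lit 11) L1_233

noncomputable def L1_235 : Tr := node L1_227 (nat_lit 3996543616597) (nat_lit 10) L1_234

noncomputable def L1_236 : Tr := (node (node (node (node (node (node leaf (nat_lit 4020697710997) (nat_lit 22) leaf) (nat_lit 4020697711189) (nat_lit 22) leaf) (nat_lit 4020698089045) (nat_lit 22) (node leaf (nat_lit 4020698091925) (nat_lit 22) leaf)) (nat_lit 4020698092117) (nat_lit 22) (node (node leaf (nat_lit 4020702807637) (nat_lit 21) leaf) (nat_lit 4020702810517) (nat_lit 21) (node leaf (nat_lit 4020702810709) (nat_lit 21) leaf))) (nat_lit 4020702812485) (nat_lit 21) (node (node (node (node leaf (nat_lit 4020702824773) (nat_lit 21) leaf) (nat_lit 4020702843157) (nat_lit 21) leaf) (nat_lit 4020702843925) (nat_lit 21) (node leaf (nat_lit 4020702872725) (nat_lit 16) leaf)) (nat_lit 4020710164117) (nat_lit 14) (node (node leaf (nat_lit 4020710171029) (nat_lit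 8) leaf) (nat_lit 4020710171221) (nat_lit 7) (node leaf (nat_lit 4020710171797) (nat_lit 14) leaf)))) (nat_lit 4020710172181) (nat_lit 14) (node (node (node (node (node leaf (nat_lit 4020710183509) (nat_lit 13) leaf) (nat_lit 4020710213269) (nat_lit 16) leaf) (nat_lit 4020710217877) (nat_lit 5) (node leaf (nat_lit 4020710218021) (nat_lit 12) leaf)) (nat_lit 4020710218129) (nat_lit 0) (node (node leaf (nat_lit 4020710218321) (nat_lit 0) leaf) (nat_lit 4020710220373) (nat_lit 7) (node leaf (nat_lit 4020710220901) (nat_lit 6) leaf))) (nat_lit 4020710220949) (nat_lit 5) (node (node (node (node leaf (nat_lit 4020710221093) (nat_lit 16) leaf) (nat_lit 4020710221333) (nat_lit 4) leaf) (nat_lit 4020710228389) (nat_lit 16) (node leaf (nat_lit 4020710244949) (nat_lit 7) leaf)) (nat_lit 4020710245525) (nat_lit 10) (node (node leaf (nat_lit 4020710245969) (nat_lit 10) leaf) (nat_lit 4020710246725) (nat_lit 9) (node leaf (nat_lit 4020710248729) (nat_lit 8) leaf)))))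

noncomputable def L1_237 : Tr := (node (node (node (node (node (node leaf (nat_lit 4020710249029) (nat_lit 2) leaf) (nat_lit 4020710250565) (nat_lit 6) leaf) (nat_lit 4020710253637) (nat_lit 2) (node leaf (nat_lit 4020710253829) (nat_lit 2) leaf)) (nat_lit 4020710278741) (nat_lit 10) (node (node leaf (nat_lit 4020710281621) (nat_lit 12) leaf) (nat_lit 4020710281813) (nat_lit 12) (node leaf (nat_lit 4020710294101) (nat_lit 7) leaf))) (nat_lit 4020710294677) (nat_lit 10) (node (node (node (node leaf (nat_lit 4020710675029) (nat_lit 12) leaf) (nat_lit 4020710687125) (nat_lit 8) leaf) (nat_lit 4020710687317) (nat_lit 14) (node leaf (nat_lit 4020710689093) (nat_lit 14) leaf)) (nat_lit 4020710708245) (nat_lit 13) (node (node leaf (nat_lit 4020710708293) (nat_lit 13) leaf) (nat_lit 4020710737477) (nat_lit 2) (node leaf (nat_lit 4020710738245) (nat_lit 9) leaf)))) (nat_lit 4020710740549) (nat_lit 12) (node (node (node (node (node leaf (nat_lit 4020710745109) (nat_lit 4) leaf) (nat_lit 4020710745157) (nat_lit 6) leaf) (nat_lit 4020710752357)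 (nat_lit 6) (node leaf (nat_lit 4020712244821) (nat_lit 10) leaf)) (nat_lit 4020712247701) (nat_lit 12) (node (node leaf (nat_lit 4020712247893) (nat_lit 12) leaf) (nat_lit 4020712249669) (nat_lit 12) (node leaf (nat_lit 4020712261957) (nat_lit 14) leaf))) (nat_lit 4020712280341) (nat_lit 8) (node (node (node (node leaf (nat_lit 4020712281109) (nat_lit 4) leaf) (nat_lit 4020718541077) (nat_lit 4) leaf) (nat_lit 4020727978261) (nat_lit 4) (node leaf (nat_lit 4020762903637) (nat_lit 19) leaf)) (nat_lit 4020762906709) (nat_lit 6) (node (node leaf (nat_lit 4020764774485) (nat_lit 16) leaf) (nat_lit 4020764938645) (nat_lit 18) (node leaf (nat_lit 4020764940373) (nat_lit 6) leaf)))))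

noncomputable def L1_238 : Tr := node L1_236 (nat_lit 4020710248837) (nat_lit 2) L1_237

noncomputable def L1_239 : Tr := (node (node (node (node (node (node leaf (nat_lit 4020764943445) (nat_lit 18) leaf) (nat_lit 4020764943637) (nat_lit 18) leaf) (nat_lit 4020764968021) (nat_lit 10) (node leaf (nat_lit 4020764971093) (nat_lit 18) leaf)) (nat_lit 4020764971285) (nat_lit 18) (node (node leaf (nat_lit 4020765066325) (nat_lit 10) leaf) (nat_lit 4020765069397) (nat_lit 18) (node leaf (nat_lit 4020765262933) (nat_lit 10) leaf))) (nat_lit 4020765722197) (nat_lit 10) (node (node (node (node leaf (nat_lit 4020765725077) (nat_lit 8) leaf) (nat_lit 4020765726805) (nat_lit 6) leaf) (nat_lit 4020765726997) (nat_lit 4) (node leaf (nat_lit 4020765730069) (nat_lit 4) leaf)) (nat_lit 4020765754453) (nat_lit 10) (node (node leaf (nat_lit 4020765757525) (nat_lit 6) leaf) (nat_lit 4020766835029) (nat_lit 8) (node leaf (nat_lit 4020769145941) (nat_lit 14) leaf)))) (nat_lit 4020769149013) (nat_lit 14) (node (node (node (node (node leaf (nat_lit 4020769194325)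 (nat_lit 8) leaf) (nat_lit 4020769195093) (nat_lit 10) leaf) (nat_lit 4020778305109) (nat_lit 20) (node leaf (nat_lit 4020778307989) (nat_lit 20) leaf)) (nat_lit 4020778308181) (nat_lit 20) (node (node leaf (nat_lit 4020794310997) (nat_lit 8) leaf) (nat_lit 4020794311765) (nat_lit 10) (node leaf (nat_lit 4022263088725) (nat_lit 24) leaf))) (nat_lit 4022263091605) (nat_lit 24) (node (node (node (node leaf (nat_lit 4022263091797) (nat_lit 24) leaf) (nat_lit 4022272853077) (nat_lit 19) leaf) (nat_lit 4022272856149) (nat_lit 19) (node leaf (nat_lit 4022274890053) (nat_lit 18) leaf)) (nat_lit 4022274892885) (nat_lit 18) (node (node leaf (nat_lit 4022274893077) (nat_lit 18) leaf) (nat_lit 4022274917461) (nat_lit 18) (node leaf (nat_lit 4022274920725) (nat_lit 18) leaf)))))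

noncomputable def L1_240 : Tr := (node (node (node (node (node (node leaf (nat_lit 4022275018837) (nat_lit 18) leaf) (nat_lit 4022275212373) (nat_lit 17) leaf) (nat_lit 4022275215445) (nat_lit 17) (node leaf (nat_lit 4022275671637) (nat_lit 10) leaf)) (nat_lit 4022275674709) (nat_lit 12) (node (node leaf (nat_lit 4022275675285) (nat_lit 12) leaf) (nat_lit 4022275676245) (nat_lit 12) (node leaf (nat_lit 4022275676437) (nat_lit 4) leaf))) (nat_lit 4022275676485) (nat_lit 12) (node (node (node (node leaf (nat_lit 4022275678549) (nat_lit 8) leaf) (nat_lit 4022275679317) (nat_lit 6) leaf) (nat_lit 4022275679509) (nat_lit 11) (node leaf (nat_lit 4022275686997) (nat_lit 7) leaf)) (nat_lit 4022275687573) (nat_lit 14) (node (node leaf (nat_lit 4022275688725) (nat_lit 4) leaf) (nat_lit 4022275703125) (nat_lit 8) (node leaf (nat_lit 4022275703893) (nat_lit 10) leaf)))) (nat_lit 4022275706965) (nat_lit 6) (node (node (node (node (node leaf (nat_lit 4022275707157) (nat_lit 8) leaf) (nat_lit 4022275801429) (nat_lit 8) leaf) (nat_lit 4022275802197)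 (nat_lit 10) (node leaf (nat_lit 4022275802389) (nat_lit 10) leaf)) (nat_lit 4022275805269) (nat_lit 6) (node (node leaf (nat_lit 4022276194645) (nat_lit 8) leaf) (nat_lit 4022276195413) (nat_lit 10) (node leaf (nat_lit 4022276784469) (nat_lit 8) leaf))) (nat_lit 4022276785237) (nat_lit 10) (node (node (node (node leaf (nat_lit 4022279143765) (nat_lit 8) leaf) (nat_lit 4022279144533) (nat_lit 10) leaf) (nat_lit 4022305556053) (nat_lit 20) (node leaf (nat_lit 4022305558933) (nat_lit 20) leaf)) (nat_lit 4022305559125) (nat_lit 20) (node (node leaf (nat_lit 4022308193941) (nat_lit 22) leaf) (nat_lit 4022308200853) (nat_lit 8) (node leaf (nat_lit 4022308201045) (nat_lit 7) leaf)))))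

noncomputable def L1_241 : Tr := node L1_239 (nat_lit 4022275015765) (nat_lit 18) L1_240

noncomputable def L1_242 : Tr := node L1_238 (nat_lit 4020764940613) (nat_lit 18) L1_241

noncomputable def L1_243 : Tr := (node (node (node (node (node (node leaf (nat_lit 4022308213333) (nat_lit 13) leaf) (nat_lit 4022308250197) (nat_lit 7) leaf) (nat_lit 4022308250773) (nat_lit 5) (node leaf (nat_lit 4022308250917) (nat_lit 22) leaf)) (nat_lit 4022308308565) (nat_lit 10) (node (node leaf (nat_lit 4022308311445) (nat_lit 12) leaf) (nat_lit 4022308311637) (nat_lit 12) (node leaf (nat_lit 4022320776853) (nat_lit 14) leaf))) (nat_lit 4022373515605) (nat_lit 19) (node (node (node (node leaf (nat_lit 4022373516373) (nat_lit 10) leaf) (nat_lit 4022375359573) (nat_lit 16) leaf) (nat_lit 4022375384149) (nat_lit 16) (node leaf (nat_lit 4022375433301) (nat_lit 15) leaf)) (nat_lit 4022375436373) (nat_lit 15) (node (node leaf (nat_lit 4022375548501) (nat_lit 18) leaf) (nat_lit 4022375553301) (nat_lit 4) (node leaf (nat_lit 4022375555413) (nat_lit 8)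 leaf)))) (nat_lit 4022375556181) (nat_lit 6) (node (node (node (node (node leaf (nat_lit 4022375556373) (nat_lit 18) leaf) (nat_lit 4022375579989) (nat_lit 8) leaf) (nat_lit 4022375580757) (nat_lit 18) (node leaf (nat_lit 4022375583829) (nat_lit 6) leaf)) (nat_lit 4022375678293) (nat_lit 8) (node (node leaf (nat_lit 4022375679061) (nat_lit 10) leaf) (nat_lit 4022375826517) (nat_lit 14) (node leaf (nat_lit 4022375874901) (nat_lit 8) leaf))) (nat_lit 4022376334933) (nat_lit 22) (node (node (node (node leaf (nat_lit 4022376335701) (nat_lit 9) leaf) (nat_lit 4022376337813) (nat_lit 22) leaf) (nat_lit 4022376338005) (nat_lit 22) (node leaf (nat_lit 4022376342613) (nat_lit 6) leaf)) (nat_lit 4022377398613) (nat_lit 14) (node (node leaf (nat_lit 4022379757909) (nat_lit 14) leaf) (nat_lit 4022379758677) (nat_lit 14) (node leaf (nat_lit 4022404727125) (nat_lit 16) leaf)))))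

noncomputable def L1_244 : Tr := (node (node (node (node (node (node leaf (nat_lit 4022404912213) (nat_lit 12) leaf) (nat_lit 4022404923733) (nat_lit 8) leaf) (nat_lit 4022776119637) (nat_lit 19) (node leaf (nat_lit 4022776120405) (nat_lit 14) leaf)) (nat_lit 4022776168789) (nat_lit 8) (node (node leaf (nat_lit 4022777963605) (nat_lit 14) leaf) (nat_lit 4022778005077) (nat_lit 16) (node leaf (nat_lit 4022778011989) (nat_lit 8) leaf))) (nat_lit 4022778012757) (nat_lit 16) (node (node (node (node leaf (nat_lit 4022778085717) (nat_lit 8) leaf) (nat_lit 4022778086485) (nat_lit 10) leaf) (nat_lit 4022778201685) (nat_lit 18) (node leaf (nat_lit 4022778202453) (nat_lit 18) leaf)) (nat_lit 4022778478933) (nat_lit 8) (node (node leaf (nat_lit 4022780039509) (nat_lit 12) leaf) (nat_lit 4022782214485) (nat_lit 16) (node leaf (nat_lit 4022782398805) (nat_lit 12) leaf)))) (nat_lit 4022782411093) (nat_lit 8) (node (node (node (node (node leaf (nat_lit 4022807368021) (nat_lit 12) leaf) (nat_lit 4022807564629) (nat_lit 12) leaf) (nat_lit 4022908028245)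 (nat_lit 10) (node leaf (nat_lit 4022908224853) (nat_lit 10) leaf)) (nat_lit 4028715303253) (nat_lit 19) (node (node leaf (nat_lit 4028715304021) (nat_lit 19) leaf) (nat_lit 4028717340949) (nat_lit 18) (node leaf (nat_lit 4028717343061) (nat_lit 18) leaf))) (nat_lit 4028717343829) (nat_lit 18) (node (node (node (node leaf (nat_lit 4028717344021) (nat_lit 18) leaf) (nat_lit 4028717367637) (nat_lit 18) leaf) (nat_lit 4028717368405) (nat_lit 18) (node leaf (nat_lit 4028717371477) (nat_lit 18) leaf)) (nat_lit 4028717465941) (nat_lit 18) (node (node leaf (nat_lit 4028717466709) (nat_lit 18) leaf) (nat_lit 4028717662549) (nat_lit 17) (node leaf (nat_lit 4028717663317) (nat_lit 17) leaf)))))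

noncomputable def L1_245 : Tr := node L1_243 (nat_lit 4022404911445) (nat_lit 12) L1_244

noncomputable def L1_246 : Tr := (node (node (node (node (node (node leaf (nat_lit 4028718123349) (nat_lit 9) leaf) (nat_lit 4028718125461) (nat_lit 8) leaf) (nat_lit 4028718125653) (nat_lit 12) (node leaf (nat_lit 4028718127189) (nat_lit 6) leaf)) (nat_lit 4028718127381) (nat_lit 4) (node (node leaf (nat_lit 4028718129493) (nat_lit 8) leaf) (nat_lit 4028718130261) (nat_lit 6) (node leaf (nat_lit 4028718154069) (nat_lit 8) leaf))) (nat_lit 4028718154837) (nat_lit 10) (node (node (node (node leaf (nat_lit 4028718155029) (nat_lit 10) leaf) (nat_lit 4028718252373) (nat_lit 8) leaf) (nat_lit 4028718253141) (nat_lit 6) (node leaf (nat_lit 4028719186261) (nat_lit 14) leaf)) (nat_lit 4028721545557) (nat_lit 14) (node (node leaf (nat_lit 4028721546325) (nat_lit 14) leaf) (nat_lit 4028815917397) (nat_lit 19) (node leaf (nat_lit 4028815918165) (nat_lit 14) leaf)))) (nat_lit 4028815966549) (nat_lit 8) (node (node (node (node (node leaf (nat_lit 4028817809749)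 (nat_lit 16) leaf) (nat_lit 4028817810517) (nat_lit 16) leaf) (nat_lit 4028817834325) (nat_lit 16) (node leaf (nat_lit 4028817883477) (nat_lit 15) leaf)) (nat_lit 4028817884245) (nat_lit 15) (node (node leaf (nat_lit 4028817999445) (nat_lit 18) leaf) (nat_lit 4028818000213) (nat_lit 18) (node leaf (nat_lit 4028818002325) (nat_lit 18) leaf))) (nat_lit 4028818004053) (nat_lit 6) (node (node (node (node leaf (nat_lit 4028818006357) (nat_lit 8) leaf) (nat_lit 4028818007125) (nat_lit 6) leaf) (nat_lit 4028818030933) (nat_lit 8) (node leaf (nat_lit 4028818031701) (nat_lit 10) leaf)) (nat_lit 4028818276693) (nat_lit 14) (node (node leaf (nat_lit 4028819837269) (nat_lit 12) leaf) (nat_lit 4028822196565) (nat_lit 12) (node leaf (nat_lit 4028822197333) (nat_lit 12) leaf)))))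

noncomputable def L1_247 : Tr := (node (node (node (node (node (node leaf (nat_lit 4028847165781) (nat_lit 16) leaf) (nat_lit 4028847362389) (nat_lit 8) leaf) (nat_lit 4029217390933) (nat_lit 20) (node leaf (nat_lit 4029218558293) (nat_lit 19) leaf)) (nat_lit 4029218570581) (nat_lit 14) (node (node leaf (nat_lit 4029220413781) (nat_lit 14) leaf) (nat_lit 4029220414549) (nat_lit 14) (node leaf (nat_lit 4029220456021) (nat_lit 16) leaf))) (nat_lit 4029220456789) (nat_lit 16) (node (node (node (node leaf (nat_lit 4029220536661) (nat_lit 8) leaf) (nat_lit 4029220917589) (nat_lit 12) leaf) (nat_lit 4029222487381) (nat_lit 10) (node leaf (nat_lit 4029224653141) (nat_lit 16) leaf)) (nat_lit 4029224846677) (nat_lit 10) (node (node leaf (nat_lit 4029224849749) (nat_lit 12) leaf) (nat_lit 4029249815893) (nat_lit 10) (node leaf (nat_lit 4029250012501) (nat_lit 10) leaf)))) (nat_lit 4029350430037) (nat_lit 14) (node (node (node (node (node leaf (nat_lit 4029350479189) (nat_lit 16) leaf) (nat_lit 4030827217237) (nat_lit 18) leaf) (nat_lit 4030827880789)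 (nat_lit 20) (node leaf (nat_lit 4030829167957) (nat_lit 19) leaf)) (nat_lit 4030829171029) (nat_lit 12) (node (node leaf (nat_lit 4030831019605) (nat_lit 14) leaf) (nat_lit 4030831020373) (nat_lit 14) (node leaf (nat_lit 4030831026517) (nat_lit 8) leaf))) (nat_lit 4030831137109) (nat_lit 12) (node (node (node (node leaf (nat_lit 4030831527253) (nat_lit 10) leaf) (nat_lit 4030835262805) (nat_lit 16) leaf) (nat_lit 4030835459413) (nat_lit 10) (node leaf (nat_lit 4030860379477) (nat_lit 14) leaf)) (nat_lit 4030860428629) (nat_lit 16) (node (node leaf (nat_lit 4030961030485) (nat_lit 12) leaf) (nat_lit 4030961042773) (nat_lit 14) (node leaf (nat_lit 4031363683669) (nat_lit 12) leaf)))))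

noncomputable def L1_248 : Tr := node L1_246 (nat_lit 4028822208853) (nat_lit 8) L1_247

noncomputable def L1_249 : Tr := node L1_245 (nat_lit 4028718122581) (nat_lit 10) L1_248

noncomputable def L1_250 : Tr := node L1_242 (nat_lit 4022308201621) (nat_lit 22) L1_249

noncomputable def L1_251 : Tr := node L1_235 (nat_lit 4020697698901) (nat_lit 22) L1_250

noncomputable def L1_252 : Tr := node L1_220 (nat_lit 3994940490325) (nat_lit 7) L1_251

noncomputable def L1_253 : Tr := node L1_189 (nat_lit 3891869532757) (nat_lit 14) L1_252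

noncomputable def L1_254 : Tr := node L1_126 (nat_lit 3481155028501) (nat_lit 10) L1_253

/-- data -/
noncomputable def L1 : Tr := L1_254

end Q165.TF
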